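import Pool.Agent.LibSR85.M10

/-! Row SR85 M11: equidistribution of loops.

PLAN. Write `L κ = (∫ ψ rho) * ∫ κ (e^{iθ}) dθ`; `L (κ + ε) ≤ L κ + C ε`,
`L (max (κ - ε) 0) ≥ L κ - C ε`. Fix `ε`, take `F, η` from `loop_cmp`. Sum over `g ∉ F`, `g ≠ 1`:
`∑ lg T ≤ e^ε ∑_{all g} wg (κ + ε) (T + 1) + ∑_{g ∈ F, g ≠ 1} lg T`, the last sum is bounded
independently of `T` (for `g ≠ 1` no point is fixed (`hX.orbit`), `J x (g x)` is continuous and
positive, so bounded below on `tsupport ψ`); and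
`∑ lg T ≥ e^{-ε} (∑_{all g} wg (max (κ - ε) 0) (T - 1) - ∑_{g ∈ F ∪ {1}} wg ..)`, the last sum
bounded by `kern_one`. Divide by `T`, `T → ∞` (`kern_lim`, `(T ± 1) / T → 1`), `ε → 0`. -/

open MeasureTheory Set Filter Topology
open scoped ContDiff ENNReal NNReal ComplexConjugate

namespace SR85

open BGS (Pl Surface)

variable {Γ : Type} [Group Γ] [MulAction Γ Pl] {D : Set Pl} {G : Dat Γ}

/-- the limit argument -/
private theorem M11_limit (f : ℝ → ℝ≥0∞) (R I : ℝ) (hR : 0 ≤ R)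
    (hup : ∀ ε : ℝ, 0 < ε → ∃ (W : ℝ → ℝ≥0∞) (C : ℝ≥0∞) (I' : ℝ), C < ⊤ ∧ (∀ T, W T < ⊤) ∧
      Tendsto (fun T : ℝ => (W T).toReal / T) atTop (𝓝 (R * I')) ∧
      I' ≤ I + 2 * Real.pi * ε ∧
      ∀ T, f T ≤ C + ENNReal.ofReal (Real.exp ε) * W (T + 1))
    (hlo : ∀ ε : ℝ, 0 < ε → ∃ (W : ℝ → ℝ≥0∞) (C : ℝ≥0∞) (I' : ℝ), C < ⊤ ∧ (∀ T, W T < ⊤) ∧
      Tendsto (fun T : ℝ => (W T).toReal / T) atTop (𝓝 (R * I')) ∧
      I - 2 * Real.pi * ε ≤ I' ∧
      ∀ T, W (T - 1) ≤ C + ENNReal.ofReal (Real.exp ε) * f T) :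
    Tendsto (fun T : ℝ => (f T).toReal / T) atTop (𝓝 (R * I)) ∧ ∀ T, f T < ⊤ := by
  have hfin : ∀ T, f T < ⊤ := by
    intro T
    obtain ⟨W, C, I', hC, hW, _, _, hf⟩ := hup 1 one_pos
    exact (hf T).trans_lt (ENNReal.add_lt_top.2
      ⟨hC, ENNReal.mul_lt_top ENNReal.ofReal_lt_top (hW _)⟩)
  refine ⟨?_, hfin⟩
  have hinv : Tendsto (fun T : ℝ => T⁻¹) atTop (𝓝 0) := tendsto_inv_atTop_zero
  rw [tendsto_order]
  constructor
  · intro a ha
    have hcont : Continuous fun ε : ℝ => Real.exp (-ε) * (R * (I - 2 * Real.pi * ε)) := by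
      fun_prop
    have h0 : ∀ᶠ ε : ℝ in 𝓝 0, a < Real.exp (-ε) * (R * (I - 2 * Real.pi * ε)) := by
      apply hcont.continuousAt.eventually_const_lt
      simpa using ha
    obtain ⟨ε, hε, hεpos⟩ : ∃ ε : ℝ, a < Real.exp (-ε) * (R * (I - 2 * Real.pi * ε)) ∧ 0 < ε := by
      have h1 : ∀ᶠ ε : ℝ in 𝓝[>] 0, a < Real.exp (-ε) * (R * (I - 2 * Real.pi * ε)) :=
        h0.filter_mono nhdsWithin_le_nhds
      exact (h1.and self_mem_nhdsWithin).exists
    obtain ⟨W, C, I', hC, hW, hlim, hI, hf⟩ := hlo ε hεpos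
    have ha2 : a < Real.exp (-ε) * (R * I') := hε.trans_le
      (mul_le_mul_of_nonneg_left (mul_le_mul_of_nonneg_left hI hR) (Real.exp_pos _).le)
    have hl1 : Tendsto (fun T : ℝ => (W (T - 1)).toReal / (T - 1)) atTop (𝓝 (R * I')) :=
      hlim.comp (tendsto_atTop_add_const_right atTop (-1) tendsto_id)
    have hl2 : Tendsto (fun T : ℝ => (T - 1) / T) atTop (𝓝 1) := by
      have h2 : Tendsto (fun T : ℝ => 1 - T⁻¹) atTop (𝓝 (1 - 0)) := hinv.const_sub 1
      rw [sub_zero] at h2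
      refine h2.congr' ?_
      filter_upwards [eventually_gt_atTop (0 : ℝ)] with T hT
      field_simp
    have hl3 : Tendsto (fun T : ℝ => Real.exp (-ε) *
        ((W (T - 1)).toReal / (T - 1) * ((T - 1) / T) - C.toReal * T⁻¹)) atTop
        (𝓝 (Real.exp (-ε) * (R * I' * 1 - C.toReal * 0))) :=
      ((hl1.mul hl2).sub (hinv.const_mul _)).const_mul _
    rw [mul_one, mul_zero, sub_zero] at hl3
    filter_upwards [hl3.eventually_const_lt ha2, eventually_gt_atTop (1 : ℝ)] with T hT1 hT2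
    refine hT1.trans_le ?_
    have hT0 : 0 < T := by linarith
    have h3 : (W (T - 1)).toReal ≤ C.toReal + Real.exp ε * (f T).toReal := by
      have h4 := ENNReal.toReal_mono (ENNReal.add_lt_top.2
        ⟨hC, ENNReal.mul_lt_top ENNReal.ofReal_lt_top (hfin T)⟩).ne (hf T)
      rwa [ENNReal.toReal_add hC.ne (ENNReal.mul_lt_top ENNReal.ofReal_lt_top (hfin T)).ne,
        ENNReal.toReal_mul, ENNReal.toReal_ofReal (Real.exp_pos _).le] at h4
    have h5 : (W (T - 1)).toReal / (T - 1) * ((T - 1) / T) - C.toReal * T⁻¹ =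
        ((W (T - 1)).toReal - C.toReal) / T := by
      have : T - 1 ≠ 0 := by linarith
      field_simp
    rw [h5, Real.exp_neg, ← div_eq_inv_mul, div_div, div_le_div_iff₀ (by positivity) hT0]
    have h6 : (W (T - 1)).toReal - C.toReal ≤ Real.exp ε * (f T).toReal := by linarith
    calc ((W (T - 1)).toReal - C.toReal) * T ≤ (Real.exp ε * (f T).toReal) * T :=
          mul_le_mul_of_nonneg_right h6 hT0.le
      _ = (f T).toReal * (T * Real.exp ε) := by ring
  · intro a ha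
    have hcont : Continuous fun ε : ℝ => Real.exp ε * (R * (I + 2 * Real.pi * ε)) := by
      fun_prop
    have h0 : ∀ᶠ ε : ℝ in 𝓝 0, Real.exp ε * (R * (I + 2 * Real.pi * ε)) < a := by
      apply hcont.continuousAt.eventually_lt_const
      simpa using ha
    obtain ⟨ε, hε, hεpos⟩ : ∃ ε : ℝ, Real.exp ε * (R * (I + 2 * Real.pi * ε)) < a ∧ 0 < ε := by
      have h1 : ∀ᶠ ε : ℝ in 𝓝[>] 0, Real.exp ε * (R * (I + 2 * Real.pi * ε)) < a :=
        h0.filter_mono nhdsWithin_le_nhds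
      exact (h1.and self_mem_nhdsWithin).exists
    obtain ⟨W, C, I', hC, hW, hlim, hI, hf⟩ := hup ε hεpos
    have ha2 : Real.exp ε * (R * I') < a := (mul_le_mul_of_nonneg_left
      (mul_le_mul_of_nonneg_left hI hR) (Real.exp_pos _).le).trans_lt hε
    have hl1 : Tendsto (fun T : ℝ => (W (T + 1)).toReal / (T + 1)) atTop (𝓝 (R * I')) :=
      hlim.comp (tendsto_atTop_add_const_right atTop 1 tendsto_id)
    have hl2 : Tendsto (fun T : ℝ => (T + 1) / T) atTop (𝓝 1) := by
      have h2 : Tendsto (fun T : ℝ => 1 + T⁻¹) atTop (𝓝 (1 + 0)) := hinv.const_add 1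
      rw [add_zero] at h2
      refine h2.congr' ?_
      filter_upwards [eventually_gt_atTop (0 : ℝ)] with T hT
      field_simp
    have hl3 : Tendsto (fun T : ℝ => C.toReal * T⁻¹ + Real.exp ε *
        ((W (T + 1)).toReal / (T + 1) * ((T + 1) / T))) atTop
        (𝓝 (C.toReal * 0 + Real.exp ε * (R * I' * 1))) :=
      (hinv.const_mul _).add ((hl1.mul hl2).const_mul _)
    rw [mul_one, mul_zero, zero_add] at hl3
    filter_upwards [hl3.eventually_lt_const ha2, eventually_gt_atTop (0 : ℝ)] with T hT1 hT0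
    refine lt_of_le_of_lt ?_ hT1
    have h3 : (f T).toReal ≤ C.toReal + Real.exp ε * (W (T + 1)).toReal := by
      have h4 := ENNReal.toReal_mono (ENNReal.add_lt_top.2
        ⟨hC, ENNReal.mul_lt_top ENNReal.ofReal_lt_top (hW (T + 1))⟩).ne (hf T)
      rwa [ENNReal.toReal_add hC.ne (ENNReal.mul_lt_top ENNReal.ofReal_lt_top (hW _)).ne,
        ENNReal.toReal_mul, ENNReal.toReal_ofReal (Real.exp_pos _).le] at h4
    have h5 : C.toReal * T⁻¹ + Real.exp ε * ((W (T + 1)).toReal / (T + 1) * ((T + 1) / T)) =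
        (C.toReal + Real.exp ε * (W (T + 1)).toReal) / T := by
      have : T + 1 ≠ 0 := by linarith
      field_simp
    rw [h5]
    exact div_le_div_of_nonneg_right h3 hT0.le

private theorem M11_free (hX : Surface Γ D) {g : Γ} (hg : g ≠ 1) (x : Pl) : x ≠ g • x := by
  intro hx
  obtain ⟨γ, hγ, huniq⟩ := hX.orbit x
  have h1 := huniq (γ * g) (by
    show (γ * g) • x ∈ D
    rw [mul_smul, ← hx]
    exact hγ)
  exact hg (by simpa using h1)

/-- the loop integral is bounded -/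
private theorem M11_one (hX : Surface Γ D) (h : HG D G) {κ : ℂ → ℝ} (hκ : Continuous κ)
    (hκ0 : ∀ z, 0 ≤ κ z) {ψ : Pl → ℝ} (hψ : Continuous ψ) (hψ0 : ∀ x, 0 ≤ ψ x)
    (hψc : HasCompactSupport ψ) (g : Γ) (hg : g ≠ 1) :
    ∃ M : ℝ≥0∞, M < ⊤ ∧ ∀ T, lg G κ ψ T g ≤ M := by
  obtain ⟨Cκ, hCκ⟩ := (isCompact_closedBall (0 : ℂ) 1).exists_bound_of_continuousOn
    (f := κ) hκ.continuousOn
  have hdc : Continuous fun x : Pl => G.d x (g • x) :=
    (d_cont h).comp (continuous_id.prodMk (hX.smooth g).continuous)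
  obtain ⟨δ, hδ, hδle⟩ := hψc.isCompact.exists_forall_le' (a := 0) hdc.continuousOn
    (fun x _ => d_pos h (M11_free hX hg x))
  have hbound : ∀ x, ψ x * κ (al G g x) / G.J x (g • x) ≤ ψ x * (Cκ / δ) := by
    intro x
    by_cases hx : x ∈ tsupport ψ
    · have hne := M11_free hX hg x
      have h1 : δ ≤ G.J x (g • x) := by
        refine (hδle x hx).trans (le_trans ?_ (J_low h hne))
        rw [le_div_iff₀ h.a_pos, mul_comm]
        exact Real.self_le_sinh_iff.2 (mul_nonneg h.a_pos.le (d_pos h hne).le)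
      have h2 : ‖al G g x‖ ≤ 1 := by
        unfold al
        have hne' : x ≠ g⁻¹ • x := M11_free hX (inv_ne_one.2 hg) x
        rw [norm_mul, norm_neg, RCLike.norm_conj, di_norm h hne', di_norm h hne, one_mul]
      have h3 : κ (al G g x) ≤ Cκ := by
        have := hCκ (al G g x) (by simpa using h2)
        rw [Real.norm_eq_abs, abs_of_nonneg (hκ0 _)] at this
        exact this
      rw [mul_div_assoc]
      apply mul_le_mul_of_nonneg_left _ (hψ0 x)
      exact div_le_div₀ ((hκ0 _).trans h3) h3 hδ h1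
    · rw [image_eq_zero_of_notMem_tsupport hx]
      simp
  refine ⟨∫⁻ x, ENNReal.ofReal (ψ x * (Cκ / δ) * G.rho x), ?_, ?_⟩
  · have hint : Integrable (fun x => ψ x * (Cκ / δ) * G.rho x) := by
      apply Continuous.integrable_of_hasCompactSupport
      · exact (hψ.mul continuous_const).mul h.rho_cont
      · exact (hψc.mul_right).mul_right
    exact hint.lintegral_lt_top
  · intro T
    unfold lg
    apply lintegral_mono
    intro x
    have hC0 : 0 ≤ Cκ := (norm_nonneg _).trans (hCκ 0 (by simp))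
    have hnn : 0 ≤ ψ x * (Cκ / δ) := mul_nonneg (hψ0 x) (div_nonneg hC0 hδ.le)
    show _ ≤ ENNReal.ofReal (ψ x * (Cκ / δ) * G.rho x)
    rw [ENNReal.ofReal_mul hnn]
    refine mul_le_mul' ?_ le_rfl
    split_ifs
    · exact ENNReal.ofReal_le_ofReal (hbound x)
    · exact zero_le

private theorem M11_finsum {ι : Type} (F : Set ι) [DecidablePred (· ∈ F)] (hF : F.Finite)
    (M : ι → ℝ≥0∞) (hM : ∀ g, M g < ⊤) :
    ∑' g : ι, (if g ∈ F then M g else 0) < ⊤ := by
  rw [tsum_eq_sum (s := hF.toFinset)]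
  · apply ENNReal.sum_lt_top.2
    intro g _
    split_ifs
    · exact hM g
    · exact ENNReal.zero_lt_top
  · intro g hg
    rw [if_neg]
    simpa using hg

theorem loops (hX : Surface Γ D) (h : HG D G) {κ : ℂ → ℝ} (hκ : Continuous κ)
    (hκ0 : ∀ z, 0 ≤ κ z) {ψ : Pl → ℝ} (hψ : Continuous ψ) (hψ0 : ∀ x, 0 ≤ ψ x)
    (hψc : HasCompactSupport ψ) :
    Tendsto (fun T : ℝ => (∑' g : {g : Γ // g ≠ 1}, lg G κ ψ T g.1).toReal / T) atTop
      (𝓝 ((∫ x, ψ x * G.rho x) *
        ∫ θ in (-Real.pi)..Real.pi, κ (Complex.exp ((θ : ℂ) * Complex.I)))) ∧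
      ∀ T, ∑' g : {g : Γ // g ≠ 1}, lg G κ ψ T g.1 < ⊤ := by
  classical
  obtain ⟨χ, hχ⟩ := exists_bump
  have hcexp : Continuous fun θ : ℝ => κ (Complex.exp ((θ : ℂ) * Complex.I)) := by
    fun_prop
  have hpi : -Real.pi ≤ Real.pi := by linarith [Real.pi_pos]
  have hM1 : ∀ g : Γ, ∃ M : ℝ≥0∞, M < ⊤ ∧ (g ≠ 1 → ∀ T, lg G κ ψ T g ≤ M) := by
    intro g
    by_cases hg : g = 1
    · exact ⟨0, ENNReal.zero_lt_top, fun h => absurd hg h⟩
    · obtain ⟨M, hM, hM'⟩ := M11_one hX h hκ hκ0 hψ hψ0 hψc g hg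
      exact ⟨M, hM, fun _ => hM'⟩
  choose M hM hMle using hM1
  apply M11_limit
  · exact integral_nonneg fun x => mul_nonneg (hψ0 x) (h.rho_pos x).le
  · intro ε hε
    obtain ⟨F, hF, η, hη, hcmp⟩ := loop_cmp hX h hκ hκ0 hψ hψ0 hψc hχ hε
    obtain ⟨hlim, hfin⟩ := kern_lim hX h (κ := fun z => κ z + ε) (hκ.add continuous_const)
      (fun z => add_nonneg (hκ0 z) hε.le) hψ hψ0 hψc hχ hη
    refine ⟨fun T => ∑' g : Γ, wg G (KK G (fun z => κ z + ε) ψ χ η) T g,
      ∑' g : Γ, (if g ∈ F then M g else 0), _, M11_finsum F hF M hM, hfin, hlim, ?_, ?_⟩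
    · rw [intervalIntegral.integral_add (hcexp.intervalIntegrable _ _)
        (continuous_const.intervalIntegrable _ _), intervalIntegral.integral_const, smul_eq_mul]
      apply le_of_eq
      ring
    · intro T
      have h1 : ∀ g : {g : Γ // g ≠ 1}, lg G κ ψ T g.1 ≤
          (fun g : Γ => (if g ∈ F then M g else 0) + ENNReal.ofReal (Real.exp ε) *
            wg G (KK G (fun z => κ z + ε) ψ χ η) (T + 1) g) g.1 := by
        intro g
        show _ ≤ (if g.1 ∈ F then M g.1 else 0) + _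
        by_cases hgF : g.1 ∈ F
        · rw [if_pos hgF]
          exact (hMle g.1 g.2 T).trans le_self_add
        · rw [if_neg hgF, zero_add]
          exact (hcmp g.1 hgF T).1
      refine (ENNReal.tsum_le_tsum h1).trans ?_
      have h2 := ENNReal.tsum_comp_le_tsum_of_injective
        (f := fun g : {g : Γ // g ≠ 1} => g.1) Subtype.val_injective
        (fun g : Γ => (if g ∈ F then M g else 0) + ENNReal.ofReal (Real.exp ε) *
            wg G (KK G (fun z => κ z + ε) ψ χ η) (T + 1) g)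
      refine h2.trans ?_
      rw [ENNReal.tsum_add, ENNReal.tsum_mul_left]
  · intro ε hε
    obtain ⟨F, hF, η, hη, hcmp⟩ := loop_cmp hX h hκ hκ0 hψ hψ0 hψc hχ hε
    have hκ2 : Continuous fun z => max (κ z - ε) 0 := (hκ.sub continuous_const).max continuous_const
    have hκ20 : ∀ z, 0 ≤ max (κ z - ε) 0 := fun z => le_max_right _ _
    obtain ⟨hlim, hfin⟩ := kern_lim hX h (κ := fun z => max (κ z - ε) 0) hκ2 hκ20 hψ hψ0 hψc
      hχ hη
    have hM2 : ∀ g : Γ, ∃ M' : ℝ≥0∞, M' < ⊤ ∧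
        ∀ T, wg G (KK G (fun z => max (κ z - ε) 0) ψ χ η) T g ≤ M' := fun g =>
      kern_one hX h hκ2 hκ20 hψ hψ0 hψc hχ hη g
    choose M' hM' hM'le using hM2
    refine ⟨fun T => ∑' g : Γ, wg G (KK G (fun z => max (κ z - ε) 0) ψ χ η) T g,
      ∑' g : Γ, (if g ∈ insert 1 F then M' g else 0), _,
      M11_finsum (insert 1 F) (hF.insert 1) M' hM', hfin, hlim, ?_, ?_⟩
    · have h1 : (∫ θ in (-Real.pi)..Real.pi, κ (Complex.exp ((θ : ℂ) * Complex.I))) -
          2 * Real.pi * ε =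
          ∫ θ in (-Real.pi)..Real.pi, (κ (Complex.exp ((θ : ℂ) * Complex.I)) - ε) := by
        rw [intervalIntegral.integral_sub (hcexp.intervalIntegrable _ _)
          (continuous_const.intervalIntegrable _ _), intervalIntegral.integral_const, smul_eq_mul]
        ring
      rw [h1]
      apply intervalIntegral.integral_mono_on hpi
      · exact (hcexp.sub continuous_const).intervalIntegrable _ _
      · exact ((hcexp.sub continuous_const).max continuous_const).intervalIntegrable _ _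
      · intro θ _
        exact le_max_left _ _
    · intro T
      have h1 : ∀ g : Γ, wg G (KK G (fun z => max (κ z - ε) 0) ψ χ η) (T - 1) g ≤
          (if g ∈ insert 1 F then M' g else 0) + ENNReal.ofReal (Real.exp ε) *
            ({g : Γ | g ≠ 1}.indicator (fun g => lg G κ ψ T g) g) := by
        intro g
        by_cases hgF : g ∈ insert 1 F
        · rw [if_pos hgF]
          exact (hM'le g _).trans le_self_add
        · rw [if_neg hgF, zero_add]
          have h2 : g ≠ 1 := fun h => hgF (h ▸ Set.mem_insert _ _)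
          have h3 : g ∉ F := fun h => hgF (Set.mem_insert_of_mem _ h)
          rw [Set.indicator_of_mem (show g ∈ {g : Γ | g ≠ 1} from h2)]
          exact (hcmp g h3 T).2
      refine (ENNReal.tsum_le_tsum h1).trans ?_
      rw [ENNReal.tsum_add, ENNReal.tsum_mul_left, ← tsum_subtype]
      rfl

end SR85
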