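import Pool.Agent.LibSR85.N10
import Pool.Agent.LibSR85.M11

/-! Row SR85 N11 (STRONG): the sum rule, summed over the elements of the group.

PLAN. Let `g₀` be a `Bump1` (`exists_bump1`), `ψ₁ ≥ 0` continuous with compact support, `≥ 1` at distance
`≤ 1` from `tsupport ψ₀` (`ball_bdd`), `C` from `dom`. Given `δ > 0` take `ε₀, l₀` from `loc_main`
and `ε ≤ ε₀`, `2 ε ≤ ε₁` (`fin_near` for `tsupport ψ₀`). `W T = ∑_{g ≠ 1} lg (kap g₀ ε) ψ₀ T g`. If
`lg ≠ 0` then for some `x ∈ tsupport ψ₀` `kap (al) ≠ 0`, so `|Im al| < ε`, `Re al > 0`,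
`‖al - 1‖ ≤ 2 ε`. The `g` with `ll g < l₀` and `lg ≠ 0` are finitely many, each `lg` is bounded in `T` (it
is `≤ ∫ ψ₀ kap / J x (g x) rho`, and `J x (g x)` is bounded below on `tsupport ψ₀` as `g` has no fixed
point). For `l₀ ≤ ll g`: `lg T g = 0` if `T < ll g` (`lg_zero`), `= lg (ll g + 1) g =: Λ_g` if
`ll g ≤ T - 1`, `≤ Λ_g` always (`lg_mono`), and `|Λ_g Dax / ε - Iax ψ₀| ≤ δ Iax ψ₁` (`loc_main`).
Hence `W T ≤ C₀ + ε (Lam ψ₀ T + δ Lam ψ₁ T) ≤ C₀ + ε (1 + C δ) Lam ψ₀ T` and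
`W T ≥ ε (Lam ψ₀ (T - 1) - δ Lam ψ₁ (T - 1)) - C₀' ≥ ε (1 - C δ) Lam ψ₀ (T - 1) - C₀'` (`C₀'` bounds
the terms of `Lam (T-1)` with `ll g < l₀`, finitely many by `fin_ax`). Divide by `ε T`: `loops`,
`part_int`, `kap_int`: `1 ≤ lim W T / (ε T) ≤ 1 / √(1 - ε²)`, so
`limsup Lam ψ₀ T / T ≤ (1 / √(1 - ε²)) / (1 - C δ)`, `liminf ≥ 1 / (1 + C δ)`; let `ε → 0`, `δ → 0`. -/

open MeasureTheory Set Filter Topology
open scoped ContDiff ENNReal NNReal ComplexConjugate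

namespace SR85

open BGS (Pl Surface)

variable {Γ : Type} [Group Γ] [MulAction Γ Pl] {D : Set Pl} {G : Dat Γ}

/-- The limit argument. -/
private theorem N11_limit (L : ℝ → ℝ)
    (hh : ∀ η : ℝ, 0 < η → η < 1 → ∃ (w : ℝ → ℝ) (c K ε : ℝ), 0 < ε ∧ ε ≤ K ∧ K ≤ ε * (1 + η) ∧
      Tendsto (fun T => w T / T) atTop (𝓝 K) ∧ (∀ T, w T ≤ c + ε * (1 + η) * L T) ∧
      ∀ T, ε * (1 - η) * L T ≤ w (T + 1) + c) :
    Tendsto (fun T => L T / T) atTop (𝓝 1) := by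
  have hinv : Tendsto (fun T : ℝ => T⁻¹) atTop (𝓝 0) := tendsto_inv_atTop_zero
  rw [tendsto_order]
  constructor
  · intro a ha
    obtain ⟨η, h0, h1, h2⟩ : ∃ η : ℝ, 0 < η ∧ η < 1 ∧ a * (1 + η) < 1 := by
      refine ⟨min (1 / 2) ((1 - a) / 2), lt_min (by norm_num) (by linarith),
        (min_le_left _ _).trans_lt (by norm_num), ?_⟩
      have hm : 0 < min (1 / 2 : ℝ) ((1 - a) / 2) := lt_min (by norm_num) (by linarith)
      have hm2 := min_le_right (1 / 2 : ℝ) ((1 - a) / 2)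
      set η := min (1 / 2 : ℝ) ((1 - a) / 2)
      nlinarith
    obtain ⟨w, c, K, ε, hε, hK, -, hw, hu, -⟩ := hh η h0 h1
    have hlim : Tendsto (fun T => (w T - c) / T) atTop (𝓝 K) := by
      have h3 := hw.sub (hinv.const_mul c)
      rw [mul_zero, sub_zero] at h3
      refine h3.congr fun T => ?_
      rw [sub_div, div_eq_mul_inv c T]
    have hlt : ε * (a * (1 + η)) < K := by nlinarith
    filter_upwards [hlim.eventually_const_lt hlt, eventually_gt_atTop (0 : ℝ)] with T h3 h4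
    rw [lt_div_iff₀ h4] at h3 ⊢
    have h5 := hu T
    have h6 : ε * (1 + η) * (a * T) < ε * (1 + η) * L T := by linarith
    exact lt_of_mul_lt_mul_left h6 (by positivity)
  · intro b hb
    obtain ⟨η, h0, h1, h2⟩ : ∃ η : ℝ, 0 < η ∧ η < 1 ∧ 1 + η < b * (1 - η) := by
      have hb1 : 0 < b + 1 := by linarith
      refine ⟨(b - 1) / (2 * (b + 1)), div_pos (by linarith) (by linarith), ?_, ?_⟩
      · rw [div_lt_one (by linarith)]
        linarith
      · have h3 : (b - 1) / (2 * (b + 1)) * (2 * (b + 1)) = b - 1 :=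
          div_mul_cancel₀ _ (by linarith)
        set η := (b - 1) / (2 * (b + 1))
        nlinarith
    obtain ⟨w, c, K, ε, hε, -, hK, hw, -, hl⟩ := hh η h0 h1
    have hlim : Tendsto (fun T => (w (T + 1) + c) / T) atTop (𝓝 K) := by
      have h3 : Tendsto (fun T : ℝ => w (T + 1) / (T + 1)) atTop (𝓝 K) :=
        hw.comp (tendsto_atTop_add_const_right atTop 1 tendsto_id)
      have h4 : Tendsto (fun T : ℝ => 1 + T⁻¹) atTop (𝓝 (1 + 0)) := hinv.const_add 1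
      have h5 := (h3.mul h4).add (hinv.const_mul c)
      rw [add_zero, mul_one, mul_zero, add_zero] at h5
      refine h5.congr' ?_
      filter_upwards [eventually_gt_atTop (0 : ℝ)] with T hT
      have : T + 1 ≠ 0 := by linarith
      field_simp
    have hlt : K < ε * (b * (1 - η)) := by nlinarith
    filter_upwards [hlim.eventually_lt_const hlt, eventually_gt_atTop (0 : ℝ)] with T h3 h4
    rw [div_lt_iff₀ h4] at h3 ⊢
    have h5 := hl T
    have h6 : ε * (1 - η) * L T < ε * (1 - η) * (b * T) := by linarith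
    have h7 : 0 < 1 - η := by linarith
    exact lt_of_mul_lt_mul_left h6 (by positivity)

private theorem N11_al (hX : Surface Γ D) (h : HG D G) {g₀ : ℝ → ℝ} (hg : Bump1 g₀) {ε : ℝ}
    (hε : 0 < ε) {g : Γ} (hg1 : g ≠ 1) (x : Pl) (hk : kap g₀ ε (al G g x) ≠ 0) :
    ‖al G g x - 1‖ ≤ 2 * ε := by
  have hn := (al_norm hX h hg1 x).1
  set z := al G g x with hz
  unfold kap at hk
  have h1 : g₀ (z.im / ε) ≠ 0 := left_ne_zero_of_mul hk
  have h2 : min (max (2 * z.re) 0) 1 ≠ 0 := right_ne_zero_of_mul hk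
  have h3 : |z.im / ε| < 1 := by
    by_contra hc
    exact h1 (hg.supp _ (not_lt.1 hc))
  have h4 : |z.im| < ε := by
    rw [abs_div, abs_of_pos hε, div_lt_one hε] at h3
    exact h3
  have h5 : 0 < z.re := by
    by_contra hc
    apply h2
    rw [max_eq_right (by linarith), min_eq_left zero_le_one]
  have h6 : z.re ^ 2 + z.im ^ 2 = 1 := by
    have h7 := Complex.sq_norm z
    rw [hn, Complex.normSq_apply] at h7
    nlinarith
  have h8 : z.im ^ 2 ≤ ε ^ 2 := by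
    rw [← sq_abs]
    exact pow_le_pow_left₀ (abs_nonneg _) h4.le 2
  have h9 : z.re ≤ 1 := by nlinarith [sq_nonneg z.im]
  have h10 : 1 - z.re ≤ z.im ^ 2 := by nlinarith [mul_nonneg (sub_nonneg.2 h9) h5.le]
  have h7 : ‖z - 1‖ ^ 2 ≤ (2 * ε) ^ 2 := by
    rw [Complex.sq_norm, Complex.normSq_apply]
    simp only [Complex.sub_re, Complex.one_re, Complex.sub_im, Complex.one_im, sub_zero]
    nlinarith
  exact (sq_le_sq₀ (norm_nonneg _) (by positivity)).1 h7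

private theorem N11_lg0 (hX : Surface Γ D) (h : HG D G) {g₀ : ℝ → ℝ} (hg : Bump1 g₀) {ε : ℝ}
    (hε : 0 < ε) {g : Γ} (hg1 : g ≠ 1) {ψ : Pl → ℝ} {T : ℝ}
    (hno : ¬ ∃ x ∈ tsupport ψ, ‖al G g x - 1‖ ≤ 2 * ε) : lg G (kap g₀ ε) ψ T g = 0 := by
  unfold lg
  have h1 : ∀ x, (if G.d x (g • x) ≤ T then
      ENNReal.ofReal (ψ x * kap g₀ ε (al G g x) / G.J x (g • x)) else 0) *
        ENNReal.ofReal (G.rho x) = 0 := by
    intro x
    have h2 : ψ x * kap g₀ ε (al G g x) = 0 := by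
      by_contra hc
      apply hno
      refine ⟨x, subset_tsupport ψ (left_ne_zero_of_mul hc), ?_⟩
      exact N11_al hX h hg hε hg1 x (right_ne_zero_of_mul hc)
    rw [h2, zero_div, ENNReal.ofReal_zero, ite_self, zero_mul]
  simp only [h1, lintegral_zero]

private theorem N11_bdd (hX : Surface Γ D) (h : HG D G) {κ : ℂ → ℝ} (hκ : Continuous κ)
    (hκ0 : ∀ z, 0 ≤ κ z) {ψ : Pl → ℝ} (hψ : Continuous ψ) (hψ0 : ∀ x, 0 ≤ ψ x)
    (hψc : HasCompactSupport ψ) {g : Γ} (hg1 : g ≠ 1) :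
    ∃ M : ℝ≥0∞, M < ⊤ ∧ ∀ T, lg G κ ψ T g ≤ M := by
  have hc : Continuous fun x : Pl => G.d x (g • x) :=
    (d_cont h).comp (continuous_id.prodMk (hX.smooth g).continuous)
  have hN : IsCompact (tsupport ψ) := hψc
  obtain ⟨T₀, hT₀⟩ := hN.exists_bound_of_continuousOn hc.continuousOn
  refine ⟨lg G κ ψ T₀ g, ?_, ?_⟩
  · have h1 := (loops hX h hκ hκ0 hψ hψ0 hψc).2 T₀
    exact (ENNReal.le_tsum (⟨g, hg1⟩ : {g : Γ // g ≠ 1})).trans_lt h1
  · intro T
    unfold lg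
    apply lintegral_mono
    intro x
    by_cases hx : x ∈ tsupport ψ
    · have h2 := hT₀ x hx
      rw [Real.norm_eq_abs] at h2
      have h3 : G.d x (g • x) ≤ T₀ := (le_abs_self _).trans h2
      show (if G.d x (g • x) ≤ T then
        ENNReal.ofReal (ψ x * κ (al G g x) / G.J x (g • x)) else 0) * ENNReal.ofReal (G.rho x) ≤
        (if G.d x (g • x) ≤ T₀ then
        ENNReal.ofReal (ψ x * κ (al G g x) / G.J x (g • x)) else 0) * ENNReal.ofReal (G.rho x)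
      rw [if_pos h3]
      apply mul_le_mul_left
      split_ifs
      · exact le_rfl
      · exact bot_le
    · have h2 : ψ x = 0 := image_eq_zero_of_notMem_tsupport hx
      simp [h2]

omit [MulAction Γ Pl] in
private theorem N11_fin {F : Set Γ} (hF : F.Finite) (M : Γ → ℝ≥0∞) (hM : ∀ g ∈ F, M g < ⊤) :
    ∑' g : {g : Γ // g ≠ 1}, F.indicator M g.1 < ⊤ := by
  refine (ENNReal.tsum_comp_le_tsum_of_injective Subtype.val_injective (F.indicator M)).trans_lt ?_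
  rw [tsum_eq_sum (s := hF.toFinset)]
  · apply ENNReal.sum_lt_top.2
    intro g hg
    rw [Set.Finite.mem_toFinset] at hg
    rw [Set.indicator_of_mem hg]
    exact hM g hg
  · intro g hg
    rw [Set.Finite.mem_toFinset] at hg
    exact Set.indicator_of_notMem hg _

/-- Two inequalities from one. -/
private theorem N11_two {Λ : ℝ≥0∞} (hΛ : Λ < ⊤) {D₀ ε δ I I' : ℝ} (hD : 0 < D₀) (hε : 0 < ε)
    (hδ : 0 < δ) (hI : 0 ≤ I) (hI' : 0 ≤ I') (hh : |Λ.toReal * D₀ / ε - I| ≤ δ * I') :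
    Λ ≤ ENNReal.ofReal ε * (ENNReal.ofReal (I / D₀) + ENNReal.ofReal δ * ENNReal.ofReal (I' / D₀)) ∧
    ENNReal.ofReal ε * ENNReal.ofReal (I / D₀) ≤
      Λ + ENNReal.ofReal ε * (ENNReal.ofReal δ * ENNReal.ofReal (I' / D₀)) := by
  have hx : Λ = ENNReal.ofReal Λ.toReal := (ENNReal.ofReal_toReal hΛ.ne).symm
  have hx0 : 0 ≤ Λ.toReal := ENNReal.toReal_nonneg
  set x := Λ.toReal with hxdef
  rw [abs_le] at hh
  obtain ⟨h1, h2⟩ := hh
  have e1 : x = (x * D₀ / ε) * (ε / D₀) := by field_simp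
  have hpos : 0 < ε / D₀ := div_pos hε hD
  have h3 : x ≤ (I + δ * I') * (ε / D₀) := by
    rw [e1]
    apply mul_le_mul_of_nonneg_right _ hpos.le
    linarith
  have h4 : (I - δ * I') * (ε / D₀) ≤ x := by
    rw [e1]
    apply mul_le_mul_of_nonneg_right _ hpos.le
    linarith
  have hI1 : 0 ≤ I / D₀ := div_nonneg hI hD.le
  have hI2 : 0 ≤ I' / D₀ := div_nonneg hI' hD.le
  constructor
  · rw [hx, ← ENNReal.ofReal_mul hδ.le, ← ENNReal.ofReal_add hI1 (mul_nonneg hδ.le hI2),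
      ← ENNReal.ofReal_mul hε.le]
    apply ENNReal.ofReal_le_ofReal
    calc x ≤ (I + δ * I') * (ε / D₀) := h3
      _ = ε * (I / D₀ + δ * (I' / D₀)) := by ring
  · rw [hx, ← ENNReal.ofReal_mul hδ.le, ← ENNReal.ofReal_mul hε.le, ← ENNReal.ofReal_mul hε.le,
      ← ENNReal.ofReal_add hx0 (mul_nonneg hε.le (mul_nonneg hδ.le hI2))]
    apply ENNReal.ofReal_le_ofReal
    have h5 : (I - δ * I') * (ε / D₀) = ε * (I / D₀) - ε * (δ * (I' / D₀)) := by ring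
    rw [h5] at h4
    linarith

private theorem N11_core (hX : Surface Γ D) (h : HG D G) (A : Axes G) {ψ₀ : Pl → ℝ}
    (hψ : Part Γ ψ₀) {η : ℝ} (hη : 0 < η) (hη1 : η < 1) :
    ∃ (w : ℝ → ℝ) (c K ε : ℝ), 0 < ε ∧ ε ≤ K ∧ K ≤ ε * (1 + η) ∧
      Tendsto (fun T => w T / T) atTop (𝓝 K) ∧
      (∀ T, w T ≤ c + ε * (1 + η) * (Lam G A ψ₀ T).toReal) ∧
      ∀ T, ε * (1 - η) * (Lam G A ψ₀ T).toReal ≤ w (T + 1) + c := by
  classical
  obtain ⟨g₀, hg⟩ := exists_bump1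
  have hN : IsCompact (tsupport ψ₀) := hψ.supp
  obtain ⟨N₁, hN₁, hball⟩ := ball_bdd h hN 1
  obtain ⟨R, hR⟩ : ∃ R : ℝ, ∀ x ∈ N₁, ‖x‖ ≤ R := hN₁.isBounded.exists_norm_le
  obtain ⟨ψ₁, hψ₁def⟩ : ∃ ψ₁ : Pl → ℝ, ψ₁ = fun x => max 0 (R + 1 - ‖x‖) := ⟨_, rfl⟩
  have hψ₁ : Continuous ψ₁ := by
    rw [hψ₁def]
    fun_prop
  have hψ₁0 : ∀ x, 0 ≤ ψ₁ x := by
    intro x
    rw [hψ₁def]
    exact le_max_left _ _
  have hψ₁c : HasCompactSupport ψ₁ := by
    apply HasCompactSupport.intro (isCompact_closedBall (0 : Pl) (R + 1))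
    intro x hx
    rw [mem_closedBall_zero_iff, not_le] at hx
    rw [hψ₁def]
    exact max_eq_left (by linarith)
  have hψψ : ∀ x, ∀ y ∈ tsupport ψ₀, G.d x y ≤ 1 → 1 ≤ ψ₁ x := by
    intro x y hy hxy
    have h1 : x ∈ N₁ := hball y hy x (by rw [h.d_symm]; exact hxy)
    have h2 := hR x h1
    rw [hψ₁def]
    exact le_max_of_le_right (by linarith)
  obtain ⟨C, hC, hdom⟩ := dom hX h A hψ hψ₁ hψ₁0 hψ₁c
  have hδ : 0 < η / C := div_pos hη hC
  obtain ⟨ε₀, l₀, hε₀, hl₀, hloc⟩ := loc_main hX h hg hψ.cont hψ.nonneg hψ.supp hψ₁ hψ₁0 hψ₁c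
    hψψ hδ
  obtain ⟨ε₁, hε₁, hnear⟩ := fin_near hX h A hN
  obtain ⟨ε, hεdef⟩ : ∃ ε : ℝ, ε = min (min ε₀ (ε₁ / 2)) (η / 2) := ⟨_, rfl⟩
  have hε : 0 < ε := by
    rw [hεdef]
    exact lt_min (lt_min hε₀ (by linarith)) (by linarith)
  have hεε₀ : ε ≤ ε₀ := by
    rw [hεdef]
    exact (min_le_left _ _).trans (min_le_left _ _)
  have hεε₁ : 2 * ε ≤ ε₁ := by
    have h1 : ε ≤ ε₁ / 2 := by
      rw [hεdef]
      exact (min_le_left _ _).trans (min_le_right _ _)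
    linarith
  have hεη : ε ≤ η / 2 := by
    rw [hεdef]
    exact min_le_right _ _
  obtain ⟨hκ, hκ0⟩ := kap_cont hg ε
  obtain ⟨hk1, hk2⟩ := kap_int hg hε (by linarith)
  obtain ⟨hloops, hWfin⟩ := loops hX h hκ hκ0 hψ.cont hψ.nonneg hψ.supp
  rw [part_int hX h hψ, one_mul] at hloops
  -- the data of the elements
  have hDax : ∀ g : Γ, g ≠ 1 → 0 < Dax G g (A.cc g) := by
    intro g hg1
    have h1 := Dax_low hX h (A.ax g hg1)
    have h2 : 0 < Real.sinh (G.a * A.ll g / 2) := by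
      rw [Real.sinh_pos_iff]
      have := mul_pos h.a_pos (A.ax g hg1).pos
      linarith
    have h3 : 0 < 4 * Real.sinh (G.a * A.ll g / 2) ^ 2 := by positivity
    linarith
  have hI0 : ∀ g : Γ, 0 ≤ Iax G ψ₀ (A.cc g) (A.uu g) := fun g =>
    integral_nonneg fun s => hψ.nonneg _
  have hI1 : ∀ g : Γ, 0 ≤ Iax G ψ₁ (A.cc g) (A.uu g) := fun g =>
    integral_nonneg fun s => hψ₁0 _
  obtain ⟨i0, hi0⟩ : ∃ i0 : Γ → ℝ≥0∞, i0 = fun g =>
    ENNReal.ofReal (Iax G ψ₀ (A.cc g) (A.uu g) / Dax G g (A.cc g)) := ⟨_, rfl⟩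
  obtain ⟨i1, hi1⟩ : ∃ i1 : Γ → ℝ≥0∞, i1 = fun g =>
    ENNReal.ofReal (Iax G ψ₁ (A.cc g) (A.uu g) / Dax G g (A.cc g)) := ⟨_, rfl⟩
  have hL0 : ∀ T, Lam G A ψ₀ T = ∑' g : {g : Γ // g ≠ 1}, if A.ll g.1 ≤ T then i0 g.1 else 0 := by
    intro T
    rw [hi0]
    rfl
  have hL1 : ∀ T, Lam G A ψ₁ T = ∑' g : {g : Γ // g ≠ 1}, if A.ll g.1 ≤ T then i1 g.1 else 0 := by
    intro T
    rw [hi1]
    rfl
  have hbig : ∀ g : Γ, g ≠ 1 → l₀ ≤ A.ll g →
      lg G (kap g₀ ε) ψ₀ (A.ll g + 1) g ≤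
        ENNReal.ofReal ε * (i0 g + ENNReal.ofReal (η / C) * i1 g) ∧
      ENNReal.ofReal ε * i0 g ≤ lg G (kap g₀ ε) ψ₀ (A.ll g + 1) g +
        ENNReal.ofReal ε * (ENNReal.ofReal (η / C) * i1 g) := by
    intro g hg1 hl
    obtain ⟨-, h2, h3⟩ := hloc ε hε hεε₀ g (A.cc g) (A.uu g) (A.ll g) (A.ll g + 1) (A.ax g hg1)
      hl le_rfl
    rw [hi0, hi1]
    exact N11_two h2 (hDax g hg1) hε hδ (hI0 g) (hI1 g) h3
  -- finite sets
  have hMex : ∀ g : Γ, ∃ M : ℝ≥0∞, M < ⊤ ∧ (g ≠ 1 → ∀ T, lg G (kap g₀ ε) ψ₀ T g ≤ M) := by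
    intro g
    by_cases hg1 : g = 1
    · exact ⟨0, ENNReal.zero_lt_top, fun h => absurd hg1 h⟩
    · obtain ⟨M, hM, hM'⟩ := N11_bdd hX h hκ hκ0 hψ.cont hψ.nonneg hψ.supp hg1
      exact ⟨M, hM, fun _ => hM'⟩
  choose M hM hMle using hMex
  have hF := hnear l₀
  have hF' := fin_ax hX h A hN l₀
  set F : Set Γ := {g : Γ | g ≠ 1 ∧ A.ll g ≤ l₀ ∧ ∃ x ∈ tsupport ψ₀, ‖al G g x - 1‖ ≤ ε₁}
    with hFdef
  set F' : Set Γ := {g : Γ | g ≠ 1 ∧ A.ll g ≤ l₀ ∧
    ∃ s : ℝ, G.E (A.cc g) ((s : ℂ) * A.uu g) ∈ tsupport ψ₀} with hF'def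
  obtain ⟨c1, hc1⟩ : ∃ c1 : ℝ≥0∞, c1 = ∑' g : {g : Γ // g ≠ 1}, F.indicator M g.1 := ⟨_, rfl⟩
  obtain ⟨c2, hc2⟩ : ∃ c2 : ℝ≥0∞, c2 = ∑' g : {g : Γ // g ≠ 1},
    F'.indicator (fun g => ENNReal.ofReal ε * i0 g) g.1 := ⟨_, rfl⟩
  have hc1f : c1 < ⊤ := by
    rw [hc1]
    exact N11_fin hF M fun g _ => hM g
  have hc2f : c2 < ⊤ := by
    rw [hc2]
    apply N11_fin hF'
    intro g _
    rw [hi0]
    exact ENNReal.mul_lt_top ENNReal.ofReal_lt_top ENNReal.ofReal_lt_top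
  obtain ⟨W, hW⟩ : ∃ W : ℝ → ℝ≥0∞, W = fun T =>
    ∑' g : {g : Γ // g ≠ 1}, lg G (kap g₀ ε) ψ₀ T g.1 := ⟨_, rfl⟩
  have hWf : ∀ T, W T < ⊤ := by
    intro T
    rw [hW]
    exact hWfin T
  -- upper bound for W
  have hup : ∀ T, W T ≤ c1 + ENNReal.ofReal ε * (Lam G A ψ₀ T +
      ENNReal.ofReal (η / C) * Lam G A ψ₁ T) := by
    intro T
    rw [hW, hc1, hL0, hL1, ← ENNReal.tsum_mul_left, ← ENNReal.tsum_add, ← ENNReal.tsum_mul_left,
      ← ENNReal.tsum_add]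
    apply ENNReal.tsum_le_tsum
    rintro ⟨g, hg1⟩
    show lg G (kap g₀ ε) ψ₀ T g ≤ F.indicator M g + ENNReal.ofReal ε *
      ((if A.ll g ≤ T then i0 g else 0) + ENNReal.ofReal (η / C) * (if A.ll g ≤ T then i1 g else 0))
    rcases lt_or_ge T (A.ll g) with h1 | h1
    · rw [lg_zero (A.ax g hg1) h1]
      exact bot_le
    · rw [if_pos h1, if_pos h1]
      rcases le_or_gt l₀ (A.ll g) with h2 | h2
      · have h3 : lg G (kap g₀ ε) ψ₀ T g ≤ lg G (kap g₀ ε) ψ₀ (A.ll g + 1) g := by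
          rcases le_or_gt (A.ll g + 1) T with h4 | h4
          · exact (hloc ε hε hεε₀ g (A.cc g) (A.uu g) (A.ll g) T (A.ax g hg1) h2 h4).1.le
          · exact lg_mono (kap g₀ ε) ψ₀ g h4.le
        exact (h3.trans (hbig g hg1 h2).1).trans le_add_self
      · by_cases h3 : g ∈ F
        · rw [Set.indicator_of_mem h3]
          exact (hMle g hg1 T).trans le_self_add
        · rw [N11_lg0 hX h hg hε hg1]
          · exact bot_le
          · rintro ⟨x, hx, hx2⟩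
            exact h3 ⟨hg1, h2.le, x, hx, hx2.trans hεε₁⟩
  -- lower bound for W
  have hlow : ∀ T, ENNReal.ofReal ε * Lam G A ψ₀ T ≤ W (T + 1) + ENNReal.ofReal ε *
      (ENNReal.ofReal (η / C) * Lam G A ψ₁ T) + c2 := by
    intro T
    rw [hW, hc2, hL0, hL1, ← ENNReal.tsum_mul_left, ← ENNReal.tsum_mul_left,
      ← ENNReal.tsum_mul_left, ← ENNReal.tsum_add, ← ENNReal.tsum_add]
    apply ENNReal.tsum_le_tsum
    rintro ⟨g, hg1⟩
    show ENNReal.ofReal ε * (if A.ll g ≤ T then i0 g else 0) ≤ lg G (kap g₀ ε) ψ₀ (T + 1) g +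
      ENNReal.ofReal ε * (ENNReal.ofReal (η / C) * (if A.ll g ≤ T then i1 g else 0)) +
      F'.indicator (fun g => ENNReal.ofReal ε * i0 g) g
    rcases lt_or_ge T (A.ll g) with h1 | h1
    · rw [if_neg (not_le.2 h1), mul_zero]
      exact bot_le
    · rw [if_pos h1, if_pos h1]
      rcases le_or_gt l₀ (A.ll g) with h2 | h2
      · have h4 := (hloc ε hε hεε₀ g (A.cc g) (A.uu g) (A.ll g) (T + 1) (A.ax g hg1) h2
          (by linarith)).1
        rw [h4]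
        exact (hbig g hg1 h2).2.trans le_self_add
      · by_cases h3 : g ∈ F'
        · rw [Set.indicator_of_mem h3]
          exact le_add_self
        · have h4 : Iax G ψ₀ (A.cc g) (A.uu g) = 0 := by
            unfold Iax
            have h5 : ∀ s : ℝ, ψ₀ (G.E (A.cc g) ((s : ℂ) * A.uu g)) = 0 := by
              intro s
              apply image_eq_zero_of_notMem_tsupport
              intro hs
              exact h3 ⟨hg1, h2.le, s, hs⟩
            simp only [h5, integral_zero]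
          have h5 : i0 g = 0 := by
            rw [hi0]
            simp only [h4, zero_div, ENNReal.ofReal_zero]
          rw [h5, mul_zero]
          exact bot_le
  -- reals
  have hLf : ∀ T, Lam G A ψ₀ T < ⊤ := fun T => Lam_fin hX h A hψ.cont hψ.supp T
  have hcε : ∀ L : ℝ, 0 ≤ L → ENNReal.ofReal (η / C) * (ENNReal.ofReal C * ENNReal.ofReal L) =
      ENNReal.ofReal (η * L) := by
    intro L _
    rw [← ENNReal.ofReal_mul hC.le, ← ENNReal.ofReal_mul hδ.le]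
    congr 1
    field_simp
  refine ⟨fun T => (W T).toReal, max c1.toReal c2.toReal, _, ε, hε, hk1, ?_, ?_, ?_, ?_⟩
  · refine hk2.trans ?_
    have hε1 : ε < 1 := by linarith
    have h1 : 1 - ε ≤ √(1 - ε ^ 2) := by
      apply Real.le_sqrt_of_sq_le
      nlinarith
    have h2 : 0 < 1 - ε := by linarith
    rw [div_le_iff₀ (h2.trans_le h1)]
    have h3 : 1 ≤ (1 + η) * √(1 - ε ^ 2) := by
      have h4 : 1 ≤ (1 + η) * (1 - ε) := by nlinarith
      exact h4.trans (mul_le_mul_of_nonneg_left h1 (by linarith))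
    nlinarith
  · rw [hW]
    exact hloops
  · intro T
    obtain ⟨L, hL⟩ : ∃ L : ℝ, L = (Lam G A ψ₀ T).toReal := ⟨_, rfl⟩
    have hL' : Lam G A ψ₀ T = ENNReal.ofReal L := by rw [hL, ENNReal.ofReal_toReal (hLf T).ne]
    have hLn : 0 ≤ L := by rw [hL]; exact ENNReal.toReal_nonneg
    have hc1' : c1 = ENNReal.ofReal c1.toReal := (ENNReal.ofReal_toReal hc1f.ne).symm
    have h1 : W T ≤ ENNReal.ofReal (c1.toReal + ε * (L + η * L)) := by
      rw [ENNReal.ofReal_add ENNReal.toReal_nonneg (by positivity), ← hc1',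
        ENNReal.ofReal_mul hε.le, ENNReal.ofReal_add hLn (by positivity)]
      refine (hup T).trans ?_
      rw [← hcε L hLn, ← hL']
      gcongr
      exact hdom T
    have h2 := ENNReal.toReal_le_of_le_ofReal (by positivity) h1
    rw [← hL]
    have h3 := le_max_left c1.toReal c2.toReal
    show (W T).toReal ≤ _
    linarith
  · intro T
    obtain ⟨L, hL⟩ : ∃ L : ℝ, L = (Lam G A ψ₀ T).toReal := ⟨_, rfl⟩
    have hL' : Lam G A ψ₀ T = ENNReal.ofReal L := by rw [hL, ENNReal.ofReal_toReal (hLf T).ne]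
    have hLn : 0 ≤ L := by rw [hL]; exact ENNReal.toReal_nonneg
    have hc2' : c2 = ENNReal.ofReal c2.toReal := (ENNReal.ofReal_toReal hc2f.ne).symm
    have hW' : W (T + 1) = ENNReal.ofReal (W (T + 1)).toReal :=
      (ENNReal.ofReal_toReal (hWf (T + 1)).ne).symm
    have h1 : ENNReal.ofReal (ε * L) ≤
        ENNReal.ofReal ((W (T + 1)).toReal + ε * (η * L) + c2.toReal) := by
      rw [ENNReal.ofReal_add (by positivity) ENNReal.toReal_nonneg, ← hc2',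
        ENNReal.ofReal_add ENNReal.toReal_nonneg (by positivity), ← hW',
        ENNReal.ofReal_mul hε.le, ENNReal.ofReal_mul hε.le, ← hcε L hLn, ← hL']
      refine (hlow T).trans ?_
      gcongr
      exact hdom T
    have h2 := (ENNReal.ofReal_le_ofReal_iff (by positivity)).1 h1
    rw [← hL]
    have h3 := le_max_right c1.toReal c2.toReal
    show _ ≤ (W (T + 1)).toReal + _
    linarith

theorem Lam_lim (hX : Surface Γ D) (h : HG D G) (A : Axes G) {ψ₀ : Pl → ℝ} (hψ : Part Γ ψ₀) :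
    Tendsto (fun T : ℝ => (Lam G A ψ₀ T).toReal / T) atTop (𝓝 1) :=
  N11_limit (fun T => (Lam G A ψ₀ T).toReal) fun _ hη hη1 => N11_core hX h A hψ hη hη1

end SR85
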