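import Pool.Agent.LibSR85.N10

/-! Row SR85 N12: unfolding: the sum over a conjugacy class.

PLAN of `class_int`. Fix `g ≠ 1`, `c = cc g`, `u = uu g`, `γ s = E c (s u)`, `p` = the root, `lp` its
translation length along the axis. The class of `g` is in bijection with the left cosets `k ⟨p⟩`
(`⟨p⟩` = the centraliser of `g`; `ConjAct`/`MulAction.orbitEquivQuotientStabilizer`, or choose
`k' ∈ class ↦ k` with `k g k⁻¹ = k'`). `Iax ψ₀ (cc k') (uu k') = ∫ ψ₀ (k • γ s) ds` (`ax_conj`,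
`ax_data`), and with `∫_ℝ = ∑_{n ∈ ℤ} ∫_{n lp}^{(n+1) lp}`, `γ (s + n lp) = p^n • γ s`:
`= ∑_n ∫_0^{lp} ψ₀ (k p^n • γ s) ds`. Sum over the cosets: `∑_{k ∈ Γ} ∫_0^{lp} ψ₀ (k • γ s) ds =
∫_0^{lp} 1 = lp` (`Part.sum`; all in `ℝ≥0∞`). `p` has infinite order as it translates.
PLAN of `Lam_class`: group the `tsum` over `{g // g ≠ 1}` by classes (`ConjClasses.mk`; sigma
fibres), `A.ll`, `Dax` are constant on classes (`ax_data`, `ax_conj`), `class_int`;
`ofReal (I / D) = ofReal I * ofReal (1 / D)`, `D > 0` (`Dax_low`). -/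

open MeasureTheory Set Filter Topology
open scoped ContDiff ENNReal NNReal ComplexConjugate

namespace SR85

open BGS (Pl Surface)

variable {Γ : Type} [Group Γ] [MulAction Γ Pl] {D : Set Pl} {G : Dat Γ}

/-- `p` is the root of `g`, with translation length `lp`. -/
structure Root (G : Dat Γ) (A : Axes G) (g p : Γ) (lp : ℝ) : Prop where
  comm : p * g = g * p
  cent : ∀ k : Γ, k * g = g * k → ∃ n : ℤ, k = p ^ n
  pos : 0 < lp
  tr : ∀ s : ℝ, p • G.E (A.cc g) ((s : ℂ) * A.uu g) = G.E (A.cc g) (((s + lp : ℝ) : ℂ) * A.uu g)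

/-- Powers of the root. -/
theorem N12_pow {A : Axes G} {g p : Γ} {lp : ℝ} (hp : Root G A g p lp) (n : ℤ) : ∀ s : ℝ,
    (p ^ n) • G.E (A.cc g) ((s : ℂ) * A.uu g) =
      G.E (A.cc g) (((s + n * lp : ℝ) : ℂ) * A.uu g) := by
  induction n using Int.induction_on with
  | zero =>
    intro s
    simp
  | succ n ih =>
    intro s
    rw [zpow_add_one, mul_smul, hp.tr, ih]
    congr 3
    push_cast
    ring
  | pred n ih =>
    intro s
    have h1 : p⁻¹ • G.E (A.cc g) ((s : ℂ) * A.uu g) =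
        G.E (A.cc g) (((s - lp : ℝ) : ℂ) * A.uu g) := by
      rw [inv_smul_eq_iff, hp.tr]
      congr 3
      ring
    rw [zpow_sub_one, mul_smul, h1, ih]
    congr 3
    push_cast
    ring

theorem N12_inj (h : HG D G) {A : Axes G} {g p : Γ} {lp : ℝ} (hg : g ≠ 1) (hp : Root G A g p lp)
    {n m : ℤ} (hnm : p ^ n = p ^ m) : n = m := by
  have hu := (A.ax g hg).nu
  have h1 := N12_pow hp n 0
  have h2 := N12_pow hp m 0
  rw [hnm, h2] at h1
  have h3 := d_geo h (A.cc g) hu (0 + m * lp) (0 + n * lp)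
  rw [h1, d_self h] at h3
  have h4 := abs_eq_zero.1 h3.symm
  have h5 : ((n : ℝ) - m) * lp = 0 := by linarith
  rcases mul_eq_zero.1 h5 with h6 | h6
  · exact_mod_cast sub_eq_zero.1 h6
  · exact absurd h6 hp.pos.ne'

/-- Splitting of the line into intervals. -/
theorem N12_split {lp : ℝ} (hlp : 0 < lp) {F : ℝ → ℝ≥0∞} (hF : Measurable F) :
    ∫⁻ s, F s = ∑' n : ℤ, ∫⁻ s in Ioc (0 : ℝ) lp, F (s + n * lp) := by
  have h1 : ⋃ n : ℤ, Ioc (n • lp) ((n + 1) • lp) = (univ : Set ℝ) := iUnion_Ioc_zsmul hlp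
  have h2 : Pairwise (Function.onFun Disjoint fun n : ℤ => Ioc (n • lp) ((n + 1) • lp)) :=
    pairwise_disjoint_Ioc_zsmul lp
  rw [← setLIntegral_univ F, ← h1, lintegral_iUnion (fun n => measurableSet_Ioc) h2]
  refine tsum_congr fun n => ?_
  have h3 := (measurePreserving_add_right (volume : Measure ℝ) ((n : ℝ) * lp)).setLIntegral_comp_preimage
    (s := Ioc (n • lp) ((n + 1) • lp)) measurableSet_Ioc hF
  rw [← h3]
  congr 2
  ext s
  simp only [mem_preimage, mem_Ioc, zsmul_eq_mul]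
  push_cast
  constructor
  · rintro ⟨h4, h5⟩
    exact ⟨by linarith, by linarith⟩
  · rintro ⟨h4, h5⟩
    exact ⟨by linarith, by linarith⟩


theorem N12_term (hX : Surface Γ D) (h : HG D G) (A : Axes G) {ψ₀ : Pl → ℝ} (hψ : Part Γ ψ₀)
    {g p : Γ} {lp : ℝ} (hg : g ≠ 1) (hp : Root G A g p lp) (k : Γ) :
    ENNReal.ofReal (Iax G ψ₀ (A.cc (k * g * k⁻¹)) (A.uu (k * g * k⁻¹))) =
      ∑' n : ℤ, ∫⁻ s in Ioc (0 : ℝ) lp,
        ENNReal.ofReal (ψ₀ ((k * p ^ n) • G.E (A.cc g) ((s : ℂ) * A.uu g))) := by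
  have ha := A.ax g hg
  obtain ⟨h1, -, h2⟩ := ax_conj hX h ha k
  obtain ⟨-, h3, -⟩ := ax_data hX h A h1 ψ₀
  have h4 : Iax G ψ₀ (k • A.cc g) (G.R k (A.cc g) * A.uu g) =
      ∫ s : ℝ, ψ₀ (G.E (k • A.cc g) ((s : ℂ) * (G.R k (A.cc g) * A.uu g))) := rfl
  have h5 := axis_int h hψ.cont hψ.supp (c := k • A.cc g) h1.nu
  rw [h3, h4, ofReal_integral_eq_lintegral_ofReal h5 (Eventually.of_forall fun s => hψ.nonneg _)]
  have hcE : Continuous fun s : ℝ => G.E (k • A.cc g) ((s : ℂ) * (G.R k (A.cc g) * A.uu g)) := by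
    refine h.E_cont.comp (continuous_const.prodMk ?_)
    fun_prop
  have h6 : Measurable fun s : ℝ => ENNReal.ofReal
      (ψ₀ (G.E (k • A.cc g) ((s : ℂ) * (G.R k (A.cc g) * A.uu g)))) :=
    (hψ.cont.comp hcE).measurable.ennreal_ofReal
  rw [N12_split hp.pos h6]
  refine tsum_congr fun n => ?_
  refine lintegral_congr fun s => ?_
  rw [h2, mul_smul, N12_pow hp]

omit [MulAction Γ Pl] in
theorem N12_grp {k g κ : Γ} (h1 : κ * g * κ⁻¹ = k * g * k⁻¹) : κ⁻¹ * k * g = g * (κ⁻¹ * k) := by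
  have h2 : κ⁻¹ * k * g = κ⁻¹ * (k * g * k⁻¹) * k := by group
  rw [h2, ← h1]
  group

theorem class_int (hX : Surface Γ D) (h : HG D G) (A : Axes G) {ψ₀ : Pl → ℝ} (hψ : Part Γ ψ₀)
    {g p : Γ} {lp : ℝ} (hg : g ≠ 1) (hp : Root G A g p lp) :
    ∑' k : {k : Γ // IsConj g k}, ENNReal.ofReal (Iax G ψ₀ (A.cc k.1) (A.uu k.1)) =
      ENNReal.ofReal lp := by
  have : Countable Γ := M7_count hX
  choose κ hκ using fun k : {k : Γ // IsConj g k} => isConj_iff.1 k.2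
  -- the bijection
  have hcomm : ∀ n : ℤ, p ^ n * g = g * p ^ n := fun n =>
    ((show Commute p g from hp.comm).zpow_left n)
  have hbij : Function.Bijective fun q : {k : Γ // IsConj g k} × ℤ => κ q.1 * p ^ q.2 := by
    constructor
    · rintro ⟨k, n⟩ ⟨k', m⟩ h0
      simp only at h0
      have h1 : ∀ (k : {k : Γ // IsConj g k}) (n : ℤ),
          (κ k * p ^ n) * g * (κ k * p ^ n)⁻¹ = k.1 := by
        intro k n
        have h2 : (κ k * p ^ n) * g * (κ k * p ^ n)⁻¹ = κ k * (p ^ n * g) * (p ^ n)⁻¹ * (κ k)⁻¹ := by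
          group
        rw [h2, hcomm n, ← hκ k]
        group
      have h2 : k = k' := by
        apply Subtype.ext
        rw [← h1 k n, ← h1 k' m, h0]
      subst h2
      have h3 : p ^ n = p ^ m := mul_left_cancel h0
      rw [N12_inj h hg hp h3]
    · intro k
      have hk : IsConj g (k * g * k⁻¹) := isConj_iff.2 ⟨k, rfl⟩
      have h1 : κ ⟨k * g * k⁻¹, hk⟩ * g * (κ ⟨k * g * k⁻¹, hk⟩)⁻¹ = k * g * k⁻¹ := hκ ⟨k * g * k⁻¹, hk⟩
      obtain ⟨n, hn⟩ := hp.cent ((κ ⟨k * g * k⁻¹, hk⟩)⁻¹ * k) (N12_grp h1)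
      refine ⟨(⟨k * g * k⁻¹, hk⟩, n), ?_⟩
      simp only
      rw [← hn]
      group
  have hterm : ∀ k : {k : Γ // IsConj g k}, ENNReal.ofReal (Iax G ψ₀ (A.cc k.1) (A.uu k.1)) =
      ∑' n : ℤ, ∫⁻ s in Ioc (0 : ℝ) lp,
        ENNReal.ofReal (ψ₀ ((κ k * p ^ n) • G.E (A.cc g) ((s : ℂ) * A.uu g))) := by
    intro k
    rw [← N12_term hX h A hψ hg hp (κ k), hκ k]
  simp_rw [hterm]
  rw [← ENNReal.tsum_prod (f := fun (k : {k : Γ // IsConj g k}) (n : ℤ) =>
    ∫⁻ s in Ioc (0 : ℝ) lp, ENNReal.ofReal (ψ₀ ((κ k * p ^ n) • G.E (A.cc g) ((s : ℂ) * A.uu g))))]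
  have h1 := (Equiv.ofBijective _ hbij).tsum_eq fun k : Γ => ∫⁻ s in Ioc (0 : ℝ) lp,
    ENNReal.ofReal (ψ₀ (k • G.E (A.cc g) ((s : ℂ) * A.uu g)))
  simp only [Equiv.ofBijective_apply] at h1
  rw [h1]
  have hcE : Continuous fun s : ℝ => G.E (A.cc g) ((s : ℂ) * A.uu g) := by
    refine h.E_cont.comp (continuous_const.prodMk ?_)
    fun_prop
  rw [← lintegral_tsum fun k => ?_]
  · simp_rw [hψ.sum]
    rw [lintegral_one, Measure.restrict_apply_univ, Real.volume_Ioc, sub_zero]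
  · exact (hψ.cont.comp ((hX.smooth k).continuous.comp hcE)).measurable.ennreal_ofReal.aemeasurable

theorem Lam_class (hX : Surface Γ D) (h : HG D G) (A : Axes G) {ψ₀ : Pl → ℝ} (hψ : Part Γ ψ₀)
    (lp : Γ → ℝ) (hp : ∀ g : Γ, g ≠ 1 → ∃ p : Γ, Root G A g p (lp g)) (T : ℝ) :
    Lam G A ψ₀ T = ∑' c : {c : ConjClasses Γ // c ≠ ConjClasses.mk 1},
      if A.ll (Quotient.out c.1) ≤ T then
        ENNReal.ofReal (lp (Quotient.out c.1) / Dax G (Quotient.out c.1) (A.cc (Quotient.out c.1)))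
      else 0 := by
  unfold Lam
  have hf : ∀ g : {g : Γ // g ≠ 1}, ConjClasses.mk g.1 ≠ ConjClasses.mk 1 := by
    rintro ⟨g, hg⟩ h0
    exact hg (isConj_one_left.1 (ConjClasses.mk_eq_mk_iff_isConj.1 h0))
  set f : {g : Γ // g ≠ 1} → {c : ConjClasses Γ // c ≠ ConjClasses.mk 1} :=
    fun g => ⟨ConjClasses.mk g.1, hf g⟩ with hfdef
  rw [← (Equiv.sigmaFiberEquiv f).tsum_eq, ENNReal.tsum_sigma']
  refine tsum_congr fun c => ?_
  -- the representative
  obtain ⟨r, hr⟩ : ∃ r : Γ, r = Quotient.out c.1 := ⟨_, rfl⟩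
  rw [← hr]
  have hrc : ConjClasses.mk r = c.1 := by
    rw [hr]
    exact Quotient.out_eq c.1
  have hr1 : r ≠ 1 := by
    intro h0
    apply c.2
    rw [← hrc, h0]
  -- the fibre
  let e : {k : Γ // IsConj r k} ≃ {g : {g : Γ // g ≠ 1} // f g = c} :=
    { toFun := fun k => ⟨⟨k.1, fun h0 => hr1 (by
          have h1 := k.2
          rw [h0] at h1
          exact isConj_one_left.1 h1)⟩, by
          apply Subtype.ext
          show ConjClasses.mk k.1 = c.1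
          rw [← hrc]
          exact (ConjClasses.mk_eq_mk_iff_isConj.2 k.2).symm⟩
      invFun := fun g => ⟨g.1.1, by
          have h1 : ConjClasses.mk g.1.1 = c.1 := congrArg Subtype.val g.2
          rw [← hrc] at h1
          exact ConjClasses.mk_eq_mk_iff_isConj.1 h1.symm⟩
      left_inv := fun k => rfl
      right_inv := fun g => rfl }
  rw [← e.tsum_eq]
  have hval : ∀ k : {k : Γ // IsConj r k}, ((Equiv.sigmaFiberEquiv f) ⟨c, e k⟩).1 = k.1 :=
    fun k => rfl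
  simp_rw [hval]
  have ha := A.ax r hr1
  have hdat : ∀ k : {k : Γ // IsConj r k}, A.ll k.1 = A.ll r ∧
      Dax G k.1 (A.cc k.1) = Dax G r (A.cc r) := by
    intro k
    obtain ⟨κ, hκ⟩ := isConj_iff.1 k.2
    obtain ⟨h1, h2, -⟩ := ax_conj hX h ha κ
    obtain ⟨h3, -, h4⟩ := ax_data hX h A h1 ψ₀
    rw [← hκ, h3, h4, h2]
    exact ⟨rfl, rfl⟩
  simp_rw [fun k => (hdat k).1, fun k => (hdat k).2]
  have hD : 0 < Dax G r (A.cc r) := by
    have h1 := Dax_low hX h ha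
    have h2 : 0 < Real.sinh (G.a * A.ll r / 2) :=
      Real.sinh_pos_iff.2 (by have := h.a_pos; have := ha.pos; positivity)
    have h3 : 0 < 4 * Real.sinh (G.a * A.ll r / 2) ^ 2 := by positivity
    linarith
  by_cases hT : A.ll r ≤ T
  · simp_rw [if_pos hT]
    obtain ⟨p, hpr⟩ := hp r hr1
    simp_rw [ENNReal.ofReal_div_of_pos hD, div_eq_mul_inv]
    rw [ENNReal.tsum_mul_right, class_int hX h A hψ hr1 hpr]
  · simp_rw [if_neg hT]
    exact tsum_zero

end SR85
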