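import Pool.Agent.LibSR85.P3

/-! Row SR85 B1: the angle under which a segment is seen, and the contraction towards the vertex.

PLAN of `angle`. Let `δ = d y y'` (if `0`, trivial), `u₁ = di y y'`, `q s = E y (s u₁)`,
`0 ≤ s ≤ δ`: unit speed (`E_t`, `dr_norm`), `d y (q s) = s ≤ δ`. By `du` (first point constant)
`s ↦ di o (q s)` has derivative `I * di o (q s) * (-(fi (q s) q' * conj (di (q s) o)).im / J o (q s))`,
of norm at most `1 / J o (q s) ≤ 1 / j`. Mean value inequality
(`norm_image_sub_le_of_norm_deriv_le_segment_01'` or `Convex.norm_image_sub_le_of_norm_hasDerivWithin_le`).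
PLAN of `angle_curve`: the same for an arbitrary curve. -/

open MeasureTheory Set Filter Topology
open scoped ContDiff ENNReal NNReal ComplexConjugate

namespace SR85

open BGS (Pl Surface)

variable {Γ : Type} [Group Γ] [MulAction Γ Pl] {D : Set Pl} {G : Dat Γ}

/-- The direction of `o` to a curve turns with speed at most `speed / J`. -/
theorem angle_der (h : HG D G) (o : Pl) {q : ℝ → Pl} {q' : Pl} {s : ℝ} (hq : HasDerivAt q q' s)
    (ho : q s ≠ o) : ∃ w : ℝ, |w| ≤ ‖G.fi (q s) q'‖ / G.J o (q s) ∧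
      HasDerivAt (fun r => G.di o (q r)) (Complex.I * G.di o (q s) * (w : ℂ)) s := by
  have h0 := h.du (fun _ => o) q 0 q' s (hasDerivAt_const s o) hq (fun e => ho e.symm)
  simp only [map_zero, zero_mul, Complex.zero_im, mul_zero, neg_zero, sub_zero, zero_sub] at h0
  have hJ : 0 < G.J o (q s) := J_pos h (fun e => ho e.symm)
  refine ⟨-((G.fi (q s) q' * conj (G.di (q s) o)).im / G.J o (q s)), ?_, h0⟩
  rw [abs_neg, abs_div, abs_of_pos hJ]
  refine div_le_div_of_nonneg_right ?_ hJ.le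
  refine (Complex.abs_im_le_norm _).trans ?_
  rw [norm_mul, RCLike.norm_conj, di_norm h ho, mul_one]

theorem angle (h : HG D G) (o y y' : Pl) {j : ℝ} (hj : 0 < j)
    (hJ : ∀ z, G.d y z ≤ G.d y y' → z ≠ o ∧ j ≤ G.J o z) :
    ‖G.di o y - G.di o y'‖ ≤ G.d y y' / j := by
  by_cases hyy : y = y'
  · subst hyy
    rw [sub_self, norm_zero, d_self h, zero_div]
  have hδ : 0 < G.d y y' := d_pos h hyy
  have hu := di_norm h hyy
  have hder : ∀ s ∈ Icc (0 : ℝ) (G.d y y'), ∃ g' : ℂ, ‖g'‖ ≤ 1 / j ∧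
      HasDerivAt (fun r : ℝ => G.di o (G.E y ((r : ℂ) * G.di y y'))) g' s := by
    intro s hs
    obtain ⟨p, hp1, hp2⟩ := h.E_t y (G.di y y') hu s
    have hd : G.d y (G.E y ((s : ℂ) * G.di y y')) ≤ G.d y y' := by
      rw [d_E h y hu, abs_of_nonneg hs.1]
      exact hs.2
    obtain ⟨hne, hj'⟩ := hJ _ hd
    obtain ⟨w, hw1, hw2⟩ := angle_der h o hp1 hne
    refine ⟨_, ?_, hw2⟩
    rw [norm_mul, norm_mul, Complex.norm_I, one_mul, di_norm h (fun e => hne e.symm), one_mul,
      Complex.norm_real, Real.norm_eq_abs]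
    rw [hp2, h.dr_norm y _ hu] at hw1
    exact hw1.trans (one_div_le_one_div_of_le hj hj')
  choose! g' hg1 hg2 using hder
  have hmv := (convex_Icc (0 : ℝ) (G.d y y')).norm_image_sub_le_of_norm_hasDerivWithin_le
    (f := fun r : ℝ => G.di o (G.E y ((r : ℂ) * G.di y y'))) (f' := g') (C := 1 / j)
    (fun s hs => (hg2 s hs).hasDerivWithinAt) (fun s hs => hg1 s hs)
    (right_mem_Icc.2 hδ.le) (left_mem_Icc.2 hδ.le)
  simp only [Complex.ofReal_zero, zero_mul, h.E_zero, E_di h, zero_sub, norm_neg,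
    Real.norm_eq_abs, abs_of_pos hδ] at hmv
  rw [div_eq_mul_inv, mul_comm]
  rwa [one_div] at hmv

end SR85
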