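import Mathlib

/-! Row SR85 N4 (only Mathlib): one monotone change of variable.

PLAN. `S = s θ` is differentiable with `s' ∈ [(1 - δ) k, (1 + δ) k]`, `|w - k| ≤ δ k`, `δ ≤ 1/4`, so
`|w - s'| ≤ 2 δ k ≤ (2 δ / (1 - δ)) s' ≤ 3 δ s'`. `∫_{-θ₁}^{θ₁} g₀ (s θ / ε) s' dθ =
ε ∫_{s(-θ₁)/ε}^{s(θ₁)/ε} g₀ = ε` as `s (θ₁) ≥ (1 - δ) k θ₁ ≥ ε`, `s (-θ₁) ≤ -ε` (`s 0 = 0`) and `g₀` is
supported in `[-1, 1]` (`intervalIntegral.integral_comp_mul_deriv`-type theorem; `s'` need not be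
continuous a priori: assume `sd` is continuous, it is given). Hence the claim with `3 δ ε`. -/

open MeasureTheory Set Filter Topology

namespace SR85

theorem subst {s sd w g₀ : ℝ → ℝ} {k δ ε θ₁ : ℝ} (hk : 0 < k) (hδ : 0 ≤ δ) (hδ' : δ ≤ 1 / 4)
    (hε : 0 < ε) (hθ : 0 < θ₁) (hθε : ε ≤ (1 - δ) * k * θ₁)
    (hs : ∀ θ ∈ Icc (-θ₁) θ₁, HasDerivAt s (sd θ) θ) (hsd : ContinuousOn sd (Icc (-θ₁) θ₁))
    (hs0 : s 0 = 0) (hsk : ∀ θ ∈ Icc (-θ₁) θ₁, |sd θ - k| ≤ δ * k)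
    (hw : ContinuousOn w (Icc (-θ₁) θ₁)) (hwk : ∀ θ ∈ Icc (-θ₁) θ₁, |w θ - k| ≤ δ * k)
    (hg : Continuous g₀) (hg0 : ∀ t, 0 ≤ g₀ t) (hgs : ∀ t, 1 ≤ |t| → g₀ t = 0)
    (hgi : ∫ t, g₀ t = 1) :
    |(∫ θ in (-θ₁)..θ₁, g₀ (s θ / ε) * w θ) - ε| ≤ 3 * δ * ε := by
  have hle : -θ₁ ≤ θ₁ := by linarith
  have hu : uIcc (-θ₁) θ₁ = Icc (-θ₁) θ₁ := uIcc_of_le hle
  have h0m : (0 : ℝ) ∈ Icc (-θ₁) θ₁ := ⟨by linarith, hθ.le⟩
  have hsc : ContinuousOn s (Icc (-θ₁) θ₁) := fun θ hθ' =>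
    (hs θ hθ').continuousAt.continuousWithinAt
  have hgc : ContinuousOn (fun θ => g₀ (s θ / ε)) (Icc (-θ₁) θ₁) :=
    hg.comp_continuousOn (hsc.div_const ε)
  have I1 : IntervalIntegrable (fun θ => g₀ (s θ / ε) * w θ) volume (-θ₁) θ₁ :=
    (hgc.mul hw).intervalIntegrable_of_Icc hle
  have I2 : IntervalIntegrable (fun θ => g₀ (s θ / ε) * sd θ) volume (-θ₁) θ₁ :=
    (hgc.mul hsd).intervalIntegrable_of_Icc hle
  have hlow : ∀ θ ∈ Icc (-θ₁) θ₁, (1 - δ) * k ≤ sd θ := by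
    intro θ hθ'
    have := (abs_le.1 (hsk θ hθ')).1
    linarith
  have hinc : ∀ a b : ℝ, -θ₁ ≤ a → a ≤ b → b ≤ θ₁ → (1 - δ) * k * (b - a) ≤ s b - s a := by
    intro a b ha hab hb
    have hsub : Icc a b ⊆ Icc (-θ₁) θ₁ := Icc_subset_Icc ha hb
    have hI : IntervalIntegrable sd volume a b := (hsd.mono hsub).intervalIntegrable_of_Icc hab
    have e1 : ∫ θ in a..b, sd θ = s b - s a := by
      refine intervalIntegral.integral_eq_sub_of_hasDerivAt (fun θ hθ' => hs θ ?_) hI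
      rw [uIcc_of_le hab] at hθ'
      exact hsub hθ'
    have e2 : ∫ _ in a..b, (1 - δ) * k = (1 - δ) * k * (b - a) := by
      rw [intervalIntegral.integral_const, smul_eq_mul, mul_comm]
    rw [← e1, ← e2]
    exact intervalIntegral.integral_mono_on hab intervalIntegrable_const hI
      fun θ hθ' => hlow θ (hsub hθ')
  have hs1 : ε ≤ s θ₁ := by
    have := hinc 0 θ₁ (by linarith) hθ.le le_rfl
    rw [hs0, sub_zero, sub_zero] at this
    linarith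
  have hs2 : s (-θ₁) ≤ -ε := by
    have := hinc (-θ₁) 0 le_rfl (by linarith) hθ.le
    rw [hs0] at this
    have h2 : (1 - δ) * k * (0 - -θ₁) = (1 - δ) * k * θ₁ := by ring
    rw [h2] at this
    linarith
  have E0 : ∫ θ in (-θ₁)..θ₁, (g₀ ∘ fun θ => s θ / ε) θ * (sd θ / ε) = 1 := by
    rw [intervalIntegral.integral_comp_mul_deriv (f := fun θ => s θ / ε) (f' := fun θ => sd θ / ε)
      (fun θ hθ' => (hs θ (by rwa [hu] at hθ')).div_const ε) (by rw [hu]; exact hsd.div_const ε) hg]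
    rw [intervalIntegral.integral_eq_integral_of_support_subset, hgi]
    intro t ht
    have ht' : |t| < 1 := by
      by_contra hcon
      exact ht (hgs t (not_lt.1 hcon))
    rw [abs_lt] at ht'
    constructor
    · refine lt_of_le_of_lt ?_ ht'.1
      rw [div_le_iff₀ hε]
      linarith
    · refine ht'.2.le.trans ?_
      rw [le_div_iff₀ hε]
      linarith
  have E : ∫ θ in (-θ₁)..θ₁, g₀ (s θ / ε) * sd θ = ε := by
    have e1 : ∀ θ, g₀ (s θ / ε) * sd θ = ε * ((g₀ ∘ fun θ => s θ / ε) θ * (sd θ / ε)) := by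
      intro θ
      simp only [Function.comp_apply]
      field_simp
    simp_rw [e1]
    rw [intervalIntegral.integral_const_mul, E0, mul_one]
  have e2 : (∫ θ in (-θ₁)..θ₁, g₀ (s θ / ε) * w θ) - ε =
      ∫ θ in (-θ₁)..θ₁, (g₀ (s θ / ε) * w θ - g₀ (s θ / ε) * sd θ) := by
    rw [intervalIntegral.integral_sub I1 I2, E]
  rw [e2, ← Real.norm_eq_abs]
  refine (intervalIntegral.norm_integral_le_of_norm_le hle (g := fun θ =>
    3 * δ * (g₀ (s θ / ε) * sd θ)) (ae_of_all _ fun θ hθ' => ?_) (I2.const_mul _)).trans ?_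
  · have hm : θ ∈ Icc (-θ₁) θ₁ := Ioc_subset_Icc_self hθ'
    have h1 : |w θ - sd θ| ≤ 3 * δ * sd θ := by
      have h2 := hsk θ hm
      have h3 := hwk θ hm
      have h4 := hlow θ hm
      have h5 : |w θ - sd θ| ≤ 2 * δ * k := by
        have h6 : w θ - sd θ = (w θ - k) - (sd θ - k) := by ring
        rw [h6]
        refine (abs_sub _ _).trans ?_
        linarith
      refine h5.trans ?_
      have h7 : 3 * δ * ((1 - δ) * k) ≤ 3 * δ * sd θ := mul_le_mul_of_nonneg_left h4 (by positivity)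
      refine le_trans ?_ h7
      have h8 : 0 ≤ δ * k := by positivity
      nlinarith
    rw [← mul_sub, norm_mul, Real.norm_eq_abs, Real.norm_eq_abs, abs_of_nonneg (hg0 _)]
    have h9 := mul_le_mul_of_nonneg_left h1 (hg0 (s θ / ε))
    refine h9.trans (le_of_eq ?_)
    ring
  · rw [intervalIntegral.integral_const_mul, E]

end SR85
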