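import Pool.Agent.LibSR85.N3
import Pool.Agent.LibSR85.N4

/-! Row SR85 N5: the integral over the angle, across the axis, at fixed `r`.

PLAN. Notation and constant `C` of `near_axis` (for `R₀`), `p = pol r 0`, `β θ = B c (u e^{iθ}) r`,
`β₀ = β 0 ≥ sinh (2 a) / a`, `k = β₀ (U p (g p) + U (g p) p) ≥ 2 a β₀ ≥ k₀ := 2 sinh (2 a)` and
`k ≤ k₁(R₀)`. Apply `subst` with `s θ = Im (al ..)`, `sd θ = k(θ) Re (al ..)` (`k(θ)` from
`near_axis`: the derivative of `al` is `I al k(θ)`, its imaginary part is `k(θ) Re al`; it is continuous: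
`k(θ) = Im (conj al * al')`-type formula, or use that `turn` is continuous: `J`, `U`, `di` are
continuous off the diagonal), `w θ = β θ / J x (g x) * Dax`, `θ₁ = C₁ ε`, `C₁ = 4 / k₀`:
`|sd - k| ≤ C (|θ| + e^{-a l}) + 2 k₁ C |θ| ≤ δ k`, and `w / k = (β / β₀) (J p (g p) / J x (g x))
(1 - 2 / (J p (g p) (U + U')))`, so `|w - k| ≤ C' (|θ| + e^{-a l}) k ≤ δ k` for `ε ≤ ε₀`, `l ≥ l₀`. The cut
off `min (max (2 Re) 0) 1` is `1` as `‖al - 1‖ ≤ C θ₁ ≤ 1/2`. -/

open MeasureTheory Set Filter Topology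
open scoped ContDiff ENNReal NNReal ComplexConjugate

namespace SR85

open BGS (Pl Surface)

variable {Γ : Type} [Group Γ] [MulAction Γ Pl] {D : Set Pl} {G : Dat Γ}

/-- A bump on the line. -/
structure Bump1 (g₀ : ℝ → ℝ) : Prop where
  cont : Continuous g₀
  nonneg : ∀ t, 0 ≤ g₀ t
  supp : ∀ t, 1 ≤ |t| → g₀ t = 0
  int : ∫ t, g₀ t = 1

/-- The test function for the angle defect. -/
noncomputable def kap (g₀ : ℝ → ℝ) (ε : ℝ) (z : ℂ) : ℝ :=
  g₀ (z.im / ε) * min (max (2 * z.re) 0) 1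

/-- `tr P - 2`, computed at the point `p` of the axis of `g`. -/
noncomputable def Dax (G : Dat Γ) (g : Γ) (p : Pl) : ℝ :=
  G.J p (g • p) * (G.U p (g • p) + G.U (g • p) p) - 2

/-- the circle of directions -/
private theorem N5_nu {u : ℂ} (hu : ‖u‖ = 1) (θ : ℝ) :
    ‖u * Complex.exp ((θ : ℂ) * Complex.I)‖ = 1 := by
  rw [norm_mul, hu, one_mul, Complex.norm_exp_ofReal_mul_I]

private theorem N5_econt (u : ℂ) : Continuous fun θ : ℝ => u * Complex.exp ((θ : ℂ) * Complex.I) := by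
  fun_prop

private theorem N5_eder (u : ℂ) (θ : ℝ) :
    HasDerivAt (fun θ : ℝ => u * Complex.exp ((θ : ℂ) * Complex.I))
      (Complex.I * (u * Complex.exp ((θ : ℂ) * Complex.I)) * ((1 : ℝ) : ℂ)) θ := by
  have h1 : HasDerivAt (fun z : ℂ => u * Complex.exp (z * Complex.I))
      (u * (Complex.exp ((θ : ℂ) * Complex.I) * (1 * Complex.I))) (θ : ℂ) :=
    (((hasDerivAt_id (θ : ℂ)).mul_const Complex.I).cexp).const_mul u
  refine h1.comp_ofReal.congr_deriv ?_
  push_cast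
  ring

/-- continuity off the diagonal -/
private theorem N5_di (h : HG D G) {x y : ℝ → Pl} (hx : Continuous x) (hy : Continuous y)
    (hxy : ∀ t, x t ≠ y t) : Continuous fun t => G.di (x t) (y t) := by
  have hV : Continuous fun t => G.V (x t) (y t) := h.V_cont.comp (hx.prodMk hy)
  refine hV.div (Complex.continuous_ofReal.comp hV.norm) fun t => ?_
  have h1 : ((‖G.V (x t) (y t)‖ : ℝ) : ℂ) ≠ 0 := by exact_mod_cast (d_pos h (hxy t)).ne'
  exact h1

private theorem N5_J (h : HG D G) {x y : ℝ → Pl} (hx : Continuous x) (hy : Continuous y)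
    (hxy : ∀ t, x t ≠ y t) : Continuous fun t => G.J (x t) (y t) := by
  have hV : Continuous fun t => G.V (x t) (y t) := h.V_cont.comp (hx.prodMk hy)
  exact h.B_cont.comp_continuous (hx.prodMk ((N5_di h hx hy hxy).prodMk hV.norm))
    fun t => di_norm h (hxy t)

private theorem N5_U (h : HG D G) {x y : ℝ → Pl} (hx : Continuous x) (hy : Continuous y)
    (hxy : ∀ t, x t ≠ y t) : Continuous fun t => G.U (x t) (y t) := by
  have hV : Continuous fun t => G.V (x t) (y t) := h.V_cont.comp (hx.prodMk hy)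
  have h1 : Continuous fun t => G.Bd (x t) (G.di (x t) (y t)) (G.d (x t) (y t)) :=
    h.Bd_cont.comp_continuous (hx.prodMk ((N5_di h hx hy hxy).prodMk hV.norm))
      fun t => di_norm h (hxy t)
  exact h1.div (N5_J h hx hy hxy) fun t => (J_pos h (hxy t)).ne'

private theorem N5_x (h : HG D G) (c : Pl) (u : ℂ) (r : ℝ) : Continuous (pol G c u r) := by
  have h1 : Continuous fun θ : ℝ => (r : ℂ) * (u * Complex.exp ((θ : ℂ) * Complex.I)) := by fun_prop
  exact h.E_cont.comp (continuous_const.prodMk h1)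

private theorem N5_B (h : HG D G) (c : Pl) {u : ℂ} (hu : ‖u‖ = 1) (r : ℝ) :
    Continuous fun θ : ℝ => G.B c (u * Complex.exp ((θ : ℂ) * Complex.I)) r :=
  h.B_cont.comp_continuous (continuous_const.prodMk ((N5_econt u).prodMk continuous_const))
    fun t => N5_nu hu t

private theorem N5_dr (h : HG D G) (c : Pl) (u : ℂ) (r : ℝ) :
    Continuous fun θ : ℝ => G.dr c (u * Complex.exp ((θ : ℂ) * Complex.I)) r := by
  have h1 : Continuous fun θ : ℝ => (r : ℂ) * (u * Complex.exp ((θ : ℂ) * Complex.I)) := by fun_prop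
  have h2 : Continuous fun θ : ℝ =>
    ((r + 1 : ℝ) : ℂ) * (u * Complex.exp ((θ : ℂ) * Complex.I)) := by fun_prop
  exact h.V_cont.comp ((h.E_cont.comp (continuous_const.prodMk h1)).prodMk
    (h.E_cont.comp (continuous_const.prodMk h2)))

/-- the speed of turning along the circle -/
private noncomputable def N5_T (G : Dat Γ) (g : Γ) (c : Pl) (u : ℂ) (r θ : ℝ) : ℝ :=
  turn G g (pol G c u r θ)
    (((G.B c (u * Complex.exp ((θ : ℂ) * Complex.I)) r * 1 : ℝ) : ℂ) * Complex.I *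
      G.dr c (u * Complex.exp ((θ : ℂ) * Complex.I)) r)

private theorem N5_Tcont (hX : Surface Γ D) (h : HG D G) {g : Γ} (hg : g ≠ 1) (c : Pl) {u : ℂ}
    (hu : ‖u‖ = 1) (r : ℝ) : Continuous (N5_T G g c u r) := by
  have hx := N5_x h c u r
  have hgx : Continuous fun θ => g • pol G c u r θ := (hX.smooth g).continuous.comp hx
  have hgx' : Continuous fun θ => g⁻¹ • pol G c u r θ := (hX.smooth g⁻¹).continuous.comp hx
  have hn : ∀ θ, pol G c u r θ ≠ g • pol G c u r θ := fun θ => (al_norm hX h hg _).2.1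
  have hn' : ∀ θ, pol G c u r θ ≠ g⁻¹ • pol G c u r θ := fun θ => (al_norm hX h hg _).2.2
  have hξ : Continuous fun θ : ℝ =>
      (((G.B c (u * Complex.exp ((θ : ℂ) * Complex.I)) r * 1 : ℝ) : ℂ) * Complex.I *
        G.dr c (u * Complex.exp ((θ : ℂ) * Complex.I)) r) :=
    ((Complex.continuous_ofReal.comp ((N5_B h c hu r).mul continuous_const)).mul
      continuous_const).mul (N5_dr h c u r)
  have h0 : Continuous fun θ : ℝ =>
      ((((G.B c (u * Complex.exp ((θ : ℂ) * Complex.I)) r * 1 : ℝ) : ℂ) * Complex.I *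
        G.dr c (u * Complex.exp ((θ : ℂ) * Complex.I)) r) *
        conj (G.di (pol G c u r θ) (g • pol G c u r θ))).im :=
    Complex.continuous_im.comp (hξ.mul (Complex.continuous_conj.comp (N5_di h hx hgx hn)))
  have h1 : Continuous fun θ : ℝ =>
      ((((G.B c (u * Complex.exp ((θ : ℂ) * Complex.I)) r * 1 : ℝ) : ℂ) * Complex.I *
        G.dr c (u * Complex.exp ((θ : ℂ) * Complex.I)) r) *
        conj (-G.di (pol G c u r θ) (g⁻¹ • pol G c u r θ))).im :=
    Complex.continuous_im.comp (hξ.mul (Complex.continuous_conj.comp (N5_di h hx hgx' hn').neg))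
  have hU := N5_U h hgx hx fun θ => (hn θ).symm
  have hU' := N5_U h hgx' hx fun θ => (hn' θ).symm
  have hJ := N5_J h hx hgx hn
  exact ((hU.mul h0).add (hU'.mul h1)).sub
    ((h0.add h1).div hJ fun θ => (J_pos h (hn θ)).ne')

private theorem N5_alder (hX : Surface Γ D) (h : HG D G) {g : Γ} (hg : g ≠ 1) (c : Pl) {u : ℂ}
    (hu : ‖u‖ = 1) (r θ : ℝ) :
    HasDerivAt (fun t => al G g (pol G c u r t))
      (Complex.I * al G g (pol G c u r θ) * (N5_T G g c u r θ : ℂ)) θ := by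
  obtain ⟨p, hp1, hp2⟩ := h.E_u c r (fun θ : ℝ => u * Complex.exp ((θ : ℂ) * Complex.I)) θ 1
    (fun t => N5_nu hu t) (N5_eder u θ)
  have h1 := al_der hX h hg (x := pol G c u r) hp1
  have h2 : G.fi (pol G c u r θ) p =
      ((G.B c (u * Complex.exp ((θ : ℂ) * Complex.I)) r * 1 : ℝ) : ℂ) * Complex.I *
        G.dr c (u * Complex.exp ((θ : ℂ) * Complex.I)) r := hp2
  rw [h2] at h1
  exact h1

private theorem N5_sd {T k q η : ℝ} (hk : 0 < k) (hη : 0 ≤ η) (hη1 : η ≤ 1)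
    (h1 : |T - k| ≤ η * k) (h2 : |q - 1| ≤ η) : |T * q - k| ≤ 8 * η * k := by
  have e : T * q - k = (T - k) + T * (q - 1) := by ring
  have h3 : |T| ≤ 2 * k := by
    have h4 : |T| ≤ |T - k| + |k| := by
      have h5 := abs_add_le (T - k) k
      rwa [sub_add_cancel] at h5
    rw [abs_of_pos hk] at h4
    nlinarith
  rw [e]
  refine (abs_add_le _ _).trans ?_
  rw [abs_mul]
  have h5 : |T| * |q - 1| ≤ 2 * k * η :=
    mul_le_mul h3 h2 (abs_nonneg _) (by positivity)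
  nlinarith [mul_nonneg hη hk.le]

private theorem N5_w {A B D' η : ℝ} (hη : 0 ≤ η) (hη1 : η ≤ 1) (hA : |A - 1| ≤ η)
    (hB : |B - 1| ≤ η) (hD : |D' - 1| ≤ η) : |A * B * D' - 1| ≤ 8 * η := by
  have e : A * B * D' - 1 = (A - 1) * (B * D') + (B - 1) * D' + (D' - 1) := by ring
  have hB2 : |B| ≤ 2 := by
    have h5 := abs_add_le (B - 1) 1
    rw [sub_add_cancel, abs_one] at h5
    linarith
  have hD2 : |D'| ≤ 2 := by
    have h5 := abs_add_le (D' - 1) 1
    rw [sub_add_cancel, abs_one] at h5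
    linarith
  have h1 : |(A - 1) * (B * D')| ≤ η * (2 * 2) := by
    rw [abs_mul, abs_mul]
    exact mul_le_mul hA (mul_le_mul hB2 hD2 (abs_nonneg _) (by norm_num)) (by positivity) hη
  have h2 : |(B - 1) * D'| ≤ η * 2 := by
    rw [abs_mul]
    exact mul_le_mul hB hD2 (abs_nonneg _) hη
  rw [e]
  refine (abs_add_le _ _).trans ?_
  have h3 := abs_add_le ((A - 1) * (B * D')) ((B - 1) * D')
  linarith

theorem theta_int (hX : Surface Γ D) (h : HG D G) {g₀ : ℝ → ℝ} (hg : Bump1 g₀) (R₀ : ℝ) :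
    ∃ C₁ : ℝ, 0 < C₁ ∧ ∀ C₂ : ℝ, C₁ ≤ C₂ → ∀ δ : ℝ, 0 < δ → ∃ ε₀ l₀ : ℝ, 0 < ε₀ ∧ 1 ≤ l₀ ∧
      ∀ (ε : ℝ) (g : Γ) (c : Pl) (u : ℂ) (l r : ℝ), 0 < ε → ε ≤ ε₀ → Ax G g c u l → l₀ ≤ l →
        2 ≤ r → r ≤ R₀ →
        |(∫ θ in (-(C₂ * ε))..(C₂ * ε), kap g₀ ε (al G g (pol G c u r θ)) *
            (G.B c (u * Complex.exp ((θ : ℂ) * Complex.I)) r /
              G.J (pol G c u r θ) (g • pol G c u r θ))) * Dax G g (pol G c u r 0) - ε| ≤ δ * ε := by
  obtain ⟨C, hC1, hnear⟩ := near_axis hX h R₀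
  have ha := h.a_pos
  have hC0 : 0 < C := by linarith
  have hsh : 0 < Real.sinh (2 * G.a) := Real.sinh_pos_iff.2 (by positivity)
  obtain ⟨k₀, hk₀⟩ : ∃ k₀ : ℝ, k₀ = 2 * Real.sinh (2 * G.a) := ⟨_, rfl⟩
  have hk₀p : 0 < k₀ := by rw [hk₀]; positivity
  obtain ⟨b₀, hb₀⟩ : ∃ b₀ : ℝ, b₀ = Real.sinh (2 * G.a) / G.a := ⟨_, rfl⟩
  have hb₀p : 0 < b₀ := by rw [hb₀]; positivity
  refine ⟨2 / k₀, by positivity, ?_⟩
  intro C₂ hC₂ δ hδ
  have hC₂0 : 0 < C₂ := lt_of_lt_of_le (by positivity) hC₂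
  obtain ⟨δ', hδ'⟩ : ∃ δ' : ℝ, δ' = min (δ / 3) (1 / 4) := ⟨_, rfl⟩
  have hδ'p : 0 < δ' := by rw [hδ']; positivity
  have hδ'1 : δ' ≤ δ / 3 := by rw [hδ']; exact min_le_left _ _
  have hδ'2 : δ' ≤ 1 / 4 := by rw [hδ']; exact min_le_right _ _
  obtain ⟨η, hη⟩ : ∃ η : ℝ, η = δ' / 8 := ⟨_, rfl⟩
  have hηp : 0 < η := by rw [hη]; positivity
  have hη1 : η ≤ 1 := by rw [hη]; linarith
  have hη8 : 8 * η = δ' := by rw [hη]; ring
  obtain ⟨m, hm⟩ : ∃ m : ℝ, m = min 1 (min k₀ b₀) := ⟨_, rfl⟩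
  have hmp : 0 < m := by rw [hm]; positivity
  have hm1 : m ≤ 1 := by rw [hm]; exact min_le_left _ _
  have hm2 : m ≤ k₀ := by rw [hm]; exact (min_le_right _ _).trans (min_le_left _ _)
  have hm3 : m ≤ b₀ := by rw [hm]; exact (min_le_right _ _).trans (min_le_right _ _)
  refine ⟨η * m / (2 * C * C₂), max 8 (2 * C / (G.a * η * m)), by positivity,
    le_trans (by norm_num) (le_max_left _ _), ?_⟩
  intro ε g c u l r hε hε₀ hax hl hr hrR
  have hl8 : 8 ≤ l := (le_max_left _ _).trans hl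
  have hlC : 2 * C / (G.a * η * m) ≤ l := (le_max_right _ _).trans hl
  have hu := hax.nu
  have hr0 : 0 < r := by linarith
  -- `g` is not the identity
  have hg1 : g ≠ 1 := by
    rintro rfl
    have h1 := hax.mn c
    rw [one_smul, d_self h] at h1
    linarith
  -- smallness
  have hθC : C * (C₂ * ε) ≤ η * m / 2 := by
    have h1 : C * (C₂ * ε) ≤ C * (C₂ * (η * m / (2 * C * C₂))) := by gcongr
    refine h1.trans (le_of_eq ?_)
    field_simp
  have hsm : ∀ θ : ℝ, |θ| ≤ C₂ * ε → C * |θ| ≤ η * m / 2 := fun θ hθ =>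
    (mul_le_mul_of_nonneg_left hθ hC0.le).trans hθC
  have hηm : η * m ≤ η := mul_le_of_le_one_right hηp.le hm1
  have hsmC : ∀ θ : ℝ, |θ| ≤ C₂ * ε → |θ| ≤ 1 / C := by
    intro θ hθ
    rw [le_div_iff₀ hC0]
    have h1 := hsm θ hθ
    nlinarith
  have hal : G.a * l ≥ 2 * C / (η * m) := by
    have h1 : G.a * (2 * C / (G.a * η * m)) ≤ G.a * l := mul_le_mul_of_nonneg_left hlC ha.le
    have h2 : G.a * (2 * C / (G.a * η * m)) = 2 * C / (η * m) := by field_simp
    linarith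
  have halp : 0 < G.a * l := by positivity
  have hexp : C * Real.exp (-(G.a * l)) ≤ η * m / 2 := by
    have h1 : G.a * l ≤ Real.exp (G.a * l) := by linarith [Real.add_one_le_exp (G.a * l)]
    have h2 : 2 * C ≤ η * m * Real.exp (G.a * l) := by
      have h3 : 2 * C ≤ G.a * l * (η * m) := (div_le_iff₀ (by positivity)).1 hal
      have h4 : G.a * l * (η * m) ≤ Real.exp (G.a * l) * (η * m) :=
        mul_le_mul_of_nonneg_right h1 (by positivity)
      linarith
    rw [Real.exp_neg, ← div_eq_mul_inv, div_le_iff₀ (Real.exp_pos _)]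
    linarith
  -- the point on the axis
  obtain ⟨p, hp⟩ : ∃ p : Pl, p = pol G c u r 0 := ⟨_, rfl⟩
  have hp' : p = G.E c ((r : ℂ) * u) := by
    rw [hp]
    unfold pol
    rw [Complex.ofReal_zero, zero_mul, Complex.exp_zero, mul_one]
  have hdp : G.d p (g • p) = l := by
    rw [hp']
    exact (al_axis h hax r).2.2.2
  have hpg : p ≠ g • p := by
    intro hcon
    rw [← hcon, d_self h] at hdp
    linarith
  obtain ⟨J₀, hJ₀⟩ : ∃ J₀ : ℝ, J₀ = G.J p (g • p) := ⟨_, rfl⟩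
  obtain ⟨S, hS⟩ : ∃ S : ℝ, S = G.U p (g • p) + G.U (g • p) p := ⟨_, rfl⟩
  obtain ⟨β₀, hβ₀⟩ : ∃ β₀ : ℝ, β₀ = G.B c u r := ⟨_, rfl⟩
  have hJ₀p : 0 < J₀ := by rw [hJ₀]; exact J_pos h hpg
  have hSa : 2 * G.a ≤ S := by
    have h1 := U_low h hpg
    have h2 := U_low h hpg.symm
    rw [hS]
    linarith
  have hSp : 0 < S := by linarith
  have hβb : b₀ ≤ β₀ := by
    have h1 := B_low h c hu hr0
    rw [← hβ₀] at h1
    refine le_trans ?_ h1
    rw [hb₀]
    have h2 : Real.sinh (2 * G.a) ≤ Real.sinh (G.a * r) := Real.sinh_le_sinh.2 (by nlinarith)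
    gcongr
  have hβp : 0 < β₀ := by linarith
  obtain ⟨k, hk⟩ : ∃ k : ℝ, k = β₀ * S := ⟨_, rfl⟩
  have hkp : 0 < k := by rw [hk]; positivity
  have hkk : k₀ ≤ k := by
    have h1 : b₀ * (2 * G.a) ≤ β₀ * S := mul_le_mul hβb hSa (by positivity) hβp.le
    have h2 : b₀ * (2 * G.a) = k₀ := by
      rw [hb₀, hk₀]
      field_simp
    rw [hk]
    linarith
  have hJS : 2 / (J₀ * S) ≤ η := by
    have h1 := J_low h hpg
    rw [hdp, ← hJ₀] at h1
    have h2 : Real.sinh (G.a * l) ≤ G.a * J₀ := by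
      rw [div_le_iff₀ ha] at h1
      linarith
    have h3 : G.a * l ≤ Real.sinh (G.a * l) := Real.self_le_sinh_iff.2 halp.le
    have h4 : 2 * (G.a * l) ≤ J₀ * S := by nlinarith
    have h5 : 2 * C ≤ G.a * l * (η * m) := (div_le_iff₀ (by positivity)).1 hal
    have h6 : G.a * l * (η * m) ≤ G.a * l * η := mul_le_mul_of_nonneg_left hηm halp.le
    rw [div_le_iff₀ (by positivity)]
    nlinarith
  -- apply the substitution
  have hI : ∀ θ ∈ Icc (-(C₂ * ε)) (C₂ * ε), |θ| ≤ C₂ * ε := fun θ hθ => abs_le.2 hθ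
  have hx := N5_x h c u r
  have hgx : Continuous fun θ => g • pol G c u r θ := (hX.smooth g).continuous.comp hx
  have hn : ∀ θ, pol G c u r θ ≠ g • pol G c u r θ := fun θ => (al_norm hX h hg1 _).2.1
  have hder := N5_alder hX h hg1 c hu r
  have halc : Continuous fun t => al G g (pol G c u r t) :=
    continuous_iff_continuousAt.2 fun θ => (hder θ).continuousAt
  have hre : ∀ θ ∈ Icc (-(C₂ * ε)) (C₂ * ε), |(al G g (pol G c u r θ)).re - 1| ≤ η := by
    intro θ hθ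
    have h1 := (hnear g c u l r θ hax hl8 hr hrR (hsmC θ (hI θ hθ))).1
    have h2 := Complex.abs_re_le_norm (al G g (pol G c u r θ) - 1)
    rw [Complex.sub_re, Complex.one_re] at h2
    have h3 := hsm θ (hI θ hθ)
    linarith
  have hmain := subst (s := fun θ => (al G g (pol G c u r θ)).im)
    (sd := fun θ => N5_T G g c u r θ * (al G g (pol G c u r θ)).re)
    (w := fun θ => G.B c (u * Complex.exp ((θ : ℂ) * Complex.I)) r /
      G.J (pol G c u r θ) (g • pol G c u r θ) * Dax G g (pol G c u r 0))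
    (g₀ := g₀) (k := k) (δ := δ') (ε := ε) (θ₁ := C₂ * ε) hkp hδ'p.le hδ'2 hε (by positivity)
    ?_ ?_ ?_ ?_ ?_ ?_ ?_ hg.cont hg.nonneg hg.supp hg.int
  rotate_left
  · -- the interval is long enough
    have h1 : 2 ≤ C₂ * k₀ := (div_le_iff₀ hk₀p).1 hC₂
    have h2 : C₂ * k₀ ≤ C₂ * k := mul_le_mul_of_nonneg_left hkk hC₂0.le
    have h3 : 1 ≤ (1 - δ') * (C₂ * k) := by nlinarith
    have h4 : 1 * ε ≤ (1 - δ') * (C₂ * k) * ε := mul_le_mul_of_nonneg_right h3 hε.le
    linarith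
  · intro θ hθ
    have h1 := (Complex.imCLM.hasFDerivAt.comp_hasDerivAt θ (hder θ))
    refine h1.congr_deriv ?_
    rw [Complex.imCLM_apply]
    simp only [Complex.mul_im, Complex.mul_re, Complex.I_re, Complex.I_im, Complex.ofReal_re,
      Complex.ofReal_im]
    ring
  · exact ((N5_Tcont hX h hg1 c hu r).mul (Complex.continuous_re.comp halc)).continuousOn
  · have h1 : al G g (pol G c u r 0) = 1 := by
      rw [← hp, hp']
      exact (al_axis h hax r).1
    show (al G g (pol G c u r 0)).im = 0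
    rw [h1, Complex.one_im]
  · intro θ hθ
    obtain ⟨-, -, -, -, k', hk'1, hk'2⟩ :=
      hnear g c u l r θ hax hl8 hr hrR (hsmC θ (hI θ hθ))
    have h1 := hk'1.unique (hder θ)
    have h2 : al G g (pol G c u r θ) ≠ 0 := by
      intro hcon
      have h3 := (al_norm hX h hg1 (pol G c u r θ)).1
      rw [hcon, norm_zero] at h3
      exact zero_ne_one h3
    have h3 : (k' : ℂ) = (N5_T G g c u r θ : ℂ) :=
      mul_left_cancel₀ (mul_ne_zero Complex.I_ne_zero h2) h1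
    have h4 : k' = N5_T G g c u r θ := Complex.ofReal_injective h3
    rw [h4, ← hp, ← hS, ← hβ₀, ← hk] at hk'2
    have h5 := hsm θ (hI θ hθ)
    have h6 : |N5_T G g c u r θ - k| ≤ η * k := by
      have h7 : η * m ≤ η * k := mul_le_mul_of_nonneg_left (hm2.trans hkk) hηp.le
      rw [mul_add] at hk'2
      linarith
    have h8 := N5_sd hkp hηp.le hη1 h6 (hre θ hθ)
    rw [hη8] at h8
    exact h8
  · exact (((N5_B h c hu r).div (N5_J h hx hgx hn) fun θ => (J_pos h (hn θ)).ne').mul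
      continuous_const).continuousOn
  · intro θ hθ
    obtain ⟨-, -, hβ, hJ, -⟩ := hnear g c u l r θ hax hl8 hr hrR (hsmC θ (hI θ hθ))
    have h5 := hsm θ (hI θ hθ)
    obtain ⟨Jθ, hJθ⟩ : ∃ Jθ : ℝ, Jθ = G.J (pol G c u r θ) (g • pol G c u r θ) := ⟨_, rfl⟩
    obtain ⟨βθ, hβθ⟩ : ∃ βθ : ℝ, βθ = G.B c (u * Complex.exp ((θ : ℂ) * Complex.I)) r := ⟨_, rfl⟩
    have hJθp : 0 < Jθ := by rw [hJθ]; exact J_pos h (hn θ)
    rw [← hJθ, ← hp, ← hJ₀] at hJ
    rw [← hβθ, ← hβ₀] at hβ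
    have hA : |βθ / β₀ - 1| ≤ η := by
      have h6 : βθ / β₀ - 1 = (βθ - β₀) / β₀ := by field_simp
      rw [h6, abs_div, abs_of_pos hβp, div_le_iff₀ hβp]
      have h7 : η * m ≤ η * β₀ := mul_le_mul_of_nonneg_left (hm3.trans hβb) hηp.le
      have h8 : 0 ≤ η * m := by positivity
      linarith
    have hB : |J₀ / Jθ - 1| ≤ η := by
      have h6 : J₀ / Jθ = Real.exp (Real.log J₀ - Real.log Jθ) := by
        rw [Real.exp_sub, Real.exp_log hJ₀p, Real.exp_log hJθp]
      have h7 : |Real.log J₀ - Real.log Jθ| ≤ η * m / 2 := by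
        rw [abs_sub_comm]
        linarith
      rw [h6]
      have h8 := Real.abs_exp_sub_one_le (x := Real.log J₀ - Real.log Jθ) (by linarith)
      linarith
    have hD : |(1 - 2 / (J₀ * S)) - 1| ≤ η := by
      rw [sub_sub_cancel_left, abs_neg, abs_of_pos (by positivity)]
      exact hJS
    have h9 := N5_w hηp.le hη1 hA hB hD
    have h10 : βθ / Jθ * Dax G g (pol G c u r 0) - k =
        k * (βθ / β₀ * (J₀ / Jθ) * (1 - 2 / (J₀ * S)) - 1) := by
      unfold Dax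
      rw [← hp, ← hJ₀, ← hS, hk]
      field_simp
    show |G.B c (u * Complex.exp ((θ : ℂ) * Complex.I)) r /
      G.J (pol G c u r θ) (g • pol G c u r θ) * Dax G g (pol G c u r 0) - k| ≤ δ' * k
    rw [← hJθ, ← hβθ, h10, abs_mul, abs_of_pos hkp, mul_comm k]
    refine mul_le_mul_of_nonneg_right ?_ hkp.le
    rw [← hη8]
    exact h9
  · have h1 : (∫ θ in (-(C₂ * ε))..(C₂ * ε), kap g₀ ε (al G g (pol G c u r θ)) *
            (G.B c (u * Complex.exp ((θ : ℂ) * Complex.I)) r /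
              G.J (pol G c u r θ) (g • pol G c u r θ))) * Dax G g (pol G c u r 0) =
        ∫ θ in (-(C₂ * ε))..(C₂ * ε), g₀ ((al G g (pol G c u r θ)).im / ε) *
          (G.B c (u * Complex.exp ((θ : ℂ) * Complex.I)) r /
            G.J (pol G c u r θ) (g • pol G c u r θ) * Dax G g (pol G c u r 0)) := by
      rw [← intervalIntegral.integral_mul_const]
      refine intervalIntegral.integral_congr fun θ hθ => ?_
      rw [uIcc_of_le (by have := mul_pos hC₂0 hε; linarith)] at hθ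
      have h2 := hre θ hθ
      have h3 : min (max (2 * (al G g (pol G c u r θ)).re) 0) 1 = 1 := by
        rw [abs_le] at h2
        have h4 : η ≤ 1 / 2 := by linarith
        refine min_eq_right (le_max_of_le_left ?_)
        linarith
      show kap g₀ ε (al G g (pol G c u r θ)) *
            (G.B c (u * Complex.exp ((θ : ℂ) * Complex.I)) r /
              G.J (pol G c u r θ) (g • pol G c u r θ)) * Dax G g (pol G c u r 0) = _
      unfold kap
      rw [h3]
      ring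
    rw [h1]
    refine hmain.trans ?_
    have h2 : 3 * δ' ≤ δ := by linarith
    exact mul_le_mul_of_nonneg_right h2 hε.le

end SR85
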