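import Pool.Agent.LibSR85.N2
import Pool.Agent.LibSR85.N5
import Pool.Agent.LibSR85.B1

/-! Row SR85 N6: in polar coordinates about a suitable point of the axis, the loops with small
angle defect that start in the compact set `N` are in a thin sector.

PLAN. `p s = E c (s u)`. The set `S` of the `s` with `d (p s) y ≤ 1/2` for some `y ∈ N` has diameter
at most `diam N + 1` (`d_geo`: `|s - s'| = d (p s) (p s')`), diameter for `d`, finite as `N` is
compact. If `S` is empty take `s₀ = 0`; otherwise `s₀ = inf S - 3`, so `s₀ + s ∈ S` implies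
`3 ≤ s ≤ R₀ := diam N + 5`. Let `c' = p s₀`, `u' = dr c u s₀` (`ax_shift`). Let `x = pol c' u' r θ ∈ N`,
`‖al - 1‖ ≤ 2 ε`. By `localise` `x = E (p' s) (± q I ..)` with `p' s = E c' (s u')`,
`C min |q| 1 ≤ 2 ε`, so `d x (p' s) = |q| ≤ 2 ε / C ≤ 1/2` for `ε ≤ ε₀`; hence `3 ≤ s ≤ R₀`, and
`|r - s| = |d c' x - d c' (p' s)| ≤ 1/2`, so `2 ≤ r ≤ R₀ + 1`. By `angle` (from `c'`, the segment from
`p' s` to `x` stays at distance `≥ 2` from `c'`, `J ≥ sinh (2 a) / a`) `‖di c' x - u'‖ ≤ C' ε`, and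
`di c' x = u' e^{iθ}`, `‖e^{iθ} - 1‖ ≥ (2/π) |θ|`. -/

open MeasureTheory Set Filter Topology
open scoped ContDiff ENNReal NNReal ComplexConjugate

namespace SR85

open BGS (Pl Surface)

variable {Γ : Type} [Group Γ] [MulAction Γ Pl] {D : Set Pl} {G : Dat Γ}

theorem N6_theta {θ : ℝ} (h : θ ∈ Ioc (-Real.pi) Real.pi) :
    |θ| ≤ Real.pi / 2 * ‖Complex.exp ((θ : ℂ) * Complex.I) - 1‖ := by
  have h1 : ‖Complex.exp ((θ : ℂ) * Complex.I) - 1‖ = 2 * |Real.sin (θ / 2)| := by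
    have h2 : ‖Complex.exp ((θ : ℂ) * Complex.I) - 1‖ ^ 2 = (2 * |Real.sin (θ / 2)|) ^ 2 := by
      rw [← Complex.normSq_eq_norm_sq, Complex.normSq_apply, mul_pow, sq_abs]
      simp only [Complex.sub_re, Complex.sub_im, Complex.exp_ofReal_mul_I_re,
        Complex.exp_ofReal_mul_I_im, Complex.one_re, Complex.one_im, sub_zero]
      have h3 : Real.cos θ = 1 - 2 * Real.sin (θ / 2) ^ 2 := by
        have h4 := Real.cos_two_mul (θ / 2)
        rw [mul_div_cancel₀ _ (two_ne_zero)] at h4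
        have h5 := Real.sin_sq_add_cos_sq (θ / 2)
        rw [h4]
        linarith
      have h6 := Real.sin_sq_add_cos_sq θ
      nlinarith [h3, h6]
    have h7 : (0 : ℝ) ≤ 2 * |Real.sin (θ / 2)| := by positivity
    exact (pow_left_inj₀ (norm_nonneg _) h7 two_ne_zero).1 h2
  rw [h1]
  have hpi := Real.pi_pos
  have h8 : 2 / Real.pi * |θ / 2| ≤ |Real.sin (θ / 2)| := by
    rcases le_total 0 θ with h0 | h0
    · have h9 : 0 ≤ θ / 2 := by linarith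
      have h10 : θ / 2 ≤ Real.pi / 2 := by linarith [h.2]
      rw [abs_of_nonneg h9]
      exact (Real.mul_le_sin h9 h10).trans (le_abs_self _)
    · have h9 : 0 ≤ -(θ / 2) := by linarith
      have h10 : -(θ / 2) ≤ Real.pi / 2 := by linarith [h.1]
      rw [abs_of_nonpos (by linarith)]
      have h11 := Real.mul_le_sin h9 h10
      rw [Real.sin_neg] at h11
      exact h11.trans (neg_le_abs _)
  rw [abs_div, abs_two] at h8
  have h12 : |θ| = Real.pi / 2 * (2 * (2 / Real.pi * (|θ| / 2))) := by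
    field_simp
  rw [h12]
  have h13 : 2 * (2 / Real.pi * (|θ| / 2)) ≤ 2 * |Real.sin (θ / 2)| := by linarith
  exact mul_le_mul_of_nonneg_left h13 (by positivity)

theorem N6_unit {u : ℂ} (hu : ‖u‖ = 1) (θ : ℝ) :
    ‖u * Complex.exp ((θ : ℂ) * Complex.I)‖ = 1 := by
  rw [norm_mul, hu, Complex.norm_exp_ofReal_mul_I, mul_one]

theorem N6_diam (h : HG D G) {N : Set Pl} (hN : IsCompact N) :
    ∃ R : ℝ, 0 ≤ R ∧ ∀ x ∈ N, ∀ y ∈ N, G.d x y ≤ R := by
  obtain ⟨C, hC⟩ := (hN.prod hN).exists_bound_of_continuousOn (d_cont h).continuousOn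
  refine ⟨max C 0, le_max_right _ _, fun x hx y hy => ?_⟩
  have h1 := hC (x, y) ⟨hx, hy⟩
  exact ((le_abs_self _).trans h1).trans (le_max_left _ _)

theorem sector (hX : Surface Γ D) (h : HG D G) {N : Set Pl} (hN : IsCompact N) :
    ∃ R₀ C₁ ε₀ : ℝ, 3 ≤ R₀ ∧ 0 < C₁ ∧ 0 < ε₀ ∧
      ∀ (g : Γ) (c : Pl) (u : ℂ) (l : ℝ), Ax G g c u l → 1 ≤ l → ∃ (s₀ : ℝ) (c' : Pl) (u' : ℂ),
        c' = G.E c ((s₀ : ℂ) * u) ∧ u' = G.dr c u s₀ ∧ Ax G g c' u' l ∧
        (∀ s : ℝ, (∃ y ∈ N, G.d (G.E c' ((s : ℂ) * u')) y ≤ 1 / 2) → 3 ≤ s ∧ s ≤ R₀) ∧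
        ∀ ε r θ : ℝ, 0 < ε → ε ≤ ε₀ → 0 < r → θ ∈ Ioc (-Real.pi) Real.pi →
          pol G c' u' r θ ∈ N → ‖al G g (pol G c' u' r θ) - 1‖ ≤ 2 * ε →
          2 ≤ r ∧ r ≤ R₀ + 1 ∧ |θ| ≤ C₁ * ε := by
  obtain ⟨Δ, hΔ0, hΔ⟩ := N6_diam h hN
  obtain ⟨C, hC, hloc⟩ := localise hX h (l₁ := 1) one_pos
  have ha := h.a_pos
  have hpi := Real.pi_pos
  set j : ℝ := Real.sinh (G.a * 2) / G.a with hj
  have hj0 : 0 < j := by
    have : 0 < Real.sinh (G.a * 2) := Real.sinh_pos_iff.2 (by positivity)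
    positivity
  refine ⟨2 * Δ + 5, Real.pi / (C * j), C / 4, by linarith, by positivity, by positivity, ?_⟩
  intro g c u l hax hl
  have hu := hax.nu
  obtain ⟨s₀, hs₀⟩ : ∃ s₀ : ℝ, ∀ s : ℝ,
      (∃ y ∈ N, G.d (G.E c (((s₀ + s : ℝ) : ℂ) * u)) y ≤ 1 / 2) → 3 ≤ s ∧ s ≤ 2 * Δ + 5 := by
    by_cases hS : ∃ s₁ : ℝ, ∃ y ∈ N, G.d (G.E c ((s₁ : ℂ) * u)) y ≤ 1 / 2
    · obtain ⟨s₁, y₁, hy₁, hd₁⟩ := hS
      refine ⟨s₁ - Δ - 4, fun s hs => ?_⟩
      obtain ⟨y, hy, hd⟩ := hs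
      have h1 := d_geo h c hu (s₁ - Δ - 4 + s) s₁
      have h2 := h.d_tri (G.E c (((s₁ - Δ - 4 + s : ℝ) : ℂ) * u)) y (G.E c ((s₁ : ℂ) * u))
      have h3 := h.d_tri y y₁ (G.E c ((s₁ : ℂ) * u))
      have h4 := hΔ y hy y₁ hy₁
      rw [h.d_symm y₁] at h3
      have h5 : |s₁ - (s₁ - Δ - 4 + s)| ≤ Δ + 1 := by
        rw [← h1]
        linarith
      have h6 := abs_le.1 h5
      constructor <;> linarith [h6.1, h6.2]
    · refine ⟨0, fun s hs => ?_⟩
      exact absurd ⟨0 + s, hs⟩ hS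
  have hax' := ax_shift h hax s₀
  refine ⟨s₀, _, _, rfl, rfl, hax', ?_, ?_⟩
  · rintro s ⟨y, hy, hd⟩
    rw [h.flow c u hu] at hd
    exact hs₀ s ⟨y, hy, hd⟩
  intro ε r θ hε hε0 hr hθ hxN hal
  set c' := G.E c ((s₀ : ℂ) * u) with hc'
  set u' := G.dr c u s₀ with hu'
  have hun : ‖u'‖ = 1 := hax'.nu
  set x := pol G c' u' r θ with hx
  obtain ⟨s, q, hxq, hq⟩ := hloc g c' u' l hax' hl x
  have hq1 : C * min |q| 1 ≤ 2 * ε := hq.trans hal
  have hq2 : min |q| 1 ≤ 2 * ε / C := by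
    rw [le_div_iff₀ hC]
    linarith
  have hq3 : 2 * ε / C ≤ 1 / 2 := by
    rw [div_le_iff₀ hC]
    linarith
  have hq4 : min |q| 1 = |q| := by
    rcases le_total |q| 1 with h0 | h0
    · exact min_eq_left h0
    · exfalso
      rw [min_eq_right h0] at hq2
      linarith
  rw [hq4] at hq2
  have hdr : ‖Complex.I * G.dr c' u' s‖ = 1 := by
    rw [norm_mul, Complex.norm_I, one_mul, h.dr_norm c' u' hun]
  have hd1 : G.d (G.E c' ((s : ℂ) * u')) x = |q| := by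
    rw [hxq]
    exact d_E h _ hdr q
  have hs : 3 ≤ s ∧ s ≤ 2 * Δ + 5 := by
    refine hs₀ s ⟨x, hxN, ?_⟩
    rw [← h.flow c u hu, ← hc', ← hu', hd1]
    linarith
  have hrx : G.d c' x = r := by
    rw [hx]
    unfold pol
    rw [d_E h c' (N6_unit hun θ), abs_of_pos hr]
  have hsx : G.d c' (G.E c' ((s : ℂ) * u')) = s := by
    rw [d_E h c' hun, abs_of_nonneg (by linarith [hs.1])]
  have ht1 := h.d_tri c' (G.E c' ((s : ℂ) * u')) x
  have ht2 := h.d_tri c' x (G.E c' ((s : ℂ) * u'))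
  rw [h.d_symm x] at ht2
  rw [hrx, hsx, hd1] at ht1 ht2
  refine ⟨by linarith [hs.1], by linarith [hs.2], ?_⟩
  have hang := angle h c' (G.E c' ((s : ℂ) * u')) x hj0 (by
    intro z hz
    rw [hd1] at hz
    have h1 := h.d_tri c' z (G.E c' ((s : ℂ) * u'))
    rw [h.d_symm z, hsx] at h1
    have h2 : 2 ≤ G.d c' z := by linarith [hs.1]
    have h3 : z ≠ c' := by
      rintro rfl
      rw [d_self h] at h2
      linarith
    refine ⟨h3, ?_⟩
    refine le_trans ?_ (J_low h (fun e => h3 e.symm))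
    rw [hj]
    refine div_le_div_of_nonneg_right ?_ ha.le
    exact Real.sinh_le_sinh.2 (mul_le_mul_of_nonneg_left h2 ha.le))
  have hd2 : G.di c' (G.E c' ((s : ℂ) * u')) = u' := di_E h c' hun (by linarith [hs.1])
  have hd3 : G.di c' x = u' * Complex.exp ((θ : ℂ) * Complex.I) := by
    rw [hx]
    exact di_E h c' (N6_unit hun θ) hr
  rw [hd1, hd2, hd3] at hang
  have h5 : ‖Complex.exp ((θ : ℂ) * Complex.I) - 1‖ ≤ |q| / j := by
    have h6 : u' - u' * Complex.exp ((θ : ℂ) * Complex.I) =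
        -(u' * (Complex.exp ((θ : ℂ) * Complex.I) - 1)) := by ring
    rw [h6, norm_neg, norm_mul, hun, one_mul] at hang
    exact hang
  have h7 := N6_theta hθ
  calc |θ| ≤ Real.pi / 2 * ‖Complex.exp ((θ : ℂ) * Complex.I) - 1‖ := h7
    _ ≤ Real.pi / 2 * ((2 * ε / C) / j) := by
        refine mul_le_mul_of_nonneg_left (h5.trans ?_) (by positivity)
        exact div_le_div_of_nonneg_right hq2 hj0.le
    _ = Real.pi / (C * j) * ε := by
        field_simp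

end SR85
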