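import Pool.Agent.LibSR85.P1

/-! Row SR85 P2: the length of a curve bounds the distance of its ends.

PLAN. Put `f s = d (p a) (p s)`: continuous on `[a, b]` (`V_cont`, `p` continuous), `f a = 0`, and
at every `s` with `p s ≠ p a` it has derivative `-Re (fi (p s) (p' s) * conj (di (p s) (p a)))`
(`dd` with the constant curve), of absolute value at most `‖fi (p s) (p' s)‖ ≤ c s`. Let `s₀` be
the last zero of `f` in `[a, b]` (compactness); if `s₀ = b` done (`c ≥ 0` on `[a, b]`). On
`(s₀, b]` the function `f s - ∫ s₀..s c` has derivative at most `0`, so it is antitone and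
`f b ≤ ∫ s₀..b c ≤ ∫ a..b c`. (If you prefer, extend `c` to a continuous function on the line.) -/

open MeasureTheory Set Filter Topology
open scoped ContDiff ENNReal NNReal ComplexConjugate

namespace SR85

open BGS (Pl Surface)

variable {Γ : Type} [Group Γ] [MulAction Γ Pl] {D : Set Pl} {G : Dat Γ}

theorem len (h : HG D G) {p p' : ℝ → Pl} {a b : ℝ} (hab : a ≤ b)
    (hp : ∀ s ∈ Icc a b, HasDerivAt p (p' s) s) (c : ℝ → ℝ) (hc : Continuous c)
    (hb : ∀ s ∈ Icc a b, ‖G.fi (p s) (p' s)‖ ≤ c s) :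
    G.d (p a) (p b) ≤ ∫ s in a..b, c s := by
  set f : ℝ → ℝ := fun s => G.d (p a) (p s) with hf
  have hc0 : ∀ s ∈ Icc a b, 0 ≤ c s := fun s hs => (norm_nonneg _).trans (hb s hs)
  have hfc : ContinuousOn f (Icc a b) := by
    intro s hs
    apply ContinuousAt.continuousWithinAt
    have h1 : ContinuousAt p s := (hp s hs).continuousAt
    have h2 : ContinuousAt (fun s => (p a, p s)) s := continuousAt_const.prodMk h1
    have h3 : ContinuousAt (fun s => G.V (p a) (p s)) s :=
      ContinuousAt.comp (f := fun s => (p a, p s)) (g := fun q : Pl × Pl => G.V q.1 q.2)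
        h.V_cont.continuousAt h2
    exact h3.norm
  have hfa : f a = 0 := d_self h _
  have hK : IsCompact (Icc a b ∩ f ⁻¹' {0}) := by
    have h1 : IsClosed (Icc a b ∩ f ⁻¹' {0}) :=
      hfc.preimage_isClosed_of_isClosed isClosed_Icc isClosed_singleton
    exact isCompact_Icc.of_isClosed_subset h1 inter_subset_left
  have hne : (Icc a b ∩ f ⁻¹' {0}).Nonempty := ⟨a, left_mem_Icc.2 hab, hfa⟩
  obtain ⟨s₀, ⟨hs₀, hfs₀⟩, hmax⟩ := hK.exists_isGreatest hne
  have hfs₀' : f s₀ = 0 := hfs₀
  have hpos : ∀ s ∈ Ioo s₀ b, p a ≠ p s := by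
    intro s hs h0
    have h1 : s ∈ Icc a b ∩ f ⁻¹' {0} := by
      refine ⟨⟨hs₀.1.trans hs.1.le, hs.2.le⟩, ?_⟩
      show f s = 0
      simp only [hf]
      rw [← h0]
      exact d_self h _
    exact absurd (hmax h1) (not_le.2 hs.1)
  have hder : ∀ s ∈ Ioo s₀ b, ∃ f' : ℝ, HasDerivAt f f' s ∧ f' ≤ c s := by
    intro s hs
    have hsI : s ∈ Icc a b := ⟨hs₀.1.trans hs.1.le, hs.2.le⟩
    have h1 := h.dd (fun _ => p a) p 0 (p' s) s (hasDerivAt_const s (p a)) (hp s hsI)
      (hpos s hs)
    refine ⟨_, h1, ?_⟩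
    have h2 : ‖G.di (p s) (p a)‖ = 1 := di_norm h (hpos s hs).symm
    have h3 : |(G.fi (p s) (p' s) * conj (G.di (p s) (p a))).re| ≤ c s := by
      refine (Complex.abs_re_le_norm _).trans ?_
      rw [norm_mul, RCLike.norm_conj, h2, mul_one]
      exact hb s hsI
    have h4 := neg_abs_le (G.fi (p s) (p' s) * conj (G.di (p s) (p a))).re
    simp only [map_zero, zero_mul, Complex.zero_re, neg_zero, zero_sub]
    linarith
  have hint : ∀ s, HasDerivAt (fun u => ∫ x in s₀..u, c x) (c s) s := fun s =>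
    intervalIntegral.integral_hasDerivAt_right (hc.intervalIntegrable _ _)
      hc.stronglyMeasurable.stronglyMeasurableAtFilter hc.continuousAt
  have hanti : AntitoneOn (fun s => f s - ∫ x in s₀..s, c x) (Icc s₀ b) := by
    apply antitoneOn_of_deriv_nonpos (convex_Icc s₀ b)
    · refine (hfc.mono (Icc_subset_Icc_left hs₀.1)).sub ?_
      exact (continuous_iff_continuousAt.2 fun s => (hint s).continuousAt).continuousOn
    · rw [interior_Icc]
      intro s hs
      obtain ⟨f', h1, -⟩ := hder s hs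
      exact (h1.sub (hint s)).differentiableAt.differentiableWithinAt
    · rw [interior_Icc]
      intro s hs
      obtain ⟨f', h1, h2⟩ := hder s hs
      have h3 := (h1.sub (hint s)).deriv
      have h4 : deriv (fun s => f s - ∫ x in s₀..s, c x) s = f' - c s := h3
      rw [h4]
      linarith
  have h1 := hanti (left_mem_Icc.2 hs₀.2) (right_mem_Icc.2 hs₀.2) hs₀.2
  simp only [intervalIntegral.integral_same, sub_zero, hfs₀'] at h1
  have h2 : ∫ s in a..b, c s = (∫ s in a..s₀, c s) + ∫ s in s₀..b, c s :=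
    (intervalIntegral.integral_add_adjacent_intervals (hc.intervalIntegrable _ _)
      (hc.intervalIntegrable _ _)).symm
  have h3 : 0 ≤ ∫ s in a..s₀, c s :=
    intervalIntegral.integral_nonneg hs₀.1 fun s hs => hc0 s ⟨hs.1, hs.2.trans hs₀.2⟩
  show f b ≤ _
  linarith

end SR85
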