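import Mathlib

/-! Row SR85 A1 (only Mathlib): growth of Jacobi fields. `y'' = -k y`, `y 0 = 0`, `y' 0 = 1`,
`-b² ≤ k ≤ -a²`. -/

open MeasureTheory Set Filter Topology

namespace SR85

/-- `y` solves `y'' = -k y`, with derivative `y'`. -/
structure Jac (k y y' : ℝ → ℝ) : Prop where
  d1 : ∀ t, HasDerivAt y (y' t) t
  d2 : ∀ t, HasDerivAt y' (-k t * y t) t

theorem A1_mono {g g' : ℝ → ℝ} (hg : ∀ t, HasDerivAt g (g' t) t) (hn : ∀ t, 0 < t → 0 ≤ g' t)
    {s t : ℝ} (hs : 0 ≤ s) (hst : s ≤ t) : g s ≤ g t := by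
  have hm : MonotoneOn g (Ici 0) := by
    apply monotoneOn_of_deriv_nonneg (convex_Ici 0)
    · exact fun u _ => (hg u).continuousAt.continuousWithinAt
    · exact fun u _ => (hg u).differentiableAt.differentiableWithinAt
    · intro u hu
      rw [interior_Ici] at hu
      rw [(hg u).deriv]
      exact hn u hu
  exact hm hs (le_trans hs hst) hst

theorem A1_anti {g g' : ℝ → ℝ} (hg : ∀ t, HasDerivAt g (g' t) t) (hn : ∀ t, 0 < t → g' t ≤ 0)
    {s t : ℝ} (hs : 0 ≤ s) (hst : s ≤ t) : g t ≤ g s := by
  have := A1_mono (g := fun u => -g u) (g' := fun u => -g' u) (fun u => (hg u).neg)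
    (fun u hu => by linarith [hn u hu]) hs hst
  linarith

theorem A1_pos {k y y' : ℝ → ℝ} {a : ℝ} (ha : 0 < a)
    (hka : ∀ t, k t ≤ -a ^ 2) (h : Jac k y y') (h0 : y 0 = 0) (h1 : y' 0 = 1) :
    ∀ t : ℝ, 0 < t → 0 < y t ∧ 1 ≤ y' t := by
  have ha2 : 0 < a ^ 2 := by positivity
  have hyy : ∀ t, HasDerivAt (fun t => y t * y' t) (y' t * y' t + y t * (-k t * y t)) t :=
    fun t => (h.d1 t).mul (h.d2 t)
  have hyy0 : ∀ t, 0 ≤ t → 0 ≤ y t * y' t := by
    intro t ht
    have := A1_mono hyy (fun u _ => by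
      have h2 := hka u
      nlinarith [mul_self_nonneg (y' u), mul_self_nonneg (y u)]) le_rfl ht
    rw [h0, zero_mul] at this
    exact this
  have hy2 : ∀ t, HasDerivAt (fun t => y t * y t) (y' t * y t + y t * y' t) t :=
    fun t => (h.d1 t).mul (h.d1 t)
  have hne : ∀ t, 0 < t → y t ≠ 0 := by
    intro t ht
    have hev : ∀ᶠ s in 𝓝[≠] (0 : ℝ), y s ≠ 0 := by
      have := (h.d1 0).eventually_ne (c := 0) (by rw [h1]; norm_num)
      exact this
    have hev2 : ∀ᶠ s in 𝓝[>] (0 : ℝ), y s ≠ 0 :=
      hev.filter_mono (nhdsWithin_mono 0 fun s hs => (ne_of_gt hs))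
    have hev3 : ∀ᶠ s in 𝓝[>] (0 : ℝ), s < t :=
      (nhdsWithin_le_nhds (a := (0 : ℝ)) (s := Ioi 0)) (Iio_mem_nhds ht)
    obtain ⟨s, ⟨hs1, hs2⟩, hs3⟩ := ((hev2.and hev3).and self_mem_nhdsWithin).exists
    have hs0 : 0 < s := hs3
    have := A1_mono hy2 (fun u hu => by
      have h2 := hyy0 u hu.le
      nlinarith) hs0.le hs2.le
    intro hyt
    rw [hyt, zero_mul] at this
    have h3 : 0 < y s * y s := mul_self_pos.2 hs1
    linarith
  have hstrict : ∀ t, 0 < t → y' t ≠ 0 := by
    intro t ht hz
    have hsm : StrictMonoOn (fun t => y t * y' t) (Ici 0) := by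
      apply strictMonoOn_of_deriv_pos (convex_Ici 0)
      · exact fun u _ => (hyy u).continuousAt.continuousWithinAt
      · intro u hu
        rw [interior_Ici] at hu
        rw [(hyy u).deriv]
        have h2 := hka u
        have h3 : 0 < y u * y u := mul_self_pos.2 (hne u hu)
        nlinarith [mul_self_nonneg (y' u)]
    have := hsm (show (0 : ℝ) ∈ Ici (0 : ℝ) from le_refl (0 : ℝ)) (show t ∈ Ici (0 : ℝ) from ht.le) ht
    simp only [h0, hz, zero_mul, mul_zero] at this
    exact lt_irrefl _ this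
  have hy'c : Continuous y' := continuous_iff_continuousAt.2 fun t => (h.d2 t).continuousAt
  have hy'pos : ∀ t, 0 ≤ t → 0 < y' t := by
    intro t ht
    by_contra hcon
    have hle : y' t ≤ 0 := not_lt.1 hcon
    have hmem : (0 : ℝ) ∈ y' '' Icc 0 t := by
      apply intermediate_value_Icc' ht hy'c.continuousOn
      exact ⟨hle, by rw [h1]; norm_num⟩
    obtain ⟨u, hu, hu0⟩ := hmem
    rcases eq_or_lt_of_le hu.1 with h2 | h2
    · rw [← h2, h1] at hu0
      exact one_ne_zero hu0
    · exact hstrict u h2 hu0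
  have hypos : ∀ t, 0 < t → 0 < y t := by
    intro t ht
    have := A1_mono h.d1 (fun u hu => (hy'pos u hu.le).le) le_rfl ht.le
    rw [h0] at this
    exact lt_of_le_of_ne this (hne t ht).symm
  intro t ht
  refine ⟨hypos t ht, ?_⟩
  have := A1_mono h.d2 (fun u hu => by
    have h2 := hka u
    have h3 := hypos u hu
    have h4 : 0 ≤ -k u := by linarith
    exact mul_nonneg h4 h3.le) le_rfl ht.le
  rw [h1] at this
  exact this

theorem A1_sinh (c : ℝ) (t : ℝ) :
    HasDerivAt (fun t => Real.sinh (c * t)) (c * Real.cosh (c * t)) t := by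
  have h1 : HasDerivAt (fun t : ℝ => c * t) c t := by
    simpa using (hasDerivAt_id t).const_mul c
  have := h1.sinh
  convert this using 1
  ring

theorem A1_cosh (c : ℝ) (t : ℝ) :
    HasDerivAt (fun t => Real.cosh (c * t)) (c * Real.sinh (c * t)) t := by
  have h1 : HasDerivAt (fun t : ℝ => c * t) c t := by
    simpa using (hasDerivAt_id t).const_mul c
  have := h1.cosh
  convert this using 1
  ring

theorem A1_exp (c : ℝ) (t : ℝ) :
    HasDerivAt (fun t => Real.exp (c * t)) (c * Real.exp (c * t)) t := by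
  have h1 : HasDerivAt (fun t : ℝ => c * t) c t := by
    simpa using (hasDerivAt_id t).const_mul c
  have := h1.exp
  convert this using 1
  ring

/-- The Wronskian with `sinh (c t)`. -/
theorem A1_wr {k y y' : ℝ → ℝ} (h : Jac k y y') (c t : ℝ) :
    HasDerivAt (fun t => y' t * Real.sinh (c * t) - c * Real.cosh (c * t) * y t)
      ((-k t - c ^ 2) * y t * Real.sinh (c * t)) t := by
  have h1 := (h.d2 t).mul (A1_sinh c t)
  have h2 := ((A1_cosh c t).const_mul c).mul (h.d1 t)
  exact (h1.sub h2).congr_deriv (by ring)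

theorem A1_p {k y y' : ℝ → ℝ} (h : Jac k y y') (c t : ℝ) :
    HasDerivAt (fun t => (y' t + c * y t) * Real.exp (-c * t))
      ((-k t - c ^ 2) * y t * Real.exp (-c * t)) t := by
  have h1 := ((h.d2 t).add ((h.d1 t).const_mul c)).mul (A1_exp (-c) t)
  exact h1.congr_deriv (by simp only [Pi.add_apply]; ring)

theorem A1_q {k y y' : ℝ → ℝ} (h : Jac k y y') (c t : ℝ) :
    HasDerivAt (fun t => y t * Real.exp (c * t) - Real.exp (2 * c * t) / (2 * c))
      (Real.exp (c * t) * (y' t + c * y t) - (2 * c / (2 * c)) * Real.exp (2 * c * t)) t := by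
  have h1 := ((h.d1 t).mul (A1_exp c t)).sub ((A1_exp (2 * c) t).div_const (2 * c))
  exact h1.congr_deriv (by ring)

theorem jac_lower {k y y' : ℝ → ℝ} {a : ℝ} (ha : 0 < a) (hk : Continuous k)
    (hka : ∀ t, k t ≤ -a ^ 2) (h : Jac k y y') (h0 : y 0 = 0) (h1 : y' 0 = 1) {t : ℝ}
    (ht : 0 < t) :
    a * Real.cosh (a * t) * y t ≤ y' t * Real.sinh (a * t) ∧ Real.sinh (a * t) / a ≤ y t ∧
      a * y t ≤ y' t ∧ ∀ s, 0 ≤ s → s ≤ t → y s ≤ Real.exp (-(a * (t - s))) * y t := by
  have hp := A1_pos ha hka h h0 h1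
  have e1 : a * Real.cosh (a * t) * y t ≤ y' t * Real.sinh (a * t) := by
    have := A1_mono (A1_wr h a) (fun u hu => by
      have h2 := hka u
      have h3 := (hp u hu).1
      have h4 : 0 ≤ Real.sinh (a * u) := Real.sinh_nonneg_iff.2 (by positivity)
      exact mul_nonneg (mul_nonneg (by linarith) h3.le) h4) le_rfl ht.le
    simp only [mul_zero, Real.sinh_zero, h0, sub_self] at this
    linarith
  have hpp : ∀ u, 0 < u → Real.exp (a * u) ≤ y' u + a * y u := by
    intro u hu
    have := A1_mono (A1_p h a) (fun v hv => by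
      have h2 := hka v
      have h3 := (hp v hv).1
      exact mul_nonneg (mul_nonneg (by linarith) h3.le) (Real.exp_pos _).le) le_rfl hu.le
    simp only [mul_zero, Real.exp_zero, h0, h1, add_zero, mul_one] at this
    have h5 : Real.exp (a * u) * Real.exp (-a * u) = 1 := by
      rw [← Real.exp_add]
      ring_nf
      exact Real.exp_zero
    have h6 : 0 < Real.exp (-a * u) := Real.exp_pos _
    by_contra hcon
    have h7 := mul_lt_mul_of_pos_right (not_le.1 hcon) h6
    linarith
  have e3 : ∀ u, 0 < u → a * y u ≤ y' u := by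
    intro u hu
    have := A1_mono (A1_p h (-a)) (fun v hv => by
      have h2 := hka v
      have h3 := (hp v hv).1
      exact mul_nonneg (mul_nonneg (by nlinarith) h3.le) (Real.exp_pos _).le) le_rfl hu.le
    simp only [mul_zero, Real.exp_zero, h0, h1, add_zero, mul_one] at this
    have h6 : 0 < Real.exp (- -a * u) := Real.exp_pos _
    by_contra hcon
    have h7 : y' u + -a * y u < 0 := by linarith [not_le.1 hcon]
    have h8 := mul_neg_of_neg_of_pos h7 h6
    linarith
  refine ⟨e1, ?_, e3 t ht, ?_⟩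
  · have := A1_mono (A1_q h a) (fun u hu => by
      have h2 := hpp u hu
      have h3 : 2 * a / (2 * a) = 1 := div_self (by positivity)
      have h4 : Real.exp (2 * a * u) = Real.exp (a * u) * Real.exp (a * u) := by
        rw [← Real.exp_add]
        ring_nf
      rw [h3, one_mul, h4]
      have h5 := mul_le_mul_of_nonneg_left h2 (Real.exp_pos (a * u)).le
      linarith) le_rfl ht.le
    simp only [mul_zero, Real.exp_zero, h0, zero_mul] at this
    have h4 : Real.exp (2 * a * t) = Real.exp (a * t) * Real.exp (a * t) := by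
      rw [← Real.exp_add]
      ring_nf
    have h5 : Real.exp (a * t) * Real.exp (-(a * t)) = 1 := by
      rw [← Real.exp_add]
      ring_nf
      exact Real.exp_zero
    rw [h4] at this
    have h6 : 0 < Real.exp (a * t) := Real.exp_pos _
    have h7 : 0 < Real.exp (-(a * t)) := Real.exp_pos _
    have h8 : (Real.exp (a * t) * Real.exp (a * t) - 1) / (2 * a) ≤ y t * Real.exp (a * t) := by
      have : (Real.exp (a * t) * Real.exp (a * t) - 1) / (2 * a) =
        Real.exp (a * t) * Real.exp (a * t) / (2 * a) - 1 / (2 * a) := by ring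
      linarith
    have h9 := mul_le_mul_of_nonneg_right h8 h7.le
    have h10 : y t * Real.exp (a * t) * Real.exp (-(a * t)) = y t := by
      rw [mul_assoc, h5, mul_one]
    have h11 : (Real.exp (a * t) * Real.exp (a * t) - 1) / (2 * a) * Real.exp (-(a * t)) =
        Real.sinh (a * t) / a := by
      rw [Real.sinh_eq]
      have : (Real.exp (a * t) * Real.exp (a * t) - 1) / (2 * a) * Real.exp (-(a * t)) =
        (Real.exp (a * t) * (Real.exp (a * t) * Real.exp (-(a * t))) - Real.exp (-(a * t))) /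
          (2 * a) := by ring
      rw [this, h5, mul_one]
      field_simp
    rw [h10, h11] at h9
    exact h9
  · intro s hs hst
    have hd : ∀ t, HasDerivAt (fun t => y t * Real.exp (-a * t))
        ((y' t - a * y t) * Real.exp (-a * t)) t := fun t => by
      have := (h.d1 t).mul (A1_exp (-a) t)
      exact this.congr_deriv (by ring)
    have := A1_mono hd (fun u hu => by
      have h2 := e3 u hu
      exact mul_nonneg (by linarith) (Real.exp_pos _).le) hs hst
    have h3 : 0 < Real.exp (a * s) := Real.exp_pos _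
    have h4 := mul_le_mul_of_nonneg_right this h3.le
    have h5 : Real.exp (-a * s) * Real.exp (a * s) = 1 := by
      rw [← Real.exp_add]
      ring_nf
      exact Real.exp_zero
    have h6 : Real.exp (-a * t) * Real.exp (a * s) = Real.exp (-(a * (t - s))) := by
      rw [← Real.exp_add]
      ring_nf
    rw [mul_assoc, h5, mul_one, mul_assoc, h6] at h4
    linarith

theorem jac_upper {k y y' : ℝ → ℝ} {a b : ℝ} (ha : 0 < a) (hk : Continuous k)
    (hka : ∀ t, k t ≤ -a ^ 2) (hb : a ≤ b) (hkb : ∀ t, -b ^ 2 ≤ k t) (h : Jac k y y')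
    (h0 : y 0 = 0) (h1 : y' 0 = 1) {t : ℝ} (ht : 0 < t) :
    y' t * Real.sinh (b * t) ≤ b * Real.cosh (b * t) * y t ∧ y t ≤ Real.sinh (b * t) / b := by
  have hbp : 0 < b := lt_of_lt_of_le ha hb
  have hp := A1_pos ha hka h h0 h1
  have hpp : ∀ u, 0 < u → y' u + b * y u ≤ Real.exp (b * u) := by
    intro u hu
    have := A1_anti (A1_p h b) (fun v hv => by
      have h2 := hkb v
      have h3 := (hp v hv).1
      have h4 : (-k v - b ^ 2) * y v ≤ 0 := mul_nonpos_of_nonpos_of_nonneg (by linarith) h3.le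
      exact mul_nonpos_of_nonpos_of_nonneg h4 (Real.exp_pos _).le) le_rfl hu.le
    simp only [mul_zero, Real.exp_zero, h0, h1, add_zero, mul_one] at this
    have h5 : Real.exp (b * u) * Real.exp (-b * u) = 1 := by
      rw [← Real.exp_add]
      ring_nf
      exact Real.exp_zero
    have h6 : 0 < Real.exp (-b * u) := Real.exp_pos _
    by_contra hcon
    have h7 := mul_lt_mul_of_pos_right (not_le.1 hcon) h6
    linarith
  refine ⟨?_, ?_⟩
  · have := A1_anti (A1_wr h b) (fun u hu => by
      have h2 := hkb u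
      have h3 := (hp u hu).1
      have h4 : 0 ≤ Real.sinh (b * u) := Real.sinh_nonneg_iff.2 (by positivity)
      have h5 : (-k u - b ^ 2) * y u ≤ 0 := mul_nonpos_of_nonpos_of_nonneg (by linarith) h3.le
      exact mul_nonpos_of_nonpos_of_nonneg h5 h4) le_rfl ht.le
    simp only [mul_zero, Real.sinh_zero, h0, sub_self] at this
    linarith
  · have := A1_anti (A1_q h b) (fun u hu => by
      have h2 := hpp u hu
      have h3 : 2 * b / (2 * b) = 1 := div_self (by positivity)
      have h4 : Real.exp (2 * b * u) = Real.exp (b * u) * Real.exp (b * u) := by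
        rw [← Real.exp_add]
        ring_nf
      rw [h3, one_mul, h4]
      have h5 := mul_le_mul_of_nonneg_left h2 (Real.exp_pos (b * u)).le
      linarith) le_rfl ht.le
    simp only [mul_zero, Real.exp_zero, h0, zero_mul] at this
    have h4 : Real.exp (2 * b * t) = Real.exp (b * t) * Real.exp (b * t) := by
      rw [← Real.exp_add]
      ring_nf
    have h5 : Real.exp (b * t) * Real.exp (-(b * t)) = 1 := by
      rw [← Real.exp_add]
      ring_nf
      exact Real.exp_zero
    rw [h4] at this
    have h7 : 0 < Real.exp (-(b * t)) := Real.exp_pos _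
    have h8 : y t * Real.exp (b * t) ≤ (Real.exp (b * t) * Real.exp (b * t) - 1) / (2 * b) := by
      have : (Real.exp (b * t) * Real.exp (b * t) - 1) / (2 * b) =
        Real.exp (b * t) * Real.exp (b * t) / (2 * b) - 1 / (2 * b) := by ring
      linarith
    have h9 := mul_le_mul_of_nonneg_right h8 h7.le
    have h10 : y t * Real.exp (b * t) * Real.exp (-(b * t)) = y t := by
      rw [mul_assoc, h5, mul_one]
    have h11 : (Real.exp (b * t) * Real.exp (b * t) - 1) / (2 * b) * Real.exp (-(b * t)) =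
        Real.sinh (b * t) / b := by
      rw [Real.sinh_eq]
      have : (Real.exp (b * t) * Real.exp (b * t) - 1) / (2 * b) * Real.exp (-(b * t)) =
        (Real.exp (b * t) * (Real.exp (b * t) * Real.exp (-(b * t))) - Real.exp (-(b * t))) /
          (2 * b) := by ring
      rw [this, h5, mul_one]
      field_simp
    rw [h10, h11] at h9
    exact h9

end SR85
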