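import Pool.Agent.LibSR85.P1
import Pool.Agent.LibSR85.A1

/-! Row SR85 P3: bounds for `J` and `U`.

PLAN. `jac_B`: for `‖u‖ = 1`, `t ↦ B x u t` is `Jac` for `k t = K (E x (t u))` (continuous), with
`B 0 = 0`, `Bd 0 = 1`. Everything else: `jac_lower`, `jac_upper` at `t = d x y > 0`, `u = di x y`.
`U_le1`: `b cosh (b t) / sinh (b t)` is at most `b cosh b / sinh b` for `t ≥ 1`.
`J_E`, `U_E`: `di_E`, `d_E`. -/

open MeasureTheory Set Filter Topology
open scoped ContDiff ENNReal NNReal ComplexConjugate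

namespace SR85

open BGS (Pl Surface)

variable {Γ : Type} [Group Γ] [MulAction Γ Pl] {D : Set Pl} {G : Dat Γ}

theorem jac_B (h : HG D G) (x : Pl) {u : ℂ} (hu : ‖u‖ = 1) :
    Jac (fun t : ℝ => G.K (G.E x ((t : ℂ) * u))) (G.B x u) (G.Bd x u) :=
  ⟨h.B_der x u hu, h.Bd_der x u hu⟩

theorem k_cont (h : HG D G) (x : Pl) (u : ℂ) :
    Continuous fun t : ℝ => G.K (G.E x ((t : ℂ) * u)) := by
  refine h.K_cont.comp (h.E_cont.comp (continuous_const.prodMk ?_))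
  fun_prop

theorem J_E (h : HG D G) (x : Pl) {u : ℂ} (hu : ‖u‖ = 1) {t : ℝ} (ht : 0 < t) :
    G.J x (G.E x ((t : ℂ) * u)) = G.B x u t := by
  rw [Dat.J, di_E h x hu ht, d_E h x hu t, abs_of_pos ht]

theorem U_E (h : HG D G) (x : Pl) {u : ℂ} (hu : ‖u‖ = 1) {t : ℝ} (ht : 0 < t) :
    G.U x (G.E x ((t : ℂ) * u)) = G.Bd x u t / G.B x u t := by
  rw [Dat.U, J_E h x hu ht, di_E h x hu ht, d_E h x hu t, abs_of_pos ht]

theorem B_low (h : HG D G) (x : Pl) {u : ℂ} (hu : ‖u‖ = 1) {t : ℝ} (ht : 0 < t) :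
    Real.sinh (G.a * t) / G.a ≤ G.B x u t :=
  (jac_lower h.a_pos (k_cont h x u) (fun _ => h.K_le _) (jac_B h x hu) (h.B_zero x u hu)
    (h.Bd_zero x u hu) ht).2.1

theorem B_pos (h : HG D G) (x : Pl) {u : ℂ} (hu : ‖u‖ = 1) {t : ℝ} (ht : 0 < t) :
    0 < G.B x u t := by
  refine lt_of_lt_of_le ?_ (B_low h x hu ht)
  exact div_pos (Real.sinh_pos_iff.2 (mul_pos h.a_pos ht)) h.a_pos

theorem B_exp (h : HG D G) (x : Pl) {u : ℂ} (hu : ‖u‖ = 1) {s t : ℝ} (hs : 0 ≤ s) (hst : s ≤ t) :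
    G.B x u s ≤ Real.exp (-(G.a * (t - s))) * G.B x u t := by
  rcases (hs.trans hst).eq_or_lt with ht | ht
  · have hs0 : s = t := le_antisymm hst (by rw [← ht]; exact hs)
    rw [hs0, sub_self, mul_zero, neg_zero, Real.exp_zero, one_mul]
  · exact (jac_lower h.a_pos (k_cont h x u) (fun _ => h.K_le _) (jac_B h x hu) (h.B_zero x u hu)
      (h.Bd_zero x u hu) ht).2.2.2 s hs hst

theorem J_pos (h : HG D G) {x y : Pl} (hxy : x ≠ y) : 0 < G.J x y :=
  B_pos h x (di_norm h hxy) (d_pos h hxy)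

theorem J_low (h : HG D G) {x y : Pl} (hxy : x ≠ y) :
    Real.sinh (G.a * G.d x y) / G.a ≤ G.J x y :=
  B_low h x (di_norm h hxy) (d_pos h hxy)

theorem J_upp (h : HG D G) {x y : Pl} (hxy : x ≠ y) :
    G.J x y ≤ Real.sinh (G.b * G.d x y) / G.b :=
  (jac_upper h.a_pos (k_cont h x _) (fun _ => h.K_le _) h.ab (fun _ => h.K_ge _)
    (jac_B h x (di_norm h hxy)) (h.B_zero x _ (di_norm h hxy))
    (h.Bd_zero x _ (di_norm h hxy)) (d_pos h hxy)).2

theorem U_low (h : HG D G) {x y : Pl} (hxy : x ≠ y) : G.a ≤ G.U x y := by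
  rw [Dat.U, le_div_iff₀ (J_pos h hxy)]
  exact (jac_lower h.a_pos (k_cont h x _) (fun _ => h.K_le _)
    (jac_B h x (di_norm h hxy)) (h.B_zero x _ (di_norm h hxy))
    (h.Bd_zero x _ (di_norm h hxy)) (d_pos h hxy)).2.2.1

theorem U_low' (h : HG D G) {x y : Pl} (hxy : x ≠ y) :
    G.a * Real.cosh (G.a * G.d x y) ≤ G.U x y * Real.sinh (G.a * G.d x y) := by
  have h1 := (jac_lower h.a_pos (k_cont h x _) (fun _ => h.K_le _)
    (jac_B h x (di_norm h hxy)) (h.B_zero x _ (di_norm h hxy))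
    (h.Bd_zero x _ (di_norm h hxy)) (d_pos h hxy)).1
  rw [Dat.U, div_mul_eq_mul_div, le_div_iff₀ (J_pos h hxy)]
  exact h1

theorem U_upp (h : HG D G) {x y : Pl} (hxy : x ≠ y) :
    G.U x y * Real.sinh (G.b * G.d x y) ≤ G.b * Real.cosh (G.b * G.d x y) := by
  have h1 := (jac_upper h.a_pos (k_cont h x _) (fun _ => h.K_le _) h.ab (fun _ => h.K_ge _)
    (jac_B h x (di_norm h hxy)) (h.B_zero x _ (di_norm h hxy))
    (h.Bd_zero x _ (di_norm h hxy)) (d_pos h hxy)).1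
  rw [Dat.U, div_mul_eq_mul_div, div_le_iff₀ (J_pos h hxy)]
  exact h1

theorem U_le1 (h : HG D G) {x y : Pl} (hxy : 1 ≤ G.d x y) :
    G.U x y ≤ G.b * Real.cosh G.b / Real.sinh G.b := by
  have hne : x ≠ y := by
    rintro rfl
    rw [d_self h] at hxy
    linarith
  have hb : 0 < G.b := lt_of_lt_of_le h.a_pos h.ab
  have h1 := U_upp h hne
  have hs1 : 0 < Real.sinh G.b := Real.sinh_pos_iff.2 hb
  have hs2 : 0 < Real.sinh (G.b * G.d x y) :=
    Real.sinh_pos_iff.2 (mul_pos hb (by linarith))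
  have h2 : 0 ≤ Real.sinh (G.b * G.d x y - G.b) :=
    Real.sinh_nonneg_iff.2 (by nlinarith)
  rw [Real.sinh_sub] at h2
  rw [le_div_iff₀ hs1]
  have h3 : G.U x y * Real.sinh G.b * Real.sinh (G.b * G.d x y) ≤
      G.b * Real.cosh G.b * Real.sinh (G.b * G.d x y) := by
    nlinarith
  exact le_of_mul_le_mul_right h3 hs2

end SR85
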