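import Pool.Agent.LibSR85.P2
import Pool.Agent.LibSR85.B1

/-! Row SR85 B3: two segments `o x`, `o x'` with a common end are exponentially close near `o`.

PLAN. Let `δ = d x x'`. If `δ = 0` or `τ = 0` both points coincide. Otherwise let `u₁ = di x x'`,
`q s = E x (s u₁)`, `0 ≤ s ≤ δ`; `r s = d o (q s) ≥ d o x - s ≥ d o x - δ ≥ τ > 0`, so `q s ≠ o`.
`w s = di o (q s)` has `w' = I * w * k`, `|k| ≤ 1 / J o (q s) = 1 / B o (w s) (r s)` (`angle_der`).
The curve `p s = E o (τ * w s)` has `‖fi (p s) p'‖ = B o (w s) τ * |k| ≤ B o (w s) τ / B o (w s) (r s)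
≤ exp (-a (r s - τ)) ≤ exp (-a (d o x - δ - τ))` (`E_u`, `dr_norm`, `B_exp`). (`E_u` asks
`‖w r‖ = 1` for all `r` and `HasDerivAt` at each point: extend `w` outside `[0, δ]`, for instance
use `w (projIcc ..)` only inside the interior, or reprove with the curve `di o (q s)`, which is of
norm one wherever `q s ≠ o`; the set of such `s` is open and contains `[0, δ]`: modify `w` to a
constant outside it.) Then `len` with the constant `c`. -/

open MeasureTheory Set Filter Topology
open scoped ContDiff ENNReal NNReal ComplexConjugate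

namespace SR85

open BGS (Pl Surface)

variable {Γ : Type} [Group Γ] [MulAction Γ Pl] {D : Set Pl} {G : Dat Γ}

theorem contr (h : HG D G) (o x x' : Pl) {τ : ℝ} (hτ : 0 ≤ τ) (hτd : τ + G.d x x' ≤ G.d o x) :
    G.d (G.E o ((τ : ℂ) * G.di o x)) (G.E o ((τ : ℂ) * G.di o x')) ≤
      G.d x x' * Real.exp (-(G.a * (G.d o x - G.d x x' - τ))) := by
  classical
  by_cases hxx : x = x'
  · subst hxx
    rw [d_self h, d_self h, zero_mul]
  rcases hτ.eq_or_lt with hτ0 | hτ0
  · rw [← hτ0]
    simp only [Complex.ofReal_zero, zero_mul, h.E_zero]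
    rw [d_self h]
    exact mul_nonneg (d_pos h hxx).le (Real.exp_pos _).le
  have hδ : 0 < G.d x x' := d_pos h hxx
  have hu := di_norm h hxx
  set u₁ := G.di x x' with hu₁
  set q : ℝ → Pl := fun s => G.E x ((s : ℂ) * u₁) with hq
  have hr : ∀ s ∈ Icc (0 : ℝ) (G.d x x'), G.d o x - G.d x x' ≤ G.d o (q s) := by
    intro s hs
    have h1 := h.d_tri o (q s) x
    have h2 : G.d (q s) x = s := by
      rw [h.d_symm, hq, d_E h x hu, abs_of_nonneg hs.1]
    rw [h2] at h1
    linarith [hs.2]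
  have hne : ∀ s ∈ Icc (0 : ℝ) (G.d x x'), q s ≠ o := by
    intro s hs e
    have h1 := hr s hs
    rw [e, d_self h] at h1
    linarith
  have hqc : Continuous q := h.E_cont.comp (continuous_const.prodMk (by fun_prop))
  set w : ℝ → ℂ := fun r => if q r = o then 1 else G.di o (q r) with hw
  have hwn : ∀ r, ‖w r‖ = 1 := by
    intro r
    by_cases h1 : q r = o
    · simp only [hw, h1, if_true, norm_one]
    · simp only [hw, h1, if_false]
      exact di_norm h (fun e => h1 e.symm)
  have hws : ∀ s ∈ Icc (0 : ℝ) (G.d x x'), w s = G.di o (q s) := by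
    intro s hs
    simp only [hw, hne s hs, if_false]
  set c : ℝ := Real.exp (-(G.a * (G.d o x - G.d x x' - τ))) with hc
  have hder : ∀ s ∈ Icc (0 : ℝ) (G.d x x'), ∃ p' : Pl,
      HasDerivAt (fun r : ℝ => G.E o ((τ : ℂ) * w r)) p' s ∧
        ‖G.fi (G.E o ((τ : ℂ) * w s)) p'‖ ≤ c := by
    intro s hs
    obtain ⟨p, hp1, hp2⟩ := h.E_t x u₁ hu s
    obtain ⟨k, hk1, hk2⟩ := angle_der h o hp1 (hne s hs)
    rw [hp2, h.dr_norm x _ hu] at hk1
    have hev : w =ᶠ[𝓝 s] fun r => G.di o (q r) := by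
      have h1 : ∀ᶠ r in 𝓝 s, q r ≠ o := hqc.continuousAt.eventually_ne (hne s hs)
      filter_upwards [h1] with r hr
      simp only [hw, hr, if_false]
    have hwd : HasDerivAt w (Complex.I * w s * (k : ℂ)) s := by
      rw [hws s hs]
      exact hk2.congr_of_eventuallyEq hev
    obtain ⟨p', hp1', hp2'⟩ := h.E_u o τ w s k hwn hwd
    refine ⟨p', hp1', ?_⟩
    rw [hp2', norm_mul, norm_mul, h.dr_norm o _ (hwn s), Complex.norm_I, mul_one, mul_one,
      Complex.norm_real, Real.norm_eq_abs, abs_mul]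
    have hJ : G.J o (q s) = G.B o (w s) (G.d o (q s)) := by
      rw [hws s hs]
      rfl
    have hrs : τ ≤ G.d o (q s) := by
      have := hr s hs
      linarith
    have hrs0 : 0 < G.d o (q s) := hτ0.trans_le hrs
    have hBp : 0 < G.B o (w s) (G.d o (q s)) := B_pos h o (hwn s) hrs0
    have hBτ : 0 < G.B o (w s) τ := B_pos h o (hwn s) hτ0
    have hk3 : |k| ≤ 1 / G.B o (w s) (G.d o (q s)) := by
      rw [← hJ]
      exact hk1
    have hB := B_exp h o (hwn s) hτ hrs
    have hle : Real.exp (-(G.a * (G.d o (q s) - τ))) ≤ c := by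
      apply Real.exp_le_exp.2
      have h1 := hr s hs
      have h2 := mul_le_mul_of_nonneg_left (sub_le_sub_right h1 τ) h.a_pos.le
      linarith
    rw [abs_of_pos hBτ]
    calc G.B o (w s) τ * |k|
        ≤ (Real.exp (-(G.a * (G.d o (q s) - τ))) * G.B o (w s) (G.d o (q s))) *
          (1 / G.B o (w s) (G.d o (q s))) :=
          mul_le_mul hB hk3 (abs_nonneg _) (mul_nonneg (Real.exp_pos _).le hBp.le)
      _ = Real.exp (-(G.a * (G.d o (q s) - τ))) := by
          field_simp
      _ ≤ c := hle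
  choose! p' hp1 hp2 using hder
  have hlen := len h (p := fun r : ℝ => G.E o ((τ : ℂ) * w r)) (p' := p') hδ.le hp1
    (fun _ => c) continuous_const hp2
  have h0 : (0 : ℝ) ∈ Icc (0 : ℝ) (G.d x x') := left_mem_Icc.2 hδ.le
  have h1 : G.d x x' ∈ Icc (0 : ℝ) (G.d x x') := right_mem_Icc.2 hδ.le
  have hq0 : q 0 = x := by
    simp only [hq, Complex.ofReal_zero, zero_mul, h.E_zero]
  have hq1 : q (G.d x x') = x' := by
    simp only [hq, hu₁]
    exact E_di h x x'
  rw [hws _ h0, hws _ h1, hq0, hq1, intervalIntegral.integral_const, sub_zero, smul_eq_mul] at hlen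
  exact hlen

end SR85
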