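import Pool.Agent.LibSR85.A2
import Pool.Agent.LibSR85.B3

/-! Row SR85 B2: `log J o x` and `U o x` are Lipschitz in `x` (the distortion lemma).

PLAN of `distort1`. `δ = d x x' ≤ 1`, `r = min (d o x) (d o x') ≥ 1`, `u₁ = di o x`,
`u₂ = di o x'`, `kᵢ τ = K (E o (τ uᵢ))`. For `0 ≤ τ ≤ r` the two points `E o (τ uᵢ)` are at distance
at most `4 δ e^{2 a} e^{-a (r - τ)}`: for `τ ≤ d o x - δ` by `contr`
(`d o x ≥ r`, so the bound is `δ e^{a δ} e^{-a (r - τ)}`), for `d o x - δ ≤ τ ≤ r` by the triangle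
inequality through `x` and `x'`: `|d o x - τ| + δ + |d o x' - τ| ≤ δ + δ + 2 δ`, and
`e^{-a (r - τ)} ≥ e^{-2 a}` there as `r - τ ≤ 2`... (`r ≤ d o x`, `τ ≥ d o x - 1`). By `K_lip`
and `jac_cmp` (with `M = 4 e^{2 a} LK δ`): the claim for `B o uᵢ r` in place of `J`. The radial
part: `log B o uᵢ` has derivative `Bd / B = U ≤ b cosh b / sinh b` on `[1, ∞)` (`U_upp`), and
`Bd / B` has derivative `-K - (Bd / B)²`, bounded; `|d o x - r|, |d o x' - r| ≤ δ` (triangle
inequality). PLAN of `distort`: cut the segment from `x` to `x'` into `⌈δ⌉` pieces of length at most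
one; every point `z` of it has `d o z ≥ d o x - δ ≥ 2`; sum `distort1`. -/

open MeasureTheory Set Filter Topology
open scoped ContDiff ENNReal NNReal ComplexConjugate

namespace SR85

open BGS (Pl Surface)

variable {Γ : Type} [Group Γ] [MulAction Γ Pl] {D : Set Pl} {G : Dat Γ}

private theorem B2_U1 (h : HG D G) (o : Pl) {u : ℂ} (hu : ‖u‖ = 1) {t : ℝ} (ht : 1 ≤ t) :
    G.a ≤ G.Bd o u t / G.B o u t ∧
      G.Bd o u t / G.B o u t ≤ G.b * Real.cosh G.b / Real.sinh G.b := by
  have ht0 : 0 < t := by linarith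
  rw [← U_E h o hu ht0]
  refine ⟨U_low h (E_ne h o hu ht0.ne').symm, U_le1 h ?_⟩
  rw [d_E h o hu t, abs_of_pos ht0]
  exact ht

private theorem B2_rad (h : HG D G) (o : Pl) {u : ℂ} (hu : ‖u‖ = 1) {s t : ℝ} (hs : 1 ≤ s)
    (ht : 1 ≤ t) :
    |Real.log (G.B o u t) - Real.log (G.B o u s)| ≤
        G.b * Real.cosh G.b / Real.sinh G.b * |t - s| ∧
      |G.Bd o u t / G.B o u t - G.Bd o u s / G.B o u s| ≤
        (G.b ^ 2 + (G.b * Real.cosh G.b / Real.sinh G.b) ^ 2) * |t - s| := by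
  constructor
  · have h1 := Convex.norm_image_sub_le_of_norm_hasDerivWithin_le
      (f := fun t : ℝ => Real.log (G.B o u t)) (f' := fun t => G.Bd o u t / G.B o u t)
      (s := Ici (1 : ℝ)) (C := G.b * Real.cosh G.b / Real.sinh G.b)
      (fun x hx => ((h.B_der o u hu x).log
        (B_pos h o hu (lt_of_lt_of_le one_pos hx)).ne').hasDerivWithinAt)
      (fun x hx => by
        obtain ⟨h2, h3⟩ := B2_U1 h o hu hx
        rw [Real.norm_eq_abs, abs_of_nonneg (h.a_pos.le.trans h2)]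
        exact h3) (convex_Ici 1) hs ht
    exact h1
  · have h1 := Convex.norm_image_sub_le_of_norm_hasDerivWithin_le
      (f := fun t : ℝ => G.Bd o u t / G.B o u t)
      (f' := fun t => -G.K (G.E o ((t : ℂ) * u)) - (G.Bd o u t / G.B o u t) ^ 2)
      (s := Ici (1 : ℝ)) (C := G.b ^ 2 + (G.b * Real.cosh G.b / Real.sinh G.b) ^ 2)
      (fun x hx => by
        have hB := (B_pos h o hu (lt_of_lt_of_le one_pos hx)).ne'
        have h4 := (h.Bd_der o u hu x).div (h.B_der o u hu x) hB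
        refine (h4.congr_deriv ?_).hasDerivWithinAt
        field_simp)
      (fun x hx => by
        obtain ⟨h2, h3⟩ := B2_U1 h o hu hx
        have h4 := h.K_le (G.E o ((x : ℂ) * u))
        have h5 := h.K_ge (G.E o ((x : ℂ) * u))
        have h6 : (G.Bd o u x / G.B o u x) ^ 2 ≤ (G.b * Real.cosh G.b / Real.sinh G.b) ^ 2 :=
          pow_le_pow_left₀ (h.a_pos.le.trans h2) h3 2
        have h7 : 0 ≤ (G.Bd o u x / G.B o u x) ^ 2 := sq_nonneg _
        have h8 : 0 ≤ G.a ^ 2 := sq_nonneg _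
        rw [Real.norm_eq_abs, abs_le]
        constructor
        · nlinarith [sq_nonneg G.b]
        · nlinarith) (convex_Ici 1) hs ht
    exact h1

private theorem B2_close (h : HG D G) {o x x' : Pl} (h1 : G.d x x' ≤ 1) (h2 : 2 ≤ G.d o x)
    {τ : ℝ} (hτ : 0 ≤ τ) (hτr : τ ≤ min (G.d o x) (G.d o x')) :
    G.d (G.E o ((τ : ℂ) * G.di o x)) (G.E o ((τ : ℂ) * G.di o x')) ≤
      4 * Real.exp (2 * G.a) * G.d x x' *
        Real.exp (-(G.a * (min (G.d o x) (G.d o x') - τ))) := by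
  have ha := h.a_pos
  have hδ : 0 ≤ G.d x x' := norm_nonneg _
  set r : ℝ := min (G.d o x) (G.d o x') with hr
  have hrl : r ≤ G.d o x := min_le_left _ _
  have hrl' : r ≤ G.d o x' := min_le_right _ _
  have htri1 : G.d o x ≤ G.d o x' + G.d x' x := h.d_tri o x' x
  have htri2 : G.d o x' ≤ G.d o x + G.d x x' := h.d_tri o x x'
  rw [h.d_symm x' x] at htri1
  have hox : o ≠ x := by
    rintro rfl
    rw [d_self h] at h2
    linarith
  have hox' : o ≠ x' := by
    rintro rfl
    rw [d_self h] at htri1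
    linarith
  have hu1 := di_norm h hox
  have hu2 := di_norm h hox'
  by_cases hc : τ + G.d x x' ≤ G.d o x
  · refine (contr h o x x' hτ hc).trans ?_
    have h3 : Real.exp (-(G.a * (G.d o x - G.d x x' - τ))) ≤
        Real.exp (2 * G.a) * Real.exp (-(G.a * (r - τ))) := by
      rw [← Real.exp_add]
      refine Real.exp_le_exp.2 ?_
      nlinarith
    have h4 : 0 < Real.exp (2 * G.a) * Real.exp (-(G.a * (r - τ))) := by positivity
    calc G.d x x' * Real.exp (-(G.a * (G.d o x - G.d x x' - τ))) ≤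
        G.d x x' * (Real.exp (2 * G.a) * Real.exp (-(G.a * (r - τ)))) :=
          mul_le_mul_of_nonneg_left h3 hδ
      _ ≤ _ := by nlinarith [mul_nonneg hδ h4.le]
  · push Not at hc
    have e1 : G.d (G.E o ((τ : ℂ) * G.di o x)) x = |G.d o x - τ| := by
      conv_lhs => rw [← E_di h o x]
      have := d_geo h o hu1 τ (G.d o x)
      rw [E_di h o x] at this ⊢
      exact this
    have e2 : G.d x' (G.E o ((τ : ℂ) * G.di o x')) = |G.d o x' - τ| := by
      rw [h.d_symm]
      have := d_geo h o hu2 τ (G.d o x')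
      rw [E_di h o x'] at this
      exact this
    have t1 := h.d_tri (G.E o ((τ : ℂ) * G.di o x)) x (G.E o ((τ : ℂ) * G.di o x'))
    have t2 := h.d_tri x x' (G.E o ((τ : ℂ) * G.di o x'))
    rw [e1, abs_of_nonneg (by linarith)] at t1
    rw [e2, abs_of_nonneg (by linarith)] at t2
    have h5 : 1 ≤ Real.exp (2 * G.a) * Real.exp (-(G.a * (r - τ))) := by
      rw [← Real.exp_add]
      refine Real.one_le_exp ?_
      nlinarith
    have h6 : 4 * G.d x x' ≤ 4 * G.d x x' *
        (Real.exp (2 * G.a) * Real.exp (-(G.a * (r - τ)))) :=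
      le_mul_of_one_le_right (by positivity) h5
    have h7 : 4 * Real.exp (2 * G.a) * G.d x x' * Real.exp (-(G.a * (r - τ))) =
        4 * G.d x x' * (Real.exp (2 * G.a) * Real.exp (-(G.a * (r - τ)))) := by ring
    rw [h7]
    linarith

theorem distort1 (h : HG D G) : ∃ C : ℝ, 0 < C ∧ ∀ o x x' : Pl, G.d x x' ≤ 1 → 2 ≤ G.d o x →
    |Real.log (G.J o x) - Real.log (G.J o x')| ≤ C * G.d x x' ∧
      |G.U o x - G.U o x'| ≤ C * G.d x x' := by
  have ha := h.a_pos
  have hb : 0 < G.b := lt_of_lt_of_le ha h.ab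
  have hL := h.LK_pos
  set c : ℝ := G.b * Real.cosh G.b / Real.sinh G.b with hc
  have hc0 : 0 < c := div_pos (mul_pos hb (Real.cosh_pos _)) (Real.sinh_pos_iff.2 hb)
  set m : ℝ := 4 * Real.exp (2 * G.a) * G.LK with hm
  have hm0 : 0 < m := by positivity
  refine ⟨2 * c + 2 * (G.b ^ 2 + c ^ 2) + m / G.a + m / G.a ^ 2, by positivity,
    fun o x x' h1 h2 => ?_⟩
  have hδ : 0 ≤ G.d x x' := norm_nonneg _
  set r : ℝ := min (G.d o x) (G.d o x') with hr
  have hrl : r ≤ G.d o x := min_le_left _ _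
  have hrl' : r ≤ G.d o x' := min_le_right _ _
  have htri1 : G.d o x ≤ G.d o x' + G.d x' x := h.d_tri o x' x
  have htri2 : G.d o x' ≤ G.d o x + G.d x x' := h.d_tri o x x'
  rw [h.d_symm x' x] at htri1
  have hr1 : 1 ≤ r := le_min (by linarith) (by linarith)
  have hr0 : 0 < r := by linarith
  have hox : o ≠ x := by
    rintro rfl
    rw [d_self h] at h2
    linarith
  have hox' : o ≠ x' := by
    rintro rfl
    rw [d_self h] at htri1
    linarith
  have hu1 := di_norm h hox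
  have hu2 := di_norm h hox'
  have hlr : |G.d o x - r| ≤ G.d x x' := by
    rw [abs_of_nonneg (by linarith)]
    rcases min_cases (G.d o x) (G.d o x') with h3 | h3
    · rw [hr, h3.1]; linarith
    · rw [hr, h3.1]; linarith
  have hlr' : |G.d o x' - r| ≤ G.d x x' := by
    rw [abs_of_nonneg (by linarith)]
    rcases min_cases (G.d o x) (G.d o x') with h3 | h3
    · rw [hr, h3.1]; linarith
    · rw [hr, h3.1]; linarith
  have hcmp := jac_cmp (M := m * G.d x x') ha (by positivity) hr0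
    (k_cont h o (G.di o x)) (k_cont h o (G.di o x')) (fun _ => h.K_le _) (fun _ => h.K_le _)
    (jac_B h o hu1) (jac_B h o hu2) (h.B_zero o _ hu1) (h.Bd_zero o _ hu1) (h.B_zero o _ hu2)
    (h.Bd_zero o _ hu2) (fun τ hτ hτr => by
      have h3 := B2_close h h1 h2 hτ hτr
      refine (h.K_lip _ _).trans ((mul_le_mul_of_nonneg_left h3 hL.le).trans (le_of_eq ?_))
      rw [hm, ← hr]
      ring)
  obtain ⟨q1, q2⟩ := hcmp
  have hl1 : 1 ≤ G.d o x := by linarith
  have hl1' : 1 ≤ G.d o x' := by linarith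
  obtain ⟨p1, p2⟩ := B2_rad h o hu1 hr1 hl1
  obtain ⟨p3, p4⟩ := B2_rad h o hu2 hr1 hl1'
  rw [← hc] at p1 p2 p3 p4
  have hbc : 0 ≤ G.b ^ 2 + c ^ 2 := by positivity
  have p1' := p1.trans (mul_le_mul_of_nonneg_left hlr hc0.le)
  have p3' := p3.trans (mul_le_mul_of_nonneg_left hlr' hc0.le)
  have p2' := p2.trans (mul_le_mul_of_nonneg_left hlr hbc)
  have p4' := p4.trans (mul_le_mul_of_nonneg_left hlr' hbc)
  have e1 : m * G.d x x' / G.a = m / G.a * G.d x x' := by ring
  have e2 : m * G.d x x' / G.a ^ 2 = m / G.a ^ 2 * G.d x x' := by ring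
  rw [e1] at q1
  rw [e2] at q2
  have g1 : 0 ≤ m / G.a * G.d x x' := by positivity
  have g2 : 0 ≤ m / G.a ^ 2 * G.d x x' := by positivity
  have g3 : 0 ≤ c * G.d x x' := by positivity
  have g4 : 0 ≤ (G.b ^ 2 + c ^ 2) * G.d x x' := by positivity
  have e3 : (2 * c + 2 * (G.b ^ 2 + c ^ 2) + m / G.a + m / G.a ^ 2) * G.d x x' =
      2 * (c * G.d x x') + 2 * ((G.b ^ 2 + c ^ 2) * G.d x x') + m / G.a * G.d x x' +
        m / G.a ^ 2 * G.d x x' := by ring
  rw [e3]
  constructor
  · unfold Dat.J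
    rw [abs_le] at *
    constructor <;> linarith [p1'.1, p1'.2, p3'.1, p3'.2, q2.1, q2.2]
  · unfold Dat.U Dat.J
    rw [abs_le] at *
    constructor <;> linarith [p2'.1, p2'.2, p4'.1, p4'.2, q1.1, q1.2]

theorem distort (h : HG D G) : ∃ C : ℝ, 0 < C ∧ ∀ o x x' : Pl, G.d x x' + 2 ≤ G.d o x →
    |Real.log (G.J o x) - Real.log (G.J o x')| ≤ C * G.d x x' := by
  obtain ⟨C, hC, hd⟩ := distort1 h
  refine ⟨C, hC, fun o x x' h1 => ?_⟩
  by_cases hxx : x = x'
  · rw [hxx, sub_self, abs_zero, d_self h, mul_zero]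
  have hu := di_norm h hxx
  have hδ : 0 < G.d x x' := d_pos h hxx
  set u := G.di x x' with hudef
  set δ := G.d x x' with hδdef
  obtain ⟨n, hn⟩ := exists_nat_ge δ
  have hn0 : 0 < (n : ℝ) := lt_of_lt_of_le hδ hn
  set z : ℕ → Pl := fun i => G.E x (((i * (δ / n) : ℝ) : ℂ) * u) with hz
  have hz0 : z 0 = x := by
    simp only [hz]
    rw [Nat.cast_zero, zero_mul, Complex.ofReal_zero, zero_mul, h.E_zero]
  have hzn : z n = x' := by
    simp only [hz]
    rw [mul_div_cancel₀ _ hn0.ne', hδdef, hudef, E_di h x x']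
  have hstep : ∀ i, i < n → dist (Real.log (G.J o (z i))) (Real.log (G.J o (z (i + 1)))) ≤
      C * (δ / n) := by
    intro i hi
    have h2 : G.d (z i) (z (i + 1)) = δ / n := by
      simp only [hz]
      rw [d_geo h x hu]
      have : (((i + 1 : ℕ) : ℝ) * (δ / n) - i * (δ / n)) = δ / n := by push_cast; ring
      rw [this, abs_of_pos (div_pos hδ hn0)]
    have h3 : G.d x (z i) ≤ δ := by
      simp only [hz]
      rw [d_E h x hu, abs_of_nonneg (by positivity)]
      have : (i : ℝ) ≤ n := by exact_mod_cast hi.le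
      calc (i : ℝ) * (δ / n) ≤ n * (δ / n) := mul_le_mul_of_nonneg_right this (by positivity)
        _ = δ := mul_div_cancel₀ _ hn0.ne'
    have h4 : 2 ≤ G.d o (z i) := by
      have := h.d_tri o (z i) x
      rw [h.d_symm (z i) x] at this
      linarith
    have h5 : G.d (z i) (z (i + 1)) ≤ 1 := by
      rw [h2, div_le_one hn0]
      exact hn
    have h6 := (hd o (z i) (z (i + 1)) h5 h4).1
    rw [h2] at h6
    exact h6
  have h7 := dist_le_range_sum_dist (fun i => Real.log (G.J o (z i))) n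
  have h8 : ∑ i ∈ Finset.range n,
      dist (Real.log (G.J o (z i))) (Real.log (G.J o (z (i + 1)))) ≤
      ∑ i ∈ Finset.range n, C * (δ / n) :=
    Finset.sum_le_sum fun i hi => hstep i (Finset.mem_range.1 hi)
  rw [Finset.sum_const, Finset.card_range, nsmul_eq_mul] at h8
  have e : (n : ℝ) * (C * (δ / n)) = C * δ := by
    field_simp
  rw [e] at h8
  have h9 := h7.trans h8
  simp only [hz0, hzn] at h9
  exact h9

end SR85
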