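import Pool.Agent.LibSR85.P3

/-! Row SR85 P4: symmetry of `J` and the splitting formula.

PLAN. Let `‖u‖ = 1`, `0 < t`, `z = E x (t u)`, `w = -dr x u t` (so `di z x = w`, `di_back`).
By `E_rev`, `E z (s w) = E x ((t - s) u)`, so `Y τ := B z w (t - τ)` (derivative
`-Bd z w (t - τ)`) is `Jac` for the same `k τ = K (E x (τ u))` as `B x u`. The Wronskian
`Bd x u τ * Y τ - B x u τ * Y' τ` is constant (`is_const_of_deriv_eq_zero`); at `τ = 0` it is
`B z w t = J z x`, at `τ = t` it is `B x u t = J x z` (`J_E`, `d_symm`). This is `J_symm`. At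
`τ = s`, with `y = E x (s u)`: `B x u s = J x y`, `Bd x u s = J x y * U x y`,
`Y s = B z w (t - s) = J z y` and `-Y' s = Bd z w (t - s) = J z y * U z y`: this is `J_split`.
`J_tr` is the same computation for the solution `A` (see the statement): `A τ * (-Y' τ) + A' τ * Y τ`
is constant, at `0` it is `U z x * J z x`, at `t` it is `A t`. -/

open MeasureTheory Set Filter Topology
open scoped ContDiff ENNReal NNReal ComplexConjugate

namespace SR85

open BGS (Pl Surface)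

variable {Γ : Type} [Group Γ] [MulAction Γ Pl] {D : Set Pl} {G : Dat Γ}

/-- the reversed Jacobi field -/
private theorem P4_rev (h : HG D G) (x : Pl) {u : ℂ} (hu : ‖u‖ = 1) (t : ℝ) :
    Jac (fun τ : ℝ => G.K (G.E x ((τ : ℂ) * u)))
      (fun τ => G.B (G.E x ((t : ℂ) * u)) (-G.dr x u t) (t - τ))
      (fun τ => -G.Bd (G.E x ((t : ℂ) * u)) (-G.dr x u t) (t - τ)) := by
  have hw : ‖-G.dr x u t‖ = 1 := by rw [norm_neg, h.dr_norm x u hu t]
  constructor
  · intro τ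
    have h1 := h.B_der (G.E x ((t : ℂ) * u)) (-G.dr x u t) hw (t - τ)
    exact h1.comp_const_sub t τ
  · intro τ
    have h1 := h.Bd_der (G.E x ((t : ℂ) * u)) (-G.dr x u t) hw (t - τ)
    have h2 := (h1.comp_const_sub t τ).neg
    rw [E_rev h x hu] at h2
    have h3 : t - (t - τ) = τ := by ring
    rw [h3] at h2
    refine h2.congr_deriv ?_
    ring

/-- the Wronskian is constant -/
private theorem P4_wr {k y y' f f' : ℝ → ℝ} (hy : Jac k y y') (hf : Jac k f f') (s t : ℝ) :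
    f' s * y s - f s * y' s = f' t * y t - f t * y' t := by
  have h1 : ∀ τ, HasDerivAt (fun τ => f' τ * y τ - f τ * y' τ) 0 τ := by
    intro τ
    refine (((hf.d2 τ).mul (hy.d1 τ)).sub ((hf.d1 τ).mul (hy.d2 τ))).congr_deriv ?_
    ring
  exact is_const_of_deriv_eq_zero (fun τ => (h1 τ).differentiableAt) (fun τ => (h1 τ).deriv) s t

/-- the Wronskian identity between the times `s` and `t` -/
private theorem P4_key (h : HG D G) (x : Pl) {u : ℂ} (hu : ‖u‖ = 1) {f f' : ℝ → ℝ}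
    (hf : Jac (fun τ : ℝ => G.K (G.E x ((τ : ℂ) * u))) f f') (s t : ℝ) :
    f' s * G.B (G.E x ((t : ℂ) * u)) (-G.dr x u t) (t - s) +
      f s * G.Bd (G.E x ((t : ℂ) * u)) (-G.dr x u t) (t - s) = f t := by
  have hw : ‖-G.dr x u t‖ = 1 := by rw [norm_neg, h.dr_norm x u hu t]
  have h1 := P4_wr (P4_rev h x hu t) hf s t
  simp only [sub_self] at h1
  rw [h.B_zero _ _ hw, h.Bd_zero _ _ hw] at h1
  linarith

private theorem P4_back (h : HG D G) (x : Pl) {u : ℂ} (hu : ‖u‖ = 1) {t : ℝ} (ht : 0 < t) :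
    G.J (G.E x ((t : ℂ) * u)) x = G.B (G.E x ((t : ℂ) * u)) (-G.dr x u t) t ∧
      G.B (G.E x ((t : ℂ) * u)) (-G.dr x u t) t = G.B x u t := by
  have hw : ‖-G.dr x u t‖ = 1 := by rw [norm_neg, h.dr_norm x u hu t]
  constructor
  · have h1 := J_E h (G.E x ((t : ℂ) * u)) hw ht
    rw [E_rev h x hu, sub_self, Complex.ofReal_zero, zero_mul, h.E_zero] at h1
    exact h1
  · have h1 := P4_key h x hu (jac_B h x hu) 0 t
    rw [sub_zero, h.B_zero x u hu, h.Bd_zero x u hu] at h1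
    linarith

theorem J_symm (h : HG D G) (x y : Pl) : G.J x y = G.J y x := by
  by_cases hxy : x = y
  · rw [hxy]
  · have hu := di_norm h hxy
    have ht := d_pos h hxy
    obtain ⟨h1, h2⟩ := P4_back h x hu ht
    rw [E_di h x y] at h1 h2
    rw [h1, h2]
    rfl

theorem J_split (h : HG D G) (x : Pl) {u : ℂ} (hu : ‖u‖ = 1) {s t : ℝ} (hs : 0 < s) (hst : s < t) :
    G.J x (G.E x ((t : ℂ) * u)) =
      G.J x (G.E x ((s : ℂ) * u)) * G.J (G.E x ((s : ℂ) * u)) (G.E x ((t : ℂ) * u)) *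
        (G.U x (G.E x ((s : ℂ) * u)) + G.U (G.E x ((t : ℂ) * u)) (G.E x ((s : ℂ) * u))) := by
  have hw : ‖-G.dr x u t‖ = 1 := by rw [norm_neg, h.dr_norm x u hu t]
  have hts : 0 < t - s := by linarith
  have h1 := P4_key h x hu (jac_B h x hu) s t
  have h2 := J_E h (G.E x ((t : ℂ) * u)) hw hts
  have h3 := U_E h (G.E x ((t : ℂ) * u)) hw hts
  have h4 : t - (t - s) = s := by ring
  rw [E_rev h x hu, h4] at h2 h3
  have hB1 := (B_pos h x hu hs).ne'
  have hB2 := (B_pos h (G.E x ((t : ℂ) * u)) hw hts).ne'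
  rw [J_symm h (G.E x ((s : ℂ) * u)), h2, h3, J_E h x hu (hs.trans hst), J_E h x hu hs,
    U_E h x hu hs, ← h1]
  field_simp

/-- The solution `A` with `A 0 = 1`, `A' 0 = 0`: `A t = J * U` from the far end. -/
theorem J_tr (h : HG D G) (x : Pl) {u : ℂ} (hu : ‖u‖ = 1) {A A' : ℝ → ℝ}
    (hA : Jac (fun t : ℝ => G.K (G.E x ((t : ℂ) * u))) A A') (h0 : A 0 = 1) (h1 : A' 0 = 0)
    {t : ℝ} (ht : 0 < t) :
    A t = G.J x (G.E x ((t : ℂ) * u)) * G.U (G.E x ((t : ℂ) * u)) x := by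
  have hw : ‖-G.dr x u t‖ = 1 := by rw [norm_neg, h.dr_norm x u hu t]
  have h2 := P4_key h x hu hA 0 t
  rw [h0, h1, sub_zero] at h2
  have h3 := U_E h (G.E x ((t : ℂ) * u)) hw ht
  rw [E_rev h x hu, sub_self, Complex.ofReal_zero, zero_mul, h.E_zero] at h3
  have hB2 := (B_pos h (G.E x ((t : ℂ) * u)) hw ht).ne'
  obtain ⟨h4, h5⟩ := P4_back h x hu ht
  rw [J_symm h x, h4, h3, ← h2]
  field_simp
  ring

end SR85
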