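import Pool.Agent.LibSR85.A3
import Pool.Agent.LibSR85.B2
import Pool.Agent.LibSR85.P4

/-! Row SR85 B4: `U y x` is Lipschitz in the far end `y`, and `log J` in both ends.

PLAN. By symmetry of the statement let `r₁ = d x y ≤ r₂ = d x y'` (`r₂ ≤ r₁ + 1`, `r₁ ≥ 1`: apply
the general case with the roles exchanged if necessary), `uᵢ = di x yᵢ`, `kᵢ τ = K (E x (τ uᵢ))`.
As in B2 (with `o := x`), `|k₁ τ - k₂ τ| ≤ M e^{-a (r₁ - τ)}` on `[0, r₁]` with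
`M = C LK d y y'`. `Yᵢ τ = B yᵢ (di yᵢ x) (rᵢ - τ)` is `Jac` for `kᵢ`
(`E_rev`, `dr_di`: `E yᵢ (s di yᵢ x) = E x ((rᵢ - s) uᵢ)`), `Yᵢ rᵢ = 0`, `Yᵢ' rᵢ = -1`,
`-Yᵢ' 0 / Yᵢ 0 = U yᵢ x`. Apply `jac_end`; `r₂ - r₁ ≤ d y y'`. -/

open MeasureTheory Set Filter Topology
open scoped ContDiff ENNReal NNReal ComplexConjugate

namespace SR85

open BGS (Pl Surface)

variable {Γ : Type} [Group Γ] [MulAction Γ Pl] {D : Set Pl} {G : Dat Γ}

theorem B4_rev {k Y Y' : ℝ → ℝ} (h : Jac k Y Y') (r : ℝ) :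
    Jac (fun t => k (r - t)) (fun t => Y (r - t)) (fun t => -Y' (r - t)) := by
  constructor
  · intro t
    have h1 : HasDerivAt (fun s : ℝ => r - s) (-1) t := by
      simpa using (hasDerivAt_id t).const_sub r
    have h2 := (h.d1 (r - t)).comp t h1
    have h3 : Y' (r - t) * -1 = -Y' (r - t) := by ring
    rw [h3] at h2
    exact h2
  · intro t
    have h1 : HasDerivAt (fun s : ℝ => r - s) (-1) t := by
      simpa using (hasDerivAt_id t).const_sub r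
    have h2 := ((h.d2 (r - t)).comp t h1).neg
    have h3 : -(-k (r - t) * Y (r - t) * -1) = -k (r - t) * Y (r - t) := by ring
    rw [h3] at h2
    exact h2

/-- The same geodesic from its other end. -/
theorem B4_E (h : HG D G) {x y : Pl} (hxy : x ≠ y) (τ : ℝ) :
    G.E y (((G.d x y - τ : ℝ) : ℂ) * G.di y x) = G.E x ((τ : ℂ) * G.di x y) := by
  have h1 := E_rev h y (di_norm h hxy.symm) (G.d y x) τ
  rw [E_di h, dr_di h hxy.symm, neg_neg, h.d_symm y x] at h1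
  exact h1.symm

/-- The two segments from `x` are close. -/
theorem B4_close (h : HG D G) {x y₁ y₂ : Pl} (hd : G.d y₁ y₂ ≤ 1) (h1 : 1 ≤ G.d x y₁)
    (h12 : G.d x y₁ ≤ G.d x y₂) (n₁ : x ≠ y₁) (n₂ : x ≠ y₂) {τ : ℝ} (hτ : 0 ≤ τ)
    (hτr : τ ≤ G.d x y₁) :
    G.d (G.E x ((τ : ℂ) * G.di x y₁)) (G.E x ((τ : ℂ) * G.di x y₂)) ≤
      4 * Real.exp G.a * G.d y₁ y₂ * Real.exp (-(G.a * (G.d x y₁ - τ))) := by
  have hδ : 0 ≤ G.d y₁ y₂ := norm_nonneg _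
  have ha := h.a_pos
  rcases le_or_gt (τ + G.d y₁ y₂) (G.d x y₁) with hc | hc
  · refine (contr h x y₁ y₂ hτ hc).trans ?_
    have h2 : Real.exp (-(G.a * (G.d x y₁ - G.d y₁ y₂ - τ))) ≤
        Real.exp G.a * Real.exp (-(G.a * (G.d x y₁ - τ))) := by
      rw [← Real.exp_add]
      apply Real.exp_le_exp.2
      have : G.a * G.d y₁ y₂ ≤ G.a * 1 := mul_le_mul_of_nonneg_left hd ha.le
      nlinarith
    calc G.d y₁ y₂ * Real.exp (-(G.a * (G.d x y₁ - G.d y₁ y₂ - τ)))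
        ≤ G.d y₁ y₂ * (Real.exp G.a * Real.exp (-(G.a * (G.d x y₁ - τ)))) :=
          mul_le_mul_of_nonneg_left h2 hδ
      _ = 1 * (Real.exp G.a * G.d y₁ y₂ * Real.exp (-(G.a * (G.d x y₁ - τ)))) := by ring
      _ ≤ 4 * (Real.exp G.a * G.d y₁ y₂ * Real.exp (-(G.a * (G.d x y₁ - τ)))) := by
          apply mul_le_mul_of_nonneg_right (by norm_num)
          positivity
      _ = 4 * Real.exp G.a * G.d y₁ y₂ * Real.exp (-(G.a * (G.d x y₁ - τ))) := by ring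
  · have t1 := h.d_tri (G.E x ((τ : ℂ) * G.di x y₁)) y₁ (G.E x ((τ : ℂ) * G.di x y₂))
    have t2 := h.d_tri y₁ y₂ (G.E x ((τ : ℂ) * G.di x y₂))
    have t3 := h.d_tri x y₁ y₂
    have g1 : G.d (G.E x ((τ : ℂ) * G.di x y₁)) y₁ = |G.d x y₁ - τ| := by
      have := d_geo h x (di_norm h n₁) τ (G.d x y₁)
      rwa [E_di h] at this
    have g2 : G.d y₂ (G.E x ((τ : ℂ) * G.di x y₂)) = |G.d x y₂ - τ| := by
      have := d_geo h x (di_norm h n₂) τ (G.d x y₂)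
      rw [E_di h] at this
      rw [h.d_symm, this]
    rw [abs_of_nonneg (by linarith)] at g1 g2
    have h3 : G.d (G.E x ((τ : ℂ) * G.di x y₁)) (G.E x ((τ : ℂ) * G.di x y₂)) ≤
        4 * G.d y₁ y₂ := by linarith
    have h4 : 1 ≤ Real.exp G.a * Real.exp (-(G.a * (G.d x y₁ - τ))) := by
      rw [← Real.exp_add]
      apply Real.one_le_exp
      have : G.a * (G.d x y₁ - τ) ≤ G.a * 1 :=
        mul_le_mul_of_nonneg_left (by linarith) ha.le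
      linarith
    calc G.d (G.E x ((τ : ℂ) * G.di x y₁)) (G.E x ((τ : ℂ) * G.di x y₂))
        ≤ 4 * G.d y₁ y₂ * 1 := by linarith
      _ ≤ 4 * G.d y₁ y₂ * (Real.exp G.a * Real.exp (-(G.a * (G.d x y₁ - τ)))) :=
          mul_le_mul_of_nonneg_left h4 (by positivity)
      _ = 4 * Real.exp G.a * G.d y₁ y₂ * Real.exp (-(G.a * (G.d x y₁ - τ))) := by ring

/-- The case `d x y₁ ≤ d x y₂`. -/
theorem B4_core (h : HG D G) : ∃ C : ℝ, 0 < C ∧ ∀ x y₁ y₂ : Pl, G.d y₁ y₂ ≤ 1 → 1 ≤ G.d x y₁ →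
    G.d x y₁ ≤ G.d x y₂ → |G.U y₁ x - G.U y₂ x| ≤ C * G.d y₁ y₂ := by
  obtain ⟨C, hC, hje⟩ := jac_end h.a_pos h.ab
  have hLK := h.LK_pos
  refine ⟨C * (4 * G.LK * Real.exp G.a + 1), by positivity, ?_⟩
  intro x y₁ y₂ hd h1 h12
  have n₁ : x ≠ y₁ := by
    intro he
    rw [← he, d_self h] at h1
    linarith
  have n₂ : x ≠ y₂ := by
    intro he
    rw [← he, d_self h] at h12
    linarith
  have hδ : 0 ≤ G.d y₁ y₂ := norm_nonneg _
  have t3 := h.d_tri x y₁ y₂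
  have u₁ : ‖G.di y₁ x‖ = 1 := di_norm h n₁.symm
  have u₂ : ‖G.di y₂ x‖ = 1 := di_norm h n₂.symm
  have j₁ := B4_rev (jac_B h y₁ u₁) (G.d x y₁)
  have j₂ := B4_rev (jac_B h y₂ u₂) (G.d x y₂)
  have hM : 0 ≤ 4 * G.LK * Real.exp G.a * G.d y₁ y₂ := by positivity
  have key := hje _ _ _ _ _ _ (4 * G.LK * Real.exp G.a * G.d y₁ y₂) (G.d x y₁) (G.d x y₂) hM h1 h12
    (by linarith) ((k_cont h y₁ (G.di y₁ x)).comp (by fun_prop : Continuous fun t : ℝ =>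
      G.d x y₁ - t)) ((k_cont h y₂ (G.di y₂ x)).comp (by fun_prop : Continuous fun t : ℝ =>
      G.d x y₂ - t)) (fun t => h.K_le _) (fun t => h.K_le _) (fun t => h.K_ge _)
    (fun t => h.K_ge _) j₁ j₂ (by simpa using h.B_zero y₁ _ u₁) (by simpa using h.Bd_zero y₁ _ u₁)
    (by simpa using h.B_zero y₂ _ u₂) (by simpa using h.Bd_zero y₂ _ u₂) ?_
  · have e₁ : (fun t => -G.Bd y₁ (G.di y₁ x) (G.d x y₁ - t)) 0 /
        (fun t => G.B y₁ (G.di y₁ x) (G.d x y₁ - t)) 0 = -G.U y₁ x := by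
      simp only [sub_zero, Dat.U, Dat.J, h.d_symm y₁ x, neg_div]
    have e₂ : (fun t => -G.Bd y₂ (G.di y₂ x) (G.d x y₂ - t)) 0 /
        (fun t => G.B y₂ (G.di y₂ x) (G.d x y₂ - t)) 0 = -G.U y₂ x := by
      simp only [sub_zero, Dat.U, Dat.J, h.d_symm y₂ x, neg_div]
    rw [e₁, e₂] at key
    have e₃ : |-G.U y₁ x - -G.U y₂ x| = |G.U y₁ x - G.U y₂ x| := by
      rw [← abs_neg]
      congr 1
      ring
    rw [e₃] at key
    refine key.trans ?_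
    have : C * (4 * G.LK * Real.exp G.a * G.d y₁ y₂ + (G.d x y₂ - G.d x y₁)) ≤
        C * (4 * G.LK * Real.exp G.a * G.d y₁ y₂ + G.d y₁ y₂) := by
      apply mul_le_mul_of_nonneg_left _ hC.le
      linarith
    calc C * (4 * G.LK * Real.exp G.a * G.d y₁ y₂ + (G.d x y₂ - G.d x y₁))
        ≤ C * (4 * G.LK * Real.exp G.a * G.d y₁ y₂ + G.d y₁ y₂) := this
      _ = C * (4 * G.LK * Real.exp G.a + 1) * G.d y₁ y₂ := by ring
  · intro τ hτ hτr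
    show |G.K (G.E y₁ (((G.d x y₁ - τ : ℝ) : ℂ) * G.di y₁ x)) -
      G.K (G.E y₂ (((G.d x y₂ - τ : ℝ) : ℂ) * G.di y₂ x))| ≤ _
    rw [B4_E h n₁ τ, B4_E h n₂ τ]
    refine (h.K_lip _ _).trans ?_
    calc G.LK * G.d (G.E x ((τ : ℂ) * G.di x y₁)) (G.E x ((τ : ℂ) * G.di x y₂))
        ≤ G.LK * (4 * Real.exp G.a * G.d y₁ y₂ * Real.exp (-(G.a * (G.d x y₁ - τ)))) :=
          mul_le_mul_of_nonneg_left (B4_close h hd h1 h12 n₁ n₂ hτ hτr) hLK.le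
      _ = 4 * G.LK * Real.exp G.a * G.d y₁ y₂ * Real.exp (-(G.a * (G.d x y₁ - τ))) := by ring

theorem U_far (h : HG D G) : ∃ C : ℝ, 0 < C ∧ ∀ x y y' : Pl, G.d y y' ≤ 1 → 2 ≤ G.d x y →
    |G.U y x - G.U y' x| ≤ C * G.d y y' := by
  obtain ⟨C, hC, hc⟩ := B4_core h
  refine ⟨C, hC, ?_⟩
  intro x y y' hd h2
  rcases le_total (G.d x y) (G.d x y') with h3 | h3
  · exact hc x y y' hd (by linarith) h3
  · have t := h.d_tri x y' y
    rw [h.d_symm y' y] at t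
    have := hc x y' y (by rw [h.d_symm]; exact hd) (by linarith) h3
    rw [abs_sub_comm, h.d_symm y y']
    exact this

end SR85
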