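import Pool.Agent.LibSR85.N1

/-! Row SR85 N2 (STRONG): localisation. If the angle defect of `x → g x` is small then `x` is near
the axis of `g`.

PLAN. All constants depend on `l₁` (think of `l₁ = 1`). Note `g ≠ 1` as `0 < l ≤ d x (g x)`. Let `p s = E c (s u)`. Nearest point: `s ↦ d x (p s)` is continuous and
`≥ |s| - d x c`, so it has a minimum `s`; let `p = p s`, `q₀ = d x p`, `w = dr c u s` (the frame velocity
of the axis at `p`). If `q₀ = 0` take `q = 0`. Otherwise `dd` (second point moving along the axis)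
gives `Re (w conj di p x) = 0`, so `di p x = ± I w` and `x = E p (± q₀ I w)`; let `ξ₀ = di p x`.
Let `x(q) = E p (q ξ₀)`, `ξ(q) = dr p ξ₀ q` (its frame velocity, `E_t`), `F q = d (x q) (g x q) ≥ l ≥ l₁`,
`u, u'` as in `al`, `y₀ = Im (ξ conj u)`, `y₁ = Im (ξ conj u')`. By `F_der`
`F' = Re (ξ conj u') - Re (ξ conj u)`, so `|F'| ≤ ‖u' - u‖ = ‖al - 1‖`. By `du` and `dr_t`
(`ξ' = -I om(ξ) ξ`; the computation of `al_der`):
`(Re (ξ conj u))' = -U (g x) x * y₀² + y₀ y₁ / J`, `(Re (ξ conj u'))' = U (g⁻¹ x) x * y₁² - y₀ y₁ / J`,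
hence `F'' = U (g x) x y₀² + U (g⁻¹ x) x y₁² - 2 y₀ y₁ / J ≥ m (y₀² + y₁²)`, `m = a tanh (a l₁ / 2)`:
`U - 1/J ≥ a (cosh (a F) - 1) / sinh (a F) = a tanh (a F / 2)` (`U_low'`, `J_low`). At `q = 0`:
`u = u' = w` (`al_axis`), `F' = 0`, `y₀² = 1`. `|(Re (ξ conj u))'| ≤ C₁` (`U_upp`, `1/J ≤ a / sinh (a l₁)`), so for
`q ≤ q₁ = 1 / (2 C₁)` `y₀² = 1 - Re² ≥ 3/4` and `F' q ≥ (3/4) m q`; `F'` is monotone, so
`F' q ≥ (3/4) m min q q₁` for all `q ≥ 0`. -/

open MeasureTheory Set Filter Topology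
open scoped ContDiff ENNReal NNReal ComplexConjugate

namespace SR85

open BGS (Pl Surface)

variable {Γ : Type} [Group Γ] [MulAction Γ Pl] {D : Set Pl} {G : Dat Γ}

/-- The direction of the curve against the direction of the loop at its start. -/
noncomputable def N2_A (G : Dat Γ) (g : Γ) (p : Pl) (ξ : ℂ) (r : ℝ) : ℂ :=
  G.dr p ξ r * conj (G.di (G.E p ((r : ℂ) * ξ)) (g • G.E p ((r : ℂ) * ξ)))

/-- The direction of the curve against the direction of the loop at its end. -/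
noncomputable def N2_B (G : Dat Γ) (g : Γ) (p : Pl) (ξ : ℂ) (r : ℝ) : ℂ :=
  G.dr p ξ r * conj (-G.di (G.E p ((r : ℂ) * ξ)) (g⁻¹ • G.E p ((r : ℂ) * ξ)))

theorem N2_derA (hX : Surface Γ D) (h : HG D G) {g : Γ} (hg : g ≠ 1) (p : Pl) {ξ : ℂ}
    (hξ : ‖ξ‖ = 1) (q : ℝ) : HasDerivAt (N2_A G g p ξ)
      (Complex.I * N2_A G g p ξ q *
        ((G.U (g • G.E p ((q : ℂ) * ξ)) (G.E p ((q : ℂ) * ξ)) * (N2_A G g p ξ q).im -
          (N2_B G g p ξ q).im / G.J (G.E p ((q : ℂ) * ξ)) (g • G.E p ((q : ℂ) * ξ)) : ℝ) : ℂ)) q := by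
  obtain ⟨x', hx, hfi⟩ := h.E_t p ξ hξ q
  obtain ⟨x, hxd⟩ : ∃ x : ℝ → Pl, x = fun r : ℝ => G.E p ((r : ℂ) * ξ) := ⟨_, rfl⟩
  have hxe : ∀ r : ℝ, G.E p ((r : ℂ) * ξ) = x r := fun r => by rw [hxd]
  have hx' : HasDerivAt x x' q := by rw [hxd]; exact hx
  have hsm : HasFDerivAt (fun w : Pl => g • w) (fderiv ℝ (fun w : Pl => g • w) (x q)) (x q) :=
    (((hX.smooth g).differentiable (by simp)) (x q)).hasFDerivAt
  have hy : HasDerivAt (fun r => g • x r) (fderiv ℝ (fun w : Pl => g • w) (x q) x') q :=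
    hsm.comp_hasDerivAt q hx'
  have hne := (al_norm hX h hg (x q)).2.1
  have h1 := h.du x (fun r => g • x r) x' _ q hx' hy hne
  have h2 := h.dr_t p ξ hξ q
  have h3 := h2.mul h1.star
  have hA : N2_A G g p ξ = fun r => G.dr p ξ r * star (G.di (x r) (g • x r)) := by
    funext r
    unfold N2_A
    rw [hxe]
    rfl
  have hfi' : G.fi (x q) x' = G.dr p ξ q := by rw [← hxe]; exact hfi
  have hR : G.R g (x q) * conj (G.R g (x q)) = 1 := by
    rw [Complex.mul_conj, Complex.normSq_eq_norm_sq, h.R_norm]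
    norm_num
  have h4 : (G.fi (g • x q) (fderiv ℝ (fun w : Pl => g • w) (x q) x') *
      conj (G.di (g • x q) (x q))) = -N2_B G g p ξ q := by
    have h5 := di_smul h g (x q) (g⁻¹ • x q)
    rw [smul_inv_smul] at h5
    rw [h5, h.fi_smul, hfi']
    unfold N2_B
    rw [hxe, map_neg, map_mul]
    linear_combination (G.dr p ξ q * conj (G.di (x q) (g⁻¹ • x q))) * hR
  rw [hfi', h4] at h3
  rw [hA]
  refine h3.congr_deriv ?_
  simp only [hxe] at h3 ⊢
  have hAq : G.dr p ξ q * conj (G.di (x q) (g • x q)) = N2_A G g p ξ q := by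
    unfold N2_A
    rw [hxe]
  have hst : ∀ z : ℂ, star z = conj z := fun z => rfl
  simp only [hst]
  rw [hAq]
  have hc : ∀ k : ℝ, conj (Complex.I * G.di (x q) (g • x q) * (k : ℂ)) =
      -(Complex.I * conj (G.di (x q) (g • x q)) * (k : ℂ)) := by
    intro k
    rw [map_mul, map_mul, Complex.conj_I, Complex.conj_ofReal]
    ring
  rw [hc, ← hAq]
  simp only [Complex.neg_im]
  push_cast
  ring

theorem N2_AB (G : Dat Γ) (g : Γ) (p : Pl) (ξ : ℂ) :
    N2_A G g⁻¹ p ξ = (fun r => -N2_B G g p ξ r) ∧ N2_B G g⁻¹ p ξ = (fun r => -N2_A G g p ξ r) := by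
  constructor
  · funext r
    unfold N2_A N2_B
    rw [map_neg]
    ring
  · funext r
    unfold N2_A N2_B
    rw [inv_inv, map_neg]
    ring

theorem N2_dinv (h : HG D G) (g : Γ) (x : Pl) : G.d (g⁻¹ • x) x = G.d x (g • x) := by
  have h1 := d_smul h g (g⁻¹ • x) x
  rw [smul_inv_smul] at h1
  exact h1.symm

theorem N2_Jinv (hX : Surface Γ D) (h : HG D G) {g : Γ} (hg : g ≠ 1) (x : Pl) :
    G.J x (g⁻¹ • x) = G.J x (g • x) := by
  have h1 := J_smul h g (al_norm hX h hg x).2.2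
  rw [smul_inv_smul] at h1
  rw [← h1, J_symm h]

theorem N2_derB (hX : Surface Γ D) (h : HG D G) {g : Γ} (hg : g ≠ 1) (p : Pl) {ξ : ℂ}
    (hξ : ‖ξ‖ = 1) (q : ℝ) : HasDerivAt (N2_B G g p ξ)
      (-(Complex.I * N2_B G g p ξ q *
        ((G.U (g⁻¹ • G.E p ((q : ℂ) * ξ)) (G.E p ((q : ℂ) * ξ)) * (N2_B G g p ξ q).im -
          (N2_A G g p ξ q).im / G.J (G.E p ((q : ℂ) * ξ)) (g • G.E p ((q : ℂ) * ξ)) : ℝ) : ℂ))) q := by
  have h1 := N2_derA hX h (inv_ne_one.2 hg) p hξ q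
  obtain ⟨h2, h3⟩ := N2_AB G g p ξ
  rw [h2, h3, N2_Jinv hX h hg] at h1
  have h4 := h1.neg
  simp only [Complex.neg_im] at h4
  have h5 : N2_B G g p ξ = -(fun r => -N2_B G g p ξ r) := by
    funext r
    simp
  rw [h5]
  refine h4.congr_deriv ?_
  simp only [Pi.neg_apply, neg_neg]
  push_cast
  ring

theorem N2_re {f : ℝ → ℂ} {f' : ℂ} {q : ℝ} (hf : HasDerivAt f f' q) :
    HasDerivAt (fun r => (f r).re) f'.re q :=
  Complex.reCLM.hasFDerivAt.comp_hasDerivAt q hf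

/-- `(cosh t - 1) / sinh t` is monotone. -/
theorem N2_mono {s t : ℝ} (hs : 0 ≤ s) (hst : s ≤ t) :
    (Real.cosh s - 1) * Real.sinh t ≤ (Real.cosh t - 1) * Real.sinh s := by
  have h1 : 0 ≤ Real.sinh (t - s) := Real.sinh_nonneg_iff.2 (by linarith)
  have h2 : Real.sinh t = Real.sinh s * Real.cosh (t - s) + Real.cosh s * Real.sinh (t - s) := by
    rw [← Real.sinh_add]
    congr 1
    ring
  have h3 := Real.one_le_cosh (t - s)
  have h4 := Real.one_le_cosh s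
  have h5 : 0 ≤ Real.sinh s := Real.sinh_nonneg_iff.2 hs
  have h6 : Real.sinh (t - s) = Real.sinh t * Real.cosh s - Real.cosh t * Real.sinh s :=
    Real.sinh_sub _ _
  nlinarith

/-- The constants. -/
theorem N2_bounds (hX : Surface Γ D) (h : HG D G) {l₁ : ℝ} (hl₁ : 0 < l₁) {g : Γ} (hg : g ≠ 1)
    {x : Pl} (hx : l₁ ≤ G.d x (g • x)) :
    G.a * (Real.cosh (G.a * l₁) - 1) / Real.sinh (G.a * l₁) ≤
        G.U (g • x) x - 1 / G.J x (g • x) ∧
      G.a * (Real.cosh (G.a * l₁) - 1) / Real.sinh (G.a * l₁) ≤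
        G.U (g⁻¹ • x) x - 1 / G.J x (g • x) ∧
      G.U (g • x) x + 1 / G.J x (g • x) ≤
        G.b * Real.cosh (G.b * l₁) / Real.sinh (G.b * l₁) + G.a / Real.sinh (G.a * l₁) ∧
      0 < G.J x (g • x) := by
  have ha := h.a_pos
  have hb : 0 < G.b := ha.trans_le h.ab
  have hn := al_norm hX h hg x
  obtain ⟨F, hF⟩ : ∃ F, F = G.d x (g • x) := ⟨_, rfl⟩
  rw [← hF] at hx
  have hF0 : 0 < F := hl₁.trans_le hx
  have hd1 : G.d (g • x) x = F := by rw [h.d_symm, hF]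
  have hd2 : G.d (g⁻¹ • x) x = F := by rw [N2_dinv h, hF]
  have hJ := J_low h hn.2.1
  rw [← hF] at hJ
  have hs : 0 < Real.sinh (G.a * F) := Real.sinh_pos_iff.2 (mul_pos ha hF0)
  have hs1 : 0 < Real.sinh (G.a * l₁) := Real.sinh_pos_iff.2 (mul_pos ha hl₁)
  have hsb : 0 < Real.sinh (G.b * F) := Real.sinh_pos_iff.2 (mul_pos hb hF0)
  have hsb1 : 0 < Real.sinh (G.b * l₁) := Real.sinh_pos_iff.2 (mul_pos hb hl₁)
  have hJ0 : 0 < G.J x (g • x) := (div_pos hs ha).trans_le hJ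
  have hJi : 1 / G.J x (g • x) ≤ G.a / Real.sinh (G.a * F) := by
    rw [div_le_div_iff₀ hJ0 hs, one_mul]
    rw [div_le_iff₀ ha] at hJ
    linarith
  have hm : G.a * (Real.cosh (G.a * l₁) - 1) / Real.sinh (G.a * l₁) ≤
      G.a * (Real.cosh (G.a * F) - 1) / Real.sinh (G.a * F) := by
    rw [div_le_div_iff₀ hs1 hs, mul_assoc, mul_assoc]
    exact mul_le_mul_of_nonneg_left (N2_mono (mul_pos ha hl₁).le
      (mul_le_mul_of_nonneg_left hx ha.le)) ha.le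
  have hlow : ∀ V : ℝ, G.a * Real.cosh (G.a * F) ≤ V * Real.sinh (G.a * F) →
      G.a * (Real.cosh (G.a * l₁) - 1) / Real.sinh (G.a * l₁) ≤ V - 1 / G.J x (g • x) := by
    intro V hV
    have h1 : G.a * Real.cosh (G.a * F) / Real.sinh (G.a * F) ≤ V := by
      rwa [div_le_iff₀ hs]
    have h2 : G.a * (Real.cosh (G.a * F) - 1) / Real.sinh (G.a * F) =
        G.a * Real.cosh (G.a * F) / Real.sinh (G.a * F) - G.a / Real.sinh (G.a * F) := by
      ring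
    linarith
  refine ⟨hlow _ ?_, hlow _ ?_, ?_, hJ0⟩
  · have h1 := U_low' h hn.2.1.symm
    rwa [hd1] at h1
  · have h1 := U_low' h hn.2.2.symm
    rwa [hd2] at h1
  · have h1 := U_upp h hn.2.1.symm
    rw [hd1] at h1
    have h2 : G.U (g • x) x ≤ G.b * Real.cosh (G.b * F) / Real.sinh (G.b * F) := by
      rwa [le_div_iff₀ hsb]
    have h3 : G.b * Real.cosh (G.b * F) / Real.sinh (G.b * F) ≤
        G.b * Real.cosh (G.b * l₁) / Real.sinh (G.b * l₁) := by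
      rw [div_le_div_iff₀ hsb hsb1, mul_assoc, mul_assoc]
      refine mul_le_mul_of_nonneg_left ?_ hb.le
      have h4 : 0 ≤ Real.sinh (G.b * F - G.b * l₁) :=
        Real.sinh_nonneg_iff.2 (by nlinarith)
      rw [Real.sinh_sub] at h4
      linarith
    have h4 : G.a / Real.sinh (G.a * F) ≤ G.a / Real.sinh (G.a * l₁) :=
      div_le_div_of_nonneg_left ha.le hs1 (Real.sinh_le_sinh.2
        (mul_le_mul_of_nonneg_left hx ha.le))
    linarith

theorem N2_norm (hX : Surface Γ D) (h : HG D G) {g : Γ} (hg : g ≠ 1) (p : Pl) {ξ : ℂ}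
    (hξ : ‖ξ‖ = 1) (q : ℝ) : ‖N2_A G g p ξ q‖ = 1 ∧ ‖N2_B G g p ξ q‖ = 1 := by
  have hn := al_norm hX h hg (G.E p ((q : ℂ) * ξ))
  constructor
  · unfold N2_A
    rw [norm_mul, h.dr_norm p ξ hξ, RCLike.norm_conj, di_norm h hn.2.1, one_mul]
  · unfold N2_B
    rw [norm_mul, h.dr_norm p ξ hξ, RCLike.norm_conj, norm_neg, di_norm h hn.2.2, one_mul]

theorem N2_im {z : ℂ} (hz : ‖z‖ = 1) : |z.im| ≤ 1 ∧ |z.re| ≤ 1 ∧ z.im ^ 2 = 1 - z.re ^ 2 := by
  refine ⟨hz ▸ Complex.abs_im_le_norm z, hz ▸ Complex.abs_re_le_norm z, ?_⟩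
  have h1 := Complex.sq_norm z
  rw [hz, Complex.normSq_apply] at h1
  linarith

/-- The growth of the angle defect along the perpendicular. -/
theorem N2_conv (hX : Surface Γ D) (h : HG D G) {l₁ : ℝ} (hl₁ : 0 < l₁) {m C₁ : ℝ}
    (hm : m = G.a * (Real.cosh (G.a * l₁) - 1) / Real.sinh (G.a * l₁))
    (hC₁ : C₁ = G.b * Real.cosh (G.b * l₁) / Real.sinh (G.b * l₁) + G.a / Real.sinh (G.a * l₁))
    {g : Γ} (hg : g ≠ 1) (hmn : ∀ x : Pl, l₁ ≤ G.d x (g • x)) (p : Pl) {ξ : ℂ} (hξ : ‖ξ‖ = 1)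
    (h0 : (N2_A G g p ξ 0).re = 0) (h0' : (N2_B G g p ξ 0).re = 0) {q : ℝ} (hq : 0 ≤ q) :
    3 / 4 * m * min q (1 / (2 * C₁)) ≤ (N2_B G g p ξ q).re - (N2_A G g p ξ q).re := by
  have ha := h.a_pos
  have hb : 0 < G.b := ha.trans_le h.ab
  have hs1 : 0 < Real.sinh (G.a * l₁) := Real.sinh_pos_iff.2 (mul_pos ha hl₁)
  have hsb1 : 0 < Real.sinh (G.b * l₁) := Real.sinh_pos_iff.2 (mul_pos hb hl₁)
  have hm0 : 0 < m := by
    rw [hm]
    refine div_pos (mul_pos ha ?_) hs1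
    have := Real.one_lt_cosh.2 (mul_pos ha hl₁).ne'
    linarith
  have hC0 : 0 < C₁ := by
    rw [hC₁]
    have := Real.cosh_pos (G.b * l₁)
    positivity
  -- the derivative of the real part of `A`
  have hPd : ∀ r : ℝ, ∃ k : ℝ, HasDerivAt (fun r => (N2_A G g p ξ r).re) k r ∧ ‖k‖ ≤ C₁ := by
    intro r
    refine ⟨_, N2_re (N2_derA hX h hg p hξ r), ?_⟩
    obtain ⟨-, -, h3, h4⟩ := N2_bounds hX h hl₁ hg (hmn (G.E p ((r : ℂ) * ξ)))
    obtain ⟨h5, h6⟩ := N2_norm hX h hg p hξ r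
    have h7 := N2_im h5
    have h8 := N2_im h6
    rw [← hC₁] at h3
    have hU : 0 ≤ G.U (g • G.E p ((r : ℂ) * ξ)) (G.E p ((r : ℂ) * ξ)) :=
      ha.le.trans (U_low h (al_norm hX h hg (G.E p ((r : ℂ) * ξ))).2.1.symm)
    obtain ⟨U, hUe⟩ : ∃ U, U = G.U (g • G.E p ((r : ℂ) * ξ)) (G.E p ((r : ℂ) * ξ)) := ⟨_, rfl⟩
    obtain ⟨J, hJe⟩ : ∃ J, J = G.J (G.E p ((r : ℂ) * ξ)) (g • G.E p ((r : ℂ) * ξ)) := ⟨_, rfl⟩
    rw [← hUe, ← hJe] at h3 ⊢
    rw [← hUe] at hU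
    rw [← hJe] at h4
    have h9 : (Complex.I * N2_A G g p ξ r * ((U * (N2_A G g p ξ r).im -
        (N2_B G g p ξ r).im / J : ℝ) : ℂ)).re =
        -((N2_A G g p ξ r).im * (U * (N2_A G g p ξ r).im - (N2_B G g p ξ r).im / J)) := by
      simp only [Complex.mul_re, Complex.mul_im, Complex.I_re, Complex.I_im, Complex.ofReal_re,
        Complex.ofReal_im]
      ring
    rw [h9, norm_neg, norm_mul, Real.norm_eq_abs, Real.norm_eq_abs]
    have h10 : |U * (N2_A G g p ξ r).im - (N2_B G g p ξ r).im / J| ≤ C₁ := by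
      refine (abs_sub _ _).trans (le_trans ?_ h3)
      rw [abs_mul, abs_div, abs_of_nonneg hU, abs_of_pos h4]
      refine add_le_add ?_ ?_
      · exact mul_le_of_le_one_right hU h7.1
      · exact div_le_div_of_nonneg_right h8.1 h4.le
    calc |(N2_A G g p ξ r).im| * |U * (N2_A G g p ξ r).im - (N2_B G g p ξ r).im / J| ≤ 1 * C₁ :=
          mul_le_mul h7.1 h10 (abs_nonneg _) zero_le_one
      _ = C₁ := one_mul _
  choose k hk hkC using hPd
  have hP : ∀ r : ℝ, |(N2_A G g p ξ r).re| ≤ C₁ * |r| := by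
    intro r
    have h1 := (convex_univ (𝕜 := ℝ) (E := ℝ)).norm_image_sub_le_of_norm_hasDerivWithin_le
      (f := fun r => (N2_A G g p ξ r).re) (f' := k) (C := C₁)
      (fun x _ => (hk x).hasDerivWithinAt) (fun x _ => hkC x) (mem_univ 0) (mem_univ r)
    simpa [h0] using h1
  -- the derivative of the difference
  have hHd : ∀ r : ℝ, ∃ k : ℝ, HasDerivAt (fun r => (N2_B G g p ξ r).re - (N2_A G g p ξ r).re) k r ∧
      m * (1 - (N2_A G g p ξ r).re ^ 2) ≤ k := by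
    intro r
    refine ⟨_, (N2_re (N2_derB hX h hg p hξ r)).sub (N2_re (N2_derA hX h hg p hξ r)), ?_⟩
    obtain ⟨h1, h2, -, h4⟩ := N2_bounds hX h hl₁ hg (hmn (G.E p ((r : ℂ) * ξ)))
    obtain ⟨h5, h6⟩ := N2_norm hX h hg p hξ r
    have h7 := N2_im h5
    have h8 := N2_im h6
    rw [← hm] at h1 h2
    obtain ⟨U, hUe⟩ : ∃ U, U = G.U (g • G.E p ((r : ℂ) * ξ)) (G.E p ((r : ℂ) * ξ)) := ⟨_, rfl⟩
    obtain ⟨U', hUe'⟩ : ∃ U, U = G.U (g⁻¹ • G.E p ((r : ℂ) * ξ)) (G.E p ((r : ℂ) * ξ)) := ⟨_, rfl⟩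
    obtain ⟨J, hJe⟩ : ∃ J, J = G.J (G.E p ((r : ℂ) * ξ)) (g • G.E p ((r : ℂ) * ξ)) := ⟨_, rfl⟩
    rw [← hUe, ← hJe] at h1
    rw [← hUe', ← hJe] at h2
    rw [← hUe, ← hUe', ← hJe]
    rw [← hJe] at h4
    rw [← h7.2.2]
    generalize N2_A G g p ξ r = A at *
    generalize N2_B G g p ξ r = B at *
    have h9 : (-(Complex.I * B * ((U' * B.im - A.im / J : ℝ) : ℂ))).re -
        (Complex.I * A * ((U * A.im - B.im / J : ℝ) : ℂ)).re =
        U * A.im ^ 2 + U' * B.im ^ 2 - 2 * (A.im * B.im) * (1 / J) := by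
      simp only [Complex.neg_re, Complex.mul_re, Complex.mul_im, Complex.I_re, Complex.I_im,
        Complex.ofReal_re, Complex.ofReal_im]
      ring
    rw [h9]
    have hJ : 0 ≤ 1 / J := (one_div_pos.2 h4).le
    nlinarith [mul_nonneg hJ (sq_nonneg (A.im - B.im)),
      mul_le_mul_of_nonneg_right h1 (sq_nonneg A.im),
      mul_le_mul_of_nonneg_right h2 (sq_nonneg B.im), mul_nonneg hm0.le (sq_nonneg B.im)]
  choose k' hk' hk'C using hHd
  have hk'0 : ∀ r, 0 ≤ k' r := by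
    intro r
    have h1 := N2_im (N2_norm hX h hg p hξ r).1
    refine le_trans (mul_nonneg hm0.le ?_) (hk'C r)
    rw [← h1.2.2]
    positivity
  have hmono : Monotone fun r => (N2_B G g p ξ r).re - (N2_A G g p ξ r).re :=
    monotone_of_deriv_nonneg (fun r => (hk' r).differentiableAt) fun r => by
      rw [(hk' r).deriv]
      exact hk'0 r
  have hq₁ : 0 < 1 / (2 * C₁) := by positivity
  have hmon2 : MonotoneOn (fun r => (N2_B G g p ξ r).re - (N2_A G g p ξ r).re - 3 / 4 * m * r)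
      (Icc 0 (1 / (2 * C₁))) := by
    have hd : ∀ r, HasDerivAt (fun r => (N2_B G g p ξ r).re - (N2_A G g p ξ r).re - 3 / 4 * m * r)
        (k' r - 3 / 4 * m * 1) r := fun r => (hk' r).sub ((hasDerivAt_id r).const_mul _)
    apply monotoneOn_of_deriv_nonneg (convex_Icc _ _)
    · exact (continuous_iff_continuousAt.2 fun r => (hd r).continuousAt).continuousOn
    · exact fun r _ => (hd r).differentiableAt.differentiableWithinAt
    · intro r hr
      rw [interior_Icc] at hr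
      rw [(hd r).deriv]
      have h1 := hP r
      rw [abs_of_pos hr.1] at h1
      have h2 : C₁ * r ≤ 1 / 2 := by
        have h3 := hr.2.le
        rw [le_div_iff₀ (by positivity)] at h3
        linarith
      have h3 : (N2_A G g p ξ r).re ^ 2 ≤ 1 / 4 := by
        have h4 := abs_nonneg (N2_A G g p ξ r).re
        rw [← sq_abs]
        nlinarith
      have h4 := hk'C r
      nlinarith
  rcases le_total q (1 / (2 * C₁)) with hqq | hqq
  · rw [min_eq_left hqq]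
    have h1 := hmon2 (left_mem_Icc.2 hq₁.le) ⟨hq, hqq⟩ hq
    simp only [h0, h0', mul_zero, sub_self] at h1
    linarith
  · rw [min_eq_right hqq]
    have h1 := hmon2 (left_mem_Icc.2 hq₁.le) (right_mem_Icc.2 hq₁.le) hq₁.le
    have h2 := hmono hqq
    simp only [h0, h0', mul_zero, sub_self] at h1 h2
    linarith

/-- The nearest point of a geodesic. -/
theorem N2_near (h : HG D G) (c : Pl) {u : ℂ} (hu : ‖u‖ = 1) (x : Pl) : ∃ s : ℝ,
    ∀ r : ℝ, G.d x (G.E c ((s : ℂ) * u)) ≤ G.d x (G.E c ((r : ℂ) * u)) := by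
  have hc : Continuous fun s : ℝ => G.d x (G.E c ((s : ℂ) * u)) := by
    have h1 : Continuous fun s : ℝ => G.E c ((s : ℂ) * u) := by
      refine h.E_cont.comp (continuous_const.prodMk ?_)
      fun_prop
    exact (d_cont h).comp (continuous_const.prodMk h1)
  refine hc.exists_forall_le ?_
  have h2 : ∀ s : ℝ, |s| - G.d c x ≤ G.d x (G.E c ((s : ℂ) * u)) := by
    intro s
    have h3 := h.d_tri c x (G.E c ((s : ℂ) * u))
    rw [d_E h c hu] at h3
    linarith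
  refine tendsto_atTop_mono h2 ?_
  have h4 : Tendsto (fun s : ℝ => |s|) (cocompact ℝ) atTop := tendsto_norm_cocompact_atTop
  exact tendsto_atTop_add_const_right _ (-G.d c x) h4

theorem N2_perp (h : HG D G) (c : Pl) {u : ℂ} (hu : ‖u‖ = 1) (x : Pl) : ∃ (s q : ℝ) (ε : ℝ),
    0 ≤ q ∧ |ε| = 1 ∧ x = G.E (G.E c ((s : ℂ) * u)) ((q : ℂ) * (ε * (Complex.I * G.dr c u s))) := by
  obtain ⟨s, hs⟩ := N2_near h c hu x
  by_cases hxp : G.E c ((s : ℂ) * u) = x
  · refine ⟨s, 0, 1, le_rfl, abs_one, ?_⟩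
    rw [Complex.ofReal_zero, zero_mul, h.E_zero, hxp]
  obtain ⟨p', hp, hfi⟩ := h.E_t c u hu s
  have h1 := h.dd (fun _ => x) (fun r : ℝ => G.E c ((r : ℂ) * u)) 0 p' s (hasDerivAt_const s x) hp
    (Ne.symm hxp)
  have h2 : IsLocalMin (fun r : ℝ => G.d x (G.E c ((r : ℂ) * u))) s :=
    Eventually.of_forall fun r => hs r
  have h3 := h2.hasDerivAt_eq_zero h1
  simp only [map_zero, zero_mul, Complex.zero_re, neg_zero, zero_sub, neg_eq_zero] at h3
  rw [hfi] at h3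
  obtain ⟨w, hw⟩ : ∃ w, w = G.dr c u s := ⟨_, rfl⟩
  have hwn : ‖w‖ = 1 := by rw [hw]; exact h.dr_norm c u hu s
  obtain ⟨ξ, hξ⟩ : ∃ ξ, ξ = G.di (G.E c ((s : ℂ) * u)) x := ⟨_, rfl⟩
  have hξn : ‖ξ‖ = 1 := by rw [hξ]; exact di_norm h hxp
  rw [← hw, ← hξ] at h3
  have hww : w * conj w = 1 := by
    rw [Complex.mul_conj, Complex.normSq_eq_norm_sq, hwn]
    norm_num
  obtain ⟨ε, hε⟩ : ∃ ε, ε = (ξ * conj w).im := ⟨_, rfl⟩
  have h4 : (ξ * conj w).re = 0 := by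
    rw [← h3]
    simp only [Complex.mul_re, Complex.conj_re, Complex.conj_im]
    ring
  have h5 : ξ * conj w = ε * Complex.I := by
    apply Complex.ext
    · rw [h4]
      simp
    · rw [← hε]
      simp
  have h6 : ξ = ε * (Complex.I * w) := by
    calc ξ = ξ * (w * conj w) := by rw [hww, mul_one]
      _ = (ξ * conj w) * w := by ring
      _ = _ := by rw [h5]; ring
  have h7 : |ε| = 1 := by
    have h8 : ‖ξ * conj w‖ = 1 := by rw [norm_mul, RCLike.norm_conj, hξn, hwn, one_mul]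
    rw [h5, norm_mul, Complex.norm_I, mul_one, Complex.norm_real] at h8
    exact h8
  refine ⟨s, G.d (G.E c ((s : ℂ) * u)) x, ε, (d_pos h hxp).le, h7, ?_⟩
  rw [← hw, ← h6, hξ, E_di h]

theorem localise (hX : Surface Γ D) (h : HG D G) {l₁ : ℝ} (hl₁ : 0 < l₁) : ∃ C : ℝ, 0 < C ∧
    ∀ (g : Γ) (c : Pl) (u : ℂ) (l : ℝ), Ax G g c u l → l₁ ≤ l → ∀ x : Pl, ∃ s q : ℝ,
      x = G.E (G.E c ((s : ℂ) * u)) ((q : ℂ) * (Complex.I * G.dr c u s)) ∧
        C * min |q| 1 ≤ ‖al G g x - 1‖ := by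
  have ha := h.a_pos
  have hb : 0 < G.b := ha.trans_le h.ab
  have hs1 : 0 < Real.sinh (G.a * l₁) := Real.sinh_pos_iff.2 (mul_pos ha hl₁)
  have hsb1 : 0 < Real.sinh (G.b * l₁) := Real.sinh_pos_iff.2 (mul_pos hb hl₁)
  obtain ⟨m, hm⟩ : ∃ m, m = G.a * (Real.cosh (G.a * l₁) - 1) / Real.sinh (G.a * l₁) := ⟨_, rfl⟩
  obtain ⟨C₁, hC₁⟩ : ∃ C₁, C₁ = G.b * Real.cosh (G.b * l₁) / Real.sinh (G.b * l₁) +
    G.a / Real.sinh (G.a * l₁) := ⟨_, rfl⟩
  have hm0 : 0 < m := by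
    rw [hm]
    refine div_pos (mul_pos ha ?_) hs1
    have := Real.one_lt_cosh.2 (mul_pos ha hl₁).ne'
    linarith
  have hC0 : 0 < C₁ := by
    rw [hC₁]
    have := Real.cosh_pos (G.b * l₁)
    positivity
  have hq₁ : 0 < 1 / (2 * C₁) := by positivity
  obtain ⟨q₁, hq₁e⟩ : ∃ q₁, q₁ = 1 / (2 * C₁) := ⟨_, rfl⟩
  rw [← hq₁e] at hq₁
  refine ⟨3 / 4 * m * min q₁ 1, mul_pos (by positivity) (lt_min hq₁ one_pos), ?_⟩
  intro g c u l hax hl x
  have hg : g ≠ 1 := by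
    rintro rfl
    have h1 := hax.mn c
    rw [one_smul, d_self h] at h1
    exact absurd hax.pos (not_lt.2 h1)
  obtain ⟨s, q, ε, hq, hε, hx⟩ := N2_perp h c hax.nu x
  obtain ⟨w, hw⟩ : ∃ w, w = G.dr c u s := ⟨_, rfl⟩
  have hwn : ‖w‖ = 1 := by rw [hw]; exact h.dr_norm c u hax.nu s
  obtain ⟨p, hp⟩ : ∃ p, p = G.E c ((s : ℂ) * u) := ⟨_, rfl⟩
  obtain ⟨-, h1, h2, -⟩ := al_axis h hax s
  rw [← hw, ← hp] at hx h1 h2
  obtain ⟨ξ, hξ⟩ : ∃ ξ : ℂ, ξ = (ε : ℂ) * (Complex.I * w) := ⟨_, rfl⟩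
  have hξn : ‖ξ‖ = 1 := by
    rw [hξ, norm_mul, norm_mul, Complex.norm_I, hwn, one_mul, mul_one, Complex.norm_real]
    exact hε
  have hww : w * conj w = 1 := by
    rw [Complex.mul_conj, Complex.normSq_eq_norm_sq, hwn]
    norm_num
  have hξw : (ξ * conj w).re = 0 := by
    have h3 : ξ * conj w = ε * Complex.I := by
      rw [hξ]
      linear_combination (ε * Complex.I) * hww
    rw [h3]
    simp
  have hA0 : (N2_A G g p ξ 0).re = 0 := by
    unfold N2_A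
    rw [dr_zero h, Complex.ofReal_zero, zero_mul, h.E_zero, h1, hξw]
  have hB0 : (N2_B G g p ξ 0).re = 0 := by
    unfold N2_B
    rw [dr_zero h, Complex.ofReal_zero, zero_mul, h.E_zero, h2, hξw]
  have hmain := N2_conv hX h hl₁ hm hC₁ hg (fun y => hl.trans (hax.mn y)) p hξn hA0 hB0 hq
  rw [← hq₁e] at hmain
  refine ⟨s, q * ε, ?_, ?_⟩
  · rw [← hw, ← hp, hx]
    congr 1
    push_cast
    ring
  have hqε : |q * ε| = q := by rw [abs_mul, hε, mul_one, abs_of_nonneg hq]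
  rw [hqε]
  have hxe : x = G.E p ((q : ℂ) * ξ) := by rw [hξ]; exact hx
  have hn := al_norm hX h hg x
  have hle : (N2_B G g p ξ q).re - (N2_A G g p ξ q).re ≤ ‖al G g x - 1‖ := by
    have h3 : N2_B G g p ξ q - N2_A G g p ξ q =
        G.dr p ξ q * conj (-G.di x (g⁻¹ • x) - G.di x (g • x)) := by
      unfold N2_A N2_B
      rw [← hxe, map_sub]
      ring
    have hdd : G.di x (g • x) * conj (G.di x (g • x)) = 1 := by
      rw [Complex.mul_conj, Complex.normSq_eq_norm_sq, di_norm h hn.2.1]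
      norm_num
    have h4 : al G g x - 1 =
        (-G.di x (g⁻¹ • x) - G.di x (g • x)) * conj (G.di x (g • x)) := by
      unfold al
      linear_combination hdd
    rw [← Complex.sub_re, h4, norm_mul, RCLike.norm_conj, di_norm h hn.2.1, mul_one, h3]
    refine (Complex.re_le_norm _).trans ?_
    rw [norm_mul, h.dr_norm p ξ hξn, one_mul, RCLike.norm_conj]
  refine le_trans ?_ (hmain.trans hle)
  have h5 : min q₁ 1 * min q 1 ≤ min q q₁ := by
    have h6 : 0 ≤ min q₁ 1 := le_min hq₁.le zero_le_one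
    have h7 : 0 ≤ min q 1 := le_min hq zero_le_one
    refine le_min ?_ ?_
    · calc min q₁ 1 * min q 1 ≤ 1 * q := mul_le_mul (min_le_right _ _) (min_le_left _ _) h7 zero_le_one
        _ = q := one_mul q
    · calc min q₁ 1 * min q 1 ≤ q₁ * 1 := mul_le_mul (min_le_left _ _) (min_le_right _ _) h7 hq₁.le
        _ = q₁ := mul_one _
  have h8 : 0 ≤ 3 / 4 * m := by positivity
  calc 3 / 4 * m * min q₁ 1 * min q 1 = 3 / 4 * m * (min q₁ 1 * min q 1) := by ring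
    _ ≤ 3 / 4 * m * min q q₁ := mul_le_mul_of_nonneg_left h5 h8

end SR85
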