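import Pool.Agent.LibSR85.M1
import Pool.Agent.LibSR85.P4

/-! Row SR85 M2: two-point integrals. The invariance of the Liouville measure, integrated over the
time, is the symmetry of `J`.

PLAN of `two_point`: by `muS_lint` and Tonelli (`h` measurable) the left side is
`∫⁻ x, ρ x * ∫⁻ t in Ioi 0, ∫⁻ θ, H t (x, e^{iθ}) (phi t (x, e^{iθ}))`; for fixed `x` apply `polar`
to `f y = H (d x y) (x, di x y) (y, -di y x) / J x y` (zero at `y = x`): at `y = E x (t e^{iθ})`,
`t > 0`, `d x y = t`, `di x y = e^{iθ}`, `-di y x = dr x e^{iθ} t`, `J x y = B x e^{iθ} t > 0`.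
Measurability: `V` is continuous, `J` is continuous off the diagonal (`B_cont`) and zero on it (`B_diag`, `V_self`).
PLAN of `flow_int`: `two_point` for `H t p q = k t * F q`; swap `x` and `y` (`lintegral_lintegral_swap`),
`J_symm`, `d_symm`; `polar` at `y` and `circ_rot` with `w = -1`. -/

open MeasureTheory Set Filter Topology
open scoped ContDiff ENNReal NNReal ComplexConjugate

namespace SR85

open BGS (Pl Surface)

variable {Γ : Type} [Group Γ] [MulAction Γ Pl] {D : Set Pl} {G : Dat Γ}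

theorem J_meas (h : HG D G) : Measurable fun q : Pl × Pl => G.J q.1 q.2 := by
  have hΔ : IsClosed {q : Pl × Pl | q.1 = q.2} := isClosed_eq continuous_fst continuous_snd
  refine measurable_of_restrict_of_restrict_compl hΔ.measurableSet ?_ ?_
  · have h1 : ({q : Pl × Pl | q.1 = q.2}).domRestrict (fun q : Pl × Pl => G.J q.1 q.2) = fun _ => 0 := by
      funext q
      obtain ⟨⟨x, y⟩, hq⟩ := q
      have hxy : x = y := hq
      subst hxy
      show G.B x (un (G.V x x)) ‖G.V x x‖ = 0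
      rw [V_self h, norm_zero]
      unfold un
      rw [zero_div, h.B_diag]
    rw [h1]
    exact measurable_const
  · apply Continuous.measurable
    rw [← continuousOn_iff_continuous_domRestrict]
    have hV : ContinuousOn (fun q : Pl × Pl => G.V q.1 q.2) {q : Pl × Pl | q.1 = q.2}ᶜ :=
      h.V_cont.continuousOn
    have hn : ∀ q ∈ ({q : Pl × Pl | q.1 = q.2}ᶜ : Set (Pl × Pl)), ((‖G.V q.1 q.2‖ : ℝ) : ℂ) ≠ 0 := by
      intro q hq
      exact_mod_cast (d_pos h hq).ne'
    have hd : ContinuousOn (fun q : Pl × Pl => G.di q.1 q.2) {q : Pl × Pl | q.1 = q.2}ᶜ :=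
      hV.div (Complex.continuous_ofReal.comp_continuousOn hV.norm) hn
    exact h.B_cont.comp (continuous_fst.continuousOn.prodMk (hd.prodMk hV.norm))
      fun q hq => di_norm h hq

theorem di_meas (h : HG D G) : Measurable fun q : Pl × Pl => G.di q.1 q.2 := by
  have hV : Measurable fun q : Pl × Pl => G.V q.1 q.2 := h.V_cont.measurable
  exact hV.div (Complex.measurable_ofReal.comp hV.norm)

private theorem M2_meas (h : HG D G) {H : ℝ → Pl × ℂ → Pl × ℂ → ℝ≥0∞}
    (hH : Measurable fun q : ℝ × (Pl × ℂ) × (Pl × ℂ) => H q.1 q.2.1 q.2.2) :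
    Measurable fun q : Pl × Pl => H (G.d q.1 q.2) (q.1, G.di q.1 q.2) (q.2, -G.di q.2 q.1) *
      ENNReal.ofReal (1 / G.J q.1 q.2) := by
  have hd : Measurable fun q : Pl × Pl => G.d q.1 q.2 := h.V_cont.norm.measurable
  have hi := di_meas h
  have hi2 : Measurable fun q : Pl × Pl => -G.di q.2 q.1 := (hi.comp measurable_swap).neg
  have h1 : Measurable fun q : Pl × Pl =>
      ((G.d q.1 q.2, (q.1, G.di q.1 q.2), (q.2, -G.di q.2 q.1)) : ℝ × (Pl × ℂ) × (Pl × ℂ)) :=
    hd.prodMk ((measurable_fst.prodMk hi).prodMk (measurable_snd.prodMk hi2))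
  exact (hH.comp h1).mul ((J_meas h).const_div 1).ennreal_ofReal

private theorem M2_polar (h : HG D G) {H : ℝ → Pl × ℂ → Pl × ℂ → ℝ≥0∞}
    (hH : Measurable fun q : ℝ × (Pl × ℂ) × (Pl × ℂ) => H q.1 q.2.1 q.2.2) (x : Pl) :
    ∫⁻ t in Ioi (0 : ℝ), ∫⁻ θ in Ioc (-Real.pi) Real.pi,
      H t (x, Complex.exp ((θ : ℂ) * Complex.I)) (phi G t (x, Complex.exp ((θ : ℂ) * Complex.I))) =
    ∫⁻ y, H (G.d x y) (x, G.di x y) (y, -G.di y x) * ENNReal.ofReal (1 / G.J x y) *
        ENNReal.ofReal (G.rho y) := by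
  have hm : Measurable fun y => H (G.d x y) (x, G.di x y) (y, -G.di y x) *
      ENNReal.ofReal (1 / G.J x y) := (M2_meas h hH).comp measurable_prodMk_left
  rw [h.polar x _ hm]
  refine setLIntegral_congr_fun measurableSet_Ioi fun t ht => ?_
  have ht0 : 0 < t := ht
  refine lintegral_congr fun θ => ?_
  have hu : ‖Complex.exp ((θ : ℂ) * Complex.I)‖ = 1 := Complex.norm_exp_ofReal_mul_I θ
  have hB := B_pos h x hu ht0
  rw [d_E h x hu t, abs_of_pos ht0, di_E h x hu ht0, di_back h x hu ht0, J_E h x hu ht0, neg_neg,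
    mul_assoc, ← ENNReal.ofReal_mul (by positivity), one_div, inv_mul_cancel₀ hB.ne',
    ENNReal.ofReal_one, mul_one]
  rfl

theorem two_point (h : HG D G) {H : ℝ → Pl × ℂ → Pl × ℂ → ℝ≥0∞}
    (hH : Measurable fun q : ℝ × (Pl × ℂ) × (Pl × ℂ) => H q.1 q.2.1 q.2.2) :
    ∫⁻ t in Ioi (0 : ℝ), ∫⁻ p, H t p (phi G t p) ∂(muS G) =
      ∫⁻ x, (∫⁻ y, H (G.d x y) (x, G.di x y) (y, -G.di y x) * ENNReal.ofReal (1 / G.J x y) *
        ENNReal.ofReal (G.rho y)) * ENNReal.ofReal (G.rho x) := by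
  have hφ : Measurable fun q : ℝ × (Pl × ℂ) => phi G q.1 q.2 := (phi_cont h).measurable
  have hK : Measurable fun q : ℝ × (Pl × ℂ) => H q.1 q.2 (phi G q.1 q.2) :=
    hH.comp (measurable_fst.prodMk (measurable_snd.prodMk hφ))
  have hρ : Measurable fun z => ENNReal.ofReal (G.rho z) := h.rho_cont.measurable.ennreal_ofReal
  have h1 : ∀ t : ℝ, ∫⁻ p, H t p (phi G t p) ∂(muS G) =
      ∫⁻ x, (∫⁻ θ in Ioc (-Real.pi) Real.pi, H t (x, Complex.exp ((θ : ℂ) * Complex.I))
        (phi G t (x, Complex.exp ((θ : ℂ) * Complex.I)))) * ENNReal.ofReal (G.rho x) := by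
    intro t
    exact muS_lint h (F := fun p => H t p (phi G t p)) (hK.comp measurable_prodMk_left)
  have hm3 : Measurable fun q : (ℝ × Pl) × ℝ => H q.1.1 (q.1.2, Complex.exp ((q.2 : ℂ) * Complex.I))
      (phi G q.1.1 (q.1.2, Complex.exp ((q.2 : ℂ) * Complex.I))) := by
    have h2 : Measurable fun q : (ℝ × Pl) × ℝ =>
        ((q.1.1, (q.1.2, Complex.exp ((q.2 : ℂ) * Complex.I))) : ℝ × (Pl × ℂ)) := by fun_prop
    exact hK.comp h2
  have hm2 : Measurable fun q : ℝ × Pl => ∫⁻ θ in Ioc (-Real.pi) Real.pi,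
      H q.1 (q.2, Complex.exp ((θ : ℂ) * Complex.I))
        (phi G q.1 (q.2, Complex.exp ((θ : ℂ) * Complex.I))) := hm3.lintegral_prod_right'
  simp_rw [h1]
  rw [lintegral_lintegral_swap]
  · refine lintegral_congr fun x => ?_
    have hm4 : Measurable fun t : ℝ => ∫⁻ θ in Ioc (-Real.pi) Real.pi,
        H t (x, Complex.exp ((θ : ℂ) * Complex.I))
          (phi G t (x, Complex.exp ((θ : ℂ) * Complex.I))) := hm2.comp measurable_prodMk_right
    rw [lintegral_mul_const _ hm4, M2_polar h hH x]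
  · exact (hm2.mul (hρ.comp measurable_snd)).aemeasurable

theorem flow_int (h : HG D G) {k : ℝ → ℝ≥0∞} (hk : Measurable k) {F : Pl × ℂ → ℝ≥0∞}
    (hF : Measurable F) :
    ∫⁻ t in Ioi (0 : ℝ), k t * ∫⁻ p, F (phi G t p) ∂(muS G) =
      (∫⁻ t in Ioi (0 : ℝ), k t) * ∫⁻ p, F p ∂(muS G) := by
  have hφ : Measurable fun q : ℝ × (Pl × ℂ) => phi G q.1 q.2 := (phi_cont h).measurable
  have hρ : Measurable fun z => ENNReal.ofReal (G.rho z) := h.rho_cont.measurable.ennreal_ofReal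
  have hneg : Measurable fun p : Pl × ℂ => (p.1, -p.2) := measurable_fst.prodMk measurable_snd.neg
  have hH1 : Measurable fun q : ℝ × (Pl × ℂ) × (Pl × ℂ) => k q.1 * F q.2.2 :=
    (hk.comp measurable_fst).mul (hF.comp (measurable_snd.comp measurable_snd))
  have hH2 : Measurable fun q : ℝ × (Pl × ℂ) × (Pl × ℂ) => k q.1 * F (q.2.1.1, -q.2.1.2) :=
    (hk.comp measurable_fst).mul ((hF.comp hneg).comp (measurable_fst.comp measurable_snd))
  have e1 : ∫⁻ t in Ioi (0 : ℝ), k t * ∫⁻ p, F (phi G t p) ∂(muS G) =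
      ∫⁻ x, (∫⁻ y, k (G.d x y) * F (y, -G.di y x) * ENNReal.ofReal (1 / G.J x y) *
        ENNReal.ofReal (G.rho y)) * ENNReal.ofReal (G.rho x) := by
    rw [← two_point h (H := fun t _ q => k t * F q) hH1]
    refine lintegral_congr fun t => ?_
    have hm4 : Measurable fun p => F (phi G t p) := hF.comp (hφ.comp measurable_prodMk_left)
    rw [lintegral_const_mul _ hm4]
  have e2 : ∫⁻ t in Ioi (0 : ℝ), k t * ∫⁻ p, F (p.1, -p.2) ∂(muS G) =
      ∫⁻ x, (∫⁻ y, k (G.d x y) * F (x, -G.di x y) * ENNReal.ofReal (1 / G.J x y) *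
        ENNReal.ofReal (G.rho y)) * ENNReal.ofReal (G.rho x) := by
    rw [← two_point h (H := fun t p _ => k t * F (p.1, -p.2)) hH2]
    refine lintegral_congr fun t => ?_
    have hm4 : Measurable fun p : Pl × ℂ => F (p.1, -p.2) := hF.comp hneg
    rw [lintegral_const_mul _ hm4]
  have e3 : ∫⁻ p, F (p.1, -p.2) ∂(muS G) = ∫⁻ p, F p ∂(muS G) := by
    rw [muS_lint h (F := fun p => F (p.1, -p.2)) (hF.comp hneg), muS_lint h hF]
    refine lintegral_congr fun x => ?_
    congr 1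
    have h1 := circ_rot (fun v => F (x, v)) (w := -1) (by rw [norm_neg, norm_one])
    rw [← h1]
    refine lintegral_congr fun θ => ?_
    show F (x, -Complex.exp ((θ : ℂ) * Complex.I)) = F (x, -1 * Complex.exp ((θ : ℂ) * Complex.I))
    rw [neg_one_mul]
  have hmm : Measurable fun q : Pl × Pl => k (G.d q.1 q.2) * F (q.2, -G.di q.2 q.1) *
      ENNReal.ofReal (1 / G.J q.1 q.2) :=
    M2_meas h (H := fun t _ q => k t * F q) hH1
  have e4 : ∫⁻ x, (∫⁻ y, k (G.d x y) * F (y, -G.di y x) * ENNReal.ofReal (1 / G.J x y) *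
        ENNReal.ofReal (G.rho y)) * ENNReal.ofReal (G.rho x) =
      ∫⁻ x, (∫⁻ y, k (G.d x y) * F (x, -G.di x y) * ENNReal.ofReal (1 / G.J x y) *
        ENNReal.ofReal (G.rho y)) * ENNReal.ofReal (G.rho x) := by
    have f1 : ∀ x, (∫⁻ y, k (G.d x y) * F (y, -G.di y x) * ENNReal.ofReal (1 / G.J x y) *
        ENNReal.ofReal (G.rho y)) * ENNReal.ofReal (G.rho x) =
        ∫⁻ y, k (G.d x y) * F (y, -G.di y x) * ENNReal.ofReal (1 / G.J x y) *
        ENNReal.ofReal (G.rho y) * ENNReal.ofReal (G.rho x) := by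
      intro x
      have hm4 : Measurable fun y => k (G.d x y) * F (y, -G.di y x) * ENNReal.ofReal (1 / G.J x y) *
        ENNReal.ofReal (G.rho y) := (hmm.comp measurable_prodMk_left).mul hρ
      rw [lintegral_mul_const _ hm4]
    simp_rw [f1]
    rw [lintegral_lintegral_swap]
    · refine lintegral_congr fun y => ?_
      have f2 : ∀ x, k (G.d x y) * F (y, -G.di y x) * ENNReal.ofReal (1 / G.J x y) *
        ENNReal.ofReal (G.rho y) * ENNReal.ofReal (G.rho x) =
        k (G.d y x) * F (y, -G.di y x) * ENNReal.ofReal (1 / G.J y x) *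
        ENNReal.ofReal (G.rho x) * ENNReal.ofReal (G.rho y) := by
        intro x
        rw [h.d_symm x y, J_symm h x y]
        ring
      simp_rw [f2]
      have hmm2 : Measurable fun q : Pl × Pl => k (G.d q.1 q.2) * F (q.1, -G.di q.1 q.2) *
          ENNReal.ofReal (1 / G.J q.1 q.2) :=
        M2_meas h (H := fun t p _ => k t * F (p.1, -p.2)) hH2
      have hm4 : Measurable fun x => k (G.d y x) * F (y, -G.di y x) * ENNReal.ofReal (1 / G.J y x) *
        ENNReal.ofReal (G.rho x) := (hmm2.comp measurable_prodMk_left).mul hρ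
      rw [lintegral_mul_const _ hm4]
    · exact ((hmm.mul (hρ.comp measurable_snd)).mul (hρ.comp measurable_fst)).aemeasurable
  have e5 : ∫⁻ t in Ioi (0 : ℝ), k t * ∫⁻ p, F (p.1, -p.2) ∂(muS G) =
      (∫⁻ t in Ioi (0 : ℝ), k t) * ∫⁻ p, F (p.1, -p.2) ∂(muS G) :=
    lintegral_mul_const _ hk
  rw [e1, e4, ← e2, e5, e3]

end SR85
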