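import Mathlib

/-! Row SR85 L1 (only Mathlib): measures of sets of angles.

PLAN. `circ_lip`: on each of the two halves of `(-π, π]` the map `ϑ ↦ exp (ϑ I)` satisfies
`|ϑ - ϑ'| ≤ (π / 2) ‖exp (ϑ I) - exp (ϑ' I)‖`, so `θ ↦ arg (h θ)` is `(π / 2) Λ`-Lipschitz on the
two corresponding pieces of `N`; use the Hausdorff measure of dimension one. `circ_cone`:
`w = exp (α I)`; `‖exp (ϑ I) - exp (α I)‖ = 2 |sin ((ϑ - α) / 2)|`, three intervals. -/

open MeasureTheory Set Filter Topology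
open scoped ENNReal

namespace SR85

private theorem l1_norm (a b : ℝ) :
    ‖Complex.exp ((a : ℂ) * Complex.I) - Complex.exp ((b : ℂ) * Complex.I)‖ =
      2 * |Real.sin ((a - b) / 2)| := by
  have h1 : Complex.exp ((a : ℂ) * Complex.I) - Complex.exp ((b : ℂ) * Complex.I) =
      Complex.exp ((b : ℂ) * Complex.I) *
        (Complex.exp (Complex.I * ((a - b : ℝ) : ℂ)) - 1) := by
    rw [mul_sub, ← Complex.exp_add, mul_one]
    congr 2
    push_cast
    ring
  rw [h1, norm_mul, Complex.norm_exp_ofReal_mul_I, one_mul,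
    Complex.norm_exp_I_mul_ofReal_sub_one, Real.norm_eq_abs, abs_mul, abs_two]

private theorem l1_sin {x : ℝ} (hx : |x| ≤ Real.pi / 2) : 2 / Real.pi * |x| ≤ |Real.sin x| := by
  have h1 := Real.mul_le_sin (abs_nonneg x) hx
  refine h1.trans ?_
  rcases abs_cases x with h | h
  · rw [h.1]
    exact le_abs_self _
  · rw [h.1, Real.sin_neg]
    exact neg_le_abs _

private theorem l1_sin' {x : ℝ} (hx : |x| ≤ Real.pi) (hx' : Real.pi / 2 ≤ |x|) :
    2 / Real.pi * (Real.pi - |x|) ≤ |Real.sin x| := by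
  have h1 := Real.mul_le_sin (x := Real.pi - |x|) (by linarith) (by linarith)
  refine h1.trans ?_
  rw [Real.sin_pi_sub]
  rcases abs_cases x with h | h
  · rw [h.1]
    exact le_abs_self _
  · rw [h.1, Real.sin_neg]
    exact neg_le_abs _

theorem circ_cone {w : ℂ} (hw : ‖w‖ = 1) {ε : ℝ} (hε : 0 ≤ ε) :
    volume {ϑ : ℝ | ϑ ∈ Ioc (-Real.pi) Real.pi ∧
      ‖Complex.exp ((ϑ : ℂ) * Complex.I) - w‖ ≤ ε} ≤ ENNReal.ofReal (8 * ε) := by
  obtain ⟨α, hα, hα', rfl⟩ : ∃ α : ℝ, -Real.pi < α ∧ α ≤ Real.pi ∧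
      w = Complex.exp ((α : ℂ) * Complex.I) := by
    refine ⟨Complex.arg w, Complex.neg_pi_lt_arg w, Complex.arg_le_pi w, ?_⟩
    have := Complex.norm_mul_exp_arg_mul_I w
    rw [hw] at this
    simpa using this.symm
  have hπ := Real.pi_pos
  have hπ4 := Real.pi_le_four
  set c : ℝ := Real.pi * ε / 2 with hc
  have hc0 : 0 ≤ c := by positivity
  have hsub : {ϑ : ℝ | ϑ ∈ Ioc (-Real.pi) Real.pi ∧
      ‖Complex.exp ((ϑ : ℂ) * Complex.I) - Complex.exp ((α : ℂ) * Complex.I)‖ ≤ ε} ⊆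
      (Icc (α - c) (α + c) ∪ Icc (α + 2 * Real.pi - c) Real.pi) ∪
        Icc (-Real.pi) (α - 2 * Real.pi + c) := by
    rintro ϑ ⟨⟨h1, h2⟩, h3⟩
    rw [l1_norm] at h3
    have key : ∀ t : ℝ, 2 / Real.pi * t ≤ ε / 2 → 2 * t ≤ c := by
      intro t ht
      rw [div_mul_eq_mul_div, div_le_iff₀ hπ] at ht
      rw [hc]
      linarith
    have habs : |(ϑ - α) / 2| = |ϑ - α| / 2 := by
      rw [abs_div, abs_two]
    rcases le_total |(ϑ - α) / 2| (Real.pi / 2) with h4 | h4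
    · have h5 := l1_sin h4
      have h6 := key _ (h5.trans (by linarith))
      rw [habs] at h6
      left; left
      have h7 : |ϑ - α| ≤ c := by linarith
      rw [abs_le] at h7
      exact ⟨by linarith [h7.1], by linarith [h7.2]⟩
    · have h4' : |(ϑ - α) / 2| ≤ Real.pi := by
        rw [habs]
        have : |ϑ - α| ≤ 2 * Real.pi := abs_le.2 ⟨by linarith, by linarith⟩
        linarith
      have h5 := l1_sin' h4' h4
      have h6 := key _ (h5.trans (by linarith))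
      rw [habs] at h6
      rcases abs_cases (ϑ - α) with h | h
      · left; right
        rw [h.1] at h6
        exact ⟨by linarith, h2⟩
      · right
        rw [h.1] at h6
        exact ⟨h1.le, by linarith⟩
  calc volume {ϑ : ℝ | ϑ ∈ Ioc (-Real.pi) Real.pi ∧
      ‖Complex.exp ((ϑ : ℂ) * Complex.I) - Complex.exp ((α : ℂ) * Complex.I)‖ ≤ ε}
      ≤ volume ((Icc (α - c) (α + c) ∪ Icc (α + 2 * Real.pi - c) Real.pi) ∪
        Icc (-Real.pi) (α - 2 * Real.pi + c)) := measure_mono hsub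
    _ ≤ volume (Icc (α - c) (α + c)) + volume (Icc (α + 2 * Real.pi - c) Real.pi) +
        volume (Icc (-Real.pi) (α - 2 * Real.pi + c)) :=
        (measure_union_le _ _).trans (add_le_add_left (measure_union_le _ _) _)
    _ ≤ ENNReal.ofReal (2 * c) + ENNReal.ofReal c + ENNReal.ofReal c := by
        rw [Real.volume_Icc, Real.volume_Icc, Real.volume_Icc]
        gcongr
        · linarith
        · linarith
        · linarith
    _ = ENNReal.ofReal (2 * c + c + c) := by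
        rw [ENNReal.ofReal_add (by positivity) hc0, ENNReal.ofReal_add (by positivity) hc0]
    _ ≤ ENNReal.ofReal (8 * ε) := by
        apply ENNReal.ofReal_le_ofReal
        rw [hc]
        nlinarith

private theorem l1_half {a b : ℝ} (h : |a - b| ≤ Real.pi) :
    |a - b| ≤ Real.pi / 2 *
      ‖Complex.exp ((a : ℂ) * Complex.I) - Complex.exp ((b : ℂ) * Complex.I)‖ := by
  have hπ := Real.pi_pos
  rw [l1_norm]
  have habs : |(a - b) / 2| = |a - b| / 2 := by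
    rw [abs_div, abs_two]
  have h1 := l1_sin (x := (a - b) / 2) (by rw [habs]; linarith)
  rw [habs, div_mul_eq_mul_div, div_le_iff₀ hπ] at h1
  linarith

private theorem l1_piece (h : ℝ → ℂ) (N : Set ℝ) {Λ : ℝ} (hΛ : 0 ≤ Λ)
    (hl : ∀ θ ∈ N, ∀ θ' ∈ N, ‖h θ - h θ'‖ ≤ Λ * |θ - θ'|) (P : Set ℝ)
    (hP : ∀ a ∈ P, ∀ b ∈ P, |a - b| ≤ Real.pi) (hP' : P ⊆ Ioc (-Real.pi) Real.pi) :
    volume {ϑ : ℝ | ϑ ∈ P ∧
      ∃ θ ∈ N, Complex.exp ((ϑ : ℂ) * Complex.I) = h θ} ≤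
        ENNReal.ofReal (2 * Λ) * volume N := by
  have hπ := Real.pi_pos
  have hπ4 := Real.pi_le_four
  set N' : Set ℝ := {θ | θ ∈ N ∧ Complex.arg (h θ) ∈ P ∧ ‖h θ‖ = 1} with hN'
  have hL : LipschitzOnWith (Real.toNNReal (2 * Λ)) (fun θ => Complex.arg (h θ)) N' := by
    apply LipschitzOnWith.of_dist_le_mul
    rintro θ ⟨h1, h2, h2'⟩ θ' ⟨h3, h4, h4'⟩
    rw [Real.dist_eq, Real.dist_eq, Real.coe_toNNReal _ (by positivity)]
    have e1 : Complex.exp ((Complex.arg (h θ) : ℂ) * Complex.I) = h θ := by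
      have := Complex.norm_mul_exp_arg_mul_I (h θ)
      rw [h2'] at this
      simpa using this
    have e2 : Complex.exp ((Complex.arg (h θ') : ℂ) * Complex.I) = h θ' := by
      have := Complex.norm_mul_exp_arg_mul_I (h θ')
      rw [h4'] at this
      simpa using this
    have h5 := l1_half (hP _ h2 _ h4)
    rw [e1, e2] at h5
    have h6 := hl θ h1 θ' h3
    calc |Complex.arg (h θ) - Complex.arg (h θ')| ≤ Real.pi / 2 * ‖h θ - h θ'‖ := h5
      _ ≤ 2 * (Λ * |θ - θ'|) := by gcongr; linarith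
      _ = 2 * Λ * |θ - θ'| := by ring
  have h1 := hL.hausdorffMeasure_image_le (d := 1) zero_le_one
  rw [hausdorffMeasure_real, ENNReal.rpow_one] at h1
  calc volume {ϑ : ℝ | ϑ ∈ P ∧ ∃ θ ∈ N, Complex.exp ((ϑ : ℂ) * Complex.I) = h θ}
      ≤ volume ((fun θ => Complex.arg (h θ)) '' N') := by
        apply measure_mono
        rintro ϑ ⟨h2, θ, h3, h4⟩
        have h5 : Complex.arg (h θ) = ϑ := by
          rw [← h4, Complex.arg_exp_mul_I, toIocMod_eq_self]
          have := hP' h2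
          rw [show -Real.pi + 2 * Real.pi = Real.pi by ring]
          exact this
        refine ⟨θ, ⟨h3, ?_, ?_⟩, h5⟩
        · rw [h5]; exact h2
        · rw [← h4, Complex.norm_exp_ofReal_mul_I]
    _ ≤ (Real.toNNReal (2 * Λ) : ℝ≥0∞) * volume N' := h1
    _ ≤ ENNReal.ofReal (2 * Λ) * volume N := by
        gcongr
        · exact le_rfl
        · exact fun θ hθ => hθ.1

theorem circ_lip (h : ℝ → ℂ) (N : Set ℝ) {Λ : ℝ} (hΛ : 0 ≤ Λ) (hh : ∀ θ ∈ N, ‖h θ‖ = 1)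
    (hl : ∀ θ ∈ N, ∀ θ' ∈ N, ‖h θ - h θ'‖ ≤ Λ * |θ - θ'|) :
    volume {ϑ : ℝ | ϑ ∈ Ioc (-Real.pi) Real.pi ∧
      ∃ θ ∈ N, Complex.exp ((ϑ : ℂ) * Complex.I) = h θ} ≤ ENNReal.ofReal (8 * Λ) * volume N := by
  have hπ := Real.pi_pos
  have h1 := l1_piece h N hΛ hl (Ioc (-Real.pi) 0)
    (by
      rintro a ⟨ha, ha'⟩ b ⟨hb, hb'⟩
      exact abs_le.2 ⟨by linarith, by linarith⟩)
    (by
      rintro a ⟨ha, ha'⟩
      exact ⟨ha, by linarith⟩)
  have h2 := l1_piece h N hΛ hl (Ioc 0 Real.pi)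
    (by
      rintro a ⟨ha, ha'⟩ b ⟨hb, hb'⟩
      exact abs_le.2 ⟨by linarith, by linarith⟩)
    (by
      rintro a ⟨ha, ha'⟩
      exact ⟨by linarith, ha'⟩)
  calc volume {ϑ : ℝ | ϑ ∈ Ioc (-Real.pi) Real.pi ∧
      ∃ θ ∈ N, Complex.exp ((ϑ : ℂ) * Complex.I) = h θ}
      ≤ volume ({ϑ : ℝ | ϑ ∈ Ioc (-Real.pi) 0 ∧
          ∃ θ ∈ N, Complex.exp ((ϑ : ℂ) * Complex.I) = h θ} ∪
          {ϑ : ℝ | ϑ ∈ Ioc 0 Real.pi ∧
          ∃ θ ∈ N, Complex.exp ((ϑ : ℂ) * Complex.I) = h θ}) := by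
        apply measure_mono
        rintro ϑ ⟨⟨h3, h4⟩, h5⟩
        rcases le_or_gt ϑ 0 with h6 | h6
        · exact Or.inl ⟨⟨h3, h6⟩, h5⟩
        · exact Or.inr ⟨⟨h6, h4⟩, h5⟩
    _ ≤ ENNReal.ofReal (2 * Λ) * volume N + ENNReal.ofReal (2 * Λ) * volume N :=
        (measure_union_le _ _).trans (add_le_add h1 h2)
    _ = ENNReal.ofReal (4 * Λ) * volume N := by
        rw [← add_mul, ← ENNReal.ofReal_add (by positivity) (by positivity)]
        congr 2
        ring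
    _ ≤ ENNReal.ofReal (8 * Λ) * volume N := by
        gcongr
        linarith

end SR85
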