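import Pool.Agent.LibSR85.N6

/-! Row SR85 N7: the axis is unique, and `tr P - 2` is constant along it and a class function.

PLAN of `ax_unique`: `l = l'` as both are the minimum (`mn`, attained on the axes by `al_axis`). A
point `E c' (s u')` has `al = 1` (`al_axis`), so by `localise` (with `l₁ = l`) it is some `E c (σ u)`; `s ↦ σ` is an isometry of the line
(`d_geo`), continuous, hence `σ s = s₀ + s` or `s₀ - s`; the second is impossible as `g` translates by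
`l` in both. PLAN of `Dax_const`: for `p = E c (s u)`, `w = dr c u s`, the Jacobi solutions
`A_s, B_s` of `y'' = -k (s + ·) y`, `k τ = K (E c (τ u))`, periodic: `k (τ + l) = k τ` (`tr`, `K_smul`).
`A_s l = J p (g p) U (g p) p` (`J_tr`), `B_s' l = Bd = J p (g p) U p (g p)`, so
`Dax + 2 = tr M_s`, `M_s` the monodromy matrix of the interval `[s, s + l]`, and
`M_s T = T M_0` with `T` the transport matrix from `0` to `s` (which is also that from `l` to `s + l`);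
`det T = 1`. (Or: the derivative in `s` of `A_s(l) + B_s'(l)` is zero.) PLAN of `ax_conj`:
`x ↦ h • x`: `E (h c) (R h c * (s u)) = h • E c (s u)`; `Dax_conj`: `J_smul`, `U_smul`.
PLAN of `Dax_low`: `U_low'`, `J_low`: `J (U + U') ≥ 2 cosh (a l)`. -/

open MeasureTheory Set Filter Topology
open scoped ContDiff ENNReal NNReal ComplexConjugate

namespace SR85

open BGS (Pl Surface)

variable {Γ : Type} [Group Γ] [MulAction Γ Pl] {D : Set Pl} {G : Dat Γ}

/-- The reversed Jacobi field on the axis. -/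
private theorem N7_rev (h : HG D G) (x : Pl) {u : ℂ} (hu : ‖u‖ = 1) (t : ℝ) :
    Jac (fun τ : ℝ => G.K (G.E x ((τ : ℂ) * u)))
      (fun τ => G.B (G.E x ((t : ℂ) * u)) (-G.dr x u t) (t - τ))
      (fun τ => -G.Bd (G.E x ((t : ℂ) * u)) (-G.dr x u t) (t - τ)) := by
  have hw : ‖-G.dr x u t‖ = 1 := by rw [norm_neg, h.dr_norm x u hu t]
  constructor
  · intro τ
    have h1 := h.B_der (G.E x ((t : ℂ) * u)) (-G.dr x u t) hw (t - τ)
    exact h1.comp_const_sub t τ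
  · intro τ
    have h1 := h.Bd_der (G.E x ((t : ℂ) * u)) (-G.dr x u t) hw (t - τ)
    have h2 := (h1.comp_const_sub t τ).neg
    rw [E_rev h x hu] at h2
    have h3 : t - (t - τ) = τ := by ring
    rw [h3] at h2
    refine h2.congr_deriv ?_
    ring

/-- The Jacobi field from the point `t` of the axis. -/
private theorem N7_fwd (h : HG D G) (x : Pl) {u : ℂ} (hu : ‖u‖ = 1) (t : ℝ) :
    Jac (fun τ : ℝ => G.K (G.E x ((τ : ℂ) * u)))
      (fun τ => G.B (G.E x ((t : ℂ) * u)) (G.dr x u t) (τ - t))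
      (fun τ => G.Bd (G.E x ((t : ℂ) * u)) (G.dr x u t) (τ - t)) := by
  have hw : ‖G.dr x u t‖ = 1 := h.dr_norm x u hu t
  constructor
  · intro τ
    have h1 := h.B_der (G.E x ((t : ℂ) * u)) (G.dr x u t) hw (τ - t)
    exact h1.comp_sub_const τ t
  · intro τ
    have h1 := h.Bd_der (G.E x ((t : ℂ) * u)) (G.dr x u t) hw (τ - t)
    have h2 := h1.comp_sub_const τ t
    rw [h.flow x u hu] at h2
    have h3 : t + (τ - t) = τ := by ring
    rw [h3] at h2
    exact h2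

/-- The Wronskian is constant. -/
private theorem N7_wr {k y y' f f' : ℝ → ℝ} (hy : Jac k y y') (hf : Jac k f f') (s t : ℝ) :
    f' s * y s - f s * y' s = f' t * y t - f t * y' t := by
  have h1 : ∀ τ, HasDerivAt (fun τ => f' τ * y τ - f τ * y' τ) 0 τ := by
    intro τ
    refine (((hf.d2 τ).mul (hy.d1 τ)).sub ((hf.d1 τ).mul (hy.d2 τ))).congr_deriv ?_
    ring
  exact is_const_of_deriv_eq_zero (fun τ => (h1 τ).differentiableAt) (fun τ => (h1 τ).deriv) s t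

private theorem N7_pt (h : HG D G) {g : Γ} {c : Pl} {u : ℂ} {l : ℝ} (ha : Ax G g c u l) (s : ℝ) :
    G.E c ((s : ℂ) * u) ≠ G.E c (((s + l : ℝ) : ℂ) * u) := by
  intro he
  have h1 := d_geo h c ha.nu s (s + l)
  rw [← he, d_self h] at h1
  have h2 := ha.pos
  rw [add_sub_cancel_left, abs_of_pos h2] at h1
  linarith

private theorem N7_E0 (h : HG D G) (c : Pl) (u : ℂ) : G.E c (((0 : ℝ) : ℂ) * u) = c := by
  rw [Complex.ofReal_zero, zero_mul, h.E_zero]

/-- The trace in terms of the two fields. -/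
private theorem N7_tr (h : HG D G) {g : Γ} {c : Pl} {u : ℂ} {l : ℝ} (ha : Ax G g c u l) (s : ℝ) :
    Dax G g (G.E c ((s : ℂ) * u)) + 2 =
      G.Bd (G.E c ((s : ℂ) * u)) (G.dr c u s) l +
        G.Bd (G.E c (((s + l : ℝ) : ℂ) * u)) (-G.dr c u (s + l)) l := by
  have hw : ‖G.dr c u s‖ = 1 := h.dr_norm c u ha.nu s
  have hw' : ‖-G.dr c u (s + l)‖ = 1 := by rw [norm_neg, h.dr_norm c u ha.nu]
  have hl := ha.pos
  have e1 : G.E (G.E c ((s : ℂ) * u)) ((l : ℂ) * G.dr c u s) = G.E c (((s + l : ℝ) : ℂ) * u) :=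
    h.flow c u ha.nu s l
  have e2 : G.E (G.E c (((s + l : ℝ) : ℂ) * u)) ((l : ℂ) * (-G.dr c u (s + l))) =
      G.E c ((s : ℂ) * u) := by
    rw [E_rev h c ha.nu, add_sub_cancel_right]
  have j1 := J_E h (G.E c ((s : ℂ) * u)) hw hl
  have u1 := U_E h (G.E c ((s : ℂ) * u)) hw hl
  have b1 := B_pos h (G.E c ((s : ℂ) * u)) hw hl
  have j2 := J_E h (G.E c (((s + l : ℝ) : ℂ) * u)) hw' hl
  have u2 := U_E h (G.E c (((s + l : ℝ) : ℂ) * u)) hw' hl
  have b2 := B_pos h (G.E c (((s + l : ℝ) : ℂ) * u)) hw' hl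
  rw [e1] at j1 u1
  rw [e2] at j2 u2
  have hs := J_symm h (G.E c ((s : ℂ) * u)) (G.E c (((s + l : ℝ) : ℂ) * u))
  unfold Dax
  rw [ha.tr s, mul_add, sub_add_cancel]
  congr 1
  · rw [j1, u1, mul_div_cancel₀ _ b1.ne']
  · rw [hs, j2, u2, mul_div_cancel₀ _ b2.ne']

theorem ax_unique (hX : Surface Γ D) (h : HG D G) {g : Γ} {c c' : Pl} {u u' : ℂ} {l l' : ℝ}
    (ha : Ax G g c u l) (ha' : Ax G g c' u' l') :
    l = l' ∧ ∃ s₀ : ℝ, ∀ s : ℝ, G.E c' ((s : ℂ) * u') = G.E c (((s + s₀ : ℝ) : ℂ) * u) := by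
  have hll : ∀ {c₁ c₂ : Pl} {u₁ u₂ : ℂ} {l₁ l₂ : ℝ}, Ax G g c₁ u₁ l₁ → Ax G g c₂ u₂ l₂ →
      l₁ ≤ l₂ := by
    intro c₁ c₂ u₁ u₂ l₁ l₂ h1 h2
    have h3 := h1.mn (G.E c₂ (((0 : ℝ) : ℂ) * u₂))
    rw [h2.tr 0, d_geo h c₂ h2.nu, zero_add, sub_zero, abs_of_pos h2.pos] at h3
    exact h3
  have hl : l = l' := le_antisymm (hll ha ha') (hll ha' ha)
  refine ⟨hl, ?_⟩
  obtain ⟨C, hC, hloc⟩ := localise hX h ha.pos
  have key : ∀ s : ℝ, ∃ σ : ℝ, G.E c' ((s : ℂ) * u') = G.E c ((σ : ℂ) * u) := by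
    intro s
    obtain ⟨σ, q, h1, h2⟩ := hloc g c u l ha le_rfl (G.E c' ((s : ℂ) * u'))
    rw [(al_axis h ha' s).1, sub_self, norm_zero] at h2
    have h3 : min |q| 1 ≤ 0 := by
      by_contra hcon
      push Not at hcon
      have := mul_pos hC hcon
      linarith
    have h4 : |q| ≤ 0 := by
      rcases min_le_iff.1 h3 with h5 | h5
      · exact h5
      · linarith
    have h5 : q = 0 := abs_eq_zero.1 (le_antisymm h4 (abs_nonneg q))
    rw [h5, Complex.ofReal_zero, zero_mul, h.E_zero] at h1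
    exact ⟨σ, h1⟩
  choose σ hσ using key
  have hiso : ∀ s t : ℝ, |σ t - σ s| = |t - s| := by
    intro s t
    rw [← d_geo h c ha.nu (σ s) (σ t), ← hσ, ← hσ, d_geo h c' ha'.nu]
  have hsh : σ l = σ 0 + l := by
    have h1 := ha'.tr 0
    rw [← hl, zero_add, hσ 0, hσ l, ha.tr] at h1
    have h2 := d_geo h c ha.nu (σ l) (σ 0 + l)
    rw [← h1, d_self h] at h2
    have h3 := abs_eq_zero.1 h2.symm
    linarith
  refine ⟨σ 0, ?_⟩
  intro s
  have h1 := hiso 0 s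
  have h2 := hiso l s
  rw [sub_zero] at h1
  rw [hsh] at h2
  have h3 : (σ s - σ 0) ^ 2 = s ^ 2 := by rw [← sq_abs, h1, sq_abs]
  have h4 : (σ s - (σ 0 + l)) ^ 2 = (s - l) ^ 2 := by rw [← sq_abs, h2, sq_abs]
  have h5 : l * (σ s - σ 0 - s) = 0 := by nlinarith
  have h6 : σ s - σ 0 - s = 0 := by
    rcases mul_eq_zero.1 h5 with h7 | h7
    · exact absurd h7 ha.pos.ne'
    · exact h7
  rw [hσ s]
  congr 2
  rw [show s + σ 0 = σ s by linarith]

theorem Dax_const (hX : Surface Γ D) (h : HG D G) {g : Γ} {c : Pl} {u : ℂ} {l : ℝ}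
    (ha : Ax G g c u l) (s : ℝ) : Dax G g (G.E c ((s : ℂ) * u)) = Dax G g c := by
  have hu := ha.nu
  set k : ℝ → ℝ := fun τ : ℝ => G.K (G.E c ((τ : ℂ) * u)) with hk
  have hper : ∀ τ, k (τ + l) = k τ := by
    intro τ
    show G.K (G.E c (((τ + l : ℝ) : ℂ) * u)) = G.K (G.E c ((τ : ℂ) * u))
    rw [← ha.tr τ, h.K_smul]
  -- two independent solutions
  obtain ⟨f, hf⟩ : ∃ f, f = fun τ : ℝ => G.B (G.E c (((0 : ℝ) : ℂ) * u)) (G.dr c u 0) (τ - 0) :=
    ⟨_, rfl⟩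
  obtain ⟨f', hf'⟩ : ∃ f', f' = fun τ : ℝ =>
    G.Bd (G.E c (((0 : ℝ) : ℂ) * u)) (G.dr c u 0) (τ - 0) := ⟨_, rfl⟩
  obtain ⟨y, hy⟩ : ∃ y, y = fun τ : ℝ =>
    G.B (G.E c (((-1 : ℝ) : ℂ) * u)) (G.dr c u (-1)) (τ - (-1)) := ⟨_, rfl⟩
  obtain ⟨y', hy'⟩ : ∃ y', y' = fun τ : ℝ =>
    G.Bd (G.E c (((-1 : ℝ) : ℂ) * u)) (G.dr c u (-1)) (τ - (-1)) := ⟨_, rfl⟩
  have Jf : Jac k f f' := by rw [hf, hf']; exact N7_fwd h c hu 0
  have Jy : Jac k y y' := by rw [hy, hy']; exact N7_fwd h c hu (-1)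
  have f0 : f 0 = 0 := by
    rw [hf]
    simp only [sub_zero]
    exact h.B_zero _ _ (h.dr_norm c u hu 0)
  have f1 : f' 0 = 1 := by
    rw [hf']
    simp only [sub_zero]
    exact h.Bd_zero _ _ (h.dr_norm c u hu 0)
  have y0 : 0 < y 0 := by
    rw [hy]
    simp only [zero_sub, neg_neg]
    exact B_pos h _ (h.dr_norm c u hu (-1)) one_pos
  have hW : ∀ τ, f' τ * y τ - f τ * y' τ = y 0 := by
    intro τ
    rw [N7_wr Jy Jf τ 0, f0, f1]
    ring
  -- the trace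
  have htr : ∀ s : ℝ, y 0 * (Dax G g (G.E c ((s : ℂ) * u)) + 2) =
      -(f s * y' (s + l) - y s * f' (s + l)) - (f (s + l) * y' s - y (s + l) * f' s) := by
    intro s
    have hw : ‖G.dr c u s‖ = 1 := h.dr_norm c u hu s
    have hw' : ‖-G.dr c u (s + l)‖ = 1 := by rw [norm_neg, h.dr_norm c u hu]
    rw [N7_tr h ha s]
    obtain ⟨α, hα⟩ : ∃ α, α = G.Bd (G.E c ((s : ℂ) * u)) (G.dr c u s) l := ⟨_, rfl⟩
    obtain ⟨β, hβ⟩ : ∃ β, β = G.Bd (G.E c (((s + l : ℝ) : ℂ) * u)) (-G.dr c u (s + l)) l :=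
      ⟨_, rfl⟩
    have a1 := N7_wr (N7_fwd h c hu s) Jf s (s + l)
    have a2 := N7_wr (N7_fwd h c hu s) Jy s (s + l)
    simp only [sub_self, add_sub_cancel_left] at a1 a2
    rw [h.B_zero _ _ hw, h.Bd_zero _ _ hw, ← hα] at a1 a2
    have b1 := N7_wr (N7_rev h c hu (s + l)) Jf s (s + l)
    have b2 := N7_wr (N7_rev h c hu (s + l)) Jy s (s + l)
    simp only [sub_self, add_sub_cancel_left] at b1 b2
    rw [h.B_zero _ _ hw', h.Bd_zero _ _ hw', ← hβ] at b1 b2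
    rw [← hα, ← hβ]
    have w1 := hW (s + l)
    have w2 := hW s
    set P := G.B (G.E c ((s : ℂ) * u)) (G.dr c u s) l
    set Q := G.B (G.E c (((s + l : ℝ) : ℂ) * u)) (-G.dr c u (s + l)) l
    have c1 : y 0 * α = -(f s * y' (s + l) - y s * f' (s + l)) := by
      rw [← w1]
      linear_combination (f' (s + l)) * a2 - (y' (s + l)) * a1
    have c2 : y 0 * β = -(f (s + l) * y' s - y (s + l) * f' s) := by
      rw [← w2]
      linear_combination (f' s) * b2 - (y' s) * b1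
    linear_combination c1 + c2
  -- it is constant
  have hconst : ∀ s : ℝ, HasDerivAt (fun s => -(f s * y' (s + l) - y s * f' (s + l)) -
      (f (s + l) * y' s - y (s + l) * f' s)) 0 s := by
    intro s
    have d1 := Jf.d1 s
    have d2 := Jf.d2 s
    have d3 := Jy.d1 s
    have d4 := Jy.d2 s
    have e1 := (Jf.d1 (s + l)).comp_add_const s l
    have e2 := (Jf.d2 (s + l)).comp_add_const s l
    have e3 := (Jy.d1 (s + l)).comp_add_const s l
    have e4 := (Jy.d2 (s + l)).comp_add_const s l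
    have hh := (((d1.mul e4).sub (d3.mul e2)).neg).sub ((e1.mul d4).sub (e3.mul d2))
    refine hh.congr_deriv ?_
    rw [hper s]
    ring
  have hfin := is_const_of_deriv_eq_zero (fun τ => (hconst τ).differentiableAt)
    (fun τ => (hconst τ).deriv) s 0
  have t1 := htr s
  have t2 := htr 0
  rw [hfin, ← t2] at t1
  have t3 := mul_left_cancel₀ y0.ne' t1
  rw [N7_E0 h] at t3
  linarith

theorem ax_conj (hX : Surface Γ D) (h : HG D G) {g : Γ} {c : Pl} {u : ℂ} {l : ℝ}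
    (ha : Ax G g c u l) (k : Γ) : Ax G (k * g * k⁻¹) (k • c) (G.R k c * u) l ∧
      Dax G (k * g * k⁻¹) (k • c) = Dax G g c ∧
      ∀ s : ℝ, G.E (k • c) ((s : ℂ) * (G.R k c * u)) = k • G.E c ((s : ℂ) * u) := by
  have hE : ∀ s : ℝ, G.E (k • c) ((s : ℂ) * (G.R k c * u)) = k • G.E c ((s : ℂ) * u) := by
    intro s
    rw [← E_smul h]
    congr 1
    ring
  have hk : ∀ x : Pl, (k * g * k⁻¹) • (k • x) = k • (g • x) := by
    intro x
    rw [← mul_smul, ← mul_smul]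
    congr 1
    group
  have hne : c ≠ g • c := by
    have h1 := N7_pt h ha 0
    rw [← ha.tr 0, N7_E0 h] at h1
    exact h1
  refine ⟨⟨?_, ha.pos, ?_, ?_⟩, ?_, hE⟩
  · rw [norm_mul, h.R_norm, one_mul, ha.nu]
  · intro s
    rw [hE, hk, ha.tr, hE]
  · intro x
    have h1 := ha.mn (k⁻¹ • x)
    have h2 : G.d x ((k * g * k⁻¹) • x) = G.d (k⁻¹ • x) (g • k⁻¹ • x) := by
      rw [← d_smul h k (k⁻¹ • x) (g • k⁻¹ • x), ← hk, smul_inv_smul]
    rw [h2]
    exact h1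
  · unfold Dax
    rw [hk, J_smul h k hne, U_smul h k hne, U_smul h k hne.symm]

theorem Dax_low (hX : Surface Γ D) (h : HG D G) {g : Γ} {c : Pl} {u : ℂ} {l : ℝ}
    (ha : Ax G g c u l) : 4 * Real.sinh (G.a * l / 2) ^ 2 ≤ Dax G g c := by
  have hne : c ≠ g • c := by
    have h1 := N7_pt h ha 0
    rw [← ha.tr 0, N7_E0 h] at h1
    exact h1
  have hd : G.d c (g • c) = l := by
    have h1 := d_geo h c ha.nu 0 (0 + l)
    rw [← ha.tr 0, N7_E0 h, zero_add, sub_zero, abs_of_pos ha.pos] at h1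
    exact h1
  have hd' : G.d (g • c) c = l := by rw [h.d_symm]; exact hd
  have hJ := J_low h hne
  have hU := U_low' h hne
  have hU' := U_low' h hne.symm
  rw [hd] at hJ hU
  rw [hd'] at hU'
  have hal : 0 < G.a * l := mul_pos h.a_pos ha.pos
  have hS : 0 < Real.sinh (G.a * l) := Real.sinh_pos_iff.2 hal
  have hap := h.a_pos
  have hJ' : Real.sinh (G.a * l) ≤ G.a * G.J c (g • c) := by
    rw [div_le_iff₀ hap] at hJ
    linarith
  have hUU : 2 * (G.a * Real.cosh (G.a * l)) ≤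
      (G.U c (g • c) + G.U (g • c) c) * Real.sinh (G.a * l) := by linarith
  have hU0 : 0 < G.U c (g • c) + G.U (g • c) c := by
    have h1 := U_low h hne
    have h2 := U_low h hne.symm
    linarith
  have h1 : 2 * Real.cosh (G.a * l) ≤ G.J c (g • c) * (G.U c (g • c) + G.U (g • c) c) := by
    have h2 : 2 * (G.a * Real.cosh (G.a * l)) ≤
        (G.U c (g • c) + G.U (g • c) c) * (G.a * G.J c (g • c)) :=
      hUU.trans (mul_le_mul_of_nonneg_left hJ' hU0.le)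
    have h3 : G.a * (2 * Real.cosh (G.a * l)) ≤
        G.a * (G.J c (g • c) * (G.U c (g • c) + G.U (g • c) c)) := by linarith
    exact le_of_mul_le_mul_left h3 hap
  have h2 : Real.cosh (G.a * l) = 1 + 2 * Real.sinh (G.a * l / 2) ^ 2 := by
    have h3 := Real.cosh_two_mul (G.a * l / 2)
    rw [Real.cosh_sq] at h3
    rw [show 2 * (G.a * l / 2) = G.a * l by ring] at h3
    rw [h3]
    ring
  unfold Dax
  rw [h2] at h1
  linarith

end SR85
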