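import Pool.Agent.LibSR85.P5

/-! Row SR85 P6: compactness.

PLAN. `ball_compact`: `{y | d x y ≤ r}` is the image of `closedBall 0 r` under `E x` (`EV`, `VE`).
`move`: `hX.orbit`. `diamD`: `d x y` is continuous on the compact set `closure D ×ˢ closure D`
(`hX.bdd`). `ball_bdd`: the set of all `y` with `d x y ≤ r` for some `x ∈ N` is the image of the
compact set `N ×ˢ closedBall 0 r` under `(x, v) ↦ E x v`. `fin_return`: the `g` with
`d x (g • y) ≤ r` for some `x, y ∈ N`: then `g • y` is in the compact set `N₁` of `ball_bdd` and `y ∈ N`; apply `hX.proper` to `N ∪ N₁`. -/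

open MeasureTheory Set Filter Topology
open scoped ContDiff ENNReal NNReal ComplexConjugate

namespace SR85

open BGS (Pl Surface)

variable {Γ : Type} [Group Γ] [MulAction Γ Pl] {D : Set Pl} {G : Dat Γ}

theorem ball_compact (h : HG D G) (x : Pl) (r : ℝ) : IsCompact {y | G.d x y ≤ r} := by
  have hE : Continuous fun v : ℂ => G.E x v := h.E_cont.comp (continuous_const.prodMk continuous_id)
  have h1 : {y | G.d x y ≤ r} = (fun v : ℂ => G.E x v) '' Metric.closedBall 0 r := by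
    ext y
    constructor
    · intro hy
      exact ⟨G.V x y, mem_closedBall_zero_iff.2 hy, h.EV x y⟩
    · rintro ⟨v, hv, rfl⟩
      show ‖G.V x (G.E x v)‖ ≤ r
      rw [h.VE]
      exact mem_closedBall_zero_iff.1 hv
  rw [h1]
  exact (isCompact_closedBall 0 r).image hE

theorem move (hX : Surface Γ D) (x : Pl) : ∃ g : Γ, g • x ∈ D :=
  (hX.orbit x).exists

theorem diamD (hX : Surface Γ D) (h : HG D G) : ∃ r : ℝ, 0 < r ∧ ∀ x ∈ D, ∀ y ∈ D, G.d x y ≤ r := by
  have hc : Continuous fun q : Pl × Pl => G.d q.1 q.2 := h.V_cont.norm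
  have hD : IsCompact (closure D) := hX.bdd.isCompact_closure
  obtain ⟨M, hM⟩ := (hD.prod hD).bddAbove_image hc.continuousOn
  exact ⟨max 1 M, lt_max_of_lt_left one_pos, fun x hx y hy =>
    (hM ⟨(x, y), ⟨subset_closure hx, subset_closure hy⟩, rfl⟩).trans (le_max_right _ _)⟩

theorem ball_bdd (h : HG D G) {N : Set Pl} (hN : IsCompact N) (r : ℝ) :
    ∃ N₁ : Set Pl, IsCompact N₁ ∧ ∀ x ∈ N, ∀ y, G.d x y ≤ r → y ∈ N₁ := by
  refine ⟨(fun q : Pl × ℂ => G.E q.1 q.2) '' (N ×ˢ Metric.closedBall 0 r),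
    (hN.prod (isCompact_closedBall 0 r)).image h.E_cont, fun x hx y hy => ?_⟩
  exact ⟨(x, G.V x y), ⟨hx, mem_closedBall_zero_iff.2 hy⟩, h.EV x y⟩

theorem fin_return (hX : Surface Γ D) (h : HG D G) {N : Set Pl} (hN : IsCompact N) (r : ℝ) :
    {g : Γ | ∃ x ∈ N, ∃ y ∈ N, G.d x (g • y) ≤ r}.Finite := by
  obtain ⟨N₁, hN₁, hb⟩ := ball_bdd h hN r
  refine (hX.proper (N ∪ N₁) (hN.union hN₁)).subset ?_
  rintro g ⟨x, hx, y, hy, hd⟩
  exact ⟨y, Or.inl hy, Or.inr (hb x hx _ hd)⟩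

theorem d_cont (h : HG D G) : Continuous fun q : Pl × Pl => G.d q.1 q.2 :=
  h.V_cont.norm

end SR85
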