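import Pool.Agent.LibSR85.P2
import Pool.Agent.LibSR85.P6

/-! Row SR85 P7: the distance is locally Lipschitz in the coordinates of the plane.

PLAN. The straight segment `p s = x + s (y - x)`, `0 ≤ s ≤ 1`, has `‖fi (p s) (y - x)‖ ≤
C ‖y - x‖` with `C = sup ‖fi‖` over a closed ball that contains the unit neighbourhood of the
bounded set `N`; apply `len` on `[0, 1]`. -/

open MeasureTheory Set Filter Topology
open scoped ContDiff ENNReal NNReal ComplexConjugate

namespace SR85

open BGS (Pl Surface)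

variable {Γ : Type} [Group Γ] [MulAction Γ Pl] {D : Set Pl} {G : Dat Γ}

theorem loc_lip (h : HG D G) {N : Set Pl} (hN : Bornology.IsBounded N) :
    ∃ C : ℝ, 0 < C ∧ ∀ x ∈ N, ∀ y, ‖y - x‖ ≤ 1 → G.d x y ≤ C * ‖y - x‖ := by
  obtain ⟨R, hR⟩ := hN.subset_closedBall (0 : Pl)
  have hK : IsCompact (Metric.closedBall (0 : Pl) (R + 1)) := isCompact_closedBall _ _
  obtain ⟨C₀, hC₀⟩ := hK.exists_bound_of_continuousOn (f := G.fi) h.fi_cont.continuousOn
  refine ⟨max C₀ 0 + 1, by positivity, ?_⟩
  intro x hx y hxy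
  have hxR : ‖x‖ ≤ R := by simpa using hR hx
  have key := len (G := G) (D := D) h (p := fun s : ℝ => x + s • (y - x))
    (p' := fun _ => y - x) (a := 0) (b := 1) zero_le_one
    (fun s _ => by
      have h1 : HasDerivAt (fun s : ℝ => s • (y - x)) ((1 : ℝ) • (y - x)) s :=
        (hasDerivAt_id s).smul_const (y - x)
      rw [one_smul] at h1
      exact h1.const_add x)
    (fun _ => (max C₀ 0 + 1) * ‖y - x‖) continuous_const
    (fun s hs => by
      have h2 : x + s • (y - x) ∈ Metric.closedBall (0 : Pl) (R + 1) := by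
        rw [mem_closedBall_zero_iff]
        have h3 : ‖s • (y - x)‖ ≤ 1 := by
          rw [norm_smul, Real.norm_eq_abs, abs_of_nonneg hs.1]
          exact mul_le_one₀ hs.2 (norm_nonneg _) hxy
        linarith [norm_add_le x (s • (y - x))]
      have h4 := hC₀ _ h2
      calc ‖G.fi (x + s • (y - x)) (y - x)‖ ≤ ‖G.fi (x + s • (y - x))‖ * ‖y - x‖ :=
            ContinuousLinearMap.le_opNorm _ _
        _ ≤ (max C₀ 0 + 1) * ‖y - x‖ := by
            apply mul_le_mul_of_nonneg_right _ (norm_nonneg _)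
            linarith [le_max_left C₀ 0])
  simpa using key

end SR85
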