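import Mathlib

/-! Row SR85 L2 (only Mathlib): rotation invariance on the circle, in the angle `ϑ ∈ (-π, π]`.

PLAN. `w = exp (α I)`, `α = arg w`. `exp (ϑ I) * w = exp ((ϑ + α) I)`, and a function of
`exp (ϑ I)` is `2 π`-periodic in `ϑ`: for the lintegral use
`Function.Periodic` and the invariance of `∫⁻` over a fundamental interval of the lattice
`2 π ℤ` (`AddCircle`, `isAddFundamentalDomain_Ioc`, or cut `(-π, π]` into two pieces and
translate by hand). -/

open MeasureTheory Set Filter Topology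
open scoped ENNReal

namespace SR85

theorem circ_rot (f : ℂ → ℝ≥0∞) {w : ℂ} (hw : ‖w‖ = 1) :
    ∫⁻ ϑ in Ioc (-Real.pi) Real.pi, f (w * Complex.exp ((ϑ : ℂ) * Complex.I)) =
      ∫⁻ ϑ in Ioc (-Real.pi) Real.pi, f (Complex.exp ((ϑ : ℂ) * Complex.I)) := by
  set α : ℝ := Complex.arg w with hα
  have hwα : w = Complex.exp ((α : ℂ) * Complex.I) := by
    have := Complex.norm_mul_exp_arg_mul_I w
    rw [hw] at this
    simpa using this.symm
  set g : ℝ → ℝ≥0∞ := fun ϑ => f (Complex.exp ((ϑ : ℂ) * Complex.I)) with hg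
  have h1 : ∀ ϑ : ℝ, f (w * Complex.exp ((ϑ : ℂ) * Complex.I)) = g (ϑ + α) := by
    intro ϑ
    simp only [hg]
    rw [hwα, ← Complex.exp_add]
    congr 2
    push_cast
    ring
  simp_rw [h1]
  have h2 : ∫⁻ ϑ in Ioc (-Real.pi) Real.pi, g (ϑ + α) =
      ∫⁻ ϑ in Ioc (-Real.pi + α) (Real.pi + α), g ϑ := by
    have hmp : MeasurePreserving (fun x : ℝ => x + α) volume volume :=
      measurePreserving_add_right volume α
    have hemb : MeasurableEmbedding (fun x : ℝ => x + α) :=
      (MeasurableEquiv.addRight α).measurableEmbedding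
    have := hmp.setLIntegral_comp_preimage_emb hemb g (Ioc (-Real.pi + α) (Real.pi + α))
    rw [← this]
    congr 2
    ext x
    simp
  rw [h2]
  have hper : ∀ (n : AddSubgroup.zmultiples (2 * Real.pi)) (x : ℝ), g (n +ᵥ x) = g x := by
    rintro ⟨n, hn⟩ x
    obtain ⟨k, rfl⟩ := AddSubgroup.mem_zmultiples_iff.1 hn
    simp only [hg, AddSubgroup.vadd_def, vadd_eq_add]
    congr 1
    have : (((k • (2 * Real.pi) + x : ℝ) : ℂ) * Complex.I) =
        ((x : ℂ) * Complex.I) + (k : ℂ) * (2 * Real.pi * Complex.I) := by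
      push_cast [zsmul_eq_mul]
      ring
    rw [this, Complex.exp_add, Complex.exp_int_mul_two_pi_mul_I, mul_one]
  have hpos : (0 : ℝ) < 2 * Real.pi := by positivity
  have e1 : Ioc (-Real.pi + α) (Real.pi + α) = Ioc (-Real.pi + α) ((-Real.pi + α) + 2 * Real.pi) := by
    congr 1; ring
  have e2 : Ioc (-Real.pi) Real.pi = Ioc (-Real.pi) (-Real.pi + 2 * Real.pi) := by
    congr 1; ring
  rw [e1, e2]
  exact (isAddFundamentalDomain_Ioc hpos (-Real.pi + α) volume).setLIntegral_eq
    (isAddFundamentalDomain_Ioc hpos (-Real.pi) volume) g hper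

end SR85
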