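import Pool.Agent.LibSR85.B2
import Pool.Agent.LibSR85.P2

/-! Row SR85 C5: a small arc of directions. If `|θ| B o u t ≤ c` then the rays `u` and `u e^{iθ}`
from `o` are at distance at most one at time `t`, and `B` changes at most by the factor two.

PLAN. `C` = constant of `distort1`, `c = 1 / (4 (C + 1))`. Let `t ≥ 3`, `f φ = B o (u e^{iφ}) t`
(continuous, positive), `y φ = E o (t u e^{iφ})`; by `E_u` (`k = 1`) `‖fi y'‖ = f φ`, so by `len`
`d (y 0) (y θ) ≤ L θ := ∫_0^θ f` (`θ ≥ 0`; the other sign is symmetric). As long as `L θ ≤ 1`,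
`distort1` (`J o (y φ) = f φ`) gives `f θ ≤ f 0 e^{C L θ}`, so `(e^{-C L})' ≥ -C f 0` and
`e^{-C L θ} ≥ 1 - C f 0 θ ≥ 3/4`, hence `C L θ ≤ log (4/3) < C ∧ ...` and `L θ < 1`
(`C L ≤ 4/3 C f 0 θ ≤ 1/3 · C/(C+1)`, so `L ≤ 1/3`). By continuity the condition `L ≤ 1` never
fails for `θ f 0 ≤ c`. Then `f θ ≤ (4/3) f 0 ≤ 2 f 0`. -/

open MeasureTheory Set Filter Topology
open scoped ContDiff ENNReal NNReal ComplexConjugate

namespace SR85

open BGS (Pl Surface)

variable {Γ : Type} [Group Γ] [MulAction Γ Pl] {D : Set Pl} {G : Dat Γ}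

theorem C5_exp_half : Real.exp (1 / 2) ≤ 17 / 10 := by
  have h1 : Real.exp (1 / 2) * Real.exp (1 / 2) = Real.exp 1 := by
    rw [← Real.exp_add]; norm_num
  have h2 := Real.exp_one_lt_d9
  have h3 := Real.exp_pos (1 / 2)
  by_contra hcon
  push Not at hcon
  nlinarith

/-- one sign -/
theorem C5_one (h : HG D G) {C : ℝ} (hC : 0 < C)
    (hd : ∀ o x x' : Pl, G.d x x' ≤ 1 → 2 ≤ G.d o x →
      |Real.log (G.J o x) - Real.log (G.J o x')| ≤ C * G.d x x' ∧
        |G.U o x - G.U o x'| ≤ C * G.d x x')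
    (o : Pl) (w : ℝ → ℂ) (t σ η : ℝ) (hw : ∀ r, ‖w r‖ = 1) (hσ : |σ| = 1)
    (hw' : ∀ s, HasDerivAt w (Complex.I * w s * σ) s) (ht : 3 ≤ t) (hη : 0 ≤ η)
    (hc : η * G.B o (w 0) t ≤ 1 / (4 * (C + 1))) :
    G.d (G.E o ((t : ℂ) * w 0)) (G.E o ((t : ℂ) * w η)) ≤ 1 ∧
      G.B o (w η) t ≤ 2 * G.B o (w 0) t := by
  have ht0 : 0 < t := by linarith
  have hwc : Continuous w := continuous_iff_continuousAt.2 fun s => (hw' s).continuousAt
  set f : ℝ → ℝ := fun φ => G.B o (w φ) t with hf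
  have hfpos : ∀ φ, 0 < f φ := fun φ => B_pos h o (hw φ) ht0
  have hfc : Continuous f := by
    have h1 : Continuous fun φ : ℝ => ((o, w φ, t) : Pl × ℂ × ℝ) := by fun_prop
    exact h.B_cont.comp_continuous h1 fun φ => hw φ
  set y : ℝ → Pl := fun φ => G.E o ((t : ℂ) * w φ) with hy
  -- the derivative of `y`
  have hyd : ∀ s, ∃ p : Pl, HasDerivAt y p s ∧ ‖G.fi (y s) p‖ = f s := by
    intro s
    obtain ⟨p, hp, hp2⟩ := h.E_u o t w s σ hw (hw' s)
    refine ⟨p, hp, ?_⟩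
    show ‖G.fi (G.E o ((t : ℂ) * w s)) p‖ = f s
    rw [hp2, norm_mul, norm_mul, Complex.norm_I, h.dr_norm o (w s) (hw s) t, Complex.norm_real,
      Real.norm_eq_abs, abs_mul, hσ, mul_one, mul_one, mul_one]
    exact abs_of_pos (hfpos s)
  choose y' hy' hy'' using hyd
  set L : ℝ → ℝ := fun φ => ∫ s in (0 : ℝ)..φ, f s with hL
  have hlen : ∀ φ, 0 ≤ φ → G.d (y 0) (y φ) ≤ L φ := fun φ hφ =>
    len h hφ (fun s _ => hy' s) f hfc (fun s _ => (hy'' s).le)
  have hint : ∀ a b : ℝ, IntervalIntegrable f volume a b := fun a b => hfc.intervalIntegrable a b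
  have hLmono : ∀ a b, 0 ≤ a → a ≤ b → L a ≤ L b := by
    intro a b _ hab
    have : L b = L a + ∫ s in a..b, f s :=
      (intervalIntegral.integral_add_adjacent_intervals (hint 0 a) (hint a b)).symm
    rw [this]
    have h2 : 0 ≤ ∫ s in a..b, f s :=
      intervalIntegral.integral_nonneg hab fun s _ => (hfpos s).le
    linarith
  have hLc : Continuous L := intervalIntegral.continuous_primitive hint 0
  have hL0 : L 0 = 0 := by simp [hL]
  -- distortion
  have hJ : ∀ φ, G.J o (y φ) = f φ := fun φ => J_E h o (hw φ) ht0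
  have hdy : G.d o (y 0) = t := by
    have := d_E h o (hw 0) t
    rw [abs_of_pos ht0] at this
    exact this
  have hdist : ∀ φ, G.d (y 0) (y φ) ≤ 1 → f φ ≤ f 0 * Real.exp (C * G.d (y 0) (y φ)) := by
    intro φ hφ
    have h1 := (hd o (y 0) (y φ) hφ (by rw [hdy]; linarith)).1
    rw [hJ, hJ] at h1
    have h2 : Real.log (f φ) ≤ Real.log (f 0) + C * G.d (y 0) (y φ) := by
      have := (abs_le.1 h1).1
      linarith
    calc f φ = Real.exp (Real.log (f φ)) := (Real.exp_log (hfpos φ)).symm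
      _ ≤ Real.exp (Real.log (f 0) + C * G.d (y 0) (y φ)) := Real.exp_le_exp.2 h2
      _ = f 0 * Real.exp (C * G.d (y 0) (y φ)) := by rw [Real.exp_add, Real.exp_log (hfpos 0)]
  set δ : ℝ := 1 / (2 * (C + 1)) with hδ
  have hC1 : 0 < C + 1 := by linarith
  have hδ0 : 0 < δ := by positivity
  have hδ1 : δ ≤ 1 := by
    rw [hδ, div_le_one (by positivity)]
    linarith
  have hCδ : C * δ ≤ 1 / 2 := by
    rw [hδ, mul_one_div, div_le_div_iff₀ (by positivity) (by norm_num)]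
    linarith
  have hc2 : 1 / (4 * (C + 1)) = δ / 2 := by
    rw [hδ]; field_simp; norm_num
  -- the bound as long as `L ≤ δ`
  have hkey : ∀ φ, 0 ≤ φ → L φ ≤ δ → f φ ≤ 17 / 10 * f 0 := by
    intro φ hφ hLφ
    have h1 := hlen φ hφ
    have h2 := hdist φ (by linarith)
    have h3 : C * G.d (y 0) (y φ) ≤ 1 / 2 := by
      have : C * G.d (y 0) (y φ) ≤ C * δ := mul_le_mul_of_nonneg_left (by linarith) hC.le
      linarith
    have h4 : Real.exp (C * G.d (y 0) (y φ)) ≤ 17 / 10 := (Real.exp_le_exp.2 h3).trans C5_exp_half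
    calc f φ ≤ f 0 * Real.exp (C * G.d (y 0) (y φ)) := h2
      _ ≤ f 0 * (17 / 10) := mul_le_mul_of_nonneg_left h4 (hfpos 0).le
      _ = 17 / 10 * f 0 := by ring
  have hLη : L η < δ := by
    by_contra hcon
    push Not at hcon
    obtain ⟨φ, hφ, hLφ⟩ := intermediate_value_Icc hη hLc.continuousOn ⟨by rw [hL0]; exact hδ0.le, hcon⟩
    have h1 : L φ ≤ ∫ s in (0 : ℝ)..φ, 17 / 10 * f 0 := by
      apply intervalIntegral.integral_mono_on hφ.1 (hint 0 φ) (by simp)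
      intro s hs
      exact hkey s hs.1 (by rw [← hLφ]; exact hLmono s φ hs.1 hs.2)
    rw [intervalIntegral.integral_const, smul_eq_mul, sub_zero, hLφ] at h1
    have h2 : φ * (17 / 10 * f 0) ≤ η * (17 / 10 * f 0) :=
      mul_le_mul_of_nonneg_right hφ.2 (by have := hfpos 0; positivity)
    have h3 : η * f 0 ≤ δ / 2 := by
      rw [← hc2]; exact hc
    have h4 : η * (17 / 10 * f 0) = 17 / 10 * (η * f 0) := by ring
    linarith
  have h1 := hlen η hη
  refine ⟨by linarith, ?_⟩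
  have h2 := hkey η hη hLη.le
  have h3 := hfpos 0
  show f η ≤ 2 * f 0
  linarith

theorem arc (h : HG D G) : ∃ c : ℝ, 0 < c ∧ ∀ (o : Pl) (u : ℂ) (t θ : ℝ), ‖u‖ = 1 → 3 ≤ t →
    |θ| * G.B o u t ≤ c →
    G.d (G.E o ((t : ℂ) * u)) (G.E o ((t : ℂ) * (u * Complex.exp ((θ : ℂ) * Complex.I)))) ≤ 1 ∧
      G.B o (u * Complex.exp ((θ : ℂ) * Complex.I)) t ≤ 2 * G.B o u t := by
  obtain ⟨C, hC, hd⟩ := distort1 h
  refine ⟨1 / (4 * (C + 1)), by positivity, ?_⟩
  intro o u t θ hu ht hc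
  obtain ⟨σ, hσ, hσθ⟩ : ∃ σ : ℝ, |σ| = 1 ∧ σ * |θ| = θ := by
    rcases le_total 0 θ with h0 | h0
    · exact ⟨1, by simp, by rw [abs_of_nonneg h0, one_mul]⟩
    · exact ⟨-1, by simp, by rw [abs_of_nonpos h0]; ring⟩
  set w : ℝ → ℂ := fun φ => u * Complex.exp (((σ * φ : ℝ) : ℂ) * Complex.I) with hw
  have hw1 : ∀ r, ‖w r‖ = 1 := by
    intro r
    simp only [hw]
    rw [norm_mul, hu, Complex.norm_exp_ofReal_mul_I, one_mul]
  have hw' : ∀ s, HasDerivAt w (Complex.I * w s * σ) s := by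
    intro s
    have h1 : HasDerivAt (fun φ : ℝ => ((σ * φ : ℝ) : ℂ)) ((σ : ℝ) : ℂ) s := by
      have h2 : HasDerivAt (fun φ : ℝ => σ * φ) σ s := by
        simpa using (hasDerivAt_id s).const_mul σ
      exact h2.ofReal_comp
    have h3 := ((h1.mul_const Complex.I).cexp).const_mul u
    have h4 : Complex.I * w s * σ =
        u * (Complex.exp (((σ * s : ℝ) : ℂ) * Complex.I) * ((σ : ℂ) * Complex.I)) := by
      simp only [hw]
      ring
    rw [h4]
    exact h3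
  have hw0 : w 0 = u := by simp [hw]
  have hwθ : w |θ| = u * Complex.exp ((θ : ℂ) * Complex.I) := by
    simp only [hw]
    rw [hσθ]
  have := C5_one h hC hd o w t σ |θ| hw1 hσ hw' ht (abs_nonneg θ) (by rw [hw0]; exact hc)
  rw [hw0, hwθ] at this
  exact this

end SR85
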