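import Mathlib
import Pool.Agent.LibBGS.Defs

/-! The geometry of a Hadamard plane with a cocompact group, in complex frame coordinates: the
facts used by the sum rule. A tangent vector at `x` is a complex number (its coordinates in an
orthonormal frame at `x`), `E` is the exponential map, `V` its inverse (the logarithm), so
`d x y = ‖V x y‖` is the distance; `B x u t` is the Jacobi field with `B = 0`, `B' = 1` at `t = 0`
along the geodesic from `x` in the unit direction `u`; `K` is the curvature; `R g x` is the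
rotation of the frames by the deck transformation `g`; `om` is the connection form. -/

open MeasureTheory Set Filter Topology
open scoped ContDiff ENNReal NNReal ComplexConjugate

namespace SR85

open BGS (Pl Surface)

/-- The direction of a nonzero complex number. -/
noncomputable def un (v : ℂ) : ℂ := v / (‖v‖ : ℂ)

/-- The data. -/
structure Dat (Γ : Type) where
  rho : Pl → ℝ
  fi : Pl → Pl →L[ℝ] ℂ
  om : Pl → ℂ →L[ℝ] ℝ
  K : Pl → ℝ
  E : Pl → ℂ → Pl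
  V : Pl → Pl → ℂ
  B : Pl → ℂ → ℝ → ℝ
  Bd : Pl → ℂ → ℝ → ℝ
  R : Γ → Pl → ℂ
  a : ℝ
  b : ℝ
  LK : ℝ

namespace Dat

variable {Γ : Type} (G : Dat Γ)

/-- The distance. -/
noncomputable def d (x y : Pl) : ℝ := ‖G.V x y‖

/-- The direction at `x` of the geodesic to `y`. -/
noncomputable def di (x y : Pl) : ℂ := un (G.V x y)

/-- The direction at time `t` of the geodesic from `x` with direction `u`. -/
noncomputable def dr (x : Pl) (u : ℂ) (t : ℝ) : ℂ :=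
  G.V (G.E x ((t : ℂ) * u)) (G.E x (((t + 1 : ℝ) : ℂ) * u))

/-- The Jacobi field of the geodesic from `x` to `y`, vanishing at `x`, at its end `y`. -/
noncomputable def J (x y : Pl) : ℝ := G.B x (G.di x y) (G.d x y)

/-- Its logarithmic derivative at the end `y` (the curvature at `y` of the circle about `x`). -/
noncomputable def U (x y : Pl) : ℝ := G.Bd x (G.di x y) (G.d x y) / G.J x y

end Dat

/-- The facts. -/
structure HG {Γ : Type} [Group Γ] [MulAction Γ Pl] (D : Set Pl) (G : Dat Γ) : Prop where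
  a_pos : 0 < G.a
  ab : G.a ≤ G.b
  LK_pos : 0 < G.LK
  rho_cont : Continuous G.rho
  rho_pos : ∀ z, 0 < G.rho z
  rho_int : ∫ z in D, G.rho z = 1
  rho_inv : ∀ (g : Γ) (f : Pl → ℝ≥0∞), Measurable f →
    ∫⁻ z, f (g • z) * ENNReal.ofReal (G.rho z) = ∫⁻ z, f z * ENNReal.ofReal (G.rho z)
  fi_cont : Continuous G.fi
  om_cont : Continuous G.om
  K_cont : Continuous G.K
  K_le : ∀ z, G.K z ≤ -G.a ^ 2
  K_ge : ∀ z, -G.b ^ 2 ≤ G.K z
  K_lip : ∀ x y, |G.K x - G.K y| ≤ G.LK * G.d x y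
  E_cont : Continuous fun q : Pl × ℂ => G.E q.1 q.2
  V_cont : Continuous fun q : Pl × Pl => G.V q.1 q.2
  E_zero : ∀ x, G.E x 0 = x
  EV : ∀ x y, G.E x (G.V x y) = y
  VE : ∀ x v, G.V x (G.E x v) = v
  d_symm : ∀ x y, G.d x y = G.d y x
  d_tri : ∀ x y z, G.d x z ≤ G.d x y + G.d y z
  /-- the geodesics are flow lines -/
  flow : ∀ (x : Pl) (u : ℂ), ‖u‖ = 1 → ∀ t s : ℝ,
    G.E (G.E x ((t : ℂ) * u)) ((s : ℂ) * G.dr x u t) = G.E x (((t + s : ℝ) : ℂ) * u)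
  dr_norm : ∀ (x : Pl) (u : ℂ), ‖u‖ = 1 → ∀ t : ℝ, ‖G.dr x u t‖ = 1
  /-- unit speed -/
  E_t : ∀ (x : Pl) (u : ℂ), ‖u‖ = 1 → ∀ t : ℝ, ∃ p : Pl,
    HasDerivAt (fun s : ℝ => G.E x ((s : ℂ) * u)) p t ∧ G.fi (G.E x ((t : ℂ) * u)) p = G.dr x u t
  /-- derivative in the direction: the Jacobi field -/
  E_u : ∀ (x : Pl) (t : ℝ) (w : ℝ → ℂ) (s k : ℝ), (∀ r, ‖w r‖ = 1) →
    HasDerivAt w (Complex.I * w s * k) s → ∃ p : Pl,
    HasDerivAt (fun r : ℝ => G.E x ((t : ℂ) * w r)) p s ∧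
      G.fi (G.E x ((t : ℂ) * w s)) p = ((G.B x (w s) t * k : ℝ) : ℂ) * Complex.I * G.dr x (w s) t
  /-- parallel transport along geodesics -/
  dr_t : ∀ (x : Pl) (u : ℂ), ‖u‖ = 1 → ∀ t : ℝ,
    HasDerivAt (fun s : ℝ => G.dr x u s)
      (-Complex.I * (G.om (G.E x ((t : ℂ) * u)) (G.dr x u t) : ℂ) * G.dr x u t) t
  /-- first variation of the distance -/
  dd : ∀ (x y : ℝ → Pl) (x' y' : Pl) (s : ℝ), HasDerivAt x x' s → HasDerivAt y y' s → x s ≠ y s →
    HasDerivAt (fun r => G.d (x r) (y r))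
      (-(G.fi (x s) x' * conj (G.di (x s) (y s))).re
        - (G.fi (y s) y' * conj (G.di (y s) (x s))).re) s
  /-- first variation of the direction -/
  du : ∀ (x y : ℝ → Pl) (x' y' : Pl) (s : ℝ), HasDerivAt x x' s → HasDerivAt y y' s → x s ≠ y s →
    HasDerivAt (fun r => G.di (x r) (y r))
      (Complex.I * G.di (x s) (y s) *
        ((-(G.om (x s) (G.fi (x s) x'))
          - G.U (y s) (x s) * (G.fi (x s) x' * conj (G.di (x s) (y s))).im
          - (G.fi (y s) y' * conj (G.di (y s) (x s))).im / G.J (x s) (y s) : ℝ) : ℂ)) s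
  /-- Jacobi's equation -/
  B_zero : ∀ (x : Pl) (u : ℂ), ‖u‖ = 1 → G.B x u 0 = 0
  Bd_zero : ∀ (x : Pl) (u : ℂ), ‖u‖ = 1 → G.Bd x u 0 = 1
  B_der : ∀ (x : Pl) (u : ℂ), ‖u‖ = 1 → ∀ t : ℝ, HasDerivAt (G.B x u) (G.Bd x u t) t
  Bd_der : ∀ (x : Pl) (u : ℂ), ‖u‖ = 1 → ∀ t : ℝ,
    HasDerivAt (G.Bd x u) (-G.K (G.E x ((t : ℂ) * u)) * G.B x u t) t
  B_cont : ContinuousOn (fun q : Pl × ℂ × ℝ => G.B q.1 q.2.1 q.2.2) {q | ‖q.2.1‖ = 1}
  Bd_cont : ContinuousOn (fun q : Pl × ℂ × ℝ => G.Bd q.1 q.2.1 q.2.2) {q | ‖q.2.1‖ = 1}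
  B_diag : ∀ x : Pl, G.B x 0 0 = 0
  /-- the group acts by isometries preserving the orientation -/
  R_norm : ∀ (g : Γ) (x : Pl), ‖G.R g x‖ = 1
  V_smul : ∀ (g : Γ) (x y : Pl), G.V (g • x) (g • y) = G.R g x * G.V x y
  K_smul : ∀ (g : Γ) (x : Pl), G.K (g • x) = G.K x
  fi_smul : ∀ (g : Γ) (z v : Pl),
    G.fi (g • z) (fderiv ℝ (fun w : Pl => g • w) z v) = G.R g z * G.fi z v
  /-- area in polar coordinates -/
  polar : ∀ (x : Pl) (f : Pl → ℝ≥0∞), Measurable f →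
    ∫⁻ y, f y * ENNReal.ofReal (G.rho y) =
      ∫⁻ r in Ioi (0 : ℝ), ∫⁻ θ in Ioc (-Real.pi) Real.pi,
        f (G.E x ((r : ℂ) * Complex.exp ((θ : ℂ) * Complex.I))) *
          ENNReal.ofReal (G.B x (Complex.exp ((θ : ℂ) * Complex.I)) r)

end SR85
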