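import Pool.Agent.LibSR85.A1

/-! Row SR85 A2: comparison of two Jacobi fields whose curvatures are exponentially close away
from the end `r`. -/

open MeasureTheory Set Filter Topology

namespace SR85

theorem A2_mono {g g' : ℝ → ℝ} {s t : ℝ} (hst : s ≤ t)
    (hg : ∀ u, s ≤ u → u ≤ t → HasDerivAt g (g' u) u) (hn : ∀ u, s < u → u < t → 0 ≤ g' u) :
    g s ≤ g t := by
  have hm : MonotoneOn g (Icc s t) := by
    apply monotoneOn_of_deriv_nonneg (convex_Icc s t)
    · exact fun u hu => (hg u hu.1 hu.2).continuousAt.continuousWithinAt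
    · intro u hu
      rw [interior_Icc] at hu
      exact (hg u hu.1.le hu.2.le).differentiableAt.differentiableWithinAt
    · intro u hu
      rw [interior_Icc] at hu
      rw [(hg u hu.1.le hu.2.le).deriv]
      exact hn u hu.1 hu.2
  exact hm (left_mem_Icc.2 hst) (right_mem_Icc.2 hst) hst

theorem A2_exp (c a r s : ℝ) : HasDerivAt (fun s => c * Real.exp (-(a * (r - s))))
    (c * (a * Real.exp (-(a * (r - s))))) s := by
  have h1 : HasDerivAt (fun s : ℝ => -(a * (r - s))) a s := by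
    have := ((hasDerivAt_id s).const_sub r).const_mul (-a)
    simp only [id_eq, mul_neg, mul_one, neg_neg, neg_mul] at this
    exact this
  have := (h1.exp).const_mul c
  exact this.congr_deriv (by ring)

theorem A2_lim {k y y' : ℝ → ℝ} (h : Jac k y y') (h0 : y 0 = 0) (h1 : y' 0 = 1) :
    Tendsto (fun s => y s / s) (𝓝[>] 0) (𝓝 1) := by
  have := h.d1 0
  rw [h1, hasDerivAt_iff_tendsto_slope] at this
  have h2 : Tendsto (slope y 0) (𝓝[>] 0) (𝓝 1) :=
    this.mono_left (nhdsWithin_mono 0 fun s hs => ne_of_gt hs)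
  refine h2.congr fun s => ?_
  rw [slope_def_field, h0, sub_zero, sub_zero]

theorem jac_cmp {k₁ y₁ y₁' k₂ y₂ y₂' : ℝ → ℝ} {a M r : ℝ} (ha : 0 < a) (hM : 0 ≤ M) (hr : 0 < r)
    (hk₁ : Continuous k₁) (hk₂ : Continuous k₂) (ha₁ : ∀ t, k₁ t ≤ -a ^ 2)
    (ha₂ : ∀ t, k₂ t ≤ -a ^ 2) (h₁ : Jac k₁ y₁ y₁') (h₂ : Jac k₂ y₂ y₂')
    (h₁0 : y₁ 0 = 0) (h₁1 : y₁' 0 = 1) (h₂0 : y₂ 0 = 0) (h₂1 : y₂' 0 = 1)
    (hd : ∀ τ, 0 ≤ τ → τ ≤ r → |k₁ τ - k₂ τ| ≤ M * Real.exp (-(a * (r - τ)))) :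
    |y₁' r / y₁ r - y₂' r / y₂ r| ≤ M / a ∧ |Real.log (y₁ r) - Real.log (y₂ r)| ≤ M / a ^ 2 := by
  have hp₁ := A1_pos ha ha₁ h₁ h₁0 h₁1
  have hp₂ := A1_pos ha ha₂ h₂ h₂0 h₂1
  have hl₁ : ∀ u, 0 < u → a * y₁ u ≤ y₁' u := fun u hu =>
    (jac_lower ha hk₁ ha₁ h₁ h₁0 h₁1 hu).2.2.1
  have hl₂ : ∀ u, 0 < u → a * y₂ u ≤ y₂' u := fun u hu =>
    (jac_lower ha hk₂ ha₂ h₂ h₂0 h₂1 hu).2.2.1
  -- the Wronskian
  have hW : ∀ u, HasDerivAt (fun u => y₁' u * y₂ u - y₁ u * y₂' u)
      (-(k₁ u - k₂ u) * (y₁ u * y₂ u)) u := fun u => by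
    have := ((h₁.d2 u).mul (h₂.d1 u)).sub ((h₁.d1 u).mul (h₂.d2 u))
    exact this.congr_deriv (by ring)
  have hB : ∀ u, HasDerivAt (fun u => M / a * Real.exp (-(a * (r - u))) * (y₁ u * y₂ u))
      (M / a * (a * Real.exp (-(a * (r - u)))) * (y₁ u * y₂ u) +
        M / a * Real.exp (-(a * (r - u))) * (y₁' u * y₂ u + y₁ u * y₂' u)) u := fun u =>
    (A2_exp (M / a) a r u).mul ((h₁.d1 u).mul (h₂.d1 u))
  have hkey : ∀ u, 0 < u → u ≤ r → |k₁ u - k₂ u| * (y₁ u * y₂ u) ≤
      M / a * (a * Real.exp (-(a * (r - u)))) * (y₁ u * y₂ u) +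
        M / a * Real.exp (-(a * (r - u))) * (y₁' u * y₂ u + y₁ u * y₂' u) := by
    intro u hu hur
    have e1 := hd u hu.le hur
    have e2 : 0 < y₁ u * y₂ u := mul_pos (hp₁ u hu).1 (hp₂ u hu).1
    have e3 := mul_le_mul_of_nonneg_right e1 e2.le
    have e4 : M / a * (a * Real.exp (-(a * (r - u)))) = M * Real.exp (-(a * (r - u))) := by
      field_simp
    have e5 : 0 ≤ M / a * Real.exp (-(a * (r - u))) * (y₁' u * y₂ u + y₁ u * y₂' u) := by
      have f1 := (hp₁ u hu).1
      have f2 := (hp₂ u hu).1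
      have f3 := (hp₁ u hu).2
      have f4 := (hp₂ u hu).2
      have f5 := Real.exp_pos (-(a * (r - u)))
      positivity
    rw [e4]
    linarith
  have hWb : ∀ s, 0 < s → s ≤ r → |y₁' s * y₂ s - y₁ s * y₂' s| ≤
      M / a * Real.exp (-(a * (r - s))) * (y₁ s * y₂ s) := by
    intro s hs hsr
    rw [abs_le]
    constructor
    · have := A2_mono (g := fun u => M / a * Real.exp (-(a * (r - u))) * (y₁ u * y₂ u) +
        (y₁' u * y₂ u - y₁ u * y₂' u)) hs.le (fun u _ _ => (hB u).add (hW u))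
        (fun u hu hus => by
          have e1 := hkey u hu (hus.le.trans hsr)
          have e2 : 0 < y₁ u * y₂ u := mul_pos (hp₁ u hu).1 (hp₂ u hu).1
          have e3 := le_abs_self (k₁ u - k₂ u)
          nlinarith)
      simp only [h₁0, h₂0, mul_zero, zero_mul, sub_self, add_zero] at this
      linarith
    · have := A2_mono (g := fun u => M / a * Real.exp (-(a * (r - u))) * (y₁ u * y₂ u) -
        (y₁' u * y₂ u - y₁ u * y₂' u)) hs.le (fun u _ _ => (hB u).sub (hW u))
        (fun u hu hus => by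
          have e1 := hkey u hu (hus.le.trans hsr)
          have e2 : 0 < y₁ u * y₂ u := mul_pos (hp₁ u hu).1 (hp₂ u hu).1
          have e3 := neg_abs_le (k₁ u - k₂ u)
          nlinarith)
      simp only [h₁0, h₂0, mul_zero, zero_mul, sub_self] at this
      linarith
  have hq : ∀ s, 0 < s → s ≤ r →
      |y₁' s / y₁ s - y₂' s / y₂ s| ≤ M / a * Real.exp (-(a * (r - s))) := by
    intro s hs hsr
    have e1 := (hp₁ s hs).1
    have e2 := (hp₂ s hs).1
    have e3 : y₁' s / y₁ s - y₂' s / y₂ s =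
        (y₁' s * y₂ s - y₁ s * y₂' s) / (y₁ s * y₂ s) := by
      field_simp
    rw [e3, abs_div, abs_of_pos (mul_pos e1 e2), div_le_iff₀ (mul_pos e1 e2)]
    exact hWb s hs hsr
  refine ⟨?_, ?_⟩
  · have := hq r hr le_rfl
    simpa using this
  · have hL : ∀ u, 0 < u → HasDerivAt (fun u => Real.log (y₁ u) - Real.log (y₂ u))
        (y₁' u / y₁ u - y₂' u / y₂ u) u := fun u hu =>
      ((h₁.d1 u).log (hp₁ u hu).1.ne').sub ((h₂.d1 u).log (hp₂ u hu).1.ne')
    have hC : ∀ u, HasDerivAt (fun u => M / a ^ 2 * Real.exp (-(a * (r - u))))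
        (M / a * Real.exp (-(a * (r - u)))) u := fun u =>
      (A2_exp (M / a ^ 2) a r u).congr_deriv (by field_simp)
    have hlim : Tendsto (fun s => Real.log (y₁ s) - Real.log (y₂ s)) (𝓝[>] 0) (𝓝 0) := by
      have l1 := (A2_lim h₁ h₁0 h₁1).log one_ne_zero
      have l2 := (A2_lim h₂ h₂0 h₂1).log one_ne_zero
      have l3 := l1.sub l2
      rw [sub_self] at l3
      refine l3.congr' ?_
      filter_upwards [self_mem_nhdsWithin] with s hs
      have hs0 : 0 < s := hs
      rw [Real.log_div (hp₁ s hs0).1.ne' hs0.ne', Real.log_div (hp₂ s hs0).1.ne' hs0.ne']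
      ring
    have hev : ∀ᶠ s in 𝓝[>] (0 : ℝ), s < r :=
      (nhdsWithin_le_nhds (a := (0 : ℝ)) (s := Ioi 0)) (Iio_mem_nhds hr)
    have hb1 : ∀ s, 0 < s → s < r →
        (Real.log (y₁ r) - Real.log (y₂ r)) - (Real.log (y₁ s) - Real.log (y₂ s)) ≤ M / a ^ 2 := by
      intro s hs hsr
      have := A2_mono (g := fun u => M / a ^ 2 * Real.exp (-(a * (r - u))) -
        (Real.log (y₁ u) - Real.log (y₂ u))) hsr.le
        (fun u hu _ => (hC u).sub (hL u (lt_of_lt_of_le hs hu)))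
        (fun u hu hur => by
          have e1 := (abs_le.1 (hq u (hs.trans hu) hur.le)).2
          linarith)
      have e2 : 0 ≤ M / a ^ 2 * Real.exp (-(a * (r - s))) := by positivity
      have e3 : Real.exp (-(a * (r - r))) = 1 := by simp
      simp only [e3, mul_one] at this
      linarith
    have hb2 : ∀ s, 0 < s → s < r →
        (Real.log (y₁ s) - Real.log (y₂ s)) - (Real.log (y₁ r) - Real.log (y₂ r)) ≤ M / a ^ 2 := by
      intro s hs hsr
      have := A2_mono (g := fun u => M / a ^ 2 * Real.exp (-(a * (r - u))) +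
        (Real.log (y₁ u) - Real.log (y₂ u))) hsr.le
        (fun u hu _ => (hC u).add (hL u (lt_of_lt_of_le hs hu)))
        (fun u hu hur => by
          have e1 := (abs_le.1 (hq u (hs.trans hu) hur.le)).1
          linarith)
      have e2 : 0 ≤ M / a ^ 2 * Real.exp (-(a * (r - s))) := by positivity
      have e3 : Real.exp (-(a * (r - r))) = 1 := by simp
      simp only [e3, mul_one] at this
      linarith
    rw [abs_le]
    constructor
    · have l4 : Tendsto (fun s => (Real.log (y₁ s) - Real.log (y₂ s)) -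
          (Real.log (y₁ r) - Real.log (y₂ r))) (𝓝[>] 0)
          (𝓝 (0 - (Real.log (y₁ r) - Real.log (y₂ r)))) := hlim.sub tendsto_const_nhds
      have := le_of_tendsto l4 (by
        filter_upwards [hev, self_mem_nhdsWithin] with s hs1 hs2
        exact hb2 s hs2 hs1)
      linarith
    · have l4 : Tendsto (fun s => (Real.log (y₁ r) - Real.log (y₂ r)) -
          (Real.log (y₁ s) - Real.log (y₂ s))) (𝓝[>] 0)
          (𝓝 ((Real.log (y₁ r) - Real.log (y₂ r)) - 0)) := tendsto_const_nhds.sub hlim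
      have := le_of_tendsto l4 (by
        filter_upwards [hev, self_mem_nhdsWithin] with s hs1 hs2
        exact hb1 s hs2 hs1)
      linarith

end SR85
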