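import Pool.Agent.LibSR85.A1

/-! Row SR85 A3: comparison, at the start, of two Jacobi fields that vanish at the nearby ends
`r₁ ≤ r₂`; the curvatures are exponentially close away from the end.

`Y i` solves `Y'' = -k Y` with `Y (r i) = 0`, `Y' (r i) = -1` (a Jacobi field run backwards), so
`-Y' 0 / Y 0` is the Riccati solution at `0`. -/

open MeasureTheory Set Filter Topology

namespace SR85

theorem A3_rev {k Y Y' : ℝ → ℝ} (h : Jac k Y Y') (r : ℝ) :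
    Jac (fun t => k (r - t)) (fun t => Y (r - t)) (fun t => -Y' (r - t)) := by
  constructor
  · intro t
    have h1 : HasDerivAt (fun s : ℝ => r - s) (-1) t := by
      simpa using (hasDerivAt_id t).const_sub r
    have h2 := (h.d1 (r - t)).comp t h1
    have h3 : Y' (r - t) * -1 = -Y' (r - t) := by ring
    rw [h3] at h2
    exact h2
  · intro t
    have h1 : HasDerivAt (fun s : ℝ => r - s) (-1) t := by
      simpa using (hasDerivAt_id t).const_sub r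
    have h2 := ((h.d2 (r - t)).comp t h1).neg
    have h3 : -(-k (r - t) * Y (r - t) * -1) = -k (r - t) * Y (r - t) := by ring
    rw [h3] at h2
    exact h2

theorem A3_sinh {x : ℝ} (hx : 0 ≤ x) : Real.sinh x ≤ x * Real.cosh x := by
  rcases hx.eq_or_lt with h | h
  · subst h
    simp
  · obtain ⟨c, hc, he⟩ := exists_hasDerivAt_eq_slope Real.sinh Real.cosh h
      (Real.continuous_sinh.continuousOn) (fun y _ => Real.hasDerivAt_sinh y)
    have h1 : Real.cosh c ≤ Real.cosh x := by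
      rw [Real.cosh_le_cosh, abs_of_pos hc.1, abs_of_pos h]
      exact hc.2.le
    rw [he, Real.sinh_zero, sub_zero, sub_zero, div_le_iff₀ h] at h1
    linarith

theorem A3_exp {a r : ℝ} (ha : 0 < a) : r * Real.exp (-(a * r)) ≤ 1 / a := by
  have h1 : a * r ≤ Real.exp (a * r) := by
    have := Real.add_one_le_exp (a * r)
    linarith
  have h2 : a * r * Real.exp (-(a * r)) ≤ 1 := by
    calc a * r * Real.exp (-(a * r)) ≤ Real.exp (a * r) * Real.exp (-(a * r)) :=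
          mul_le_mul_of_nonneg_right h1 (Real.exp_pos _).le
      _ = 1 := by rw [← Real.exp_add]; simp
  rw [le_div_iff₀ ha]
  calc r * Real.exp (-(a * r)) * a = a * r * Real.exp (-(a * r)) := by ring
    _ ≤ 1 := h2

/-- The facts about one field. -/
theorem A3_one {a b : ℝ} (ha : 0 < a) (hab : a ≤ b) {k Y Y' : ℝ → ℝ} {r : ℝ} (hr : 1 ≤ r)
    (hk : Continuous k) (hka : ∀ t, k t ≤ -a ^ 2) (hkb : ∀ t, -b ^ 2 ≤ k t) (h : Jac k Y Y')
    (h0 : Y r = 0) (h1 : Y' r = -1) :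
    Real.sinh a / a ≤ Y 0 ∧ (∀ τ, 0 ≤ τ → τ ≤ r → 0 ≤ Y τ ∧ Y τ ≤ Real.exp (-(a * τ)) * Y 0) ∧
      (∀ δ, 0 ≤ δ → δ ≤ 1 → Y (r - δ) ≤ Real.cosh b * δ) := by
  have hz := A3_rev h r
  have hkc : Continuous fun t => k (r - t) := hk.comp (by fun_prop)
  have hz0 : (fun t => Y (r - t)) 0 = 0 := by simpa using h0
  have hz1 : (fun t => -Y' (r - t)) 0 = 1 := by simp [h1]
  have hr0 : 0 < r := by linarith
  have hlow := fun {t : ℝ} (ht : 0 < t) =>
    jac_lower ha hkc (fun t => hka (r - t)) hz hz0 hz1 (t := t) ht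
  have hupp := fun {t : ℝ} (ht : 0 < t) =>
    jac_upper ha hkc (fun t => hka (r - t)) hab (fun t => hkb (r - t)) hz hz0 hz1 (t := t) ht
  have hL := hlow hr0
  have e0 : Y (r - r) = Y 0 := by simp
  refine ⟨?_, ?_, ?_⟩
  · have h2 := hL.2.1
    rw [e0] at h2
    refine le_trans ?_ h2
    gcongr
    rw [Real.sinh_le_sinh]
    nlinarith
  · intro τ hτ0 hτr
    constructor
    · rcases hτr.eq_or_lt with h3 | h3
      · rw [h3, h0]
      · have h4 := (hlow (t := r - τ) (by linarith)).2.1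
        simp only [sub_sub_cancel] at h4
        refine le_trans ?_ h4
        apply div_nonneg _ ha.le
        rw [Real.sinh_nonneg_iff]
        apply mul_nonneg ha.le
        linarith
    · have h3 := hL.2.2.2 (r - τ) (by linarith) (by linarith)
      rw [e0] at h3
      simp only [sub_sub_cancel] at h3
      exact h3
  · intro δ hδ0 hδ1
    rcases hδ0.eq_or_lt with h3 | h3
    · rw [← h3]
      simp [h0]
    · have h4 := (hupp h3).2
      refine le_trans h4 ?_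
      have hb : 0 < b := lt_of_lt_of_le ha hab
      rw [div_le_iff₀ hb]
      have h5 : Real.sinh (b * δ) ≤ b * δ * Real.cosh (b * δ) :=
        A3_sinh (by positivity)
      have h6 : Real.cosh (b * δ) ≤ Real.cosh b := by
        rw [Real.cosh_le_cosh, abs_of_nonneg (by positivity), abs_of_pos hb]
        nlinarith
      have h7 : b * δ * Real.cosh (b * δ) ≤ b * δ * Real.cosh b :=
        mul_le_mul_of_nonneg_left h6 (by positivity)
      linarith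

theorem jac_end {a b : ℝ} (ha : 0 < a) (hab : a ≤ b) : ∃ C : ℝ, 0 < C ∧
    ∀ (k₁ Y₁ Y₁' k₂ Y₂ Y₂' : ℝ → ℝ) (M r₁ r₂ : ℝ), 0 ≤ M → 1 ≤ r₁ → r₁ ≤ r₂ → r₂ ≤ r₁ + 1 →
    Continuous k₁ → Continuous k₂ → (∀ t, k₁ t ≤ -a ^ 2) → (∀ t, k₂ t ≤ -a ^ 2) →
    (∀ t, -b ^ 2 ≤ k₁ t) → (∀ t, -b ^ 2 ≤ k₂ t) → Jac k₁ Y₁ Y₁' → Jac k₂ Y₂ Y₂' →
    Y₁ r₁ = 0 → Y₁' r₁ = -1 → Y₂ r₂ = 0 → Y₂' r₂ = -1 →
    (∀ τ, 0 ≤ τ → τ ≤ r₁ → |k₁ τ - k₂ τ| ≤ M * Real.exp (-(a * (r₁ - τ)))) →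
    |Y₁' 0 / Y₁ 0 - Y₂' 0 / Y₂ 0| ≤ C * (M + (r₂ - r₁)) := by
  have hm : 0 < Real.sinh a / a := div_pos (Real.sinh_pos_iff.2 ha) ha
  have hcb : 0 < Real.cosh b := Real.cosh_pos b
  refine ⟨Real.cosh b / (Real.sinh a / a) ^ 2 + 1 / a, by positivity, ?_⟩
  intro k₁ Y₁ Y₁' k₂ Y₂ Y₂' M r₁ r₂ hM hr1 hr12 hr21 hk₁ hk₂ ha₁ ha₂ hb₁ hb₂ h₁ h₂ z₁ w₁ z₂ w₂ hd
  obtain ⟨m₁, d₁, -⟩ := A3_one ha hab hr1 hk₁ ha₁ hb₁ h₁ z₁ w₁
  obtain ⟨m₂, d₂, e₂⟩ := A3_one ha hab (hr1.trans hr12) hk₂ ha₂ hb₂ h₂ z₂ w₂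
  set m := Real.sinh a / a with hmdef
  have p₁ : 0 < Y₁ 0 := lt_of_lt_of_le hm m₁
  have p₂ : 0 < Y₂ 0 := lt_of_lt_of_le hm m₂
  set W : ℝ → ℝ := fun t => Y₁' t * Y₂ t - Y₁ t * Y₂' t with hW
  have hWd : ∀ t, HasDerivAt W (-(k₁ t - k₂ t) * (Y₁ t * Y₂ t)) t := by
    intro t
    have h3 := ((h₁.d2 t).mul (h₂.d1 t)).sub ((h₁.d1 t).mul (h₂.d2 t))
    have h4 : -k₁ t * Y₁ t * Y₂ t + Y₁' t * Y₂' t - (Y₁' t * Y₂' t + Y₁ t * (-k₂ t * Y₂ t)) =
        -(k₁ t - k₂ t) * (Y₁ t * Y₂ t) := by ring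
    rw [h4] at h3
    exact h3
  have hr10 : 0 ≤ r₁ := by linarith
  set P := Y₁ 0 * Y₂ 0 with hP
  have hPpos : 0 < P := mul_pos p₁ p₂
  have hbd : ∀ t ∈ Icc (0 : ℝ) r₁, ‖-(k₁ t - k₂ t) * (Y₁ t * Y₂ t)‖ ≤
      M * P * Real.exp (-(a * r₁)) := by
    intro t ht
    obtain ⟨q1, q2⟩ := d₁ t ht.1 ht.2
    obtain ⟨q3, q4⟩ := d₂ t ht.1 (ht.2.trans hr12)
    rw [Real.norm_eq_abs, abs_mul, abs_neg, abs_of_nonneg (mul_nonneg q1 q3)]
    have h5 : Y₁ t * Y₂ t ≤ (Real.exp (-(a * t)) * Y₁ 0) * (Real.exp (-(a * t)) * Y₂ 0) :=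
      mul_le_mul q2 q4 q3 (q1.trans q2)
    have h6 := hd t ht.1 ht.2
    calc |k₁ t - k₂ t| * (Y₁ t * Y₂ t)
        ≤ (M * Real.exp (-(a * (r₁ - t)))) *
          ((Real.exp (-(a * t)) * Y₁ 0) * (Real.exp (-(a * t)) * Y₂ 0)) :=
          mul_le_mul h6 h5 (mul_nonneg q1 q3) (by positivity)
      _ = M * P * (Real.exp (-(a * (r₁ - t))) * Real.exp (-(a * t)) * Real.exp (-(a * t))) := by
          rw [hP]; ring
      _ = M * P * Real.exp (-(a * r₁) + -(a * t)) := by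
          rw [← Real.exp_add, ← Real.exp_add]
          congr 2
          ring
      _ ≤ M * P * Real.exp (-(a * r₁)) := by
          gcongr
          have : 0 ≤ a * t := mul_nonneg ha.le ht.1
          linarith
  have hmv := Convex.norm_image_sub_le_of_norm_hasDerivWithin_le (f := W) (s := Icc (0 : ℝ) r₁)
    (x := r₁) (y := 0) (fun t ht => (hWd t).hasDerivWithinAt) hbd (convex_Icc 0 r₁)
    ⟨hr10, le_refl _⟩ ⟨le_refl _, hr10⟩
  rw [Real.norm_eq_abs, Real.norm_eq_abs, zero_sub, abs_neg, abs_of_nonneg hr10] at hmv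
  have hWr : W r₁ = -Y₂ r₁ := by
    simp only [hW]
    rw [z₁, w₁]
    ring
  have hY2 : 0 ≤ Y₂ r₁ := (d₂ r₁ hr10 hr12).1
  have hY2' : Y₂ r₁ ≤ Real.cosh b * (r₂ - r₁) := by
    have := e₂ (r₂ - r₁) (by linarith) (by linarith)
    simpa using this
  have hW0 : |W 0| ≤ M * P / a + Real.cosh b * (r₂ - r₁) := by
    have h7 : |W 0| ≤ |W 0 - W r₁| + |W r₁| := by
      have := abs_add_le (W 0 - W r₁) (W r₁)
      simpa using this
    have h8 : |W r₁| = Y₂ r₁ := by rw [hWr, abs_neg, abs_of_nonneg hY2]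
    have h9 : M * P * Real.exp (-(a * r₁)) * r₁ ≤ M * P / a := by
      calc M * P * Real.exp (-(a * r₁)) * r₁ = M * P * (r₁ * Real.exp (-(a * r₁))) := by ring
        _ ≤ M * P * (1 / a) := by
          gcongr
          exact A3_exp ha
        _ = M * P / a := by ring
    linarith
  have hdiff : Y₁' 0 / Y₁ 0 - Y₂' 0 / Y₂ 0 = W 0 / P := by
    simp only [hW, hP]
    field_simp
  rw [hdiff, abs_div, abs_of_pos hPpos, div_le_iff₀ hPpos]
  have hPm : m ^ 2 ≤ P := by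
    rw [hP, sq]
    exact mul_le_mul m₁ m₂ hm.le p₁.le
  have hδ : 0 ≤ r₂ - r₁ := by linarith
  have h10 : Real.cosh b * (r₂ - r₁) ≤ Real.cosh b / m ^ 2 * (r₂ - r₁) * P := by
    calc Real.cosh b * (r₂ - r₁) = Real.cosh b / m ^ 2 * (r₂ - r₁) * m ^ 2 := by
          field_simp
      _ ≤ Real.cosh b / m ^ 2 * (r₂ - r₁) * P := by gcongr
  have h11 : M * P / a ≤ 1 / a * M * P := by
    apply le_of_eq
    ring
  have h12 : 0 ≤ 1 / a * (r₂ - r₁) * P := by positivity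
  have h13 : 0 ≤ Real.cosh b / m ^ 2 * M * P := by positivity
  calc |W 0| ≤ M * P / a + Real.cosh b * (r₂ - r₁) := hW0
    _ ≤ 1 / a * M * P + Real.cosh b / m ^ 2 * (r₂ - r₁) * P := by linarith
    _ ≤ (Real.cosh b / m ^ 2 + 1 / a) * (M + (r₂ - r₁)) * P := by
      have : (Real.cosh b / m ^ 2 + 1 / a) * (M + (r₂ - r₁)) * P =
          1 / a * M * P + Real.cosh b / m ^ 2 * (r₂ - r₁) * P + 1 / a * (r₂ - r₁) * P +
            Real.cosh b / m ^ 2 * M * P := by ring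
      linarith

end SR85
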