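import Pool.Agent.LibSR85.P7
import Pool.Agent.LibSR85.B2
import Pool.Agent.LibSR85.B4

/-! Row SR85 B5: the direction to a far point is a Lipschitz function of the base point (over a
compact set), and the angle lemma for far points.

PLAN of `di_near`: the straight segment `q s = x + s (x' - x)` stays in the ball of radius one about
the compact set `N`; there `‖fi‖ ≤ C₁`, `‖om‖ ≤ C₁`; `d (q s) x ≤ C₂ ‖x' - x‖ ≤ 1` (`loc_lip`, for `η` small), so
`d (q s) y ≥ 2`; by `du` (moving first point) the derivative of `di (q s) y` has norm at most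
`|om (fi q')| + U y (q s) ‖fi q'‖ ≤ C ‖x' - x‖` (`U_le1`). Mean value inequality.
PLAN of `di_far`: `angle` with `j = sinh (a) / a`... `J x z ≥ sinh (a d x z) / a` for
`d y z ≤ d y y' ≤ 1`, `d x y ≥ 2`. PLAN of `J_two`: `distort1` in the second variable, `J_symm`, `distort1` again. -/

open MeasureTheory Set Filter Topology
open scoped ContDiff ENNReal NNReal ComplexConjugate

namespace SR85

open BGS (Pl Surface)

variable {Γ : Type} [Group Γ] [MulAction Γ Pl] {D : Set Pl} {G : Dat Γ}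

theorem di_near (h : HG D G) {N : Set Pl} (hN : IsCompact N) :
    ∃ C η₀ : ℝ, 0 < C ∧ 0 < η₀ ∧ ∀ x ∈ N, ∀ x' y : Pl, ‖x' - x‖ ≤ η₀ → 3 ≤ G.d x y →
      ‖G.di x y - G.di x' y‖ ≤ C * ‖x' - x‖ ∧ G.d x x' ≤ C * ‖x' - x‖ ∧ G.d x x' ≤ 1 := by
  obtain ⟨R, hR⟩ := hN.isBounded.subset_closedBall (0 : Pl)
  have hK : IsCompact (Metric.closedBall (0 : Pl) (R + 1)) := isCompact_closedBall _ _
  obtain ⟨C₀, hC₀⟩ := hK.exists_bound_of_continuousOn (f := G.fi) h.fi_cont.continuousOn
  obtain ⟨C₁, hC₁⟩ := hK.exists_bound_of_continuousOn (f := G.om) h.om_cont.continuousOn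
  obtain ⟨C₂, hC₂0, hC₂⟩ := loc_lip h hN.isBounded
  set CU : ℝ := G.b * Real.cosh G.b / Real.sinh G.b with hCU
  set P₀ : ℝ := max C₀ 0 with hP₀
  set P₁ : ℝ := max C₁ 0 with hP₁
  have hP₀0 : 0 ≤ P₀ := le_max_right _ _
  have hP₁0 : 0 ≤ P₁ := le_max_right _ _
  have hCU0 : 0 ≤ CU := by
    have hb : 0 < G.b := h.a_pos.trans_le h.ab
    have := Real.sinh_pos_iff.2 hb
    have := Real.cosh_pos G.b
    positivity
  set M : ℝ := P₁ * P₀ + CU * P₀ with hM
  have hM0 : 0 ≤ M := by positivity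
  refine ⟨M + C₂, min 1 C₂⁻¹, by positivity, lt_min one_pos (inv_pos.2 hC₂0), ?_⟩
  intro x hx x' y hxx' hxy
  have hxR : ‖x‖ ≤ R := by simpa using hR hx
  have hη1 : ‖x' - x‖ ≤ 1 := hxx'.trans (min_le_left _ _)
  have hη2 : ‖x' - x‖ ≤ C₂⁻¹ := hxx'.trans (min_le_right _ _)
  have hd1 : ∀ z, ‖z - x‖ ≤ ‖x' - x‖ → G.d x z ≤ 1 := by
    intro z hz
    refine (hC₂ x hx z (hz.trans hη1)).trans ?_
    calc C₂ * ‖z - x‖ ≤ C₂ * C₂⁻¹ := mul_le_mul_of_nonneg_left (hz.trans hη2) hC₂0.le
      _ = 1 := mul_inv_cancel₀ hC₂0.ne'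
  have hdx' : G.d x x' ≤ C₂ * ‖x' - x‖ := hC₂ x hx x' hη1
  refine ⟨?_, ?_, hd1 x' le_rfl⟩
  · set q : ℝ → Pl := fun s => x + s • (x' - x) with hq
    have hqd : ∀ s, HasDerivAt q (x' - x) s := by
      intro s
      have h1 : HasDerivAt (fun s : ℝ => s • (x' - x)) ((1 : ℝ) • (x' - x)) s :=
        (hasDerivAt_id s).smul_const (x' - x)
      rw [one_smul] at h1
      exact h1.const_add x
    have hder : ∀ s ∈ Icc (0 : ℝ) 1, ∃ g' : ℂ, ‖g'‖ ≤ M * ‖x' - x‖ ∧
        HasDerivAt (fun r : ℝ => G.di (q r) y) g' s := by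
      intro s hs
      have hqs : ‖q s - x‖ ≤ ‖x' - x‖ := by
        simp only [hq, add_sub_cancel_left]
        rw [norm_smul, Real.norm_eq_abs, abs_of_nonneg hs.1]
        exact mul_le_of_le_one_left (norm_nonneg _) hs.2
      have hmem : q s ∈ Metric.closedBall (0 : Pl) (R + 1) := by
        rw [mem_closedBall_zero_iff]
        have h3 : q s = x + (q s - x) := by rw [add_sub_cancel]
        rw [h3]
        linarith [norm_add_le x (q s - x)]
      have hdq : G.d x (q s) ≤ 1 := hd1 _ hqs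
      have hdqy : 2 ≤ G.d (q s) y := by
        have := h.d_tri x (q s) y
        linarith
      have hne : q s ≠ y := by
        intro e
        rw [e, d_self h] at hdqy
        linarith
      have h0 := h.du q (fun _ => y) (x' - x) 0 s (hqd s) (hasDerivAt_const s y) hne
      simp only [map_zero, zero_mul, Complex.zero_im, zero_div, sub_zero] at h0
      refine ⟨_, ?_, h0⟩
      rw [norm_mul, norm_mul, Complex.norm_I, one_mul, di_norm h hne, one_mul, Complex.norm_real,
        Real.norm_eq_abs]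
      have hfi : ‖G.fi (q s) (x' - x)‖ ≤ P₀ * ‖x' - x‖ :=
        (ContinuousLinearMap.le_opNorm _ _).trans
          (mul_le_mul_of_nonneg_right ((hC₀ _ hmem).trans (le_max_left _ _)) (norm_nonneg _))
      have hom : |G.om (q s) (G.fi (q s) (x' - x))| ≤ P₁ * (P₀ * ‖x' - x‖) := by
        have h1 := ContinuousLinearMap.le_opNorm (G.om (q s)) (G.fi (q s) (x' - x))
        rw [Real.norm_eq_abs] at h1
        refine h1.trans ?_
        exact mul_le_mul ((hC₁ _ hmem).trans (le_max_left _ _)) hfi (norm_nonneg _) hP₁0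
      have hU : |G.U y (q s)| ≤ CU := by
        have h1 : 1 ≤ G.d y (q s) := by
          rw [h.d_symm]
          linarith
        have h2 : G.a ≤ G.U y (q s) := U_low h (fun e => hne e.symm)
        rw [abs_of_nonneg (h.a_pos.le.trans h2)]
        exact U_le1 h h1
      have him : |(G.fi (q s) (x' - x) * conj (G.di (q s) y)).im| ≤ P₀ * ‖x' - x‖ := by
        refine (Complex.abs_im_le_norm _).trans ?_
        rw [norm_mul, RCLike.norm_conj, di_norm h hne, mul_one]
        exact hfi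
      calc |-(G.om (q s) (G.fi (q s) (x' - x))) -
            G.U y (q s) * (G.fi (q s) (x' - x) * conj (G.di (q s) y)).im|
          ≤ |G.om (q s) (G.fi (q s) (x' - x))| +
            |G.U y (q s)| * |(G.fi (q s) (x' - x) * conj (G.di (q s) y)).im| := by
            rw [← abs_mul]
            refine (abs_sub _ _).trans ?_
            rw [abs_neg]
        _ ≤ P₁ * (P₀ * ‖x' - x‖) + CU * (P₀ * ‖x' - x‖) :=
            add_le_add hom (mul_le_mul hU him (abs_nonneg _) hCU0)
        _ = M * ‖x' - x‖ := by rw [hM]; ring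
    choose! g' hg1 hg2 using hder
    have hmv := (convex_Icc (0 : ℝ) 1).norm_image_sub_le_of_norm_hasDerivWithin_le
      (f := fun r : ℝ => G.di (q r) y) (f' := g') (C := M * ‖x' - x‖)
      (fun s hs => (hg2 s hs).hasDerivWithinAt) (fun s hs => hg1 s hs)
      (right_mem_Icc.2 zero_le_one) (left_mem_Icc.2 zero_le_one)
    simp only [hq, zero_smul, add_zero, one_smul, add_sub_cancel, zero_sub, norm_neg, norm_one,
      mul_one] at hmv
    refine hmv.trans ?_
    have := norm_nonneg (x' - x)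
    nlinarith
  · refine hdx'.trans ?_
    have := norm_nonneg (x' - x)
    nlinarith

theorem di_far (h : HG D G) : ∃ C : ℝ, 0 < C ∧ ∀ x y y' : Pl, G.d y y' ≤ 1 → 2 ≤ G.d x y →
    ‖G.di x y - G.di x y'‖ ≤ C * G.d y y' * Real.exp (-(G.a * G.d x y)) := by
  have ha := h.a_pos
  have hE : 0 < 1 - Real.exp (-(2 * G.a)) := by
    have : Real.exp (-(2 * G.a)) < 1 := by
      rw [Real.exp_lt_one_iff]
      linarith
    linarith
  refine ⟨2 * G.a * Real.exp G.a / (1 - Real.exp (-(2 * G.a))), by positivity, ?_⟩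
  intro x y y' hyy hxy
  set r := G.d x y with hr
  have hr1 : G.a ≤ G.a * (r - 1) := by nlinarith
  have hsinh : Real.exp (G.a * (r - 1)) * (1 - Real.exp (-(2 * G.a))) / 2 ≤
      Real.sinh (G.a * (r - 1)) := by
    rw [Real.sinh_eq, mul_sub, mul_one, ← Real.exp_add]
    have h1 : Real.exp (-(G.a * (r - 1))) ≤ Real.exp (G.a * (r - 1) + -(2 * G.a)) := by
      apply Real.exp_le_exp.2
      linarith
    linarith
  have hs0 : 0 < Real.sinh (G.a * (r - 1)) := Real.sinh_pos_iff.2 (ha.trans_le hr1)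
  have hj : 0 < Real.sinh (G.a * (r - 1)) / G.a := div_pos hs0 ha
  have hang := angle h x y y' hj (by
    intro z hz
    have h1 : r - 1 ≤ G.d x z := by
      have h2 := h.d_tri x z y
      rw [h.d_symm z y] at h2
      linarith
    have hne : x ≠ z := by
      intro e
      rw [← e, d_self h] at h1
      linarith
    refine ⟨fun e => hne e.symm, (div_le_div_of_nonneg_right ?_ ha.le).trans (J_low h hne)⟩
    apply Real.sinh_le_sinh.2
    exact mul_le_mul_of_nonneg_left h1 ha.le)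
  refine hang.trans ?_
  have hd0 : 0 ≤ G.d y y' := norm_nonneg _
  have key : (Real.sinh (G.a * (r - 1)) / G.a)⁻¹ ≤
      2 * G.a * Real.exp G.a / (1 - Real.exp (-(2 * G.a))) * Real.exp (-(G.a * r)) := by
    rw [inv_div, div_le_iff₀ hs0]
    have h1 : Real.exp (-(G.a * r)) * Real.exp G.a * Real.exp (G.a * (r - 1)) = 1 := by
      rw [← Real.exp_add, ← Real.exp_add]
      have h0 : -(G.a * r) + G.a + G.a * (r - 1) = 0 := by ring
      rw [h0, Real.exp_zero]
    have h2 : 0 ≤ 2 * G.a * Real.exp G.a / (1 - Real.exp (-(2 * G.a))) *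
        Real.exp (-(G.a * r)) := by positivity
    refine le_trans (le_of_eq ?_) (mul_le_mul_of_nonneg_left hsinh h2)
    have h3 : 2 * G.a * Real.exp G.a / (1 - Real.exp (-(2 * G.a))) * Real.exp (-(G.a * r)) *
        (Real.exp (G.a * (r - 1)) * (1 - Real.exp (-(2 * G.a))) / 2) =
        G.a * (Real.exp (-(G.a * r)) * Real.exp G.a * Real.exp (G.a * (r - 1))) := by
      field_simp
    rw [h3, h1, mul_one]
  calc G.d y y' / (Real.sinh (G.a * (r - 1)) / G.a)
      = G.d y y' * (Real.sinh (G.a * (r - 1)) / G.a)⁻¹ := div_eq_mul_inv _ _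
    _ ≤ G.d y y' * (2 * G.a * Real.exp G.a / (1 - Real.exp (-(2 * G.a))) *
        Real.exp (-(G.a * r))) := mul_le_mul_of_nonneg_left key hd0
    _ = 2 * G.a * Real.exp G.a / (1 - Real.exp (-(2 * G.a))) * G.d y y' *
        Real.exp (-(G.a * r)) := by ring

theorem J_two (h : HG D G) : ∃ C : ℝ, 0 < C ∧ ∀ x x' y y' : Pl, G.d x x' ≤ 1 → G.d y y' ≤ 1 →
    4 ≤ G.d x y → |Real.log (G.J x y) - Real.log (G.J x' y')| ≤ C * (G.d x x' + G.d y y') ∧
      |G.U x y - G.U x' y'| ≤ C * (G.d x x' + G.d y y') := by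
  obtain ⟨C₁, hC₁, hd⟩ := distort1 h
  obtain ⟨C₂, hC₂, hu⟩ := U_far h
  refine ⟨C₁ + C₂, by positivity, ?_⟩
  intro x x' y y' hxx hyy hxy
  have h0x : 0 ≤ G.d x x' := norm_nonneg _
  have h0y : 0 ≤ G.d y y' := norm_nonneg _
  obtain ⟨h1, h2⟩ := hd x y y' hyy (by linarith)
  have h3 : 3 ≤ G.d y' x := by
    have h4 := h.d_tri x y' y
    rw [h.d_symm y' y] at h4
    rw [h.d_symm]
    linarith
  obtain ⟨h4, -⟩ := hd y' x x' hxx (by linarith)
  rw [J_symm h y' x, J_symm h y' x'] at h4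
  have h5 := hu y' x x' hxx (by linarith)
  constructor
  · have h6 := abs_sub_le (Real.log (G.J x y)) (Real.log (G.J x y')) (Real.log (G.J x' y'))
    nlinarith
  · have h6 := abs_sub_le (G.U x y) (G.U x y') (G.U x' y')
    nlinarith

end SR85
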