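import Pool.Agent.LibSR85.B1

/-! Row SR85 C1: asymptotic directions. `At o x u` is the direction at `o` of the ray
`s ↦ E x (s u)`.

PLAN of `at_lim`. `f s = di o (E x (s u))`; for `s ≥ d o x + 1` the point is at distance at least
`s - d o x ≥ 1` from `o`, so `f` is differentiable with `‖f'‖ ≤ 1 / J o (..) ≤
a / sinh (a (s - d o x)) ≤ (C a) e^{-a (s - d o x)}` (`angle_der`, `E_t`, `J_low`). So `f` is
Cauchy with the stated rate (`‖f s - f t‖ ≤ ∫ ≤ C e^{-a (s - d o x)}`, mean value inequality on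
pieces of length one and a geometric series, or an integral bound). `At` is the limit; its norm is
one. `at_self`: `di x (E x (s u)) = u` for `s > 0`. `at_smul`: `di_smul`, `E_smul` (in P5, not
needed here if you prove it from the fields). -/

open MeasureTheory Set Filter Topology
open scoped ContDiff ENNReal NNReal ComplexConjugate

namespace SR85

open BGS (Pl Surface)

variable {Γ : Type} [Group Γ] [MulAction Γ Pl] {D : Set Pl} {G : Dat Γ}

/-- The direction at `o` asymptotic to the ray from `x` with direction `u`. -/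
noncomputable def At (G : Dat Γ) (o x : Pl) (u : ℂ) : ℂ :=
  limUnder atTop fun s : ℝ => G.di o (G.E x ((s : ℂ) * u))

/-- the distance from `o` to the ray -/
private theorem C1_far (h : HG D G) (o x : Pl) {u : ℂ} (hu : ‖u‖ = 1) (s : ℝ) :
    s - G.d o x ≤ G.d o (G.E x ((s : ℂ) * u)) := by
  have h1 := h.d_tri x o (G.E x ((s : ℂ) * u))
  rw [d_E h x hu, h.d_symm x o] at h1
  have := le_abs_self s
  linarith

private theorem C1_sinh {a r : ℝ} (ha : 0 < a) (hr : 1 ≤ r) :
    a / Real.sinh (a * r) ≤ a * (2 / (1 - Real.exp (-(2 * a)))) * Real.exp (-(a * r)) := by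
  have h0 : Real.exp (-(2 * a)) < 1 := by
    rw [Real.exp_lt_one_iff]
    linarith
  have h1 : 0 < 1 - Real.exp (-(2 * a)) := by linarith
  have har : 0 < a * r := by positivity
  have hs : 0 < Real.sinh (a * r) := Real.sinh_pos_iff.2 har
  rw [div_le_iff₀ hs]
  have h2 : Real.exp (-(a * r)) * Real.exp (a * r) = 1 := by
    rw [← Real.exp_add, neg_add_cancel, Real.exp_zero]
  have h3 : Real.exp (-(a * r)) * Real.exp (-(a * r)) ≤ Real.exp (-(2 * a)) := by
    rw [← Real.exp_add]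
    refine Real.exp_le_exp.2 ?_
    nlinarith
  have h4 : 1 - Real.exp (-(2 * a)) ≤
      2 * (Real.exp (-(a * r)) * Real.sinh (a * r)) := by
    rw [Real.sinh_eq]
    have : 2 * (Real.exp (-(a * r)) * ((Real.exp (a * r) - Real.exp (-(a * r))) / 2)) =
        Real.exp (-(a * r)) * Real.exp (a * r) - Real.exp (-(a * r)) * Real.exp (-(a * r)) := by
      ring
    rw [this, h2]
    linarith
  have h5 : 1 ≤ 2 * (Real.exp (-(a * r)) * Real.sinh (a * r)) / (1 - Real.exp (-(2 * a))) := by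
    rw [le_div_iff₀ h1]
    linarith
  calc a = a * 1 := (mul_one a).symm
    _ ≤ a * (2 * (Real.exp (-(a * r)) * Real.sinh (a * r)) / (1 - Real.exp (-(2 * a)))) :=
        mul_le_mul_of_nonneg_left h5 ha.le
    _ = _ := by ring

/-- the Cauchy estimate -/
private theorem C1_cauchy (h : HG D G) (o x : Pl) {u : ℂ} (hu : ‖u‖ = 1) {s t : ℝ}
    (hs : G.d o x + 1 ≤ s) (hst : s ≤ t) :
    ‖G.di o (G.E x ((t : ℂ) * u)) - G.di o (G.E x ((s : ℂ) * u))‖ ≤
      2 / (1 - Real.exp (-(2 * G.a))) * Real.exp (-(G.a * (s - G.d o x))) := by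
  have ha := h.a_pos
  obtain ⟨δ, hδ⟩ : ∃ δ : ℝ, δ = G.d o x := ⟨_, rfl⟩
  rw [← hδ] at hs ⊢
  obtain ⟨C, hC⟩ : ∃ C : ℝ, C = 2 / (1 - Real.exp (-(2 * G.a))) := ⟨_, rfl⟩
  have h0 : Real.exp (-(2 * G.a)) < 1 := by
    rw [Real.exp_lt_one_iff]
    linarith
  have hC0 : 0 < C := by
    rw [hC]
    exact div_pos two_pos (by linarith)
  rw [← hC]
  -- the derivative
  have hder : ∀ r : ℝ, δ + 1 ≤ r → ∃ f' : ℂ, ‖f'‖ ≤ G.a * C * Real.exp (-(G.a * (r - δ))) ∧
      HasDerivAt (fun r : ℝ => G.di o (G.E x ((r : ℂ) * u))) f' r := by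
    intro r hr
    have hfar := C1_far h o x hu r
    rw [← hδ] at hfar
    have hne : G.E x ((r : ℂ) * u) ≠ o := by
      intro he
      rw [he, d_self h] at hfar
      linarith
    obtain ⟨p, hp, hpf⟩ := h.E_t x u hu r
    obtain ⟨w, hw, hwd⟩ := angle_der h o (q := fun s : ℝ => G.E x ((s : ℂ) * u)) hp hne
    refine ⟨_, ?_, hwd⟩
    have hdi : ‖G.di o (G.E x ((r : ℂ) * u))‖ = 1 := di_norm h hne.symm
    rw [norm_mul, norm_mul, Complex.norm_I, one_mul, hdi, one_mul, Complex.norm_real,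
      Real.norm_eq_abs]
    have hpf' : G.fi ((fun s : ℝ => G.E x ((s : ℂ) * u)) r) p = G.dr x u r := hpf
    rw [hpf', h.dr_norm x u hu r] at hw
    refine hw.trans ?_
    have hJ := J_low h hne.symm
    have hd0 : 1 ≤ G.d o (G.E x ((r : ℂ) * u)) := by linarith
    have hr1 : 1 ≤ r - δ := by linarith
    have hs1 : 0 < Real.sinh (G.a * (r - δ)) := Real.sinh_pos_iff.2 (by positivity)
    have hs2 : Real.sinh (G.a * (r - δ)) ≤ Real.sinh (G.a * G.d o (G.E x ((r : ℂ) * u))) :=
      Real.sinh_le_sinh.2 (mul_le_mul_of_nonneg_left hfar ha.le)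
    have hJ2 : Real.sinh (G.a * (r - δ)) / G.a ≤ G.J o (G.E x ((r : ℂ) * u)) :=
      (div_le_div_of_nonneg_right hs2 ha.le).trans hJ
    calc 1 / G.J o (G.E x ((r : ℂ) * u)) ≤ 1 / (Real.sinh (G.a * (r - δ)) / G.a) :=
          one_div_le_one_div_of_le (by positivity) hJ2
      _ = G.a / Real.sinh (G.a * (r - δ)) := one_div_div _ _
      _ ≤ G.a * (2 / (1 - Real.exp (-(2 * G.a)))) * Real.exp (-(G.a * (r - δ))) :=
          C1_sinh ha hr1
      _ = _ := by rw [hC]
  choose! f' hf'1 hf'2 using hder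
  have hB : ∀ r : ℝ, HasDerivAt (fun r => C * (Real.exp (-(G.a * (s - δ))) -
      Real.exp (-(G.a * (r - δ))))) (G.a * C * Real.exp (-(G.a * (r - δ)))) r := by
    intro r
    have e1 : HasDerivAt (fun r => -(G.a * (r - δ))) (-(G.a * 1)) r :=
      (((hasDerivAt_id r).sub_const δ).const_mul G.a).neg
    have e2 := ((e1.exp).const_sub (Real.exp (-(G.a * (s - δ))))).const_mul C
    have e3 : C * -(Real.exp (-(G.a * (r - δ))) * -(G.a * 1)) =
        G.a * C * Real.exp (-(G.a * (r - δ))) := by ring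
    rw [← e3]
    exact e2
  have hfin := image_norm_le_of_norm_deriv_right_le_deriv_boundary
    (f := fun r : ℝ => G.di o (G.E x ((r : ℂ) * u)) - G.di o (G.E x ((s : ℂ) * u)))
    (f' := f') (a := s) (b := t)
    (fun r hr => ((hf'2 r (by linarith [hr.1])).continuousAt.sub
      continuousAt_const).continuousWithinAt)
    (fun r hr => ((hf'2 r (by linarith [hr.1])).sub_const _).hasDerivWithinAt)
    (B := fun r => C * (Real.exp (-(G.a * (s - δ))) - Real.exp (-(G.a * (r - δ)))))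
    (B' := fun r => G.a * C * Real.exp (-(G.a * (r - δ))))
    (by simp) hB (fun r hr => hf'1 r (by linarith [hr.1])) (x := t) ⟨hst, le_rfl⟩
  refine hfin.trans (mul_le_mul_of_nonneg_left ?_ hC0.le)
  have := Real.exp_pos (-(G.a * (t - δ)))
  linarith

theorem at_lim (h : HG D G) : ∃ C : ℝ, 0 < C ∧ ∀ (o x : Pl) (u : ℂ), ‖u‖ = 1 →
    Tendsto (fun s : ℝ => G.di o (G.E x ((s : ℂ) * u))) atTop (𝓝 (At G o x u)) ∧
      ‖At G o x u‖ = 1 ∧ ∀ s : ℝ, G.d o x + 1 ≤ s →
        ‖G.di o (G.E x ((s : ℂ) * u)) - At G o x u‖ ≤ C * Real.exp (-(G.a * (s - G.d o x))) := by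
  have ha := h.a_pos
  have h0 : Real.exp (-(2 * G.a)) < 1 := by
    rw [Real.exp_lt_one_iff]
    linarith
  obtain ⟨C, hC⟩ : ∃ C : ℝ, C = 2 / (1 - Real.exp (-(2 * G.a))) := ⟨_, rfl⟩
  have hC0 : 0 < C := by
    rw [hC]
    exact div_pos two_pos (by linarith)
  refine ⟨C, hC0, fun o x u hu => ?_⟩
  have hcau : ∀ s t : ℝ, G.d o x + 1 ≤ s → s ≤ t →
      ‖G.di o (G.E x ((t : ℂ) * u)) - G.di o (G.E x ((s : ℂ) * u))‖ ≤
        C * Real.exp (-(G.a * (s - G.d o x))) := by
    intro s t hs hst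
    rw [hC]
    exact C1_cauchy h o x hu hs hst
  have hlim0 : Tendsto (fun s : ℝ => C * Real.exp (-(G.a * (s - G.d o x)))) atTop (𝓝 0) := by
    have e1 : Tendsto (fun s : ℝ => G.a * (s - G.d o x)) atTop atTop := by
      refine Tendsto.const_mul_atTop ha ?_
      exact tendsto_atTop_add_const_right _ _ tendsto_id
    have e2 : Tendsto (fun s : ℝ => Real.exp (-(G.a * (s - G.d o x)))) atTop (𝓝 0) :=
      Real.tendsto_exp_atBot.comp (tendsto_neg_atTop_atBot.comp e1)
    have e3 := e2.const_mul C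
    rwa [mul_zero] at e3
  have hcs : CauchySeq fun s : ℝ => G.di o (G.E x ((s : ℂ) * u)) := by
    rw [Metric.cauchySeq_iff']
    intro ε hε
    obtain ⟨N, hN1, hN2⟩ := ((hlim0.eventually (gt_mem_nhds hε)).and
      (eventually_ge_atTop (G.d o x + 1))).exists
    refine ⟨N, fun n hn => ?_⟩
    rw [dist_eq_norm]
    exact (hcau N n hN2 hn).trans_lt hN1
  obtain ⟨v, hv⟩ := cauchySeq_tendsto_of_complete hcs
  have hAt : At G o x u = v := hv.limUnder_eq
  rw [hAt]
  refine ⟨hv, ?_, ?_⟩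
  · have h1 : Tendsto (fun s : ℝ => ‖G.di o (G.E x ((s : ℂ) * u))‖) atTop (𝓝 ‖v‖) := hv.norm
    have h2 : Tendsto (fun s : ℝ => ‖G.di o (G.E x ((s : ℂ) * u))‖) atTop (𝓝 1) := by
      refine tendsto_const_nhds.congr' ?_
      filter_upwards [eventually_ge_atTop (G.d o x + 1)] with s hs
      have hfar := C1_far h o x hu s
      have hne : o ≠ G.E x ((s : ℂ) * u) := by
        intro he
        rw [← he, d_self h] at hfar
        linarith
      exact (di_norm h hne).symm
    exact tendsto_nhds_unique h1 h2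
  · intro s hs
    have h1 : Tendsto (fun t : ℝ => ‖G.di o (G.E x ((t : ℂ) * u)) -
        G.di o (G.E x ((s : ℂ) * u))‖) atTop (𝓝 ‖v - G.di o (G.E x ((s : ℂ) * u))‖) :=
      (hv.sub_const _).norm
    rw [norm_sub_rev]
    refine le_of_tendsto h1 ?_
    filter_upwards [eventually_ge_atTop s] with t ht
    exact hcau s t hs ht

theorem at_self (h : HG D G) (x : Pl) {u : ℂ} (hu : ‖u‖ = 1) : At G x x u = u := by
  have h1 : Tendsto (fun s : ℝ => G.di x (G.E x ((s : ℂ) * u))) atTop (𝓝 u) := by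
    refine tendsto_const_nhds.congr' ?_
    filter_upwards [eventually_gt_atTop 0] with s hs
    exact (di_E h x hu hs).symm
  exact h1.limUnder_eq

end SR85
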