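import Pool.Agent.LibSR85.B3
import Pool.Agent.LibSR85.C1

/-! Row SR85 C2: the ray `s ↦ E x (s u)` and the asymptotic ray at `o` are exponentially close
after a shift `b`.

PLAN. Let `δ = d o x`, `z n = E x (n u)` (`n` real, large), `v n = di o (z n)`,
`b n = d o (z n) - n`. `b` is antitone (triangle inequality: `d o (z m) ≤ d o (z n) + (m - n)`)
and bounded by `δ` in absolute value, so it converges to some `b`, `|b| ≤ δ`. For `s ≥ δ` and
`n ≥ s` large, `contr` with `o := z n`, the points `x` and `o`, and `τ = n - s`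
(`τ + δ ≤ n = d (z n) x`): `E (z n) (τ di (z n) x) = E x (s u)` (`E_rev`, `di_back`) and
`E (z n) (τ di (z n) o) = E o ((d o (z n) - τ) v n) = E o ((b n + s) v n)` (the same for the
segment from `o` to `z n`), so their distance is at most `δ e^{a δ} e^{-a s}`. Let `n → ∞`
(`at_lim`, `E_cont`, `V_cont`). -/

open MeasureTheory Set Filter Topology
open scoped ContDiff ENNReal NNReal ComplexConjugate

namespace SR85

open BGS (Pl Surface)

variable {Γ : Type} [Group Γ] [MulAction Γ Pl] {D : Set Pl} {G : Dat Γ}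

theorem ray_close (h : HG D G) (o x : Pl) {u : ℂ} (hu : ‖u‖ = 1) :
    ∃ b : ℝ, |b| ≤ G.d o x ∧ ∀ s : ℝ, G.d o x ≤ s →
      G.d (G.E x ((s : ℂ) * u)) (G.E o (((s + b : ℝ) : ℂ) * At G o x u)) ≤
        G.d o x * Real.exp (G.a * G.d o x) * Real.exp (-(G.a * s)) := by
  obtain ⟨C, hC0, hat⟩ := at_lim h
  obtain ⟨hlim, hAt1, -⟩ := hat o x u hu
  obtain ⟨δ, hδ⟩ : ∃ δ : ℝ, δ = G.d o x := ⟨_, rfl⟩
  rw [← hδ]
  -- the shift
  obtain ⟨β, hβ⟩ : ∃ β : ℝ → ℝ, β = fun n : ℝ => G.d o (G.E x ((n : ℂ) * u)) - n := ⟨_, rfl⟩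
  have hanti : Antitone β := by
    intro n m hnm
    rw [hβ]
    show G.d o (G.E x ((m : ℂ) * u)) - m ≤ G.d o (G.E x ((n : ℂ) * u)) - n
    have h1 := h.d_tri o (G.E x ((n : ℂ) * u)) (G.E x ((m : ℂ) * u))
    rw [d_geo h x hu, abs_of_nonneg (by linarith)] at h1
    linarith
  have hlow : ∀ n, -δ ≤ β n := by
    intro n
    rw [hβ]
    show -δ ≤ G.d o (G.E x ((n : ℂ) * u)) - n
    have h1 := h.d_tri x o (G.E x ((n : ℂ) * u))
    rw [d_E h x hu, h.d_symm x o, ← hδ] at h1
    have := le_abs_self n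
    linarith
  have hbdd : BddBelow (Set.range β) := ⟨-δ, by rintro _ ⟨n, rfl⟩; exact hlow n⟩
  have hblim : Tendsto β atTop (𝓝 (⨅ n, β n)) := tendsto_atTop_ciInf hanti hbdd
  obtain ⟨b, hb⟩ : ∃ b : ℝ, b = ⨅ n, β n := ⟨_, rfl⟩
  rw [← hb] at hblim
  refine ⟨b, ?_, fun s hs => ?_⟩
  · rw [abs_le, hb]
    refine ⟨le_ciInf hlow, ?_⟩
    refine (ciInf_le hbdd 0).trans (le_of_eq ?_)
    rw [hβ, hδ]
    show G.d o (G.E x (((0 : ℝ) : ℂ) * u)) - 0 = G.d o x
    rw [Complex.ofReal_zero, zero_mul, h.E_zero, sub_zero]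
  · -- the estimate for large `n`
    have hδ0 : 0 ≤ δ := by
      rw [hδ]
      exact norm_nonneg _
    have key : ∀ n : ℝ, max s (δ + 1) ≤ n →
        G.d (G.E x ((s : ℂ) * u)) (G.E o (((s + β n : ℝ) : ℂ) *
          G.di o (G.E x ((n : ℂ) * u)))) ≤ δ * Real.exp (G.a * δ) * Real.exp (-(G.a * s)) := by
      intro n hn
      have hns : s ≤ n := (le_max_left _ _).trans hn
      have hnδ : δ + 1 ≤ n := (le_max_right _ _).trans hn
      have hn0 : 0 < n := by linarith
      obtain ⟨z, hz⟩ : ∃ z : Pl, z = G.E x ((n : ℂ) * u) := ⟨_, rfl⟩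
      have hzx : G.d z x = n := by
        rw [h.d_symm, hz, d_E h x hu, abs_of_pos hn0]
      have hzo : z ≠ o := by
        intro he
        have h1 := h.d_tri x o z
        rw [he, d_self h, h.d_symm x o, ← hδ] at h1
        have h2 : G.d x o = n := by rw [← he, h.d_symm, hzx]
        rw [h.d_symm, ← hδ] at h2
        linarith
      have h1 := contr h z x o (τ := n - s) (by linarith)
        (by rw [hzx, h.d_symm x o, ← hδ]; linarith)
      have e1 : G.E z (((n - s : ℝ) : ℂ) * G.di z x) = G.E x ((s : ℂ) * u) := by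
        have h2 : G.di z x = -G.dr x u n := by
          rw [hz]
          exact di_back h x hu hn0
        rw [h2, hz, E_rev h x hu n (n - s), sub_sub_cancel]
      have e2 : G.E z (((n - s : ℝ) : ℂ) * G.di z o) =
          G.E o (((s + β n : ℝ) : ℂ) * G.di o z) := by
        have h2 : G.di z o = -G.dr o (G.di o z) (G.d o z) := by
          rw [dr_di h hzo.symm, neg_neg]
        have h3 : G.E o ((G.d o z : ℂ) * G.di o z) = z := E_di h o z
        have h4 := E_rev h o (di_norm h hzo.symm) (G.d o z) (n - s)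
        rw [h3, ← h2] at h4
        rw [h4]
        have h5 : G.d o z - (n - s) = s + β n := by
          rw [hβ, hz]
          show G.d o (G.E x ((n : ℂ) * u)) - (n - s) = s + (G.d o (G.E x ((n : ℂ) * u)) - n)
          ring
        rw [h5]
      rw [e1, e2] at h1
      rw [← hz]
      refine h1.trans (le_of_eq ?_)
      rw [hzx, h.d_symm x o, ← hδ, mul_assoc, ← Real.exp_add]
      congr 2
      ring
    have hE : Continuous fun q : ℝ × ℂ => G.d (G.E x ((s : ℂ) * u))
        (G.E o (((s + q.1 : ℝ) : ℂ) * q.2)) := by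
      have c1 : Continuous fun q : ℝ × ℂ => (((s + q.1 : ℝ) : ℂ) * q.2) :=
        (Complex.continuous_ofReal.comp (continuous_const.add continuous_fst)).mul continuous_snd
      have c2 : Continuous fun q : ℝ × ℂ => G.E o (((s + q.1 : ℝ) : ℂ) * q.2) :=
        h.E_cont.comp (continuous_const.prodMk c1)
      exact (h.V_cont.comp (continuous_const.prodMk c2)).norm
    have hT : Tendsto (fun n : ℝ => (β n, G.di o (G.E x ((n : ℂ) * u)))) atTop
        (𝓝 (b, At G o x u)) := hblim.prodMk_nhds hlim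
    have hfin := (hE.tendsto (b, At G o x u)).comp hT
    refine le_of_tendsto hfin ?_
    filter_upwards [eventually_ge_atTop (max s (δ + 1))] with n hn
    exact key n hn

end SR85
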