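import Pool.Agent.LibSR85.C2

/-! Row SR85 C3: being asymptotic is symmetric.

PLAN. Let `v = At o y w`. By `ray_close` (with `x := y`, `u := w`) the points `p s = E y (s w)` and
`q s = E o ((s + b) v)` are at distance `≤ C e^{-a s}`. `di y (p s) = w` (`di_E`). By `angle` (from
`y`; every point `z` with `d (p s) z ≤ d (p s) (q s) ≤ 1` has `d y z ≥ s - 1`, so
`J y z ≥ 1` for large `s`, `J_low`), `‖di y (p s) - di y (q s)‖ ≤ C e^{-a s}`. Hence
`di y (q s) → w`; and `di y (q s) → At y o v` by `at_lim` (`s + b → ∞`). -/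

open MeasureTheory Set Filter Topology
open scoped ContDiff ENNReal NNReal ComplexConjugate

namespace SR85

open BGS (Pl Surface)

variable {Γ : Type} [Group Γ] [MulAction Γ Pl] {D : Set Pl} {G : Dat Γ}

theorem at_at (h : HG D G) (o y : Pl) {w : ℂ} (hw : ‖w‖ = 1) : At G y o (At G o y w) = w := by
  obtain ⟨C, -, hlim⟩ := at_lim h
  set v := At G o y w with hv
  have hv1 : ‖v‖ = 1 := (hlim o y w hw).2.1
  obtain ⟨b, -, hb⟩ := ray_close h o y hw
  rw [← hv] at hb
  set M : ℝ := G.d o y * Real.exp (G.a * G.d o y) with hM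
  have ha := h.a_pos
  have hdec : Tendsto (fun s : ℝ => M * Real.exp (-(G.a * s))) atTop (𝓝 0) := by
    have h1 : Tendsto (fun s : ℝ => G.a * s) atTop atTop := tendsto_id.const_mul_atTop ha
    have h2 := (Real.tendsto_exp_neg_atTop_nhds_zero.comp h1).const_mul M
    rw [mul_zero] at h2
    exact h2
  have hsmall : ∀ᶠ s : ℝ in atTop, M * Real.exp (-(G.a * s)) < 1 :=
    (tendsto_order.1 hdec).2 1 one_pos
  have hclose : ∀ᶠ s : ℝ in atTop,
      ‖G.di y (G.E o (((s + b : ℝ) : ℂ) * v)) - w‖ ≤ M * Real.exp (-(G.a * s)) := by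
    filter_upwards [hsmall, eventually_ge_atTop (G.d o y), eventually_ge_atTop 2] with s h1 h2 h3
    have hpq := hb s h2
    have hs0 : 0 < s := by linarith
    have hang := angle h y (G.E y ((s : ℂ) * w)) (G.E o (((s + b : ℝ) : ℂ) * v)) one_pos (by
      intro z hz
      have hz1 : G.d (G.E y ((s : ℂ) * w)) z ≤ 1 := hz.trans (hpq.trans h1.le)
      have ht := h.d_tri y z (G.E y ((s : ℂ) * w))
      rw [d_E h y hw, abs_of_pos hs0, h.d_symm z] at ht
      have hd : s - 1 ≤ G.d y z := by linarith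
      have hne : z ≠ y := by
        rintro rfl
        rw [d_self h] at hd
        linarith
      refine ⟨hne, ?_⟩
      have h4 := J_low h hne.symm
      have h5 : G.a * G.d y z ≤ Real.sinh (G.a * G.d y z) :=
        Real.self_le_sinh_iff.2 (mul_nonneg ha.le (by linarith))
      have h6 : G.d y z ≤ Real.sinh (G.a * G.d y z) / G.a := by
        rw [le_div_iff₀ ha]
        linarith
      linarith)
    rw [di_E h y hw hs0, div_one] at hang
    rw [norm_sub_rev]
    exact hang.trans hpq
  have hlim1 : Tendsto (fun s : ℝ => G.di y (G.E o (((s + b : ℝ) : ℂ) * v))) atTop (𝓝 w) := by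
    rw [tendsto_iff_norm_sub_tendsto_zero]
    exact squeeze_zero' (Eventually.of_forall fun s => norm_nonneg _) hclose hdec
  have hlim2 : Tendsto (fun s : ℝ => G.di y (G.E o (((s + b : ℝ) : ℂ) * v))) atTop
      (𝓝 (At G y o v)) :=
    (hlim y o v hv1).1.comp (tendsto_atTop_add_const_right _ b tendsto_id)
  exact tendsto_nhds_unique hlim2 hlim1

end SR85
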