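import Pool.Agent.LibSR85.B2
import Pool.Agent.LibSR85.P4
import Pool.Agent.LibSR85.C1

/-! Row SR85 C4: the asymptotic direction is a Lipschitz function of the direction.

PLAN. `C` = the constant of `distort` (plus one). Let `w θ = u e^{iθ}` (`w' = I w`), `s` large
(`s ≥ d o x + 2`). By `E_u` (`k = 1`) `q θ = E x (s w θ)` has `‖fi q'‖ = B x (w θ) s = J x (q θ)`,
so by `angle_der` `θ ↦ di o (q θ)` has derivative of norm at most
`J x (q θ) / J o (q θ) = J (q θ) x / J (q θ) o ≤ exp (C d x o)` (`J_symm`, `distort` with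
`o := q θ`: `d (q θ) x = s ≥ d x o + 2`). Mean value inequality, then `s → ∞` (`at_lim`). -/

open MeasureTheory Set Filter Topology
open scoped ContDiff ENNReal NNReal ComplexConjugate

namespace SR85

open BGS (Pl Surface)

variable {Γ : Type} [Group Γ] [MulAction Γ Pl] {D : Set Pl} {G : Dat Γ}

theorem at_lip (h : HG D G) : ∃ C : ℝ, 0 < C ∧ ∀ (o x : Pl) (u : ℂ) (θ θ' : ℝ), ‖u‖ = 1 →
    ‖At G o x (u * Complex.exp ((θ : ℂ) * Complex.I)) -
        At G o x (u * Complex.exp ((θ' : ℂ) * Complex.I))‖ ≤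
      Real.exp (C * (G.d o x + 1)) * |θ - θ'| := by
  obtain ⟨C, hC, hd⟩ := distort h
  obtain ⟨C', -, hlim⟩ := at_lim h
  refine ⟨C, hC, fun o x u θ θ' hu => ?_⟩
  have hw : ∀ t : ℝ, ‖u * Complex.exp ((t : ℂ) * Complex.I)‖ = 1 := fun t => by
    rw [norm_mul, hu, Complex.norm_exp_ofReal_mul_I, one_mul]
  have hd0 : 0 ≤ G.d o x := norm_nonneg _
  have key : ∀ s : ℝ, G.d o x + 2 ≤ s →
      ‖G.di o (G.E x ((s : ℂ) * (u * Complex.exp ((θ : ℂ) * Complex.I)))) -
        G.di o (G.E x ((s : ℂ) * (u * Complex.exp ((θ' : ℂ) * Complex.I))))‖ ≤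
          Real.exp (C * (G.d o x + 1)) * |θ - θ'| := by
    intro s hs
    have hs0 : 0 < s := by linarith
    have hder : ∀ t : ℝ, ∃ f' : ℂ,
        HasDerivAt (fun r : ℝ =>
          G.di o (G.E x ((s : ℂ) * (u * Complex.exp ((r : ℂ) * Complex.I))))) f' t ∧
        ‖f'‖ ≤ Real.exp (C * (G.d o x + 1)) := by
      intro t
      have hwd : HasDerivAt (fun r : ℝ => u * Complex.exp ((r : ℂ) * Complex.I))
          (Complex.I * (u * Complex.exp ((t : ℂ) * Complex.I)) * ((1 : ℝ) : ℂ)) t := by
        have h1 : HasDerivAt (fun r : ℝ => (r : ℂ) * Complex.I) ((1 : ℂ) * Complex.I) t :=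
          (HasDerivAt.ofReal_comp (hasDerivAt_id t)).mul_const _
        have h2 := (h1.cexp).const_mul u
        refine h2.congr_deriv ?_
        push_cast
        ring
      obtain ⟨p, hp, hfi⟩ := h.E_u x s
        (fun r : ℝ => u * Complex.exp ((r : ℂ) * Complex.I)) t 1 hw hwd
      have hdx : G.d x (G.E x ((s : ℂ) * (u * Complex.exp ((t : ℂ) * Complex.I)))) = s := by
        rw [d_E h x (hw t), abs_of_pos hs0]
      have hne : G.E x ((s : ℂ) * (u * Complex.exp ((t : ℂ) * Complex.I))) ≠ o := by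
        intro h0
        rw [h0, h.d_symm] at hdx
        linarith
      have hnx : G.E x ((s : ℂ) * (u * Complex.exp ((t : ℂ) * Complex.I))) ≠ x :=
        E_ne h x (hw t) hs0.ne'
      obtain ⟨om, hom, hder⟩ := angle_der h o hp hne
      refine ⟨_, hder, ?_⟩
      rw [norm_mul, norm_mul, Complex.norm_I, one_mul, di_norm h hne.symm, one_mul,
        Complex.norm_real, Real.norm_eq_abs]
      refine hom.trans ?_
      have hB : 0 < G.B x (u * Complex.exp ((t : ℂ) * Complex.I)) s := B_pos h x (hw t) hs0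
      rw [hfi, norm_mul, norm_mul, Complex.norm_I, mul_one, h.dr_norm x _ (hw t), mul_one,
        mul_one, Complex.norm_real, Real.norm_eq_abs, abs_of_pos hB, ← J_E h x (hw t) hs0]
      set z := G.E x ((s : ℂ) * (u * Complex.exp ((t : ℂ) * Complex.I))) with hz
      have h3 := hd z x o (by rw [h.d_symm z x, hdx, h.d_symm x o]; exact hs)
      have h4 := (abs_le.1 h3).2
      rw [J_symm h x z, J_symm h o z]
      have j1 : 0 < G.J z x := J_pos h hnx
      have j2 : 0 < G.J z o := J_pos h hne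
      rw [← Real.log_div j1.ne' j2.ne'] at h4
      have h5 : G.J z x / G.J z o ≤ Real.exp (C * G.d x o) := by
        rw [← Real.exp_log (div_pos j1 j2)]
        exact Real.exp_le_exp.2 h4
      refine h5.trans (Real.exp_le_exp.2 ?_)
      rw [h.d_symm x o]
      nlinarith
    choose f' hf' hb using hder
    have hmv := Convex.norm_image_sub_le_of_norm_hasDerivWithin_le
      (f := fun r : ℝ => G.di o (G.E x ((s : ℂ) * (u * Complex.exp ((r : ℂ) * Complex.I)))))
      (f' := f') (s := univ) (x := θ') (y := θ) (fun t _ => (hf' t).hasDerivWithinAt)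
      (fun t _ => hb t) convex_univ (mem_univ _) (mem_univ _)
    rwa [Real.norm_eq_abs] at hmv
  have hl := ((hlim o x _ (hw θ)).1.sub (hlim o x _ (hw θ')).1).norm
  refine le_of_tendsto hl ?_
  filter_upwards [eventually_ge_atTop (G.d o x + 2)] with s hs
  exact key s hs

end SR85
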