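import Pool.Agent.LibSR85.C4
import Pool.Agent.LibSR85.C5

/-! Row SR85 C6: distortion of the change of base point along the ray `u` from `o`, on the arc of
directions of size `R / J₀`, `J₀ = B o u t`.

PLAN. Write `w φ = u e^{iφ}`, `y = E o (t u)`. Let `c` be the constant of `arc`, `C₀` of
`distort`. Choose `t' ∈ [3, t]` with `B o u t' = c J₀ / R` (intermediate value theorem; possible
for `t ≥ t₀`: `B` is continuous and increasing, `B o u 3 ≤ sinh (3 b) / b`, `J₀ ≥ sinh (a t) / a`;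
if `R < c` take `R` larger first). `B_exp` gives `e^{a (t - t')} ≤ R / c`, so
`t - t' ≤ log (R / c) / a`. For `|φ| ≤ R / J₀ = c / B o u t'`: `arc` at `t'` gives
`d (E o (t' u)) p ≤ 1` with `p = E o (t' w φ)`, and `B o (w φ) t' ≤ 2 B o u t' ≤ 2 c J₀ / R`;
hence `d p y ≤ 1 + t - t' =: ρ`. For large `n` let `z = E o (n w φ)`: as in C4 the derivative of
`φ ↦ di y (E o (n w φ))` has norm at most `J o z / J y z`. `J_split` (`s := t'`, `t := n`) and
`U_le1`: `J o z ≤ J o p * J p z * 2 C_b`, and `J p z = J z p ≤ e^{C₀ ρ} J z y` (`distort` with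
`o := z`, `J_symm`). So the derivative is at most `2 C_b e^{C₀ ρ} * 2 c J₀ / R`. Mean value
inequality on the arc (an interval), then `n → ∞` (`at_lim`). -/

open MeasureTheory Set Filter Topology
open scoped ContDiff ENNReal NNReal ComplexConjugate

namespace SR85

open BGS (Pl Surface)

variable {Γ : Type} [Group Γ] [MulAction Γ Pl] {D : Set Pl} {G : Dat Γ}

/-- Derivative of the direction from `y` to the points of a circle about `o`. -/
theorem C6_der (h : HG D G) (o y : Pl) {u : ℂ} (hu : ‖u‖ = 1) {n : ℝ} (hn : 0 < n) (φ : ℝ)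
    (hz : G.E o ((n : ℂ) * (u * Complex.exp ((φ : ℂ) * Complex.I))) ≠ y) : ∃ k : ℂ,
    HasDerivAt (fun r : ℝ => G.di y (G.E o ((n : ℂ) * (u * Complex.exp ((r : ℂ) * Complex.I))))) k φ
      ∧ ‖k‖ ≤ G.B o (u * Complex.exp ((φ : ℂ) * Complex.I)) n /
        G.J y (G.E o ((n : ℂ) * (u * Complex.exp ((φ : ℂ) * Complex.I)))) := by
  have hw : ∀ r : ℝ, ‖u * Complex.exp ((r : ℂ) * Complex.I)‖ = 1 := fun r => by
    rw [norm_mul, hu, Complex.norm_exp_ofReal_mul_I, one_mul]
  have hwd : HasDerivAt (fun r : ℝ => u * Complex.exp ((r : ℂ) * Complex.I))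
      (Complex.I * (u * Complex.exp ((φ : ℂ) * Complex.I)) * ((1 : ℝ) : ℂ)) φ := by
    have h1 : HasDerivAt (fun r : ℝ => (r : ℂ) * Complex.I) Complex.I φ := by
      simpa using (Complex.ofRealCLM.hasDerivAt (x := φ)).mul_const Complex.I
    refine (h1.cexp.const_mul u).congr_deriv ?_
    rw [Complex.ofReal_one]
    ring
  obtain ⟨p, hp1, hp2⟩ := h.E_u o n (fun r : ℝ => u * Complex.exp ((r : ℂ) * Complex.I)) φ 1 hw hwd
  obtain ⟨k, hk1, hk2⟩ := angle_der h y hp1 hz
  refine ⟨_, hk2, ?_⟩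
  rw [norm_mul, norm_mul, Complex.norm_I, one_mul, di_norm h (Ne.symm hz), one_mul,
    Complex.norm_real, Real.norm_eq_abs]
  refine hk1.trans (le_of_eq ?_)
  rw [hp2, norm_mul, norm_mul, Complex.norm_I, mul_one, h.dr_norm o _ (hw φ) n, mul_one, mul_one,
    Complex.norm_real, Real.norm_eq_abs, abs_of_pos (B_pos h o (hw φ) hn)]

theorem at_arc (h : HG D G) (R : ℝ) (hR : 0 < R) : ∃ C t₀ : ℝ, 0 < C ∧ 0 < t₀ ∧
    ∀ (o : Pl) (u : ℂ) (t θ θ' : ℝ), ‖u‖ = 1 → t₀ ≤ t → |θ| ≤ R / G.B o u t →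
      |θ'| ≤ R / G.B o u t →
      ‖At G (G.E o ((t : ℂ) * u)) o (u * Complex.exp ((θ : ℂ) * Complex.I)) -
        At G (G.E o ((t : ℂ) * u)) o (u * Complex.exp ((θ' : ℂ) * Complex.I))‖ ≤
      C * G.B o u t * |θ - θ'| := by
  obtain ⟨c, hc, harc⟩ := arc h
  obtain ⟨C₀, hC₀, hdist⟩ := distort h
  obtain ⟨CA, hCA, hat⟩ := at_lim h
  have ha := h.a_pos
  have hb : 0 < G.b := ha.trans_le h.ab
  set R' := max R c with hR'
  have hR'0 : 0 < R' := hR.trans_le (le_max_left _ _)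
  have hcR : c ≤ R' := le_max_right _ _
  have hRR : R ≤ R' := le_max_left _ _
  set ρ := 1 + Real.log (R' / c) / G.a with hρ
  have hlog : 0 ≤ Real.log (R' / c) := Real.log_nonneg (by rw [le_div_iff₀ hc]; linarith)
  have hρ1 : 1 ≤ ρ := by
    have : 0 ≤ Real.log (R' / c) / G.a := by positivity
    linarith
  set Cb := G.b * Real.cosh G.b / Real.sinh G.b with hCb
  have hsb : 0 < Real.sinh G.b := Real.sinh_pos_iff.2 hb
  have hCb0 : 0 < Cb := by
    have := Real.cosh_pos G.b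
    positivity
  have hs3 : 0 < Real.sinh (G.b * 3) := Real.sinh_pos_iff.2 (by positivity)
  refine ⟨4 * c / R' * Cb * Real.exp (C₀ * ρ), 3 + R' * (Real.sinh (G.b * 3) / G.b) / c,
    by positivity, by positivity, ?_⟩
  intro o u t θ θ' hu ht hθ hθ'
  have hpos : 0 < R' * (Real.sinh (G.b * 3) / G.b) / c := by positivity
  have ht3 : 3 ≤ t := by linarith
  have ht0 : 0 < t := by linarith
  have hJ0 : 0 < G.B o u t := B_pos h o hu ht0
  set J₀ := G.B o u t with hJ₀
  set y := G.E o ((t : ℂ) * u) with hy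
  -- the time `t'`
  have hJt : t ≤ J₀ := by
    have h1 := B_low h o hu ht0
    have h2 : G.a * t ≤ Real.sinh (G.a * t) := Real.self_le_sinh_iff.2 (by positivity)
    have h3 : t ≤ Real.sinh (G.a * t) / G.a := by
      rw [le_div_iff₀ ha]; linarith
    linarith
  have hB3 : G.B o u 3 ≤ c * J₀ / R' := by
    have h0 : o ≠ G.E o (((3 : ℝ) : ℂ) * u) := (E_ne h o hu (by norm_num)).symm
    have h1 := J_upp h h0
    rw [J_E h o hu (by norm_num : (0 : ℝ) < 3), d_E h o hu,
      abs_of_pos (by norm_num : (0 : ℝ) < 3)] at h1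
    refine h1.trans ?_
    rw [le_div_iff₀ hR'0]
    have h2 : R' * (Real.sinh (G.b * 3) / G.b) / c ≤ J₀ := by linarith
    rw [div_le_iff₀ hc] at h2
    linarith
  have hBt : c * J₀ / R' ≤ J₀ := by
    rw [div_le_iff₀ hR'0]
    nlinarith
  have hcont : ContinuousOn (G.B o u) (Icc 3 t) := fun s _ =>
    (h.B_der o u hu s).continuousAt.continuousWithinAt
  obtain ⟨t', ⟨ht'3, ht't⟩, ht'⟩ := intermediate_value_Icc ht3 hcont ⟨hB3, hBt⟩
  have ht'0 : 0 < t' := by linarith
  have htt' : t - t' ≤ Real.log (R' / c) / G.a := by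
    have h1 := B_exp h o hu ht'0.le ht't
    rw [ht'] at h1
    have h2 : c / R' ≤ Real.exp (-(G.a * (t - t'))) := by
      have h3 : c / R' * J₀ ≤ Real.exp (-(G.a * (t - t'))) * J₀ := by
        rw [div_mul_eq_mul_div]; exact h1
      exact le_of_mul_le_mul_right h3 hJ0
    have h4 := Real.log_le_log (by positivity) h2
    rw [Real.log_exp] at h4
    have h5 : Real.log (c / R') = -Real.log (R' / c) := by
      rw [← Real.log_inv, inv_div]
    rw [h5] at h4
    rw [le_div_iff₀ ha]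
    linarith
  -- the points `p φ`
  have hw : ∀ r : ℝ, ‖u * Complex.exp ((r : ℂ) * Complex.I)‖ = 1 := fun r => by
    rw [norm_mul, hu, Complex.norm_exp_ofReal_mul_I, one_mul]
  have hkey : ∀ n : ℝ, t + ρ + 3 ≤ n → ∀ φ : ℝ, |φ| ≤ R' / J₀ →
      G.E o ((n : ℂ) * (u * Complex.exp ((φ : ℂ) * Complex.I))) ≠ y ∧
      G.B o (u * Complex.exp ((φ : ℂ) * Complex.I)) n /
        G.J y (G.E o ((n : ℂ) * (u * Complex.exp ((φ : ℂ) * Complex.I)))) ≤
        4 * c / R' * Cb * Real.exp (C₀ * ρ) * J₀ := by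
    intro n hn φ hφ
    set wφ := u * Complex.exp ((φ : ℂ) * Complex.I) with hwφ
    have hwn : ‖wφ‖ = 1 := hw φ
    have hn0 : 0 < n := by linarith
    set p := G.E o ((t' : ℂ) * wφ) with hp
    set z := G.E o ((n : ℂ) * wφ) with hz
    obtain ⟨ha1, ha2⟩ := harc o u t' φ hu ht'3 (by
      rw [ht']
      calc |φ| * (c * J₀ / R') ≤ R' / J₀ * (c * J₀ / R') :=
            mul_le_mul_of_nonneg_right hφ (by positivity)
        _ = c := by field_simp)
    rw [ht'] at ha2
    have hpy : G.d p y ≤ ρ := by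
      have h1 : G.d (G.E o ((t' : ℂ) * u)) y = t - t' := by
        rw [hy, d_geo h o hu, abs_of_nonneg (by linarith)]
      have h2 := h.d_tri p (G.E o ((t' : ℂ) * u)) y
      have h3 : G.d p (G.E o ((t' : ℂ) * u)) ≤ 1 := by
        rw [h.d_symm]; exact ha1
      rw [h1] at h2
      linarith
    have hzp : G.d z p = n - t' := by
      rw [hz, hp, d_geo h o hwn, abs_of_nonpos (by linarith)]
      ring
    have hzy : z ≠ y := by
      intro h0
      rw [h0, h.d_symm] at hzp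
      linarith
    refine ⟨hzy, ?_⟩
    have hsplit := J_split h o hwn ht'0 (show t' < n by linarith)
    rw [← hp, ← hz] at hsplit
    have hJoz : G.J o z = G.B o wφ n := J_E h o hwn hn0
    have hJop : G.J o p = G.B o wφ t' := J_E h o hwn ht'0
    have hzp' : z ≠ p := by
      intro h0
      rw [h0, d_self h] at hzp
      linarith
    have hU1 : G.U o p ≤ Cb := by
      refine U_le1 h ?_
      rw [hp, d_E h o hwn, abs_of_pos ht'0]
      linarith
    have hU2 : G.U z p ≤ Cb := by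
      refine U_le1 h ?_
      rw [hzp]
      linarith
    have hJzy : 0 < G.J z y := J_pos h hzy
    have hJzp : 0 < G.J z p := J_pos h hzp'
    have hcmp : G.J z p ≤ Real.exp (C₀ * ρ) * G.J z y := by
      have h1 := hdist z p y (by rw [hzp]; linarith)
      have h2 : Real.log (G.J z p) ≤ C₀ * ρ + Real.log (G.J z y) := by
        have h3 := (abs_le.1 h1).2
        have h4 : C₀ * G.d p y ≤ C₀ * ρ := mul_le_mul_of_nonneg_left hpy hC₀.le
        linarith
      have h5 := Real.exp_le_exp.2 h2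
      rwa [Real.exp_log hJzp, Real.exp_add, Real.exp_log hJzy] at h5
    have hBp : 0 < G.B o wφ t' := B_pos h o hwn ht'0
    rw [div_le_iff₀ (by rw [J_symm h]; exact hJzy), ← hJoz, hsplit, hJop, J_symm h p z,
      J_symm h y z]
    have h6 : G.B o wφ t' * G.J z p ≤ (2 * (c * J₀ / R')) * (Real.exp (C₀ * ρ) * G.J z y) :=
      mul_le_mul ha2 hcmp hJzp.le (by positivity)
    have h7 : G.U o p + G.U z p ≤ 2 * Cb := by linarith
    have h8 : 0 ≤ G.B o wφ t' * G.J z p := by positivity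
    calc G.B o wφ t' * G.J z p * (G.U o p + G.U z p)
        ≤ G.B o wφ t' * G.J z p * (2 * Cb) := mul_le_mul_of_nonneg_left h7 h8
      _ ≤ (2 * (c * J₀ / R')) * (Real.exp (C₀ * ρ) * G.J z y) * (2 * Cb) :=
          mul_le_mul_of_nonneg_right h6 (by positivity)
      _ = 4 * c / R' * Cb * Real.exp (C₀ * ρ) * J₀ * G.J z y := by ring
  -- mean value inequality at finite `n`
  have hfin : ∀ n : ℝ, t + ρ + 3 ≤ n →
      ‖G.di y (G.E o ((n : ℂ) * (u * Complex.exp ((θ : ℂ) * Complex.I)))) -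
        G.di y (G.E o ((n : ℂ) * (u * Complex.exp ((θ' : ℂ) * Complex.I))))‖ ≤
      4 * c / R' * Cb * Real.exp (C₀ * ρ) * J₀ * |θ - θ'| := by
    intro n hn
    have hder : ∀ φ ∈ Icc (-(R' / J₀)) (R' / J₀), ∃ k : ℂ,
        HasDerivAt (fun r : ℝ => G.di y (G.E o ((n : ℂ) * (u * Complex.exp ((r : ℂ) *
          Complex.I))))) k φ ∧ ‖k‖ ≤ 4 * c / R' * Cb * Real.exp (C₀ * ρ) * J₀ := by
      intro φ hφ
      obtain ⟨h1, h2⟩ := hkey n hn φ (abs_le.2 hφ)
      obtain ⟨k, hk1, hk2⟩ := C6_der h o y hu (by linarith : 0 < n) φ h1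
      exact ⟨k, hk1, hk2.trans h2⟩
    choose! k hk1 hk2 using hder
    have hle : R / J₀ ≤ R' / J₀ := div_le_div_of_nonneg_right hRR hJ0.le
    have h3 := (convex_Icc (-(R' / J₀)) (R' / J₀)).norm_image_sub_le_of_norm_hasDerivWithin_le
      (fun φ hφ => (hk1 φ hφ).hasDerivWithinAt) hk2 (abs_le.1 (hθ'.trans hle))
      (abs_le.1 (hθ.trans hle))
    rwa [Real.norm_eq_abs] at h3
  refine le_of_tendsto (((hat y o _ (hw θ)).1.sub (hat y o _ (hw θ')).1).norm) ?_
  filter_upwards [eventually_ge_atTop (t + ρ + 3)] with n hn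
  exact hfin n hn

end SR85
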