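import Pool.Agent.LibSR85.B2
import Pool.Agent.LibSR85.P4
import Pool.Agent.LibSR85.C3

/-! Row SR85 C7: from `y = E o (t u)` every direction that is not `ε`-close to the direction of
`o` is asymptotic to a direction at `o` in the arc of size `R / B o u t`.

PLAN. Given `ε > 0` choose `R''` with `∫₀^∞ ds / j(s) ≤ ε / 2` in the estimate below, and
`R = 4 (R'' + 1) e^{C (R'' + 1)}` (`C` from `distort`), `t₀ = R'' + 4`. Let `v = At o y w`; by
`at_at` `At y o v = w`. Write `v = u e^{iθ}` with `|θ| ≤ π` (`Complex.arg (v / u)`). Suppose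
`|θ| > R / B o u t`. Claim: `d y (q s) > R''` for all `s ≥ 0`, `q s = E o (s v)`. Otherwise, by
`angle` from `o` (every `z` with `d y z ≤ R''` has `d o z ≥ t - R'' ≥ 4`, and
`J o z ≥ e^{-C R''} J o y` by `distort`), `‖u - v‖ = ‖di o y - di o (q s)‖ ≤
R'' e^{C R''} / J o y` (for `s > 0`; `s = 0` is impossible as `d y o = t`), while
`‖u - v‖ = 2 |sin (θ/2)| ≥ (2/π) |θ|`: contradiction with `|θ| > R / J o y`. So `s ↦ di y (q s)`
is differentiable on `[0, ∞)` with `‖.'‖ ≤ 1 / J y (q s)` (`angle_der`) and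
`J y (q s) ≥ sinh (a ρ) / a`, `ρ = d y (q s) ≥ max R'' |s - t|` (triangle inequality), hence
`‖di y (q s) - di y o‖ ≤ ∫₀^∞ a / sinh (a max R'' |s - t|) ds ≤ C' (R'' + 1) e^{-a R''} ≤ ε / 2`.
Let `s → ∞`: `‖w - di y o‖ = ‖At y o v - di y o‖ ≤ ε / 2 < ε`, a contradiction. -/

open MeasureTheory Set Filter Topology
open scoped ContDiff ENNReal NNReal ComplexConjugate

namespace SR85

open BGS (Pl Surface)

variable {Γ : Type} [Group Γ] [MulAction Γ Pl] {D : Set Pl} {G : Dat Γ}

theorem C7_chord {θ : ℝ} (hθ : |θ| ≤ Real.pi) :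
    |θ| ≤ 2 * ‖Complex.exp ((θ : ℂ) * Complex.I) - 1‖ := by
  have h1 : ‖Complex.exp ((θ : ℂ) * Complex.I) - 1‖ = 2 * |Real.sin (θ / 2)| := by
    rw [mul_comm, Complex.norm_exp_I_mul_ofReal_sub_one]
    simp
  have h2 : 2 / Real.pi * (|θ| / 2) ≤ Real.sin (|θ| / 2) :=
    Real.mul_le_sin (by positivity) (by linarith)
  have h3 : |Real.sin (θ / 2)| = Real.sin (|θ| / 2) := by
    have hs : 0 ≤ Real.sin (|θ| / 2) := le_trans (by positivity) h2
    rcases le_total 0 θ with h | h
    · rw [abs_of_nonneg h] at hs ⊢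
      rw [abs_of_nonneg hs]
    · rw [abs_of_nonpos h] at hs ⊢
      rw [neg_div, Real.sin_neg] at hs ⊢
      rw [abs_of_nonpos (by linarith)]
  rw [h1, h3]
  have h4 : |θ| / 4 ≤ 2 / Real.pi * (|θ| / 2) := by
    have hp : 0 < Real.pi := Real.pi_pos
    have hp4 : Real.pi ≤ 4 := Real.pi_le_four
    have : 2 / Real.pi * (|θ| / 2) = |θ| / Real.pi := by field_simp
    rw [this]
    exact div_le_div_of_nonneg_left (abs_nonneg _) hp hp4
  linarith

/-- Mean value inequality with a variable bound. -/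
theorem C7_mvb {f f' : ℝ → ℂ} {b b' : ℝ → ℝ} {p q : ℝ} (hpq : p ≤ q)
    (hf : ∀ s ∈ Icc p q, HasDerivAt f (f' s) s) (hb : ∀ s, HasDerivAt b (b' s) s)
    (hbd : ∀ s ∈ Icc p q, ‖f' s‖ ≤ b' s) : ‖f q - f p‖ ≤ b q - b p := by
  have h1 := image_norm_le_of_norm_deriv_right_le_deriv_boundary (f := fun s => f s - f p)
    (f' := f') (a := p) (b := q) (B := fun s => b s - b p) (B' := b')
    (fun s hs => ((hf s hs).continuousAt.sub continuousAt_const).continuousWithinAt)
    (fun s hs => ((hf s ⟨hs.1, hs.2.le⟩).sub_const _).hasDerivWithinAt) (by simp)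
    (fun s => (hb s).sub_const _) (fun s hs => hbd s ⟨hs.1, hs.2.le⟩)
  exact h1 ⟨hpq, le_rfl⟩

theorem C7_choose {a : ℝ} (ha : 0 < a) {ε : ℝ} (hε : 0 < ε) :
    ∃ r : ℝ, 1 ≤ r ∧ 1 / a ≤ r ∧ 16 * Real.exp (-(a * r / 2)) ≤ ε / 2 := by
  have h1 : Tendsto (fun r : ℝ => 16 * Real.exp (-(a * r / 2))) atTop (𝓝 (16 * 0)) := by
    refine Tendsto.const_mul _ (Real.tendsto_exp_neg_atTop_nhds_zero.comp ?_)
    have : Tendsto (fun r : ℝ => (a / 2) * r) atTop atTop :=
      tendsto_id.const_mul_atTop (by positivity)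
    refine this.congr fun r => by ring
  rw [mul_zero] at h1
  have h2 := h1.eventually (ge_mem_nhds (show (0 : ℝ) < ε / 2 by positivity))
  obtain ⟨r, hr⟩ := (h2.and ((eventually_ge_atTop (1 : ℝ)).and
    (eventually_ge_atTop (1 / a)))).exists
  exact ⟨r, hr.2.1, hr.2.2, hr.1⟩

theorem C7_sinh {x : ℝ} (hx : 1 ≤ x) : Real.exp x / 4 ≤ Real.sinh x := by
  rw [Real.sinh_eq]
  have h1 : Real.exp (-x) ≤ Real.exp x / 2 := by
    have h2 : Real.exp 1 ≤ Real.exp x := Real.exp_le_exp.2 hx
    have h3 : (2 : ℝ) ≤ Real.exp 1 := by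
      have := Real.add_one_le_exp (1 : ℝ)
      linarith
    have h4 : Real.exp (-x) ≤ 1 := by
      rw [Real.exp_le_one_iff]; linarith
    linarith
  linarith

theorem at_cover (h : HG D G) (ε : ℝ) (hε : 0 < ε) : ∃ R t₀ : ℝ, 0 < R ∧ 0 < t₀ ∧
    ∀ (o : Pl) (u w : ℂ) (t : ℝ), ‖u‖ = 1 → ‖w‖ = 1 → t₀ ≤ t →
      ε ≤ ‖w - G.di (G.E o ((t : ℂ) * u)) o‖ →
      ∃ θ : ℝ, |θ| ≤ R / G.B o u t ∧
        At G (G.E o ((t : ℂ) * u)) o (u * Complex.exp ((θ : ℂ) * Complex.I)) = w := by
  obtain ⟨C, hC, hdist⟩ := distort h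
  obtain ⟨CA, hCA, hat⟩ := at_lim h
  have ha := h.a_pos
  obtain ⟨r, hr1, hr2, hr3⟩ := C7_choose ha hε
  have har : 1 ≤ G.a * r := by
    have := mul_le_mul_of_nonneg_left hr2 ha.le
    rwa [mul_one_div_cancel ha.ne'] at this
  refine ⟨4 * (r + 1) * Real.exp (C * (r + 1)), r + 4, by positivity, by positivity, ?_⟩
  intro o u w t hu hw ht hwε
  have ht0 : 0 < t := by linarith
  set y := G.E o ((t : ℂ) * u) with hy
  set v := At G o y w with hv
  have hv1 : ‖v‖ = 1 := (hat o y w hw).2.1
  have hAt : At G y o v = w := at_at h o y hw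
  have hu0 : u ≠ 0 := by
    intro h0
    rw [h0, norm_zero] at hu
    exact zero_ne_one hu
  have hdoy : G.d o y = t := by rw [hy, d_E h o hu, abs_of_pos ht0]
  have hdio : G.di o y = u := di_E h o hu ht0
  have hJy : G.J o y = G.B o u t := J_E h o hu ht0
  have hB0 : 0 < G.B o u t := B_pos h o hu ht0
  -- the angle
  have hvu : u * Complex.exp ((Complex.arg (v / u) : ℂ) * Complex.I) = v := by
    have h1 := Complex.norm_mul_exp_arg_mul_I (v / u)
    rw [norm_div, hv1, hu] at h1
    have h2 : Complex.exp ((Complex.arg (v / u) : ℂ) * Complex.I) = v / u := by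
      rw [div_one, Complex.ofReal_one, one_mul] at h1
      exact h1
    rw [h2]; field_simp
  refine ⟨Complex.arg (v / u), ?_, by rw [hvu]; exact hAt⟩
  set θ := Complex.arg (v / u) with hθ
  by_contra hcon
  push Not at hcon
  have hθpi : |θ| ≤ Real.pi := Complex.abs_arg_le_pi _
  -- the ray from `o` in the direction `v` stays away from `y`
  have hfar : ∀ s : ℝ, 0 ≤ s → r < G.d y (G.E o ((s : ℂ) * v)) := by
    intro s hs
    by_contra hle
    push Not at hle
    have hs0 : 0 < s := by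
      rcases hs.eq_or_lt with h0 | h0
      · exfalso
        rw [← h0] at hle
        simp only [Complex.ofReal_zero, zero_mul] at hle
        rw [h.E_zero, h.d_symm, hdoy] at hle
        linarith
      · exact h0
    have hj : 0 < Real.exp (-(C * r)) * G.J o y := by
      rw [hJy]; positivity
    have hang := angle h o y (G.E o ((s : ℂ) * v)) hj (by
      intro z hz
      have hz' : G.d y z ≤ r := hz.trans hle
      have htri : G.d o y ≤ G.d o z + G.d z y := h.d_tri o z y
      rw [h.d_symm z y] at htri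
      have hoz : z ≠ o := by
        intro h0
        rw [h0, d_self h] at htri
        rw [h0] at hz'
        linarith
      refine ⟨hoz, ?_⟩
      have h1 := hdist o y z (by rw [hdoy]; linarith)
      have h2 : Real.log (G.J o y) - C * r ≤ Real.log (G.J o z) := by
        have h3 := (abs_le.1 h1).2
        have h4 : C * G.d y z ≤ C * r := mul_le_mul_of_nonneg_left hz' hC.le
        linarith
      have h5 := Real.exp_le_exp.2 h2
      rw [Real.exp_log (J_pos h (Ne.symm hoz)), sub_eq_add_neg, Real.exp_add,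
        Real.exp_log (by rw [hJy]; exact hB0)] at h5
      rwa [mul_comm] at h5)
    rw [hdio, di_E h o hv1 hs0, hJy] at hang
    have h1 : ‖u - v‖ = ‖Complex.exp ((θ : ℂ) * Complex.I) - 1‖ := by
      have : u - v = -(u * (Complex.exp ((θ : ℂ) * Complex.I) - 1)) := by
        rw [mul_sub, hvu]; ring
      rw [this, norm_neg, norm_mul, hu, one_mul]
    rw [h1] at hang
    have h2 := C7_chord hθpi
    have h3 : G.d y (G.E o ((s : ℂ) * v)) / (Real.exp (-(C * r)) * G.B o u t) ≤
        r / (Real.exp (-(C * r)) * G.B o u t) :=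
      div_le_div_of_nonneg_right hle (by positivity)
    have h4 : r / (Real.exp (-(C * r)) * G.B o u t) = r * Real.exp (C * r) / G.B o u t := by
      rw [Real.exp_neg]; field_simp
    have h5 : 2 * (r * Real.exp (C * r) / G.B o u t) ≤
        4 * (r + 1) * Real.exp (C * (r + 1)) / G.B o u t := by
      rw [← mul_div_assoc]
      refine div_le_div_of_nonneg_right ?_ hB0.le
      have h6 : Real.exp (C * r) ≤ Real.exp (C * (r + 1)) := Real.exp_le_exp.2 (by nlinarith)
      have h7 : 2 * r ≤ 4 * (r + 1) := by linarith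
      calc 2 * (r * Real.exp (C * r)) = (2 * r) * Real.exp (C * r) := by ring
        _ ≤ 4 * (r + 1) * Real.exp (C * (r + 1)) :=
          mul_le_mul h7 h6 (Real.exp_pos _).le (by positivity)
    rw [h4] at h3
    linarith
  -- lower bound for `J y (q s)`
  have hJlow : ∀ s : ℝ, 0 ≤ s → 1 / G.J y (G.E o ((s : ℂ) * v)) ≤
      4 * G.a * Real.exp (-(G.a * r / 2)) * Real.exp (-(G.a * |s - t| / 2)) := by
    intro s hs
    set q := G.E o ((s : ℂ) * v) with hq
    have hρ := hfar s hs
    have hyq : y ≠ q := by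
      intro h0
      rw [← hq, ← h0, d_self h] at hρ
      linarith
    have hst : |s - t| ≤ G.d y q := by
      have hoq : G.d o q = s := by rw [hq, d_E h o hv1, abs_of_nonneg hs]
      have t1 := h.d_tri o q y
      have t2 := h.d_tri o y q
      rw [h.d_symm q y] at t1
      rw [abs_le]
      constructor <;> linarith
    have h1 := J_low h hyq
    have h2 : 1 ≤ G.a * G.d y q := har.trans (mul_le_mul_of_nonneg_left hρ.le ha.le)
    have h3 := C7_sinh h2
    have h4 : Real.exp (G.a * r / 2) * Real.exp (G.a * |s - t| / 2) ≤ Real.exp (G.a * G.d y q) := by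
      rw [← Real.exp_add]
      refine Real.exp_le_exp.2 ?_
      have := mul_le_mul_of_nonneg_left hρ.le ha.le
      have := mul_le_mul_of_nonneg_left hst ha.le
      linarith
    have h5 : Real.exp (G.a * r / 2) * Real.exp (G.a * |s - t| / 2) / (4 * G.a) ≤ G.J y q := by
      refine le_trans ?_ h1
      rw [div_le_div_iff₀ (by positivity) ha]
      nlinarith
    have h6 : 0 < Real.exp (G.a * r / 2) * Real.exp (G.a * |s - t| / 2) / (4 * G.a) := by
      positivity
    refine (one_div_le_one_div_of_le h6 h5).trans (le_of_eq ?_)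
    rw [Real.exp_neg, Real.exp_neg]
    field_simp
  -- the derivative of the direction
  have hder : ∀ s : ℝ, 0 ≤ s → ∃ z : ℂ,
      HasDerivAt (fun s : ℝ => G.di y (G.E o ((s : ℂ) * v))) z s ∧
      ‖z‖ ≤ 4 * G.a * Real.exp (-(G.a * r / 2)) * Real.exp (-(G.a * |s - t| / 2)) := by
    intro s hs
    obtain ⟨p, hp1, hp2⟩ := h.E_t o v hv1 s
    have hyq : G.E o ((s : ℂ) * v) ≠ y := by
      intro h0
      have := hfar s hs
      rw [h0, d_self h] at this
      linarith
    obtain ⟨k, hk1, hk2⟩ := angle_der h y hp1 hyq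
    refine ⟨_, hk2, ?_⟩
    rw [norm_mul, norm_mul, Complex.norm_I, one_mul, di_norm h (Ne.symm hyq), one_mul,
      Complex.norm_real, Real.norm_eq_abs]
    rw [hp2, h.dr_norm o v hv1 s] at hk1
    exact hk1.trans (hJlow s hs)
  choose! f' hf1 hf2 using hder
  have e0 : 0 < Real.exp (-(G.a * r / 2)) := Real.exp_pos _
  -- first piece
  have hp1 : ‖G.di y (G.E o ((t : ℂ) * v)) - G.di y (G.E o (((0 : ℝ) : ℂ) * v))‖ ≤
      8 * Real.exp (-(G.a * r / 2)) := by
    have h1 := C7_mvb (f := fun s : ℝ => G.di y (G.E o ((s : ℂ) * v))) (f' := f') (p := 0) (q := t)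
      (b := fun s => 8 * Real.exp (-(G.a * r / 2)) * Real.exp (-(G.a * (t - s) / 2)))
      (b' := fun s => 4 * G.a * Real.exp (-(G.a * r / 2)) * Real.exp (-(G.a * (t - s) / 2)))
      ht0.le (fun s hs => hf1 s hs.1) (by
        intro s
        have h2 : HasDerivAt (fun s : ℝ => -(G.a * (t - s) / 2)) (G.a / 2) s := by
          have h3 := (((hasDerivAt_id s).const_sub t).const_mul G.a).div_const 2
          have h4 := h3.neg
          refine h4.congr_deriv ?_
          ring
        refine (h2.exp.const_mul _).congr_deriv ?_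
        ring) (by
        intro s hs
        refine (hf2 s hs.1).trans (le_of_eq ?_)
        rw [abs_of_nonpos (by linarith [hs.2])]
        congr 3
        ring)
    refine h1.trans ?_
    have h2 : Real.exp (-(G.a * (t - t) / 2)) = 1 := by simp
    rw [h2]
    have h3 : 0 < Real.exp (-(G.a * (t - 0) / 2)) := Real.exp_pos _
    nlinarith [mul_pos e0 h3]
  -- second piece
  have hp2 : ∀ s : ℝ, t ≤ s →
      ‖G.di y (G.E o ((s : ℂ) * v)) - G.di y (G.E o ((t : ℂ) * v))‖ ≤
        8 * Real.exp (-(G.a * r / 2)) := by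
    intro s hs
    have h1 := C7_mvb (f := fun s : ℝ => G.di y (G.E o ((s : ℂ) * v))) (f' := f') (p := t) (q := s)
      (b := fun s => -(8 * Real.exp (-(G.a * r / 2)) * Real.exp (-(G.a * (s - t) / 2))))
      (b' := fun s => 4 * G.a * Real.exp (-(G.a * r / 2)) * Real.exp (-(G.a * (s - t) / 2)))
      hs (fun s hs => hf1 s (ht0.le.trans hs.1)) (by
        intro s
        have h2 : HasDerivAt (fun s : ℝ => -(G.a * (s - t) / 2)) (-(G.a / 2)) s := by
          have h3 := (((hasDerivAt_id s).sub_const t).const_mul G.a).div_const 2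
          have h4 := h3.neg
          refine h4.congr_deriv ?_
          ring
        refine (h2.exp.const_mul _).neg.congr_deriv ?_
        ring) (by
        intro s hs
        refine (hf2 s (ht0.le.trans hs.1)).trans (le_of_eq ?_)
        rw [abs_of_nonneg (by linarith [hs.1])])
    refine h1.trans ?_
    have h2 : Real.exp (-(G.a * (t - t) / 2)) = 1 := by simp
    rw [h2]
    have h3 : 0 < Real.exp (-(G.a * (s - t) / 2)) := Real.exp_pos _
    nlinarith [mul_pos e0 h3]
  have hlim : ‖w - G.di y o‖ ≤ ε / 2 := by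
    have h1 : Tendsto (fun s : ℝ => ‖G.di y (G.E o ((s : ℂ) * v)) - G.di y o‖) atTop
        (𝓝 ‖w - G.di y o‖) := by
      have := (hat y o v hv1).1
      rw [hAt] at this
      exact (this.sub_const _).norm
    refine le_of_tendsto h1 ?_
    filter_upwards [eventually_ge_atTop t] with s hs
    have h2 := hp2 s hs
    have h3 : G.E o (((0 : ℝ) : ℂ) * v) = o := by
      rw [Complex.ofReal_zero, zero_mul, h.E_zero]
    rw [h3] at hp1
    calc ‖G.di y (G.E o ((s : ℂ) * v)) - G.di y o‖
        = ‖(G.di y (G.E o ((s : ℂ) * v)) - G.di y (G.E o ((t : ℂ) * v))) +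
            (G.di y (G.E o ((t : ℂ) * v)) - G.di y o)‖ := by ring_nf
      _ ≤ _ := norm_add_le _ _
      _ ≤ 8 * Real.exp (-(G.a * r / 2)) + 8 * Real.exp (-(G.a * r / 2)) := add_le_add h2 hp1
      _ ≤ ε / 2 := by linarith
  linarith

end SR85
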