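import Pool.Agent.LibSR85.C3
import Pool.Agent.LibSR85.C4
import Pool.Agent.LibSR85.P6
import Pool.Agent.LibSR85.L1
import Pool.Agent.LibSR85.L2

/-! Row SR85 E1: invariant sets of unit vectors; the measure of their fibres.

PLAN of `fib_smul`: `ϑ ∈ fib S (g • x)` iff `(g • x, e^{iϑ}) ∈ S` iff `(x, conj (R g x) e^{iϑ}) ∈ S`
(`Inv.smul` with `u = conj (R g x) * e^{iϑ}`); `circ_rot` for the indicator of `{u | (x, u) ∈ S}`.
PLAN of `fib_quasi`: for `θ ∈ fib Sᶜ o`, `w = At x o e^{iθ}` is a unit vector with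
`(x, w) ∉ S` (`Inv.asy`) and `e^{iθ} = At o x w` (`at_at`); write `w = e^{iθ'}`, `θ' ∈ (-π, π]`,
so `θ' ∈ fib Sᶜ x`. Apply `circ_lip` with `h θ' = At o x (e^{iθ'})`, `N = fib Sᶜ x`,
`Λ = exp (C (d o x + 1))` (`at_lip` with `u = 1`). -/

open MeasureTheory Set Filter Topology
open scoped ContDiff ENNReal NNReal ComplexConjugate

namespace SR85

open BGS (Pl Surface)

variable {Γ : Type} [Group Γ] [MulAction Γ Pl] {D : Set Pl} {G : Dat Γ}

/-- The fibre of a set of tangent vectors over `x`, as a set of angles. -/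
def fib (S : Set (Pl × ℂ)) (x : Pl) : Set ℝ :=
  {θ | θ ∈ Ioc (-Real.pi) Real.pi ∧ (x, Complex.exp ((θ : ℂ) * Complex.I)) ∈ S}

/-- A measurable set of unit vectors that is invariant under the group and that contains with a
vector all asymptotic ones. -/
structure Inv (G : Dat Γ) (S : Set (Pl × ℂ)) : Prop where
  meas : MeasurableSet S
  smul : ∀ (g : Γ) (x : Pl) (u : ℂ), ‖u‖ = 1 → ((g • x, G.R g x * u) ∈ S ↔ (x, u) ∈ S)
  asy : ∀ (o x : Pl) (u : ℂ), ‖u‖ = 1 → ((x, u) ∈ S ↔ (o, At G o x u) ∈ S)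

theorem Inv.compl {S : Set (Pl × ℂ)} (hS : Inv G S) : Inv G Sᶜ :=
  ⟨hS.meas.compl, fun g x u hu => not_congr (hS.smul g x u hu),
    fun o x u hu => not_congr (hS.asy o x u hu)⟩

theorem E1_pre_meas {S : Set (Pl × ℂ)} (hS : MeasurableSet S) (x : Pl) :
    MeasurableSet {θ : ℝ | (x, Complex.exp ((θ : ℂ) * Complex.I)) ∈ S} := by
  have hc : Continuous fun θ : ℝ => (x, Complex.exp ((θ : ℂ) * Complex.I)) := by fun_prop
  exact hc.measurable hS

theorem fib_meas {S : Set (Pl × ℂ)} (hS : MeasurableSet S) (x : Pl) : MeasurableSet (fib S x) :=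
  measurableSet_Ioc.inter (E1_pre_meas hS x)

theorem E1_vol {S : Set (Pl × ℂ)} (hS : MeasurableSet S) (x : Pl) :
    volume (fib S x) = ∫⁻ ϑ in Ioc (-Real.pi) Real.pi,
      {u : ℂ | (x, u) ∈ S}.indicator (fun _ => (1 : ℝ≥0∞)) (Complex.exp ((ϑ : ℂ) * Complex.I)) := by
  have h1 : ∀ ϑ : ℝ, {u : ℂ | (x, u) ∈ S}.indicator (fun _ => (1 : ℝ≥0∞)) (Complex.exp ((ϑ : ℂ) * Complex.I)) =
      {θ : ℝ | (x, Complex.exp ((θ : ℂ) * Complex.I)) ∈ S}.indicator (fun _ => (1 : ℝ≥0∞)) ϑ := by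
    intro ϑ
    rfl
  simp_rw [h1]
  rw [lintegral_indicator (E1_pre_meas hS x), lintegral_const, one_mul,
    Measure.restrict_apply_univ, Measure.restrict_apply (E1_pre_meas hS x), inter_comm]
  rfl

theorem fib_smul (h : HG D G) {S : Set (Pl × ℂ)} (hS : Inv G S) (g : Γ) (x : Pl) :
    volume (fib S (g • x)) = volume (fib S x) := by
  have hR : ‖conj (G.R g x)‖ = 1 := by rw [Complex.norm_conj, h.R_norm]
  have hRR : G.R g x * conj (G.R g x) = 1 := by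
    rw [Complex.mul_conj, Complex.normSq_eq_norm_sq, h.R_norm]
    norm_num
  rw [E1_vol hS.meas (g • x), E1_vol hS.meas x,
    ← circ_rot ({u : ℂ | (x, u) ∈ S}.indicator (fun _ => (1 : ℝ≥0∞))) hR]
  congr 1
  funext ϑ
  have hu : ‖conj (G.R g x) * Complex.exp ((ϑ : ℂ) * Complex.I)‖ = 1 := by
    rw [norm_mul, hR, Complex.norm_exp_ofReal_mul_I, one_mul]
  have h1 := hS.smul g x (conj (G.R g x) * Complex.exp ((ϑ : ℂ) * Complex.I)) hu
  rw [← mul_assoc, hRR, one_mul] at h1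
  by_cases hm : (x, conj (G.R g x) * Complex.exp ((ϑ : ℂ) * Complex.I)) ∈ S
  · rw [Set.indicator_of_mem (show _ ∈ {u : ℂ | (g • x, u) ∈ S} from h1.mpr hm),
      Set.indicator_of_mem (show _ ∈ {u : ℂ | (x, u) ∈ S} from hm)]
  · rw [Set.indicator_of_notMem (show _ ∉ {u : ℂ | (g • x, u) ∈ S} from fun hh => hm (h1.mp hh)),
      Set.indicator_of_notMem (show _ ∉ {u : ℂ | (x, u) ∈ S} from hm)]

theorem fib_quasi (h : HG D G) : ∃ C : ℝ, 0 < C ∧ ∀ S : Set (Pl × ℂ), Inv G S → ∀ o x : Pl,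
    volume (fib Sᶜ o) ≤ ENNReal.ofReal (Real.exp (C * (G.d o x + 1))) * volume (fib Sᶜ x) := by
  obtain ⟨C, hC, hlip⟩ := at_lip h
  obtain ⟨C', hC', hlim⟩ := at_lim h
  refine ⟨C + 3, by linarith, ?_⟩
  intro S hS o x
  set Λ : ℝ := Real.exp (C * (G.d o x + 1)) with hΛ
  have hd : 0 ≤ G.d o x := norm_nonneg _
  have he : ∀ θ : ℝ, ‖Complex.exp ((θ : ℂ) * Complex.I)‖ = 1 := fun θ => Complex.norm_exp_ofReal_mul_I θ
  have hmain := circ_lip (fun θ' : ℝ => At G o x (Complex.exp ((θ' : ℂ) * Complex.I))) (fib Sᶜ x)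
    (Real.exp_nonneg (C * (G.d o x + 1))) (fun θ _ => (hlim o x _ (he θ)).2.1)
    (fun θ _ θ' _ => by
      have := hlip o x 1 θ θ' norm_one
      rwa [one_mul, one_mul] at this)
  have hsub : fib Sᶜ o ⊆ {ϑ : ℝ | ϑ ∈ Ioc (-Real.pi) Real.pi ∧
      ∃ θ ∈ fib Sᶜ x, Complex.exp ((ϑ : ℂ) * Complex.I) =
        At G o x (Complex.exp ((θ : ℂ) * Complex.I))} := by
    rintro ϑ ⟨hϑ, hϑS⟩
    refine ⟨hϑ, ?_⟩
    set w : ℂ := At G x o (Complex.exp ((ϑ : ℂ) * Complex.I)) with hw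
    have hw1 : ‖w‖ = 1 := (hlim x o _ (he ϑ)).2.1
    have hwS : (x, w) ∉ S := fun hh => hϑS ((hS.asy x o _ (he ϑ)).mpr hh)
    have hwe : Complex.exp ((w.arg : ℂ) * Complex.I) = w := by
      have := Complex.norm_mul_exp_arg_mul_I w
      rwa [hw1, Complex.ofReal_one, one_mul] at this
    refine ⟨w.arg, ⟨Complex.arg_mem_Ioc w, ?_⟩, ?_⟩
    · rw [hwe]; exact hwS
    · rw [hwe, hw, at_at h x o (he ϑ)]
  refine (measure_mono hsub).trans (hmain.trans ?_)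
  gcongr
  have h8 : (8 : ℝ) ≤ Real.exp (3 * (G.d o x + 1)) := by
    have h3 : (8 : ℝ) ≤ Real.exp 3 := by
      have := Real.exp_one_gt_d9
      have h4 : Real.exp 3 = Real.exp 1 ^ 3 := by
        rw [← Real.exp_nat_mul]; norm_num
      rw [h4]
      have h5 : (2 : ℝ) ^ 3 ≤ Real.exp 1 ^ 3 := pow_le_pow_left₀ (by norm_num) (by linarith) 3
      linarith
    refine h3.trans (Real.exp_le_exp.mpr ?_)
    nlinarith
  calc 8 * Real.exp (C * (G.d o x + 1))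
      ≤ Real.exp (3 * (G.d o x + 1)) * Real.exp (C * (G.d o x + 1)) := by gcongr
    _ = Real.exp ((C + 3) * (G.d o x + 1)) := by
        rw [← Real.exp_add]
        congr 1
        ring

end SR85
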