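import Pool.Agent.LibSR85.E1
import Pool.Agent.LibSR85.C6
import Pool.Agent.LibSR85.C7

/-! Row SR85 E2: the expansion step. If `S` has positive measure in the circle at `o` then it has
almost full measure in some circles.

PLAN. Let `P = {θ | (o, e^{iθ}) ∈ S} ⊆ ℝ`, measurable and `2 π`-periodic; `fib S o = P ∩ (-π, π]`
has positive measure, so by the Lebesgue density theorem
(`Besicovitch.ae_tendsto_measure_inter_div_of_measurableSet` or
`IsUnifLocDoublingMeasure.ae_tendsto_measure_inter_div`) there is `θ₀` with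
`volume (P ∩ closedBall θ₀ r) / volume (closedBall θ₀ r) → 1` as `r → 0⁺`, i.e.
`volume (Pᶜ ∩ closedBall θ₀ r) ≤ η r` for `r ≤ r₀(η)`. Put `u = e^{iθ₀}`. Given `ε`, take `ε' = ε / 32`,
`R, t₁` from `at_cover ε'`, `C, t₂` from `at_arc R`, `η` with `8 C * η * R ≤ ε / 2`. For `t` large,
`y = E o (t u)`, `J₀ = B o u t → ∞` (`B_low`), `r = R / J₀ ≤ r₀(η)`. Let `ϑ ∈ fib Sᶜ y`, `w = e^{iϑ}`.
If `‖w - di y o‖ < ε'`: a set of measure at most `8 ε' ≤ ε / 4` (`circ_cone`). Otherwise `w = At y o (u e^{iθ})` with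
`|θ| ≤ R / J₀`, and `(o, u e^{iθ}) ∉ S` by `Inv.asy`, so `θ` is in
`N = {θ | |θ| ≤ R / J₀, θ₀ + θ ∈ Pᶜ}`, of measure at most `η R / J₀`. `circ_lip` with
`h θ = At y o (u e^{iθ})`, `Λ = C J₀` (`at_arc`): measure at most `8 C J₀ η R / J₀ ≤ ε / 2`. -/

open MeasureTheory Set Filter Topology
open scoped ContDiff ENNReal NNReal ComplexConjugate

namespace SR85

open BGS (Pl Surface)

variable {Γ : Type} [Group Γ] [MulAction Γ Pl] {D : Set Pl} {G : Dat Γ}

/-- density point -/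
theorem E2_density {P : Set ℝ} (hP : MeasurableSet P) (h0 : volume P ≠ 0) :
    ∃ θ₀ : ℝ, ∀ η : ℝ, 0 < η → ∃ r₀ : ℝ, 0 < r₀ ∧ ∀ r : ℝ, 0 < r → r < r₀ →
      volume (Pᶜ ∩ Metric.closedBall θ₀ r) ≤ ENNReal.ofReal (η * (2 * r)) := by
  have hae := Besicovitch.ae_tendsto_measure_inter_div_of_measurableSet (volume : Measure ℝ) hP.compl
  obtain ⟨θ₀, hθP, hθ⟩ : ∃ θ₀ : ℝ, θ₀ ∈ P ∧ Tendsto (fun r => volume (Pᶜ ∩ Metric.closedBall θ₀ r) /
      volume (Metric.closedBall θ₀ r)) (𝓝[>] 0) (𝓝 (Pᶜ.indicator 1 θ₀)) := by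
    by_contra hcon
    push Not at hcon
    apply h0
    refine measure_mono_null ?_ hae
    intro θ hθ
    exact hcon θ hθ
  rw [Set.indicator_of_notMem (by simpa using hθP)] at hθ
  refine ⟨θ₀, fun η hη => ?_⟩
  have h1 : ∀ᶠ r in 𝓝[>] (0 : ℝ), volume (Pᶜ ∩ Metric.closedBall θ₀ r) /
      volume (Metric.closedBall θ₀ r) < ENNReal.ofReal η :=
    hθ.eventually_lt_const (by simpa using hη)
  obtain ⟨r₀, hr₀, hr⟩ := mem_nhdsGT_iff_exists_Ioo_subset.mp h1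
  refine ⟨r₀, hr₀, fun r hr1 hr2 => ?_⟩
  have h2 : volume (Pᶜ ∩ Metric.closedBall θ₀ r) / volume (Metric.closedBall θ₀ r) <
    ENNReal.ofReal η := hr ⟨hr1, hr2⟩
  rw [Real.volume_closedBall] at h2
  have h3 : ENNReal.ofReal (2 * r) ≠ 0 := by
    simpa using hr1
  have h4 := (ENNReal.div_le_iff h3 ENNReal.ofReal_ne_top).mp h2.le
  rwa [← ENNReal.ofReal_mul hη.le] at h4

theorem expand (h : HG D G) {S : Set (Pl × ℂ)} (hS : Inv G S) (o : Pl)
    (ho : volume (fib S o) ≠ 0) {ε : ℝ} (hε : 0 < ε) :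
    ∃ y : Pl, volume (fib Sᶜ y) ≤ ENNReal.ofReal ε := by
  set P : Set ℝ := {θ : ℝ | (o, Complex.exp ((θ : ℂ) * Complex.I)) ∈ S} with hP
  have hPm : MeasurableSet P := E1_pre_meas hS.meas o
  have hP0 : volume P ≠ 0 := by
    intro h0
    apply ho
    exact measure_mono_null (fun θ hθ => hθ.2) h0
  obtain ⟨θ₀, hdens⟩ := E2_density hPm hP0
  obtain ⟨R, t₁, hR, ht₁, hcov⟩ := at_cover h (ε / 32) (by positivity)
  obtain ⟨C, t₂, hC, ht₂, harc⟩ := at_arc h R hR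
  obtain ⟨C', hC', hlim⟩ := at_lim h
  obtain ⟨r₀, hr₀, hr⟩ := hdens (ε / (32 * C * R)) (by positivity)
  set u : ℂ := Complex.exp ((θ₀ : ℂ) * Complex.I) with hu
  have hu1 : ‖u‖ = 1 := Complex.norm_exp_ofReal_mul_I θ₀
  set t : ℝ := max (max t₁ t₂) (R / r₀ + 1) with ht
  have htt₁ : t₁ ≤ t := (le_max_left _ _).trans (le_max_left _ _)
  have htt₂ : t₂ ≤ t := (le_max_right _ _).trans (le_max_left _ _)
  have htR : R / r₀ < t := by
    have : R / r₀ + 1 ≤ t := le_max_right _ _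
    linarith
  have ht0 : 0 < t := lt_of_lt_of_le ht₁ htt₁
  have ha := h.a_pos
  set J₀ : ℝ := G.B o u t with hJ₀
  have hJt : t ≤ J₀ := by
    refine le_trans ?_ (B_low h o hu1 ht0)
    rw [le_div_iff₀ ha, mul_comm]
    exact Real.self_le_sinh_iff.mpr (by positivity)
  have hJ0 : 0 < J₀ := lt_of_lt_of_le ht0 hJt
  have hrJ : R / J₀ < r₀ := by
    rw [div_lt_iff₀ hJ0]
    rw [div_lt_iff₀ hr₀] at htR
    nlinarith
  have hrJ0 : 0 < R / J₀ := by positivity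
  have hvol := hr (R / J₀) hrJ0 hrJ
  set y : Pl := G.E o ((t : ℂ) * u) with hy
  have hyo : y ≠ o := E_ne h o hu1 ht0.ne'
  have he : ∀ θ : ℝ, ‖u * Complex.exp ((θ : ℂ) * Complex.I)‖ = 1 := fun θ => by
    rw [norm_mul, hu1, Complex.norm_exp_ofReal_mul_I, one_mul]
  set N : Set ℝ := {θ : ℝ | |θ| ≤ R / J₀ ∧ (o, u * Complex.exp ((θ : ℂ) * Complex.I)) ∉ S} with hN
  have hNvol : volume N ≤ ENNReal.ofReal (ε / (32 * C * R) * (2 * (R / J₀))) := by
    refine le_trans ?_ hvol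
    have hNeq : N ⊆ (fun θ => θ₀ + θ) ⁻¹' (Pᶜ ∩ Metric.closedBall θ₀ (R / J₀)) := by
      rintro θ ⟨h1, h2⟩
      refine ⟨?_, ?_⟩
      · show (o, Complex.exp (((θ₀ + θ : ℝ) : ℂ) * Complex.I)) ∉ S
        have : Complex.exp (((θ₀ + θ : ℝ) : ℂ) * Complex.I) = u * Complex.exp ((θ : ℂ) * Complex.I) := by
          rw [hu, ← Complex.exp_add]
          congr 1
          push_cast
          ring
        rw [this]
        exact h2
      · rw [Metric.mem_closedBall, Real.dist_eq]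
        simpa using h1
    refine (measure_mono hNeq).trans (le_of_eq ?_)
    exact measure_preimage_add volume θ₀ _
  refine ⟨y, ?_⟩
  set A : Set ℝ := {ϑ : ℝ | ϑ ∈ Ioc (-Real.pi) Real.pi ∧
      ‖Complex.exp ((ϑ : ℂ) * Complex.I) - G.di y o‖ ≤ ε / 32} with hA
  set B : Set ℝ := {ϑ : ℝ | ϑ ∈ Ioc (-Real.pi) Real.pi ∧
      ∃ θ ∈ N, Complex.exp ((ϑ : ℂ) * Complex.I) =
        At G y o (u * Complex.exp ((θ : ℂ) * Complex.I))} with hB
  have hsub : fib Sᶜ y ⊆ A ∪ B := by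
    rintro ϑ ⟨hϑ, hϑS⟩
    by_cases hc : ‖Complex.exp ((ϑ : ℂ) * Complex.I) - G.di y o‖ ≤ ε / 32
    · exact Or.inl ⟨hϑ, hc⟩
    · right
      push Not at hc
      obtain ⟨θ, hθ, hAt⟩ := hcov o u (Complex.exp ((ϑ : ℂ) * Complex.I)) t hu1
        (Complex.norm_exp_ofReal_mul_I ϑ) htt₁ hc.le
      refine ⟨hϑ, θ, ⟨hθ, fun hh => ?_⟩, hAt.symm⟩
      apply hϑS
      rw [← hAt]
      exact (hS.asy y o _ (he θ)).mp hh
  have hvA : volume A ≤ ENNReal.ofReal (8 * (ε / 32)) := circ_cone (di_norm h hyo) (by positivity)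
  have hvB : volume B ≤ ENNReal.ofReal (8 * (C * J₀)) * volume N :=
    circ_lip (fun θ : ℝ => At G y o (u * Complex.exp ((θ : ℂ) * Complex.I))) N (by positivity)
      (fun θ _ => (hlim y o _ (he θ)).2.1)
      (fun θ hθ θ' hθ' => harc o u t θ θ' hu1 htt₂ hθ.1 hθ'.1)
  calc volume (fib Sᶜ y) ≤ volume A + volume B := (measure_mono hsub).trans (measure_union_le _ _)
    _ ≤ ENNReal.ofReal (8 * (ε / 32)) +
        ENNReal.ofReal (8 * (C * J₀)) * ENNReal.ofReal (ε / (32 * C * R) * (2 * (R / J₀))) := by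
        gcongr
        exact hvB.trans (by gcongr)
    _ = ENNReal.ofReal (8 * (ε / 32) + 8 * (C * J₀) * (ε / (32 * C * R) * (2 * (R / J₀)))) := by
        rw [← ENNReal.ofReal_mul (by positivity), ← ENNReal.ofReal_add (by positivity) (by positivity)]
    _ ≤ ENNReal.ofReal ε := by
        apply ENNReal.ofReal_le_ofReal
        have : 8 * (C * J₀) * (ε / (32 * C * R) * (2 * (R / J₀))) = ε / 2 := by
          field_simp
          ring
        rw [this]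
        linarith

end SR85
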