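import Pool.Agent.LibSR85.E2

/-! Row SR85 E3: the zero-one law.

PLAN. If `volume (fib S x) = 0` for all `x` we are done. Otherwise `volume (fib S o) ≠ 0` for some
`o`. Let `x` be arbitrary, `g₁ • x ∈ D` (`move`), and for `ε > 0` let `y` be as in `expand`,
`g₂ • y ∈ D`. Then `volume (fib Sᶜ x) = volume (fib Sᶜ (g₁ • x))
≤ C' volume (fib Sᶜ (g₂ • y)) = C' volume (fib Sᶜ y) ≤ C' ε` with
`C' = exp (C (r + 1))`, `r` from `diamD` (`fib_smul` for `Sᶜ`, `fib_quasi`). Let `ε → 0`. -/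

open MeasureTheory Set Filter Topology
open scoped ContDiff ENNReal NNReal ComplexConjugate

namespace SR85

open BGS (Pl Surface)

variable {Γ : Type} [Group Γ] [MulAction Γ Pl] {D : Set Pl} {G : Dat Γ}

theorem zero_one (hX : Surface Γ D) (h : HG D G) {S : Set (Pl × ℂ)} (hS : Inv G S) :
    (∀ x, volume (fib S x) = 0) ∨ ∀ x, volume (fib Sᶜ x) = 0 := by
  by_cases h0 : ∀ x, volume (fib S x) = 0
  · exact Or.inl h0
  right
  push Not at h0
  obtain ⟨o, ho⟩ := h0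
  intro x
  obtain ⟨r, _, hrD⟩ := diamD hX h
  obtain ⟨C, hC, hq⟩ := fib_quasi h
  obtain ⟨g₁, hg₁⟩ := move hX x
  have key : ∀ ε : ℝ, 0 < ε → volume (fib Sᶜ x) ≤
      ENNReal.ofReal (Real.exp (C * (r + 1))) * ENNReal.ofReal ε := by
    intro ε hε
    obtain ⟨y, hy⟩ := expand h hS o ho hε
    obtain ⟨g₂, hg₂⟩ := move hX y
    calc volume (fib Sᶜ x) = volume (fib Sᶜ (g₁ • x)) := (fib_smul h hS.compl g₁ x).symm
      _ ≤ ENNReal.ofReal (Real.exp (C * (G.d (g₁ • x) (g₂ • y) + 1))) *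
          volume (fib Sᶜ (g₂ • y)) := hq S hS _ _
      _ ≤ ENNReal.ofReal (Real.exp (C * (r + 1))) * volume (fib Sᶜ (g₂ • y)) := by
          gcongr
          exact hrD _ hg₁ _ hg₂
      _ = ENNReal.ofReal (Real.exp (C * (r + 1))) * volume (fib Sᶜ y) := by
          rw [fib_smul h hS.compl g₂ y]
      _ ≤ _ := by gcongr
  have hz : volume (fib Sᶜ x) ≤ 0 := by
    refine ENNReal.le_of_forall_pos_le_add fun δ hδ _ => ?_
    have hE : 0 < Real.exp (C * (r + 1)) := Real.exp_pos _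
    have hδ' : (0 : ℝ) < (δ : ℝ) := hδ
    refine (key ((δ : ℝ) / Real.exp (C * (r + 1))) (by positivity)).trans ?_
    rw [← ENNReal.ofReal_mul hE.le, mul_div_cancel₀ _ hE.ne', ENNReal.ofReal_coe_nnreal, zero_add]
  exact le_antisymm hz bot_le

end SR85
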