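import Pool.Agent.LibSR85.C2
import Pool.Agent.LibSR85.P6

/-! Row SR85 E4: time averages along asymptotic rays are the same.

`f` is a continuous function of two points, invariant under the group (diagonally);
`avg G f T x u` is the average of `s ↦ f (z s) (z (s + 1))` over `[0, T]`, `z s = E x (s u)`.

PLAN of `unif`: let `ε > 0`; on the compact set of all `(x, y)` with `x ∈ closure D`, `d x y ≤ 1`
(`ball_bdd`) and its unit neighbourhood `f` is uniformly continuous for the distance `d` (the map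
`(v, w) ↦` ... or by contradiction with sequences: if `d xₙ xₙ' → 0`, `d yₙ yₙ' → 0` and
`|f ..| ≥ ε` then after moving `xₙ` into `D` (`f` and `d` are invariant) and passing to convergent
subsequences of `xₙ, yₙ, xₙ', yₙ'` (all in one compact set) the limits satisfy `x = x'`, `y = y'`
(`V_cont`: `d x x' = 0`, then `d_pos`), contradiction with continuity of `f`).
PLAN of `bdd`: `f` is bounded on `{d x y = 1}` by the same compactness.
PLAN of `avg_asy`: `ray_close` with `b`, `z s = E x (s u)`, `z' s = E o (s v)`, `v = At o x u`: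
`d (z s) (z' (s + b)) → 0`, so by `unif` for every `ε` there is `s₀` with
`|f (z s) (z (s+1)) - f (z' (s+b)) (z' (s+b+1))| ≤ ε` for `s ≥ s₀`; integrate over `[0, T]`, shift
the second integral by `b` (error `≤ 2 |b| sup |f|`), divide by `T`. -/

open MeasureTheory Set Filter Topology
open scoped ContDiff ENNReal NNReal ComplexConjugate

namespace SR85

open BGS (Pl Surface)

variable {Γ : Type} [Group Γ] [MulAction Γ Pl] {D : Set Pl} {G : Dat Γ}

/-- Time average of `f (z s) (z (s + 1))` over `[0, T]`. -/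
noncomputable def avg (G : Dat Γ) (f : Pl → Pl → ℝ) (T : ℝ) (x : Pl) (u : ℂ) : ℝ :=
  (1 / T) * ∫ s in (0 : ℝ)..T, f (G.E x ((s : ℂ) * u)) (G.E x (((s + 1 : ℝ) : ℂ) * u))

private theorem e4_compact (hX : Surface Γ D) : IsCompact (closure D) :=
  hX.bdd.isCompact_closure

private theorem e4_eq (h : HG D G) {x y : Pl} (hxy : G.d x y ≤ 0) : x = y := by
  by_contra hne
  exact absurd (d_pos h hne) (not_lt.2 hxy)

theorem unif (hX : Surface Γ D) (h : HG D G) {f : Pl → Pl → ℝ}
    (hf : Continuous fun q : Pl × Pl => f q.1 q.2) (hi : ∀ (g : Γ) x y, f (g • x) (g • y) = f x y)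
    {ε : ℝ} (hε : 0 < ε) : ∃ δ : ℝ, 0 < δ ∧ ∀ x y x' y', G.d x y ≤ 1 → G.d x x' ≤ δ →
      G.d y y' ≤ δ → |f x y - f x' y'| ≤ ε := by
  obtain ⟨N1, hN1, hN1'⟩ := ball_bdd h (e4_compact hX) 1
  obtain ⟨N2, hN2, hN2'⟩ := ball_bdd h hN1 1
  have hd := d_cont h
  set S : Set (Pl × Pl × Pl × Pl) := (closure D ×ˢ (N1 ×ˢ (N1 ×ˢ N2))) ∩
    {q | ε ≤ |f q.1 q.2.1 - f q.2.2.1 q.2.2.2|} with hS
  have hf1 : Continuous fun q : Pl × Pl × Pl × Pl => f q.1 q.2.1 :=
    hf.comp (continuous_fst.prodMk (continuous_fst.comp continuous_snd))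
  have hf2 : Continuous fun q : Pl × Pl × Pl × Pl => f q.2.2.1 q.2.2.2 :=
    hf.comp ((continuous_fst.comp (continuous_snd.comp continuous_snd)).prodMk
      (continuous_snd.comp (continuous_snd.comp continuous_snd)))
  have hSc : IsCompact S :=
    ((e4_compact hX).prod (hN1.prod (hN1.prod hN2))).inter_right
      (isClosed_le continuous_const (hf1.sub hf2).abs)
  have hm : Continuous fun q : Pl × Pl × Pl × Pl =>
      max (G.d q.1 q.2.2.1) (G.d q.2.1 q.2.2.2) := by
    apply Continuous.max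
    · exact hd.comp (continuous_fst.prodMk
        (continuous_fst.comp (continuous_snd.comp continuous_snd)))
    · exact hd.comp ((continuous_fst.comp continuous_snd).prodMk
        (continuous_snd.comp (continuous_snd.comp continuous_snd)))
  obtain ⟨m, hm0, hmin⟩ : ∃ m : ℝ, 0 < m ∧ ∀ q ∈ S,
      m ≤ max (G.d q.1 q.2.2.1) (G.d q.2.1 q.2.2.2) := by
    rcases S.eq_empty_or_nonempty with hSe | hSn
    · exact ⟨1, one_pos, fun q hq => by rw [hSe] at hq; exact absurd hq (notMem_empty q)⟩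
    · obtain ⟨q0, hq0, hq0'⟩ := hSc.exists_isMinOn hSn hm.continuousOn
      refine ⟨_, ?_, fun q hq => hq0' hq⟩
      by_contra hle
      rw [not_lt] at hle
      have e1 := e4_eq h ((le_max_left _ _).trans hle)
      have e2 := e4_eq h ((le_max_right _ _).trans hle)
      have h3 : ε ≤ |f q0.1 q0.2.1 - f q0.2.2.1 q0.2.2.2| := hq0.2
      rw [← e1, ← e2, sub_self, abs_zero] at h3
      linarith
  refine ⟨min 1 (m / 2), by positivity, ?_⟩
  intro x y x' y' h1 h2 h3
  by_contra hlt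
  rw [not_le] at hlt
  obtain ⟨g, hg⟩ := move hX x
  have hx : g • x ∈ closure D := subset_closure hg
  have hy : g • y ∈ N1 := hN1' _ hx _ (by rw [d_smul h]; exact h1)
  have hx' : g • x' ∈ N1 := hN1' _ hx _ (by
    rw [d_smul h]; exact h2.trans (min_le_left _ _))
  have hy' : g • y' ∈ N2 := hN2' _ hy _ (by
    rw [d_smul h]; exact h3.trans (min_le_left _ _))
  have hmem : ((g • x, g • y, g • x', g • y') : Pl × Pl × Pl × Pl) ∈ S := by
    refine ⟨⟨hx, hy, hx', hy'⟩, ?_⟩
    change ε ≤ |f (g • x) (g • y) - f (g • x') (g • y')|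
    rw [hi, hi]
    exact hlt.le
  have h4 := hmin _ hmem
  have h5 : m ≤ max (G.d x x') (G.d y y') := by
    have e1 : G.d (g • x) (g • x') = G.d x x' := d_smul h g x x'
    have e2 : G.d (g • y) (g • y') = G.d y y' := d_smul h g y y'
    rw [← e1, ← e2]
    exact h4
  have h6 : max (G.d x x') (G.d y y') ≤ m / 2 :=
    (max_le h2 h3).trans (min_le_right _ _)
  linarith

theorem bdd (hX : Surface Γ D) (h : HG D G) {f : Pl → Pl → ℝ}
    (hf : Continuous fun q : Pl × Pl => f q.1 q.2)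
    (hi : ∀ (g : Γ) x y, f (g • x) (g • y) = f x y) :
    ∃ M : ℝ, 0 < M ∧ ∀ x y, G.d x y ≤ 1 → |f x y| ≤ M := by
  obtain ⟨N1, hN1, hN1'⟩ := ball_bdd h (e4_compact hX) 1
  obtain ⟨C, hC⟩ := ((e4_compact hX).prod hN1).exists_bound_of_continuousOn hf.continuousOn
  refine ⟨|C| + 1, by positivity, ?_⟩
  intro x y hxy
  obtain ⟨g, hg⟩ := move hX x
  have hx : g • x ∈ closure D := subset_closure hg
  have hy : g • y ∈ N1 := hN1' _ hx _ (by rw [d_smul h]; exact hxy)
  have h1 := hC (g • x, g • y) ⟨hx, hy⟩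
  have h2 : ‖f (g • x) (g • y)‖ ≤ C := h1
  rw [hi, Real.norm_eq_abs] at h2
  exact h2.trans ((le_abs_self C).trans (by linarith))

private theorem e4_contE (h : HG D G) (x : Pl) (u : ℂ) :
    Continuous fun s : ℝ => G.E x ((s : ℂ) * u) :=
  h.E_cont.comp (continuous_const.prodMk (Complex.continuous_ofReal.mul continuous_const))

private theorem e4_contF (h : HG D G) {f : Pl → Pl → ℝ}
    (hf : Continuous fun q : Pl × Pl => f q.1 q.2) (x : Pl) (u : ℂ) :
    Continuous fun s : ℝ => f (G.E x ((s : ℂ) * u)) (G.E x (((s + 1 : ℝ) : ℂ) * u)) := by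
  have h1 := e4_contE h x u
  have h2 : Continuous fun s : ℝ => G.E x (((s + 1 : ℝ) : ℂ) * u) :=
    h1.comp (continuous_id.add continuous_const)
  exact hf.comp (h1.prodMk h2)

private theorem e4_int {F F' : ℝ → ℝ} (hF : Continuous F) (hF' : Continuous F') {M ε b s0 : ℝ}
    (hM : ∀ s, |F s| ≤ M) (hM' : ∀ s, |F' s| ≤ M) (hs0 : 0 ≤ s0)
    (hcl : ∀ s, s0 ≤ s → |F s - F' (s + b)| ≤ ε) {T : ℝ} (hT : s0 ≤ T) :
    |(∫ s in (0 : ℝ)..T, F s) - ∫ s in (0 : ℝ)..T, F' s| ≤
      ε * T + (2 * M * s0 + 2 * M * |b|) := by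
  have hM0 : 0 ≤ M := (abs_nonneg _).trans (hM 0)
  have hε0 : 0 ≤ ε := (abs_nonneg _).trans (hcl s0 le_rfl)
  have hFb : Continuous fun s => F' (s + b) := hF'.comp (continuous_id.add continuous_const)
  have hH : Continuous fun s => F s - F' (s + b) := hF.sub hFb
  have e1 : (∫ s in (0 : ℝ)..T, F s) - ∫ s in (0 : ℝ)..T, F' s =
      ((∫ s in (0 : ℝ)..s0, (F s - F' (s + b))) + ∫ s in s0..T, (F s - F' (s + b))) +
        ((∫ s in (0 + b)..0, F' s) - ∫ s in (T + b)..T, F' s) := by
    rw [intervalIntegral.integral_add_adjacent_intervals (hH.intervalIntegrable _ _)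
      (hH.intervalIntegrable _ _),
      intervalIntegral.integral_sub (hF.intervalIntegrable _ _) (hFb.intervalIntegrable _ _),
      intervalIntegral.integral_comp_add_right,
      ← intervalIntegral.integral_interval_sub_interval_comm (hF'.intervalIntegrable _ _)
        (hF'.intervalIntegrable _ _) (hF'.intervalIntegrable _ _)]
    ring
  have b1 : |∫ s in (0 : ℝ)..s0, (F s - F' (s + b))| ≤ 2 * M * s0 := by
    have := intervalIntegral.norm_integral_le_of_norm_le_const (a := (0 : ℝ)) (b := s0)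
      (f := fun s => F s - F' (s + b)) (C := 2 * M) (fun s _ => by
        rw [Real.norm_eq_abs]
        refine (abs_sub _ _).trans ?_
        linarith [hM s, hM' (s + b)])
    rwa [sub_zero, abs_of_nonneg hs0, Real.norm_eq_abs] at this
  have b2 : |∫ s in s0..T, (F s - F' (s + b))| ≤ ε * T := by
    have := intervalIntegral.norm_integral_le_of_norm_le_const (a := s0) (b := T)
      (f := fun s => F s - F' (s + b)) (C := ε) (fun s hs => by
        rw [Real.norm_eq_abs]
        rw [uIoc_of_le hT] at hs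
        exact hcl s hs.1.le)
    rw [Real.norm_eq_abs, abs_of_nonneg (by linarith : 0 ≤ T - s0)] at this
    refine this.trans ?_
    gcongr
    linarith
  have b3 : |∫ s in (0 + b)..0, F' s| ≤ M * |b| := by
    have := intervalIntegral.norm_integral_le_of_norm_le_const (a := 0 + b) (b := 0)
      (f := F') (C := M) (fun s _ => by rw [Real.norm_eq_abs]; exact hM' s)
    rw [Real.norm_eq_abs] at this
    refine this.trans (le_of_eq ?_)
    rw [zero_add, zero_sub, abs_neg]
  have b4 : |∫ s in (T + b)..T, F' s| ≤ M * |b| := by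
    have := intervalIntegral.norm_integral_le_of_norm_le_const (a := T + b) (b := T)
      (f := F') (C := M) (fun s _ => by rw [Real.norm_eq_abs]; exact hM' s)
    rw [Real.norm_eq_abs] at this
    refine this.trans (le_of_eq ?_)
    rw [show T - (T + b) = -b by ring, abs_neg]
  rw [e1]
  have t1 := abs_add_le ((∫ s in (0 : ℝ)..s0, (F s - F' (s + b))) + ∫ s in s0..T, (F s - F' (s + b)))
    ((∫ s in (0 + b)..0, F' s) - ∫ s in (T + b)..T, F' s)
  have t2 := abs_add_le (∫ s in (0 : ℝ)..s0, (F s - F' (s + b))) (∫ s in s0..T, (F s - F' (s + b)))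
  have t3 := abs_sub (∫ s in (0 + b)..0, F' s) (∫ s in (T + b)..T, F' s)
  linarith

theorem avg_asy (hX : Surface Γ D) (h : HG D G) {f : Pl → Pl → ℝ}
    (hf : Continuous fun q : Pl × Pl => f q.1 q.2)
    (hi : ∀ (g : Γ) x y, f (g • x) (g • y) = f x y) (o x : Pl) {u : ℂ} (hu : ‖u‖ = 1) :
    Tendsto (fun T => avg G f T x u - avg G f T o (At G o x u)) atTop (𝓝 0) := by
  obtain ⟨C0, hC0, hAt⟩ := at_lim h
  have hv : ‖At G o x u‖ = 1 := (hAt o x u hu).2.1
  obtain ⟨b, hb, hclose⟩ := ray_close h o x hu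
  obtain ⟨M, hM0, hM⟩ := bdd hX h hf hi
  set v := At G o x u with hvdef
  set F : ℝ → ℝ := fun s => f (G.E x ((s : ℂ) * u)) (G.E x (((s + 1 : ℝ) : ℂ) * u)) with hFdef
  set F' : ℝ → ℝ := fun s => f (G.E o ((s : ℂ) * v)) (G.E o (((s + 1 : ℝ) : ℂ) * v)) with hF'def
  have hF : Continuous F := e4_contF h hf x u
  have hF' : Continuous F' := e4_contF h hf o v
  have hMF : ∀ s, |F s| ≤ M := fun s => hM _ _ (by
    rw [d_geo h x hu, show s + 1 - s = (1 : ℝ) by ring, abs_one])
  have hMF' : ∀ s, |F' s| ≤ M := fun s => hM _ _ (by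
    rw [d_geo h o hv, show s + 1 - s = (1 : ℝ) by ring, abs_one])
  have ha := h.a_pos
  rw [Metric.tendsto_atTop]
  intro ε hε
  obtain ⟨δ, hδ, hun⟩ := unif hX h hf hi (half_pos hε)
  have hlim : Tendsto (fun s : ℝ => G.d o x * Real.exp (G.a * G.d o x) *
      Real.exp (-(G.a * s))) atTop (𝓝 0) := by
    have h1 : Tendsto (fun s : ℝ => Real.exp (-(G.a * s))) atTop (𝓝 0) :=
      Real.tendsto_exp_neg_atTop_nhds_zero.comp (tendsto_id.const_mul_atTop ha)
    simpa using h1.const_mul (G.d o x * Real.exp (G.a * G.d o x))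
  have hev := hlim.eventually (gt_mem_nhds hδ)
  obtain ⟨s1, hs1⟩ := eventually_atTop.1 hev
  set s0 : ℝ := max (max s1 (G.d o x)) 0 with hs0
  have hs0a : s1 ≤ s0 := (le_max_left _ _).trans (le_max_left _ _)
  have hs0b : G.d o x ≤ s0 := (le_max_right _ _).trans (le_max_left _ _)
  have hs0c : 0 ≤ s0 := le_max_right _ _
  have hcl : ∀ s, s0 ≤ s → |F s - F' (s + b)| ≤ ε / 2 := by
    intro s hs
    have g1 := (hclose s (hs0b.trans hs)).trans (hs1 s (hs0a.trans hs)).le
    have g2 := (hclose (s + 1) (by linarith)).trans (hs1 (s + 1) (by linarith)).le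
    rw [show s + 1 + b = s + b + 1 by ring] at g2
    exact hun _ _ _ _ (by rw [d_geo h x hu, show s + 1 - s = (1 : ℝ) by ring, abs_one]) g1 g2
  set K : ℝ := 2 * M * s0 + 2 * M * |b| with hK
  have hK0 : 0 ≤ K := by positivity
  refine ⟨max s0 (2 * K / ε + 1), ?_⟩
  intro T hT
  have hT1 : s0 ≤ T := (le_max_left _ _).trans hT
  have hT2 : 2 * K / ε + 1 ≤ T := (le_max_right _ _).trans hT
  have hT0 : 0 < T := by
    have : 0 ≤ 2 * K / ε := by positivity
    linarith
  have hTK : K < ε / 2 * T := by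
    have h1 : 2 * K / ε < T := by linarith
    rw [div_lt_iff₀ hε] at h1
    linarith
  have hmain := e4_int hF hF' hMF hMF' hs0c hcl hT1
  have e1 : avg G f T x u - avg G f T o v =
      (1 / T) * ((∫ s in (0 : ℝ)..T, F s) - ∫ s in (0 : ℝ)..T, F' s) := by
    rw [mul_sub]
    rfl
  rw [dist_zero_right, Real.norm_eq_abs, e1, abs_mul, abs_of_pos (one_div_pos.2 hT0),
    one_div, inv_mul_lt_iff₀ hT0]
  calc |(∫ s in (0 : ℝ)..T, F s) - ∫ s in (0 : ℝ)..T, F' s| ≤ ε / 2 * T + K := hmain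
    _ < ε / 2 * T + ε / 2 * T := by linarith
    _ = T * ε := by ring

theorem avg_smul (h : HG D G) {f : Pl → Pl → ℝ}
    (hi : ∀ (g : Γ) x y, f (g • x) (g • y) = f x y) (T : ℝ) (g : Γ) (x : Pl) (u : ℂ) :
    avg G f T (g • x) (G.R g x * u) = avg G f T x u := by
  unfold avg
  congr 1
  apply intervalIntegral.integral_congr
  intro s _
  have e : ∀ t : ℝ, G.E (g • x) ((t : ℂ) * (G.R g x * u)) = g • G.E x ((t : ℂ) * u) := by
    intro t
    rw [← E_smul h g x ((t : ℂ) * u)]
    congr 1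
    ring
  change f (G.E (g • x) ((s : ℂ) * (G.R g x * u)))
    (G.E (g • x) (((s + 1 : ℝ) : ℂ) * (G.R g x * u))) = _
  rw [e, e, hi]

theorem avg_cont (h : HG D G) {f : Pl → Pl → ℝ} (hf : Continuous fun q : Pl × Pl => f q.1 q.2)
    (T : ℝ) : Continuous fun q : Pl × ℂ => avg G f T q.1 q.2 := by
  have hE : ∀ k : ℝ → ℝ, Continuous k → Continuous fun p : (Pl × ℂ) × ℝ =>
      G.E p.1.1 (((k p.2 : ℝ) : ℂ) * p.1.2) := by
    intro k hk
    exact h.E_cont.comp ((continuous_fst.comp continuous_fst).prodMk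
      ((Complex.continuous_ofReal.comp (hk.comp continuous_snd)).mul
        (continuous_snd.comp continuous_fst)))
  have h1 := hE (fun s => s) continuous_id
  have h2 := hE (fun s => s + 1) (continuous_id.add continuous_const)
  have h3 : Continuous fun p : (Pl × ℂ) × ℝ =>
      f (G.E p.1.1 ((p.2 : ℂ) * p.1.2)) (G.E p.1.1 (((p.2 + 1 : ℝ) : ℂ) * p.1.2)) :=
    hf.comp (h1.prodMk h2)
  unfold avg
  apply continuous_const.mul
  exact intervalIntegral.continuous_parametric_intervalIntegral_of_continuous'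
    (f := fun (q : Pl × ℂ) (s : ℝ) =>
      f (G.E q.1 ((s : ℂ) * q.2)) (G.E q.1 (((s + 1 : ℝ) : ℂ) * q.2))) h3 0 T

end SR85
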