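import Pool.Agent.LibSR85.E3
import Pool.Agent.LibSR85.E4

/-! Row SR85 E5: the upper limit of the time averages along any sequence of times is almost
everywhere constant.

PLAN. `S c = {(x, u) | limsup_k avg G f (τ k) x u < c}` is measurable (`avg_cont`,
`Measurable.limsup`; all averages are bounded by `M` for unit vectors; outside the unit vectors
nothing is asked, so you may first replace `avg` by its truncation to `[-M, M]`,
`max (-M) (min M ..)`, which changes nothing on unit vectors by `bdd`) and `Inv`: `avg_smul`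
gives `smul`, `avg_asy` gives `asy` (the difference of the two sequences tends to `0`, so the upper
limits agree). By `zero_one` each `S c` is null or conull (in all fibres at once). Let
`c₀ = sup {c | S c null}` (`∈ [-M, M]`, `S c` is increasing in `c`, `S (-M) = ∅`, `S (M+1)` is
everything): `S (c₀ - 1/n)` is null and `S (c₀ + 1/n)` conull, so for all `x` and almost all `θ`
the upper limit is `c₀`. -/

open MeasureTheory Set Filter Topology
open scoped ContDiff ENNReal NNReal ComplexConjugate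

namespace SR85

open BGS (Pl Surface)

variable {Γ : Type} [Group Γ] [MulAction Γ Pl] {D : Set Pl} {G : Dat Γ}

theorem E5_lim_le {a b : ℕ → ℝ} {M : ℝ} (ha : ∀ k, |a k| ≤ M) (hb : ∀ k, |b k| ≤ M)
    (h : Tendsto (fun k => a k - b k) atTop (𝓝 0)) : limsup a atTop ≤ limsup b atTop := by
  apply le_of_forall_pos_le_add
  intro ε hε
  have hbb : IsBoundedUnder (· ≤ ·) atTop b :=
    isBoundedUnder_of ⟨M, fun k => (abs_le.1 (hb k)).2⟩
  have hbc : IsCoboundedUnder (· ≤ ·) atTop b :=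
    (isBoundedUnder_of ⟨-M, fun k => (abs_le.1 (hb k)).1⟩ :
      IsBoundedUnder (· ≥ ·) atTop b).isCoboundedUnder_flip
  have hac : IsCoboundedUnder (· ≤ ·) atTop a :=
    (isBoundedUnder_of ⟨-M, fun k => (abs_le.1 (ha k)).1⟩ :
      IsBoundedUnder (· ≥ ·) atTop a).isCoboundedUnder_flip
  have hbe : IsBoundedUnder (· ≤ ·) atTop (fun k => b k + ε) :=
    isBoundedUnder_of ⟨M + ε, fun k => by linarith [(abs_le.1 (hb k)).2]⟩
  rw [← limsup_add_const atTop b ε hbb hbc]
  apply limsup_le_limsup _ hac hbe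
  filter_upwards [h.eventually_lt_const hε] with k hk
  linarith

theorem E5_lim_eq {a b : ℕ → ℝ} {M : ℝ} (ha : ∀ k, |a k| ≤ M) (hb : ∀ k, |b k| ≤ M)
    (h : Tendsto (fun k => a k - b k) atTop (𝓝 0)) : limsup a atTop = limsup b atTop := by
  apply le_antisymm (E5_lim_le ha hb h)
  apply E5_lim_le hb ha
  have := h.neg
  simpa using this

theorem E5_avg_le (h : HG D G) {f : Pl → Pl → ℝ} {M : ℝ} (hM : 0 < M)
    (hb : ∀ x y, G.d x y ≤ 1 → |f x y| ≤ M) (T : ℝ) (x : Pl) {u : ℂ} (hu : ‖u‖ = 1) :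
    |avg G f T x u| ≤ M := by
  have h1 : ‖∫ s in (0 : ℝ)..T, f (G.E x ((s : ℂ) * u)) (G.E x (((s + 1 : ℝ) : ℂ) * u))‖ ≤
      M * |T - 0| := by
    apply intervalIntegral.norm_integral_le_of_norm_le_const
    intro s _
    rw [Real.norm_eq_abs]
    apply hb
    rw [d_geo h x hu]
    simp
  rw [Real.norm_eq_abs, sub_zero] at h1
  unfold avg
  rw [abs_mul, abs_div, abs_one]
  rcases eq_or_ne T 0 with rfl | hT
  · simp [hM.le]
  · have hT' : 0 < |T| := abs_pos.2 hT
    rw [one_div, inv_mul_le_iff₀ hT']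
    linarith

theorem E5_at_norm (h : HG D G) (o x : Pl) {u : ℂ} (hu : ‖u‖ = 1) : ‖At G o x u‖ = 1 := by
  obtain ⟨C, _, hC⟩ := at_lim h
  exact (hC o x u hu).2.1

theorem limsup_const (hX : Surface Γ D) (h : HG D G) {f : Pl → Pl → ℝ}
    (hf : Continuous fun q : Pl × Pl => f q.1 q.2)
    (hi : ∀ (g : Γ) x y, f (g • x) (g • y) = f x y) (τ : ℕ → ℝ) (hτ : Tendsto τ atTop atTop) :
    ∃ c : ℝ, ∀ x : Pl, ∀ᵐ θ : ℝ ∂(volume.restrict (Ioc (-Real.pi) Real.pi)),
      limsup (fun k => avg G f (τ k) x (Complex.exp ((θ : ℂ) * Complex.I))) atTop = c := by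
  classical
  obtain ⟨M, hM, hb⟩ := bdd hX h hf hi
  have hA : ∀ (x : Pl) (u : ℂ), ‖u‖ = 1 → ∀ k, |avg G f (τ k) x u| ≤ M :=
    fun x u hu k => E5_avg_le h hM hb (τ k) x hu
  set L : Pl × ℂ → ℝ := fun q => limsup (fun k => avg G f (τ k) q.1 q.2) atTop with hL
  have hLm : Measurable L := by
    apply Measurable.limsup
    intro k
    exact (avg_cont h hf (τ k)).measurable
  have hexp : ∀ θ : ℝ, ‖Complex.exp ((θ : ℂ) * Complex.I)‖ = 1 :=
    fun θ => Complex.norm_exp_ofReal_mul_I θ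
  -- bounds
  have hLle : ∀ (x : Pl) (u : ℂ), ‖u‖ = 1 → L (x, u) ≤ M := by
    intro x u hu
    have hac : IsCoboundedUnder (· ≤ ·) atTop (fun k => avg G f (τ k) x u) :=
      (isBoundedUnder_of ⟨-M, fun k => (abs_le.1 (hA x u hu k)).1⟩ :
        IsBoundedUnder (· ≥ ·) atTop (fun k => avg G f (τ k) x u)).isCoboundedUnder_flip
    exact limsup_le_of_le hac (Eventually.of_forall fun k => (abs_le.1 (hA x u hu k)).2)
  have hLge : ∀ (x : Pl) (u : ℂ), ‖u‖ = 1 → -M ≤ L (x, u) := by
    intro x u hu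
    have hab : IsBoundedUnder (· ≤ ·) atTop (fun k => avg G f (τ k) x u) :=
      isBoundedUnder_of ⟨M, fun k => (abs_le.1 (hA x u hu k)).2⟩
    exact le_limsup_of_frequently_le
      (Eventually.of_forall fun k => (abs_le.1 (hA x u hu k)).1).frequently hab
  set S : ℝ → Set (Pl × ℂ) := fun c => {q | L q < c} with hS
  have hSinv : ∀ c, Inv G (S c) := by
    intro c
    refine ⟨measurableSet_lt hLm measurable_const, ?_, ?_⟩
    · intro g x u _
      have : L (g • x, G.R g x * u) = L (x, u) := by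
        simp only [hL]
        congr 1
        funext k
        exact avg_smul h hi (τ k) g x u
      simp only [hS, mem_setOf_eq, this]
    · intro o x u hu
      have : L (x, u) = L (o, At G o x u) := by
        simp only [hL]
        have hAt : ‖At G o x u‖ = 1 := E5_at_norm h o x hu
        apply E5_lim_eq (hA x u hu) (hA o _ hAt)
        exact (avg_asy hX h hf hi o x hu).comp hτ
      simp only [hS, mem_setOf_eq, this]
  have hmono : ∀ {c c' : ℝ}, c ≤ c' → S c ⊆ S c' := fun hcc q hq => lt_of_lt_of_le hq hcc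
  have hfibmono : ∀ {A B : Set (Pl × ℂ)}, A ⊆ B → ∀ x, fib A x ⊆ fib B x :=
    fun hAB x θ hθ => ⟨hθ.1, hAB hθ.2⟩
  set C : Set ℝ := {c | ∀ x, volume (fib (S c) x) = 0} with hC
  have hCne : (-M) ∈ C := by
    intro x
    have : fib (S (-M)) x = ∅ := by
      ext θ
      simp only [fib, mem_setOf_eq, mem_empty_iff_false, iff_false, not_and]
      intro _ hq
      have := hLge x _ (hexp θ)
      simp only [hS, mem_setOf_eq] at hq
      linarith
    rw [this]
    exact measure_empty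
  have hCbd : BddAbove C := by
    refine ⟨M, fun c hc => ?_⟩
    by_contra hcM
    push Not at hcM
    have h0 := hc (0, 0)
    have : fib (S c) (0, 0) = Ioc (-Real.pi) Real.pi := by
      ext θ
      simp only [fib, mem_setOf_eq, hS, and_iff_left_iff_imp]
      intro _
      exact lt_of_le_of_lt (hLle (0, 0) _ (hexp θ)) hcM
    rw [this, Real.volume_Ioc] at h0
    have hpi := Real.pi_pos
    have : (0 : ℝ≥0∞) < ENNReal.ofReal (Real.pi - -Real.pi) := by
      rw [ENNReal.ofReal_pos]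
      linarith
    exact this.ne' h0
  set c₀ := sSup C with hc₀
  refine ⟨c₀, fun x => ?_⟩
  have hlow : ∀ n : ℕ, volume (fib (S (c₀ - 1 / ((n : ℝ) + 1))) x) = 0 := by
    intro n
    have hlt : c₀ - 1 / ((n : ℝ) + 1) < c₀ := by
      have : (0 : ℝ) < 1 / ((n : ℝ) + 1) := by positivity
      linarith
    obtain ⟨c, hcC, hc⟩ := exists_lt_of_lt_csSup ⟨-M, hCne⟩ hlt
    exact measure_mono_null (hfibmono (hmono hc.le) x) (hcC x)
  have hupp : ∀ n : ℕ, volume (fib (S (c₀ + 1 / ((n : ℝ) + 1)))ᶜ x) = 0 := by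
    intro n
    have hgt : c₀ < c₀ + 1 / ((n : ℝ) + 1) := by
      have : (0 : ℝ) < 1 / ((n : ℝ) + 1) := by positivity
      linarith
    rcases zero_one hX h (hSinv (c₀ + 1 / ((n : ℝ) + 1))) with h0 | h1
    · exact absurd (le_csSup hCbd (show c₀ + 1 / ((n : ℝ) + 1) ∈ C from h0)) (not_le.2 hgt)
    · exact h1 x
  rw [ae_restrict_iff' measurableSet_Ioc]
  have e1 : ∀ᵐ θ : ℝ, ∀ n : ℕ, θ ∉ fib (S (c₀ - 1 / ((n : ℝ) + 1))) x :=
    ae_all_iff.2 fun n => measure_eq_zero_iff_ae_notMem.1 (hlow n)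
  have e2 : ∀ᵐ θ : ℝ, ∀ n : ℕ, θ ∉ fib (S (c₀ + 1 / ((n : ℝ) + 1)))ᶜ x :=
    ae_all_iff.2 fun n => measure_eq_zero_iff_ae_notMem.1 (hupp n)
  filter_upwards [e1, e2] with θ h1 h2 hθ
  change L (x, Complex.exp ((θ : ℂ) * Complex.I)) = c₀
  have hto : Tendsto (fun n : ℕ => 1 / ((n : ℝ) + 1)) atTop (𝓝 0) :=
    tendsto_one_div_add_atTop_nhds_zero_nat
  apply le_antisymm
  · have hle : ∀ n : ℕ, L (x, Complex.exp ((θ : ℂ) * Complex.I)) ≤ c₀ + 1 / ((n : ℝ) + 1) := by
      intro n
      by_contra hn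
      push Not at hn
      exact h2 n ⟨hθ, by simp only [hS, mem_compl_iff, mem_setOf_eq, not_lt]; exact hn.le⟩
    have := hto.const_add c₀
    rw [add_zero] at this
    exact ge_of_tendsto' this hle
  · have hge : ∀ n : ℕ, c₀ - 1 / ((n : ℝ) + 1) ≤ L (x, Complex.exp ((θ : ℂ) * Complex.I)) := by
      intro n
      by_contra hn
      push Not at hn
      exact h1 n ⟨hθ, hn⟩
    have := hto.const_sub c₀
    rw [sub_zero] at this
    exact le_of_tendsto' this hge

end SR85
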