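import Pool.Agent.LibSR85.P5
import Pool.Agent.LibSR85.P6
import Pool.Agent.LibSR85.L2

/-! Row SR85 M1: the Liouville measure `muS` on `Pl × ℂ` (carried by the unit vectors) and the
geodesic flow `phi`.

PLAN. `muS_lint`: `lintegral_map`, `lintegral_prod`, `lintegral_withDensity_eq_lintegral_mul`.
`muS_smul`: by `muS_lint`, for each `x` `circ_rot` with `w = R g x`, then `rho_inv` for
`x ↦ ∫⁻ θ, F (x, e^{iθ})`. `muS_fin`: `N` compact, `rho` bounded on it. `muS_unit`.
`phi_cont`: `E_cont`, `V_cont`. `phi_smul`: `E_smul`, `dr_smul`. -/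

open MeasureTheory Set Filter Topology
open scoped ContDiff ENNReal NNReal ComplexConjugate

namespace SR85

open BGS (Pl Surface)

variable {Γ : Type} [Group Γ] [MulAction Γ Pl] {D : Set Pl} {G : Dat Γ}

/-- The Liouville measure on the unit tangent bundle of the plane. -/
noncomputable def muS (G : Dat Γ) : Measure (Pl × ℂ) :=
  (((volume : Measure Pl).withDensity fun z => ENNReal.ofReal (G.rho z)).prod
    ((volume : Measure ℝ).restrict (Ioc (-Real.pi) Real.pi))).map
    fun q : Pl × ℝ => (q.1, Complex.exp ((q.2 : ℂ) * Complex.I))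

/-- The geodesic flow. -/
noncomputable def phi (G : Dat Γ) (t : ℝ) (p : Pl × ℂ) : Pl × ℂ :=
  (G.E p.1 ((t : ℂ) * p.2), G.dr p.1 p.2 t)

/-- The action of the group on tangent vectors. -/
def act (G : Dat Γ) (g : Γ) (p : Pl × ℂ) : Pl × ℂ := (g • p.1, G.R g p.1 * p.2)

theorem muS_lint (h : HG D G) {F : Pl × ℂ → ℝ≥0∞} (hF : Measurable F) :
    ∫⁻ p, F p ∂(muS G) = ∫⁻ x, (∫⁻ θ in Ioc (-Real.pi) Real.pi,
      F (x, Complex.exp ((θ : ℂ) * Complex.I))) * ENNReal.ofReal (G.rho x) := by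
  have hm : Measurable fun q : Pl × ℝ => (q.1, Complex.exp ((q.2 : ℂ) * Complex.I)) := by fun_prop
  have hρ : Measurable fun z => ENNReal.ofReal (G.rho z) := h.rho_cont.measurable.ennreal_ofReal
  have hFm : Measurable fun q : Pl × ℝ => F (q.1, Complex.exp ((q.2 : ℂ) * Complex.I)) := hF.comp hm
  unfold muS
  rw [lintegral_map hF hm, lintegral_prod _ hFm.aemeasurable,
    lintegral_withDensity_eq_lintegral_mul _ hρ hFm.lintegral_prod_right']
  refine lintegral_congr fun x => ?_
  rw [Pi.mul_apply, mul_comm]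

theorem act_meas (hX : Surface Γ D) (h : HG D G) (g : Γ) : Measurable (act G g) := by
  have hg : Continuous fun z : Pl => g • z := (hX.smooth g).continuous
  have hR := R_cont hX h g
  exact ((hg.comp continuous_fst).prodMk ((hR.comp continuous_fst).mul continuous_snd)).measurable

theorem muS_smul (hX : Surface Γ D) (h : HG D G) (g : Γ) {F : Pl × ℂ → ℝ≥0∞} (hF : Measurable F) :
    ∫⁻ p, F (act G g p) ∂(muS G) = ∫⁻ p, F p ∂(muS G) := by
  have hFa : Measurable fun p => F (act G g p) := hF.comp (act_meas hX h g)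
  have hm : Measurable fun q : Pl × ℝ => F (q.1, Complex.exp ((q.2 : ℂ) * Complex.I)) :=
    hF.comp (by fun_prop)
  rw [muS_lint h hFa, muS_lint h hF]
  have h1 : ∀ x : Pl, ∫⁻ θ in Ioc (-Real.pi) Real.pi,
      F (act G g (x, Complex.exp ((θ : ℂ) * Complex.I))) =
      ∫⁻ θ in Ioc (-Real.pi) Real.pi, F (g • x, Complex.exp ((θ : ℂ) * Complex.I)) := by
    intro x
    exact circ_rot (fun v => F (g • x, v)) (h.R_norm g x)
  simp_rw [h1]
  exact h.rho_inv g (fun x => ∫⁻ θ in Ioc (-Real.pi) Real.pi, F (x, Complex.exp ((θ : ℂ) * Complex.I)))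
    hm.lintegral_prod_right'

theorem muS_unit (G : Dat Γ) : ∀ᵐ p ∂(muS G), ‖p.2‖ = 1 := by
  have hm : Measurable fun q : Pl × ℝ => (q.1, Complex.exp ((q.2 : ℂ) * Complex.I)) := by fun_prop
  have hs : MeasurableSet {p : Pl × ℂ | ‖p.2‖ = 1} := by
    exact measurableSet_eq_fun (by fun_prop) measurable_const
  unfold muS
  rw [ae_map_iff hm.aemeasurable hs]
  refine Filter.Eventually.of_forall fun q => ?_
  exact Complex.norm_exp_ofReal_mul_I q.2

private theorem M1_prod (h : HG D G) {N : Set Pl} (hN : MeasurableSet N) :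
    muS G (N ×ˢ univ) = (∫⁻ z in N, ENNReal.ofReal (G.rho z)) * ENNReal.ofReal (2 * Real.pi) := by
  have hm : Measurable fun q : Pl × ℝ => (q.1, Complex.exp ((q.2 : ℂ) * Complex.I)) := by fun_prop
  have hpre : (fun q : Pl × ℝ => (q.1, Complex.exp ((q.2 : ℂ) * Complex.I))) ⁻¹' (N ×ˢ univ) =
      N ×ˢ univ := by
    ext q
    simp
  unfold muS
  rw [Measure.map_apply hm (hN.prod MeasurableSet.univ), hpre, Measure.prod_prod,
    withDensity_apply _ hN, Measure.restrict_apply_univ, Real.volume_Ioc]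
  congr 2
  ring

theorem muS_fin (h : HG D G) {N : Set Pl} (hN : IsCompact N) : muS G (N ×ˢ univ) < ⊤ := by
  rw [M1_prod h hN.measurableSet]
  refine ENNReal.mul_lt_top ?_ ENNReal.ofReal_lt_top
  exact (h.rho_cont.continuousOn.integrableOn_compact hN).lintegral_lt_top

theorem muS_D (hX : Surface Γ D) (h : HG D G) :
    muS G (D ×ˢ univ) = ENNReal.ofReal (2 * Real.pi) := by
  rw [M1_prod h hX.meas]
  have hi : IntegrableOn G.rho D volume :=
    (h.rho_cont.continuousOn.integrableOn_compact hX.bdd.isCompact_closure).mono_set subset_closure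
  rw [← ofReal_integral_eq_lintegral_ofReal hi (Filter.Eventually.of_forall fun z => (h.rho_pos z).le),
    h.rho_int, ENNReal.ofReal_one, one_mul]

theorem phi_cont (h : HG D G) : Continuous fun q : ℝ × (Pl × ℂ) => phi G q.1 q.2 := by
  have h1 : Continuous fun q : ℝ × (Pl × ℂ) => G.E q.2.1 ((q.1 : ℂ) * q.2.2) :=
    h.E_cont.comp ((continuous_fst.comp continuous_snd).prodMk
      ((Complex.continuous_ofReal.comp continuous_fst).mul (continuous_snd.comp continuous_snd)))
  have h2 : Continuous fun q : ℝ × (Pl × ℂ) => G.E q.2.1 (((q.1 + 1 : ℝ) : ℂ) * q.2.2) :=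
    h.E_cont.comp ((continuous_fst.comp continuous_snd).prodMk
      ((Complex.continuous_ofReal.comp (continuous_fst.add continuous_const)).mul
        (continuous_snd.comp continuous_snd)))
  exact h1.prodMk (h.V_cont.comp (h1.prodMk h2))

theorem phi_smul (h : HG D G) (g : Γ) (t : ℝ) (p : Pl × ℂ) :
    phi G t (act G g p) = act G g (phi G t p) := by
  refine Prod.ext ?_ ?_
  · show G.E (g • p.1) ((t : ℂ) * (G.R g p.1 * p.2)) = g • G.E p.1 ((t : ℂ) * p.2)
    rw [mul_left_comm, E_smul h]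
  · show G.dr (g • p.1) (G.R g p.1 * p.2) t = G.R g (G.E p.1 ((t : ℂ) * p.2)) * G.dr p.1 p.2 t
    rw [dr_smul h]

theorem phi_add (h : HG D G) (s t : ℝ) {p : Pl × ℂ} (hp : ‖p.2‖ = 1) :
    phi G s (phi G t p) = phi G (t + s) p := by
  refine Prod.ext ?_ ?_
  · show G.E (G.E p.1 ((t : ℂ) * p.2)) ((s : ℂ) * G.dr p.1 p.2 t) =
      G.E p.1 (((t + s : ℝ) : ℂ) * p.2)
    exact h.flow p.1 p.2 hp t s
  · show G.dr (G.E p.1 ((t : ℂ) * p.2)) (G.dr p.1 p.2 t) s = G.dr p.1 p.2 (t + s)
    exact dr_add h p.1 hp t s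

theorem act_mul (h : HG D G) (g g' : Γ) (p : Pl × ℂ) : act G g (act G g' p) = act G (g * g') p := by
  refine Prod.ext ?_ ?_
  · show g • g' • p.1 = (g * g') • p.1
    rw [mul_smul]
  · show G.R g (g' • p.1) * (G.R g' p.1 * p.2) = G.R (g * g') p.1 * p.2
    rw [R_mul h, mul_assoc]

private theorem M1_act_one (h : HG D G) (p : Pl × ℂ) : act G (1 : Γ) p = p := by
  have h1 : G.R 1 p.1 = 1 := by
    have h2 := R_mul h (1 : Γ) 1 p.1
    rw [one_mul, one_smul] at h2
    have h3 : G.R (1 : Γ) p.1 ≠ 0 := by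
      intro h0
      have h4 := h.R_norm (1 : Γ) p.1
      rw [h0, norm_zero] at h4
      exact zero_ne_one h4
    have h5 : G.R (1 : Γ) p.1 * 1 = G.R (1 : Γ) p.1 * G.R (1 : Γ) p.1 := by rw [mul_one]; exact h2
    exact (mul_left_cancel₀ h3 h5).symm
  refine Prod.ext ?_ ?_
  · show (1 : Γ) • p.1 = p.1
    rw [one_smul]
  · show G.R 1 p.1 * p.2 = p.2
    rw [h1, one_mul]

private theorem M1_countable (hX : Surface Γ D) : Countable Γ := by
  have h1 : (univ : Set Γ) ⊆ ⋃ n : ℕ, {γ : Γ | ∃ z ∈ Metric.closedBall (0 : Pl) n,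
      γ • z ∈ Metric.closedBall (0 : Pl) n} := by
    intro γ _
    obtain ⟨n, hn⟩ := exists_nat_ge ‖γ • (0 : Pl)‖
    refine mem_iUnion.2 ⟨n, 0, Metric.mem_closedBall_self (Nat.cast_nonneg n), ?_⟩
    exact mem_closedBall_zero_iff.2 hn
  have h2 : (univ : Set Γ).Countable := by
    refine Set.Countable.mono h1 (countable_iUnion fun n => ?_)
    exact (hX.proper _ (isCompact_closedBall _ _)).countable
  exact countable_univ_iff.1 h2

/-- Unfolding: an invariant function against a function of the base point. -/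
theorem unfoldS (hX : Surface Γ D) (h : HG D G) {F H : Pl × ℂ → ℝ≥0∞} (hF : Measurable F)
    (hH : Measurable H) (hi : ∀ (g : Γ) (p : Pl × ℂ), H (act G g p) = H p) :
    ∫⁻ p, F p * H p ∂(muS G) =
      ∫⁻ p in D ×ˢ univ, (∑' g : Γ, F (act G g p)) * H p ∂(muS G) := by
  have hc : Countable Γ := M1_countable hX
  have hDm : MeasurableSet (D ×ˢ (univ : Set ℂ)) := hX.meas.prod MeasurableSet.univ
  set A : Γ → Set (Pl × ℂ) := fun g => {p | g • p.1 ∈ D} with hA
  have hAm : ∀ g, MeasurableSet (A g) := by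
    intro g
    have hg : Measurable fun p : Pl × ℂ => g • p.1 :=
      ((hX.smooth g).continuous.comp continuous_fst).measurable
    exact hg hX.meas
  have hAd : Pairwise (Function.onFun Disjoint A) := by
    intro g g' hne
    rw [Function.onFun, Set.disjoint_left]
    intro p hp hp'
    exact hne ((hX.orbit p.1).unique hp hp')
  have hAu : (⋃ g, A g) = univ := by
    rw [eq_univ_iff_forall]
    intro p
    obtain ⟨g, hg, -⟩ := hX.orbit p.1
    exact mem_iUnion.2 ⟨g, hg⟩
  have h1 : ∫⁻ p, F p * H p ∂(muS G) = ∑' g : Γ, ∫⁻ p in A g, F p * H p ∂(muS G) := by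
    rw [← lintegral_iUnion hAm hAd, hAu, Measure.restrict_univ]
  have h2 : ∀ g : Γ, ∫⁻ p in A g, F p * H p ∂(muS G) =
      ∫⁻ p in D ×ˢ univ, F (act G g⁻¹ p) * H p ∂(muS G) := by
    intro g
    rw [← lintegral_indicator (hAm g), ← lintegral_indicator hDm]
    have h3 : (A g).indicator (fun p => F p * H p) = fun p =>
        (D ×ˢ (univ : Set ℂ)).indicator (fun p => F (act G g⁻¹ p) * H p) (act G g p) := by
      funext p
      by_cases hp : g • p.1 ∈ D
      · have hp1 : p ∈ A g := hp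
        have hp2 : act G g p ∈ D ×ˢ (univ : Set ℂ) := ⟨hp, mem_univ _⟩
        rw [indicator_of_mem hp1, indicator_of_mem hp2, act_mul h, inv_mul_cancel, M1_act_one h, hi]
      · have hp1 : p ∉ A g := hp
        have hp2 : act G g p ∉ D ×ˢ (univ : Set ℂ) := fun hh => hp hh.1
        rw [indicator_of_notMem hp1, indicator_of_notMem hp2]
    rw [h3]
    exact muS_smul hX h g (Measurable.indicator ((hF.comp (act_meas hX h g⁻¹)).mul hH) hDm)
  rw [h1]
  simp_rw [h2]
  have h4 : ∀ g : Γ, AEMeasurable (fun p => F (act G g⁻¹ p) * H p)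
      ((muS G).restrict (D ×ˢ univ)) := fun g =>
    ((hF.comp (act_meas hX h g⁻¹)).mul hH).aemeasurable
  rw [← lintegral_tsum h4]
  refine lintegral_congr fun p => ?_
  rw [ENNReal.tsum_mul_right]
  congr 1
  exact (Equiv.inv Γ).tsum_eq (fun g => F (act G g p))

end SR85
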