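import Pool.Agent.LibSR85.M9

/-! Row SR85 M10: comparison of loops `x → g x` and of the kernel with `x' ≠ x`.

`al G g x = u' * conj u`, where `u = di x (g x)` is the starting direction of the loop and
`u' = -di x (g⁻¹ x)` its final direction, moved back to `x`; `e^{i α}` with `α` the angle defect.

PLAN. Let `N` be a compact set that contains the unit neighbourhood of `tsupport ψ`,
`F` = the set of `g` with `d x (g x) ≤ 8` for some `x ∈ N` (finite, `fin_return`). Let `g ∉ F`,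
`x ∈ tsupport ψ`, `‖x' - x‖ ≤ η`. With `z = -di x' (g⁻¹ x) * conj (di x (g x'))`:
`‖z - al G g x‖ ≤ ‖di x' (g⁻¹ x) - di x (g⁻¹ x)‖ + ‖di x (g x') - di x (g x)‖ ≤ C η` (`di_near`
with `y = g⁻¹ x`, `d x (g⁻¹ x) = d (g x) x ≥ 8`; `di_far` with `d (g x) (g x') = d x x' ≤ C η`), so
`|κ z - κ (al G g x)| ≤ ε` for `η` small (uniform continuity of `κ` on the closed unit disc of
radius two); `|log J x (g x') - log J x (g x)| ≤ C d x x' ≤ ε` (`distort1`); `|d x (g x') - d x (g x)| ≤ d x x' ≤ 1`. As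
`∫ x', χ (η⁻¹ (x' - x)) / η² dx' = 1`, `lg` is the double integral of
`1[d x (g x) ≤ T] ψ x (χ../η²) κ (al) / J x (g x) rho x` and both inequalities hold pointwise
(the factor `1 / rho x'` in `KK` cancels `rho x'` in `wg`). -/

open MeasureTheory Set Filter Topology
open scoped ContDiff ENNReal NNReal ComplexConjugate

namespace SR85

open BGS (Pl Surface)

variable {Γ : Type} [Group Γ] [MulAction Γ Pl] {D : Set Pl} {G : Dat Γ}

/-- The angle defect of the loop from `x` to `g x`, as a unit complex number. -/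
noncomputable def al (G : Dat Γ) (g : Γ) (x : Pl) : ℂ :=
  -G.di x (g⁻¹ • x) * conj (G.di x (g • x))

/-- The loop integral of the element `g`. -/
noncomputable def lg (G : Dat Γ) (κ : ℂ → ℝ) (ψ : Pl → ℝ) (T : ℝ) (g : Γ) : ℝ≥0∞ :=
  ∫⁻ x, (if G.d x (g • x) ≤ T then
      ENNReal.ofReal (ψ x * κ (al G g x) / G.J x (g • x)) else 0) * ENNReal.ofReal (G.rho x)

private theorem M10_un (v : ℂ) : ‖un v‖ ≤ 1 := by
  unfold un
  rw [norm_div, Complex.norm_real, norm_norm]
  exact div_self_le_one _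

private theorem M10_di (G : Dat Γ) (x y : Pl) : ‖G.di x y‖ ≤ 1 := M10_un _

private theorem M10_prod (G : Dat Γ) (x y x' y' : Pl) :
    ‖-G.di x y * conj (G.di x' y')‖ ≤ 1 := by
  rw [norm_mul, norm_neg, RCLike.norm_conj]
  exact mul_le_one₀ (M10_di G x y) (norm_nonneg _) (M10_di G x' y')

private theorem M10_diff (a b c d : ℂ) (ha : ‖c‖ ≤ 1) (hd : ‖b‖ ≤ 1) :
    ‖-a * conj b - -c * conj d‖ ≤ ‖a - c‖ + ‖b - d‖ := by
  have h1 : -a * conj b - -c * conj d = -((a - c) * conj b) - c * conj (b - d) := by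
    rw [map_sub]
    ring
  rw [h1]
  refine (norm_sub_le _ _).trans ?_
  rw [norm_neg, norm_mul, norm_mul, RCLike.norm_conj, RCLike.norm_conj]
  refine add_le_add ?_ ?_
  · exact mul_le_of_le_one_right (norm_nonneg _) hd
  · exact mul_le_of_le_one_left (norm_nonneg _) ha

private theorem M10_bump {χ : Pl → ℝ} (hχ : Bump χ) {η : ℝ} (hη : 0 < η) (x : Pl) :
    ∫⁻ x' : Pl, ENNReal.ofReal (χ (η⁻¹ • (x' - x)) / η ^ 2) = 1 := by
  have h1 : ∫ x' : Pl, χ (η⁻¹ • (x' - x)) / η ^ 2 = 1 := by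
    rw [integral_div]
    have h2 : ∫ x' : Pl, χ (η⁻¹ • (x' - x)) = ∫ y : Pl, χ (η⁻¹ • y) :=
      integral_sub_right_eq_self (fun y : Pl => χ (η⁻¹ • y)) x
    rw [h2, Measure.integral_comp_inv_smul_of_nonneg volume χ hη.le, hχ.int]
    have h3 : Module.finrank ℝ Pl = 2 := by simp [Pl]
    rw [h3, smul_eq_mul, mul_one]
    exact div_self (pow_ne_zero 2 hη.ne')
  have hint : Integrable (fun x' : Pl => χ (η⁻¹ • (x' - x)) / η ^ 2) := by
    by_contra hcon
    rw [integral_undef hcon] at h1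
    exact zero_ne_one h1
  rw [← ofReal_integral_eq_lintegral_ofReal hint
    (Eventually.of_forall fun x' => div_nonneg (hχ.nonneg _) (sq_nonneg η)), h1, ENNReal.ofReal_one]

private theorem M10_near {χ : Pl → ℝ} (hχ : Bump χ) {η : ℝ} (hη : 0 < η) {x x' : Pl}
    (h : χ (η⁻¹ • (x' - x)) ≠ 0) : ‖x' - x‖ ≤ η := by
  by_contra hcon
  push Not at hcon
  apply h
  refine hχ.supp _ ?_
  rw [norm_smul, norm_inv, Real.norm_of_nonneg hη.le, ← div_eq_inv_mul, one_le_div hη]
  exact hcon.le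

/-- the pointwise estimates -/
private theorem M10_key (hX : Surface Γ D) (h : HG D G) {κ : ℂ → ℝ} (hκ : Continuous κ)
    {N : Set Pl} (hN : IsCompact N) {ε : ℝ} (hε : 0 < ε) :
    ∃ F : Set Γ, F.Finite ∧ ∃ η : ℝ, 0 < η ∧ ∀ g ∉ F, ∀ x ∈ N, ∀ x' : Pl, ‖x' - x‖ ≤ η →
      |κ (-G.di x' (g⁻¹ • x) * conj (G.di x (g • x'))) - κ (al G g x)| ≤ ε ∧
      0 < G.J x (g • x) ∧ 0 < G.J x (g • x') ∧
      G.J x (g • x') ≤ Real.exp ε * G.J x (g • x) ∧
      G.J x (g • x) ≤ Real.exp ε * G.J x (g • x') ∧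
      G.d x (g • x') ≤ G.d x (g • x) + 1 ∧ G.d x (g • x) ≤ G.d x (g • x') + 1 := by
  obtain ⟨C1, η₀, hC1, hη₀, hnear⟩ := di_near h hN
  obtain ⟨C2, hC2, hfar⟩ := di_far h
  obtain ⟨C3, hC3, hdist⟩ := distort1 h
  have huc := (isCompact_closedBall (0 : ℂ) 1).uniformContinuousOn_of_continuous hκ.continuousOn
  rw [Metric.uniformContinuousOn_iff] at huc
  obtain ⟨δ, hδ, huc⟩ := huc ε hε
  refine ⟨_, fin_return hX h hN 8, min η₀ (min (δ / (2 * (C1 + C2 * C1))) (ε / (C3 * C1))),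
    by positivity, ?_⟩
  intro g hg x hx x' hxx'
  have hxx1 : ‖x' - x‖ ≤ η₀ := hxx'.trans (min_le_left _ _)
  have hxx2 : ‖x' - x‖ ≤ δ / (2 * (C1 + C2 * C1)) :=
    hxx'.trans ((min_le_right _ _).trans (min_le_left _ _))
  have hxx3 : ‖x' - x‖ ≤ ε / (C3 * C1) :=
    hxx'.trans ((min_le_right _ _).trans (min_le_right _ _))
  have h8 : 8 < G.d x (g • x) := by
    by_contra hcon
    push Not at hcon
    exact hg ⟨x, hx, x, hx, hcon⟩
  have h8' : G.d x (g⁻¹ • x) = G.d x (g • x) := by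
    have h1 := d_smul h g x (g⁻¹ • x)
    rw [smul_inv_smul] at h1
    rw [← h1, h.d_symm]
  obtain ⟨hn1, hn2, hn3⟩ := hnear x hx x' (g⁻¹ • x) hxx1 (by rw [h8']; linarith)
  have hdd : G.d (g • x) (g • x') = G.d x x' := d_smul h g x x'
  have hf1 := hfar x (g • x) (g • x') (by rw [hdd]; exact hn3) (by linarith)
  obtain ⟨hj1, _⟩ := hdist x (g • x) (g • x') (by rw [hdd]; exact hn3) (by linarith)
  have ht1 := h.d_tri x (g • x) (g • x')
  have ht2 := h.d_tri x (g • x') (g • x)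
  rw [h.d_symm (g • x') (g • x)] at ht2
  rw [hdd] at ht1 ht2 hj1 hf1
  have hne : x ≠ g • x := by
    intro hcon
    rw [← hcon, d_self h] at h8
    linarith
  have hne' : x ≠ g • x' := by
    intro hcon
    rw [← hcon, d_self h] at ht2
    linarith
  have hJ := J_pos h hne
  have hJ' := J_pos h hne'
  have hd0 : 0 ≤ G.d x x' := norm_nonneg _
  have hn0 : 0 ≤ ‖x' - x‖ := norm_nonneg _
  have hlog : C3 * G.d x x' ≤ ε := by
    have h1 : C3 * G.d x x' ≤ C3 * (C1 * ‖x' - x‖) := mul_le_mul_of_nonneg_left hn2 hC3.le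
    have h2 : (C3 * C1) * ‖x' - x‖ ≤ (C3 * C1) * (ε / (C3 * C1)) :=
      mul_le_mul_of_nonneg_left hxx3 (by positivity)
    rw [mul_div_cancel₀ _ (by positivity)] at h2
    linarith
  rw [abs_le] at hj1
  refine ⟨?_, hJ, hJ', ?_, ?_, by linarith, by linarith⟩
  · have h1 : ‖-G.di x' (g⁻¹ • x) * conj (G.di x (g • x')) - al G g x‖ < δ := by
      unfold al
      refine (M10_diff _ _ _ _ (M10_di G _ _) (M10_di G _ _)).trans_lt ?_
      rw [norm_sub_rev] at hn1 hf1
      have h2 : C2 * G.d x x' * Real.exp (-(G.a * G.d x (g • x))) ≤ C2 * (C1 * ‖x' - x‖) := by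
        have h3 : Real.exp (-(G.a * G.d x (g • x))) ≤ 1 := by
          rw [Real.exp_le_one_iff, neg_nonpos]
          exact mul_nonneg h.a_pos.le (norm_nonneg _)
        calc C2 * G.d x x' * Real.exp (-(G.a * G.d x (g • x))) ≤ C2 * G.d x x' * 1 :=
              mul_le_mul_of_nonneg_left h3 (by positivity)
          _ = C2 * G.d x x' := mul_one _
          _ ≤ C2 * (C1 * ‖x' - x‖) := mul_le_mul_of_nonneg_left hn2 hC2.le
      have h4 : (C1 + C2 * C1) * ‖x' - x‖ ≤ δ / 2 := by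
        have h5 : (C1 + C2 * C1) * ‖x' - x‖ ≤ (C1 + C2 * C1) * (δ / (2 * (C1 + C2 * C1))) :=
          mul_le_mul_of_nonneg_left hxx2 (by positivity)
        have h6 : (C1 + C2 * C1) * (δ / (2 * (C1 + C2 * C1))) = δ / 2 := by
          have : C1 + C2 * C1 ≠ 0 := by positivity
          field_simp
        linarith
      linarith
    have h2 := huc (-G.di x' (g⁻¹ • x) * conj (G.di x (g • x')))
      (mem_closedBall_zero_iff.2 (M10_prod G _ _ _ _)) (al G g x)
      (mem_closedBall_zero_iff.2 (M10_prod G _ _ _ _)) (by rw [dist_eq_norm]; exact h1)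
    rw [Real.dist_eq] at h2
    exact h2.le
  · have h1 : Real.log (G.J x (g • x')) ≤ ε + Real.log (G.J x (g • x)) := by linarith
    have h2 := Real.exp_le_exp.2 h1
    rw [Real.exp_log hJ', Real.exp_add, Real.exp_log hJ] at h2
    exact h2
  · have h1 : Real.log (G.J x (g • x)) ≤ ε + Real.log (G.J x (g • x')) := by linarith
    have h2 := Real.exp_le_exp.2 h1
    rw [Real.exp_log hJ, Real.exp_add, Real.exp_log hJ'] at h2
    exact h2

theorem loop_cmp (hX : Surface Γ D) (h : HG D G) {κ : ℂ → ℝ} (hκ : Continuous κ)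
    (hκ0 : ∀ z, 0 ≤ κ z) {ψ χ : Pl → ℝ} (hψ : Continuous ψ) (hψ0 : ∀ x, 0 ≤ ψ x)
    (hψc : HasCompactSupport ψ) (hχ : Bump χ) {ε : ℝ} (hε : 0 < ε) :
    ∃ F : Set Γ, F.Finite ∧ ∃ η : ℝ, 0 < η ∧ ∀ g ∉ F, ∀ T : ℝ,
      lg G κ ψ T g ≤ ENNReal.ofReal (Real.exp ε) *
        wg G (KK G (fun z => κ z + ε) ψ χ η) (T + 1) g ∧
      wg G (KK G (fun z => max (κ z - ε) 0) ψ χ η) (T - 1) g ≤
        ENNReal.ofReal (Real.exp ε) * lg G κ ψ T g := by
  obtain ⟨F, hF, η, hη, hkey⟩ := M10_key hX h hκ hψc.isCompact hε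
  refine ⟨F, hF, η, hη, fun g hg T => ⟨?_, ?_⟩⟩
  · unfold lg wg
    rw [← lintegral_const_mul' _ _ ENNReal.ofReal_ne_top]
    refine lintegral_mono fun x => ?_
    rw [← mul_assoc]
    refine mul_le_mul' ?_ le_rfl
    rw [← lintegral_const_mul' _ _ ENNReal.ofReal_ne_top]
    by_cases hd : G.d x (g • x) ≤ T
    · rw [if_pos hd]
      rw [← one_mul (ENNReal.ofReal (ψ x * κ (al G g x) / G.J x (g • x))),
        ← M10_bump hχ hη x, ← lintegral_mul_const' _ _ ENNReal.ofReal_ne_top]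
      refine lintegral_mono fun x' => ?_
      by_cases hψx : ψ x = 0
      · simp [hψx]
      by_cases hχx : χ (η⁻¹ • (x' - x)) = 0
      · simp [hχx]
      have hx : x ∈ tsupport ψ := subset_tsupport _ hψx
      obtain ⟨hk, hJ, hJ', hJ1, hJ2, hd1, hd2⟩ := hkey g hg x hx x' (M10_near hχ hη hχx)
      rw [if_pos (by linarith)]
      have hr := h.rho_pos x'
      have hχ0 : 0 ≤ χ (η⁻¹ • (x' - x)) / η ^ 2 := div_nonneg (hχ.nonneg _) (sq_nonneg η)
      have hK0 : 0 ≤ κ (-G.di x' (g⁻¹ • x) * conj (G.di x (g • x'))) + ε :=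
        add_nonneg (hκ0 _) hε.le
      rw [← ENNReal.ofReal_mul hχ0, ← ENNReal.ofReal_mul, ← ENNReal.ofReal_mul (Real.exp_pos ε).le]
      · refine ENNReal.ofReal_le_ofReal ?_
        unfold KK
        simp only
        have e1 : Real.exp ε * (ψ x * (χ (η⁻¹ • (x' - x)) / η ^ 2) / G.rho x' *
            (κ (-G.di x' (g⁻¹ • x) * conj (G.di x (g • x'))) + ε) / G.J x (g • x') * G.rho x') =
            (χ (η⁻¹ • (x' - x)) / η ^ 2) * (ψ x *
              (κ (-G.di x' (g⁻¹ • x) * conj (G.di x (g • x'))) + ε) *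
              (Real.exp ε / G.J x (g • x'))) := by
          field_simp
        rw [e1]
        refine mul_le_mul_of_nonneg_left ?_ hχ0
        rw [div_eq_mul_inv (ψ x * κ (al G g x))]
        rw [abs_le] at hk
        refine mul_le_mul (mul_le_mul_of_nonneg_left (by linarith) (hψ0 x)) ?_
          (inv_nonneg.2 hJ.le) (mul_nonneg (hψ0 x) hK0)
        rw [inv_eq_one_div, div_le_div_iff₀ hJ hJ', one_mul]
        exact hJ1
      · unfold KK
        simp only
        refine div_nonneg (mul_nonneg (div_nonneg (mul_nonneg (hψ0 x) hχ0) hr.le) hK0) hJ'.le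
    · rw [if_neg hd]
      exact bot_le
  · unfold lg wg
    rw [← lintegral_const_mul' _ _ ENNReal.ofReal_ne_top]
    refine lintegral_mono fun x => ?_
    rw [← mul_assoc]
    refine mul_le_mul' ?_ le_rfl
    have hstep : ∀ x' : Pl, (if G.d x (g • x') ≤ T - 1 then
        ENNReal.ofReal (KK G (fun z => max (κ z - ε) 0) ψ χ η (x, G.di x (g • x'))
          (x', -G.di x' (g⁻¹ • x)) / G.J x (g • x')) else 0) * ENNReal.ofReal (G.rho x') ≤
        ENNReal.ofReal (χ (η⁻¹ • (x' - x)) / η ^ 2) * (ENNReal.ofReal (Real.exp ε) *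
          (if G.d x (g • x) ≤ T then
            ENNReal.ofReal (ψ x * κ (al G g x) / G.J x (g • x)) else 0)) := by
      intro x'
      by_cases hd : G.d x (g • x') ≤ T - 1
      swap
      · rw [if_neg hd, zero_mul]
        exact bot_le
      rw [if_pos hd]
      by_cases hψx : ψ x = 0
      · simp [hψx, KK]
      by_cases hχx : χ (η⁻¹ • (x' - x)) = 0
      · simp [hχx, KK]
      have hx : x ∈ tsupport ψ := subset_tsupport _ hψx
      obtain ⟨hk, hJ, hJ', hJ1, hJ2, hd1, hd2⟩ := hkey g hg x hx x' (M10_near hχ hη hχx)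
      rw [if_pos (by linarith)]
      have hr := h.rho_pos x'
      have hχ0 : 0 ≤ χ (η⁻¹ • (x' - x)) / η ^ 2 := div_nonneg (hχ.nonneg _) (sq_nonneg η)
      have hK0 : 0 ≤ max (κ (-G.di x' (g⁻¹ • x) * conj (G.di x (g • x'))) - ε) 0 :=
        le_max_right _ _
      rw [← ENNReal.ofReal_mul (Real.exp_pos ε).le, ← ENNReal.ofReal_mul hχ0,
        ← ENNReal.ofReal_mul]
      · refine ENNReal.ofReal_le_ofReal ?_
        unfold KK
        simp only
        have e1 : ψ x * (χ (η⁻¹ • (x' - x)) / η ^ 2) / G.rho x' *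
            max (κ (-G.di x' (g⁻¹ • x) * conj (G.di x (g • x'))) - ε) 0 / G.J x (g • x') *
              G.rho x' =
            (χ (η⁻¹ • (x' - x)) / η ^ 2) * (ψ x *
              max (κ (-G.di x' (g⁻¹ • x) * conj (G.di x (g • x'))) - ε) 0 *
              (1 / G.J x (g • x'))) := by
          field_simp
        have e2 : Real.exp ε * (ψ x * κ (al G g x) / G.J x (g • x)) =
            ψ x * κ (al G g x) * (Real.exp ε / G.J x (g • x)) := by ring
        rw [e1, e2]
        refine mul_le_mul_of_nonneg_left ?_ hχ0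
        rw [abs_le] at hk
        refine mul_le_mul (mul_le_mul_of_nonneg_left (max_le (by linarith) (hκ0 _)) (hψ0 x)) ?_
          (div_nonneg zero_le_one hJ'.le) (mul_nonneg (hψ0 x) (hκ0 _))
        rw [div_le_div_iff₀ hJ' hJ, one_mul]
        exact hJ2
      · unfold KK
        simp only
        refine div_nonneg (mul_nonneg (div_nonneg (mul_nonneg (hψ0 x) hχ0) hr.le) hK0) hJ'.le
    refine (lintegral_mono hstep).trans ?_
    rw [lintegral_mul_const', M10_bump hχ hη x, one_mul]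
    split_ifs
    · exact ENNReal.mul_ne_top ENNReal.ofReal_ne_top ENNReal.ofReal_ne_top
    · simp

end SR85
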