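import Pool.Agent.LibSR85.M2

/-! Row SR85 M3: the geodesic flow preserves the Liouville measure.

PROOF. By `flow_int` with `k`, `F` indicators, `muS (phi t ⁻¹' s) = muS s` for almost every `t > 0`, for each measurable `s`,
hence, for almost every `t > 0`, for all `s` in a countable algebra generating the Borel sets, intersected with
products of balls: `muS.map (phi t) = muS` for almost every `t > 0`; every `t > 0` is the sum of two such. -/

open MeasureTheory Set Filter Topology
open scoped ContDiff ENNReal NNReal ComplexConjugate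

namespace SR85

open BGS (Pl Surface)

variable {Γ : Type} [Group Γ] [MulAction Γ Pl] {D : Set Pl} {G : Dat Γ}

theorem M3_meas (h : HG D G) (t : ℝ) : Measurable (phi G t) :=
  ((phi_cont h).comp (continuous_const.prodMk continuous_id)).measurable

omit [Group Γ] [MulAction Γ Pl] in
theorem M3_sfin (G : Dat Γ) : SFinite (muS G) := by
  unfold muS; infer_instance

theorem M3_const (h : HG D G) {s : Set (Pl × ℂ)} (hs : MeasurableSet s) :
    ∀ᵐ t ∂((volume : Measure ℝ).restrict (Ioi 0)), (muS G).map (phi G t) s = muS G s := by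
  have := M3_sfin G
  have hf : Measurable (fun t : ℝ => ∫⁻ p, s.indicator (fun _ => (1 : ℝ≥0∞)) (phi G t p) ∂(muS G)) := by
    apply Measurable.lintegral_prod_right'
      (f := fun q : ℝ × (Pl × ℂ) => s.indicator (fun _ => (1 : ℝ≥0∞)) (phi G q.1 q.2))
    exact (measurable_const.indicator hs).comp (phi_cont h).measurable
  have key := ae_eq_of_forall_setLIntegral_eq_of_sigmaFinite
    (μ := (volume : Measure ℝ).restrict (Ioi 0)) hf
    (measurable_const (a := muS G s)) (fun A hA _ => by
      have e := flow_int h (k := A.indicator (fun _ => (1 : ℝ≥0∞)))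
        (F := s.indicator (fun _ => (1 : ℝ≥0∞)))
        (measurable_const.indicator hA) (measurable_const.indicator hs)
      have e1 : ∫⁻ p, s.indicator (fun _ => (1 : ℝ≥0∞)) p ∂(muS G) = muS G s := by
        rw [lintegral_indicator_const hs, one_mul]
      have e2 : ∫⁻ t in Ioi (0 : ℝ), A.indicator (fun _ => (1 : ℝ≥0∞)) t =
          (volume : Measure ℝ).restrict (Ioi 0) A := by
        rw [lintegral_indicator_const hA, one_mul]
      rw [e1, e2] at e
      rw [setLIntegral_const, mul_comm (muS G s), ← e, ← lintegral_indicator hA]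
      refine lintegral_congr fun t => ?_
      by_cases ht : t ∈ A
      · rw [indicator_of_mem ht, indicator_of_mem ht, one_mul]
      · rw [indicator_of_notMem ht, indicator_of_notMem ht, zero_mul])
  filter_upwards [key] with t ht
  rw [Measure.map_apply (M3_meas h t) hs, ← ht]
  have e3 : ∀ p, s.indicator (fun _ => (1 : ℝ≥0∞)) (phi G t p) =
      (phi G t ⁻¹' s).indicator (fun _ => (1 : ℝ≥0∞)) p := fun p => rfl
  simp_rw [e3]
  rw [lintegral_indicator_const (M3_meas h t hs), one_mul]

theorem M3_ae (h : HG D G) :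
    ∀ᵐ t ∂((volume : Measure ℝ).restrict (Ioi 0)), (muS G).map (phi G t) = muS G := by
  set S : Set (Set (Pl × ℂ)) :=
    generateSetAlgebra (MeasurableSpace.countableGeneratingSet (Pl × ℂ)) with hS
  have hSc : S.Countable :=
    countable_generateSetAlgebra (MeasurableSpace.countable_countableGeneratingSet)
  have hSg : (inferInstance : MeasurableSpace (Pl × ℂ)) = MeasurableSpace.generateFrom S := by
    rw [hS, generateFrom_generateSetAlgebra_eq]
    exact (MeasurableSpace.generateFrom_countableGeneratingSet).symm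
  have hSa : IsSetAlgebra S := isSetAlgebra_generateSetAlgebra
  have hSp : IsPiSystem S := fun s hs t ht _ => hSa.inter_mem hs ht
  have hSm : ∀ s ∈ S, MeasurableSet s := fun s hs => by
    have h0 : MeasurableSet[MeasurableSpace.generateFrom S] s :=
      MeasurableSpace.measurableSet_generateFrom hs
    rw [← hSg] at h0
    exact h0
  set T : ℕ → Set (Pl × ℂ) := fun n => Metric.closedBall (0 : Pl) n ×ˢ univ with hT
  have hTm : ∀ n, MeasurableSet (T n) := fun n =>
    (Metric.isClosed_closedBall.measurableSet).prod MeasurableSet.univ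
  have h1 : ∀ᵐ t ∂((volume : Measure ℝ).restrict (Ioi 0)), ∀ n : ℕ, ∀ s ∈ S,
      (muS G).map (phi G t) (s ∩ T n) = muS G (s ∩ T n) := by
    rw [ae_all_iff]
    intro n
    rw [ae_ball_iff hSc]
    intro s hs
    exact M3_const h ((hSm s hs).inter (hTm n))
  have h2 : ∀ᵐ t ∂((volume : Measure ℝ).restrict (Ioi 0)), ∀ n : ℕ,
      (muS G).map (phi G t) (T n) = muS G (T n) := by
    rw [ae_all_iff]
    intro n
    exact M3_const h (hTm n)
  filter_upwards [h1, h2] with t ht1 ht2
  refine Measure.ext_of_generateFrom_of_cover (S := S) (T := range T) hSg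
    (countable_range T) hSp ?_ ?_ ?_ ?_
  · rw [eq_univ_iff_forall]
    intro p
    obtain ⟨n, hn⟩ := exists_nat_ge ‖p.1‖
    exact mem_sUnion.2 ⟨T n, mem_range_self n, by simp [hT, hn]⟩
  · rintro _ ⟨n, rfl⟩
    rw [ht2 n]
    exact (muS_fin h (isCompact_closedBall _ _)).ne
  · rintro _ ⟨n, rfl⟩ s hs
    exact ht1 n s hs
  · rintro _ ⟨n, rfl⟩
    exact ht2 n

theorem flow_map (h : HG D G) {t : ℝ} (ht : 0 ≤ t) : (muS G).map (phi G t) = muS G := by
  rcases ht.eq_or_lt with rfl | ht
  · have e : phi G 0 = id := by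
      funext p
      refine Prod.ext ?_ ?_
      · simp [phi, h.E_zero]
      · simp [phi, dr_zero h]
    rw [e, Measure.map_id]
  · have h1 : ∀ᵐ s : ℝ, 0 < s → (muS G).map (phi G s) = muS G := by
      have := M3_ae h
      rw [ae_restrict_iff' measurableSet_Ioi] at this
      exact this
    have h2 : ∀ᵐ s : ℝ, 0 < t - s → (muS G).map (phi G (t - s)) = muS G :=
      (Measure.measurePreserving_sub_left (volume : Measure ℝ) t).quasiMeasurePreserving.ae h1
    obtain ⟨s, hs, hs1, hs2⟩ : ∃ s ∈ Ioo (0 : ℝ) t, (0 < s → (muS G).map (phi G s) = muS G) ∧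
        (0 < t - s → (muS G).map (phi G (t - s)) = muS G) := by
      by_contra hcon
      push Not at hcon
      have h3 : ∀ᵐ s : ℝ, s ∉ Ioo (0 : ℝ) t := by
        filter_upwards [h1, h2] with s a b hs
        exact (hcon s hs a).2 (b (hcon s hs a).1)
      rw [ae_iff] at h3
      simp only [not_not] at h3
      have h4 : volume (Ioo (0 : ℝ) t) = 0 := h3
      rw [Real.volume_Ioo] at h4
      simp at h4
      linarith
    have e1 := hs1 hs.1
    have e2 := hs2 (by linarith [hs.2])
    have e3 : phi G t =ᵐ[muS G] phi G s ∘ phi G (t - s) := by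
      filter_upwards [muS_unit G] with p hp
      rw [Function.comp_apply, phi_add h s (t - s) hp]
      congr 1
      ring
    rw [Measure.map_congr e3, ← Measure.map_map (M3_meas h s) (M3_meas h (t - s)), e2, e1]

theorem flow_inv (h : HG D G) {t : ℝ} (ht : 0 ≤ t) {F : Pl × ℂ → ℝ≥0∞} (hF : Measurable F) :
    ∫⁻ p, F (phi G t p) ∂(muS G) = ∫⁻ p, F p ∂(muS G) := by
  conv_rhs => rw [← flow_map h ht]
  rw [lintegral_map hF (M3_meas h t)]

end SR85
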