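import Pool.Agent.LibSR85.M3
import Pool.Agent.LibBGS.Cover

/-! Row SR85 M4: the flow on the quotient is measure preserving.

`red` moves a vector into the fundamental domain; `muD` is the Liouville measure over `D`
(total mass `2 π`); `Tt t = red ∘ phi t`.

PLAN. `red_meas`: countably many measurable pieces `{p | g • p.1 ∈ D}` (the group is countable:
`BGS.Cover_countable` in `Pool.Agent.LibBGS.Cover`, or use `hX.proper` with an exhaustion; you may
import LibBGS files). `inv_flow`: for `H ≥ 0` measurable and invariant, with `1 = ∑_g 1_D (g • y)`,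
`∫⁻_{x ∈ D} H (phi t p) = ∑_g ∫⁻ 1_D(x) 1_D(g • y) H (phi t p)` (`y = (phi t p).1`)
`= ∑_g ∫⁻ 1_D(g⁻¹ • x) 1_D(y) H (phi t p)` (`muS_smul` for `g⁻¹`, `phi_smul`, invariance)
`= ∫⁻ 1_D(y) H (phi t p) = ∫⁻_{x ∈ D} H` (`∑_g 1_D(g⁻¹ • x) = 1`, then `flow_inv`).
`Tt_pres`: for measurable `k`, `k ∘ red` is invariant and `k (Tt t p) = (k ∘ red) (phi t p)`, and
`k ∘ red = k` on `D`. `Tt_add`: `red` of equivalent vectors is the same. -/

open MeasureTheory Set Filter Topology
open scoped ContDiff ENNReal NNReal ComplexConjugate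

namespace SR85

open BGS (Pl Surface)

variable {Γ : Type} [Group Γ] [MulAction Γ Pl] {D : Set Pl} {G : Dat Γ}

/-- Move a vector into the fundamental domain. -/
noncomputable def red (hX : Surface Γ D) (G : Dat Γ) (p : Pl × ℂ) : Pl × ℂ :=
  act G (hX.orbit p.1).choose p

/-- The Liouville measure over the fundamental domain. -/
noncomputable def muD (D : Set Pl) (G : Dat Γ) : Measure (Pl × ℂ) := (muS G).restrict (D ×ˢ univ)

/-- The flow on the quotient. -/
noncomputable def Tt (hX : Surface Γ D) (G : Dat Γ) (t : ℝ) (p : Pl × ℂ) : Pl × ℂ :=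
  red hX G (phi G t p)

theorem M4_spec (hX : Surface Γ D) (p : Pl × ℂ) : (hX.orbit p.1).choose • p.1 ∈ D :=
  (hX.orbit p.1).choose_spec.1

theorem M4_uniq (hX : Surface Γ D) (p : Pl × ℂ) {g : Γ} (hg : g • p.1 ∈ D) :
    g = (hX.orbit p.1).choose :=
  (hX.orbit p.1).choose_spec.2 g hg

theorem M4_red (hX : Surface Γ D) {p : Pl × ℂ} {g : Γ} (hg : g • p.1 ∈ D) :
    red hX G p = act G g p := by
  unfold red
  rw [← M4_uniq hX p hg]

theorem M4_act_one (h : HG D G) (p : Pl × ℂ) : act G (1 : Γ) p = p := by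
  have h1 := R_mul h (1 : Γ) 1 p.1
  rw [one_smul, mul_one] at h1
  have h2 : G.R 1 p.1 ≠ 0 := by
    intro h0
    have h3 := h.R_norm 1 p.1
    rw [h0, norm_zero] at h3
    exact zero_ne_one h3
  have h4 : G.R 1 p.1 = 1 := by
    have h5 : G.R 1 p.1 * 1 = G.R 1 p.1 * G.R 1 p.1 := by rw [mul_one]; exact h1
    exact (mul_left_cancel₀ h2 h5).symm
  unfold act
  rw [one_smul, h4, one_mul]

theorem M4_smeas (hX : Surface Γ D) (g : Γ) : MeasurableSet {p : Pl × ℂ | g • p.1 ∈ D} :=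
  ((hX.smooth g).continuous.comp continuous_fst).measurable hX.meas

theorem M4_tsum (hX : Surface Γ D) (y : Pl) :
    ∑' g : Γ, D.indicator (fun _ => (1 : ℝ≥0∞)) (g • y) = 1 := by
  obtain ⟨c, hc, hu⟩ := hX.orbit y
  rw [tsum_eq_single c (fun g hg => indicator_of_notMem (fun hgD => hg (hu g hgD)) _)]
  exact indicator_of_mem hc _

theorem red_meas (hX : Surface Γ D) (h : HG D G) : Measurable (red hX G) := by
  have := BGS.Cover_countable hX
  intro s hs
  have e : red hX G ⁻¹' s = ⋃ g : Γ, ({p : Pl × ℂ | g • p.1 ∈ D} ∩ act G g ⁻¹' s) := by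
    ext p
    simp only [mem_preimage, mem_iUnion, mem_inter_iff, mem_setOf_eq]
    constructor
    · intro hp
      refine ⟨(hX.orbit p.1).choose, M4_spec hX p, ?_⟩
      exact hp
    · rintro ⟨g, hg, hp⟩
      rw [M4_red hX hg]
      exact hp
  rw [e]
  exact MeasurableSet.iUnion fun g => (M4_smeas hX g).inter (act_meas hX h g hs)

theorem red_act (hX : Surface Γ D) (h : HG D G) (g : Γ) (p : Pl × ℂ) :
    red hX G (act G g p) = red hX G p := by
  have h1 : (hX.orbit (act G g p).1).choose • (act G g p).1 ∈ D := M4_spec hX _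
  have h2 : ((hX.orbit (act G g p).1).choose * g) • p.1 ∈ D := by
    rw [mul_smul]
    exact h1
  rw [M4_red hX h2, M4_red hX h1, act_mul h]

theorem red_D (hX : Surface Γ D) (h : HG D G) {p : Pl × ℂ} (hp : p.1 ∈ D) : red hX G p = p := by
  have h1 : (1 : Γ) • p.1 ∈ D := by rw [one_smul]; exact hp
  rw [M4_red hX h1, M4_act_one h]

theorem inv_red (hX : Surface Γ D) (h : HG D G) {α : Type} (H : Pl × ℂ → α)
    (hi : ∀ (g : Γ) (p : Pl × ℂ), H (act G g p) = H p) (p : Pl × ℂ) : H (red hX G p) = H p := by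
  exact hi _ p

theorem inv_flow (hX : Surface Γ D) (h : HG D G) {t : ℝ} (ht : 0 ≤ t) {H : Pl × ℂ → ℝ≥0∞}
    (hH : Measurable H) (hi : ∀ (g : Γ) (p : Pl × ℂ), H (act G g p) = H p) :
    ∫⁻ p, H (phi G t p) ∂(muD D G) = ∫⁻ p, H p ∂(muD D G) := by
  have hF : Measurable fun p : Pl × ℂ => D.indicator (fun _ => (1 : ℝ≥0∞)) p.1 :=
    (measurable_const.indicator hX.meas).comp measurable_fst
  have hF' : Measurable fun p : Pl × ℂ => D.indicator (fun _ => (1 : ℝ≥0∞)) (phi G t p).1 :=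
    hF.comp (M3_meas h t)
  have hH' : Measurable fun p : Pl × ℂ => H (phi G t p) := hH.comp (M3_meas h t)
  have hi' : ∀ (g : Γ) (p : Pl × ℂ), H (phi G t (act G g p)) = H (phi G t p) := fun g p => by
    rw [phi_smul h, hi]
  have e1 := unfoldS hX h hF' hH' hi'
  have e2 := flow_inv h ht (hF.mul hH)
  have e3 : ∀ p : Pl × ℂ, ∑' g : Γ, D.indicator (fun _ => (1 : ℝ≥0∞)) (phi G t (act G g p)).1 = 1 := by
    intro p
    refine (tsum_congr fun g => ?_).trans (M4_tsum hX (phi G t p).1)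
    rw [phi_smul h]
    rfl
  simp_rw [e3, one_mul] at e1
  unfold muD
  rw [← e1]
  have e4 : ∫⁻ p, H p ∂((muS G).restrict (D ×ˢ univ)) =
      ∫⁻ p, D.indicator (fun _ => (1 : ℝ≥0∞)) p.1 * H p ∂(muS G) := by
    rw [← lintegral_indicator (hX.meas.prod MeasurableSet.univ)]
    refine lintegral_congr fun p => ?_
    by_cases hp : p.1 ∈ D
    · rw [indicator_of_mem (show p ∈ D ×ˢ univ from ⟨hp, mem_univ _⟩), indicator_of_mem hp, one_mul]
    · rw [indicator_of_notMem (show p ∉ D ×ˢ univ from fun hq => hp hq.1), indicator_of_notMem hp,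
        zero_mul]
  rw [e4]
  exact e2

theorem Tt_pres (hX : Surface Γ D) (h : HG D G) {t : ℝ} (ht : 0 ≤ t) :
    MeasurePreserving (Tt hX G t) (muD D G) (muD D G) := by
  have hm : Measurable (Tt hX G t) := (red_meas hX h).comp (M3_meas h t)
  refine ⟨hm, ?_⟩
  ext s hs
  rw [Measure.map_apply hm hs]
  have hr : Measurable fun p : Pl × ℂ => s.indicator (fun _ => (1 : ℝ≥0∞)) (red hX G p) :=
    (measurable_const.indicator hs).comp (red_meas hX h)
  have e1 := inv_flow hX h ht hr (fun g p => by rw [red_act hX h])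
  have e2 : ∫⁻ p, s.indicator (fun _ => (1 : ℝ≥0∞)) (red hX G (phi G t p)) ∂(muD D G) =
      muD D G (Tt hX G t ⁻¹' s) := by
    have e3 : ∀ p, s.indicator (fun _ => (1 : ℝ≥0∞)) (red hX G (phi G t p)) =
      (Tt hX G t ⁻¹' s).indicator (fun _ => (1 : ℝ≥0∞)) p := fun p => rfl
    simp_rw [e3]
    rw [lintegral_indicator_const (hm hs), one_mul]
  have e4 : ∫⁻ p, s.indicator (fun _ => (1 : ℝ≥0∞)) (red hX G p) ∂(muD D G) = muD D G s := by
    rw [← one_mul (muD D G s), ← lintegral_indicator_const hs]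
    refine lintegral_congr_ae ?_
    have hD : ∀ᵐ p ∂(muD D G), p ∈ D ×ˢ (univ : Set ℂ) :=
      ae_restrict_mem (hX.meas.prod MeasurableSet.univ)
    filter_upwards [hD] with p hp
    rw [red_D hX h hp.1]
  rw [← e2, e1, e4]

theorem muD_fin (hX : Surface Γ D) (h : HG D G) : IsFiniteMeasure (muD D G) := by
  refine ⟨?_⟩
  unfold muD
  rw [Measure.restrict_apply_univ, muS_D hX h]
  exact ENNReal.ofReal_lt_top

theorem muD_unit (D : Set Pl) (G : Dat Γ) : ∀ᵐ p ∂(muD D G), ‖p.2‖ = 1 := by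
  exact ae_restrict_of_ae (muS_unit G)

end SR85
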