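import Pool.Agent.LibSR85.M4
import Pool.Agent.LibSR85.E5

/-! Row SR85 M5: the mean ergodic theorem.

PLAN. `F p = f p.1 (E p.1 p.2)` is continuous, invariant (`E_smul`) and, on unit vectors,
`F (phi s p) = f (z s) (z (s+1))` (`flow`, `dr`), bounded by `M` (`bdd`). Let
`g p = ∫_0^1 F (phi s p) ds = avg G f 1 p.1 p.2` on unit vectors (truncate to `[-M, M]`), in
`L²(muD)`; for unit vectors `g (Tt 1 ^[k] p) = ∫_k^{k+1} F (phi s p) ds` (`phi_add`, `inv_red`), so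
`birkhoffAverage ℝ (Tt 1) g n p = avg G f n p.1 p.2` almost everywhere. The Koopman operator of
`Tt 1` (`Tt_pres`, `Lp.compMeasurePreservingₗᵢ`) is an isometry of `Lp ℝ 2 muD`, so by
`ContinuousLinearMap.tendsto_birkhoffAverage_orthogonalProjection` the averages converge in `L²` to
some `P`; a subsequence `τ k` converges almost everywhere (`TendstoInMeasure` / `exists_seq_tendsto_ae`), so
`P` is a.e. the limsup, a constant `c'` by `limsup_const` (`muS_lint` turns 'all `x`, almost all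
`θ`' into 'almost all `p`'). `∫ avg f n ∂muD = ∫ F ∂muD` for every `n` (Fubini and `inv_flow`
applied to `M + F ≥ 0`), so `c' * 2 π = ∫ F ∂muD`, i.e. `c' = mean G f`. `L²` convergence on a
finite measure space gives `L¹`. From integers to reals: `|avg T - avg ⌊T⌋| ≤ 2 M / ⌊T⌋` on unit
vectors. -/

open MeasureTheory Set Filter Topology
open scoped ContDiff ENNReal NNReal ComplexConjugate

namespace SR85

open BGS (Pl Surface)

variable {Γ : Type} [Group Γ] [MulAction Γ Pl] {D : Set Pl} {G : Dat Γ}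

/-- The mean of `f (z 0) (z 1)` over the unit tangent bundle. -/
noncomputable def mean (D : Set Pl) (G : Dat Γ) (f : Pl → Pl → ℝ) : ℝ :=
  (1 / (2 * Real.pi)) * ∫ p, f p.1 (G.E p.1 p.2) ∂(muD D G)

theorem M5_avg_act (h : HG D G) {f : Pl → Pl → ℝ} (hi : ∀ (g : Γ) x y, f (g • x) (g • y) = f x y)
    (g : Γ) (T : ℝ) (p : Pl × ℂ) :
    avg G f T (act G g p).1 (act G g p).2 = avg G f T p.1 p.2 := by
  unfold avg act
  congr 1
  apply intervalIntegral.integral_congr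
  intro s _
  have e1 : (s : ℂ) * (G.R g p.1 * p.2) = G.R g p.1 * ((s : ℂ) * p.2) := by ring
  have e2 : ((s + 1 : ℝ) : ℂ) * (G.R g p.1 * p.2) = G.R g p.1 * (((s + 1 : ℝ) : ℂ) * p.2) := by
    ring
  show f (G.E (g • p.1) ((s : ℂ) * (G.R g p.1 * p.2)))
    (G.E (g • p.1) (((s + 1 : ℝ) : ℂ) * (G.R g p.1 * p.2))) = _
  rw [e1, e2, E_smul h, E_smul h, hi]

theorem M5_phi0 (h : HG D G) (p : Pl × ℂ) : phi G 0 p = p := by
  unfold phi Dat.dr
  simp only [Complex.ofReal_zero, zero_mul, zero_add, Complex.ofReal_one, one_mul, h.E_zero, h.VE]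

theorem M5_inv (hX : Surface Γ D) (h : HG D G) (k : ℕ) : ∀ (H : Pl × ℂ → ℝ)
    (_ : ∀ (g : Γ) (p : Pl × ℂ), H (act G g p) = H p) {p : Pl × ℂ} (_ : ‖p.2‖ = 1),
    H ((Tt hX G 1)^[k] p) = H (phi G (k : ℝ) p) := by
  induction k with
  | zero =>
    intro H hi p hp
    rw [Function.iterate_zero, id, Nat.cast_zero, M5_phi0 h]
  | succ k ih =>
    intro H hi p hp
    have hi' : ∀ (g : Γ) (p : Pl × ℂ), (fun q => H (Tt hX G 1 q)) (act G g p) =
        (fun q => H (Tt hX G 1 q)) p := by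
      intro g p
      show H (red hX G (phi G 1 (act G g p))) = H (red hX G (phi G 1 p))
      rw [phi_smul h, red_act hX h]
    have h1 := ih (fun q => H (Tt hX G 1 q)) hi' hp
    rw [Function.iterate_succ_apply']
    refine h1.trans ?_
    show H (red hX G (phi G 1 (phi G (k : ℝ) p))) = _
    rw [inv_red hX h H hi, phi_add h 1 (k : ℝ) hp]
    push_cast
    rfl

theorem M5_cont (h : HG D G) {f : Pl → Pl → ℝ}
    (hf : Continuous fun q : Pl × Pl => f q.1 q.2) :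
    Continuous fun q : (Pl × ℂ) × ℝ =>
      f (G.E q.1.1 ((q.2 : ℂ) * q.1.2)) (G.E q.1.1 (((q.2 + 1 : ℝ) : ℂ) * q.1.2)) := by
  have hE : ∀ k : ℝ → ℝ, Continuous k → Continuous fun p : (Pl × ℂ) × ℝ =>
      G.E p.1.1 (((k p.2 : ℝ) : ℂ) * p.1.2) := by
    intro k hk
    exact h.E_cont.comp ((continuous_fst.comp continuous_fst).prodMk
      ((Complex.continuous_ofReal.comp (hk.comp continuous_snd)).mul
        (continuous_snd.comp continuous_fst)))
  exact hf.comp ((hE (fun s => s) continuous_id).prodMk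
    (hE (fun s => s + 1) (continuous_id.add continuous_const)))

theorem M5_cont' (h : HG D G) {f : Pl → Pl → ℝ}
    (hf : Continuous fun q : Pl × Pl => f q.1 q.2) (x : Pl) (u : ℂ) :
    Continuous fun s : ℝ => f (G.E x ((s : ℂ) * u)) (G.E x (((s + 1 : ℝ) : ℂ) * u)) :=
  (M5_cont h hf).comp ((continuous_const (y := (x, u))).prodMk continuous_id)

theorem M5_birk (hX : Surface Γ D) (h : HG D G) {f : Pl → Pl → ℝ}
    (hf : Continuous fun q : Pl × Pl => f q.1 q.2)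
    (hi : ∀ (g : Γ) x y, f (g • x) (g • y) = f x y) (n : ℕ) {p : Pl × ℂ} (hp : ‖p.2‖ = 1) :
    birkhoffSum (Tt hX G 1) (fun q => avg G f 1 q.1 q.2) n p =
      ∫ s in (0 : ℝ)..n, f (G.E p.1 ((s : ℂ) * p.2)) (G.E p.1 (((s + 1 : ℝ) : ℂ) * p.2)) := by
  have hc := M5_cont' h hf p.1 p.2
  have h1 : ∀ k : ℕ, avg G f 1 ((Tt hX G 1)^[k] p).1 ((Tt hX G 1)^[k] p).2 =
      ∫ s in (k : ℝ)..((k + 1 : ℕ) : ℝ),
        f (G.E p.1 ((s : ℂ) * p.2)) (G.E p.1 (((s + 1 : ℝ) : ℂ) * p.2)) := by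
    intro k
    have h2 := M5_inv hX h k (fun q => avg G f 1 q.1 q.2) (fun g q => M5_avg_act h hi g 1 q) hp
    refine h2.trans ?_
    unfold avg
    have h3 : ∀ s : ℝ, G.E (phi G (k : ℝ) p).1 ((s : ℂ) * (phi G (k : ℝ) p).2) =
        G.E p.1 ((((k : ℝ) + s : ℝ) : ℂ) * p.2) := fun s => h.flow p.1 p.2 hp (k : ℝ) s
    have h4 : ∀ s : ℝ, f (G.E (phi G (k : ℝ) p).1 ((s : ℂ) * (phi G (k : ℝ) p).2))
        (G.E (phi G (k : ℝ) p).1 (((s + 1 : ℝ) : ℂ) * (phi G (k : ℝ) p).2)) =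
        (fun r : ℝ => f (G.E p.1 ((r : ℂ) * p.2)) (G.E p.1 (((r + 1 : ℝ) : ℂ) * p.2)))
          ((k : ℝ) + s) := by
      intro s
      show _ = f (G.E p.1 ((((k : ℝ) + s : ℝ) : ℂ) * p.2))
        (G.E p.1 ((((k : ℝ) + s + 1 : ℝ) : ℂ) * p.2))
      rw [h3 s, h3 (s + 1), add_assoc]
    rw [div_one, one_mul, intervalIntegral.integral_congr (fun s _ => h4 s)]
    have h5 := intervalIntegral.integral_comp_add_left (a := 0) (b := 1)
      (fun r : ℝ => f (G.E p.1 ((r : ℂ) * p.2)) (G.E p.1 (((r + 1 : ℝ) : ℂ) * p.2))) (k : ℝ)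
    refine h5.trans ?_
    rw [add_zero, Nat.cast_succ]
  unfold birkhoffSum
  simp_rw [h1]
  rw [intervalIntegral.sum_integral_adjacent_intervals (a := fun k : ℕ => (k : ℝ))
    (fun k _ => hc.intervalIntegrable _ _), Nat.cast_zero]

theorem M5_ae (h : HG D G) {P : Pl × ℂ → Prop} (hP : MeasurableSet {p | P p})
    (hx : ∀ x : Pl, ∀ᵐ θ : ℝ ∂(volume.restrict (Ioc (-Real.pi) Real.pi)),
      P (x, Complex.exp ((θ : ℂ) * Complex.I))) : ∀ᵐ p ∂(muS G), P p := by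
  have h1 : muS G {p | P p}ᶜ = 0 := by
    rw [← lintegral_indicator_one hP.compl, muS_lint h (measurable_one.indicator hP.compl)]
    have h2 : ∀ x : Pl, ∫⁻ θ in Ioc (-Real.pi) Real.pi,
        ({p | P p}ᶜ.indicator (1 : Pl × ℂ → ℝ≥0∞)) (x, Complex.exp ((θ : ℂ) * Complex.I)) = 0 := by
      intro x
      apply lintegral_eq_zero_of_ae_eq_zero
      filter_upwards [hx x] with θ hθ
      exact Set.indicator_of_notMem (Set.notMem_compl_iff.mpr hθ) _
    simp_rw [h2, zero_mul]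
    exact lintegral_zero
  exact h1

theorem M5_int (hX : Surface Γ D) (h : HG D G) {f : Pl → Pl → ℝ}
    (hf : Continuous fun q : Pl × Pl => f q.1 q.2)
    (hi : ∀ (g : Γ) x y, f (g • x) (g • y) = f x y) {T : ℝ} (hT : 0 < T) :
    ∫ p, avg G f T p.1 p.2 ∂(muD D G) = ∫ p, f p.1 (G.E p.1 p.2) ∂(muD D G) := by
  have hfinD := muD_fin hX h
  obtain ⟨M, hM, hb⟩ := bdd hX h hf hi
  set F : Pl × ℂ → ℝ := fun p => f p.1 (G.E p.1 p.2) with hF
  have hFc : Continuous F := hf.comp (continuous_fst.prodMk h.E_cont)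
  have hFi : ∀ (g : Γ) (p : Pl × ℂ), F (act G g p) = F p := by
    intro g p
    show f (g • p.1) (G.E (g • p.1) (G.R g p.1 * p.2)) = f p.1 (G.E p.1 p.2)
    rw [E_smul h, hi]
  have hs : ∀ s : ℝ, 0 ≤ s → ∫ p, f (G.E p.1 ((s : ℂ) * p.2))
      (G.E p.1 (((s + 1 : ℝ) : ℂ) * p.2)) ∂(muD D G) = ∫ p, F p ∂(muD D G) := by
    intro s hs
    have h1 : (fun p : Pl × ℂ => f (G.E p.1 ((s : ℂ) * p.2))
        (G.E p.1 (((s + 1 : ℝ) : ℂ) * p.2))) =ᵐ[muD D G] fun p => F (Tt hX G s p) := by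
      filter_upwards [muD_unit D G] with p hp
      have h2 : F (Tt hX G s p) = F (phi G s p) := inv_red hX h F hFi (phi G s p)
      rw [h2]
      have h3 := h.flow p.1 p.2 hp s 1
      rw [Complex.ofReal_one, one_mul] at h3
      show _ = f (G.E p.1 ((s : ℂ) * p.2)) (G.E (G.E p.1 ((s : ℂ) * p.2)) (G.dr p.1 p.2 s))
      rw [h3]
    rw [integral_congr_ae h1]
    have hT := Tt_pres hX h hs
    have h4 := integral_map (μ := muD D G) (φ := Tt hX G s) hT.measurable.aemeasurable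
      (f := F) (hFc.aestronglyMeasurable)
    rw [hT.map_eq] at h4
    exact h4.symm
  have hsw : ∫ p, (∫ s in Ioc (0 : ℝ) T, f (G.E p.1 ((s : ℂ) * p.2))
      (G.E p.1 (((s + 1 : ℝ) : ℂ) * p.2))) ∂(muD D G) =
      ∫ s in Ioc (0 : ℝ) T, (∫ p, f (G.E p.1 ((s : ℂ) * p.2))
      (G.E p.1 (((s + 1 : ℝ) : ℂ) * p.2)) ∂(muD D G)) := by
    apply integral_integral_swap
    refine Integrable.of_bound (M5_cont h hf).aestronglyMeasurable M ?_
    have h5 := (Measure.quasiMeasurePreserving_fst (μ := muD D G)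
      (ν := (volume : Measure ℝ).restrict (Ioc 0 T))).ae (muD_unit D G)
    filter_upwards [h5] with q hq
    rw [Real.norm_eq_abs]
    apply hb
    rw [d_geo h q.1.1 hq]
    simp
  unfold avg
  rw [integral_const_mul]
  simp_rw [intervalIntegral.integral_of_le hT.le]
  rw [hsw, setIntegral_congr_fun measurableSet_Ioc (fun s hs' => hs s hs'.1.le)]
  rw [setIntegral_const, Real.volume_real_Ioc_of_le hT.le, sub_zero, smul_eq_mul]
  field_simp

theorem M5_diff (h : HG D G) {f : Pl → Pl → ℝ}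
    (hf : Continuous fun q : Pl × Pl => f q.1 q.2) {M : ℝ} (hM : 0 < M)
    (hb : ∀ x y, G.d x y ≤ 1 → |f x y| ≤ M) {T : ℝ} (hT : 1 ≤ T) {p : Pl × ℂ} (hp : ‖p.2‖ = 1) :
    |avg G f T p.1 p.2 - avg G f (⌊T⌋₊ : ℝ) p.1 p.2| ≤ 2 * M / T := by
  have hc := M5_cont' h hf p.1 p.2
  set w : ℝ → ℝ := fun s => f (G.E p.1 ((s : ℂ) * p.2)) (G.E p.1 (((s + 1 : ℝ) : ℂ) * p.2)) with hw
  have hT0 : 0 < T := by linarith
  have hn1 : 1 ≤ ⌊T⌋₊ := Nat.le_floor (by exact_mod_cast hT)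
  have hn : (1 : ℝ) ≤ (⌊T⌋₊ : ℝ) := by exact_mod_cast hn1
  have hnT : (⌊T⌋₊ : ℝ) ≤ T := Nat.floor_le hT0.le
  have hTn : T ≤ (⌊T⌋₊ : ℝ) + 1 := (Nat.lt_floor_add_one T).le
  have h1 : avg G f T p.1 p.2 = (1 / T) * ∫ s in (0 : ℝ)..T, w s := rfl
  have h2 : avg G f (⌊T⌋₊ : ℝ) p.1 p.2 = (1 / (⌊T⌋₊ : ℝ)) * ∫ s in (0 : ℝ)..(⌊T⌋₊ : ℝ), w s := rfl
  have h3 : ∫ s in (0 : ℝ)..T, w s = (∫ s in (0 : ℝ)..(⌊T⌋₊ : ℝ), w s) +
      ∫ s in (⌊T⌋₊ : ℝ)..T, w s :=
    (intervalIntegral.integral_add_adjacent_intervals (hc.intervalIntegrable _ _)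
      (hc.intervalIntegrable _ _)).symm
  have h4 : |∫ s in (⌊T⌋₊ : ℝ)..T, w s| ≤ M := by
    have h5 := intervalIntegral.norm_integral_le_of_norm_le_const (a := (⌊T⌋₊ : ℝ)) (b := T)
      (f := w) (C := M) (fun s _ => by
        rw [Real.norm_eq_abs]
        apply hb
        rw [d_geo h p.1 hp]
        simp)
    rw [Real.norm_eq_abs] at h5
    refine h5.trans ?_
    rw [abs_of_nonneg (by linarith)]
    nlinarith
  have h6 : |avg G f (⌊T⌋₊ : ℝ) p.1 p.2| ≤ M := E5_avg_le h hM hb _ p.1 hp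
  set A : ℝ := avg G f (⌊T⌋₊ : ℝ) p.1 p.2 with hA
  have h7 : ∫ s in (0 : ℝ)..(⌊T⌋₊ : ℝ), w s = (⌊T⌋₊ : ℝ) * A := by
    rw [h2]
    field_simp
  rw [h1, h3, h7]
  set r : ℝ := ∫ s in (⌊T⌋₊ : ℝ)..T, w s with hr
  have h8 : (1 / T) * ((⌊T⌋₊ : ℝ) * A + r) - A = (((⌊T⌋₊ : ℝ) - T) * A + r) / T := by
    field_simp
    ring
  rw [h8, abs_div, abs_of_pos hT0]
  apply div_le_div_of_nonneg_right _ hT0.le
  refine (abs_add_le _ _).trans ?_
  rw [abs_mul]
  have h9 : |(⌊T⌋₊ : ℝ) - T| ≤ 1 := by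
    rw [abs_le]
    constructor <;> linarith
  have h10 := mul_le_mul h9 h6 (abs_nonneg _) zero_le_one
  linarith

theorem mean_erg (hX : Surface Γ D) (h : HG D G) {f : Pl → Pl → ℝ}
    (hf : Continuous fun q : Pl × Pl => f q.1 q.2)
    (hi : ∀ (g : Γ) x y, f (g • x) (g • y) = f x y) :
    Tendsto (fun T : ℝ => ∫⁻ p, ENNReal.ofReal |avg G f T p.1 p.2 - mean D G f| ∂(muD D G))
      atTop (𝓝 0) := by
  have hfinD := muD_fin hX h
  obtain ⟨M, hM, hb⟩ := bdd hX h hf hi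
  set μ : Measure (Pl × ℂ) := muD D G with hμ
  have hT : MeasurePreserving (Tt hX G 1) μ μ := Tt_pres hX h zero_le_one
  set g : Pl × ℂ → ℝ := fun q => avg G f 1 q.1 q.2 with hg
  have hgc : Continuous g := avg_cont h hf 1
  have hgL : MemLp g 2 μ := by
    refine MemLp.of_bound hgc.aestronglyMeasurable M ?_
    filter_upwards [muD_unit D G] with p hp
    rw [Real.norm_eq_abs]
    exact E5_avg_le h hM hb 1 p.1 hp
  set g' : Lp ℝ 2 μ := hgL.toLp g with hg'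
  set U : Lp ℝ 2 μ →ₗᵢ[ℝ] Lp ℝ 2 μ := Lp.compMeasurePreservingₗᵢ ℝ (Tt hX G 1) hT with hU
  have hconv := ContinuousLinearMap.tendsto_birkhoffAverage_orthogonalProjection
    U.toContinuousLinearMap U.norm_toContinuousLinearMap_le g'
  set P : Lp ℝ 2 μ := (((U.toContinuousLinearMap).eqLocus
    (1 : Lp ℝ 2 μ →L[ℝ] Lp ℝ 2 μ)).orthogonalProjectionOnto g' : Lp ℝ 2 μ) with hP
  -- the iterates of the Koopman operator
  have hit : ∀ k : ℕ, ((((U.toContinuousLinearMap : Lp ℝ 2 μ → Lp ℝ 2 μ))^[k] g' : Lp ℝ 2 μ) :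
      Pl × ℂ → ℝ) =ᵐ[μ] fun p => g ((Tt hX G 1)^[k] p) := by
    intro k
    induction k with
    | zero => exact hgL.coeFn_toLp
    | succ k ih =>
      rw [Function.iterate_succ_apply']
      have h1 := Lp.coeFn_compMeasurePreserving
        (((U.toContinuousLinearMap : Lp ℝ 2 μ → Lp ℝ 2 μ))^[k] g') hT
      have h2 := hT.quasiMeasurePreserving.ae_eq_comp ih
      refine (h1.trans h2).trans (Eventually.of_forall fun p => ?_)
      show g ((Tt hX G 1)^[k] (Tt hX G 1 p)) = g ((Tt hX G 1)^[k + 1] p)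
      rw [Function.iterate_succ_apply]
  have hsum : ∀ n : ℕ, ((birkhoffSum (U.toContinuousLinearMap : Lp ℝ 2 μ → Lp ℝ 2 μ) _root_.id n
      g' : Lp ℝ 2 μ) : Pl × ℂ → ℝ) =ᵐ[μ] fun p => birkhoffSum (Tt hX G 1) g n p := by
    intro n
    induction n with
    | zero =>
      simp only [birkhoffSum_zero]
      exact Lp.coeFn_zero ℝ 2 μ
    | succ n ih =>
      rw [birkhoffSum_succ]
      refine (Lp.coeFn_add _ _).trans ?_
      filter_upwards [ih, hit n] with p h1 h2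
      rw [Pi.add_apply, h1, birkhoffSum_succ]
      congr 1
  have hav : ∀ n : ℕ, ((birkhoffAverage ℝ (U.toContinuousLinearMap : Lp ℝ 2 μ → Lp ℝ 2 μ)
      _root_.id n g' : Lp ℝ 2 μ) : Pl × ℂ → ℝ) =ᵐ[μ] fun p => avg G f n p.1 p.2 := by
    intro n
    unfold birkhoffAverage
    refine (Lp.coeFn_smul _ _).trans ?_
    filter_upwards [hsum n, muD_unit D G] with p h1 hp
    rw [Pi.smul_apply, h1, M5_birk hX h hf hi n hp, smul_eq_mul]
    unfold avg
    rw [one_div]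
  -- an almost everywhere convergent subsequence
  obtain ⟨ns, hns, hae⟩ := (tendstoInMeasure_of_tendsto_Lp hconv).exists_seq_tendsto_ae
  obtain ⟨c, hc⟩ := limsup_const hX h hf hi (fun k => ((ns k : ℕ) : ℝ))
    (tendsto_natCast_atTop_atTop.comp hns.tendsto_atTop)
  have hc2 : ∀ᵐ p ∂μ, limsup (fun k => avg G f ((ns k : ℕ) : ℝ) p.1 p.2) atTop = c := by
    apply ae_restrict_of_ae
    refine M5_ae h ?_ hc
    have hLm : Measurable fun q : Pl × ℂ =>
        limsup (fun k => avg G f ((ns k : ℕ) : ℝ) q.1 q.2) atTop := by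
      apply Measurable.limsup
      intro k
      exact (avg_cont h hf _).measurable
    exact hLm (measurableSet_singleton c)
  have hPc : (P : Pl × ℂ → ℝ) =ᵐ[μ] fun _ => c := by
    have hall : ∀ᵐ p ∂μ, ∀ k : ℕ, (birkhoffAverage ℝ
        (U.toContinuousLinearMap : Lp ℝ 2 μ → Lp ℝ 2 μ) _root_.id (ns k) g' : Lp ℝ 2 μ) p =
        avg G f ((ns k : ℕ) : ℝ) p.1 p.2 := ae_all_iff.mpr fun k => hav (ns k)
    filter_upwards [hae, hc2, hall] with p h1 h2 h3
    have h4 : Tendsto (fun k => avg G f ((ns k : ℕ) : ℝ) p.1 p.2) atTop (𝓝 (P p)) := by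
      refine h1.congr fun k => h3 k
    rw [← h2, h4.limsup_eq]
  -- convergence in the mean along the integers
  have hL1 : Tendsto (fun n : ℕ => ∫⁻ p, ‖avg G f n p.1 p.2 - c‖ₑ ∂μ) atTop (𝓝 0) := by
    have h1 := (Lp.tendsto_Lp_iff_tendsto_eLpNorm' _ _).mp hconv
    have h2 : ∀ n : ℕ, ∫⁻ p, ‖avg G f n p.1 p.2 - c‖ₑ ∂μ ≤
        eLpNorm (⇑(birkhoffAverage ℝ (U.toContinuousLinearMap : Lp ℝ 2 μ → Lp ℝ 2 μ)
          _root_.id n g' : Lp ℝ 2 μ) - ⇑P) 2 μ *
          μ univ ^ (1 / (1 : ℝ≥0∞).toReal - 1 / (2 : ℝ≥0∞).toReal) := by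
      intro n
      rw [← eLpNorm_one_eq_lintegral_enorm]
      have h3 : eLpNorm (fun p : Pl × ℂ => avg G f n p.1 p.2 - c) 1 μ =
          eLpNorm (⇑(birkhoffAverage ℝ (U.toContinuousLinearMap : Lp ℝ 2 μ → Lp ℝ 2 μ)
          _root_.id n g' : Lp ℝ 2 μ) - ⇑P) 1 μ := by
        apply eLpNorm_congr_ae
        filter_upwards [hav n, hPc] with p h4 h5
        rw [Pi.sub_apply, h4, h5]
      rw [h3]
      exact eLpNorm_le_eLpNorm_mul_rpow_measure_univ (by norm_num)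
        ((Lp.aestronglyMeasurable _).sub (Lp.aestronglyMeasurable _))
    refine tendsto_of_tendsto_of_tendsto_of_le_of_le tendsto_const_nhds ?_
      (fun n => zero_le) h2
    have hfin : μ univ ^ (1 / (1 : ℝ≥0∞).toReal - 1 / (2 : ℝ≥0∞).toReal) ≠ ⊤ := by
      apply ENNReal.rpow_ne_top_of_nonneg
      · norm_num
      · exact measure_ne_top _ _
    have h6 := ENNReal.Tendsto.mul_const h1 (Or.inr hfin)
    rw [zero_mul] at h6
    exact h6
  -- the value of the constant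
  have hcm : c = mean D G f := by
    have h1 : Tendsto (fun n : ℕ => ∫ p, avg G f n p.1 p.2 ∂μ) atTop (𝓝 (∫ _, c ∂μ)) := by
      refine tendsto_integral_of_L1 (fun _ => c) aestronglyMeasurable_const
        (Eventually.of_forall fun n => ?_) hL1
      refine Integrable.of_bound (avg_cont h hf _).aestronglyMeasurable M ?_
      filter_upwards [muD_unit D G] with p hp
      rw [Real.norm_eq_abs]
      exact E5_avg_le h hM hb _ p.1 hp
    have h2 : Tendsto (fun n : ℕ => ∫ p, avg G f n p.1 p.2 ∂μ) atTop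
        (𝓝 (∫ p, f p.1 (G.E p.1 p.2) ∂μ)) := by
      refine Tendsto.congr' ?_ tendsto_const_nhds
      filter_upwards [eventually_ge_atTop 1] with n hn
      exact (M5_int hX h hf hi (by exact_mod_cast hn)).symm
    have h3 := tendsto_nhds_unique h1 h2
    have h4 : μ.real univ = 2 * Real.pi := by
      rw [Measure.real, hμ, muD, Measure.restrict_apply_univ, muS_D hX h,
        ENNReal.toReal_ofReal (by positivity)]
    rw [integral_const, h4, smul_eq_mul] at h3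
    unfold mean
    rw [← h3]
    have hpi := Real.pi_pos
    field_simp
  rw [← hcm]
  -- from the integers to the reals
  have hup : ∀ T : ℝ, 1 ≤ T → ∫⁻ p, ENNReal.ofReal |avg G f T p.1 p.2 - c| ∂μ ≤
      (∫⁻ p, ‖avg G f (⌊T⌋₊ : ℝ) p.1 p.2 - c‖ₑ ∂μ) + ENNReal.ofReal (2 * M / T) * μ univ := by
    intro T hT1
    rw [← lintegral_const, ← lintegral_add_right _ measurable_const]
    apply lintegral_mono_ae
    filter_upwards [muD_unit D G] with p hp
    rw [← ofReal_norm, Real.norm_eq_abs,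
      ← ENNReal.ofReal_add (abs_nonneg _) (by positivity)]
    apply ENNReal.ofReal_le_ofReal
    have h1 := M5_diff h hf hM hb hT1 hp
    have h2 := abs_add_le (avg G f (⌊T⌋₊ : ℝ) p.1 p.2 - c)
      (avg G f T p.1 p.2 - avg G f (⌊T⌋₊ : ℝ) p.1 p.2)
    have h3 : avg G f (⌊T⌋₊ : ℝ) p.1 p.2 - c +
      (avg G f T p.1 p.2 - avg G f (⌊T⌋₊ : ℝ) p.1 p.2) = avg G f T p.1 p.2 - c := by ring
    rw [h3] at h2
    linarith
  have hlim : Tendsto (fun T : ℝ => (∫⁻ p, ‖avg G f (⌊T⌋₊ : ℝ) p.1 p.2 - c‖ₑ ∂μ) +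
      ENNReal.ofReal (2 * M / T) * μ univ) atTop (𝓝 0) := by
    have h1 : Tendsto (fun T : ℝ => ∫⁻ p, ‖avg G f (⌊T⌋₊ : ℝ) p.1 p.2 - c‖ₑ ∂μ) atTop (𝓝 0) :=
      hL1.comp (tendsto_nat_floor_atTop (α := ℝ))
    have h2 : Tendsto (fun T : ℝ => ENNReal.ofReal (2 * M / T)) atTop (𝓝 0) := by
      rw [← ENNReal.ofReal_zero]
      exact ENNReal.tendsto_ofReal (tendsto_const_nhds.div_atTop tendsto_id)
    have h3 := ENNReal.Tendsto.mul_const h2 (Or.inr (measure_ne_top μ univ))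
    have h4 := h1.add h3
    rwa [zero_mul, add_zero] at h4
  refine tendsto_of_tendsto_of_tendsto_of_le_of_le' tendsto_const_nhds hlim
    (Eventually.of_forall fun T => zero_le) ?_
  filter_upwards [eventually_ge_atTop 1] with T hT1
  exact hup T hT1

end SR85
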