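import Pool.Agent.LibSR85.M5

/-! Row SR85 M6: the mean ergodic theorem over a compact part of the plane, and for functions
obtained by summing over the group.

PLAN of `mean_erg_N`: `avg G f T` is invariant (`avg_smul`), so by `unfoldS` with
`F = 1_N(p.1)`, `H = ofReal |avg - mean|`: `∫⁻_{N} H = ∫⁻_{D} (∑' g, 1_N (g • p.1)) H` and the sum
is at most the number of `g` with `g • D̄ ∩ N ≠ ∅` (finite, `fin_return` or `hX.proper` for
`closure D ∪ N`), so it is at most a constant times `∫⁻ H ∂muD → 0` (`mean_erg`).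
PLAN of `persum`: `persum G b x y = ∑ᶠ g, b (g • x) (V (g • x) (g • y))` is a locally finite sum
(`hX.proper`: for `x` in a compact set only finitely many `g` have `g • x ∈ N`) of continuous
functions; invariance by reindexing; `persum G b x (E x u) = ∑ᶠ g, b (g • x) (R g x * u)`
(`V_smul`, `VE`); the mean is `(1 / 2 π) ∫ b ∂muS` by `unfoldS` (write `b = b⁺ - b⁻` or use
`ENNReal.ofReal` for `b ≥ 0` only: here `b ≥ 0`). -/

open MeasureTheory Set Filter Topology
open scoped ContDiff ENNReal NNReal ComplexConjugate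

namespace SR85

open BGS (Pl Surface)

variable {Γ : Type} [Group Γ] [MulAction Γ Pl] {D : Set Pl} {G : Dat Γ}

private theorem M6_avg (h : HG D G) {f : Pl → Pl → ℝ}
    (hf : Continuous fun q : Pl × Pl => f q.1 q.2) (T : ℝ) :
    Continuous fun p : Pl × ℂ => avg G f T p.1 p.2 := by
  unfold avg
  refine continuous_const.mul ?_
  have h1 : Continuous (Function.uncurry fun (p : Pl × ℂ) (s : ℝ) =>
      f (G.E p.1 ((s : ℂ) * p.2)) (G.E p.1 (((s + 1 : ℝ) : ℂ) * p.2))) := by
    have e1 : Continuous fun q : (Pl × ℂ) × ℝ => G.E q.1.1 ((q.2 : ℂ) * q.1.2) :=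
      h.E_cont.comp ((continuous_fst.comp continuous_fst).prodMk
        ((Complex.continuous_ofReal.comp continuous_snd).mul (continuous_snd.comp continuous_fst)))
    have e2 : Continuous fun q : (Pl × ℂ) × ℝ => G.E q.1.1 (((q.2 + 1 : ℝ) : ℂ) * q.1.2) :=
      h.E_cont.comp ((continuous_fst.comp continuous_fst).prodMk
        ((Complex.continuous_ofReal.comp (continuous_snd.add continuous_const)).mul
          (continuous_snd.comp continuous_fst)))
    exact hf.comp (e1.prodMk e2)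
  exact intervalIntegral.continuous_parametric_intervalIntegral_of_continuous' h1 0 T

private theorem M6_fin (hX : Surface Γ D) {K N : Set Pl} (hK : IsCompact K) (hN : IsCompact N) :
    {g : Γ | ∃ x ∈ K, g • x ∈ N}.Finite := by
  refine (hX.proper (K ∪ N) (hK.union hN)).subset ?_
  rintro g ⟨x, hx, hgx⟩
  exact ⟨x, Or.inl hx, Or.inr hgx⟩

theorem mean_erg_N (hX : Surface Γ D) (h : HG D G) {f : Pl → Pl → ℝ}
    (hf : Continuous fun q : Pl × Pl => f q.1 q.2)
    (hi : ∀ (g : Γ) x y, f (g • x) (g • y) = f x y) {N : Set Pl} (hN : IsCompact N) :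
    Tendsto (fun T : ℝ => ∫⁻ p in N ×ˢ univ, ENNReal.ofReal |avg G f T p.1 p.2 - mean D G f|
      ∂(muS G)) atTop (𝓝 0) := by
  classical
  have hfin : {g : Γ | ∃ x ∈ closure D, g • x ∈ N}.Finite :=
    M6_fin hX hX.bdd.isCompact_closure hN
  have hNm : MeasurableSet (N ×ˢ (univ : Set ℂ)) := hN.measurableSet.prod MeasurableSet.univ
  have hDm : MeasurableSet (D ×ˢ (univ : Set ℂ)) := hX.meas.prod MeasurableSet.univ
  have hmain : ∀ T : ℝ, ∫⁻ p in N ×ˢ univ, ENNReal.ofReal |avg G f T p.1 p.2 - mean D G f|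
      ∂(muS G) ≤ (hfin.toFinset.card : ℝ≥0∞) *
        ∫⁻ p, ENNReal.ofReal |avg G f T p.1 p.2 - mean D G f| ∂(muD D G) := by
    intro T
    have hHm : Measurable fun p : Pl × ℂ => ENNReal.ofReal |avg G f T p.1 p.2 - mean D G f| :=
      (((M6_avg h hf T).sub continuous_const).abs.measurable).ennreal_ofReal
    have hFm : Measurable ((N ×ˢ (univ : Set ℂ)).indicator fun _ : Pl × ℂ => (1 : ℝ≥0∞)) :=
      measurable_const.indicator hNm
    have hinv : ∀ (g : Γ) (p : Pl × ℂ),
        (fun p : Pl × ℂ => ENNReal.ofReal |avg G f T p.1 p.2 - mean D G f|) (act G g p) =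
          (fun p : Pl × ℂ => ENNReal.ofReal |avg G f T p.1 p.2 - mean D G f|) p := by
      intro g p
      show ENNReal.ofReal |avg G f T (g • p.1) (G.R g p.1 * p.2) - mean D G f| = _
      rw [avg_smul h hi]
    have h1 := unfoldS hX h hFm hHm hinv
    have h2 : ∫⁻ p in N ×ˢ univ, ENNReal.ofReal |avg G f T p.1 p.2 - mean D G f| ∂(muS G) =
        ∫⁻ p, (N ×ˢ (univ : Set ℂ)).indicator (fun _ : Pl × ℂ => (1 : ℝ≥0∞)) p *
          ENNReal.ofReal |avg G f T p.1 p.2 - mean D G f| ∂(muS G) := by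
      rw [← lintegral_indicator hNm]
      refine lintegral_congr fun p => ?_
      by_cases hp : p ∈ N ×ˢ (univ : Set ℂ)
      · rw [indicator_of_mem hp, indicator_of_mem hp, one_mul]
      · rw [indicator_of_notMem hp, indicator_of_notMem hp, zero_mul]
    rw [h2, h1, ← lintegral_const_mul _ hHm]
    unfold muD
    refine setLIntegral_mono' hDm fun p hp => mul_le_mul_left ?_ _
    have h3 : ∀ g ∉ hfin.toFinset,
        (N ×ˢ (univ : Set ℂ)).indicator (fun _ : Pl × ℂ => (1 : ℝ≥0∞)) (act G g p) = 0 := by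
      intro g hg
      refine indicator_of_notMem (fun hmem => hg ?_) _
      rw [Set.Finite.mem_toFinset]
      exact ⟨p.1, subset_closure hp.1, hmem.1⟩
    rw [tsum_eq_sum h3]
    have h4 : ∀ g ∈ hfin.toFinset,
        (N ×ˢ (univ : Set ℂ)).indicator (fun _ : Pl × ℂ => (1 : ℝ≥0∞)) (act G g p) ≤ 1 := by
      intro g _
      by_cases hg : act G g p ∈ N ×ˢ (univ : Set ℂ)
      · rw [indicator_of_mem hg]
      · rw [indicator_of_notMem hg]
        exact bot_le
    refine (Finset.sum_le_card_nsmul _ _ 1 h4).trans (le_of_eq ?_)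
    rw [nsmul_eq_mul, mul_one]
  have h0 : Tendsto (fun T : ℝ => (hfin.toFinset.card : ℝ≥0∞) *
      ∫⁻ p, ENNReal.ofReal |avg G f T p.1 p.2 - mean D G f| ∂(muD D G)) atTop (𝓝 0) := by
    have h1 := ENNReal.Tendsto.const_mul (a := (hfin.toFinset.card : ℝ≥0∞))
      (mean_erg hX h hf hi) (Or.inr (ENNReal.natCast_ne_top _))
    rwa [mul_zero] at h1
  exact tendsto_of_tendsto_of_tendsto_of_le_of_le tendsto_const_nhds h0 (fun _ => bot_le) hmain

/-- Sum over the group of a function of a vector, as a function of two points. -/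
noncomputable def persum (G : Dat Γ) (b : Pl → ℂ → ℝ) (x y : Pl) : ℝ :=
  ∑ᶠ g : Γ, b (g • x) (G.V (g • x) (g • y))

theorem persum_cont (hX : Surface Γ D) (h : HG D G) {b : Pl → ℂ → ℝ}
    (hb : Continuous fun q : Pl × ℂ => b q.1 q.2) {N : Set Pl} (hN : IsCompact N)
    (hbN : ∀ x ∉ N, ∀ u, b x u = 0) : Continuous fun q : Pl × Pl => persum G b q.1 q.2 := by
  unfold persum
  refine continuous_finsum (fun g => ?_) fun q => ?_
  · have hg : Continuous fun z : Pl => g • z := (hX.smooth g).continuous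
    have h1 : Continuous fun q : Pl × Pl => g • q.1 := hg.comp continuous_fst
    have h2 : Continuous fun q : Pl × Pl => g • q.2 := hg.comp continuous_snd
    exact hb.comp (h1.prodMk (h.V_cont.comp (h1.prodMk h2)))
  · refine ⟨Metric.closedBall q.1 1 ×ˢ univ,
      prod_mem_nhds (Metric.closedBall_mem_nhds _ one_pos) univ_mem, ?_⟩
    refine (M6_fin hX (isCompact_closedBall q.1 1) hN).subset ?_
    rintro g ⟨z, hz, hzt⟩
    refine ⟨z.1, hzt.1, ?_⟩
    by_contra hn
    exact hz (hbN _ hn _)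

theorem persum_inv (G : Dat Γ) (b : Pl → ℂ → ℝ) (g : Γ) (x y : Pl) :
    persum G b (g • x) (g • y) = persum G b x y := by
  unfold persum
  have h1 := finsum_comp_equiv (Equiv.mulRight g)
    (f := fun g' : Γ => b (g' • x) (G.V (g' • x) (g' • y)))
  rw [← h1]
  refine finsum_congr fun g' => ?_
  show b (g' • g • x) (G.V (g' • g • x) (g' • g • y)) =
    b ((g' * g) • x) (G.V ((g' * g) • x) ((g' * g) • y))
  rw [mul_smul, mul_smul]

private theorem M6_sum (hX : Surface Γ D) {b : Pl → ℂ → ℝ} (hb0 : ∀ x u, 0 ≤ b x u)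
    {N : Set Pl} (hN : IsCompact N) (hbN : ∀ x ∉ N, ∀ u, b x u = 0) (x : Pl) (w : Γ → ℂ) :
    ENNReal.ofReal (∑ᶠ g : Γ, b (g • x) (w g)) = ∑' g : Γ, ENNReal.ofReal (b (g • x) (w g)) := by
  have hfin : {g : Γ | ∃ z ∈ ({x} : Set Pl), g • z ∈ N}.Finite :=
    M6_fin hX isCompact_singleton hN
  have hz : ∀ g ∉ hfin.toFinset, b (g • x) (w g) = 0 := by
    intro g hg
    refine hbN _ (fun hmem => hg ?_) _
    rw [Set.Finite.mem_toFinset]
    exact ⟨x, rfl, hmem⟩
  have h1 : ∑ᶠ g : Γ, b (g • x) (w g) = ∑ g ∈ hfin.toFinset, b (g • x) (w g) := by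
    refine finsum_eq_sum_of_support_subset _ fun g hg => ?_
    by_contra hn
    exact hg (hz g hn)
  rw [h1, ENNReal.ofReal_sum_of_nonneg fun g _ => hb0 _ _]
  refine (tsum_eq_sum fun g hg => ?_).symm
  rw [hz g hg, ENNReal.ofReal_zero]

/-- Along the flow: the sum over the group of `b` at the moved vector. -/
theorem persum_phi (hX : Surface Γ D) (h : HG D G) {b : Pl → ℂ → ℝ} (hb0 : ∀ x u, 0 ≤ b x u)
    {N : Set Pl} (hN : IsCompact N) (hbN : ∀ x ∉ N, ∀ u, b x u = 0) {p : Pl × ℂ}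
    (hp : ‖p.2‖ = 1) (s : ℝ) :
    ENNReal.ofReal (persum G b (G.E p.1 ((s : ℂ) * p.2)) (G.E p.1 (((s + 1 : ℝ) : ℂ) * p.2))) =
      ∑' g : Γ, ENNReal.ofReal (b (act G g (phi G s p)).1 (act G g (phi G s p)).2) := by
  unfold persum
  rw [M6_sum hX hb0 hN hbN]
  refine tsum_congr fun g => ?_
  rw [h.V_smul]
  rfl

theorem persum_mean (hX : Surface Γ D) (h : HG D G) {b : Pl → ℂ → ℝ}
    (hb : Continuous fun q : Pl × ℂ => b q.1 q.2) (hb0 : ∀ x u, 0 ≤ b x u) {N : Set Pl}
    (hN : IsCompact N) (hbN : ∀ x ∉ N, ∀ u, b x u = 0) :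
    mean D G (persum G b) = (1 / (2 * Real.pi)) * ∫ p, b p.1 p.2 ∂(muS G) := by
  unfold mean
  congr 1
  have hE : Continuous fun p : Pl × ℂ => G.E p.1 p.2 := h.E_cont
  have hcont : Continuous fun p : Pl × ℂ => persum G b p.1 (G.E p.1 p.2) :=
    (persum_cont hX h hb hN hbN).comp (continuous_fst.prodMk hE)
  have hp0 : ∀ x y, 0 ≤ persum G b x y := fun x y => finsum_nonneg fun g => hb0 _ _
  rw [integral_eq_lintegral_of_nonneg_ae (Eventually.of_forall fun p => hp0 _ _)
    hcont.aestronglyMeasurable, integral_eq_lintegral_of_nonneg_ae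
    (Eventually.of_forall fun p => hb0 _ _) hb.aestronglyMeasurable]
  congr 1
  have hFm : Measurable fun p : Pl × ℂ => ENNReal.ofReal (b p.1 p.2) :=
    hb.measurable.ennreal_ofReal
  have h1 := unfoldS hX h hFm (H := fun _ => 1) measurable_const fun _ _ => rfl
  simp only [mul_one] at h1
  rw [h1]
  unfold muD
  refine lintegral_congr fun p => ?_
  have h2 : persum G b p.1 (G.E p.1 p.2) = ∑ᶠ g : Γ, b (g • p.1) (G.R g p.1 * p.2) := by
    unfold persum
    refine finsum_congr fun g => ?_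
    rw [h.V_smul, h.VE]
  rw [h2, M6_sum hX hb0 hN hbN]
  rfl

end SR85
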