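import Pool.Agent.LibSR85.M6

/-! Row SR85 M7 (STRONG): equidistribution for kernels of two vectors.

`WK G K T = ∑_g ∫_0^T ∫ K (p, g⁻¹ phi_s p) dmuS ds`; `K ≥ 0` continuous, zero unless both base
points are in the compact set `N`.

PLAN. Product case first: for `A : Pl × ℂ → [0, 1]` measurable, zero off `N`, and `b ≥ 0`
continuous, zero off `N`: `∑_g ∫_0^T ∫ A p * b (g⁻¹ phi_s p) = T ∫ A p * avg (persum b) T p`
(`persum_phi`, reindex `g ↦ g⁻¹`; Tonelli; `avg` is `1/T` times the integral over `[0, T]`), and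
`|∫ A (avg - mean)| ≤ ∫_N |avg - mean| → 0` (`mean_erg_N`), `mean = (1 / 2 π) ∫ b` (`persum_mean`).
So the claim holds for `K = A ⊗ b`, with limit `(1 / 2 π) (∫ A) (∫ b)`, and for finite sums.
General case: let `β ≥ 0` be continuous with compact support, `β = 1` on `N`. Given `ε > 0`, by
uniform continuity of `K` on `N × S¹ × N × S¹` (compact) there is a finite measurable partition
`Q j` of `N ×ˢ sphere 0 1` and points `v j ∈ Q j` with `|K p q - K (v j) q| ≤ ε β q.1` for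
`p ∈ Q j`, `‖q.2‖ = 1`. Hence `∑ 1_{Q j} ⊗ K (v j)` and `K` differ by at most `ε 1_N ⊗ β`:
`WK K ≤ WK (∑ ..) + ε WK (1_N ⊗ β)` and conversely; divide by `T`, `T → ∞`, then `ε → 0`. -/

open MeasureTheory Set Filter Topology
open scoped ContDiff ENNReal NNReal ComplexConjugate

namespace SR85

open BGS (Pl Surface)

variable {Γ : Type} [Group Γ] [MulAction Γ Pl] {D : Set Pl} {G : Dat Γ}

/-- Sum over the group of the kernel `K` along the flow. -/
noncomputable def WK (G : Dat Γ) (K : Pl × ℂ → Pl × ℂ → ℝ) (T : ℝ) : ℝ≥0∞ :=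
  ∑' g : Γ, ∫⁻ s in Ioc (0 : ℝ) T, ∫⁻ p,
    ENNReal.ofReal (K p (act G g⁻¹ (phi G s p))) ∂(muS G)

theorem M7_count (hX : Surface Γ D) : Countable Γ := by
  have h1 : (univ : Set Γ) ⊆ ⋃ n : ℕ, {g : Γ | ∃ z ∈ Metric.closedBall (0 : Pl) n,
      g • z ∈ Metric.closedBall (0 : Pl) n} := by
    intro g _
    obtain ⟨n, hn⟩ := exists_nat_ge (dist (g • (0 : Pl)) 0)
    refine mem_iUnion.mpr ⟨n, (0 : Pl), ?_, ?_⟩
    · exact Metric.mem_closedBall_self (Nat.cast_nonneg n)
    · exact hn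
  have h2 : (⋃ n : ℕ, {g : Γ | ∃ z ∈ Metric.closedBall (0 : Pl) n,
      g • z ∈ Metric.closedBall (0 : Pl) n}).Countable :=
    countable_iUnion fun n => (hX.proper _ (isCompact_closedBall _ _)).countable
  exact countable_univ_iff.mp (h2.mono h1)

instance M7_sfin (G : Dat Γ) : SFinite (muS G) := by
  unfold muS
  infer_instance

/-- A functional on kernels. -/
noncomputable def M7_F {ι S : Type} [MeasurableSpace S] (G : Dat Γ) (ν : Measure S)
    (φ : ι → S → Pl × ℂ → Pl × ℂ) (k : Pl × ℂ → Pl × ℂ → ℝ≥0∞) : ℝ≥0∞ :=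
  ∑' i, ∫⁻ s, ∫⁻ p, k p (φ i s p) ∂(muS G) ∂ν

/-- What we need to know about it. -/
structure M7_OK {ι S : Type} [MeasurableSpace S] (ν : Measure S)
    (φ : ι → S → Pl × ℂ → Pl × ℂ) : Prop where
  meas : ∀ i, Measurable fun q : S × (Pl × ℂ) => φ i q.1 q.2
  unit : ∀ i, ∀ᵐ s ∂ν, ∀ p : Pl × ℂ, ‖p.2‖ = 1 → ‖(φ i s p).2‖ = 1

section functional

variable {ι S : Type} [MeasurableSpace S] {ν : Measure S} {φ : ι → S → Pl × ℂ → Pl × ℂ}

theorem M7_mono (G : Dat Γ) (hφ : M7_OK ν φ) {k k' : Pl × ℂ → Pl × ℂ → ℝ≥0∞}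
    (hk : ∀ p q : Pl × ℂ, ‖p.2‖ = 1 → ‖q.2‖ = 1 → k p q ≤ k' p q) :
    M7_F G ν φ k ≤ M7_F G ν φ k' := by
  refine ENNReal.tsum_le_tsum fun i => lintegral_mono_ae ?_
  filter_upwards [hφ.unit i] with s hs
  apply lintegral_mono_ae
  filter_upwards [muS_unit G] with p hp
  exact hk p _ hp (hs p hp)

theorem M7_add (G : Dat Γ) (hφ : M7_OK ν φ) {k k' : Pl × ℂ → Pl × ℂ → ℝ≥0∞}
    (hk : Measurable fun q : (Pl × ℂ) × (Pl × ℂ) => k q.1 q.2) :
    M7_F G ν φ (fun p q => k p q + k' p q) = M7_F G ν φ k + M7_F G ν φ k' := by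
  unfold M7_F
  rw [← ENNReal.tsum_add]
  congr 1
  funext i
  have h1 : Measurable fun q : S × (Pl × ℂ) => k q.2 (φ i q.1 q.2) :=
    hk.comp (measurable_snd.prodMk (hφ.meas i))
  rw [← lintegral_add_left h1.lintegral_prod_right']
  congr 1
  funext s
  exact lintegral_add_left (h1.comp measurable_prodMk_left) _

theorem M7_smul (G : Dat Γ) (hφ : M7_OK ν φ) (c : ℝ≥0∞) {k : Pl × ℂ → Pl × ℂ → ℝ≥0∞}
    (hk : Measurable fun q : (Pl × ℂ) × (Pl × ℂ) => k q.1 q.2) :
    M7_F G ν φ (fun p q => c * k p q) = c * M7_F G ν φ k := by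
  unfold M7_F
  rw [← ENNReal.tsum_mul_left]
  congr 1
  funext i
  have h1 : Measurable fun q : S × (Pl × ℂ) => k q.2 (φ i q.1 q.2) :=
    hk.comp (measurable_snd.prodMk (hφ.meas i))
  rw [← lintegral_const_mul _ h1.lintegral_prod_right']
  congr 1
  funext s
  exact lintegral_const_mul _ (h1.comp measurable_prodMk_left)

theorem M7_sum (G : Dat Γ) (hφ : M7_OK ν φ) {α : Type} (t : Finset α)
    {k : α → Pl × ℂ → Pl × ℂ → ℝ≥0∞}
    (hk : ∀ v, Measurable fun q : (Pl × ℂ) × (Pl × ℂ) => k v q.1 q.2) :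
    M7_F G ν φ (fun p q => ∑ v ∈ t, k v p q) = ∑ v ∈ t, M7_F G ν φ (k v) := by
  classical
  induction t using Finset.induction_on with
  | empty => simp [M7_F]
  | insert a t ha ih =>
    rw [Finset.sum_insert ha, ← ih, ← M7_add G hφ (hk a)]
    congr 1
    funext p q
    rw [Finset.sum_insert ha]

end functional

/-- A measurable choice of a nearby point of a finite set. -/
theorem M7_part (t : Finset (Pl × ℂ)) (δ : ℝ) :
    ∃ (j : Pl × ℂ → Pl × ℂ) (s : Finset (Pl × ℂ)), (∀ p, j p ∈ s) ∧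
      (∀ v, MeasurableSet {p | j p = v}) ∧
      ∀ p, (∃ v ∈ t, dist p v < δ) → j p ∈ t ∧ dist p (j p) < δ := by
  classical
  induction t using Finset.induction_on with
  | empty =>
    refine ⟨fun _ => 0, {0}, fun p => Finset.mem_singleton_self _, fun v => ?_, ?_⟩
    · exact MeasurableSet.const _
    · rintro p ⟨v, hv, _⟩
      exact absurd hv (Finset.notMem_empty v)
  | insert a t ha ih =>
    obtain ⟨j, s, h1, h2, h3⟩ := ih
    have hb : MeasurableSet {p : Pl × ℂ | dist p a < δ} := by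
      have : IsOpen {p : Pl × ℂ | dist p a < δ} :=
        isOpen_lt (continuous_id.dist continuous_const) continuous_const
      exact this.measurableSet
    refine ⟨fun p => if dist p a < δ then a else j p, insert a s, fun p => ?_, fun v => ?_, ?_⟩
    · show (if dist p a < δ then a else j p) ∈ insert a s
      split_ifs
      · exact Finset.mem_insert_self _ _
      · exact Finset.mem_insert_of_mem (h1 p)
    · have : {p : Pl × ℂ | (if dist p a < δ then a else j p) = v} =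
          ({p : Pl × ℂ | dist p a < δ} ∩ {_p : Pl × ℂ | a = v}) ∪
          ({p : Pl × ℂ | dist p a < δ}ᶜ ∩ {p | j p = v}) := by
        ext p
        simp only [Set.mem_ofPred_eq, mem_union, mem_inter_iff, mem_compl_iff]
        by_cases hp : dist p a < δ
        · simp [hp]
        · simp [hp]
      rw [this]
      exact (hb.inter (MeasurableSet.const _)).union (hb.compl.inter (h2 v))
    · rintro p ⟨v, hv, hpv⟩
      show (if dist p a < δ then a else j p) ∈ insert a t ∧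
        dist p (if dist p a < δ then a else j p) < δ
      split_ifs with hp
      · exact ⟨Finset.mem_insert_self _ _, hp⟩
      · rcases Finset.mem_insert.mp hv with rfl | hv
        · exact absurd hpv hp
        · have := h3 p ⟨v, hv, hpv⟩
          exact ⟨Finset.mem_insert_of_mem this.1, this.2⟩

theorem M7_unit (h : HG D G) (g : Γ) (s : ℝ) {p : Pl × ℂ} (hp : ‖p.2‖ = 1) :
    ‖(act G g (phi G s p)).2‖ = 1 := by
  show ‖G.R g _ * G.dr p.1 p.2 s‖ = 1
  rw [norm_mul, h.R_norm, h.dr_norm p.1 p.2 hp, one_mul]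

theorem M7_okW (hX : Surface Γ D) (h : HG D G) (T : ℝ) :
    M7_OK ((volume : Measure ℝ).restrict (Ioc (0 : ℝ) T))
      (fun (g : Γ) (s : ℝ) (p : Pl × ℂ) => act G g⁻¹ (phi G s p)) where
  meas g := (act_meas hX h g⁻¹).comp (phi_cont h).measurable
  unit g := Eventually.of_forall fun s p hp => M7_unit h g⁻¹ s hp

theorem M7_okL (G : Dat Γ) (c : ℝ≥0∞) :
    M7_OK (c • muS G) (fun (_ : Unit) (q : Pl × ℂ) (_ : Pl × ℂ) => q) where
  meas _ := measurable_fst
  unit _ := by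
    have h1 : ∀ᵐ q ∂(c • muS G), ‖q.2‖ = 1 := Measure.ae_smul_measure (muS_unit G) c
    filter_upwards [h1] with q hq _ _
    exact hq

theorem M7_prod_eq (hX : Surface Γ D) (h : HG D G) {A : Pl × ℂ → ℝ≥0∞} (hA : Measurable A)
    {b : Pl → ℂ → ℝ} (hb : Continuous fun q : Pl × ℂ => b q.1 q.2) (hb0 : ∀ x u, 0 ≤ b x u)
    {N : Set Pl} (hN : IsCompact N) (hbN : ∀ x ∉ N, ∀ u, b x u = 0) {T : ℝ} (hT : 0 ≤ T) :
    M7_F G ((volume : Measure ℝ).restrict (Ioc (0 : ℝ) T))
      (fun (g : Γ) (s : ℝ) (p : Pl × ℂ) => act G g⁻¹ (phi G s p))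
      (fun p q => A p * ENNReal.ofReal (b q.1 q.2)) =
    ∫⁻ p, A p * ENNReal.ofReal (T * avg G (persum G b) T p.1 p.2) ∂(muS G) := by
  have hcΓ := M7_count hX
  have hbm : Measurable fun q : Pl × ℂ => ENNReal.ofReal (b q.1 q.2) :=
    (ENNReal.continuous_ofReal.comp hb).measurable
  have hm : ∀ g : Γ, Measurable fun q : ℝ × (Pl × ℂ) =>
      ENNReal.ofReal (b (act G g (phi G q.1 q.2)).1 (act G g (phi G q.1 q.2)).2) :=
    fun g => hbm.comp ((act_meas hX h g).comp (phi_cont h).measurable)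
  have h1 : ∀ g : Γ, ∫⁻ s in Ioc (0 : ℝ) T, ∫⁻ p, A p *
      ENNReal.ofReal (b (act G g⁻¹ (phi G s p)).1 (act G g⁻¹ (phi G s p)).2) ∂(muS G) =
      ∫⁻ p, A p * (∫⁻ s in Ioc (0 : ℝ) T,
        ENNReal.ofReal (b (act G g⁻¹ (phi G s p)).1 (act G g⁻¹ (phi G s p)).2)) ∂(muS G) := by
    intro g
    rw [lintegral_lintegral_swap]
    · congr 1
      funext p
      exact lintegral_const_mul _ ((hm g⁻¹).comp measurable_prodMk_right)
    · exact ((hA.comp measurable_snd).mul (hm g⁻¹)).aemeasurable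
  unfold M7_F
  rw [tsum_congr h1, ← lintegral_tsum (fun g => ?_)]
  · apply lintegral_congr_ae
    filter_upwards [muS_unit G] with p hp
    rw [ENNReal.tsum_mul_left]
    congr 1
    have hm2 : ∀ g : Γ, Measurable fun s : ℝ =>
        ENNReal.ofReal (b (act G g⁻¹ (phi G s p)).1 (act G g⁻¹ (phi G s p)).2) :=
      fun g => (hm g⁻¹).comp measurable_prodMk_right
    rw [← lintegral_tsum (fun g => (hm2 g).aemeasurable)]
    have h2 : ∀ s : ℝ, ∑' g : Γ,
        ENNReal.ofReal (b (act G g⁻¹ (phi G s p)).1 (act G g⁻¹ (phi G s p)).2) =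
        ENNReal.ofReal (persum G b (G.E p.1 ((s : ℂ) * p.2))
          (G.E p.1 (((s + 1 : ℝ) : ℂ) * p.2))) := by
      intro s
      rw [persum_phi hX h hb0 hN hbN hp s]
      exact (Equiv.inv Γ).tsum_eq (fun g => ENNReal.ofReal
        (b (act G g (phi G s p)).1 (act G g (phi G s p)).2))
    simp_rw [h2]
    have hc := M5_cont' h (persum_cont hX h hb hN hbN) p.1 p.2
    rw [← ofReal_integral_eq_lintegral_ofReal
      ((hc.integrableOn_Icc (a := 0) (b := T)).mono_set Ioc_subset_Icc_self)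
      (Eventually.of_forall fun s => finsum_nonneg fun g => hb0 _ _)]
    congr 1
    unfold avg
    rw [intervalIntegral.integral_of_le hT]
    rcases hT.eq_or_lt with rfl | hT0
    · simp
    · rw [← mul_assoc, mul_one_div, div_self hT0.ne', one_mul]
  · exact (hA.mul ((hm g⁻¹).comp measurable_swap).lintegral_prod_right').aemeasurable

theorem M7_int (h : HG D G)
    {b : Pl → ℂ → ℝ} (hb : Continuous fun q : Pl × ℂ => b q.1 q.2)
    {N : Set Pl} (hN : IsCompact N) (hbN : ∀ x ∉ N, ∀ u, b x u = 0) :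
    Integrable (fun q : Pl × ℂ => b q.1 q.2) (muS G) := by
  obtain ⟨C, hC⟩ := (hN.prod (isCompact_sphere (0 : ℂ) 1)).exists_bound_of_continuousOn
    hb.continuousOn
  have h1 : IntegrableOn (fun q : Pl × ℂ => b q.1 q.2) (N ×ˢ univ) (muS G) := by
    refine Measure.integrableOn_of_bounded (M := C) (muS_fin h hN).ne
      hb.aestronglyMeasurable ?_
    have hm : MeasurableSet (N ×ˢ (univ : Set ℂ)) := hN.measurableSet.prod MeasurableSet.univ
    filter_upwards [ae_restrict_of_ae (muS_unit G), ae_restrict_mem hm] with q h2 h3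
    exact hC q ⟨h3.1, mem_sphere_zero_iff_norm.mpr h2⟩
  refine h1.integrable_of_forall_notMem_eq_zero fun q hq => hbN q.1 (fun h2 => hq ⟨h2, mem_univ _⟩) _

theorem M7_prod_lim (hX : Surface Γ D) (h : HG D G) {A : Pl × ℂ → ℝ≥0∞} (hA : Measurable A)
    (hA1 : ∀ p, A p ≤ 1) {M : Set Pl} (hM : IsCompact M) (hAM : ∀ p, p.1 ∉ M → A p = 0)
    {b : Pl → ℂ → ℝ} (hb : Continuous fun q : Pl × ℂ => b q.1 q.2) (hb0 : ∀ x u, 0 ≤ b x u)
    {N : Set Pl} (hN : IsCompact N) (hbN : ∀ x ∉ N, ∀ u, b x u = 0) :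
    Tendsto (fun T : ℝ => M7_F G ((volume : Measure ℝ).restrict (Ioc (0 : ℝ) T))
      (fun (g : Γ) (s : ℝ) (p : Pl × ℂ) => act G g⁻¹ (phi G s p))
      (fun p q => A p * ENNReal.ofReal (b q.1 q.2)) / ENNReal.ofReal T) atTop
      (𝓝 (M7_F G (ENNReal.ofReal (1 / (2 * Real.pi)) • muS G)
        (fun (_ : Unit) (q : Pl × ℂ) (_ : Pl × ℂ) => q)
        (fun p q => A p * ENNReal.ofReal (b q.1 q.2)))) ∧
      M7_F G (ENNReal.ofReal (1 / (2 * Real.pi)) • muS G)
        (fun (_ : Unit) (q : Pl × ℂ) (_ : Pl × ℂ) => q)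
        (fun p q => A p * ENNReal.ofReal (b q.1 q.2)) < ⊤ ∧
      ∀ T : ℝ, M7_F G ((volume : Measure ℝ).restrict (Ioc (0 : ℝ) T))
      (fun (g : Γ) (s : ℝ) (p : Pl × ℂ) => act G g⁻¹ (phi G s p))
      (fun p q => A p * ENNReal.ofReal (b q.1 q.2)) < ⊤ := by
  have hpc := persum_cont hX h hb hN hbN
  have hpi := persum_inv G b
  have hbm : Measurable fun q : Pl × ℂ => ENNReal.ofReal (b q.1 q.2) :=
    (ENNReal.continuous_ofReal.comp hb).measurable
  have hMm : MeasurableSet (M ×ˢ (univ : Set ℂ)) := hM.measurableSet.prod MeasurableSet.univ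
  have hAχ : ∀ p, A p ≤ (M ×ˢ (univ : Set ℂ)).indicator 1 p := by
    intro p
    by_cases hp : p.1 ∈ M
    · rw [Set.indicator_of_mem (show p ∈ M ×ˢ (univ : Set ℂ) from ⟨hp, mem_univ _⟩)]
      exact hA1 p
    · rw [hAM p hp]
      exact zero_le
  have hAI : ∫⁻ p, A p ∂(muS G) < ⊤ := by
    refine lt_of_le_of_lt (lintegral_mono hAχ) ?_
    rw [lintegral_indicator_one hMm]
    exact muS_fin h hM
  have hbI : ∫⁻ q, ENNReal.ofReal (b q.1 q.2) ∂(muS G) =
      ENNReal.ofReal (∫ q, b q.1 q.2 ∂(muS G)) :=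
    (ofReal_integral_eq_lintegral_ofReal (M7_int h hb hN hbN)
      (Eventually.of_forall fun q => hb0 _ _)).symm
  have hL : M7_F G (ENNReal.ofReal (1 / (2 * Real.pi)) • muS G)
        (fun (_ : Unit) (q : Pl × ℂ) (_ : Pl × ℂ) => q)
        (fun p q => A p * ENNReal.ofReal (b q.1 q.2)) =
      (∫⁻ p, A p ∂(muS G)) * ENNReal.ofReal (mean D G (persum G b)) := by
    unfold M7_F
    rw [tsum_fintype, Finset.univ_unique, Finset.sum_singleton, lintegral_smul_measure]
    have h2 : ∀ q : Pl × ℂ, ∫⁻ p, A p * ENNReal.ofReal (b q.1 q.2) ∂(muS G) =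
        (∫⁻ p, A p ∂(muS G)) * ENNReal.ofReal (b q.1 q.2) := fun q => lintegral_mul_const _ hA
    simp_rw [h2]
    rw [lintegral_const_mul _ hbm, hbI, persum_mean hX h hb hb0 hN hbN,
      ENNReal.ofReal_mul (by positivity), smul_eq_mul]
    ring
  have hLt : (∫⁻ p, A p ∂(muS G)) * ENNReal.ofReal (mean D G (persum G b)) < ⊤ :=
    ENNReal.mul_lt_top hAI ENNReal.ofReal_lt_top
  have havm : ∀ T : ℝ, Measurable fun p : Pl × ℂ =>
      ENNReal.ofReal (avg G (persum G b) T p.1 p.2) := fun T =>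
    (ENNReal.continuous_ofReal.comp (avg_cont h hpc T)).measurable
  have hAm : ∀ T : ℝ, Measurable fun p : Pl × ℂ =>
      A p * ENNReal.ofReal (avg G (persum G b) T p.1 p.2) := fun T => hA.mul (havm T)
  refine ⟨?_, by rw [hL]; exact hLt, fun T => ?_⟩
  · rw [hL]
    have he := mean_erg_N hX h hpc hpi hM
    set m : ℝ := mean D G (persum G b) with hm
    set c : ℝ≥0∞ := (∫⁻ p, A p ∂(muS G)) * ENNReal.ofReal m with hc
    set e : ℝ → ℝ≥0∞ := fun T => ∫⁻ p in M ×ˢ univ,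
      ENNReal.ofReal |avg G (persum G b) T p.1 p.2 - m| ∂(muS G) with hedef
    set a : ℝ → ℝ≥0∞ := fun T => ∫⁻ p, A p *
      ENNReal.ofReal (avg G (persum G b) T p.1 p.2) ∂(muS G) with ha
    have hcI : c = ∫⁻ p, A p * ENNReal.ofReal m ∂(muS G) := (lintegral_mul_const _ hA).symm
    have heI : ∀ T, e T = ∫⁻ p, (M ×ˢ (univ : Set ℂ)).indicator
        (fun p : Pl × ℂ => ENNReal.ofReal |avg G (persum G b) T p.1 p.2 - m|) p ∂(muS G) :=
      fun T => (lintegral_indicator hMm _).symm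
    have hpt : ∀ (v w : ℝ) (p : Pl × ℂ), A p * ENNReal.ofReal v ≤ A p * ENNReal.ofReal w +
        (M ×ˢ (univ : Set ℂ)).indicator (fun _ => ENNReal.ofReal |v - w|) p := by
      intro v w p
      have h3 : ENNReal.ofReal v ≤ ENNReal.ofReal w + ENNReal.ofReal |v - w| := by
        refine le_trans (ENNReal.ofReal_le_ofReal ?_) ENNReal.ofReal_add_le
        linarith [le_abs_self (v - w)]
      refine (mul_le_mul_right h3 (A p)).trans ?_
      rw [mul_add]
      gcongr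
      by_cases hp : p.1 ∈ M
      · rw [Set.indicator_of_mem (show p ∈ M ×ˢ (univ : Set ℂ) from ⟨hp, mem_univ _⟩)]
        calc A p * ENNReal.ofReal |v - w| ≤ 1 * ENNReal.ofReal |v - w| := by
              gcongr
              exact hA1 p
          _ = _ := one_mul _
      · rw [hAM p hp, zero_mul]
        exact zero_le
    have hup : ∀ T, a T ≤ c + e T := by
      intro T
      rw [hcI, heI, ← lintegral_add_left (hA.mul_const _)]
      exact lintegral_mono fun p => hpt _ _ p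
    have hlo : ∀ T, c ≤ a T + e T := by
      intro T
      rw [hcI, heI, ← lintegral_add_left (hAm T)]
      refine lintegral_mono fun p => ?_
      refine (hpt m (avg G (persum G b) T p.1 p.2) p).trans (le_of_eq ?_)
      congr 1
      by_cases hp : p ∈ M ×ˢ (univ : Set ℂ)
      · rw [Set.indicator_of_mem hp, Set.indicator_of_mem hp, abs_sub_comm]
      · rw [Set.indicator_of_notMem hp, Set.indicator_of_notMem hp]
    have hat : Tendsto a atTop (𝓝 c) := by
      have h4 : Tendsto (fun T => c + e T) atTop (𝓝 c) := by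
        have := tendsto_const_nhds (x := c) (f := atTop (α := ℝ)) |>.add he
        rwa [add_zero] at this
      have h5 : Tendsto (fun T => c - e T) atTop (𝓝 c) := by
        have := ENNReal.Tendsto.sub (tendsto_const_nhds (x := c) (f := atTop (α := ℝ))) he
          (Or.inl hLt.ne)
        rwa [tsub_zero] at this
      exact tendsto_of_tendsto_of_tendsto_of_le_of_le h5 h4
        (fun T => tsub_le_iff_right.mpr (hlo T)) hup
    refine hat.congr' ?_
    filter_upwards [eventually_gt_atTop 0] with T hT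
    rw [M7_prod_eq hX h hA hb hb0 hN hbN hT.le]
    have h6 : ∀ p : Pl × ℂ, A p * ENNReal.ofReal (T * avg G (persum G b) T p.1 p.2) =
        ENNReal.ofReal T * (A p * ENNReal.ofReal (avg G (persum G b) T p.1 p.2)) := by
      intro p
      rw [ENNReal.ofReal_mul hT.le]
      ring
    simp_rw [h6]
    rw [lintegral_const_mul _ (hAm T), mul_comm,
      ENNReal.mul_div_cancel_right (ENNReal.ofReal_pos.mpr hT).ne' ENNReal.ofReal_ne_top]
  · rcases lt_or_ge T 0 with hT | hT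
    · unfold M7_F
      rw [Ioc_eq_empty (by linarith), Measure.restrict_empty]
      simp
    · rw [M7_prod_eq hX h hA hb hb0 hN hbN hT]
      obtain ⟨B, hB, hbd⟩ := bdd hX h hpc hpi
      have h7 : ∫⁻ p, A p * ENNReal.ofReal (T * avg G (persum G b) T p.1 p.2) ∂(muS G) ≤
          ∫⁻ p, A p * ENNReal.ofReal (T * B) ∂(muS G) := by
        apply lintegral_mono_ae
        filter_upwards [muS_unit G] with p hp
        gcongr
        exact (le_abs_self _).trans (E5_avg_le h hB hbd T p.1 hp)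
      refine lt_of_le_of_lt h7 ?_
      rw [lintegral_mul_const _ hA]
      exact ENNReal.mul_lt_top hAI ENNReal.ofReal_lt_top

theorem M7_approx {K : Pl × ℂ → Pl × ℂ → ℝ}
    (hK : Continuous fun q : (Pl × ℂ) × (Pl × ℂ) => K q.1 q.2)
    {N : Set Pl} (hN : IsCompact N) (hKN : ∀ p q, K p q ≠ 0 → p.1 ∈ N ∧ q.1 ∈ N)
    {β : Pl → ℝ} (hβ1 : ∀ x ∈ N, β x = 1) (hβ0 : ∀ x, 0 ≤ β x) {ε : ℝ} (hε : 0 < ε) :
    ∃ (j : Pl × ℂ → Pl × ℂ) (s : Finset (Pl × ℂ)), (∀ p, j p ∈ s) ∧
      (∀ v, MeasurableSet {p | j p = v}) ∧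
      ∀ p q : Pl × ℂ, ‖p.2‖ = 1 → ‖q.2‖ = 1 → p.1 ∈ N → |K p q - K (j p) q| ≤ ε * β q.1 := by
  set X : Set (Pl × ℂ) := N ×ˢ Metric.sphere (0 : ℂ) 1 with hXdef
  have hX : IsCompact X := hN.prod (isCompact_sphere (0 : ℂ) 1)
  have hu := (hX.prod hX).uniformContinuousOn_of_continuous hK.continuousOn
  rw [Metric.uniformContinuousOn_iff] at hu
  obtain ⟨δ, hδ, hu⟩ := hu ε hε
  obtain ⟨t, htX, htf, hcov⟩ := hX.finite_cover_balls hδ
  obtain ⟨j, s, h1, h2, h3⟩ := M7_part htf.toFinset δ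
  refine ⟨j, s, h1, h2, fun p q hp hq hpN => ?_⟩
  have hpX : p ∈ X := ⟨hpN, mem_sphere_zero_iff_norm.mpr hp⟩
  obtain ⟨v, hv, hpv⟩ := mem_iUnion₂.mp (hcov hpX)
  obtain ⟨h4, h5⟩ := h3 p ⟨v, htf.mem_toFinset.mpr hv, hpv⟩
  have h6 : j p ∈ X := htX (htf.mem_toFinset.mp h4)
  by_cases hqN : q.1 ∈ N
  · have hqX : q ∈ X := ⟨hqN, mem_sphere_zero_iff_norm.mpr hq⟩
    have h7 := hu (p, q) ⟨hpX, hqX⟩ (j p, q) ⟨h6, hqX⟩ (by
      rw [Prod.dist_eq, dist_self]
      exact max_lt h5 hδ)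
    rw [Real.dist_eq] at h7
    rw [hβ1 _ hqN, mul_one]
    exact h7.le
  · have h8 : ∀ p, K p q = 0 := by
      intro p
      by_contra hne
      exact hqN (hKN p q hne).2
    rw [h8, h8, sub_zero, abs_zero]
    exact mul_nonneg hε.le (hβ0 _)

theorem M7_sandwich {K : Pl × ℂ → Pl × ℂ → ℝ} (hK0 : ∀ p q, 0 ≤ K p q)
    (hK : Continuous fun q : (Pl × ℂ) × (Pl × ℂ) => K q.1 q.2)
    {N : Set Pl} (hN : IsCompact N) (hKN : ∀ p q, K p q ≠ 0 → p.1 ∈ N ∧ q.1 ∈ N)
    {β : Pl → ℝ} (hβ1 : ∀ x ∈ N, β x = 1) (hβ0 : ∀ x, 0 ≤ β x) {ε : ℝ} (hε : 0 < ε) :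
    ∃ (s : Finset (Pl × ℂ)) (A : Pl × ℂ → Pl × ℂ → ℝ≥0∞), (∀ v, Measurable (A v)) ∧
      (∀ v p, A v p ≤ 1) ∧ (∀ v p, p.1 ∉ N → A v p = 0) ∧
      ∀ p q : Pl × ℂ, ‖p.2‖ = 1 → ‖q.2‖ = 1 →
        ENNReal.ofReal (K p q) ≤ ∑ v ∈ s, A v p * ENNReal.ofReal (K v q) +
          ENNReal.ofReal ε * ((N ×ˢ (univ : Set ℂ)).indicator 1 p * ENNReal.ofReal (β q.1)) ∧
        ∑ v ∈ s, A v p * ENNReal.ofReal (K v q) ≤ ENNReal.ofReal (K p q) +
          ENNReal.ofReal ε * ((N ×ˢ (univ : Set ℂ)).indicator 1 p * ENNReal.ofReal (β q.1)) := by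
  classical
  obtain ⟨j, s, h1, h2, h3⟩ := M7_approx hK hN hKN hβ1 hβ0 hε
  have hNm : MeasurableSet (N ×ˢ (univ : Set ℂ)) := hN.measurableSet.prod MeasurableSet.univ
  refine ⟨s, fun v => ({p | j p = v} ∩ (N ×ˢ (univ : Set ℂ))).indicator 1, fun v =>
    measurable_one.indicator ((h2 v).inter hNm), fun v p => ?_, fun v p hp => ?_,
    fun p q hp hq => ?_⟩
  · exact Set.indicator_le_self' (fun _ _ => zero_le) p
  · exact Set.indicator_of_notMem (fun hh => hp hh.2.1) _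
  · by_cases hpN : p.1 ∈ N
    · have hpm : p ∈ N ×ˢ (univ : Set ℂ) := ⟨hpN, mem_univ _⟩
      have h4 : ∑ v ∈ s, ({p | j p = v} ∩ (N ×ˢ (univ : Set ℂ))).indicator 1 p *
          ENNReal.ofReal (K v q) = ENNReal.ofReal (K (j p) q) := by
        rw [Finset.sum_eq_single (j p)]
        · rw [Set.indicator_of_mem (show p ∈ {p' | j p' = j p} ∩ (N ×ˢ (univ : Set ℂ)) from
            ⟨rfl, hpm⟩), Pi.one_apply, one_mul]
        · intro v _ hv
          rw [Set.indicator_of_notMem (fun hh => hv hh.1.symm), zero_mul]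
        · intro hh
          exact absurd (h1 p) hh
      rw [h4, Set.indicator_of_mem hpm, Pi.one_apply, one_mul, ← ENNReal.ofReal_mul hε.le]
      have h5 := abs_le.mp (h3 p q hp hq hpN)
      have h6 : 0 ≤ ε * β q.1 := mul_nonneg hε.le (hβ0 _)
      rw [← ENNReal.ofReal_add (hK0 _ _) h6, ← ENNReal.ofReal_add (hK0 _ _) h6]
      exact ⟨ENNReal.ofReal_le_ofReal (by linarith), ENNReal.ofReal_le_ofReal (by linarith)⟩
    · have hpm : p ∉ N ×ˢ (univ : Set ℂ) := fun hh => hpN hh.1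
      have h4 : ∑ v ∈ s, ({p | j p = v} ∩ (N ×ˢ (univ : Set ℂ))).indicator 1 p *
          ENNReal.ofReal (K v q) = 0 := by
        apply Finset.sum_eq_zero
        intro v _
        rw [Set.indicator_of_notMem (fun hh => hpm hh.2), zero_mul]
      have h5 : K p q = 0 := by
        by_contra hne
        exact hpN (hKN p q hne).1
      rw [h4, h5, ENNReal.ofReal_zero]
      exact ⟨zero_le, zero_le⟩

theorem equi (hX : Surface Γ D) (h : HG D G) {K : Pl × ℂ → Pl × ℂ → ℝ}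
    (hK : Continuous fun q : (Pl × ℂ) × (Pl × ℂ) => K q.1 q.2) (hK0 : ∀ p q, 0 ≤ K p q)
    {N : Set Pl} (hN : IsCompact N) (hKN : ∀ p q, K p q ≠ 0 → p.1 ∈ N ∧ q.1 ∈ N) :
    Tendsto (fun T : ℝ => (WK G K T).toReal / T) atTop
      (𝓝 ((1 / (2 * Real.pi)) * ∫ p, ∫ q, K p q ∂(muS G) ∂(muS G))) ∧
      ∀ T, WK G K T < ⊤ := by
  obtain ⟨β, hβ1, _, hβc, hβI⟩ := exists_continuous_one_zero_of_isCompact hN isClosed_empty
    (disjoint_empty N)
  have hβ1' : ∀ x ∈ N, β x = 1 := fun x hx => hβ1 hx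
  have hβ0 : ∀ x, 0 ≤ β x := fun x => (hβI x).1
  set φW : Γ → ℝ → Pl × ℂ → Pl × ℂ := fun g s p => act G g⁻¹ (phi G s p) with hφW
  set φL : Unit → Pl × ℂ → Pl × ℂ → Pl × ℂ := fun _ q _ => q with hφL
  set cπ : ℝ≥0∞ := ENNReal.ofReal (1 / (2 * Real.pi)) with hcπ
  set FT : ℝ → (Pl × ℂ → Pl × ℂ → ℝ≥0∞) → ℝ≥0∞ :=
    fun T k => M7_F G ((volume : Measure ℝ).restrict (Ioc (0 : ℝ) T)) φW k with hFT
  set L : (Pl × ℂ → Pl × ℂ → ℝ≥0∞) → ℝ≥0∞ := fun k => M7_F G (cπ • muS G) φL k with hLdef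
  set KK : Pl × ℂ → Pl × ℂ → ℝ≥0∞ := fun p q => ENNReal.ofReal (K p q) with hKK
  set R : Pl × ℂ → Pl × ℂ → ℝ≥0∞ := fun p q =>
    (N ×ˢ (univ : Set ℂ)).indicator 1 p * ENNReal.ofReal (β q.1) with hR
  have hNm : MeasurableSet (N ×ˢ (univ : Set ℂ)) := hN.measurableSet.prod MeasurableSet.univ
  have hχm : Measurable ((N ×ˢ (univ : Set ℂ)).indicator (1 : Pl × ℂ → ℝ≥0∞)) :=
    measurable_one.indicator hNm
  have hRm : Measurable fun q : (Pl × ℂ) × (Pl × ℂ) => R q.1 q.2 :=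
    (hχm.comp measurable_fst).mul
      (ENNReal.continuous_ofReal.comp (β.continuous.comp
        (continuous_fst.comp continuous_snd))).measurable
  have hKKm : Measurable fun q : (Pl × ℂ) × (Pl × ℂ) => KK q.1 q.2 :=
    (ENNReal.continuous_ofReal.comp hK).measurable
  have hRlim := M7_prod_lim hX h hχm (M := N)
    (fun p => Set.indicator_le_self' (fun _ _ => zero_le) p) hN
    (fun p hp => Set.indicator_of_notMem (fun hh => hp hh.1) _)
    (b := fun x _ => β x) (β.continuous.comp continuous_fst) (fun x _ => hβ0 x)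
    (N := tsupport β) hβc (fun x hx _ => image_eq_zero_of_notMem_tsupport hx)
  have hKv : ∀ v : Pl × ℂ, Continuous fun q : Pl × ℂ => K v q := fun v =>
    hK.comp (continuous_const.prodMk continuous_id)
  have hwk : ∀ T, WK G K T = FT T KK := fun T => rfl
  -- the two approximations
  have happ : ∀ ε : ℝ, 0 < ε → ∃ kε : Pl × ℂ → Pl × ℂ → ℝ≥0∞,
      (∀ T, FT T KK ≤ FT T kε + ENNReal.ofReal ε * FT T R) ∧
      (∀ T, FT T kε ≤ FT T KK + ENNReal.ofReal ε * FT T R) ∧
      (L KK ≤ L kε + ENNReal.ofReal ε * L R) ∧ (L kε ≤ L KK + ENNReal.ofReal ε * L R) ∧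
      Tendsto (fun T => FT T kε / ENNReal.ofReal T) atTop (𝓝 (L kε)) ∧ L kε < ⊤ ∧
      ∀ T, FT T kε < ⊤ := by
    intro ε hε
    obtain ⟨s, A, hA, hA1, hAN, hsand⟩ := M7_sandwich hK0 hK hN hKN hβ1' hβ0 hε
    have hkm : ∀ v, Measurable fun q : (Pl × ℂ) × (Pl × ℂ) =>
        A v q.1 * ENNReal.ofReal (K v q.2) := fun v =>
      ((hA v).comp measurable_fst).mul
        (ENNReal.continuous_ofReal.comp ((hKv v).comp continuous_snd)).measurable
    have hksm : Measurable fun q : (Pl × ℂ) × (Pl × ℂ) =>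
        ∑ v ∈ s, A v q.1 * ENNReal.ofReal (K v q.2) :=
      Finset.measurable_sum s fun v _ => hkm v
    have hlim := fun v => M7_prod_lim hX h (hA v) (hA1 v) hN (hAN v)
      (b := fun x u => K v (x, u)) (hKv v) (fun x u => hK0 _ _) hN
      (fun x hx u => by
        by_contra hne
        exact hx (hKN _ _ hne).2)
    have hsW : ∀ T, FT T (fun p q => ∑ v ∈ s, A v p * ENNReal.ofReal (K v q)) =
        ∑ v ∈ s, FT T (fun p q => A v p * ENNReal.ofReal (K v q)) := fun T =>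
      M7_sum G (M7_okW hX h T) s hkm
    have hsL : L (fun p q => ∑ v ∈ s, A v p * ENNReal.ofReal (K v q)) =
        ∑ v ∈ s, L (fun p q => A v p * ENNReal.ofReal (K v q)) :=
      M7_sum G (M7_okL G cπ) s hkm
    refine ⟨fun p q => ∑ v ∈ s, A v p * ENNReal.ofReal (K v q), fun T => ?_, fun T => ?_, ?_, ?_,
      ?_, ?_, fun T => ?_⟩
    · refine (M7_mono G (M7_okW hX h T) fun p q hp hq => (hsand p q hp hq).1).trans ?_
      rw [M7_add G (M7_okW hX h T) hksm, M7_smul G (M7_okW hX h T) _ hRm]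
    · refine (M7_mono G (M7_okW hX h T) fun p q hp hq => (hsand p q hp hq).2).trans ?_
      rw [M7_add G (M7_okW hX h T) hKKm, M7_smul G (M7_okW hX h T) _ hRm]
    · refine (M7_mono G (M7_okL G cπ) fun p q hp hq => (hsand p q hp hq).1).trans ?_
      rw [M7_add G (M7_okL G cπ) hksm, M7_smul G (M7_okL G cπ) _ hRm]
    · refine (M7_mono G (M7_okL G cπ) fun p q hp hq => (hsand p q hp hq).2).trans ?_
      rw [M7_add G (M7_okL G cπ) hKKm, M7_smul G (M7_okL G cπ) _ hRm]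
    · rw [hsL]
      have h1 : ∀ T, FT T (fun p q => ∑ v ∈ s, A v p * ENNReal.ofReal (K v q)) /
          ENNReal.ofReal T =
          ∑ v ∈ s, FT T (fun p q => A v p * ENNReal.ofReal (K v q)) / ENNReal.ofReal T := by
        intro T
        rw [hsW, ENNReal.div_eq_inv_mul, Finset.mul_sum]
        exact Finset.sum_congr rfl fun v _ => (ENNReal.div_eq_inv_mul).symm
      simp_rw [h1]
      exact tendsto_finset_sum s fun v _ => (hlim v).1
    · rw [hsL]
      exact ENNReal.sum_lt_top.mpr fun v _ => (hlim v).2.1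
    · rw [hsW]
      exact ENNReal.sum_lt_top.mpr fun v _ => (hlim v).2.2 T
  have hfin : ∀ T, FT T KK < ⊤ := by
    intro T
    obtain ⟨kε, h1, _, _, _, _, _, h7⟩ := happ 1 one_pos
    refine lt_of_le_of_lt (h1 T) (ENNReal.add_lt_top.mpr ⟨h7 T, ?_⟩)
    exact ENNReal.mul_lt_top ENNReal.ofReal_lt_top (hRlim.2.2 T)
  have hLfin : L KK < ⊤ := by
    obtain ⟨kε, _, _, h3, _, _, h6, _⟩ := happ 1 one_pos
    refine lt_of_le_of_lt h3 (ENNReal.add_lt_top.mpr ⟨h6, ?_⟩)
    exact ENNReal.mul_lt_top ENNReal.ofReal_lt_top hRlim.2.1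
  set r : ℝ≥0∞ := L R with hr
  have hrt : r < ⊤ := hRlim.2.1
  have hRl : Tendsto (fun T => FT T R / ENNReal.ofReal T) atTop (𝓝 r) := hRlim.1
  have hεr : ∀ ε : ℝ, Tendsto (fun T => ENNReal.ofReal ε * (FT T R / ENNReal.ofReal T)) atTop
      (𝓝 (ENNReal.ofReal ε * r)) := fun ε =>
    ENNReal.Tendsto.const_mul hRl (Or.inr ENNReal.ofReal_ne_top)
  have hup : ∀ ε : ℝ, 0 < ε → limsup (fun T => FT T KK / ENNReal.ofReal T) atTop ≤
      L KK + (ENNReal.ofReal ε * r + ENNReal.ofReal ε * r) := by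
    intro ε hε
    obtain ⟨kε, h1, h2, h3, h4, h5, h6, h7⟩ := happ ε hε
    have h8 : Tendsto (fun T => FT T kε / ENNReal.ofReal T +
        ENNReal.ofReal ε * (FT T R / ENNReal.ofReal T)) atTop
        (𝓝 (L kε + ENNReal.ofReal ε * r)) := h5.add (hεr ε)
    have h9 : limsup (fun T => FT T KK / ENNReal.ofReal T) atTop ≤
        limsup (fun T => FT T kε / ENNReal.ofReal T +
          ENNReal.ofReal ε * (FT T R / ENNReal.ofReal T)) atTop := by
      refine limsup_le_limsup (Eventually.of_forall fun T => ?_)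
      refine (ENNReal.div_le_div_right (h1 T) _).trans (le_of_eq ?_)
      rw [ENNReal.add_div, mul_div_assoc]
    rw [h8.limsup_eq] at h9
    refine h9.trans ?_
    rw [← add_assoc]
    gcongr
  have hlo : ∀ ε : ℝ, 0 < ε → L KK ≤ liminf (fun T => FT T KK / ENNReal.ofReal T) atTop +
      (ENNReal.ofReal ε * r + ENNReal.ofReal ε * r) := by
    intro ε hε
    obtain ⟨kε, h1, h2, h3, h4, h5, h6, h7⟩ := happ ε hε
    have h8 : Tendsto (fun T => FT T kε / ENNReal.ofReal T -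
        ENNReal.ofReal ε * (FT T R / ENNReal.ofReal T)) atTop
        (𝓝 (L kε - ENNReal.ofReal ε * r)) := ENNReal.Tendsto.sub h5 (hεr ε) (Or.inl h6.ne)
    have h9 : liminf (fun T => FT T kε / ENNReal.ofReal T -
        ENNReal.ofReal ε * (FT T R / ENNReal.ofReal T)) atTop ≤
        liminf (fun T => FT T KK / ENNReal.ofReal T) atTop := by
      refine liminf_le_liminf (Eventually.of_forall fun T => ?_)
      rw [tsub_le_iff_right]
      refine (ENNReal.div_le_div_right (h2 T) _).trans (le_of_eq ?_)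
      rw [ENNReal.add_div, mul_div_assoc]
    rw [h8.liminf_eq, tsub_le_iff_right] at h9
    rw [← add_assoc]
    refine h3.trans ?_
    gcongr
  have hzero : Tendsto (fun n : ℕ => ENNReal.ofReal (1 / ((n : ℝ) + 1)) * r +
      ENNReal.ofReal (1 / ((n : ℝ) + 1)) * r) atTop (𝓝 0) := by
    have h1 : Tendsto (fun n : ℕ => ENNReal.ofReal (1 / ((n : ℝ) + 1))) atTop (𝓝 0) := by
      rw [← ENNReal.ofReal_zero]
      exact ENNReal.tendsto_ofReal tendsto_one_div_add_atTop_nhds_zero_nat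
    have h2 := ENNReal.Tendsto.mul_const h1 (Or.inr hrt.ne)
    have h3 := h2.add h2
    rwa [zero_mul, add_zero] at h3
  have hup' : limsup (fun T => FT T KK / ENNReal.ofReal T) atTop ≤ L KK := by
    have h1 := tendsto_const_nhds (x := L KK) (f := atTop (α := ℕ)) |>.add hzero
    rw [add_zero] at h1
    exact ge_of_tendsto' h1 fun n => hup _ (by positivity)
  have hlo' : L KK ≤ liminf (fun T => FT T KK / ENNReal.ofReal T) atTop := by
    have h1 := tendsto_const_nhds (x := liminf (fun T => FT T KK / ENNReal.ofReal T) atTop)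
      (f := atTop (α := ℕ)) |>.add hzero
    rw [add_zero] at h1
    exact ge_of_tendsto' h1 fun n => hlo _ (by positivity)
  have hmain : Tendsto (fun T => FT T KK / ENNReal.ofReal T) atTop (𝓝 (L KK)) :=
    tendsto_of_le_liminf_of_limsup_le hlo' hup'
  refine ⟨?_, hfin⟩
  have hval : (L KK).toReal = (1 / (2 * Real.pi)) * ∫ p, ∫ q, K p q ∂(muS G) ∂(muS G) := by
    have h1 : L KK = cπ * ∫⁻ q, ∫⁻ p, KK p q ∂(muS G) ∂(muS G) := by
      show M7_F G (cπ • muS G) φL KK = _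
      unfold M7_F
      rw [tsum_fintype, Finset.univ_unique, Finset.sum_singleton, lintegral_smul_measure,
        smul_eq_mul]
    have h2 : ∫⁻ q, ∫⁻ p, KK p q ∂(muS G) ∂(muS G) =
        ∫⁻ z, KK z.1 z.2 ∂((muS G).prod (muS G)) := by
      rw [lintegral_prod _ hKKm.aemeasurable]
      exact lintegral_lintegral_swap (hKKm.comp measurable_swap).aemeasurable
    have h3 : ∫⁻ z, KK z.1 z.2 ∂((muS G).prod (muS G)) < ⊤ := by
      rw [← h2]
      by_contra hcon
      rw [not_lt, top_le_iff] at hcon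
      rw [h1, hcon, ENNReal.mul_top (ENNReal.ofReal_pos.mpr (by positivity)).ne'] at hLfin
      exact lt_irrefl _ hLfin
    have h4 : Integrable (fun z : (Pl × ℂ) × (Pl × ℂ) => K z.1 z.2) ((muS G).prod (muS G)) := by
      refine ⟨hK.aestronglyMeasurable, ?_⟩
      rw [hasFiniteIntegral_iff_ofReal (Eventually.of_forall fun z => hK0 _ _)]
      exact h3
    rw [integral_integral h4, integral_eq_lintegral_of_nonneg_ae
      (Eventually.of_forall fun z => hK0 _ _) hK.aestronglyMeasurable, h1, h2, ENNReal.toReal_mul,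
      ENNReal.toReal_ofReal (by positivity)]
  rw [← hval]
  have h1 := (ENNReal.tendsto_toReal hLfin.ne).comp hmain
  refine h1.congr' ?_
  filter_upwards [eventually_gt_atTop 0] with T hT
  show (FT T KK / ENNReal.ofReal T).toReal = _
  rw [ENNReal.toReal_div, ENNReal.toReal_ofReal hT.le, hwk]

end SR85
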