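import Pool.Agent.LibSR85.M8
import Pool.Agent.LibSR85.B5

/-! Row SR85 M9: the localised kernel.

PLAN of `kern_lim`: `KK` is continuous (`rho > 0` continuous), nonnegative, zero unless
`p.1 ∈ tsupport ψ` and `‖q.1 - p.1‖ ≤ η`, so `equi` and `WK_eq` apply; the double integral is, by
`muS_lint`/the product structure, `∫ x, ψ x rho x (∫ x', η⁻² χ (η⁻¹ • (x' - x))) *
∫∫ κ (e^{i(θ' - θ)}) = (∫ ψ rho) * 1 * (2 π) ∫ κ (e^{iθ}) dθ` (scaling in the plane;
`circ_rot`). PLAN of `kern_one`: for fixed `g`, `K ≠ 0` forces `x, x'` in a compact set, on which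
`d x (g x') ≤ T₀`, so `wg K T g = wg K T₀ g` for `T ≥ T₀` and it is monotone in `T`;
it is `≤ ∑' g, wg K T₀ g = WK K T₀ < ⊤`. -/

open MeasureTheory Set Filter Topology
open scoped ContDiff ENNReal NNReal ComplexConjugate

namespace SR85

open BGS (Pl Surface)

variable {Γ : Type} [Group Γ] [MulAction Γ Pl] {D : Set Pl} {G : Dat Γ}

/-- A bump on the plane. -/
structure Bump (χ : Pl → ℝ) : Prop where
  cont : Continuous χ
  nonneg : ∀ x, 0 ≤ χ x
  supp : ∀ x, 1 ≤ ‖x‖ → χ x = 0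
  int : ∫ x, χ x = 1

theorem exists_bump : ∃ χ : Pl → ℝ, Bump χ := by
  let φ : ContDiffBump (0 : Pl) := ⟨1 / 2, 1, by norm_num, by norm_num⟩
  refine ⟨φ.normed volume, φ.continuous_normed, fun x => φ.nonneg_normed x, fun x hx => ?_,
    φ.integral_normed⟩
  by_contra hne
  have h1 : x ∈ Function.support (φ.normed volume) := hne
  rw [φ.support_normed_eq, mem_ball_zero_iff] at h1
  exact absurd h1 (not_lt.2 hx)

/-- The localised kernel. -/
noncomputable def KK (G : Dat Γ) (κ : ℂ → ℝ) (ψ χ : Pl → ℝ) (η : ℝ) (p q : Pl × ℂ) : ℝ :=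
  ψ p.1 * (χ (η⁻¹ • (q.1 - p.1)) / η ^ 2) / G.rho q.1 * κ (q.2 * conj p.2)

theorem M9_int (h : HG D G) {F : Pl → ℝ} {c : ℂ → ℝ} (hF : Continuous F) (hc : Continuous c) :
    ∫ q, F q.1 * c q.2 ∂(muS G) = (∫ x, F x * G.rho x) *
      ∫ θ in Ioc (-Real.pi) Real.pi, c (Complex.exp ((θ : ℂ) * Complex.I)) := by
  have hf : Continuous fun q : Pl × ℝ => (q.1, Complex.exp ((q.2 : ℂ) * Complex.I)) := by
    fun_prop
  have hFc : Continuous fun q : Pl × ℂ => F q.1 * c q.2 := by fun_prop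
  have hr : Measurable fun z : Pl => ENNReal.ofReal (G.rho z) :=
    ENNReal.measurable_ofReal.comp h.rho_cont.measurable
  rw [muS, integral_map hf.measurable.aemeasurable hFc.aestronglyMeasurable]
  have h1 := integral_prod_mul
    (μ := (volume : Measure Pl).withDensity fun z => ENNReal.ofReal (G.rho z))
    (ν := (volume : Measure ℝ).restrict (Ioc (-Real.pi) Real.pi)) F
    (fun θ : ℝ => c (Complex.exp ((θ : ℂ) * Complex.I)))
  refine h1.trans ?_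
  congr 1
  rw [integral_withDensity_eq_integral_toReal_smul hr
    (Filter.Eventually.of_forall fun z => ENNReal.ofReal_lt_top)]
  refine integral_congr_ae (Filter.Eventually.of_forall fun z => ?_)
  show (ENNReal.ofReal (G.rho z)).toReal • F z = F z * G.rho z
  rw [ENNReal.toReal_ofReal (h.rho_pos z).le, smul_eq_mul, mul_comm]

theorem M9_rot {κ : ℂ → ℝ} {w : ℂ} (hw : ‖w‖ = 1) :
    ∫ θ in Ioc (-Real.pi) Real.pi, κ (Complex.exp ((θ : ℂ) * Complex.I) * w) =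
      ∫ θ in (-Real.pi)..Real.pi, κ (Complex.exp ((θ : ℂ) * Complex.I)) := by
  set α : ℝ := Complex.arg w with hα
  have hwα : w = Complex.exp ((α : ℂ) * Complex.I) := by
    have := Complex.norm_mul_exp_arg_mul_I w
    rw [hw, Complex.ofReal_one, one_mul] at this
    exact this.symm
  have hpi : -Real.pi ≤ Real.pi := by linarith [Real.pi_pos]
  rw [← intervalIntegral.integral_of_le hpi]
  set f : ℝ → ℝ := fun θ => κ (Complex.exp ((θ : ℂ) * Complex.I)) with hf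
  have hper : Function.Periodic f (2 * Real.pi) := by
    intro θ
    simp only [hf]
    congr 1
    push_cast
    rw [add_mul, Complex.exp_add, Complex.exp_two_pi_mul_I, mul_one]
  have h1 : ∀ θ : ℝ, κ (Complex.exp ((θ : ℂ) * Complex.I) * w) = f (θ + α) := by
    intro θ
    simp only [hf]
    congr 1
    rw [hwα, ← Complex.exp_add]
    congr 1
    push_cast
    ring
  simp only [h1]
  rw [intervalIntegral.integral_comp_add_right]
  have h2 := hper.intervalIntegral_add_eq (-Real.pi + α) (-Real.pi)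
  have h3 : -Real.pi + α + 2 * Real.pi = Real.pi + α := by ring
  have h4 : -Real.pi + 2 * Real.pi = Real.pi := by ring
  rw [h3, h4] at h2
  exact h2

theorem M9_scale {χ : Pl → ℝ} (hχ : Bump χ) {η : ℝ} (hη : 0 < η) (x : Pl) :
    ∫ x', χ (η⁻¹ • (x' - x)) / η ^ 2 = 1 := by
  have h1 : ∫ x', χ (η⁻¹ • (x' - x)) / η ^ 2 = ∫ x', χ (η⁻¹ • x') / η ^ 2 :=
    integral_sub_right_eq_self (fun x' : Pl => χ (η⁻¹ • x') / η ^ 2) x
  have hfr : Module.finrank ℝ Pl = 2 := by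
    show Module.finrank ℝ (ℝ × ℝ) = 2
    simp
  rw [h1, integral_div, Measure.integral_comp_inv_smul_of_nonneg volume χ hη.le, hχ.int, hfr,
    smul_eq_mul, mul_one, div_self (by positivity)]

theorem M9_KK_cont (h : HG D G) {κ : ℂ → ℝ} (hκ : Continuous κ) {ψ χ : Pl → ℝ}
    (hψ : Continuous ψ) (hχ : Bump χ) (η : ℝ) :
    Continuous fun q : (Pl × ℂ) × (Pl × ℂ) => KK G κ ψ χ η q.1 q.2 := by
  have hχc := hχ.cont
  have hr := h.rho_cont
  unfold KK
  refine Continuous.mul (Continuous.div (by fun_prop) (by fun_prop) ?_) ?_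
  · intro q
    exact (h.rho_pos _).ne'
  · exact hκ.comp (by fun_prop)

theorem M9_KK_nonneg (h : HG D G) {κ : ℂ → ℝ} (hκ0 : ∀ z, 0 ≤ κ z) {ψ χ : Pl → ℝ}
    (hψ0 : ∀ x, 0 ≤ ψ x) (hχ : Bump χ) (η : ℝ) (p q : Pl × ℂ) : 0 ≤ KK G κ ψ χ η p q :=
  mul_nonneg (div_nonneg (mul_nonneg (hψ0 _) (div_nonneg (hχ.nonneg _) (sq_nonneg η)))
    (h.rho_pos _).le) (hκ0 _)

theorem M9_KK_supp {κ : ℂ → ℝ} {ψ χ : Pl → ℝ} (hχ : Bump χ) {η : ℝ} (hη : 0 < η)
    (p q : Pl × ℂ) (hne : KK G κ ψ χ η p q ≠ 0) :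
    p.1 ∈ Metric.cthickening η (tsupport ψ) ∧ q.1 ∈ Metric.cthickening η (tsupport ψ) := by
  have h1 : ψ p.1 ≠ 0 := by
    intro e
    apply hne
    rw [KK, e, zero_mul, zero_div, zero_mul]
  have h2 : χ (η⁻¹ • (q.1 - p.1)) ≠ 0 := by
    intro e
    apply hne
    rw [KK, e, zero_div, mul_zero, zero_div, zero_mul]
  have hp : p.1 ∈ tsupport ψ := subset_tsupport ψ h1
  have h3 : ‖η⁻¹ • (q.1 - p.1)‖ < 1 := by
    by_contra hn
    exact h2 (hχ.supp _ (not_lt.1 hn))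
  rw [norm_smul, norm_inv, Real.norm_eq_abs, abs_of_pos hη, inv_mul_lt_iff₀ hη, mul_one] at h3
  refine ⟨Metric.self_subset_cthickening _ hp,
    Metric.mem_cthickening_of_dist_le q.1 p.1 η _ hp ?_⟩
  rw [dist_eq_norm]
  exact h3.le

theorem M9_inner (h : HG D G) {κ : ℂ → ℝ} (hκ : Continuous κ) {ψ χ : Pl → ℝ}
    (hχ : Bump χ) {η : ℝ} (hη : 0 < η) {p : Pl × ℂ} (hp : ‖p.2‖ = 1) :
    ∫ q, KK G κ ψ χ η p q ∂(muS G) =
      ψ p.1 * ∫ θ in (-Real.pi)..Real.pi, κ (Complex.exp ((θ : ℂ) * Complex.I)) := by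
  have hχc := hχ.cont
  have hF : Continuous fun x' : Pl => ψ p.1 * (χ (η⁻¹ • (x' - p.1)) / η ^ 2) / G.rho x' := by
    refine Continuous.div (by fun_prop) h.rho_cont fun x => (h.rho_pos x).ne'
  have hc : Continuous fun z : ℂ => κ (z * conj p.2) := hκ.comp (by fun_prop)
  have h1 := M9_int h hF hc
  refine h1.trans ?_
  have hw : ‖conj p.2‖ = 1 := by rw [RCLike.norm_conj, hp]
  rw [M9_rot hw]
  congr 1
  have h2 : ∀ x' : Pl, ψ p.1 * (χ (η⁻¹ • (x' - p.1)) / η ^ 2) / G.rho x' * G.rho x' =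
      ψ p.1 * (χ (η⁻¹ • (x' - p.1)) / η ^ 2) := fun x' =>
    div_mul_cancel₀ _ (h.rho_pos x').ne'
  simp only [h2]
  rw [integral_const_mul, M9_scale hχ hη, mul_one]

theorem M9_outer (h : HG D G) {κ : ℂ → ℝ} (hκ : Continuous κ) {ψ χ : Pl → ℝ}
    (hψ : Continuous ψ) (hχ : Bump χ) {η : ℝ} (hη : 0 < η) :
    (1 / (2 * Real.pi)) * ∫ p, ∫ q, KK G κ ψ χ η p q ∂(muS G) ∂(muS G) =
      (∫ x, ψ x * G.rho x) *
        ∫ θ in (-Real.pi)..Real.pi, κ (Complex.exp ((θ : ℂ) * Complex.I)) := by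
  set Kκ : ℝ := ∫ θ in (-Real.pi)..Real.pi, κ (Complex.exp ((θ : ℂ) * Complex.I)) with hKκ
  have h1 : ∫ p, ∫ q, KK G κ ψ χ η p q ∂(muS G) ∂(muS G) = ∫ p, ψ p.1 * Kκ ∂(muS G) := by
    refine integral_congr_ae ?_
    filter_upwards [muS_unit G] with p hp
    exact M9_inner h hκ hχ hη hp
  have h2 := M9_int h hψ (continuous_const (y := Kκ))
  rw [h1]
  rw [h2, setIntegral_const, smul_eq_mul]
  have h3 : (volume : Measure ℝ).real (Ioc (-Real.pi) Real.pi) = 2 * Real.pi := by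
    rw [measureReal_def, Real.volume_Ioc, ENNReal.toReal_ofReal (by linarith [Real.pi_pos])]
    ring
  rw [h3]
  have hpi := Real.pi_pos
  field_simp

theorem kern_lim (hX : Surface Γ D) (h : HG D G) {κ : ℂ → ℝ} (hκ : Continuous κ)
    (hκ0 : ∀ z, 0 ≤ κ z) {ψ χ : Pl → ℝ} (hψ : Continuous ψ) (hψ0 : ∀ x, 0 ≤ ψ x)
    (hψc : HasCompactSupport ψ) (hχ : Bump χ) {η : ℝ} (hη : 0 < η) :
    Tendsto (fun T : ℝ => (∑' g : Γ, wg G (KK G κ ψ χ η) T g).toReal / T) atTop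
      (𝓝 ((∫ x, ψ x * G.rho x) *
        ∫ θ in (-Real.pi)..Real.pi, κ (Complex.exp ((θ : ℂ) * Complex.I)))) ∧
      ∀ T, ∑' g : Γ, wg G (KK G κ ψ χ η) T g < ⊤ := by
  have hKc := M9_KK_cont h hκ hψ hχ η
  have hN : IsCompact (Metric.cthickening η (tsupport ψ)) := hψc.isCompact.cthickening
  obtain ⟨h1, h2⟩ := equi hX h hKc (M9_KK_nonneg h hκ0 hψ0 hχ η) hN (M9_KK_supp hχ hη)
  rw [M9_outer h hκ hψ hχ hη] at h1
  have h3 : ∀ T, ∑' g : Γ, wg G (KK G κ ψ χ η) T g = WK G (KK G κ ψ χ η) T := fun T =>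
    (WK_eq hX h hKc.measurable T).symm
  simp only [h3]
  exact ⟨h1, h2⟩

theorem kern_one (hX : Surface Γ D) (h : HG D G) {κ : ℂ → ℝ} (hκ : Continuous κ)
    (hκ0 : ∀ z, 0 ≤ κ z) {ψ χ : Pl → ℝ} (hψ : Continuous ψ) (hψ0 : ∀ x, 0 ≤ ψ x)
    (hψc : HasCompactSupport ψ) (hχ : Bump χ) {η : ℝ} (hη : 0 < η) (g : Γ) :
    ∃ M : ℝ≥0∞, M < ⊤ ∧ ∀ T, wg G (KK G κ ψ χ η) T g ≤ M := by
  have hN : IsCompact (Metric.cthickening η (tsupport ψ)) := hψc.isCompact.cthickening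
  have hc : Continuous fun q : Pl × Pl => G.d q.1 (g • q.2) :=
    (d_cont h).comp (continuous_fst.prodMk ((hX.smooth g).continuous.comp continuous_snd))
  obtain ⟨T₀, hT₀⟩ := (hN.prod hN).exists_bound_of_continuousOn hc.continuousOn
  refine ⟨wg G (KK G κ ψ χ η) T₀ g, lt_of_le_of_lt (ENNReal.le_tsum g)
    ((kern_lim hX h hκ hκ0 hψ hψ0 hψc hχ hη).2 T₀), fun T => ?_⟩
  unfold wg
  refine lintegral_mono fun x => mul_le_mul' (lintegral_mono fun x' => mul_le_mul' ?_ le_rfl) le_rfl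
  split_ifs with h1 h2 h2
  · exact le_rfl
  · by_cases hK : KK G κ ψ χ η (x, G.di x (g • x')) (x', -G.di x' (g⁻¹ • x)) = 0
    · rw [hK, zero_div, ENNReal.ofReal_zero]
    · exfalso
      obtain ⟨h3, h4⟩ := M9_KK_supp hχ hη _ _ hK
      have h5 := hT₀ (x, x') ⟨h3, h4⟩
      rw [Real.norm_eq_abs] at h5
      exact h2 ((le_abs_self _).trans h5)
  · exact bot_le
  · exact le_rfl

end SR85
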