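import Pool.Agent.LibSR85.P4
import Pool.Agent.LibSR85.P6
import Pool.Agent.LibSR85.M10

/-! Row SR85 N1: the axis of `g`; derivative of the angle defect along a curve.

`al G g x = u' conj u`, `u = di x (g x)`, `u' = -di x (g⁻¹ x)`.

PLAN of `al_der`. Let `ξ = fi (x s) x'`, `u = di x (g x)`, `w' = di x (g⁻¹ x) = -u'`,
`y₀ = Im (ξ conj u)`, `y₁ = Im (ξ conj u')`. The curve `g • x(r)` has derivative
`fderiv (g • ·) x'` with frame coordinates `R g x * ξ` (`fi_smul`; `hX.smooth` and the chain rule),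
and `di (g x) x = R g x * di x (g⁻¹ x)` (`di_smul`), so `Im (R ξ conj di (g x) x) = -y₁`; the same
for `g⁻¹`: `di (g⁻¹ x) x = R g⁻¹ x * u`. `du` gives
`u' = I u (-om ξ - U (g x) x * y₀ + y₁ / J)` for `di x (g x)` and
`w'' = I w' (-om ξ + U (g⁻¹ x) x * y₁ - y₀ / J)` for `di x (g⁻¹ x)`
(`J x (g⁻¹ x) = J (g x) x = J x (g x)`: `J_smul`, `J_symm`). Hence the derivative of
`al = -w' conj u` is `I * al * (U (g x) x * y₀ + U (g⁻¹ x) x * y₁ - (y₀ + y₁) / J x (g x))`: the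
connection form cancels.
PLAN of `F_der`. `dd`: the derivative of `d x (g x)` is
`-Re (ξ conj u) - Re (R ξ conj di (g x) x) = Re (ξ conj u') - Re (ξ conj u)`. -/

open MeasureTheory Set Filter Topology
open scoped ContDiff ENNReal NNReal ComplexConjugate

namespace SR85

open BGS (Pl Surface)

variable {Γ : Type} [Group Γ] [MulAction Γ Pl] {D : Set Pl} {G : Dat Γ}

/-- `s ↦ E c (s u)` is the axis of `g`, with translation length `l`. -/
structure Ax (G : Dat Γ) (g : Γ) (c : Pl) (u : ℂ) (l : ℝ) : Prop where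
  nu : ‖u‖ = 1
  pos : 0 < l
  tr : ∀ s : ℝ, g • G.E c ((s : ℂ) * u) = G.E c (((s + l : ℝ) : ℂ) * u)
  mn : ∀ x : Pl, l ≤ G.d x (g • x)

/-- The speed of turning of the angle defect, for the frame velocity `ξ` at `x`. -/
noncomputable def turn (G : Dat Γ) (g : Γ) (x : Pl) (ξ : ℂ) : ℝ :=
  G.U (g • x) x * (ξ * conj (G.di x (g • x))).im +
    G.U (g⁻¹ • x) x * (ξ * conj (-G.di x (g⁻¹ • x))).im -
    ((ξ * conj (G.di x (g • x))).im + (ξ * conj (-G.di x (g⁻¹ • x))).im) / G.J x (g • x)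

private theorem N1_free (hX : Surface Γ D) {g : Γ} (hg : g ≠ 1) (x : Pl) : x ≠ g • x := by
  intro hx
  obtain ⟨γ, hγ, hu⟩ := hX.orbit x
  have h1 : (γ * g) • x ∈ D := by
    rw [mul_smul, ← hx]
    exact hγ
  have h2 : γ * g = γ := hu _ h1
  exact hg (mul_eq_left.1 h2)

private theorem N1_rot {R : ℂ} (hR : ‖R‖ = 1) (z w : ℂ) : (R * z) * conj (R * w) = z * conj w := by
  have h1 : R * conj R = 1 := by
    rw [Complex.mul_conj, Complex.normSq_eq_norm_sq, hR]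
    norm_num
  rw [map_mul]
  linear_combination (z * conj w) * h1

private theorem N1_curve (hX : Surface Γ D) (h : HG D G) (g : Γ) {x : ℝ → Pl} {x' : Pl} {s : ℝ}
    (hx : HasDerivAt x x' s) : ∃ y' : Pl, HasDerivAt (fun r => g • x r) y' s ∧
      G.fi (g • x s) y' = G.R g (x s) * G.fi (x s) x' := by
  refine ⟨fderiv ℝ (fun w : Pl => g • w) (x s) x', ?_, h.fi_smul g (x s) x'⟩
  have h1 : HasFDerivAt (fun w : Pl => g • w) (fderiv ℝ (fun w : Pl => g • w) (x s)) (x s) :=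
    (((hX.smooth g).differentiable (by simp)) (x s)).hasFDerivAt
  exact h1.comp_hasDerivAt s hx

private theorem N1_dinv (h : HG D G) (g : Γ) (x : Pl) :
    G.di (g • x) x = G.R g x * G.di x (g⁻¹ • x) := by
  have h1 := di_smul h g x (g⁻¹ • x)
  rwa [smul_inv_smul] at h1

theorem al_der (hX : Surface Γ D) (h : HG D G) {g : Γ} (hg : g ≠ 1) {x : ℝ → Pl} {x' : Pl} {s : ℝ}
    (hx : HasDerivAt x x' s) : HasDerivAt (fun r => al G g (x r))
      (Complex.I * al G g (x s) * (turn G g (x s) (G.fi (x s) x') : ℂ)) s := by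
  have hg' : g⁻¹ ≠ 1 := inv_ne_one.2 hg
  have n1 := N1_free hX hg (x s)
  have n2 := N1_free hX hg' (x s)
  obtain ⟨y₁, hy₁, hf₁⟩ := N1_curve hX h g hx
  obtain ⟨y₂, hy₂, hf₂⟩ := N1_curve hX h g⁻¹ hx
  have d1 := h.du x (fun r => g • x r) x' y₁ s hx hy₁ n1
  have d2 := h.du x (fun r => g⁻¹ • x r) x' y₂ s hx hy₂ n2
  have r1 : G.fi (g • x s) y₁ * conj (G.di (g • x s) (x s)) =
      G.fi (x s) x' * conj (G.di (x s) (g⁻¹ • x s)) := by
    rw [hf₁, N1_dinv h g (x s), N1_rot (h.R_norm g (x s))]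
  have r2 : G.fi (g⁻¹ • x s) y₂ * conj (G.di (g⁻¹ • x s) (x s)) =
      G.fi (x s) x' * conj (G.di (x s) (g • x s)) := by
    have e := N1_dinv h g⁻¹ (x s)
    rw [inv_inv] at e
    rw [hf₂, e, N1_rot (h.R_norm g⁻¹ (x s))]
  have hJ : G.J (x s) (g⁻¹ • x s) = G.J (x s) (g • x s) := by
    have e := J_smul h g n2
    rw [smul_inv_smul] at e
    rw [← e, J_symm h]
  simp only [r1] at d1
  simp only [r2, hJ] at d2
  have d3 := d2.neg.mul d1.star
  have e1 : (fun r => al G g (x r)) = fun r => (-G.di (x r) (g⁻¹ • x r)) *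
      star (G.di (x r) (g • x r)) := rfl
  rw [e1]
  refine d3.congr_deriv ?_
  have e2 : al G g (x s) = -G.di (x s) (g⁻¹ • x s) * conj (G.di (x s) (g • x s)) := rfl
  have e3 : ∀ z : ℂ, star z = conj z := fun z => rfl
  have e4 : (G.fi (x s) x' * conj (-G.di (x s) (g⁻¹ • x s))).im =
      -(G.fi (x s) x' * conj (G.di (x s) (g⁻¹ • x s))).im := by
    rw [map_neg, mul_neg, Complex.neg_im]
  rw [e2, turn, e4]
  simp only [Pi.neg_apply, e3, map_mul, Complex.conj_I, Complex.conj_ofReal]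
  push_cast
  ring

theorem F_der (hX : Surface Γ D) (h : HG D G) {g : Γ} (hg : g ≠ 1) {x : ℝ → Pl} {x' : Pl} {s : ℝ}
    (hx : HasDerivAt x x' s) : HasDerivAt (fun r => G.d (x r) (g • x r))
      ((G.fi (x s) x' * conj (-G.di (x s) (g⁻¹ • x s))).re -
        (G.fi (x s) x' * conj (G.di (x s) (g • x s))).re) s := by
  have n1 := N1_free hX hg (x s)
  obtain ⟨y₁, hy₁, hf₁⟩ := N1_curve hX h g hx
  have d1 := h.dd x (fun r => g • x r) x' y₁ s hx hy₁ n1
  have r1 : G.fi (g • x s) y₁ * conj (G.di (g • x s) (x s)) =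
      G.fi (x s) x' * conj (G.di (x s) (g⁻¹ • x s)) := by
    rw [hf₁, N1_dinv h g (x s), N1_rot (h.R_norm g (x s))]
  simp only [r1] at d1
  refine d1.congr_deriv ?_
  rw [map_neg, mul_neg, Complex.neg_re]
  ring

theorem al_norm (hX : Surface Γ D) (h : HG D G) {g : Γ} (hg : g ≠ 1) (x : Pl) :
    ‖al G g x‖ = 1 ∧ x ≠ g • x ∧ x ≠ g⁻¹ • x := by
  have hg' : g⁻¹ ≠ 1 := inv_ne_one.2 hg
  have n1 := N1_free hX hg x
  have n2 := N1_free hX hg' x
  refine ⟨?_, n1, n2⟩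
  unfold al
  rw [norm_mul, norm_neg, RCLike.norm_conj, di_norm h n1, di_norm h n2, mul_one]

/-- On the axis the angle defect vanishes. -/
theorem al_axis (h : HG D G) {g : Γ} {c : Pl} {u : ℂ} {l : ℝ} (ha : Ax G g c u l) (s : ℝ) :
    al G g (G.E c ((s : ℂ) * u)) = 1 ∧
      G.di (G.E c ((s : ℂ) * u)) (g • G.E c ((s : ℂ) * u)) = G.dr c u s ∧
      -G.di (G.E c ((s : ℂ) * u)) (g⁻¹ • G.E c ((s : ℂ) * u)) = G.dr c u s ∧
      G.d (G.E c ((s : ℂ) * u)) (g • G.E c ((s : ℂ) * u)) = l := by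
  have hv := h.dr_norm c u ha.nu s
  have h1 : g • G.E c ((s : ℂ) * u) = G.E (G.E c ((s : ℂ) * u)) ((l : ℂ) * G.dr c u s) := by
    rw [ha.tr, h.flow c u ha.nu]
  have h2 : g⁻¹ • G.E c ((s : ℂ) * u) = G.E c (((s - l : ℝ) : ℂ) * u) := by
    have e := ha.tr (s - l)
    rw [sub_add_cancel] at e
    rw [← e, inv_smul_smul]
  have h3 : G.E c ((s : ℂ) * u) =
      G.E (G.E c (((s - l : ℝ) : ℂ) * u)) ((l : ℂ) * G.dr c u (s - l)) := by
    rw [h.flow c u ha.nu, sub_add_cancel]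
  have e1 : G.di (G.E c ((s : ℂ) * u)) (g • G.E c ((s : ℂ) * u)) = G.dr c u s := by
    rw [h1, di_E h _ hv ha.pos]
  have e2 : -G.di (G.E c ((s : ℂ) * u)) (g⁻¹ • G.E c ((s : ℂ) * u)) = G.dr c u s := by
    rw [h2]
    conv_lhs => rw [h3]
    rw [di_back h _ (h.dr_norm c u ha.nu (s - l)) ha.pos, neg_neg, dr_add h c ha.nu,
      sub_add_cancel]
  refine ⟨?_, e1, e2, ?_⟩
  · unfold al
    rw [e2, e1, Complex.mul_conj, Complex.normSq_eq_norm_sq, hv]
    norm_num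
  · rw [h1, d_E h _ hv, abs_of_pos ha.pos]

/-- The axis may be reparametrised. -/
theorem ax_shift (h : HG D G) {g : Γ} {c : Pl} {u : ℂ} {l : ℝ} (ha : Ax G g c u l) (s : ℝ) :
    Ax G g (G.E c ((s : ℂ) * u)) (G.dr c u s) l := by
  refine ⟨h.dr_norm c u ha.nu s, ha.pos, fun t => ?_, ha.mn⟩
  rw [h.flow c u ha.nu, h.flow c u ha.nu, ha.tr, add_assoc]

end SR85
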