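import Pool.Agent.LibSR85.N8
import Pool.Agent.LibSR85.M11

/-! Row SR85 N9: partition functions and the integral of the test function.

PLAN of `exists_part`: a continuous `f ≥ 0` with compact support, `f > 0` on `closure D`
(`hX.bdd`); `S x = ∑ᶠ g, f (g x)` is continuous (locally finite, `hX.proper`), invariant and
positive everywhere (`hX.orbit`); `ψ = f / S`. (LibBGR has `per`, and LibQR40 a partition of unity
`exists_pou`; it is enough to do it directly.)
PLAN of `part_int`: `∫⁻ ψ rho = ∫⁻_D ∑_g ψ (g x) rho x = ∫⁻_D rho = 1` (`rho_inv`; `rho_int`).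
PLAN of `kap_int`: on `(-π, π)`: `cos θ ≤ 0` gives `kap = 0`; for `|θ| < π/2`, if `g₀ (sin θ / ε) ≠ 0` then
`|sin θ| < ε ≤ 1/2`, `cos θ ≥ √(1 - ε²) ≥ 1/2` and the cut off is `1`. Substitute `t = sin θ / ε`:
`∫ g₀ (sin θ / ε) dθ = ∫ g₀ (sin θ / ε) cos θ dθ / cos θ`, between `ε` and `ε / √(1 - ε²)`. -/

open MeasureTheory Set Filter Topology
open scoped ContDiff ENNReal NNReal ComplexConjugate

namespace SR85

open BGS (Pl Surface)

variable {Γ : Type} [Group Γ] [MulAction Γ Pl] {D : Set Pl} {G : Dat Γ}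

/-- A partition function. -/
structure Part (Γ : Type) [Group Γ] [MulAction Γ Pl] (ψ : Pl → ℝ) : Prop where
  cont : Continuous ψ
  nonneg : ∀ x, 0 ≤ ψ x
  supp : HasCompactSupport ψ
  sum : ∀ x, ∑' g : Γ, ENNReal.ofReal (ψ (g • x)) = 1

private theorem N9_countable (hX : Surface Γ D) : Countable Γ := by
  have h1 : (Set.univ : Set Γ) ⊆ ⋃ n : ℕ, {γ : Γ | ∃ z ∈ Metric.closedBall (0 : Pl) n,
      γ • z ∈ Metric.closedBall (0 : Pl) n} := by
    intro γ _
    obtain ⟨n, hn⟩ := exists_nat_ge ‖γ • (0 : Pl)‖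
    refine mem_iUnion.2 ⟨n, 0, ?_, ?_⟩
    · rw [mem_closedBall_zero_iff, norm_zero]
      exact Nat.cast_nonneg n
    · rw [mem_closedBall_zero_iff]
      exact hn
  have h2 : (Set.univ : Set Γ).Countable := by
    refine Set.Countable.mono h1 (Set.countable_iUnion fun n => ?_)
    exact (hX.proper _ (isCompact_closedBall (0 : Pl) n)).countable
  exact Set.countable_univ_iff.1 h2

theorem exists_part (hX : Surface Γ D) : ∃ ψ : Pl → ℝ, Part Γ ψ := by
  classical
  obtain ⟨M, hM⟩ := hX.bdd.subset_closedBall (0 : Pl)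
  set f : Pl → ℝ := fun x => max 0 (M + 1 - ‖x‖) with hf
  have hfc : Continuous f := continuous_const.max (continuous_const.sub continuous_norm)
  have hf0 : ∀ x, 0 ≤ f x := fun x => le_max_left _ _
  have hfz : ∀ x, f x ≠ 0 → x ∈ Metric.closedBall (0 : Pl) (M + 1) := by
    intro x hx
    by_contra h
    apply hx
    rw [mem_closedBall_zero_iff, not_le] at h
    show max 0 (M + 1 - ‖x‖) = 0
    exact max_eq_left (by linarith)
  have hfD : ∀ x ∈ D, 1 ≤ f x := by
    intro x hx
    have h1 := hM hx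
    rw [mem_closedBall_zero_iff] at h1
    exact le_trans (by linarith) (le_max_right _ _)
  have hcont : ∀ g : Γ, Continuous fun x : Pl => g • x := fun g => (hX.smooth g).continuous
  -- finiteness
  have hfin : ∀ R : ℝ, {g : Γ | ∃ x ∈ Metric.closedBall (0 : Pl) R, f (g • x) ≠ 0}.Finite := by
    intro R
    refine (hX.proper _ (isCompact_closedBall (0 : Pl) (max R (M + 1)))).subset ?_
    rintro g ⟨x, hx, hgx⟩
    exact ⟨x, Metric.closedBall_subset_closedBall (le_max_left _ _) hx,
      Metric.closedBall_subset_closedBall (le_max_right _ _) (hfz _ hgx)⟩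
  have hfinx : ∀ x : Pl, (Function.support fun g : Γ => f (g • x)).Finite := by
    intro x
    refine (hfin ‖x‖).subset ?_
    intro g hg
    exact ⟨x, by rw [mem_closedBall_zero_iff], hg⟩
  set S : Pl → ℝ := fun x => ∑ᶠ g : Γ, f (g • x) with hS
  have hSc : Continuous S := by
    refine continuous_finsum (fun g => hfc.comp (hcont g)) ?_
    intro x
    refine ⟨Metric.ball x 1, Metric.ball_mem_nhds x one_pos, ?_⟩
    refine (hfin (‖x‖ + 1)).subset ?_
    rintro g ⟨y, hy1, hy2⟩
    refine ⟨y, ?_, hy1⟩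
    rw [mem_closedBall_zero_iff]
    rw [Metric.mem_ball, dist_eq_norm] at hy2
    have := norm_add_le (y - x) x
    rw [sub_add_cancel] at this
    linarith
  have hSpos : ∀ x, 0 < S x := by
    intro x
    obtain ⟨g, hg, -⟩ := hX.orbit x
    have h1 : f (g • x) ≤ S x :=
      single_le_finsum g (hfinx x) fun g' => hf0 _
    have h2 := hfD _ hg
    linarith
  have hSinv : ∀ (h : Γ) x, S (h • x) = S x := by
    intro h x
    show ∑ᶠ g : Γ, f (g • h • x) = ∑ᶠ g : Γ, f (g • x)
    have h1 := finsum_comp_equiv (Equiv.mulRight h) (f := fun g : Γ => f (g • x))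
    rw [← h1]
    refine finsum_congr fun g => ?_
    rw [Equiv.coe_mulRight, mul_smul]
  refine ⟨fun x => f x / S x, hfc.div hSc fun x => (hSpos x).ne', fun x =>
    div_nonneg (hf0 x) (hSpos x).le, ?_, ?_⟩
  · refine HasCompactSupport.intro (isCompact_closedBall (0 : Pl) (M + 1)) ?_
    intro x hx
    have h1 : f x = 0 := by
      by_contra h
      exact hx (hfz x h)
    show f x / S x = 0
    rw [h1, zero_div]
  · intro x
    have h1 : ∀ g : Γ, g ∉ (hfinx x).toFinset → ENNReal.ofReal (f (g • x) / S (g • x)) = 0 := by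
      intro g hg
      rw [Set.Finite.mem_toFinset, Function.notMem_support] at hg
      rw [hg, zero_div, ENNReal.ofReal_zero]
    show ∑' g : Γ, ENNReal.ofReal (f (g • x) / S (g • x)) = 1
    rw [tsum_eq_sum fun g hg => h1 g hg, ← ENNReal.ofReal_sum_of_nonneg fun g _ =>
      div_nonneg (hf0 _) (hSpos _).le]
    have h2 : ∑ g ∈ (hfinx x).toFinset, f (g • x) / S (g • x) = 1 := by
      have h3 : ∀ g ∈ (hfinx x).toFinset, f (g • x) / S (g • x) = f (g • x) / S x := by
        intro g _
        rw [hSinv]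
      rw [Finset.sum_congr rfl h3, ← Finset.sum_div]
      have h4 : S x = ∑ g ∈ (hfinx x).toFinset, f (g • x) :=
        finsum_eq_sum_of_support_subset _ (by rw [Set.Finite.coe_toFinset])
      rw [← h4]
      exact div_self (hSpos x).ne'
    rw [h2, ENNReal.ofReal_one]

theorem part_int (hX : Surface Γ D) (h : HG D G) {ψ : Pl → ℝ} (hψ : Part Γ ψ) :
    ∫ x, ψ x * G.rho x = 1 := by
  classical
  have hcount := N9_countable hX
  have hm : ∀ g : Γ, Measurable fun x : Pl => g • x := fun g => (hX.smooth g).continuous.measurable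
  have hψm : Measurable fun x => ENNReal.ofReal (ψ x) :=
    ENNReal.measurable_ofReal.comp hψ.cont.measurable
  have hρm : Measurable fun x => ENNReal.ofReal (G.rho x) :=
    ENNReal.measurable_ofReal.comp h.rho_cont.measurable
  have hone : ∀ x : Pl, ∑' g : Γ, D.indicator (fun _ => (1 : ℝ≥0∞)) (g • x) = 1 := by
    intro x
    obtain ⟨g, hg, hu⟩ := hX.orbit x
    rw [tsum_eq_single g]
    · exact Set.indicator_of_mem hg _
    · intro g' hg'
      refine Set.indicator_of_notMem ?_ _
      intro h'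
      exact hg' (hu g' h')
  have hDint : ∫⁻ x in D, ENNReal.ofReal (G.rho x) = 1 := by
    have hi : IntegrableOn G.rho D := by
      by_contra hcon
      have h1 := h.rho_int
      rw [integral_undef hcon] at h1
      exact zero_ne_one h1
    rw [← ofReal_integral_eq_lintegral_ofReal hi (Eventually.of_forall fun x => (h.rho_pos x).le),
      h.rho_int, ENNReal.ofReal_one]
  have hkey : ∫⁻ x, ENNReal.ofReal (ψ x) * ENNReal.ofReal (G.rho x) = 1 := by
    have h1 : ∀ x : Pl, ENNReal.ofReal (ψ x) * ENNReal.ofReal (G.rho x) =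
        ∑' g : Γ, (D.indicator (fun _ => (1 : ℝ≥0∞)) (g • x) * ENNReal.ofReal (ψ x)) *
          ENNReal.ofReal (G.rho x) := by
      intro x
      rw [ENNReal.tsum_mul_right, ENNReal.tsum_mul_right, hone, one_mul]
    have hind : Measurable (D.indicator fun _ : Pl => (1 : ℝ≥0∞)) :=
      measurable_const.indicator hX.meas
    calc ∫⁻ x, ENNReal.ofReal (ψ x) * ENNReal.ofReal (G.rho x)
        = ∫⁻ x, ∑' g : Γ, (D.indicator (fun _ => (1 : ℝ≥0∞)) (g • x) * ENNReal.ofReal (ψ x)) *
          ENNReal.ofReal (G.rho x) := lintegral_congr h1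
      _ = ∑' g : Γ, ∫⁻ x, (D.indicator (fun _ => (1 : ℝ≥0∞)) (g • x) * ENNReal.ofReal (ψ x)) *
          ENNReal.ofReal (G.rho x) := by
          refine lintegral_tsum fun g => ?_
          exact (((hind.comp (hm g)).mul hψm).mul hρm).aemeasurable
      _ = ∑' g : Γ, ∫⁻ x, (D.indicator (fun _ => (1 : ℝ≥0∞)) x * ENNReal.ofReal (ψ (g⁻¹ • x))) *
          ENNReal.ofReal (G.rho x) := by
          refine tsum_congr fun g => ?_
          rw [← h.rho_inv g (fun x => D.indicator (fun _ => (1 : ℝ≥0∞)) x *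
            ENNReal.ofReal (ψ (g⁻¹ • x))) (hind.mul (hψm.comp (hm g⁻¹)))]
          refine lintegral_congr fun x => ?_
          simp only [inv_smul_smul]
      _ = ∫⁻ x, ∑' g : Γ, (D.indicator (fun _ => (1 : ℝ≥0∞)) x * ENNReal.ofReal (ψ (g⁻¹ • x))) *
          ENNReal.ofReal (G.rho x) := by
          refine (lintegral_tsum fun g => ?_).symm
          exact ((hind.mul (hψm.comp (hm g⁻¹))).mul hρm).aemeasurable
      _ = ∫⁻ x, D.indicator (fun x => ENNReal.ofReal (G.rho x)) x := by
          refine lintegral_congr fun x => ?_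
          rw [ENNReal.tsum_mul_right, ENNReal.tsum_mul_left]
          have h2 : ∑' g : Γ, ENNReal.ofReal (ψ (g⁻¹ • x)) = 1 := by
            rw [← hψ.sum x]
            exact (Equiv.inv Γ).tsum_eq fun g => ENNReal.ofReal (ψ (g • x))
          rw [h2, mul_one]
          by_cases hx : x ∈ D
          · rw [Set.indicator_of_mem hx, Set.indicator_of_mem hx, one_mul]
          · rw [Set.indicator_of_notMem hx, Set.indicator_of_notMem hx, zero_mul]
      _ = 1 := by rw [lintegral_indicator hX.meas, hDint]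
  rw [integral_eq_lintegral_of_nonneg_ae
    (Eventually.of_forall fun x => mul_nonneg (hψ.nonneg x) (h.rho_pos x).le)
    (hψ.cont.mul h.rho_cont).aestronglyMeasurable]
  have h3 : ∫⁻ x, ENNReal.ofReal (ψ x * G.rho x) = 1 := by
    rw [← hkey]
    refine lintegral_congr fun x => ?_
    rw [ENNReal.ofReal_mul (hψ.nonneg x)]
  rw [h3, ENNReal.toReal_one]

theorem kap_cont {g₀ : ℝ → ℝ} (hg : Bump1 g₀) (ε : ℝ) :
    Continuous (kap g₀ ε) ∧ ∀ z, 0 ≤ kap g₀ ε z := by
  constructor
  · unfold kap
    exact (hg.cont.comp (Complex.continuous_im.div_const ε)).mul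
      (((continuous_const.mul Complex.continuous_re).max continuous_const).min continuous_const)
  · intro z
    exact mul_nonneg (hg.nonneg _) (le_min (le_max_right _ _) zero_le_one)

theorem exists_bump1 : ∃ g₀ : ℝ → ℝ, Bump1 g₀ := by
  let b : ContDiffBump (0 : ℝ) := ⟨1 / 2, 1, by norm_num, by norm_num⟩
  refine ⟨b.normed volume, b.continuous_normed, fun t => b.nonneg_normed t, ?_, b.integral_normed⟩
  intro t ht
  have h1 : t ∉ Function.support (b.normed volume) := by
    rw [b.support_normed_eq, Metric.mem_ball, dist_zero_right, Real.norm_eq_abs, not_lt]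
    exact ht
  exact Function.notMem_support.1 h1

theorem kap_int {g₀ : ℝ → ℝ} (hg : Bump1 g₀) {ε : ℝ} (hε : 0 < ε) (hε' : ε ≤ 1 / 2) :
    ε ≤ ∫ θ in (-Real.pi)..Real.pi, kap g₀ ε (Complex.exp ((θ : ℂ) * Complex.I)) ∧
      ∫ θ in (-Real.pi)..Real.pi, kap g₀ ε (Complex.exp ((θ : ℂ) * Complex.I)) ≤
        ε / √(1 - ε ^ 2) := by
  set F : ℝ → ℝ := fun θ => kap g₀ ε (Complex.exp ((θ : ℂ) * Complex.I)) with hF
  have hFc : Continuous F := (kap_cont hg ε).1.comp (by fun_prop)
  have hF0 : ∀ θ, 0 ≤ F θ := fun θ => (kap_cont hg ε).2 _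
  have hFe : ∀ θ, F θ = g₀ (Real.sin θ / ε) * min (max (2 * Real.cos θ) 0) 1 := by
    intro θ
    simp only [hF, kap, Complex.exp_ofReal_mul_I_im, Complex.exp_ofReal_mul_I_re]
  have hi : ∀ a b, IntervalIntegrable F volume a b := fun a b => hFc.intervalIntegrable a b
  have hπ := Real.pi_pos
  have hzero : ∀ θ, Real.cos θ ≤ 0 → F θ = 0 := by
    intro θ hθ
    rw [hFe, max_eq_right (by linarith), min_eq_left zero_le_one, mul_zero]
  -- the two outer parts
  have hl : ∫ θ in (-Real.pi)..(-(Real.pi / 2)), F θ = 0 := by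
    have h1 : ∀ θ ∈ Set.uIcc (-Real.pi) (-(Real.pi / 2)), F θ = (fun _ => (0 : ℝ)) θ := by
      intro θ hθ
      rw [Set.uIcc_of_le (by linarith)] at hθ
      apply hzero
      rw [← Real.cos_neg]
      exact Real.cos_nonpos_of_pi_div_two_le_of_le (by linarith [hθ.2]) (by linarith [hθ.1])
    rw [intervalIntegral.integral_congr h1, intervalIntegral.integral_zero]
  have hr : ∫ θ in (Real.pi / 2)..Real.pi, F θ = 0 := by
    have h1 : ∀ θ ∈ Set.uIcc (Real.pi / 2) Real.pi, F θ = (fun _ => (0 : ℝ)) θ := by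
      intro θ hθ
      rw [Set.uIcc_of_le (by linarith)] at hθ
      apply hzero
      exact Real.cos_nonpos_of_pi_div_two_le_of_le hθ.1 (by linarith [hθ.2])
    rw [intervalIntegral.integral_congr h1, intervalIntegral.integral_zero]
  have hsplit : ∫ θ in (-Real.pi)..Real.pi, F θ = ∫ θ in (-(Real.pi / 2))..(Real.pi / 2), F θ := by
    rw [← intervalIntegral.integral_add_adjacent_intervals (hi (-Real.pi) (-(Real.pi / 2)))
      (hi (-(Real.pi / 2)) Real.pi), ← intervalIntegral.integral_add_adjacent_intervals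
      (hi (-(Real.pi / 2)) (Real.pi / 2)) (hi (Real.pi / 2) Real.pi), hl, hr, zero_add, add_zero]
  have hε1 : ε ^ 2 ≤ 1 / 4 := by nlinarith
  have hsq : 1 / 2 ≤ √(1 - ε ^ 2) := by
    rw [show (1 / 2 : ℝ) = √(1 / 4) by
      rw [show (1 / 4 : ℝ) = (1 / 2) ^ 2 by norm_num]
      exact (Real.sqrt_sq (by norm_num)).symm]
    exact Real.sqrt_le_sqrt (by linarith)
  -- in the middle
  have hmid : ∀ θ ∈ Icc (-(Real.pi / 2)) (Real.pi / 2), F θ = g₀ (Real.sin θ / ε) ∧
      √(1 - ε ^ 2) * F θ ≤ F θ * Real.cos θ := by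
    intro θ hθ
    have hcos : 0 ≤ Real.cos θ := Real.cos_nonneg_of_mem_Icc hθ
    by_cases h1 : 1 ≤ |Real.sin θ / ε|
    · have h2 := hg.supp _ h1
      have h3 : F θ = 0 := by rw [hFe, h2, zero_mul]
      rw [h3, h2]
      simp
    · push Not at h1
      rw [abs_div, abs_of_pos hε, div_lt_one hε] at h1
      have h2 : Real.sin θ ^ 2 ≤ ε ^ 2 := by
        rw [← sq_abs]
        exact pow_le_pow_left₀ (abs_nonneg _) h1.le 2
      have h3 : √(1 - ε ^ 2) ≤ Real.cos θ := by
        rw [← Real.sqrt_sq hcos]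
        apply Real.sqrt_le_sqrt
        have := Real.sin_sq_add_cos_sq θ
        linarith
      refine ⟨?_, ?_⟩
      · rw [hFe, max_eq_left (by linarith), min_eq_right (by linarith), mul_one]
      · rw [mul_comm (F θ)]
        exact mul_le_mul_of_nonneg_right h3 (hF0 θ)
  have hsub : ∫ θ in (-(Real.pi / 2))..(Real.pi / 2), F θ * Real.cos θ = ε := by
    have h1 : ∀ θ ∈ Set.uIcc (-(Real.pi / 2)) (Real.pi / 2), F θ * Real.cos θ =
        ((fun t => g₀ (t / ε)) ∘ Real.sin) θ * Real.cos θ := by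
      intro θ hθ
      rw [Set.uIcc_of_le (by linarith)] at hθ
      rw [(hmid θ hθ).1]
      rfl
    have hgc : Continuous fun t => g₀ (t / ε) := hg.cont.comp (continuous_id.div_const ε)
    rw [intervalIntegral.integral_congr h1, intervalIntegral.integral_comp_mul_deriv
      (fun θ _ => Real.hasDerivAt_sin θ) Real.continuous_cos.continuousOn
      hgc, Real.sin_neg, Real.sin_pi_div_two,
      intervalIntegral.integral_comp_div _ hε.ne', smul_eq_mul]
    have h2 : ∫ t in (-1 / ε)..(1 / ε), g₀ t = ∫ t, g₀ t := by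
      refine intervalIntegral.integral_eq_integral_of_support_subset ?_
      intro t ht
      have h3 : |t| < 1 := by
        by_contra hcon
        exact ht (hg.supp t (not_lt.1 hcon))
      have h4 : 1 < 1 / ε := by
        rw [lt_div_iff₀ hε]
        linarith
      have h5 := abs_lt.1 h3
      have h6 : -1 / ε = -(1 / ε) := by ring
      rw [h6]
      exact ⟨by linarith, by linarith⟩
    rw [h2, hg.int, mul_one]
  rw [hsplit]
  constructor
  · rw [← hsub]
    refine intervalIntegral.integral_mono_on (by linarith)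
      ((hFc.mul Real.continuous_cos).intervalIntegrable _ _) (hi _ _) fun θ _ => ?_
    exact mul_le_of_le_one_right (hF0 θ) (Real.cos_le_one θ)
  · rw [le_div_iff₀ (by linarith), mul_comm, ← intervalIntegral.integral_const_mul]
    have h9 : ∫ θ in (-(Real.pi / 2))..(Real.pi / 2), √(1 - ε ^ 2) * F θ ≤
        ∫ θ in (-(Real.pi / 2))..(Real.pi / 2), F θ * Real.cos θ :=
      intervalIntegral.integral_mono_on (by linarith)
        ((continuous_const.mul hFc).intervalIntegrable _ _)
        ((hFc.mul Real.continuous_cos).intervalIntegrable _ _) fun θ hθ => (hmid θ hθ).2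
    rw [hsub] at h9
    exact h9

end SR85
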