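import Pool.Agent.LibSR85.N8
import Pool.Agent.LibSR85.N9

/-! Row SR85 N10: finiteness and domination.

PLAN of `min_len`: conjugating (`ax_conj`), the axis meets `closure D`; the set of the `g ≠ 1` with
`d x (g x) ≤ 1` for some `x ∈ closure D` is finite (`fin_return`), and for each of them
`x ↦ d x (g x)` is continuous and positive on the compact set `closure D` (no fixed points, `hX.orbit`).
PLAN of `fin_near`: `localise` with `l₁` from `min_len`: for `ε₁` small `‖al - 1‖ ≤ ε₁` gives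
`|q| ≤ 1`, and `d x (g x) ≤ l + 2 |q| ≤ L + 2` (`d_tri`, `al_axis`, `d_smul`); `fin_return`. PLAN of
`fin_ax`: for `x = E c (s u) ∈ N`: `d x (g x) = l ≤ L` (`al_axis`).
PLAN of `Lam_fin`: finitely many nonzero terms (`fin_ax` for `tsupport ψ`: if `Iax ψ ≠ 0` the axis meets it).
PLAN of `dom`: the open sets `{x | 0 < ψ₀ (k x)}` cover the compact set `tsupport ψ₁` (`Part.sum`), so
`ψ₁ ≤ C ∑_{k ∈ F} ψ₀ (k ·)`, `F` finite. `Iax (ψ₀ ∘ k) (cc g) (uu g) = Iax ψ₀ (k c) (R k c u)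
= Iax ψ₀ (cc g') (uu g')` with `g' = k g k⁻¹` (`ax_conj`, `ax_unique`, translation invariance of the
integral), `Dax` and `ll` of `g'` and `g` are equal (`ax_conj`, `ax_unique`, `Dax_const`), and
`g ↦ k g k⁻¹` is a bijection: `∑_g Iax (ψ₀ ∘ k) g / Dax g = Lam ψ₀ T`. -/

open MeasureTheory Set Filter Topology
open scoped ContDiff ENNReal NNReal ComplexConjugate

namespace SR85

open BGS (Pl Surface)

variable {Γ : Type} [Group Γ] [MulAction Γ Pl] {D : Set Pl} {G : Dat Γ}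

/-- A choice of the axes. -/
structure Axes (G : Dat Γ) where
  cc : Γ → Pl
  uu : Γ → ℂ
  ll : Γ → ℝ
  ax : ∀ g : Γ, g ≠ 1 → Ax G g (cc g) (uu g) (ll g)

/-- The sum over the elements of the group. -/
noncomputable def Lam (G : Dat Γ) (A : Axes G) (ψ : Pl → ℝ) (T : ℝ) : ℝ≥0∞ :=
  ∑' g : {g : Γ // g ≠ 1}, if A.ll g.1 ≤ T then
    ENNReal.ofReal (Iax G ψ (A.cc g.1) (A.uu g.1) / Dax G g.1 (A.cc g.1)) else 0

private theorem N10_ne (h : HG D G) {g : Γ} {c : Pl} {u : ℂ} {l : ℝ} (ha : Ax G g c u l) :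
    g ≠ 1 := by
  rintro rfl
  have h1 := ha.mn c
  rw [one_smul, d_self h] at h1
  exact absurd ha.pos (not_lt.mpr h1)

private theorem N10_d0 (h : HG D G) {g : Γ} {c : Pl} {u : ℂ} {l : ℝ} (ha : Ax G g c u l) :
    G.d c (g • c) = l := by
  have h1 := (al_axis h ha 0).2.2.2
  rwa [Complex.ofReal_zero, zero_mul, h.E_zero] at h1

private theorem N10_low (hX : Surface Γ D) (h : HG D G) (g : Γ) :
    ∃ m : ℝ, 0 < m ∧ (g ≠ 1 → ∀ x ∈ closure D, m ≤ G.d x (g • x)) := by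
  by_cases hg : g = 1
  · exact ⟨1, one_pos, fun h' => absurd hg h'⟩
  have hD : IsCompact (closure D) := hX.bdd.isCompact_closure
  have hc : Continuous fun x : Pl => G.d x (g • x) :=
    (d_cont h).comp (continuous_id.prodMk (hX.smooth g).continuous)
  by_cases hne : (closure D).Nonempty
  · obtain ⟨x₀, hx₀, hmin⟩ := hD.exists_isMinOn hne hc.continuousOn
    exact ⟨G.d x₀ (g • x₀), d_pos h (al_norm hX h hg x₀).2.1, fun _ x hx => hmin hx⟩
  · exact ⟨1, one_pos, fun _ x hx => absurd ⟨x, hx⟩ hne⟩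

theorem min_len (hX : Surface Γ D) (h : HG D G) : ∃ l₁ : ℝ, 0 < l₁ ∧
    ∀ (g : Γ) (c : Pl) (u : ℂ) (l : ℝ), Ax G g c u l → l₁ ≤ l := by
  have hD : IsCompact (closure D) := hX.bdd.isCompact_closure
  have hfin := fin_return hX h hD 1
  choose m hm hm' using N10_low hX h
  have hev : ∀ᶠ l : ℝ in 𝓝[>] (0 : ℝ),
      ∀ g ∈ {g : Γ | ∃ x ∈ closure D, ∃ y ∈ closure D, G.d x (g • y) ≤ 1}, l ≤ m g := by
    rw [Filter.eventually_all_finite hfin]
    intro g _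
    filter_upwards [Ioc_mem_nhdsGT (hm g)] with l hl
    exact hl.2
  have hev2 : ∀ᶠ l : ℝ in 𝓝[>] (0 : ℝ), l ∈ Ioc (0 : ℝ) 1 := Ioc_mem_nhdsGT one_pos
  obtain ⟨l₀, h1, h3⟩ := (hev.and hev2).exists
  refine ⟨l₀, h3.1, fun g c u l ha => ?_⟩
  by_contra hlt
  rw [not_le] at hlt
  have hg := N10_ne h ha
  obtain ⟨k, hk⟩ := move hX c
  have h4 : G.d (k • c) ((k * g * k⁻¹) • (k • c)) = l := by
    rw [mul_smul, inv_smul_smul, mul_smul, d_smul h]
    exact N10_d0 h ha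
  have hg' : k * g * k⁻¹ ≠ 1 := by
    intro h5
    apply hg
    have h6 : k * g = k := by
      have := congrArg (fun z => z * k) h5
      simpa using this
    simpa using h6
  have h5 : k * g * k⁻¹ ∈ {g : Γ | ∃ x ∈ closure D, ∃ y ∈ closure D, G.d x (g • y) ≤ 1} :=
    ⟨k • c, subset_closure hk, k • c, subset_closure hk, by
      rw [h4]
      exact hlt.le.trans h3.2⟩
  have h6 := h1 _ h5
  have h7 := hm' _ hg' (k • c) (subset_closure hk)
  rw [h4] at h7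
  linarith

theorem fin_near (hX : Surface Γ D) (h : HG D G) (A : Axes G) {N : Set Pl} (hN : IsCompact N) :
    ∃ ε₁ : ℝ, 0 < ε₁ ∧ ∀ L : ℝ,
      {g : Γ | g ≠ 1 ∧ A.ll g ≤ L ∧ ∃ x ∈ N, ‖al G g x - 1‖ ≤ ε₁}.Finite := by
  obtain ⟨l₁, hl₁, hmin⟩ := min_len hX h
  obtain ⟨C, hC, hloc⟩ := localise hX h hl₁
  refine ⟨C / 2, by positivity, fun L => ?_⟩
  refine (fin_return hX h hN (L + 1)).subset ?_
  rintro g ⟨hg, hl, x, hx, hal⟩
  have ha := A.ax g hg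
  obtain ⟨s, q, hxe, hq⟩ := hloc g _ _ _ ha (hmin _ _ _ _ ha) x
  have hq1 : |q| ≤ 1 / 2 := by
    have h1 : C * min |q| 1 ≤ C * (1 / 2) := by linarith
    have h2 : min |q| 1 ≤ 1 / 2 := le_of_mul_le_mul_left h1 hC
    rcases min_le_iff.mp h2 with h3 | h3
    · exact h3
    · norm_num at h3
  set p := G.E (A.cc g) ((s : ℂ) * A.uu g) with hp
  have hw : ‖Complex.I * G.dr (A.cc g) (A.uu g) s‖ = 1 := by
    rw [norm_mul, Complex.norm_I, one_mul, h.dr_norm _ _ ha.nu]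
  have hd1 : G.d p x = |q| := by
    rw [hxe]
    exact d_E h p hw q
  have hd2 : G.d x p = |q| := by rw [h.d_symm, hd1]
  have hd3 : G.d p (g • p) = A.ll g := (al_axis h ha s).2.2.2
  have hd4 : G.d (g • p) (g • x) = |q| := by rw [d_smul h, hd1]
  refine ⟨x, hx, x, hx, ?_⟩
  have h1 := h.d_tri x p (g • x)
  have h2 := h.d_tri p (g • p) (g • x)
  rw [hd2] at h1
  rw [hd3, hd4] at h2
  linarith

theorem fin_ax (hX : Surface Γ D) (h : HG D G) (A : Axes G) {N : Set Pl} (hN : IsCompact N)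
    (L : ℝ) : {g : Γ | g ≠ 1 ∧ A.ll g ≤ L ∧
      ∃ s : ℝ, G.E (A.cc g) ((s : ℂ) * A.uu g) ∈ N}.Finite := by
  refine (fin_return hX h hN L).subset ?_
  rintro g ⟨hg, hl, s, hs⟩
  refine ⟨_, hs, _, hs, ?_⟩
  rw [(al_axis h (A.ax g hg) s).2.2.2]
  exact hl

theorem Lam_fin (hX : Surface Γ D) (h : HG D G) (A : Axes G) {ψ : Pl → ℝ} (hψ : Continuous ψ)
    (hψc : HasCompactSupport ψ) (T : ℝ) : Lam G A ψ T < ⊤ := by
  have hfin := fin_ax hX h A (N := tsupport ψ) hψc T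
  have hfin' : {g : {g : Γ // g ≠ 1} | g.1 ∈ {g : Γ | g ≠ 1 ∧ A.ll g ≤ T ∧
      ∃ s : ℝ, G.E (A.cc g) ((s : ℂ) * A.uu g) ∈ tsupport ψ}}.Finite :=
    hfin.preimage Subtype.val_injective.injOn
  unfold Lam
  rw [tsum_eq_sum (s := hfin'.toFinset)]
  · rw [ENNReal.sum_lt_top]
    intro g _
    split_ifs
    · exact ENNReal.ofReal_lt_top
    · exact ENNReal.zero_lt_top
  · intro g hg
    rw [Set.Finite.mem_toFinset] at hg
    split_ifs with hT
    · have h1 : ∀ s : ℝ, ψ (G.E (A.cc g.1) ((s : ℂ) * A.uu g.1)) = 0 := by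
        intro s
        by_contra h2
        exact hg ⟨g.2, hT, s, subset_tsupport _ h2⟩
      have h2 : Iax G ψ (A.cc g.1) (A.uu g.1) = 0 := by
        unfold Iax
        simp only [h1, integral_zero]
      rw [h2, zero_div, ENNReal.ofReal_zero]
    · rfl

/-- Invariance of the data of the axis. -/
theorem ax_data (hX : Surface Γ D) (h : HG D G) (A : Axes G) {g : Γ} {c : Pl} {u : ℂ} {l : ℝ}
    (ha : Ax G g c u l) (ψ : Pl → ℝ) :
    A.ll g = l ∧ Iax G ψ (A.cc g) (A.uu g) = Iax G ψ c u ∧ Dax G g (A.cc g) = Dax G g c := by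
  have hg := N10_ne h ha
  obtain ⟨h1, s₀, h2⟩ := ax_unique hX h ha (A.ax g hg)
  refine ⟨h1.symm, ?_, ?_⟩
  · unfold Iax
    have h3 : (fun s : ℝ => ψ (G.E (A.cc g) ((s : ℂ) * A.uu g))) =
        fun s : ℝ => (fun t : ℝ => ψ (G.E c ((t : ℂ) * u))) (s + s₀) := by
      funext s
      rw [h2 s]
    rw [h3]
    exact integral_add_right_eq_self (μ := volume) (fun t : ℝ => ψ (G.E c ((t : ℂ) * u))) s₀
  · have h4 := h2 0
    rw [Complex.ofReal_zero, zero_mul, h.E_zero, zero_add] at h4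
    rw [h4]
    exact Dax_const hX h ha s₀

private theorem N10_cover (hX : Surface Γ D) {ψ₀ ψ₁ : Pl → ℝ} (hψ : Part Γ ψ₀)
    (hψ₁ : Continuous ψ₁) (hψ₁0 : ∀ x, 0 ≤ ψ₁ x) (hψ₁c : HasCompactSupport ψ₁) :
    ∃ (F : Finset Γ) (C : ℝ), 0 < C ∧ ∀ x, ψ₁ x ≤ C * ∑ k ∈ F, ψ₀ (k • x) := by
  have hk : ∀ k : Γ, Continuous fun x : Pl => ψ₀ (k • x) := fun k =>
    hψ.cont.comp (hX.smooth k).continuous
  obtain ⟨F, hF⟩ := hψ₁c.isCompact.elim_finite_subcover (fun k : Γ => {x : Pl | 0 < ψ₀ (k • x)})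
    (fun k => isOpen_lt continuous_const (hk k)) (by
      intro x _
      rw [mem_iUnion]
      by_contra hno
      simp only [not_exists, mem_ofPred_eq, not_lt] at hno
      have h1 := hψ.sum x
      have h2 : ∀ g : Γ, ENNReal.ofReal (ψ₀ (g • x)) = 0 := fun g =>
        ENNReal.ofReal_eq_zero.mpr (hno g)
      simp only [h2, tsum_zero] at h1
      exact zero_ne_one h1)
  have hS : Continuous fun x : Pl => ∑ k ∈ F, ψ₀ (k • x) :=
    continuous_finsetSum _ fun k _ => hk k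
  have hS0 : ∀ x : Pl, 0 ≤ ∑ k ∈ F, ψ₀ (k • x) := fun x =>
    Finset.sum_nonneg fun k _ => hψ.nonneg _
  have hSp : ∀ x ∈ tsupport ψ₁, 0 < ∑ k ∈ F, ψ₀ (k • x) := by
    intro x hx
    obtain ⟨k, hk1⟩ := mem_iUnion.mp (hF hx)
    obtain ⟨hkF, hk2⟩ := mem_iUnion.mp hk1
    exact lt_of_lt_of_le hk2
      (Finset.single_le_sum (f := fun k : Γ => ψ₀ (k • x)) (fun k _ => hψ.nonneg _) hkF)
  by_cases hne : (tsupport ψ₁).Nonempty
  · obtain ⟨x₀, hx₀, hmin⟩ := hψ₁c.isCompact.exists_isMinOn hne hS.continuousOn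
    obtain ⟨x₁, -, hmax⟩ := hψ₁c.isCompact.exists_isMaxOn hne hψ₁.continuousOn
    have hm := hSp x₀ hx₀
    refine ⟨F, (ψ₁ x₁ + 1) / ∑ k ∈ F, ψ₀ (k • x₀),
      div_pos (by linarith [hψ₁0 x₁]) hm, fun x => ?_⟩
    by_cases hx : x ∈ tsupport ψ₁
    · have h1 : ψ₁ x ≤ ψ₁ x₁ := hmax hx
      have h2 : ∑ k ∈ F, ψ₀ (k • x₀) ≤ ∑ k ∈ F, ψ₀ (k • x) := hmin hx
      rw [div_mul_eq_mul_div, le_div_iff₀ hm]
      exact mul_le_mul (by linarith) h2 hm.le (by linarith [hψ₁0 x₁])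
    · rw [image_eq_zero_of_notMem_tsupport hx]
      exact mul_nonneg (div_nonneg (by linarith [hψ₁0 x₁]) hm.le) (hS0 x)
  · refine ⟨F, 1, one_pos, fun x => ?_⟩
    have hx : x ∉ tsupport ψ₁ := fun hx => hne ⟨x, hx⟩
    rw [image_eq_zero_of_notMem_tsupport hx, one_mul]
    exact hS0 x

omit [MulAction Γ Pl] in
private theorem N10_conj_ne {g : Γ} (k : Γ) (hg : g ≠ 1) : k * g * k⁻¹ ≠ 1 := by
  intro h5
  apply hg
  have h6 : k * g = k := by
    have := congrArg (fun z => z * k) h5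
    simpa using this
  simpa using h6

private theorem N10_conj (hX : Surface Γ D) (h : HG D G) (A : Axes G) {g : Γ} (hg : g ≠ 1) (k : Γ)
    (ψ : Pl → ℝ) :
    A.ll (k * g * k⁻¹) = A.ll g ∧
      Iax G ψ (A.cc (k * g * k⁻¹)) (A.uu (k * g * k⁻¹)) =
        ∫ s : ℝ, ψ (k • G.E (A.cc g) ((s : ℂ) * A.uu g)) ∧
      Dax G (k * g * k⁻¹) (A.cc (k * g * k⁻¹)) = Dax G g (A.cc g) := by
  obtain ⟨h1, h2, h3⟩ := ax_conj hX h (A.ax g hg) k
  obtain ⟨h4, h5, h6⟩ := ax_data hX h A h1 ψ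
  refine ⟨h4, ?_, by rw [h6, h2]⟩
  rw [h5]
  unfold Iax
  simp only [h3]

private theorem N10_term (hX : Surface Γ D) (h : HG D G) (A : Axes G) {ψ₀ ψ₁ : Pl → ℝ}
    (hψ : Part Γ ψ₀) (hψ₁ : Continuous ψ₁) (hψ₁c : HasCompactSupport ψ₁) {F : Finset Γ} {C : ℝ}
    (hC : 0 < C) (hle : ∀ x, ψ₁ x ≤ C * ∑ k ∈ F, ψ₀ (k • x)) (T : ℝ) {g : Γ} (hg : g ≠ 1) :
    (if A.ll g ≤ T then ENNReal.ofReal (Iax G ψ₁ (A.cc g) (A.uu g) / Dax G g (A.cc g)) else 0) ≤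
      ENNReal.ofReal C * ∑ k ∈ F, (if A.ll (k * g * k⁻¹) ≤ T then
        ENNReal.ofReal (Iax G ψ₀ (A.cc (k * g * k⁻¹)) (A.uu (k * g * k⁻¹)) /
          Dax G (k * g * k⁻¹) (A.cc (k * g * k⁻¹))) else 0) := by
  have ha := A.ax g hg
  split_ifs with hT
  swap
  · exact zero_le
  have hDp : 0 < Dax G g (A.cc g) := by
    refine lt_of_lt_of_le ?_ (Dax_low hX h ha)
    have h1 : 0 < Real.sinh (G.a * A.ll g / 2) :=
      Real.sinh_pos_iff.mpr (by have := mul_pos h.a_pos ha.pos; linarith)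
    positivity
  have hint : ∀ k : Γ, Integrable fun s : ℝ => ψ₀ (k • G.E (A.cc g) ((s : ℂ) * A.uu g)) := by
    intro k
    obtain ⟨h1, -, h3⟩ := ax_conj hX h ha k
    have h4 := axis_int (D := D) h hψ.cont hψ.supp (c := k • A.cc g) h1.nu
    simpa only [h3] using h4
  have hI : Iax G ψ₁ (A.cc g) (A.uu g) ≤
      C * ∑ k ∈ F, ∫ s : ℝ, ψ₀ (k • G.E (A.cc g) ((s : ℂ) * A.uu g)) := by
    rw [← integral_finsetSum F fun k _ => hint k, ← integral_const_mul]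
    unfold Iax
    refine integral_mono (axis_int (D := D) h hψ₁ hψ₁c ha.nu)
      ((integrable_finsetSum F fun k _ => hint k).const_mul C) fun s => ?_
    exact hle _
  have hI' : Iax G ψ₁ (A.cc g) (A.uu g) / Dax G g (A.cc g) ≤
      C * ∑ k ∈ F, (∫ s : ℝ, ψ₀ (k • G.E (A.cc g) ((s : ℂ) * A.uu g))) / Dax G g (A.cc g) := by
    rw [← Finset.sum_div, ← mul_div_assoc]
    exact div_le_div_of_nonneg_right hI hDp.le
  refine (ENNReal.ofReal_le_ofReal hI').trans ?_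
  rw [ENNReal.ofReal_mul hC.le]
  gcongr
  rw [ENNReal.ofReal_sum_of_nonneg fun k _ =>
    div_nonneg (integral_nonneg fun s => hψ.nonneg _) hDp.le]
  refine Finset.sum_le_sum fun k _ => ?_
  obtain ⟨h1, h2, h3⟩ := N10_conj hX h A hg k ψ₀
  rw [h1, if_pos hT, h2, h3]

theorem dom (hX : Surface Γ D) (h : HG D G) (A : Axes G) {ψ₀ ψ₁ : Pl → ℝ} (hψ : Part Γ ψ₀)
    (hψ₁ : Continuous ψ₁) (hψ₁0 : ∀ x, 0 ≤ ψ₁ x) (hψ₁c : HasCompactSupport ψ₁) :
    ∃ C : ℝ, 0 < C ∧ ∀ T, Lam G A ψ₁ T ≤ ENNReal.ofReal C * Lam G A ψ₀ T := by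
  obtain ⟨F, C, hC, hle⟩ := N10_cover hX hψ hψ₁ hψ₁0 hψ₁c
  refine ⟨C * (F.card + 1), by positivity, fun T => ?_⟩
  let t : {g : Γ // g ≠ 1} → ℝ≥0∞ := fun g => if A.ll g.1 ≤ T then
    ENNReal.ofReal (Iax G ψ₀ (A.cc g.1) (A.uu g.1) / Dax G g.1 (A.cc g.1)) else 0
  have ht : Lam G A ψ₀ T = ∑' g, t g := rfl
  let e : Γ → ({g : Γ // g ≠ 1} ≃ {g : Γ // g ≠ 1}) := fun k =>
    { toFun := fun g => ⟨k * g.1 * k⁻¹, N10_conj_ne k g.2⟩
      invFun := fun g => ⟨k⁻¹ * g.1 * k, by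
        have := N10_conj_ne k⁻¹ g.2
        rwa [inv_inv] at this⟩
      left_inv := fun g => Subtype.ext (by simp [mul_assoc])
      right_inv := fun g => Subtype.ext (by simp [mul_assoc]) }
  have h1 : Lam G A ψ₁ T ≤ ∑' g : {g : Γ // g ≠ 1}, ENNReal.ofReal C * ∑ k ∈ F, t (e k g) := by
    unfold Lam
    exact ENNReal.tsum_le_tsum fun g => N10_term hX h A hψ hψ₁ hψ₁c hC hle T g.2
  refine h1.trans ?_
  rw [ENNReal.tsum_mul_left, Summable.tsum_finsetSum fun _ _ => ENNReal.summable]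
  have h2 : ∀ k ∈ F, ∑' g, t (e k g) = Lam G A ψ₀ T := fun k _ => by
    rw [(e k).tsum_eq t, ht]
  rw [Finset.sum_congr rfl h2, Finset.sum_const, nsmul_eq_mul, ENNReal.ofReal_mul hC.le,
    mul_assoc]
  gcongr
  rw [ENNReal.ofReal_add (by positivity) zero_le_one, ENNReal.ofReal_natCast]
  exact le_self_add

end SR85
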