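import Pool.Agent.LibSR85.N1
import Pool.Agent.LibSR85.B5
import Pool.Agent.LibSR85.C5

/-! Row SR85 N3 (STRONG): near the axis, in polar coordinates centred at a point `c` of the axis.

`x θ = E c (r u e^{iθ})`, `1 ≤ r ≤ R₀`, `p = x 0 = E c (r u)` on the axis, `Dg = J p (g p) (U p (g p)
+ U (g p) p) - 2` (`= tr P - 2`).

PLAN. All constants depend on `R₀`. Let `β θ = B c (u e^{iθ}) r`, `β₀ = β 0`; `sinh a / a ≤ β ≤
sinh (b R₀) / b`. By `E_u` (`k = 1`) the frame velocity of `x θ` is `ξ = β I w`,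
`w = dr c (u e^{iθ}) r = -di x c`. So `d (x θ) p ≤ C |θ|` (`len`) and, for `|θ| ≤ 1/C`, `J_two` with
`g`: `|log J x (g x) - log J p (g p)| ≤ C |θ|`, `|U x (g x) - U p (g p)|`, `|U (g x) x - U (g p) p| ≤ C |θ|`
(`d (g x) (g p) = d x p`; `U (g⁻¹ x) x = U x (g x)` by `U_smul`), and `|β θ - β₀| ≤ C |θ|` (`distort1` needs distance `≥ 2`
from `c`: so assume `2 ≤ r`). The direction `w`: by `du` (first point moving, second point `c`)
`w' = I w (-om ξ + U c x β)`; with `u` = `di x (g x)`, `u' = I u (-om ξ - U (g x) x y₀ + y₁ / J)`: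
`(w conj u)' = I w conj u (U c x β + U (g x) x y₀ - y₁ / J)`, bounded by `C`; so
`‖w conj di x (g x) - 1‖ ≤ C |θ|` (equal to `1` at `θ = 0`, `al_axis`, `di_back`), and the same for
`-di x (g⁻¹ x)`. Then `y₀ = β Re (w conj u) = β₀ + O(θ)`, `y₁` the same, and
`turn = β₀ (U (g p) p + U (g⁻¹ p) p) + O(|θ| + e^{-a l})` as `1 / J ≤ a / sinh (a l)`. -/

open MeasureTheory Set Filter Topology
open scoped ContDiff ENNReal NNReal ComplexConjugate

namespace SR85

open BGS (Pl Surface)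

variable {Γ : Type} [Group Γ] [MulAction Γ Pl] {D : Set Pl} {G : Dat Γ}

/-- The point with polar coordinates `r, θ` about `c`; `θ` is measured from `u`. -/
noncomputable def pol (G : Dat Γ) (c : Pl) (u : ℂ) (r θ : ℝ) : Pl :=
  G.E c ((r : ℂ) * (u * Complex.exp ((θ : ℂ) * Complex.I)))


theorem N3_smul_der (hX : Surface Γ D) (h : HG D G) (k : Γ) {x : ℝ → Pl} {x' : Pl} {t : ℝ}
    (hx : HasDerivAt x x' t) : ∃ y' : Pl, HasDerivAt (fun r => k • x r) y' t ∧
      ‖G.fi (k • x t) y'‖ = ‖G.fi (x t) x'‖ := by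
  have h1 : HasFDerivAt (fun z : Pl => k • z) (fderiv ℝ (fun z : Pl => k • z) (x t)) (x t) :=
    ((hX.smooth k).differentiable (by simp) _).hasFDerivAt
  refine ⟨_, h1.comp_hasDerivAt t hx, ?_⟩
  rw [h.fi_smul, norm_mul, h.R_norm, one_mul]

theorem N3_im (v w : ℂ) (hw : ‖w‖ = 1) : |(v * conj w).im| ≤ ‖v‖ := by
  refine (Complex.abs_im_le_norm _).trans ?_
  rw [norm_mul, RCLike.norm_conj, hw, mul_one]

theorem N3_ne (h : HG D G) {x y : Pl} (hxy : 1 ≤ G.d x y) : x ≠ y := by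
  rintro rfl
  rw [d_self h] at hxy
  linarith

theorem N3_U (h : HG D G) {x y : Pl} (hxy : 1 ≤ G.d x y) :
    |G.U x y| ≤ G.b * Real.cosh G.b / Real.sinh G.b := by
  rw [abs_of_pos (h.a_pos.trans_le (U_low h (N3_ne h hxy)))]
  exact U_le1 h hxy

theorem N3_J (h : HG D G) {x y : Pl} {l : ℝ} (hl : 0 < l) (hxy : l ≤ G.d x y) :
    1 / G.J x y ≤ G.a / Real.sinh (G.a * l) := by
  have hne : x ≠ y := by
    rintro rfl
    rw [d_self h] at hxy
    linarith
  have ha := h.a_pos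
  have h1 := J_low h hne
  have h2 : 0 < Real.sinh (G.a * l) := Real.sinh_pos_iff.2 (mul_pos ha hl)
  have h3 : Real.sinh (G.a * l) ≤ Real.sinh (G.a * G.d x y) :=
    Real.sinh_le_sinh.2 (mul_le_mul_of_nonneg_left hxy ha.le)
  rw [div_le_div_iff₀ (J_pos h hne) h2, one_mul]
  rw [div_le_iff₀ ha] at h1
  linarith

/-- the direction to a moving point -/
theorem N3_k1 (hX : Surface Γ D) (h : HG D G) (k : Γ) {x : ℝ → Pl} {x' : Pl} {t : ℝ}
    (hx : HasDerivAt x x' t) (hk : 1 ≤ G.d (x t) (k • x t)) :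
    ∃ e : ℝ, |e| ≤ (G.b * Real.cosh G.b / Real.sinh G.b + G.a / Real.sinh G.a) *
        ‖G.fi (x t) x'‖ ∧
      HasDerivAt (fun r => G.di (x r) (k • x r)) (Complex.I * G.di (x t) (k • x t) *
        ((-(G.om (x t) (G.fi (x t) x')) + e : ℝ) : ℂ)) t := by
  obtain ⟨y', hy, hy'⟩ := N3_smul_der hX h k hx
  have hne := N3_ne h hk
  have h1 := h.du x (fun r => k • x r) x' y' t hx hy hne
  refine ⟨-(G.U (k • x t) (x t) * (G.fi (x t) x' * conj (G.di (x t) (k • x t))).im) -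
    (G.fi (k • x t) y' * conj (G.di (k • x t) (x t))).im / G.J (x t) (k • x t), ?_, ?_⟩
  · have h2 : |G.U (k • x t) (x t) * (G.fi (x t) x' * conj (G.di (x t) (k • x t))).im| ≤
        G.b * Real.cosh G.b / Real.sinh G.b * ‖G.fi (x t) x'‖ := by
      rw [abs_mul]
      exact mul_le_mul (N3_U h (by rw [h.d_symm]; exact hk)) (N3_im _ _ (di_norm h hne))
        (abs_nonneg _) ((abs_nonneg _).trans (N3_U h hk))
    have h3 : |(G.fi (k • x t) y' * conj (G.di (k • x t) (x t))).im / G.J (x t) (k • x t)| ≤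
        G.a / Real.sinh G.a * ‖G.fi (x t) x'‖ := by
      rw [abs_div, abs_of_pos (J_pos h hne), div_eq_mul_one_div, mul_comm]
      refine mul_le_mul ?_ ?_ (abs_nonneg _) (div_nonneg h.a_pos.le
        (Real.sinh_pos_iff.2 h.a_pos).le)
      · have := N3_J h one_pos hk
        rwa [mul_one] at this
      · rw [← hy']
        exact N3_im _ _ (di_norm h hne.symm)
    have h4 := abs_sub (-(G.U (k • x t) (x t) * (G.fi (x t) x' *
      conj (G.di (x t) (k • x t))).im)) ((G.fi (k • x t) y' * conj (G.di (k • x t) (x t))).im /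
        G.J (x t) (k • x t))
    rw [abs_neg] at h4
    linarith
  · refine h1.congr_deriv ?_
    congr 2
    ring

/-- the direction to a fixed point -/
theorem N3_k2 (h : HG D G) (c : Pl) {x : ℝ → Pl} {x' : Pl} {t : ℝ}
    (hx : HasDerivAt x x' t) (hk : 1 ≤ G.d (x t) c) :
    ∃ e : ℝ, |e| ≤ G.b * Real.cosh G.b / Real.sinh G.b * ‖G.fi (x t) x'‖ ∧
      HasDerivAt (fun r => G.di (x r) c) (Complex.I * G.di (x t) c *
        ((-(G.om (x t) (G.fi (x t) x')) + e : ℝ) : ℂ)) t := by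
  have hne := N3_ne h hk
  have h1 := h.du x (fun _ => c) x' 0 t hx (hasDerivAt_const t c) hne
  refine ⟨-(G.U c (x t) * (G.fi (x t) x' * conj (G.di (x t) c)).im), ?_, ?_⟩
  · rw [abs_neg, abs_mul]
    exact mul_le_mul (N3_U h (by rw [h.d_symm]; exact hk)) (N3_im _ _ (di_norm h hne))
      (abs_nonneg _) ((abs_nonneg _).trans (N3_U h hk))
  · refine h1.congr_deriv ?_
    congr 2
    simp
    ring

theorem N3_prod {z v : ℝ → ℂ} {z₀ v₀ : ℂ} {t o e₁ e₂ : ℝ} (hz0 : z t = z₀) (hv0 : v t = v₀)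
    (hz : HasDerivAt z (Complex.I * z₀ * ((-o + e₁ : ℝ) : ℂ)) t)
    (hv : HasDerivAt v (Complex.I * v₀ * ((-o + e₂ : ℝ) : ℂ)) t) :
    HasDerivAt (fun r => z r * conj (v r)) (Complex.I * (z₀ * conj v₀) * ((e₁ - e₂ : ℝ) : ℂ)) t := by
  have h1 : HasDerivAt (fun r => conj (v r)) (conj (Complex.I * v₀ * ((-o + e₂ : ℝ) : ℂ))) t := by
    have := (Complex.conjCLE.toContinuousLinearMap.hasFDerivAt (x := v t)).comp_hasDerivAt t hv
    exact this
  refine (hz.mul h1).congr_deriv ?_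
  rw [hz0, hv0]
  simp only [map_mul, Complex.conj_I, Complex.conj_ofReal]
  push_cast
  ring

/-- mean value inequality -/
theorem N3_mv {q : ℝ → ℂ} {q' : ℝ → ℂ} {M : ℝ} (hq : ∀ t, HasDerivAt q (q' t) t)
    (hM : ∀ t, ‖q' t‖ ≤ M) (t : ℝ) : ‖q t - q 0‖ ≤ M * |t| := by
  have h1 := Convex.norm_image_sub_le_of_norm_hasDerivWithin_le (f := q) (f' := q') (C := M)
    (s := Set.univ) (x := 0) (y := t) (fun s _ => (hq s).hasDerivWithinAt) (fun s _ => hM s)
    convex_univ (Set.mem_univ _) (Set.mem_univ _)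
  rwa [sub_zero, Real.norm_eq_abs] at h1

theorem N3_log {x y M : ℝ} (hx : 0 < x) (hy : 0 < y) (hxM : x ≤ M) (hyM : y ≤ M) :
    |x - y| ≤ M * |Real.log x - Real.log y| := by
  wlog hxy : y ≤ x generalizing x y
  · have := this hy hx hyM hxM (le_of_lt (not_le.1 hxy))
    rwa [abs_sub_comm, abs_sub_comm (Real.log y)] at this
  have h1 : Real.log y ≤ Real.log x := Real.log_le_log hy hxy
  rw [abs_of_nonneg (sub_nonneg.2 hxy), abs_of_nonneg (sub_nonneg.2 h1)]
  have h2 := Real.one_sub_inv_le_log_of_pos (x := x / y) (by positivity)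
  rw [Real.log_div hx.ne' hy.ne', inv_div] at h2
  have h3 : x - y ≤ x * (Real.log x - Real.log y) := by
    have h4 := mul_le_mul_of_nonneg_left h2 hx.le
    have h5 : x * (1 - y / x) = x - y := by field_simp
    linarith
  exact h3.trans (mul_le_mul_of_nonneg_right hxM (sub_nonneg.2 h1))

theorem N3_sinh {a l : ℝ} (ha : 0 < a) (hl : 8 ≤ l) :
    1 / Real.sinh (a * l) ≤ 2 / (1 - Real.exp (-(16 * a))) * Real.exp (-(a * l)) := by
  have hE : 0 < 1 - Real.exp (-(16 * a)) := by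
    have : Real.exp (-(16 * a)) < 1 := by
      rw [Real.exp_lt_one_iff]
      linarith
    linarith
  have h1 : 0 < Real.sinh (a * l) := Real.sinh_pos_iff.2 (by positivity)
  rw [div_mul_eq_mul_div, div_le_div_iff₀ h1 hE, one_mul, Real.sinh_eq]
  have h2 : Real.exp (-(a * l)) * Real.exp (a * l) = 1 := by
    rw [← Real.exp_add]
    simp
  have h3 : Real.exp (-(a * l)) * Real.exp (-(a * l)) ≤ Real.exp (-(16 * a)) := by
    rw [← Real.exp_add]
    apply Real.exp_le_exp.2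
    nlinarith
  have h4 : 2 * Real.exp (-(a * l)) * ((Real.exp (a * l) - Real.exp (-(a * l))) / 2) =
      Real.exp (-(a * l)) * Real.exp (a * l) - Real.exp (-(a * l)) * Real.exp (-(a * l)) := by ring
  rw [h4, h2]
  linarith

theorem near_axis (hX : Surface Γ D) (h : HG D G) (R₀ : ℝ) : ∃ C : ℝ, 1 ≤ C ∧
    ∀ (g : Γ) (c : Pl) (u : ℂ) (l r θ : ℝ), Ax G g c u l → 8 ≤ l → 2 ≤ r → r ≤ R₀ → |θ| ≤ 1 / C →
      ‖al G g (pol G c u r θ) - 1‖ ≤ C * |θ| ∧
      G.d (pol G c u r θ) (pol G c u r 0) ≤ C * |θ| ∧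
      |G.B c (u * Complex.exp ((θ : ℂ) * Complex.I)) r - G.B c u r| ≤ C * |θ| ∧
      |Real.log (G.J (pol G c u r θ) (g • pol G c u r θ)) -
        Real.log (G.J (pol G c u r 0) (g • pol G c u r 0))| ≤ C * |θ| ∧
      ∃ k : ℝ, HasDerivAt (fun t => al G g (pol G c u r t))
          (Complex.I * al G g (pol G c u r θ) * (k : ℂ)) θ ∧
        |k - G.B c u r * (G.U (pol G c u r 0) (g • pol G c u r 0) +
          G.U (g • pol G c u r 0) (pol G c u r 0))| ≤ C * (|θ| + Real.exp (-(G.a * l))) := by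
  classical
  have ha := h.a_pos
  have hb : 0 < G.b := ha.trans_le h.ab
  obtain ⟨C₁, hC₁, hd1⟩ := distort1 h
  obtain ⟨C₂, hC₂, hJ2⟩ := J_two h
  obtain ⟨R, hR⟩ : ∃ R : ℝ, R = max R₀ 2 := ⟨_, rfl⟩
  have hR0 : 0 < R := by rw [hR]; exact lt_max_of_lt_right two_pos
  have hRR : R₀ ≤ R := by rw [hR]; exact le_max_left _ _
  obtain ⟨β₁, hβ₁⟩ : ∃ β₁ : ℝ, β₁ = Real.sinh (G.b * R) / G.b := ⟨_, rfl⟩
  have hβ₁0 : 0 < β₁ := by rw [hβ₁]; exact div_pos (Real.sinh_pos_iff.2 (mul_pos hb hR0)) hb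
  obtain ⟨cU, hcU⟩ : ∃ cU : ℝ, cU = G.b * Real.cosh G.b / Real.sinh G.b := ⟨_, rfl⟩
  have hcU0 : 0 < cU := by
    rw [hcU]; exact div_pos (mul_pos hb (Real.cosh_pos _)) (Real.sinh_pos_iff.2 hb)
  obtain ⟨cJ, hcJ⟩ : ∃ cJ : ℝ, cJ = G.a / Real.sinh G.a := ⟨_, rfl⟩
  have hcJ0 : 0 < cJ := by rw [hcJ]; exact div_pos ha (Real.sinh_pos_iff.2 ha)
  obtain ⟨M, hM⟩ : ∃ M : ℝ, M = (2 * cU + cJ) * β₁ := ⟨_, rfl⟩
  have hM0 : 0 < M := by rw [hM]; positivity
  obtain ⟨K, hK⟩ : ∃ K : ℝ, K = 2 / (1 - Real.exp (-(16 * G.a))) := ⟨_, rfl⟩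
  have hK0 : 0 < K := by
    rw [hK]
    have : Real.exp (-(16 * G.a)) < 1 := by
      rw [Real.exp_lt_one_iff]
      linarith
    exact div_pos two_pos (by linarith)
  obtain ⟨A, hA⟩ : ∃ A : ℝ, A = 2 * (2 * C₂ * β₁ * β₁ + cU * (β₁ * M + β₁ * (C₁ * β₁))) := ⟨_, rfl⟩
  have hA0 : 0 < A := by rw [hA]; positivity
  obtain ⟨C, hC⟩ : ∃ C : ℝ, C = 1 + β₁ + 2 * M + β₁ * (C₁ * β₁) + 2 * C₂ * β₁ + A +
    2 * β₁ * (G.a * K) := ⟨_, rfl⟩
  have p1 : 0 < β₁ * (C₁ * β₁) := by positivity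
  have p2 : 0 < 2 * C₂ * β₁ := by positivity
  have p3 : 0 < 2 * β₁ * (G.a * K) := by positivity
  refine ⟨C, by linarith, ?_⟩
  intro g c u l r θ hax hl hr hrR hθ
  have hr0 : 0 < r := by linarith
  have hl0 : 0 < l := by linarith
  have hu := hax.nu
  obtain ⟨w, hw⟩ : ∃ w : ℝ → ℂ, w = fun t : ℝ => u * Complex.exp ((t : ℂ) * Complex.I) :=
    ⟨_, rfl⟩
  have hw1 : ∀ t, ‖w t‖ = 1 := fun t => by
    rw [hw]
    show ‖u * Complex.exp ((t : ℂ) * Complex.I)‖ = 1
    rw [norm_mul, hu, Complex.norm_exp_ofReal_mul_I, one_mul]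
  have hwd : ∀ t, HasDerivAt w (Complex.I * w t * ((1 : ℝ) : ℂ)) t := by
    intro t
    rw [hw]
    have h1 : HasDerivAt (fun s : ℝ => (s : ℂ) * Complex.I) (1 * Complex.I) t :=
      (Complex.ofRealCLM.hasDerivAt (x := t)).mul_const Complex.I
    refine (h1.cexp.const_mul u).congr_deriv ?_
    simp only [Complex.ofReal_one]
    ring
  have hw0 : w 0 = u := by rw [hw]; simp
  obtain ⟨x, hx⟩ : ∃ x : ℝ → Pl, x = fun t => pol G c u r t := ⟨_, rfl⟩
  have hxt : ∀ t, x t = G.E c ((r : ℂ) * w t) := fun t => by rw [hx, hw]; rfl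
  have hx0 : x 0 = G.E c ((r : ℂ) * u) := by rw [hxt, hw0]
  have hE : ∀ t, ∃ p : Pl, HasDerivAt x p t ∧
      G.fi (x t) p = ((G.B c (w t) r : ℝ) : ℂ) * Complex.I * G.dr c (w t) r := by
    intro t
    obtain ⟨p, hp1, hp2⟩ := h.E_u c r w t 1 hw1 (hwd t)
    have e : x = fun t => G.E c ((r : ℂ) * w t) := funext hxt
    refine ⟨p, by rw [e]; exact hp1, ?_⟩
    rw [hxt, hp2, mul_one]
  choose x' hx' hξ using hE
  obtain ⟨β, hβ⟩ : ∃ β : ℝ → ℝ, β = fun t => G.B c (w t) r := ⟨_, rfl⟩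
  have hβt : ∀ t, G.B c (w t) r = β t := fun t => by rw [hβ]
  have hz : ∀ t, G.di (x t) c = -G.dr c (w t) r := fun t => by
    rw [hxt]; exact di_back h c (hw1 t) hr0
  have hzn : ∀ t, ‖G.di (x t) c‖ = 1 := fun t => by
    rw [hz, norm_neg]; exact h.dr_norm c (w t) (hw1 t) r
  have hξ' : ∀ t, G.fi (x t) (x' t) = -((β t : ℝ) : ℂ) * Complex.I * G.di (x t) c := fun t => by
    rw [hξ, hz, hβt]; ring
  have hdc : ∀ t, G.d c (x t) = r := fun t => by
    rw [hxt, d_E h c (hw1 t), abs_of_pos hr0]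
  have hcx : ∀ t, c ≠ x t := fun t => by
    rw [hxt]; exact (E_ne h c (hw1 t) hr0.ne').symm
  have hJc : ∀ t, G.J c (x t) = β t := fun t => by
    rw [hxt, J_E h c (hw1 t) hr0, hβt]
  have hβ0 : ∀ t, 0 < β t := fun t => by rw [← hJc]; exact J_pos h (hcx t)
  have hβu : ∀ t, β t ≤ β₁ := fun t => by
    have h1 := J_upp h (hcx t)
    rw [hJc, hdc] at h1
    refine h1.trans ?_
    rw [hβ₁]
    exact div_le_div_of_nonneg_right (Real.sinh_le_sinh.2
      (mul_le_mul_of_nonneg_left (hrR.trans hRR) hb.le)) hb.le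
  have hξn : ∀ t, ‖G.fi (x t) (x' t)‖ = β t := fun t => by
    rw [hξ', norm_mul, norm_mul, hzn, norm_neg, Complex.norm_real, Complex.norm_I,
      Real.norm_eq_abs, abs_of_pos (hβ0 t)]
    ring
  -- distance
  have hdist : ∀ t, G.d (x t) (x 0) ≤ β₁ * |t| := by
    intro t
    rcases le_total 0 t with ht | ht
    · have h1 := len h ht (fun s _ => hx' s) (fun _ => β₁) continuous_const
        (fun s _ => (hξn s).le.trans (hβu s))
      rw [intervalIntegral.integral_const, smul_eq_mul, sub_zero] at h1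
      rw [h.d_symm, abs_of_nonneg ht]
      linarith
    · have h1 := len h ht (fun s _ => hx' s) (fun _ => β₁) continuous_const
        (fun s _ => (hξn s).le.trans (hβu s))
      rw [intervalIntegral.integral_const, smul_eq_mul] at h1
      rw [abs_of_nonpos ht]
      linarith
  have hβC : β₁ * |θ| ≤ 1 := by
    have hC0 : 0 < C := by linarith
    have h1 : β₁ * |θ| ≤ β₁ * (1 / C) := mul_le_mul_of_nonneg_left hθ hβ₁0.le
    have h2 : β₁ * (1 / C) ≤ 1 := by
      rw [mul_one_div, div_le_one hC0]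
      linarith
    exact h1.trans h2
  have hd' : G.d (x θ) (x 0) ≤ 1 := (hdist θ).trans hβC
  have hgm : ∀ k t, G.d (k • x t) (k • x 0) = G.d (x t) (x 0) := fun k t => d_smul h k _ _
  -- the translation
  have hgl : ∀ t, l ≤ G.d (x t) (g • x t) := fun t => hax.mn _
  have hgl' : ∀ t, l ≤ G.d (x t) (g⁻¹ • x t) := fun t => by
    have h1 := d_smul h g (x t) (g⁻¹ • x t)
    rw [smul_inv_smul] at h1
    rw [← h1, h.d_symm]
    exact hgl t
  have hg1 : g ≠ 1 := by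
    rintro rfl
    have h1 := hgl 0
    rw [one_smul, d_self h] at h1
    linarith
  -- the products
  have hq : ∀ k : Γ, (∀ t, 1 ≤ G.d (x t) (k • x t)) → ∀ t,
      ‖G.di (x t) c * conj (G.di (x t) (k • x t)) -
        G.di (x 0) c * conj (G.di (x 0) (k • x 0))‖ ≤ M * |t| := by
    intro k hk t
    have h1 : ∀ s, ∃ e : ℝ, |e| ≤ M ∧ HasDerivAt (fun r => G.di (x r) c *
        conj (G.di (x r) (k • x r))) (Complex.I * (G.di (x s) c *
          conj (G.di (x s) (k • x s))) * (e : ℂ)) s := by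
      intro s
      obtain ⟨e₁, he₁, hD₁⟩ := N3_k2 h c (hx' s) (by rw [h.d_symm, hdc]; linarith)
      obtain ⟨e₂, he₂, hD₂⟩ := N3_k1 hX h k (hx' s) (hk s)
      refine ⟨e₁ - e₂, ?_, N3_prod (z := fun r => G.di (x r) c)
        (v := fun r => G.di (x r) (k • x r)) rfl rfl hD₁ hD₂⟩
      rw [hξn, ← hcU] at he₁
      rw [hξn, ← hcU, ← hcJ] at he₂
      have h2 := abs_sub e₁ e₂
      have h3 : (2 * cU + cJ) * β s ≤ M := by
        rw [hM]
        exact mul_le_mul_of_nonneg_left (hβu s) (by positivity)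
      linarith
    choose e he hD using h1
    refine N3_mv (q := fun r => G.di (x r) c * conj (G.di (x r) (k • x r))) hD (fun s => ?_) t
    rw [norm_mul, norm_mul, norm_mul, Complex.norm_I, hzn, RCLike.norm_conj,
      di_norm h (N3_ne h (hk s)), Complex.norm_real, Real.norm_eq_abs]
    have := he s
    linarith
  obtain ⟨hax1, hax2, hax3, hax4⟩ := al_axis h hax r
  rw [← hx0] at hax1 hax2 hax3 hax4
  have hz0 : G.di (x 0) c = -G.dr c u r := by rw [hz, hw0]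
  have hWW : G.dr c u r * conj (G.dr c u r) = 1 := by
    rw [Complex.mul_conj, Complex.normSq_eq_norm_sq, h.dr_norm c u hu r]
    simp
  have hg8 : ∀ t, 1 ≤ G.d (x t) (g • x t) := fun t => by linarith [hgl t]
  have hg8' : ∀ t, 1 ≤ G.d (x t) (g⁻¹ • x t) := fun t => by linarith [hgl' t]
  obtain ⟨qg, hqg⟩ : ∃ q : ℂ, q = G.di (x θ) c * conj (G.di (x θ) (g • x θ)) := ⟨_, rfl⟩
  obtain ⟨qm, hqm⟩ : ∃ q : ℂ, q = G.di (x θ) c * conj (G.di (x θ) (g⁻¹ • x θ)) := ⟨_, rfl⟩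
  have hqg1 : ‖qg + 1‖ ≤ M * |θ| := by
    have h1 := hq g hg8 θ
    rw [← hqg, hz0, hax2, neg_mul, hWW] at h1
    rwa [sub_neg_eq_add] at h1
  have hqm1 : ‖qm - 1‖ ≤ M * |θ| := by
    have h1 := hq g⁻¹ hg8' θ
    have h2 : G.di (x 0) (g⁻¹ • x 0) = -G.dr c u r := by rw [← hax3, neg_neg]
    rw [← hqm, hz0, h2, map_neg, neg_mul_neg, hWW] at h1
    exact h1
  have hqgn : ‖qg‖ = 1 := by
    rw [hqg, norm_mul, hzn, RCLike.norm_conj, di_norm h (N3_ne h (hg8 θ)), one_mul]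
  have hqmn : ‖qm‖ = 1 := by
    rw [hqm, norm_mul, hzn, RCLike.norm_conj, di_norm h (N3_ne h (hg8' θ)), one_mul]
  have hzz : conj (G.di (x θ) c) * G.di (x θ) c = 1 := by
    rw [mul_comm, Complex.mul_conj, Complex.normSq_eq_norm_sq, hzn]
    simp
  have hal : al G g (x θ) = -(conj qm * qg) := by
    rw [al, hqm, hqg, map_mul, RCLike.conj_conj]
    have : conj (G.di (x θ) c) * G.di (x θ) (g⁻¹ • x θ) *
        (G.di (x θ) c * conj (G.di (x θ) (g • x θ))) =
        (conj (G.di (x θ) c) * G.di (x θ) c) * (G.di (x θ) (g⁻¹ • x θ) *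
          conj (G.di (x θ) (g • x θ))) := by ring
    rw [this, hzz, one_mul, neg_mul]
  have hxθ : pol G c u r θ = x θ := by rw [hx]
  have hx00 : pol G c u r 0 = x 0 := by rw [hx]
  rw [hxθ, hx00]
  have hβθ : G.B c (u * Complex.exp ((θ : ℂ) * Complex.I)) r = β θ := by
    rw [← hβt, hw]
  have hβu0 : G.B c u r = β 0 := by rw [← hβt, hw0]
  rw [hβθ, hβu0]
  have habs : 0 ≤ |θ| := abs_nonneg θ
  have hββ : |β θ - β 0| ≤ β₁ * (C₁ * β₁) * |θ| := by
    have h1 := (hd1 c (x 0) (x θ) (by rw [h.d_symm]; exact hd') (by rw [hdc]; exact hr)).1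
    rw [hJc, hJc, abs_sub_comm, h.d_symm] at h1
    have h2 := N3_log (hβ0 θ) (hβ0 0) (hβu θ) (hβu 0)
    have h3 : β₁ * |Real.log (β θ) - Real.log (β 0)| ≤ β₁ * (C₁ * (β₁ * |θ|)) :=
      mul_le_mul_of_nonneg_left (h1.trans (mul_le_mul_of_nonneg_left (hdist θ) hC₁.le)) hβ₁0.le
    calc _ ≤ _ := h2
      _ ≤ _ := h3
      _ = _ := by ring
  have hgg : G.d (x 0) (g • x 0) = l := hax4
  have hJ2a := hJ2 (x 0) (x θ) (g • x 0) (g • x θ) (by rw [h.d_symm]; exact hd')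
    (by rw [h.d_symm, hgm]; exact hd') (by rw [hgg]; linarith)
  have hJ2b := hJ2 (g • x 0) (g • x θ) (x 0) (x θ) (by rw [h.d_symm, hgm]; exact hd')
    (by rw [h.d_symm]; exact hd') (by rw [h.d_symm, hgg]; linarith)
  have hd0 : G.d (x 0) (x θ) ≤ β₁ * |θ| := by rw [h.d_symm]; exact hdist θ
  have hd0' : G.d (g • x 0) (g • x θ) ≤ β₁ * |θ| := by rw [h.d_symm, hgm]; exact hdist θ
  have hsum : C₂ * (G.d (x 0) (x θ) + G.d (g • x 0) (g • x θ)) ≤ 2 * C₂ * β₁ * |θ| := by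
    have := mul_le_mul_of_nonneg_left (add_le_add hd0 hd0') hC₂.le
    calc _ ≤ _ := this
      _ = _ := by ring
  have hsum' : C₂ * (G.d (g • x 0) (g • x θ) + G.d (x 0) (x θ)) ≤ 2 * C₂ * β₁ * |θ| := by
    rw [add_comm]; exact hsum
  have hCθ : ∀ {B : ℝ}, B ≤ C → B * |θ| ≤ C * |θ| := fun hB => mul_le_mul_of_nonneg_right hB habs
  refine ⟨?_, ?_, ?_, ?_, ?_⟩
  · have h1 : al G g (x θ) - 1 = -(conj (qm - 1) * qg) - (qg + 1) := by
      rw [hal, map_sub, map_one]; ring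
    rw [h1]
    have h2 := norm_sub_le (-(conj (qm - 1) * qg)) (qg + 1)
    rw [norm_neg, norm_mul, RCLike.norm_conj, hqgn, mul_one] at h2
    have h3 : 2 * M * |θ| ≤ C * |θ| := hCθ (by linarith)
    linarith
  · exact (hdist θ).trans (hCθ (by linarith))
  · exact hββ.trans (hCθ (by linarith))
  · have h1 := hJ2a.1
    rw [abs_sub_comm] at h1
    exact (h1.trans hsum).trans (hCθ (by linarith))
  · refine ⟨turn G g (x θ) (G.fi (x θ) (x' θ)), ?_, ?_⟩
    · have h1 := al_der hX h hg1 (hx' θ)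
      rw [hx] at h1 ⊢
      exact h1
    · have hUm : G.U (g⁻¹ • x θ) (x θ) = G.U (x θ) (g • x θ) := by
        have h1 := U_smul h g (N3_ne h (hg8' θ)).symm
        rw [smul_inv_smul] at h1
        exact h1.symm
      have hy0 : (G.fi (x θ) (x' θ) * conj (G.di (x θ) (g • x θ))).im = -(β θ * qg.re) := by
        rw [hξ', hqg]
        have : -((β θ : ℝ) : ℂ) * Complex.I * G.di (x θ) c * conj (G.di (x θ) (g • x θ)) =
            ((-β θ : ℝ) : ℂ) * (Complex.I * (G.di (x θ) c * conj (G.di (x θ) (g • x θ)))) := by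
          push_cast; ring
        rw [this, Complex.im_ofReal_mul, Complex.I_mul_im]
        ring
      have hy1 : (G.fi (x θ) (x' θ) * conj (-G.di (x θ) (g⁻¹ • x θ))).im = β θ * qm.re := by
        rw [hξ', hqm]
        have : -((β θ : ℝ) : ℂ) * Complex.I * G.di (x θ) c * conj (-G.di (x θ) (g⁻¹ • x θ)) =
            ((β θ : ℝ) : ℂ) * (Complex.I * (G.di (x θ) c * conj (G.di (x θ) (g⁻¹ • x θ)))) := by
          rw [map_neg]; ring
        rw [this, Complex.im_ofReal_mul, Complex.I_mul_im]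
      rw [turn, hUm, hy0, hy1]
      have hqgr : |qg.re + 1| ≤ M * |θ| := by
        have := Complex.abs_re_le_norm (qg + 1)
        rw [Complex.add_re, Complex.one_re] at this
        exact this.trans hqg1
      have hqmr : |qm.re - 1| ≤ M * |θ| := by
        have := Complex.abs_re_le_norm (qm - 1)
        rw [Complex.sub_re, Complex.one_re] at this
        exact this.trans hqm1
      have hqg2 : |qg.re| ≤ 1 := hqgn ▸ Complex.abs_re_le_norm qg
      have hqm2 : |qm.re| ≤ 1 := hqmn ▸ Complex.abs_re_le_norm qm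
      have hU0 : |G.U (g • x 0) (x 0)| ≤ cU := by
        rw [hcU]; exact N3_U h (by rw [h.d_symm, hgg]; linarith)
      have hU1 : |G.U (x 0) (g • x 0)| ≤ cU := by
        rw [hcU]; exact N3_U h (by rw [hgg]; linarith)
      have hUa : |G.U (g • x θ) (x θ) - G.U (g • x 0) (x 0)| ≤ 2 * C₂ * β₁ * |θ| := by
        rw [abs_sub_comm]; exact hJ2b.2.trans hsum'
      have hUb : |G.U (x θ) (g • x θ) - G.U (x 0) (g • x 0)| ≤ 2 * C₂ * β₁ * |θ| := by
        rw [abs_sub_comm]; exact hJ2a.2.trans hsum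
      have key : ∀ (U U₀ q : ℝ), |U - U₀| ≤ 2 * C₂ * β₁ * |θ| → |U₀| ≤ cU → |q| ≤ 1 →
          |q - 1| ≤ M * |θ| → |U * (β θ * q) - U₀ * β 0| ≤ A / 2 * |θ| := by
        intro U U₀ q hU hU₀ hq1 hq2
        have e1 : U * (β θ * q) - U₀ * β 0 = (U - U₀) * (β θ * q) +
          U₀ * (β θ * (q - 1) + (β θ - β 0)) := by ring
        rw [e1]
        have t1 : |(U - U₀) * (β θ * q)| ≤ 2 * C₂ * β₁ * |θ| * (β₁ * 1) := by
          rw [abs_mul, abs_mul, abs_of_pos (hβ0 θ)]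
          exact mul_le_mul hU (mul_le_mul (hβu θ) hq1 (abs_nonneg _) hβ₁0.le)
            (mul_nonneg (hβ0 θ).le (abs_nonneg _)) (by positivity)
        have t2 : |β θ * (q - 1) + (β θ - β 0)| ≤ β₁ * (M * |θ|) + β₁ * (C₁ * β₁) * |θ| := by
          refine (abs_add_le _ _).trans (add_le_add ?_ hββ)
          rw [abs_mul, abs_of_pos (hβ0 θ)]
          exact mul_le_mul (hβu θ) hq2 (abs_nonneg _) hβ₁0.le
        have t3 : |U₀ * (β θ * (q - 1) + (β θ - β 0))| ≤
            cU * (β₁ * (M * |θ|) + β₁ * (C₁ * β₁) * |θ|) := by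
          rw [abs_mul]
          exact mul_le_mul hU₀ t2 (abs_nonneg _) hcU0.le
        refine (abs_add_le _ _).trans ?_
        have e2 : A / 2 * |θ| = 2 * C₂ * β₁ * |θ| * (β₁ * 1) +
            cU * (β₁ * (M * |θ|) + β₁ * (C₁ * β₁) * |θ|) := by
          rw [hA]; ring
        rw [e2]
        exact add_le_add t1 t3
      have k1 := key _ _ (-qg.re) hUa hU0 (by rw [abs_neg]; exact hqg2) (by
        have : -qg.re - 1 = -(qg.re + 1) := by ring
        rw [this, abs_neg]; exact hqgr)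
      have k2 := key _ _ qm.re hUb hU1 hqm2 hqmr
      have k3 : |(-(β θ * qg.re) + β θ * qm.re) / G.J (x θ) (g • x θ)| ≤
          2 * β₁ * (G.a * K) * Real.exp (-(G.a * l)) := by
        rw [abs_div, abs_of_pos (J_pos h (N3_ne h (hg8 θ))), div_eq_mul_one_div]
        have j1 : |-(β θ * qg.re) + β θ * qm.re| ≤ 2 * β₁ := by
          refine (abs_add_le _ _).trans ?_
          rw [abs_neg, abs_mul, abs_mul, abs_of_pos (hβ0 θ)]
          have := mul_le_mul (hβu θ) hqg2 (abs_nonneg _) hβ₁0.le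
          have := mul_le_mul (hβu θ) hqm2 (abs_nonneg _) hβ₁0.le
          linarith
        have j2 : 1 / G.J (x θ) (g • x θ) ≤ G.a * K * Real.exp (-(G.a * l)) := by
          refine (N3_J h hl0 (hgl θ)).trans ?_
          have := mul_le_mul_of_nonneg_left (N3_sinh ha hl) ha.le
          rw [← hK, mul_one_div] at this
          calc _ ≤ _ := this
            _ = _ := by ring
        calc _ ≤ 2 * β₁ * (G.a * K * Real.exp (-(G.a * l))) :=
              mul_le_mul j1 j2 (div_nonneg zero_le_one (J_pos h (N3_ne h (hg8 θ))).le)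
                (by positivity)
          _ = _ := by ring
      have hexp := Real.exp_pos (-(G.a * l))
      have e3 : G.U (g • x θ) (x θ) * -(β θ * qg.re) + G.U (x θ) (g • x θ) * (β θ * qm.re) -
          (-(β θ * qg.re) + β θ * qm.re) / G.J (x θ) (g • x θ) -
          β 0 * (G.U (x 0) (g • x 0) + G.U (g • x 0) (x 0)) =
          (G.U (g • x θ) (x θ) * (β θ * -qg.re) - G.U (g • x 0) (x 0) * β 0) +
          (G.U (x θ) (g • x θ) * (β θ * qm.re) - G.U (x 0) (g • x 0) * β 0) -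
          (-(β θ * qg.re) + β θ * qm.re) / G.J (x θ) (g • x θ) := by ring
      rw [e3]
      refine (abs_sub _ _).trans ?_
      have k4 := abs_add_le (G.U (g • x θ) (x θ) * (β θ * -qg.re) - G.U (g • x 0) (x 0) * β 0)
        (G.U (x θ) (g • x θ) * (β θ * qm.re) - G.U (x 0) (g • x 0) * β 0)
      have k5 : A * |θ| ≤ C * |θ| := hCθ (by linarith)
      have k6 : 2 * β₁ * (G.a * K) * Real.exp (-(G.a * l)) ≤ C * Real.exp (-(G.a * l)) :=
        mul_le_mul_of_nonneg_right (by linarith) hexp.le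
      rw [mul_add]
      linarith

end SR85
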