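import Pool.Agent.LibSR85.N7

/-! Row SR85 N8 (STRONG): the loop integral of `g` is `ε / (tr P - 2)` times the integral of `ψ` over
the axis.

PLAN. `N = tsupport ψ`; `sector` gives `R₀, C₁, ε₀`, and for each axis the base point `c', u'`;
write `p r = E c' (r u')`, `x = pol c' u' r θ`. By `polar` at `c'` and `circ_rot` with `w = u'`,
`lg G (kap g₀ ε) ψ T g = ∫⁻ r > 0, ∫⁻ θ, 1[d x (g x) ≤ T] ψ x kap (al) / J x (g x) * B c' (u' e^{iθ}) r`.
If the integrand is not zero then `x ∈ N`, `|Im al| ≤ ε`, `Re al > 0`, so `‖al - 1‖ ≤ 2 ε`, and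
`sector` gives `2 ≤ r ≤ R₀ + 1`, `|θ| ≤ C₂ ε` with `C₂ = max` of both constants; also
`l ≤ d x (g x) ≤ l + 2 d x (p r) ≤ l + 1`. So for `T ≥ l + 1` the indicator is `1`, for `T < l` the
integral is zero (this is `lg_zero`). `|ψ x - ψ (p r)| ≤ ω(ε)` and if it is not zero then `p r` or `x` is in
`N`, so `ψ₁ (p r) ≥ 1`. By `theta_int` (for `R₀ + 1`, `C₂`, `δ`) the inner integral without `ψ` times
`Dax` is `ε (1 + O(δ))` for `2 ≤ r ≤ R₀ + 1` (`Dax` is the same at all points of the axis,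
`Dax_const`). So `|lg * Dax / ε - ∫_{2}^{R₀+1} ψ (p r) dr| ≤ ∫ (δ ψ (p r) + (1 + δ) ω(ε)) 1[ψ₁ (p r) ≥ 1]`
and `∫_ℝ ψ (p r) dr = ∫_2^{R₀+1}` (first part of `sector`), `ψ ≤ M ψ₁`. Take `δ' = δ / (2 (M + 1))`. The
integral over the axis does not depend on the base point (translation of `s`; `G.E c ((s + s₀) u) =
E c' (s u')`). -/

open MeasureTheory Set Filter Topology
open scoped ContDiff ENNReal NNReal ComplexConjugate

namespace SR85

open BGS (Pl Surface)

variable {Γ : Type} [Group Γ] [MulAction Γ Pl] {D : Set Pl} {G : Dat Γ}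

/-- The integral of `ψ` over the axis. -/
noncomputable def Iax (G : Dat Γ) (ψ : Pl → ℝ) (c : Pl) (u : ℂ) : ℝ :=
  ∫ s : ℝ, ψ (G.E c ((s : ℂ) * u))

theorem axis_int (h : HG D G) {ψ : Pl → ℝ} (hψ : Continuous ψ) (hψc : HasCompactSupport ψ)
    {c : Pl} {u : ℂ} (hu : ‖u‖ = 1) : Integrable fun s : ℝ => ψ (G.E c ((s : ℂ) * u)) := by
  have hc : Continuous fun s : ℝ => G.E c ((s : ℂ) * u) :=
    h.E_cont.comp (continuous_const.prodMk (by fun_prop))
  refine (hψ.comp hc).integrable_of_hasCompactSupport ?_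
  have hd : Continuous fun y : Pl => G.d c y :=
    (d_cont h).comp (continuous_const.prodMk continuous_id)
  obtain ⟨M, hM⟩ := (hψc.isCompact.image hd).isBounded.subset_closedBall 0
  refine HasCompactSupport.of_support_subset_isCompact (isCompact_Icc (a := -M) (b := M)) ?_
  intro s hs
  have h1 : G.E c ((s : ℂ) * u) ∈ tsupport ψ := subset_tsupport _ hs
  have h2 := hM (mem_image_of_mem _ h1)
  rw [mem_closedBall_zero_iff, d_E h c hu, Real.norm_eq_abs, abs_abs] at h2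
  exact abs_le.1 h2

theorem lg_zero {κ : ℂ → ℝ} {ψ : Pl → ℝ} {T l : ℝ} {g : Γ} {c : Pl} {u : ℂ} (ha : Ax G g c u l)
    (hT : T < l) : lg G κ ψ T g = 0 := by
  unfold lg
  have h1 : ∀ x : Pl, (if G.d x (g • x) ≤ T then
      ENNReal.ofReal (ψ x * κ (al G g x) / G.J x (g • x)) else 0) *
        ENNReal.ofReal (G.rho x) = 0 := by
    intro x
    rw [if_neg (not_le.2 (hT.trans_le (ha.mn x))), zero_mul]
  simp only [h1, lintegral_zero]

theorem lg_mono (κ : ℂ → ℝ) (ψ : Pl → ℝ) (g : Γ) : Monotone fun T => lg G κ ψ T g := by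
  intro T T' hT
  show lg G κ ψ T g ≤ lg G κ ψ T' g
  unfold lg
  refine lintegral_mono fun x => ?_
  refine mul_le_mul_left ?_ _
  by_cases h1 : G.d x (g • x) ≤ T
  · rw [if_pos h1, if_pos (h1.trans hT)]
  · rw [if_neg h1]
    exact zero_le

theorem N8_kap {g₀ : ℝ → ℝ} (hg : Bump1 g₀) {ε : ℝ} (hε : 0 < ε) {z : ℂ} (hz : ‖z‖ = 1)
    (hk : kap g₀ ε z ≠ 0) : ‖z - 1‖ ≤ 2 * ε := by
  unfold kap at hk
  have h1 : g₀ (z.im / ε) ≠ 0 := left_ne_zero_of_mul hk
  have h2 : min (max (2 * z.re) 0) 1 ≠ 0 := right_ne_zero_of_mul hk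
  have h3 : |z.im| < ε := by
    by_contra hcon
    push Not at hcon
    apply h1
    apply hg.supp
    rw [abs_div, abs_of_pos hε, one_le_div hε]
    exact hcon
  have h4 : 0 < z.re := by
    by_contra hcon
    push Not at hcon
    apply h2
    rw [max_eq_right (by linarith), min_eq_left zero_le_one]
  have h5 : z.re ^ 2 + z.im ^ 2 = 1 := by
    have := Complex.sq_norm z
    rw [hz, Complex.normSq_apply] at this
    nlinarith
  have h6 : z.re ≤ 1 := by nlinarith [sq_nonneg z.im]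
  have h7 : ‖z - 1‖ ^ 2 ≤ (2 * ε) ^ 2 := by
    rw [Complex.sq_norm, Complex.normSq_apply, Complex.sub_re, Complex.sub_im, Complex.one_re,
      Complex.one_im, sub_zero]
    have h8 : z.im ^ 2 ≤ ε ^ 2 := by
      rw [← sq_abs]
      exact pow_le_pow_left₀ (abs_nonneg _) h3.le 2
    nlinarith
  exact (pow_le_pow_iff_left₀ (norm_nonneg _) (by positivity) two_ne_zero).1 h7

theorem N8_kap_cont {g₀ : ℝ → ℝ} (hg : Bump1 g₀) (ε : ℝ) : Continuous (kap g₀ ε) := by
  unfold kap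
  have h1 : Continuous fun z : ℂ => g₀ (z.im / ε) :=
    hg.cont.comp (Complex.continuous_im.div_const ε)
  exact h1.mul (by fun_prop)

theorem N8_kap_nonneg {g₀ : ℝ → ℝ} (hg : Bump1 g₀) (ε : ℝ) (z : ℂ) : 0 ≤ kap g₀ ε z := by
  unfold kap
  exact mul_nonneg (hg.nonneg _) (le_min (le_max_right _ _) zero_le_one)

theorem N8_uc (h : HG D G) {ψ : Pl → ℝ} (hψ : Continuous ψ) {N : Set Pl} (hN : IsCompact N)
    {w0 : ℝ} (hω : 0 < w0) : ∃ η : ℝ, 0 < η ∧ η ≤ 1 ∧ ∀ x ∈ N, ∀ y, G.d x y ≤ η →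
      |ψ x - ψ y| ≤ w0 := by
  have hf : Continuous fun q : Pl × ℂ => ψ (G.E q.1 q.2) := hψ.comp h.E_cont
  have hK : IsCompact (N ×ˢ Metric.closedBall (0 : ℂ) 1) := hN.prod (isCompact_closedBall _ _)
  have huc := hK.uniformContinuousOn_of_continuous hf.continuousOn
  rw [Metric.uniformContinuousOn_iff] at huc
  obtain ⟨η, hη, huc⟩ := huc w0 hω
  refine ⟨min (η / 2) 1, by positivity, min_le_right _ _, ?_⟩
  intro x hx y hxy
  have h1 : G.d x y ≤ 1 := hxy.trans (min_le_right _ _)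
  have h2 : G.d x y ≤ η / 2 := hxy.trans (min_le_left _ _)
  have h3 := huc (x, 0) ⟨hx, Metric.mem_closedBall_self zero_le_one⟩ (x, G.V x y)
    ⟨hx, mem_closedBall_zero_iff.2 h1⟩ (by
      rw [Prod.dist_eq, dist_self, dist_comm, dist_zero_right]
      refine max_lt hη ?_
      exact lt_of_le_of_lt h2 (by linarith))
  rw [Real.dist_eq] at h3
  simp only [h.E_zero, h.EV] at h3
  exact h3.le

theorem N8_di_cont (hX : Surface Γ D) (h : HG D G) {k : Γ} (hk : ∀ x : Pl, x ≠ k • x) :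
    Continuous fun x : Pl => G.di x (k • x) := by
  have hs : Continuous fun x : Pl => k • x := (hX.smooth k).continuous
  have hV : Continuous fun x : Pl => G.V x (k • x) := h.V_cont.comp (continuous_id.prodMk hs)
  refine hV.div (Complex.continuous_ofReal.comp hV.norm) fun x => ?_
  have : 0 < ‖G.V x (k • x)‖ := d_pos h (hk x)
  exact_mod_cast this.ne'

theorem N8_J_cont (hX : Surface Γ D) (h : HG D G) {k : Γ} (hk : ∀ x : Pl, x ≠ k • x) :
    Continuous fun x : Pl => G.J x (k • x) := by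
  have hs : Continuous fun x : Pl => k • x := (hX.smooth k).continuous
  have hV : Continuous fun x : Pl => G.V x (k • x) := h.V_cont.comp (continuous_id.prodMk hs)
  have hc : Continuous fun x : Pl => ((x, G.di x (k • x), ‖G.V x (k • x)‖) : Pl × ℂ × ℝ) :=
    continuous_id.prodMk ((N8_di_cont hX h hk).prodMk hV.norm)
  exact h.B_cont.comp_continuous hc fun x => di_norm h (hk x)

theorem N8_pol_cont (h : HG D G) (c : Pl) (u : ℂ) :
    Continuous fun q : ℝ × ℝ => pol G c u q.1 q.2 := by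
  unfold pol
  exact h.E_cont.comp (continuous_const.prodMk (by fun_prop))

theorem N8_B_cont (h : HG D G) (c : Pl) {u : ℂ} (hu : ‖u‖ = 1) :
    Continuous fun q : ℝ × ℝ => G.B c (u * Complex.exp ((q.2 : ℂ) * Complex.I)) q.1 := by
  have hc : Continuous fun q : ℝ × ℝ =>
      ((c, u * Complex.exp ((q.2 : ℂ) * Complex.I), q.1) : Pl × ℂ × ℝ) := by fun_prop
  refine h.B_cont.comp_continuous hc fun q => ?_
  show ‖u * Complex.exp ((q.2 : ℂ) * Complex.I)‖ = 1
  rw [norm_mul, hu, Complex.norm_exp_ofReal_mul_I, one_mul]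

/-- the loop integral in polar coordinates -/
theorem N8_lg (hX : Surface Γ D) (h : HG D G) {κ : ℂ → ℝ} (hκ : Continuous κ)
    (hκ0 : ∀ z, 0 ≤ κ z) {ψ : Pl → ℝ} (hψ : Continuous ψ) (hψ0 : ∀ x, 0 ≤ ψ x) {g : Γ}
    (hg : ∀ x : Pl, x ≠ g • x) (hg' : ∀ x : Pl, x ≠ g⁻¹ • x) {c : Pl} {u : ℂ} (hu : ‖u‖ = 1)
    {T R α : ℝ} (hα : α < Real.pi) (hα0 : 0 ≤ α)
    (hker : ∀ r θ : ℝ, 0 < r → θ ∈ Ioc (-Real.pi) Real.pi → ψ (pol G c u r θ) ≠ 0 →
      κ (al G g (pol G c u r θ)) ≠ 0 → r ∈ Icc 2 R ∧ θ ∈ Ioc (-α) α ∧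
        G.d (pol G c u r θ) (g • pol G c u r θ) ≤ T) :
    lg G κ ψ T g = ENNReal.ofReal (∫ r in Icc 2 R, ∫ θ in (-α)..α, ψ (pol G c u r θ) *
      (κ (al G g (pol G c u r θ)) * (G.B c (u * Complex.exp ((θ : ℂ) * Complex.I)) r /
        G.J (pol G c u r θ) (g • pol G c u r θ)))) := by
  have hJc := N8_J_cont hX h hg
  have halc : Continuous fun x : Pl => al G g x := by
    unfold al
    exact (N8_di_cont hX h hg').neg.mul
      (Complex.continuous_conj.comp (N8_di_cont hX h hg))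
  have hs : Continuous fun x : Pl => g • x := (hX.smooth g).continuous
  have hJpos : ∀ x : Pl, 0 < G.J x (g • x) := fun x => J_pos h (hg x)
  have hv : ∀ θ : ℝ, ‖u * Complex.exp ((θ : ℂ) * Complex.I)‖ = 1 := fun θ => by
    rw [norm_mul, hu, Complex.norm_exp_ofReal_mul_I, one_mul]
  obtain ⟨F, hF⟩ : ∃ F : ℝ → ℝ → ℝ, F = fun r θ => ψ (pol G c u r θ) *
      (κ (al G g (pol G c u r θ)) * (G.B c (u * Complex.exp ((θ : ℂ) * Complex.I)) r /
        G.J (pol G c u r θ) (g • pol G c u r θ))) := ⟨_, rfl⟩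
  have hFc : Continuous (Function.uncurry F) := by
    have hp := N8_pol_cont h c u
    have e : Function.uncurry F = fun q : ℝ × ℝ => ψ (pol G c u q.1 q.2) *
      (κ (al G g (pol G c u q.1 q.2)) *
        (G.B c (u * Complex.exp ((q.2 : ℂ) * Complex.I)) q.1 /
        G.J (pol G c u q.1 q.2) (g • pol G c u q.1 q.2))) := by
      funext q
      rw [hF]
      rfl
    rw [e]
    exact (hψ.comp hp).mul ((hκ.comp (halc.comp hp)).mul ((N8_B_cont h c hu).div
      (hJc.comp hp) fun q => (hJpos _).ne'))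
  have hFe : ∀ r θ, ψ (pol G c u r θ) *
      (κ (al G g (pol G c u r θ)) * (G.B c (u * Complex.exp ((θ : ℂ) * Complex.I)) r /
        G.J (pol G c u r θ) (g • pol G c u r θ))) = F r θ := fun r θ => by rw [hF]
  simp only [hFe]
  -- polar coordinates
  obtain ⟨f, hf⟩ : ∃ f : Pl → ℝ≥0∞, f = fun x => if G.d x (g • x) ≤ T then
      ENNReal.ofReal (ψ x * κ (al G g x) / G.J x (g • x)) else 0 := ⟨_, rfl⟩
  have hfm : Measurable f := by
    rw [hf]
    refine Measurable.ite ?_ ?_ measurable_const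
    · exact measurableSet_le ((d_cont h).comp (continuous_id.prodMk hs)).measurable
        measurable_const
    · exact (((hψ.mul (hκ.comp halc)).div hJc fun x => (hJpos x).ne').measurable).ennreal_ofReal
  have h1 : lg G κ ψ T g = ∫⁻ y, f y * ENNReal.ofReal (G.rho y) := by rw [hf]; rfl
  rw [h1, h.polar c f hfm]
  have h2 : ∀ r : ℝ, ∫⁻ θ in Ioc (-Real.pi) Real.pi,
        f (G.E c ((r : ℂ) * Complex.exp ((θ : ℂ) * Complex.I))) *
          ENNReal.ofReal (G.B c (Complex.exp ((θ : ℂ) * Complex.I)) r) =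
      ∫⁻ θ in Ioc (-Real.pi) Real.pi, f (pol G c u r θ) *
          ENNReal.ofReal (G.B c (u * Complex.exp ((θ : ℂ) * Complex.I)) r) := fun r =>
    (circ_rot (fun v => f (G.E c ((r : ℂ) * v)) * ENNReal.ofReal (G.B c v r)) hu).symm
  simp only [h2]
  have hpt : ∀ r θ : ℝ, 0 < r → θ ∈ Ioc (-Real.pi) Real.pi → f (pol G c u r θ) *
      ENNReal.ofReal (G.B c (u * Complex.exp ((θ : ℂ) * Complex.I)) r) =
      (Icc 2 R).indicator (fun r => (Ioc (-α) α).indicator (fun θ => ENNReal.ofReal (F r θ)) θ) r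
      := by
    intro r θ hr hθ
    by_cases hz : ψ (pol G c u r θ) = 0 ∨ κ (al G g (pol G c u r θ)) = 0
    · have e1 : F r θ = 0 := by
        rw [← hFe]
        rcases hz with hz | hz <;> rw [hz] <;> ring
      have e2 : f (pol G c u r θ) = 0 := by
        rw [hf]
        have : ψ (pol G c u r θ) * κ (al G g (pol G c u r θ)) /
            G.J (pol G c u r θ) (g • pol G c u r θ) = 0 := by
          rcases hz with hz | hz <;> rw [hz] <;> simp
        simp only [this, ENNReal.ofReal_zero, ite_self]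
      rw [e2, zero_mul]
      by_cases m1 : r ∈ Icc 2 R
      · rw [indicator_of_mem m1]
        by_cases m2 : θ ∈ Ioc (-α) α
        · rw [indicator_of_mem m2, e1, ENNReal.ofReal_zero]
        · rw [indicator_of_notMem m2]
      · rw [indicator_of_notMem m1]
    · push Not at hz
      obtain ⟨m1, m2, m3⟩ := hker r θ hr hθ hz.1 hz.2
      rw [indicator_of_mem m1, indicator_of_mem m2, ← hFe, hf]
      simp only [if_pos m3]
      rw [← ENNReal.ofReal_mul (div_nonneg (mul_nonneg (hψ0 _) (hκ0 _)) (hJpos _).le)]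
      congr 1
      ring
  obtain ⟨I, hI⟩ : ∃ I : ℝ → ℝ, I = fun r => ∫ θ in (-α)..α, F r θ := ⟨_, rfl⟩
  have hIc : Continuous I := by
    rw [hI]
    exact intervalIntegral.continuous_parametric_intervalIntegral_of_continuous' hFc _ _
  have hF0 : ∀ r θ, 0 < r → 0 ≤ F r θ := fun r θ hr => by
    rw [← hFe]
    exact mul_nonneg (hψ0 _) (mul_nonneg (hκ0 _) (div_nonneg (B_pos h c (hv θ) hr).le
      (hJpos _).le))
  have hsub : Ioc (-α) α ⊆ Ioc (-Real.pi) Real.pi := fun θ hθ =>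
    ⟨by linarith [hθ.1], by linarith [hθ.2]⟩
  have hin : ∀ r ∈ Ioi (0 : ℝ), ∫⁻ θ in Ioc (-Real.pi) Real.pi, f (pol G c u r θ) *
      ENNReal.ofReal (G.B c (u * Complex.exp ((θ : ℂ) * Complex.I)) r) =
      (Icc 2 R).indicator (fun r => ENNReal.ofReal (I r)) r := by
    intro r hr
    rw [setLIntegral_congr_fun measurableSet_Ioc (fun θ hθ => hpt r θ hr hθ)]
    by_cases m1 : r ∈ Icc 2 R
    · simp only [indicator_of_mem m1]
      rw [lintegral_indicator measurableSet_Ioc, Measure.restrict_restrict measurableSet_Ioc,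
        inter_eq_left.2 hsub, hI]
      show _ = ENNReal.ofReal (∫ θ in (-α)..α, F r θ)
      rw [intervalIntegral.integral_of_le (by linarith),
        ofReal_integral_eq_lintegral_ofReal]
      · have : Continuous (F r) := hFc.comp (continuous_const.prodMk continuous_id)
        exact this.integrableOn_Ioc
      · exact Filter.Eventually.of_forall fun θ => hF0 r θ hr
    · simp only [indicator_of_notMem m1, lintegral_zero]
  rw [setLIntegral_congr_fun measurableSet_Ioi hin, lintegral_indicator measurableSet_Icc,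
    Measure.restrict_restrict measurableSet_Icc, inter_eq_left.2]
  · have hII : ∀ r, ∫ θ in (-α)..α, F r θ = I r := fun r => by rw [hI]
    simp only [hII]
    rw [ofReal_integral_eq_lintegral_ofReal]
    · exact hIc.integrableOn_Icc
    · filter_upwards [ae_restrict_mem measurableSet_Icc] with r hr
      rw [hI]
      exact intervalIntegral.integral_nonneg (by linarith) fun θ _ =>
        hF0 r θ (by linarith [hr.1])
  · intro r hr
    exact lt_of_lt_of_le two_pos hr.1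

/-- the inner estimate -/
theorem N8_inner {ψx F : ℝ → ℝ} {ψp ψ₁p Dg ε δ δ' w0 M α : ℝ} (hα : 0 ≤ α) (hψx : Continuous ψx)
    (hF : Continuous F) (hF0 : ∀ θ, 0 ≤ F θ) (hD : 0 ≤ Dg) (hε : 0 < ε) (hδ' : 0 ≤ δ')
    (hδ1 : δ' ≤ 1) (hω0 : 0 ≤ w0)
    (hI : |(∫ θ in (-α)..α, F θ) * Dg - ε| ≤ δ' * ε)
    (hω : ∀ θ ∈ Icc (-α) α, |ψx θ - ψp| ≤ w0 * ψ₁p) (hp0 : 0 ≤ ψp) (hp1 : 0 ≤ ψ₁p)
    (hM : ψp ≤ M * ψ₁p) (hδ : 2 * w0 + M * δ' ≤ δ) :
    |(∫ θ in (-α)..α, ψx θ * F θ) * Dg / ε - ψp| ≤ δ * ψ₁p := by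
  have hαα : -α ≤ α := by linarith
  obtain ⟨I₁, hI₁⟩ : ∃ I₁ : ℝ, I₁ = ∫ θ in (-α)..α, F θ := ⟨_, rfl⟩
  obtain ⟨I, hI'⟩ : ∃ I : ℝ, I = ∫ θ in (-α)..α, ψx θ * F θ := ⟨_, rfl⟩
  rw [← hI₁] at hI
  rw [← hI']
  have hI₁0 : 0 ≤ I₁ := by
    rw [hI₁]
    exact intervalIntegral.integral_nonneg hαα fun θ _ => hF0 θ
  have h1 : I - ψp * I₁ = ∫ θ in (-α)..α, (ψx θ - ψp) * F θ := by
    have i1 : IntervalIntegrable (fun θ => ψx θ * F θ) volume (-α) α :=
      (hψx.mul hF).intervalIntegrable _ _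
    have i2 : IntervalIntegrable (fun θ => ψp * F θ) volume (-α) α :=
      (continuous_const.mul hF).intervalIntegrable _ _
    rw [hI', hI₁, ← intervalIntegral.integral_const_mul, ← intervalIntegral.integral_sub i1 i2]
    congr 1
    funext θ
    ring
  have h2 : |I - ψp * I₁| ≤ w0 * ψ₁p * I₁ := by
    rw [h1, hI₁, ← intervalIntegral.integral_const_mul]
    refine (intervalIntegral.abs_integral_le_integral_abs hαα).trans ?_
    refine intervalIntegral.integral_mono_on hαα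
      ((((hψx.sub continuous_const).mul hF).abs).intervalIntegrable _ _)
      ((continuous_const.mul hF).intervalIntegrable _ _) fun θ hθ => ?_
    rw [abs_mul, abs_of_nonneg (hF0 θ)]
    exact mul_le_mul_of_nonneg_right (hω θ hθ) (hF0 θ)
  have h3 : |I₁ * Dg / ε - 1| ≤ δ' := by
    have e : I₁ * Dg / ε - 1 = (I₁ * Dg - ε) / ε := by field_simp
    rw [e, abs_div, abs_of_pos hε, div_le_iff₀ hε]
    exact hI
  have h4 : I * Dg / ε - ψp = (I - ψp * I₁) * (Dg / ε) + ψp * (I₁ * Dg / ε - 1) := by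
    field_simp
    ring
  have hDε : 0 ≤ Dg / ε := div_nonneg hD hε.le
  have h5 : |(I - ψp * I₁) * (Dg / ε)| ≤ w0 * ψ₁p * 2 := by
    rw [abs_mul, abs_of_nonneg hDε]
    have h6 : |I - ψp * I₁| * (Dg / ε) ≤ w0 * ψ₁p * I₁ * (Dg / ε) :=
      mul_le_mul_of_nonneg_right h2 hDε
    have h7 : I₁ * Dg / ε ≤ 2 := by
      have := (abs_le.1 h3).2
      linarith
    have h8 : w0 * ψ₁p * I₁ * (Dg / ε) = w0 * ψ₁p * (I₁ * Dg / ε) := by ring
    rw [h8] at h6
    exact h6.trans (mul_le_mul_of_nonneg_left h7 (mul_nonneg hω0 hp1))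
  have h6 : |ψp * (I₁ * Dg / ε - 1)| ≤ M * ψ₁p * δ' := by
    rw [abs_mul, abs_of_nonneg hp0]
    exact mul_le_mul hM h3 (abs_nonneg _) (hp0.trans hM)
  rw [h4]
  refine (abs_add_le _ _).trans ?_
  have h7 : (2 * w0 + M * δ') * ψ₁p ≤ δ * ψ₁p := mul_le_mul_of_nonneg_right hδ hp1
  linarith

theorem loc_main (hX : Surface Γ D) (h : HG D G) {g₀ : ℝ → ℝ} (hg : Bump1 g₀) {ψ ψ₁ : Pl → ℝ}
    (hψ : Continuous ψ) (hψ0 : ∀ x, 0 ≤ ψ x) (hψc : HasCompactSupport ψ) (hψ₁ : Continuous ψ₁)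
    (hψ₁0 : ∀ x, 0 ≤ ψ₁ x) (hψ₁c : HasCompactSupport ψ₁)
    (hψψ : ∀ x, ∀ y ∈ tsupport ψ, G.d x y ≤ 1 → 1 ≤ ψ₁ x) {δ : ℝ} (hδ : 0 < δ) :
    ∃ ε₀ l₀ : ℝ, 0 < ε₀ ∧ 1 ≤ l₀ ∧ ∀ ε : ℝ, 0 < ε → ε ≤ ε₀ → ∀ (g : Γ) (c : Pl) (u : ℂ) (l T : ℝ),
      Ax G g c u l → l₀ ≤ l → l + 1 ≤ T → lg G (kap g₀ ε) ψ T g = lg G (kap g₀ ε) ψ (l + 1) g ∧
        lg G (kap g₀ ε) ψ T g < ⊤ ∧
        |(lg G (kap g₀ ε) ψ T g).toReal * Dax G g c / ε - Iax G ψ c u| ≤ δ * Iax G ψ₁ c u := by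
  obtain ⟨N, hN⟩ : ∃ N : Set Pl, N = tsupport ψ := ⟨_, rfl⟩
  have hNc : IsCompact N := by rw [hN]; exact hψc
  obtain ⟨R₀, C₁, ε₁, hR₀, hC₁, hε₁, hsec⟩ := sector hX h hNc
  obtain ⟨C₁', hC₁', hth⟩ := theta_int hX h hg (R₀ + 1)
  obtain ⟨C, hC, hnear⟩ := near_axis hX h (R₀ + 1)
  obtain ⟨M, hM0, hM⟩ : ∃ M : ℝ, 0 < M ∧ ∀ x, ψ x ≤ M := by
    obtain ⟨M, hM⟩ := hψc.exists_bound_of_continuous hψ
    exact ⟨max M 1, lt_max_of_lt_right one_pos, fun x =>
      ((le_abs_self _).trans (hM x)).trans (le_max_left _ _)⟩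
  obtain ⟨w0, hω⟩ : ∃ w0 : ℝ, w0 = δ / 4 := ⟨_, rfl⟩
  have hω0 : 0 < w0 := by rw [hω]; positivity
  obtain ⟨δ', hδ'⟩ : ∃ δ' : ℝ, δ' = min 1 (δ / (2 * M)) := ⟨_, rfl⟩
  have hδ'0 : 0 < δ' := by rw [hδ']; positivity
  have hδ'1 : δ' ≤ 1 := by rw [hδ']; exact min_le_left _ _
  have hδ'2 : M * δ' ≤ δ / 2 := by
    have h1 : δ' ≤ δ / (2 * M) := by rw [hδ']; exact min_le_right _ _
    have h2 := mul_le_mul_of_nonneg_left h1 hM0.le
    have h3 : M * (δ / (2 * M)) = δ / 2 := by field_simp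
    linarith
  obtain ⟨η, hη0, hη1, huc⟩ := N8_uc h hψ hNc hω0
  obtain ⟨C₂, hC₂⟩ : ∃ C₂ : ℝ, C₂ = max C₁' C₁ + 1 := ⟨_, rfl⟩
  have hC₂1 : C₁' ≤ C₂ := by rw [hC₂]; linarith [le_max_left C₁' C₁]
  have hC₂2 : C₁ < C₂ := by rw [hC₂]; linarith [le_max_right C₁' C₁]
  have hC₂0 : 0 < C₂ := hC₁.trans hC₂2
  obtain ⟨ε₂, l₂, hε₂, hl₂, hth⟩ := hth C₂ hC₂1 δ' hδ'0
  have hC0 : 0 < C := by linarith
  refine ⟨min (min ε₁ ε₂) (η / (2 * C * C₂)), max (max l₂ 8) 1, by positivity,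
    le_max_right _ _, ?_⟩
  intro ε hε hεε g c u l T hax hl hT
  have hεa : ε ≤ ε₁ := hεε.trans ((min_le_left _ _).trans (min_le_left _ _))
  have hεb : ε ≤ ε₂ := hεε.trans ((min_le_left _ _).trans (min_le_right _ _))
  have hεc : C * (C₂ * ε) ≤ η / 2 := by
    have h1 : ε ≤ η / (2 * C * C₂) := hεε.trans (min_le_right _ _)
    have h2 := mul_le_mul_of_nonneg_left h1 (mul_pos hC0 hC₂0).le
    have h3 : C * C₂ * (η / (2 * C * C₂)) = η / 2 := by field_simp
    linarith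
  have hla : l₂ ≤ l := (le_max_left _ _).trans ((le_max_left _ _).trans hl)
  have hlb : 8 ≤ l := (le_max_right _ _).trans ((le_max_left _ _).trans hl)
  have hu := hax.nu
  obtain ⟨s₀, c', u', hc', hu', hax', hs1, hs2⟩ := hsec g c u l hax (by linarith)
  have hu'1 := hax'.nu
  obtain ⟨α, hα⟩ : ∃ α : ℝ, α = C₂ * ε := ⟨_, rfl⟩
  have hα0 : 0 < α := by rw [hα]; positivity
  rw [← hα] at hεc
  have hα1 : α ≤ 1 / C := by
    rw [le_div_iff₀ hC0]
    linarith
  have hα2 : α < Real.pi := by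
    have h1 : α ≤ C * α := by nlinarith
    have h2 := Real.pi_gt_three
    linarith
  have hgmn : ∀ x, l ≤ G.d x (g • x) := hax.mn
  have hg1 : g ≠ 1 := by
    rintro rfl
    have h1 := hgmn c
    rw [one_smul, d_self h] at h1
    linarith
  have haln := al_norm hX h hg1
  -- the points
  have hp0 : ∀ r, pol G c' u' r 0 = G.E c' ((r : ℂ) * u') := fun r => by
    unfold pol; simp
  have hdist : ∀ r θ, 2 ≤ r → r ≤ R₀ + 1 → |θ| ≤ α →
      G.d (pol G c' u' r θ) (pol G c' u' r 0) ≤ η / 2 := by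
    intro r θ hr1 hr2 hθ
    have h1 := (hnear g c' u' l r θ hax' hlb hr1 hr2 (hθ.trans hα1)).2.1
    exact h1.trans ((mul_le_mul_of_nonneg_left hθ hC0.le).trans hεc)
  have hker : ∀ T', l + 1 ≤ T' → ∀ r θ : ℝ, 0 < r → θ ∈ Ioc (-Real.pi) Real.pi →
      ψ (pol G c' u' r θ) ≠ 0 → kap g₀ ε (al G g (pol G c' u' r θ)) ≠ 0 →
      r ∈ Icc 2 (R₀ + 1) ∧ θ ∈ Ioc (-α) α ∧
        G.d (pol G c' u' r θ) (g • pol G c' u' r θ) ≤ T' := by
    intro T' hT' r θ hr hθ h1 h2
    have h3 : pol G c' u' r θ ∈ N := by rw [hN]; exact subset_tsupport _ h1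
    have h4 := N8_kap hg hε (haln (pol G c' u' r θ)).1 h2
    obtain ⟨h5, h6, h7⟩ := hs2 ε r θ hε hεa hr hθ h3 h4
    have h8 : |θ| < α := by
      refine h7.trans_lt ?_
      rw [hα]
      exact mul_lt_mul_of_pos_right hC₂2 hε
    refine ⟨⟨h5, h6⟩, ⟨(abs_lt.1 h8).1, (abs_lt.1 h8).2.le⟩, ?_⟩
    have h9 := hdist r θ h5 h6 h8.le
    have h10 := h.d_tri (pol G c' u' r θ) (pol G c' u' r 0) (g • pol G c' u' r θ)
    have h11 := h.d_tri (pol G c' u' r 0) (g • pol G c' u' r 0) (g • pol G c' u' r θ)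
    have h12 : G.d (g • pol G c' u' r 0) (g • pol G c' u' r θ) =
        G.d (pol G c' u' r θ) (pol G c' u' r 0) := by
      rw [d_smul h, h.d_symm]
    have h13 : G.d (pol G c' u' r 0) (g • pol G c' u' r 0) = l := by
      rw [hp0]
      exact (al_axis h hax' r).2.2.2
    linarith
  have hlg : ∀ T', l + 1 ≤ T' → lg G (kap g₀ ε) ψ T' g =
      ENNReal.ofReal (∫ r in Icc 2 (R₀ + 1), ∫ θ in (-α)..α, ψ (pol G c' u' r θ) *
      (kap g₀ ε (al G g (pol G c' u' r θ)) * (G.B c' (u' * Complex.exp ((θ : ℂ) * Complex.I)) r /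
        G.J (pol G c' u' r θ) (g • pol G c' u' r θ)))) := fun T' hT' =>
    N8_lg hX h (N8_kap_cont hg ε) (N8_kap_nonneg hg ε) hψ hψ0 (fun x => (haln x).2.1)
      (fun x => (haln x).2.2) hu'1 hα2 hα0.le (hker T' hT')
  refine ⟨by rw [hlg T hT, hlg (l + 1) le_rfl], by rw [hlg T hT]; exact ENNReal.ofReal_lt_top, ?_⟩
  -- continuity
  have hJpos : ∀ x : Pl, 0 < G.J x (g • x) := fun x => J_pos h (haln x).2.1
  have halc : Continuous fun x : Pl => al G g x := by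
    unfold al
    exact (N8_di_cont hX h fun x => (haln x).2.2).neg.mul
      (Complex.continuous_conj.comp (N8_di_cont hX h fun x => (haln x).2.1))
  have hpc := N8_pol_cont h c' u'
  obtain ⟨F, hF⟩ : ∃ F : ℝ → ℝ → ℝ, F = fun r θ => kap g₀ ε (al G g (pol G c' u' r θ)) *
      (G.B c' (u' * Complex.exp ((θ : ℂ) * Complex.I)) r /
        G.J (pol G c' u' r θ) (g • pol G c' u' r θ)) := ⟨_, rfl⟩
  have hFe : ∀ r θ, kap g₀ ε (al G g (pol G c' u' r θ)) *
      (G.B c' (u' * Complex.exp ((θ : ℂ) * Complex.I)) r /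
        G.J (pol G c' u' r θ) (g • pol G c' u' r θ)) = F r θ := fun r θ => by rw [hF]
  have hFc : Continuous (Function.uncurry F) := by
    have e : Function.uncurry F = fun q : ℝ × ℝ =>
      kap g₀ ε (al G g (pol G c' u' q.1 q.2)) *
        (G.B c' (u' * Complex.exp ((q.2 : ℂ) * Complex.I)) q.1 /
        G.J (pol G c' u' q.1 q.2) (g • pol G c' u' q.1 q.2)) := by
      funext q
      rw [hF]
      rfl
    rw [e]
    exact ((N8_kap_cont hg ε).comp (halc.comp hpc)).mul ((N8_B_cont h c' hu'1).div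
      ((N8_J_cont hX h fun x => (haln x).2.1).comp hpc) fun q => (hJpos _).ne')
  have hlgT := hlg T hT
  simp only [hFe] at hlgT
  obtain ⟨I, hI⟩ : ∃ I : ℝ → ℝ, I = fun r => ∫ θ in (-α)..α, ψ (pol G c' u' r θ) * F r θ :=
    ⟨_, rfl⟩
  have hIr : ∀ r, ∫ θ in (-α)..α, ψ (pol G c' u' r θ) * F r θ = I r := fun r => by rw [hI]
  have hIc : Continuous I := by
    rw [hI]
    exact intervalIntegral.continuous_parametric_intervalIntegral_of_continuous'
      ((hψ.comp hpc).mul hFc) _ _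
  simp only [hIr] at hlgT
  have hvn : ∀ θ : ℝ, ‖u' * Complex.exp ((θ : ℂ) * Complex.I)‖ = 1 := fun θ => by
    rw [norm_mul, hu'1, Complex.norm_exp_ofReal_mul_I, one_mul]
  have hF0 : ∀ r θ, 0 < r → 0 ≤ F r θ := fun r θ hr => by
    rw [← hFe]
    exact mul_nonneg (N8_kap_nonneg hg ε _) (div_nonneg (B_pos h c' (hvn θ) hr).le (hJpos _).le)
  have hI0 : 0 ≤ ∫ r in Icc 2 (R₀ + 1), I r := by
    refine setIntegral_nonneg measurableSet_Icc fun r hr => ?_
    rw [← hIr]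
    exact intervalIntegral.integral_nonneg (by linarith) fun θ _ =>
      mul_nonneg (hψ0 _) (hF0 r θ (by linarith [hr.1]))
  rw [hlgT, ENNReal.toReal_ofReal hI0]
  -- the constant
  have hD1 : ∀ r, Dax G g (pol G c' u' r 0) = Dax G g c := fun r => by
    rw [hp0, Dax_const hX h hax' r, hc', Dax_const hX h hax s₀]
  have hD0 : 0 ≤ Dax G g c := (by positivity : (0 : ℝ) ≤ 4 * Real.sinh (G.a * l / 2) ^ 2).trans
    (Dax_low hX h hax)
  -- the inner estimate
  have hinner : ∀ r ∈ Icc (2 : ℝ) (R₀ + 1), |I r * Dax G g c / ε - ψ (G.E c' ((r : ℂ) * u'))| ≤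
      δ * ψ₁ (G.E c' ((r : ℂ) * u')) := by
    intro r hr
    rw [← hIr]
    have hpr : Continuous fun θ : ℝ => ψ (pol G c' u' r θ) :=
      hψ.comp (hpc.comp (continuous_const.prodMk continuous_id))
    have hFr : Continuous fun θ : ℝ => F r θ := hFc.comp (continuous_const.prodMk continuous_id)
    refine N8_inner (δ' := δ') (w0 := w0) (M := M) hα0.le hpr hFr
      (fun θ => hF0 r θ (by linarith [hr.1])) hD0 hε hδ'0.le hδ'1 hω0.le ?_ ?_ (hψ0 _) (hψ₁0 _)
      ?_ ?_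
    · have h1 := hth ε g c' u' l r hε hεb hax' hla hr.1 hr.2
      rw [hD1, ← hα] at h1
      simp only [hFe] at h1
      exact h1
    · intro θ hθ
      have hθ' : |θ| ≤ α := abs_le.2 hθ
      have h1 := hdist r θ hr.1 hr.2 hθ'
      rw [hp0] at h1
      by_cases m1 : pol G c' u' r θ ∈ N
      · have h2 := huc _ m1 (G.E c' ((r : ℂ) * u')) (by linarith)
        have h3 := hψψ (G.E c' ((r : ℂ) * u')) (pol G c' u' r θ) (by rw [← hN]; exact m1)
          (by rw [h.d_symm]; linarith)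
        nlinarith
      · by_cases m2 : G.E c' ((r : ℂ) * u') ∈ N
        · have h2 := huc _ m2 (pol G c' u' r θ) (by rw [h.d_symm]; linarith)
          rw [abs_sub_comm] at h2
          have h3 := hψψ (G.E c' ((r : ℂ) * u')) (G.E c' ((r : ℂ) * u')) (by rw [← hN]; exact m2)
            (by rw [d_self h]; exact zero_le_one)
          nlinarith
        · rw [hN] at m1 m2
          rw [image_eq_zero_of_notMem_tsupport m1, image_eq_zero_of_notMem_tsupport m2, sub_zero,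
            abs_zero]
          exact mul_nonneg hω0.le (hψ₁0 _)
    · by_cases m2 : G.E c' ((r : ℂ) * u') ∈ N
      · have h3 := hψψ (G.E c' ((r : ℂ) * u')) (G.E c' ((r : ℂ) * u')) (by rw [← hN]; exact m2)
          (by rw [d_self h]; exact zero_le_one)
        have h4 := hM (G.E c' ((r : ℂ) * u'))
        nlinarith
      · rw [hN] at m2
        rw [image_eq_zero_of_notMem_tsupport m2]
        exact mul_nonneg hM0.le (hψ₁0 _)
    · rw [hω]
      linarith
  -- integrate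
  have hshift : ∀ φ : Pl → ℝ, ∫ s : ℝ, φ (G.E c' ((s : ℂ) * u')) = Iax G φ c u := by
    intro φ
    have h1 : ∀ s : ℝ, G.E c' ((s : ℂ) * u') = G.E c (((s₀ + s : ℝ) : ℂ) * u) := fun s => by
      rw [hc', hu']; exact h.flow c u hu s₀ s
    simp only [h1]
    exact integral_add_left_eq_self (fun s : ℝ => φ (G.E c ((s : ℂ) * u))) s₀
  have hi1 := axis_int h hψ hψc (c := c') hu'1
  have hi2 := axis_int h hψ₁ hψ₁c (c := c') hu'1
  have hset : ∫ r in Icc 2 (R₀ + 1), ψ (G.E c' ((r : ℂ) * u')) = Iax G ψ c u := by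
    rw [← hshift ψ]
    refine setIntegral_eq_integral_of_forall_compl_eq_zero fun r hr => ?_
    by_contra hcon
    have m1 : G.E c' ((r : ℂ) * u') ∈ N := by rw [hN]; exact subset_tsupport _ hcon
    have m2 := hs1 r ⟨_, m1, by rw [d_self h]; norm_num⟩
    exact hr ⟨by linarith [m2.1], by linarith [m2.2]⟩
  have hset1 : ∫ r in Icc 2 (R₀ + 1), ψ₁ (G.E c' ((r : ℂ) * u')) ≤ Iax G ψ₁ c u := by
    rw [← hshift ψ₁]
    exact setIntegral_le_integral hi2 (Filter.Eventually.of_forall fun s => hψ₁0 _)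
  have e1 : (∫ r in Icc 2 (R₀ + 1), I r) * Dax G g c / ε - Iax G ψ c u =
      ∫ r in Icc 2 (R₀ + 1), (I r * Dax G g c / ε - ψ (G.E c' ((r : ℂ) * u'))) := by
    have i1 : IntegrableOn (fun r => I r * Dax G g c / ε) (Icc 2 (R₀ + 1)) :=
      ((hIc.mul continuous_const).div_const ε).integrableOn_Icc
    have i2 : IntegrableOn (fun r : ℝ => ψ (G.E c' ((r : ℂ) * u'))) (Icc 2 (R₀ + 1)) :=
      hi1.integrableOn
    rw [integral_sub i1 i2, hset, integral_div, integral_mul_const]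
  rw [e1]
  refine (abs_integral_le_integral_abs).trans ?_
  have e2 : ∫ r in Icc 2 (R₀ + 1), |I r * Dax G g c / ε - ψ (G.E c' ((r : ℂ) * u'))| ≤
      ∫ r in Icc 2 (R₀ + 1), δ * ψ₁ (G.E c' ((r : ℂ) * u')) := by
    refine setIntegral_mono_on ?_ (hi2.integrableOn.const_mul δ) measurableSet_Icc hinner
    exact ((((hIc.mul continuous_const).div_const ε).integrableOn_Icc).sub
      hi1.integrableOn).abs
  refine e2.trans ?_
  rw [integral_const_mul]
  exact mul_le_mul_of_nonneg_left hset1 hδ.le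

end SR85
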