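import Pool.Agent.LibSR85.Geo

/-! Row SR85 P1: elementary consequences of the structure: polar decomposition, unit speed
geodesics, reversal.

PLAN. `V_self`: `V x x = V x (E x 0)` by `E_zero`, then `VE`. `d_self`. `d_pos`: `V x y = 0` gives
`y = E x (V x y) = E x 0 = x`. `E_di`: `d * un V = V`. `d_E`, `di_E`: `VE`. `d_geo`: `t ≤ s` or
`s ≤ t`: by `flow` (with `x' = E x (s u)`, direction `dr x u s`) `E x (t u) = E x' ((t - s) dr)`,
so `V x' (..) = (t - s) dr` and `dr_norm`. `V_back`: `flow` with `s := -t` gives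
`E (E x (t u)) ((-t) dr) = E x 0 = x`, then `VE`. `dr_zero`: `V x (E x u) = u`. `dr_add`: for all
`r` both `E x'' (r * dr x' (dr x u t) s)` and `E x'' (r * dr x u (t + s))` with
`x'' = E x ((t + s) u)` are `E x ((t + s + r) u)` (flow twice); take `r = 1` and apply `VE`. -/

open MeasureTheory Set Filter Topology
open scoped ContDiff ENNReal NNReal ComplexConjugate

namespace SR85

open BGS (Pl Surface)

variable {Γ : Type} [Group Γ] [MulAction Γ Pl] {D : Set Pl} {G : Dat Γ}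

theorem V_self (h : HG D G) (x : Pl) : G.V x x = 0 := by
  have h1 := h.VE x 0
  rwa [h.E_zero] at h1

theorem d_self (h : HG D G) (x : Pl) : G.d x x = 0 := by
  unfold Dat.d
  rw [V_self h, norm_zero]

private theorem P1_V_ne (h : HG D G) {x y : Pl} (hxy : x ≠ y) : G.V x y ≠ 0 := by
  intro h0
  have h1 := h.EV x y
  rw [h0, h.E_zero] at h1
  exact hxy h1

theorem d_pos (h : HG D G) {x y : Pl} (hxy : x ≠ y) : 0 < G.d x y :=
  norm_pos_iff.2 (P1_V_ne h hxy)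

theorem di_norm (h : HG D G) {x y : Pl} (hxy : x ≠ y) : ‖G.di x y‖ = 1 := by
  have h1 : ‖G.V x y‖ ≠ 0 := norm_ne_zero_iff.2 (P1_V_ne h hxy)
  unfold Dat.di un
  rw [norm_div, Complex.norm_real, norm_norm, div_self h1]

private theorem P1_d_di (h : HG D G) (x y : Pl) : (G.d x y : ℂ) * G.di x y = G.V x y := by
  rcases eq_or_ne x y with rfl | hxy
  · rw [d_self h, V_self h]
    simp
  · have h1 : (‖G.V x y‖ : ℂ) ≠ 0 := by
      exact_mod_cast norm_ne_zero_iff.2 (P1_V_ne h hxy)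
    unfold Dat.di un Dat.d
    field_simp

theorem E_di (h : HG D G) (x y : Pl) : G.E x ((G.d x y : ℂ) * G.di x y) = y := by
  rw [P1_d_di h, h.EV]

theorem d_E (h : HG D G) (x : Pl) {u : ℂ} (hu : ‖u‖ = 1) (t : ℝ) :
    G.d x (G.E x ((t : ℂ) * u)) = |t| := by
  unfold Dat.d
  rw [h.VE, norm_mul, hu, mul_one, Complex.norm_real, Real.norm_eq_abs]

theorem di_E (h : HG D G) (x : Pl) {u : ℂ} (hu : ‖u‖ = 1) {t : ℝ} (ht : 0 < t) :
    G.di x (G.E x ((t : ℂ) * u)) = u := by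
  unfold Dat.di un
  have h1 : (t : ℂ) ≠ 0 := by exact_mod_cast ht.ne'
  rw [h.VE, norm_mul, hu, mul_one, Complex.norm_real, Real.norm_eq_abs, abs_of_pos ht]
  field_simp

theorem E_ne (h : HG D G) (x : Pl) {u : ℂ} (hu : ‖u‖ = 1) {t : ℝ} (ht : t ≠ 0) :
    G.E x ((t : ℂ) * u) ≠ x := by
  intro h0
  have h1 := d_E h x hu t
  rw [h0, d_self h] at h1
  exact ht (abs_eq_zero.1 h1.symm)

theorem d_geo (h : HG D G) (x : Pl) {u : ℂ} (hu : ‖u‖ = 1) (s t : ℝ) :
    G.d (G.E x ((s : ℂ) * u)) (G.E x ((t : ℂ) * u)) = |t - s| := by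
  have h1 := h.flow x u hu s (t - s)
  rw [add_sub_cancel] at h1
  rw [← h1]
  exact d_E h _ (h.dr_norm x u hu s) (t - s)

theorem V_back (h : HG D G) (x : Pl) {u : ℂ} (hu : ‖u‖ = 1) (t : ℝ) :
    G.V (G.E x ((t : ℂ) * u)) x = -((t : ℂ) * G.dr x u t) := by
  have h1 := h.flow x u hu t (-t)
  rw [add_neg_cancel, Complex.ofReal_zero, zero_mul, h.E_zero] at h1
  have h2 := h.VE (G.E x ((t : ℂ) * u)) (((-t : ℝ) : ℂ) * G.dr x u t)
  rw [h1] at h2
  rw [h2, Complex.ofReal_neg, neg_mul]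

theorem di_back (h : HG D G) (x : Pl) {u : ℂ} (hu : ‖u‖ = 1) {t : ℝ} (ht : 0 < t) :
    G.di (G.E x ((t : ℂ) * u)) x = -G.dr x u t := by
  unfold Dat.di un
  have h1 : (t : ℂ) ≠ 0 := by exact_mod_cast ht.ne'
  rw [V_back h x hu, norm_neg, norm_mul, h.dr_norm x u hu, mul_one, Complex.norm_real,
    Real.norm_eq_abs, abs_of_pos ht]
  field_simp

theorem dr_zero (h : HG D G) (x : Pl) (u : ℂ) : G.dr x u 0 = u := by
  unfold Dat.dr
  rw [Complex.ofReal_zero, zero_mul, h.E_zero, zero_add, Complex.ofReal_one, one_mul, h.VE]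

theorem dr_add (h : HG D G) (x : Pl) {u : ℂ} (hu : ‖u‖ = 1) (t s : ℝ) :
    G.dr (G.E x ((t : ℂ) * u)) (G.dr x u t) s = G.dr x u (t + s) := by
  have h1 := h.flow x u hu t s
  have h2 := h.flow x u hu t (s + 1)
  show G.V (G.E (G.E x ((t : ℂ) * u)) ((s : ℂ) * G.dr x u t))
      (G.E (G.E x ((t : ℂ) * u)) (((s + 1 : ℝ) : ℂ) * G.dr x u t)) =
    G.V (G.E x (((t + s : ℝ) : ℂ) * u)) (G.E x (((t + s + 1 : ℝ) : ℂ) * u))
  rw [h1, h2, add_assoc]

theorem E_rev (h : HG D G) (x : Pl) {u : ℂ} (hu : ‖u‖ = 1) (t s : ℝ) :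
    G.E (G.E x ((t : ℂ) * u)) ((s : ℂ) * (-G.dr x u t)) = G.E x (((t - s : ℝ) : ℂ) * u) := by
  have h1 := h.flow x u hu t (-s)
  rw [← sub_eq_add_neg] at h1
  rw [← h1]
  congr 1
  push_cast
  ring

/-- The arrival direction of the geodesic from `x` to `y` is opposite to the direction of `x`. -/
theorem dr_di (h : HG D G) {x y : Pl} (hxy : x ≠ y) : G.dr x (G.di x y) (G.d x y) = -G.di y x := by
  have h1 := di_back h x (di_norm h hxy) (d_pos h hxy)
  rw [E_di h] at h1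
  rw [h1, neg_neg]

end SR85
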