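import Pool.Agent.LibSR85.P3

/-! Row SR85 P5: everything is equivariant.

PLAN. `E_smul`: `V (g x) (g (E x v)) = R g x * v`, then `EV`. `d_smul`, `di_smul`: `V_smul`,
`R_norm`. `dr_smul`: definition and `E_smul`, `V_smul`: `dr (g x) (R g x * u) t =
V (g y) (g y') = R g y * V y y'`, `y = E x (t u)`. `B_smul`: `t ↦ B (g x) (R g x * u) t` and
`t ↦ B x u t` are `Jac` for the same `k` (`K_smul`, `E_smul`) with the same initial values:
uniqueness for a linear equation (the energy `y² + y'²` and Gronwall, or Mathlib's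
`ODE_solution_unique_univ` for the field `(y, y') ↦ (y', -k t y)`, locally Lipschitz; or: the
Wronskians with two independent solutions). `J_smul`, `U_smul` follow. `R_cont`:
`R g x = V (g x) (g (E x 1))` as `V x (E x 1) = 1`. -/

open MeasureTheory Set Filter Topology
open scoped ContDiff ENNReal NNReal ComplexConjugate

namespace SR85

open BGS (Pl Surface)

variable {Γ : Type} [Group Γ] [MulAction Γ Pl] {D : Set Pl} {G : Dat Γ}

theorem E_smul (h : HG D G) (g : Γ) (x : Pl) (v : ℂ) :
    G.E (g • x) (G.R g x * v) = g • G.E x v := by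
  have h1 := h.V_smul g x (G.E x v)
  rw [h.VE] at h1
  rw [← h1, h.EV]

theorem d_smul (h : HG D G) (g : Γ) (x y : Pl) : G.d (g • x) (g • y) = G.d x y := by
  unfold Dat.d
  rw [h.V_smul, norm_mul, h.R_norm, one_mul]

theorem di_smul (h : HG D G) (g : Γ) (x y : Pl) : G.di (g • x) (g • y) = G.R g x * G.di x y := by
  unfold Dat.di un
  rw [h.V_smul, norm_mul, h.R_norm, one_mul, mul_div_assoc]

theorem dr_smul (h : HG D G) (g : Γ) (x : Pl) (u : ℂ) (t : ℝ) :
    G.dr (g • x) (G.R g x * u) t = G.R g (G.E x ((t : ℂ) * u)) * G.dr x u t := by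
  unfold Dat.dr
  rw [mul_left_comm, E_smul h, mul_left_comm, E_smul h, h.V_smul]

private theorem P5_uniq {k y y' z z' : ℝ → ℝ} {M : ℝ} (hk : ∀ t, |k t| ≤ M) (hy : Jac k y y')
    (hz : Jac k z z') (h0 : y 0 = z 0) (h1 : y' 0 = z' 0) (t : ℝ) : y t = z t ∧ y' t = z' t := by
  obtain ⟨e, he⟩ : ∃ e : ℝ → ℝ, ∀ s, e s = (y s - z s) ^ 2 + (y' s - z' s) ^ 2 := ⟨_, fun _ => rfl⟩
  have he' : e = fun s => (y s - z s) ^ 2 + (y' s - z' s) ^ 2 := funext he
  have he0 : e 0 = 0 := by
    rw [he, h0, h1]
    ring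
  have hd : ∀ s, HasDerivAt e (2 * (y s - z s) * (y' s - z' s) +
      2 * (y' s - z' s) * (-k s * y s - -k s * z s)) s := by
    intro s
    rw [he']
    have h2 := (((hy.d1 s).sub (hz.d1 s)).pow 2).add (((hy.d2 s).sub (hz.d2 s)).pow 2)
    refine h2.congr_deriv ?_
    simp only [Pi.sub_apply]
    push_cast
    ring
  have hM : 0 ≤ M := (abs_nonneg _).trans (hk 0)
  have hb : ∀ s, |2 * (y s - z s) * (y' s - z' s) +
      2 * (y' s - z' s) * (-k s * y s - -k s * z s)| ≤ (1 + M) * e s := by
    intro s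
    have h2 : 2 * (y s - z s) * (y' s - z' s) + 2 * (y' s - z' s) * (-k s * y s - -k s * z s) =
        (1 - k s) * (2 * (y s - z s) * (y' s - z' s)) := by ring
    rw [h2, abs_mul, he]
    have h3 : |1 - k s| ≤ 1 + M := by
      refine (abs_sub _ _).trans ?_
      rw [abs_one]
      linarith [hk s]
    have h4 : |2 * (y s - z s) * (y' s - z' s)| ≤ (y s - z s) ^ 2 + (y' s - z' s) ^ 2 := by
      rw [abs_le]
      constructor
      · nlinarith [sq_nonneg (y s - z s + (y' s - z' s))]
      · nlinarith [sq_nonneg (y s - z s - (y' s - z' s))]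
    exact mul_le_mul h3 h4 (abs_nonneg _) (by linarith)
  have hle : e t ≤ 0 := by
    rcases le_total 0 t with ht | ht
    · have hg : ∀ s, HasDerivAt (fun s => Real.exp (-((1 + M) * s)) * e s)
          (Real.exp (-((1 + M) * s)) * -(1 + M) * e s + Real.exp (-((1 + M) * s)) *
            (2 * (y s - z s) * (y' s - z' s) + 2 * (y' s - z' s) * (-k s * y s - -k s * z s))) s := by
        intro s
        have h2 : HasDerivAt (fun s : ℝ => -((1 + M) * s)) (-(1 + M)) s := by
          have h3 : HasDerivAt (fun s : ℝ => (1 + M) * s) (1 + M) s := by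
            simpa using (hasDerivAt_id s).const_mul (1 + M)
          exact h3.neg
        exact (h2.exp).mul (hd s)
      have ha : Antitone fun s => Real.exp (-((1 + M) * s)) * e s := by
        refine antitone_of_deriv_nonpos (fun s => (hg s).differentiableAt) fun s => ?_
        rw [(hg s).deriv]
        have h2 := (abs_le.1 (hb s)).2
        have h3 := Real.exp_pos (-((1 + M) * s))
        nlinarith
      have h2 := ha ht
      simp only [he0, mul_zero] at h2
      have h3 := Real.exp_pos (-((1 + M) * t))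
      by_contra h4
      have h5 := mul_pos h3 (not_le.1 h4)
      linarith
    · have hg : ∀ s, HasDerivAt (fun s => Real.exp ((1 + M) * s) * e s)
          (Real.exp ((1 + M) * s) * (1 + M) * e s + Real.exp ((1 + M) * s) *
            (2 * (y s - z s) * (y' s - z' s) + 2 * (y' s - z' s) * (-k s * y s - -k s * z s))) s := by
        intro s
        have h3 : HasDerivAt (fun s : ℝ => (1 + M) * s) (1 + M) s := by
          simpa using (hasDerivAt_id s).const_mul (1 + M)
        exact (h3.exp).mul (hd s)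
      have ha : Monotone fun s => Real.exp ((1 + M) * s) * e s := by
        refine monotone_of_deriv_nonneg (fun s => (hg s).differentiableAt) fun s => ?_
        rw [(hg s).deriv]
        have h2 := (abs_le.1 (hb s)).1
        have h3 := Real.exp_pos ((1 + M) * s)
        nlinarith
      have h2 := ha ht
      simp only [he0, mul_zero] at h2
      have h3 := Real.exp_pos ((1 + M) * t)
      by_contra h4
      have h5 := mul_pos h3 (not_le.1 h4)
      linarith
  rw [he] at hle
  constructor
  · have h2 : (y t - z t) ^ 2 = 0 := le_antisymm (by nlinarith [sq_nonneg (y' t - z' t)]) (sq_nonneg _)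
    have h3 := pow_eq_zero_iff (two_ne_zero) |>.1 h2
    linarith
  · have h2 : (y' t - z' t) ^ 2 = 0 := le_antisymm (by nlinarith [sq_nonneg (y t - z t)]) (sq_nonneg _)
    have h3 := pow_eq_zero_iff (two_ne_zero) |>.1 h2
    linarith

theorem B_smul (h : HG D G) (g : Γ) (x : Pl) {u : ℂ} (hu : ‖u‖ = 1) (t : ℝ) :
    G.B (g • x) (G.R g x * u) t = G.B x u t ∧ G.Bd (g • x) (G.R g x * u) t = G.Bd x u t := by
  have hu' : ‖G.R g x * u‖ = 1 := by rw [norm_mul, h.R_norm, hu, one_mul]
  have h1 := jac_B h (g • x) hu'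
  have h2 : (fun t : ℝ => G.K (G.E (g • x) ((t : ℂ) * (G.R g x * u)))) =
      fun t : ℝ => G.K (G.E x ((t : ℂ) * u)) := by
    funext t
    rw [mul_left_comm, E_smul h, h.K_smul]
  rw [h2] at h1
  refine P5_uniq (M := G.b ^ 2) (fun t => ?_) h1 (jac_B h x hu) ?_ ?_ t
  · rw [abs_le]
    exact ⟨h.K_ge _, (h.K_le _).trans (by nlinarith [sq_nonneg G.a, sq_nonneg G.b])⟩
  · rw [h.B_zero _ _ hu', h.B_zero _ _ hu]
  · rw [h.Bd_zero _ _ hu', h.Bd_zero _ _ hu]

theorem J_smul (h : HG D G) (g : Γ) {x y : Pl} (hxy : x ≠ y) : G.J (g • x) (g • y) = G.J x y := by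
  unfold Dat.J
  rw [di_smul h, d_smul h, (B_smul h g x (di_norm h hxy) _).1]

theorem U_smul (h : HG D G) (g : Γ) {x y : Pl} (hxy : x ≠ y) : G.U (g • x) (g • y) = G.U x y := by
  unfold Dat.U
  rw [J_smul h g hxy, di_smul h, d_smul h, (B_smul h g x (di_norm h hxy) _).2]

private theorem P5_R (h : HG D G) (g : Γ) (x : Pl) :
    G.R g x = G.V (g • x) (g • G.E x 1) := by
  rw [h.V_smul, h.VE, mul_one]

theorem R_cont (hX : Surface Γ D) (h : HG D G) (g : Γ) : Continuous (G.R g) := by
  have h1 : G.R g = fun x => G.V (g • x) (g • G.E x 1) := funext fun x => P5_R h g x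
  have hg : Continuous fun z : Pl => g • z := (hX.smooth g).continuous
  have hE : Continuous fun x : Pl => G.E x 1 :=
    h.E_cont.comp (continuous_id.prodMk continuous_const)
  rw [h1]
  exact h.V_cont.comp (hg.prodMk (hg.comp hE))

theorem R_mul (h : HG D G) (g g' : Γ) (x : Pl) : G.R (g * g') x = G.R g (g' • x) * G.R g' x := by
  rw [P5_R h (g * g'), mul_smul, mul_smul, h.V_smul, ← P5_R h g']

end SR85
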